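import Pool.Agent.MP_b746ed_mp.LD.Base

attribute [-instance] AddQuantale.instAddLeftMono instCoeHTCTOfCoeTailOfCoeHTC
  SubfieldClass.toSubringClass IdemSemiring.toCanonicallyOrderedAdd RightPreLieAlgebra.toModule
  LeftPreLieAlgebra.toModule Nontrivial.to_nonempty instCoeHTCOfCoeHeadOfCoeOTC RKHS.instFunLike
  instCoeTCOfCoe Zero.instNonempty NumberField.to_charZero bot_nonempty
  covariant_swap_mul_of_covariant_mul AddQuantale.instAddRightMono instCoeOutOfCoeFun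
  One.instNonempty ContinuousMonoidHom.instCoeOutOfMonoidHomClassOfContinuousMapClass
  Action.FintypeCat.instMulActionObjFiniteOf AddTorsor.nonempty Quantale.instMulRightMono
  GrpTypeEquivalenceGrp.grpGroup IdemSemiring.toMulLeftMono MulSemiringAction.toDistribMulAction
  IsStrictOrderedRing.toIsOrderedRing MonTypeEquivalenceMon.monMonoid
  LieAdmissibleRing.toNonUnitalNonAssocRing top_nonempty
  NonUnitalAlgSemiHomClass.toDistribMulActionSemiHomClass AddCommMonoidWithOne.toAddMonoidWithOne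
  IsStarProjection.instTrivialStarOfStarOrderedRing ConnectedSpace.toNonempty
  IsOrderedMonoid.toMulLeftMono Quantale.instMulLeftMono IsometryClass.instCoeOutIsometryEquiv
  Algebra.IsFiniteSplit.instFree
  ContinuousAddMonoidHom.instCoeOutOfAddMonoidHomClassOfContinuousMapClass instCoeTOfCoeDep
  Torsor.toMulAction Group.instTorsor HomeomorphClass.instCoeOutHomeomorph
  IsScalarTower.complexToReal

/-! Large local dimension: penalty, merging, localisation, purification and replacement lemmas. -/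

section
set_option autoImplicit false
set_option linter.unusedSectionVars false
open scoped ComplexOrder MatrixOrder
open Matrix

namespace Pool.Agent.MP_b746ed_mp.LD
open KF
open H14 (trf dg)

theorem t_PEN : S_PEN := by
  intro β _ _ R H P K lam hR hH hK hO hl hP
  have hQ := hR.compl
  have P1 := hP.compl
  have e : H = Rᴴ * H * R + (1 - R) * H * (1 - R) + (1 - R) * H * R + ((1 - R) * H * R)ᴴ := by
    rw [conjTranspose_mul, conjTranspose_mul, hQ.1, hR.1, hH]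
    noncomm_ring
  have a1 : -(K * tp (1 - P) R) ≤ tp (1 - P) (Rᴴ * H * R) := by
    have := tp_mono (con_iff.1 P1).1 (conj_le (hO.neg.le hK (by simp [hH])) R)
    rw [Matrix.mul_smul, Matrix.smul_mul, Matrix.mul_one, tp_rsmul, Matrix.mul_neg, Matrix.neg_mul,
      tp_eq_rt, Matrix.mul_neg, rt_neg, ← tp_eq_rt] at this
    conv_rhs at this => rw [hR.1, hR.2]
    linarith
  have a2 : rt (Rᴴ * H * R) = rt (R * H) := by rw [rt_comm, ← Matrix.mul_assoc, hR.1, hR.2]
  have a3 : tp P ((1 - R) * H * R)ᴴ = tp P ((1 - R) * H * R) := by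
    rw [tp_eq_rt, ← rt_conj, conjTranspose_mul, conjTranspose_conjTranspose, hP.1.isHermitian.eq,
      rt_comm, tp_eq_rt]
  have a4 : tp P ((1 - R) * H * R) = -rt (R * (1 - P) * ((1 - R) * H * R)) := by
    have z : R * (1 - R) = 0 := by rw [mul_sub, hR.2, mul_one, sub_self]
    rw [Matrix.mul_assoc R, rt_comm, Matrix.mul_assoc (1 - P), Matrix.mul_assoc _ R R, hR.2,
      ← tp_eq_rt, tp_compl, rt_comm, ← Matrix.mul_assoc, z, Matrix.zero_mul, rt_zero, zero_sub, neg_neg]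
  have a5 : hs (R * (1 - P)) ≤ tp (1 - P) R := by
    have := rt_mono (conj_le (sq_le_of_le (c := 1) (con_iff.1 P1).1
      (by simpa only [one_smul, tsub_le_iff_right, le_add_iff_nonneg_right] using (con_iff.1 P1).2)) R)
    rw [one_smul, hR.1, rt_comm (R * (1 - P)) R, ← Matrix.mul_assoc R R, hR.2,
      rt_comm R (1 - P)] at this
    rwa [hs_eq_rt', conjTranspose_mul, P1.1.isHermitian.eq, hR.1, ← Matrix.mul_assoc,
      Matrix.mul_assoc R]
  have a6 := (abs_le.1 ((abs_rt_le _).trans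
    (norm_trace_le (R * (1 - P)) ((1 - R) * H * R)))).1
  have a7 : ∀ u v : ℝ, 2 * (u * v) ≤ (lam - K) * u ^ 2 + v ^ 2 / (lam - K) := fun u v => by
    have h : 0 < lam - K := sub_pos.2 hl
    rw [← sub_le_iff_le_add', le_div_iff₀ h]
    linarith only [sq_nonneg ((lam - K) * u - v)]
  have a8 := a7 √(hs (R * (1 - P))) √(hs ((1 - R) * H * R))
  rw [Real.sq_sqrt (hs_nonneg _), Real.sq_sqrt (hs_nonneg _)] at a8
  have a9 := tp_compl P (Rᴴ * H * R)
  have a0 := congrArg (tp P) e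
  rw [tp_add, tp_add, tp_add, a3] at a0
  linarith only [mul_le_mul_of_nonneg_left a5 (sub_pos.2 hl).le, a1, a2, a4, a6, a8, a9, a0]

theorem t_RNG : S_RNG := by
  intro β γ _ _ _ _ J E hE hJ hX
  obtain ⟨b, l, hb, e1, hW, hl⟩ := exists_basis (A := J * Jᴴ) (by simp)
  have hJ' : E * Jᴴ = Jᴴ := by rw [← hE.1, ← conjTranspose_mul, hJ]
  have hXc : (Jᴴ * J - E)ᴴ = Jᴴ * J - E := by simp [hE.1]
  have h : ∀ k, l k ≠ 0 → 1 / 2 ≤ l k := fun k hk => by
    have h1 : nv (Jᴴ *ᵥ b k) = l k := by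
      rw [nv_eq_ip, ← ip_mulVec, mulVec_mulVec, hl, ← Complex.coe_smul, ip_smul_right, hb,
        if_pos rfl, mul_one, Complex.ofReal_re]
    have h2 := hX (Jᴴ *ᵥ b k)
    rw [sub_mulVec, mulVec_mulVec, mulVec_mulVec, hJ', Matrix.mul_assoc, ← mulVec_mulVec, hl,
      mulVec_smul, ← one_smul ℝ (Jᴴ *ᵥ b k), smul_smul, ← sub_smul, nv_rsmul, one_smul, h1] at h2
    have h3 := le_of_mul_le_mul_right h2 (lt_of_le_of_ne (h1 ▸ nv_nonneg _) hk.symm)
    nlinarith only [h3]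
  have cs : ∀ f : β → ℝ, 1 - ∑ k, f k • op (b k) (b k) = ∑ k, (1 - f k) • op (b k) (b k) :=
    fun f => by simp only [← e1, ← Finset.sum_sub_distrib, sub_smul]
  set R := ∑ k, (if l k = 0 then (0 : ℝ) else 1) • op (b k) (b k) with hR
  have pR : IsProj R := ⟨basis_conj _ _, by
    rw [hR, basis_mul hb]
    exact Finset.sum_congr rfl fun k _ => by split_ifs <;> simp⟩
  have z : (1 - R) * J = 0 := by
    refine self_mul_conjTranspose_eq_zero.1 ?_
    rw [conjTranspose_mul, ← Matrix.mul_assoc, Matrix.mul_assoc _ J, hW, hR, cs, basis_mul hb,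
      Finset.sum_eq_zero fun k _ => by split_ifs with h <;> simp [h], Matrix.zero_mul]
  have r2 : R ≤ (2 : ℝ) • (J * Jᴴ) := by
    rw [hW, Finset.smul_sum]
    simp only [smul_smul]
    refine basis_le _ fun k => ?_
    split_ifs with hk
    · simp [hk]
    · linarith only [h k hk]
  refine ⟨R, pR, z, r2, fun H K hH hK hO => ⟨?_, fun N => ?_⟩⟩
  · set Y := ∑ k, (if l k = 0 then (0 : ℝ) else (1 - l k) ^ 2) • op (b k) (b k) with hY
    have y1 : R = J * (E - (Jᴴ * J - E)) * Jᴴ + Y := by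
      have : J * (E - (Jᴴ * J - E)) * Jᴴ = J * Jᴴ + J * Jᴴ * (1 - J * Jᴴ) := by
        simp only [Matrix.mul_sub, Matrix.sub_mul, hJ, Matrix.mul_assoc, Matrix.mul_one]
        abel
      rw [this, hW, cs, basis_mul hb, hR, hY]
      simp only [← Finset.sum_add_distrib, ← add_smul]
      refine Finset.sum_congr rfl fun k _ => congrArg (· • _) ?_
      split_ifs with hk
      · simp [hk]
      · ring
    have y2 : Y ≤ (2 : ℝ) • ((1 - J * Jᴴ) * (J * Jᴴ) * (1 - J * Jᴴ)) := by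
      rw [hW, cs, basis_mul hb, basis_mul hb, Finset.smul_sum]
      simp only [smul_smul]
      refine basis_le _ fun k => ?_
      split_ifs with hk
      · simp [hk]
      · linarith only [mul_nonneg (sub_nonneg.2 (h k hk)) (sq_nonneg (1 - l k))]
    have y3 : (1 - J * Jᴴ) * (J * Jᴴ) * (1 - J * Jᴴ) = J * (Jᴴ * J - E) * (J * (Jᴴ * J - E))ᴴ := by
      rw [conjTranspose_mul, hXc, Matrix.sub_mul _ E, hJ', Matrix.mul_sub J, hJ]
      simp only [Matrix.mul_sub, Matrix.sub_mul, Matrix.mul_assoc, Matrix.mul_one, Matrix.one_mul]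
      abel
    have y4 : Jᴴ * J ≤ (3 / 2 : ℝ) • (1 : Matrix γ γ ℂ) := by
      have := add_le_add (hX.le (by norm_num) hXc) (con_iff.1 hE.con).2
      rw [sub_add_cancel] at this
      refine this.trans (le_of_eq ?_)
      rw [← one_smul ℝ (1 : Matrix γ γ ℂ), smul_smul, ← add_smul, one_smul]
      norm_num
    have y5 := rt_mono (conj_le y4 (Jᴴ * J - E))
    rw [Matrix.mul_smul, Matrix.smul_mul, rt_rsmul, Matrix.mul_one, ← hs_eq_rt,
      ← Matrix.mul_assoc, ← conjTranspose_mul, Matrix.mul_assoc, ← hs_eq_rt] at y5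
    have y6 := rt_mono y2
    rw [y3, rt_rsmul, ← hs_eq_rt'] at y6
    have y7 := tp_mono (basis_nonneg b (f := fun k => if l k = 0 then (0 : ℝ) else (1 - l k) ^ 2)
      fun k => by positivity) (hO.le hK hH)
    rw [tp_rsmul, tp_eq_rt, tp_eq_rt, Matrix.mul_one, ← hY] at y7
    rw [y1, Matrix.add_mul, rt_add, Matrix.mul_assoc, Matrix.mul_assoc, rt_comm, Matrix.mul_assoc]
    linarith only [mul_le_mul_of_nonneg_left (y6.trans (mul_le_mul_of_nonneg_left y5 zero_le_two)) hK, y7]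
  · have a1 := rt_mono (conj_le r2 ((1 - R) * H)ᴴ)
    have a2 := pR.compl.con.opb.hs_mul (H * J - J * N)
    rw [Matrix.mul_sub, ← Matrix.mul_assoc, ← Matrix.mul_assoc, z, Matrix.zero_mul, sub_zero,
      hs_eq_rt', conjTranspose_mul] at a2
    rw [conjTranspose_conjTranspose, Matrix.mul_smul, Matrix.smul_mul, rt_rsmul] at a1
    rw [hs_eq_rt', conjTranspose_mul, pR.1, ← Matrix.mul_assoc, Matrix.mul_assoc _ R R, pR.2]
    simp only [Matrix.mul_assoc] at a1 a2 ⊢
    linarith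

end Pool.Agent.MP_b746ed_mp.LD
end

section
set_option autoImplicit false
set_option linter.unusedSectionVars false
open scoped ComplexOrder MatrixOrder
open Matrix

namespace Pool.Agent.MP_b746ed_mp.LD
open KF
open H14 (trf dg)

namespace MRG
variable {β κ : Type} [Fintype β] [DecidableEq β] [Fintype κ] [DecidableEq κ]

lemma root {M : Matrix β β ℂ} (h0 : 0 ≤ M) (h1 : M ≤ (1 / 2 : ℝ) • (1 : Matrix β β ℂ)) :
    ∃ T T' : Matrix β β ℂ, Tᴴ = T ∧ T'ᴴ = T' ∧ T * T = 1 - M ∧ T * T' = 1 ∧ T' * T = 1 ∧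
      T' * T' ≤ (2 : ℝ) • (1 : Matrix β β ℂ) := by
  obtain ⟨b, l, hb, e1, hW, hl⟩ := exists_basis (herm_of_nonneg h0)
  have h : ∀ k, 1 / 2 ≤ 1 - l k := fun k => by
    have := (le_iff_ip (herm_of_nonneg h0) (by simp)).1 h1 (b k)
    rw [ip_rsmul_one, nv_eq_ip, hl, ← Complex.coe_smul, ip_smul_right, hb, if_pos rfl, mul_one,
      Complex.ofReal_re, Complex.one_re] at this
    linarith only [this]
  have p : ∀ k, √(1 - l k) ≠ 0 := fun k => (Real.sqrt_pos.2 (by linarith only [h k])).ne'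
  have q : ∀ k, √(1 - l k) * √(1 - l k) = 1 - l k := fun k =>
    Real.mul_self_sqrt (by linarith [h k])
  refine ⟨∑ k, √(1 - l k) • op (b k) (b k), ∑ k, (√(1 - l k))⁻¹ • op (b k) (b k), basis_conj _ _,
    basis_conj _ _, ?_, ?_, ?_, ?_⟩ <;> rw [basis_mul hb]
  · conv_rhs => rw [hW, ← e1, ← Finset.sum_sub_distrib]
    simp only [q, sub_smul]
  · simp only [mul_inv_cancel₀ (p _), e1]
  · simp only [inv_mul_cancel₀ (p _), e1]
  · rw [← e1, Finset.smul_sum]
    simp only [smul_smul, ← mul_inv, q]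
    exact basis_le _ fun k => (inv_le_comm₀ (by linarith only [h k]) (by norm_num)).2 (by linarith [h k])

lemma diag_le {A B : Matrix κ κ ℂ} (h : A ≤ B) (k : κ) : (A k k).re ≤ (B k k).re := by
  have := (Complex.nonneg_iff.1 ((le_def.1 h).diag_nonneg (i := k))).1
  rw [Matrix.sub_apply, Complex.sub_re] at this
  linarith

end MRG

theorem t_MRG : S_MRG := by
  intro β κ Λ _ _ _ _ _ _ V V0 Z S b t hb0 hb hZ hM hV hG
  have M0 : 0 ≤ ∑ l, Z l := Finset.sum_nonneg fun l _ => hZ l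
  obtain ⟨T, T', t1, t2, t3, t4, t5, t6⟩ := MRG.root M0 (hM.trans (rsmul_le_rsmul one_nonneg hb))
  set n := ∑ k, ((V0ᴴ * (∑ l ∈ (S k)ᶜ, Z l) * V0 : Matrix κ κ ℂ) k k).re
  let D : Λ → Matrix κ κ ℂ := fun l => diagonal fun k => if l ∈ S k then 0 else 1
  let X : Λ → Matrix κ κ ℂ := fun l => V0ᴴ * Z l * V0
  let B : Matrix β κ ℂ := ∑ l, Z l * V0 * D l
  have hD : ∀ l, (D l)ᴴ = D l := fun l => by
    simp [D, diagonal_conjTranspose, Pi.star_def, apply_ite]
  have cpl : ∀ k (F : Λ → ℂ), ∑ l, F l * (if l ∈ S k then 0 else 1) = ∑ l ∈ (S k)ᶜ, F l :=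
    fun k F => by
      rw [← Finset.sum_add_sum_compl (S k), Finset.sum_eq_zero fun l hl => by simp [hl], zero_add]
      exact Finset.sum_congr rfl fun l hl => by simp [Finset.mem_compl.1 hl]
  have hB : ∀ a k, B a k = ((∑ l ∈ (S k)ᶜ, Z l) * V0 : Matrix β κ ℂ) a k := fun a k => by
    simp only [B, D, Matrix.sum_apply, mul_diagonal, cpl, Matrix.sum_mul]
  have eV : V = T * T * V0 + B := by
    ext a k
    rw [Matrix.add_apply, hB, ← Matrix.add_apply, ← Matrix.add_mul, t3, ← hV,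
      ← Finset.sum_add_sum_compl (S k), sub_add_eq_sub_sub, sub_add_cancel]
  have eG : (Matrix.of fun k k' =>
      (V0ᴴ * (1 - ∑ l ∈ S k ∩ S k', Z l) * V0 : Matrix κ κ ℂ) k k') =
      V0ᴴ * V0 - ∑ l, (1 - D l) * X l * (1 - D l) := by
    ext k k'
    simp only [of_apply, Matrix.mul_sub, Matrix.sub_mul, Matrix.mul_one, Matrix.one_mul,
      Matrix.mul_sum, Matrix.sum_mul, Matrix.sub_apply, Matrix.sum_apply, D, mul_diagonal,
      diagonal_mul, X]
    rw [← Finset.univ_inter (S k ∩ S k'), ← Finset.sum_ite_mem]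
    congr 1
    refine Finset.sum_congr rfl fun l _ => ?_
    by_cases h : l ∈ S k <;> by_cases h' : l ∈ S k' <;> simp [h, h']
  have e1 : V0ᴴ * B = ∑ l, X l * D l := by simp only [B, X, Matrix.mul_sum, Matrix.mul_assoc]
  have e2 : Bᴴ * V0 = ∑ l, D l * X l := by
    simp only [B, X, conjTranspose_sum, Matrix.sum_mul, conjTranspose_mul, hD,
      herm_of_nonneg (hZ _), Matrix.mul_assoc]
  have e3 : V0ᴴ * (T * (T * V0)) = V0ᴴ * V0 - ∑ l, X l := by
    rw [← Matrix.mul_assoc T, t3]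
    simp only [X, Matrix.sub_mul, Matrix.mul_sub, Matrix.one_mul, Matrix.sum_mul, Matrix.mul_sum,
      Matrix.mul_assoc]
  have c4 : ∀ Y : Matrix β κ ℂ, T * (T' * Y) = Y := fun Y => by
    rw [← Matrix.mul_assoc, t4, Matrix.one_mul]
  have c5 : ∀ Y : Matrix β κ ℂ, T' * (T * Y) = Y := fun Y => by
    rw [← Matrix.mul_assoc, t5, Matrix.one_mul]
  have eW : (T' * V)ᴴ * (T' * V) - 1 = (V0ᴴ * V0 - ∑ l, (1 - D l) * X l * (1 - D l) - 1) +
      ∑ l, (D l)ᴴ * X l * D l + Bᴴ * (T' * T') * B := by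
    have : ∑ l, (1 - D l) * X l * (1 - D l) =
        ∑ l, X l - ∑ l, X l * D l - ∑ l, D l * X l + ∑ l, D l * X l * D l := by
      simp only [← Finset.sum_sub_distrib, ← Finset.sum_add_distrib]
      exact Finset.sum_congr rfl fun l _ => by noncomm_ring
    rw [this, eV]
    simp only [conjTranspose_mul, conjTranspose_add, t1, t2, hD, Matrix.mul_add, Matrix.add_mul,
      Matrix.mul_assoc, c4, c5, e1, e2, e3]
    abel
  have n1 : rt (∑ l, (D l)ᴴ * X l * D l) = n := by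
    simp only [rt_eq_sum, hD, n, Matrix.mul_sum, Matrix.sum_mul, Matrix.sum_apply, D, mul_diagonal,
      diagonal_mul, ← cpl, X]
    refine Finset.sum_congr rfl fun k _ => congrArg _ (Finset.sum_congr rfl fun l _ => ?_)
    split_ifs <;> simp
  have n2 : rt (Bᴴ * B) ≤ b * n := by
    rw [rt_eq_sum, Finset.mul_sum]
    refine Finset.sum_le_sum fun k _ => ?_
    have N0 : 0 ≤ ∑ l ∈ (S k)ᶜ, Z l := Finset.sum_nonneg fun l _ => hZ l
    have := MRG.diag_le (conj_le (sq_le_of_le N0 ((Finset.sum_le_sum_of_subset_of_nonneg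
      (Finset.subset_univ _) fun l _ _ => hZ l).trans hM)) V0) k
    rw [Matrix.mul_smul, Matrix.smul_mul, Matrix.smul_apply, Complex.smul_re, smul_eq_mul] at this
    refine le_trans (le_of_eq ?_) this
    conv_rhs => rw [← Matrix.mul_assoc, Matrix.mul_assoc, ← herm_of_nonneg N0, ← conjTranspose_mul,
      herm_of_nonneg N0]
    simp only [Matrix.mul_apply (M := conjTranspose _), conjTranspose_apply, hB]
  have u : Up ((T' * V)ᴴ * (T' * V) - 1) (t + (1 + 2 * b) * n) := by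
    rw [eG] at hG
    have u2 := up_psd (Finset.sum_nonneg fun l (_ : l ∈ Finset.univ) =>
      conj_nonneg (conj_nonneg (hZ l) V0) (D l))
    have u3 := (up_psd (conj_nonneg (rsmul_nonneg one_nonneg zero_le_two) B)).mono (conj_le t6 B)
      le_rfl
    rw [Matrix.mul_smul, Matrix.smul_mul, rt_rsmul, Matrix.mul_one] at u3
    rw [eW]
    exact ((hG.add u2).add u3).mono le_rfl (by linarith only [n1, n2])
  have := u.gram.conj (T := T) (opb_iff.2 (by rw [t1, t3]; simpa only [one_pow, one_smul, tsub_le_iff_right, le_add_iff_nonneg_right] using M0))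
  rwa [t1, conjTranspose_mul, t2, Matrix.mul_sub, Matrix.sub_mul, Matrix.mul_one, t3,
    ← Matrix.mul_assoc T, c4, Matrix.mul_assoc, Matrix.mul_assoc, t5, Matrix.mul_one,
    ← sub_add, sub_add_eq_add_sub] at this

end Pool.Agent.MP_b746ed_mp.LD
end

section
set_option autoImplicit false
set_option linter.unusedSectionVars false
open scoped ComplexOrder MatrixOrder
open Matrix

namespace Pool.Agent.MP_b746ed_mp.LD
open KF
open H14 (trf dg)

namespace REP
variable {A κ : Type} [Fintype A] [DecidableEq A] [Fintype κ] [DecidableEq κ]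

lemma bk_mul (X Y : Matrix (A × κ) (A × κ) ℂ) (a c : A) :
    bk (X * Y) a c = ∑ b, bk X a b * bk Y b c := by
  ext k l
  simp only [bk, Matrix.mul_apply, Fintype.sum_prod_type, of_apply, Matrix.sum_apply]

lemma bk_conj (X : Matrix (A × κ) (A × κ) ℂ) (a b : A) : (bk X a b)ᴴ = bk Xᴴ b a := rfl

lemma bk_sub (X Y : Matrix (A × κ) (A × κ) ℂ) (a b : A) :
    bk (X - Y) a b = bk X a b - bk Y a b := rfl

lemma bk_one (a b : A) :
    bk (1 : Matrix (A × κ) (A × κ) ℂ) a b = if a = b then 1 else 0 := by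
  ext k l
  by_cases h : a = b <;> simp [bk, one_apply, h]

lemma rt_bk (X : Matrix (A × κ) (A × κ) ℂ) : rt X = ∑ a, rt (bk X a a) := by
  simp only [rt_eq_sum, Fintype.sum_prod_type, bk, of_apply]

lemma bk_nonneg {X : Matrix (A × κ) (A × κ) ℂ} (h : 0 ≤ X) (a : A) : 0 ≤ bk X a a :=
  nonneg_def.2 ((nonneg_def.1 h).submatrix fun k => (a, k))

lemma bk_con {P : Matrix (A × κ) (A × κ) ℂ} (h : Con P) (a : A) : Con (bk P a a) :=
  h.submatrix (e := fun k => (a, k)) fun _ _ h => (Prod.ext_iff.1 h).2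

lemma bk_sq {P : Matrix (A × κ) (A × κ) ℂ} (h : IsProj P) (a : A) :
    bk P a a = ∑ b, (bk P b a)ᴴ * bk P b a := by
  conv_lhs => rw [← h.2, bk_mul]
  simp only [bk_conj, h.1]

lemma bk_opb {P : Matrix (A × κ) (A × κ) ℂ} (h : IsProj P) (a b : A) : Opb (bk P a b) 1 := by
  rw [opb_iff, one_pow, one_smul]
  refine le_trans ?_ (con_iff.1 (bk_con h.con b)).2
  rw [bk_sq h]
  exact Finset.single_le_sum (f := fun c => (bk P c b)ᴴ * bk P c b)
    (fun c _ => nonneg_def.2 (posSemidef_conjTranspose_mul_self _)) (Finset.mem_univ a)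

lemma hs_symm {P : Matrix (A × κ) (A × κ) ℂ} (h : IsProj P) (a b : A) :
    hs (bk P a b) = hs (bk P b a) := by rw [← hs_conj, bk_conj, h.1]

lemma sum_hs {P : Matrix (A × κ) (A × κ) ℂ} (h : IsProj P) (a : A) :
    ∑ b, hs (bk P a b) = rt (bk P a a) := by
  rw [bk_sq h, rt_sum]
  exact Finset.sum_congr rfl fun b _ => by rw [hs_symm h, hs_eq_rt]

lemma amgm {h y η : ℝ} (hh : 0 ≤ h) (hy : 0 ≤ y) (hη : 0 < η) :
    √h * √y ≤ η / 2 * h + y / (2 * η) := by
  have e : η / 2 * h + y / (2 * η) - √h * √y = (η * √h - √y) ^ 2 / (2 * η) := by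
    field_simp
    rw [sub_sq, mul_pow, Real.sq_sqrt hh, Real.sq_sqrt hy]
    ring
  have : 0 ≤ (η * √h - √y) ^ 2 / (2 * η) := by positivity
  linarith

/-- the weight of the spectral projector on a block with a gap -/
lemma weight {G P : Matrix (A × κ) (A × κ) ℂ} (hP : Spec (G - 1) P) {η y : ℝ} (hη : 0 < η)
    (hη1 : η ≤ 1) (hy : 0 ≤ y) (a : A) (h1 : Up (bk G a a - (1 - η) • (1 : Matrix κ κ ℂ)) y)
    (h2 : ∀ b, b ≠ a → hs (bk G b a) ≤ y) :
    rt (bk P a a) ≤ (Fintype.card A + 2) / η ^ 2 * y := by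
  have a0 := rt_nonneg (bk_nonneg hP.2.2.1 a)
  rw [bk_mul, rt_sum] at a0
  have a1 : ∀ b ∈ Finset.univ, rt (bk P a b * bk (G - 1) b a) ≤
      (η / 2 * hs (bk P a b) + y / (2 * η)) + if b = a then y - η * rt (bk P a a) else 0 := by
    intro b _
    have p0 := hs_nonneg (bk P a b)
    rw [bk_sub, bk_one]
    split_ifs with h
    · subst h
      have := h1 _ (bk_con hP.1.con b)
      rw [tp_sub, tp_rsmul, tp_one] at this
      rw [← tp_eq_rt, tp_sub, tp_one]
      have p1 : 0 ≤ η / 2 * hs (bk P b b) + y / (2 * η) := by positivity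
      unfold rt
      linarith
    · rw [sub_zero, add_zero]
      refine (rt_le_norm _).trans ((norm_trace_le _ _).trans (le_trans ?_ (amgm p0 hy hη)))
      gcongr
      exact h2 b h
  have a2 := a0.trans (Finset.sum_le_sum a1)
  rw [Finset.sum_add_distrib, Finset.sum_add_distrib, ← Finset.mul_sum, sum_hs hP.1,
    Finset.sum_ite_eq', if_pos (Finset.mem_univ a), Finset.sum_const, Finset.card_univ,
    nsmul_eq_mul] at a2
  rw [div_mul_eq_mul_div, le_div_iff₀ (by positivity)]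
  have e : (Fintype.card A : ℝ) * (y / (2 * η)) * (2 * η) = Fintype.card A * y := by field_simp
  have a3 := mul_nonneg a2 (by positivity : 0 ≤ 2 * η)
  have a4 : η * y ≤ y := mul_le_of_le_one_left hy hη1
  linarith only [e, a3, a4]

end REP

open REP in
theorem t_REP : S_REP := by
  intro A _ _ K η hK hη hη1
  set C0 : ℝ := (Fintype.card A + 2) / η ^ 2 * K with hC0
  have c1 : 1 ≤ C0 := by
    refine one_le_mul_of_one_le_of_one_le ?_ hK
    rw [le_div_iff₀ (by positivity)]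
    have : η ^ 2 ≤ 1 := pow_le_one₀ hη.le hη1
    have : (0 : ℝ) ≤ Fintype.card A := by positivity
    linarith
  refine ⟨Fintype.card A ^ 2 * C0 + 1, by positivity, ?_⟩
  intro κ _ _ G G' Pu g D t hG hg hD h1 h2 h3 h4
  obtain ⟨P, hP, -⟩ := exists_spec (A := G - 1) (by simp [hG])
  have gD : 0 ≤ g * D := mul_nonneg hg hD
  have w : ∀ a, a ∉ Pu → rt (bk P a a) ≤ C0 * D := fun a ha => by
    rw [hC0, mul_assoc]
    exact weight hP hη hη1 (by positivity) a (h2 a ha).1 fun b hb => (h3 b a hb).1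
  have w' : ∀ a b, a ∉ Pu → hs (bk P a b) ≤ C0 * D := fun a b ha => by
    refine le_trans ?_ (w a ha)
    rw [← sum_hs hP.1]
    exact Finset.single_le_sum (f := fun c => hs (bk P a c)) (fun c _ => hs_nonneg _)
      (Finset.mem_univ b)
  have key : ∀ a b, rt (bk P a b * bk (G - G') b a) ≤ C0 * (g * D) := fun a b => by
    rw [bk_sub]
    by_cases hab : b = a
    · subst hab
      have p0 := (con_iff.1 (bk_con hP.1.con b)).1
      rw [← tp_eq_rt, tp_sub]
      by_cases hb : b ∈ Pu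
      · have := tp_mono p0 (h1 b hb)
        have : 0 ≤ C0 * (g * D) := by positivity
        linarith
      · have := tp_mono p0 (h2 b hb).2
        rw [tp_add, tp_rsmul, tp_one] at this
        have q := mul_le_mul_of_nonneg_left (w b hb) hg
        unfold rt at q
        linarith only [this, q]
    · refine (rt_le_norm _).trans ?_
      by_cases hb : b ∈ Pu ∧ a ∈ Pu
      · exact ((h3 b a hab).2.1 hb _ (bk_opb hP.1 a b)).trans (le_mul_of_one_le_left gD c1)
      · have q1 := (h3 b a hab).2.2 hb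
        have q2 : hs (bk P a b) ≤ C0 * D := by
          by_cases ha : a ∈ Pu
          · rw [hs_symm hP.1]; exact w' b a fun h => hb ⟨h, ha⟩
          · exact w' a b ha
        refine (norm_trace_le _ _).trans ?_
        rw [← Real.sqrt_mul (hs_nonneg _)]
        refine Real.sqrt_le_iff.2 ⟨by positivity, ?_⟩
        refine (mul_le_mul q2 q1 (hs_nonneg _) (by positivity)).trans ?_
        have : C0 * (g * D) ^ 2 ≤ C0 * (C0 * (g * D) ^ 2) :=
          mul_le_mul_of_nonneg_left (le_mul_of_one_le_left (sq_nonneg _) c1) (by positivity)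
        linarith only [this]
  refine hP.up.mono le_rfl ?_
  have e : G - 1 = (G' - 1) + (G - G') := by abel
  have q := h4 P hP.1.con
  have s : tp P (G - G') ≤ Fintype.card A ^ 2 * (C0 * (g * D)) := by
    rw [tp_eq_rt, rt_bk]
    simp only [bk_mul, rt_sum]
    refine (Finset.sum_le_sum fun a _ => Finset.sum_le_sum fun b _ => key a b).trans ?_
    simp only [Finset.sum_const, Finset.card_univ, nsmul_eq_mul]
    exact le_of_eq (by ring)
  rw [e, tp_add]
  linarith only [gD, q, s]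

end Pool.Agent.MP_b746ed_mp.LD
end

section
set_option autoImplicit false
set_option linter.unusedSectionVars false
open scoped ComplexOrder MatrixOrder
open Matrix

namespace Pool.Agent.MP_b746ed_mp.LD
open KF
open H14 (trf dg)

namespace GS
variable {β A : Type} [Fintype β] [DecidableEq β]

lemma sq_nonneg' {X : Matrix β β ℂ} (h : Xᴴ = X) : 0 ≤ X * X := by
  simpa only [h, mul_one] using conj_nonneg one_nonneg X

lemma tp_sq (P N : Matrix β β ℂ) (c : ℝ) :
    tp P ((N - c • (1 : Matrix β β ℂ)) * (N - c • (1 : Matrix β β ℂ))) =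
      tp P (N * N) - 2 * c * tp P N + c ^ 2 * rt P := by
  simp only [sub_mul, mul_sub, smul_mul_assoc, mul_smul_comm, one_mul, mul_one, tp_sub, tp_rsmul,
    tp_one, rt]
  ring

/-- the square of a sum is the sum of the squares up to the cross terms -/
lemma cross (s : Finset A) (Z : A → Matrix β β ℂ) {D : ℝ} (hD : 0 ≤ D)
    (h : ∀ a ∈ s, ∀ b ∈ s, a ≠ b → Tn (Z a * Z b) D) {P : Matrix β β ℂ} (hP : Con P) :
    |tp P ((∑ a ∈ s, Z a) * ∑ a ∈ s, Z a) - ∑ a ∈ s, tp P (Z a * Z a)| ≤ s.card ^ 2 * D := by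
  classical
  rw [Finset.sum_mul_sum, tp_sum, ← Finset.sum_sub_distrib]
  refine (Finset.abs_sum_le_sum_abs _ _).trans ?_
  rw [sq, mul_assoc, ← nsmul_eq_mul]
  refine Finset.sum_le_card_nsmul _ _ _ fun a ha => ?_
  rw [tp_sum, ← Finset.add_sum_erase _ _ ha, add_sub_cancel_left]
  refine (Finset.abs_sum_le_sum_abs _ _).trans ?_
  refine (Finset.sum_le_card_nsmul _ _ D fun b hb => ?_).trans ?_
  · exact (h a ha b (Finset.mem_of_mem_erase hb) (Finset.ne_of_mem_erase hb).symm).abs_tp hP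
  · rw [nsmul_eq_mul]
    exact mul_le_mul_of_nonneg_right (Nat.cast_le.2 (Finset.card_erase_le)) hD

end GS

theorem t_GS : S_GS := by
  intro β A _ _ s Z η D h0 h1 hD hZ hT P hP
  have hH : (∑ a ∈ s, Z a - (1 - η / 2) • (1 : Matrix β β ℂ))ᴴ =
      ∑ a ∈ s, Z a - (1 - η / 2) • (1 : Matrix β β ℂ) := by
    rw [conjTranspose_sub, herm_of_nonneg (Finset.sum_nonneg fun a ha => (hZ a ha).1)]
    simp
  have hP0 := (con_iff.1 hP).1
  have a1 := tp_nonneg hP.1 (nonneg_def.1 (GS.sq_nonneg' hH))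
  have a2 := (abs_le.1 (GS.cross s Z hD hT hP)).2
  have a3 : ∑ a ∈ s, tp P (Z a * Z a) ≤ (1 - η) * tp P (∑ a ∈ s, Z a) := by
    rw [tp_sum, Finset.mul_sum]
    refine Finset.sum_le_sum fun a ha => ?_
    rw [← tp_rsmul]
    exact tp_mono hP0 (sq_le_of_le (hZ a ha).1 (hZ a ha).2)
  have a4 := mul_nonneg (mul_nonneg h0 (by linarith only [h1] : 0 ≤ 2 - η)) (rt_nonneg hP0)
  rw [GS.tp_sq] at a1
  rw [tp_sub, tp_rsmul, tp_one]
  change _ - _ * rt P ≤ _
  linarith only [a1, a2, a3, a4]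

namespace WIN
variable {β : Type} [Fintype β] [DecidableEq β]

/-- the spectral window around one -/
lemma window {Y : Matrix β β ℂ} (hY : Yᴴ = Y) {e t : ℝ} {f : ℝ → ℝ}
    (hf : ∀ x, f x ≤ max (x - 1) 0 + if |x - 1| < e then e else 0) (ht : Up (Y - 1) t) :
    ∃ P, Con P ∧ trf f Y ≤ t + e * rt P ∧ tp P ((Y - 1) * (Y - 1)) ≤ e ^ 2 * rt P := by
  rw [up_iff_trf hY] at ht
  obtain ⟨b, l, hb, h1, hW, -⟩ := exists_basis hY
  refine ⟨∑ k, (if |l k - 1| < e then (1 : ℝ) else 0) • op (b k) (b k), con_iff.2 ⟨?_, ?_⟩, ?_, ?_⟩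
  · exact basis_nonneg b fun k => by split_ifs <;> norm_num
  · rw [← h1]
    exact basis_le b fun k => by split_ifs <;> norm_num
  · rw [hW, basis_trf hb] at ht ⊢
    rw [basis_rt hb, Finset.mul_sum]
    refine (Finset.sum_le_sum fun k _ => hf (l k)).trans ?_
    rw [Finset.sum_add_distrib]
    exact add_le_add ht (le_of_eq (Finset.sum_congr rfl fun k _ => by split_ifs <;> simp))
  · have e1 : Y - 1 = ∑ k, (l k - 1) • op (b k) (b k) := by
      simp only [sub_smul, Finset.sum_sub_distrib, ← hW, h1]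
    rw [e1, basis_mul hb, tp_eq_rt, basis_mul hb, basis_rt hb, basis_rt hb, Finset.mul_sum]
    refine Finset.sum_le_sum fun k _ => ?_
    split_ifs with h
    · rw [one_mul, mul_one, ← sq]
      exact sq_le_sq' (abs_lt.1 h).1.le (abs_lt.1 h).2.le
    · simp

lemma hh_eq (Z : Matrix β β ℂ) :
    Z * ((2 : ℝ) • (1 : Matrix β β ℂ) - Z) = ((2 : ℝ) • (1 : Matrix β β ℂ) - Z) * Z := by
  simp [mul_sub, sub_mul]

lemma hh_tp (P Z : Matrix β β ℂ) :
    tp P (Z * ((2 : ℝ) • (1 : Matrix β β ℂ) - Z)) = 2 * tp P Z - tp P (Z * Z) := by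
  rw [mul_sub, mul_smul_comm, mul_one, tp_sub, tp_rsmul]

lemma hh_le {Z : Matrix β β ℂ} {c : ℝ} (h : c • (1 : Matrix β β ℂ) ≤ (1 - Z) * (1 - Z)) :
    Z * ((2 : ℝ) • (1 : Matrix β β ℂ) - Z) ≤ (1 - c) • (1 : Matrix β β ℂ) := by
  have : Z * ((2 : ℝ) • (1 : Matrix β β ℂ) - Z) = 1 - (1 - Z) * (1 - Z) := by
    simp only [mul_sub, sub_mul, mul_one, one_mul, two_smul, mul_add]
    abel
  rw [this, sub_smul, one_smul]
  exact sub_le_sub_left h 1

lemma opb_two {Z : Matrix β β ℂ} (h0 : 0 ≤ Z) (h : Z ≤ (2 : ℝ) • (1 : Matrix β β ℂ)) :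
    Opb ((2 : ℝ) • (1 : Matrix β β ℂ) - Z) 2 :=
  opb_of_le zero_le_two (sub_nonneg.2 h) (sub_le_self _ h0)

end WIN

theorem t_WIN (hGS : S_GS) : S_WIN := by
  intro m K g hK hg hg1
  refine ⟨4 * (5 * m ^ 2 + 2 * m) * K / g ^ 2 + 1, by positivity, ?_⟩
  intro β A _ _ s Gp Z D t e f hm hD he heg hZ hG hN hT hf ht
  classical
  have hKD : 0 ≤ K * D := mul_nonneg hK hD
  obtain ⟨P, hP, h1, h2⟩ := WIN.window (herm_of_nonneg (Finset.sum_nonneg hZ)) hf ht
  have hP0 := (con_iff.1 hP).1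
  have hx := rt_nonneg hP0
  have hm' : (s.card : ℝ) ≤ m := Nat.cast_le.2 hm
  have hc : ∀ u : Finset A, u ⊆ s → (u.card : ℝ) ≤ m := fun u hu =>
    (Nat.cast_le.2 (Finset.card_le_card hu)).trans hm'
  have a1 := (abs_le.1 (GS.cross s Z hKD hT hP)).1
  have a2 := hGS β A (s.filter (· ∈ Gp)) (fun a => Z a * ((2 : ℝ) • (1 : Matrix β β ℂ) - Z a))
    (g ^ 2) (2 * (2 * (K * D))) (sq_nonneg g) (by nlinarith only [hg, hg1]) (by positivity)
    (fun a ha => by
      obtain ⟨ha, ha'⟩ := Finset.mem_filter.1 ha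
      exact ⟨nonneg_def.2 (psd_mul (nonneg_def.1 (hZ a ha)) (le_def.1 (hG a ha ha').1)
        (WIN.hh_eq _)), WIN.hh_le (hG a ha ha').2⟩)
    (fun a ha b hb hab => by
      obtain ⟨ha, ha'⟩ := Finset.mem_filter.1 ha
      obtain ⟨hb, hb'⟩ := Finset.mem_filter.1 hb
      have := ((hT a ha b hb hab).mul_right two_pos
        (WIN.opb_two (hZ b hb) (hG b hb hb').1)).mul_left two_pos
        (WIN.opb_two (hZ a ha) (hG a ha ha').1)
      rw [WIN.hh_eq (Z a)]
      simpa only [Matrix.mul_assoc] using this) P hP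
  rw [tp_sub, tp_rsmul, tp_one, tp_sum] at a2
  have a3 : ∑ a ∈ s.filter (· ∉ Gp), tp P (Z a * ((2 : ℝ) • (1 : Matrix β β ℂ) - Z a)) ≤
      m * (2 * (K * D)) := by
    refine (Finset.sum_le_card_nsmul _ _ (2 * (K * D)) fun a ha => ?_).trans ?_
    · obtain ⟨ha, ha'⟩ := Finset.mem_filter.1 ha
      have b1 := up_psd (hZ a ha) P hP
      have b2 := tp_nonneg hP.1 (psd_mul (nonneg_def.1 (hZ a ha)) (nonneg_def.1 (hZ a ha)) rfl)
      have b3 := hN a ha ha'
      rw [WIN.hh_tp]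
      linarith only [b1, b2, b3]
    · rw [nsmul_eq_mul]
      exact mul_le_mul_of_nonneg_right (hc _ (Finset.filter_subset _ _)) (by positivity)
  have a4 := Finset.sum_filter_add_sum_filter_not s (· ∈ Gp)
    fun a => tp P (Z a * ((2 : ℝ) • (1 : Matrix β β ℂ) - Z a))
  have a5 : ∑ a ∈ s, tp P (Z a * ((2 : ℝ) • (1 : Matrix β β ℂ) - Z a)) =
      2 * tp P (∑ a ∈ s, Z a) - ∑ a ∈ s, tp P (Z a * Z a) := by
    simp only [WIN.hh_tp, Finset.sum_sub_distrib, tp_sum, Finset.mul_sum]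
  have a6 : tp P ((∑ a ∈ s, Z a - 1) * (∑ a ∈ s, Z a - 1)) =
      tp P ((∑ a ∈ s, Z a) * ∑ a ∈ s, Z a) - 2 * tp P (∑ a ∈ s, Z a) + rt P := by
    simp only [sub_mul, mul_sub, one_mul, mul_one, tp_sub, tp_one, rt]
    ring
  have a7 : ((s.filter (· ∈ Gp)).card : ℝ) ^ 2 * (2 * (2 * (K * D))) ≤ m ^ 2 * (2 * (2 * (K * D))) :=
    mul_le_mul_of_nonneg_right
      (pow_le_pow_left₀ (Nat.cast_nonneg _) (hc _ (Finset.filter_subset _ _)) 2) (by positivity)
  have a8 : (s.card : ℝ) ^ 2 * (K * D) ≤ m ^ 2 * (K * D) :=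
    mul_le_mul_of_nonneg_right (pow_le_pow_left₀ (Nat.cast_nonneg _) hm' 2) hKD
  have a9 : e ^ 2 * rt P ≤ (g / 2) ^ 2 * rt P :=
    mul_le_mul_of_nonneg_right (pow_le_pow_left₀ he.le heg 2) hx
  change _ - _ * rt P ≤ _ at a2
  have hb : rt P ≤ 4 * (5 * m ^ 2 + 2 * m) * K / g ^ 2 * D := by
    rw [div_mul_eq_mul_div, le_div_iff₀ (by positivity)]
    linarith only [h2, a1, a3, a4, a5, a6, a7, a8, a9, a2]
  have := mul_le_mul_of_nonneg_left hb he.le
  have := mul_nonneg he.le hD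
  linarith

end Pool.Agent.MP_b746ed_mp.LD
end

section
/-! Large local dimension: removing a small extra weight on commuting projectors. -/

set_option autoImplicit false
set_option linter.unusedSectionVars false
open scoped ComplexOrder MatrixOrder
open Matrix

namespace Pool.Agent.MP_b746ed_mp.LD
open KF
open H14 (trf dg)

namespace TT
variable {β A : Type} [Fintype β] [DecidableEq β]

lemma proj_nonneg {E : Matrix β β ℂ} (h : IsProj E) : 0 ≤ E := (con_iff.1 h.con).1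

/-- the projector on the sum of the ranges -/
lemma exists_join (s : Finset A) (E : A → Matrix β β ℂ) (h1 : ∀ a ∈ s, IsProj (E a))
    (h2 : ∀ a ∈ s, ∀ b ∈ s, E a * E b = E b * E a) : ∀ s' ⊆ s, ∃ J : Matrix β β ℂ, IsProj J ∧
      J ≤ ∑ a ∈ s', E a ∧ (∀ a ∈ s', J * E a = E a) ∧ ∀ a ∈ s, J * E a = E a * J := by
  classical
  intro s'
  induction s' using Finset.induction_on with
  | empty => exact fun _ => ⟨0, ⟨by simp, by simp⟩, by simp, by simp, by simp⟩
  | insert c s' hc ih =>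
    intro hs
    obtain ⟨J, hJ, j1, j2, j3⟩ := ih ((Finset.subset_insert _ _).trans hs)
    have hcs := hs (Finset.mem_insert_self _ _)
    have e1 := j3 c hcs
    have e2 := (h1 c hcs).2
    have e3 : J * (J * E c) = J * E c := by rw [← Matrix.mul_assoc, hJ.2]
    have e4 : E c * (J * E c) = J * E c := by rw [← Matrix.mul_assoc, ← e1, Matrix.mul_assoc, e2]
    refine ⟨J + E c - J * E c, ⟨?_, ?_⟩, ?_, fun a ha => ?_, fun a ha => ?_⟩
    · rw [conjTranspose_sub, conjTranspose_add, conjTranspose_mul, hJ.1, (h1 c hcs).1, e1]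
    · simp only [mul_sub, sub_mul, mul_add, add_mul, Matrix.mul_assoc, hJ.2, e2, e3, e4, ← e1]
      abel
    · rw [Finset.sum_insert hc, add_comm (E c)]
      refine (sub_le_self _ ?_).trans (add_le_add j1 le_rfl)
      exact nonneg_def.2 (psd_mul hJ.con.1 (h1 c hcs).con.1 e1)
    · rcases Finset.mem_insert.1 ha with rfl | ha
      · rw [sub_mul, add_mul, Matrix.mul_assoc, e2]; abel
      · rw [sub_mul, add_mul, e1, Matrix.mul_assoc, j2 a ha]; abel
    · rw [sub_mul, add_mul, mul_sub, mul_add, j3 a ha, h2 c hcs a ha, Matrix.mul_assoc,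
        h2 c hcs a ha, ← Matrix.mul_assoc, j3 a ha, Matrix.mul_assoc]

lemma rt_rank {E : Matrix β β ℂ} (h : IsProj E) :
    rt E = Module.finrank ℂ (LinearMap.range (toLin' E)) := by
  have : IsIdempotentElem (toLin' E) := by
    rw [IsIdempotentElem, Module.End.mul_eq_comp, ← toLin'_mul, h.2]
  rw [rt, ← trace_toLin'_eq, (LinearMap.IsIdempotentElem.isProj_range _ this).trace]
  simp

lemma rt_le_of_inj {E P : Matrix β β ℂ} (hE : IsProj E) (hP : IsProj P)
    (h : ∀ v, E *ᵥ v = v → P *ᵥ v = 0 → v = 0) : rt E ≤ rt P := by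
  rw [rt_rank hE, rt_rank hP, Nat.cast_le]
  refine LinearMap.finrank_le_finrank_of_injective
    (f := (toLin' P).rangeRestrict ∘ₗ (LinearMap.range (toLin' E)).subtype) ?_
  rw [injective_iff_map_eq_zero]
  rintro ⟨_, w, rfl⟩ hw
  refine Subtype.ext (h _ ?_ (congrArg Subtype.val hw))
  simp [hE.2]

end TT

theorem t_TT : S_TT := by
  intro m K η hK hη
  refine ⟨m * (2 / η * (K + m * K / (2 * η))) + 1, by positivity, ?_⟩
  intro β A _ _ s E M D t τ hm hD hτ h1 h2 hM hU hE hT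
  obtain ⟨J, hJ, j1, j2, -⟩ := TT.exists_join s E h1 h2 s le_rfl
  have hm' : (s.card : ℝ) ≤ m := by exact_mod_cast hm
  have hF : 0 ≤ ∑ a ∈ s, E a := (TT.proj_nonneg hJ).trans j1
  obtain ⟨P, hP, hk⟩ := exists_spec (A := ∑ a ∈ s, E a + M - 1) (by
    rw [conjTranspose_sub, conjTranspose_add, herm_of_nonneg hF, herm_of_nonneg hM,
      conjTranspose_one])
  have hQ := hJ.compl
  have j3 : ∀ a ∈ s, E a * (1 - J) = 0 := fun a ha => by
    have := congrArg conjTranspose (j2 a ha)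
    rw [conjTranspose_mul, hJ.1, (h1 a ha).1] at this
    rw [mul_sub, this, mul_one, sub_self]
  have j4 : (∑ a ∈ s, E a) * (1 - J) = 0 := by
    rw [Finset.sum_mul]; exact Finset.sum_eq_zero j3
  set x := tp P (1 - J) with hx
  have x1 : rt ((1 - J) * P * (1 - J)) = x := by
    rw [Matrix.mul_assoc, rt_comm, Matrix.mul_assoc, hQ.2, hx, tp_eq_rt]
  have x2 : hs ((1 - J) * P) = x := by
    rw [hs_eq_rt', conjTranspose_mul, hQ.1, hP.1.1, Matrix.mul_assoc, ← Matrix.mul_assoc P, hP.1.2,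
      ← Matrix.mul_assoc, x1]
  have x0 : 0 ≤ x := x2 ▸ hs_nonneg _
  have y1 : hs (J * M * (1 - J)) ≤ m * K * D := by
    have a1 := hQ.con.opb.mul_hs (J * M)
    have a2 := rt_mono (conj_le j1 M)
    rw [Matrix.mul_sum, Matrix.sum_mul, rt_sum] at a2
    have a3 : ∀ G : Matrix β β ℂ, IsProj G → rt (Mᴴ * G * M) = hs (G * M) := fun G hG => by
      rw [hs_eq_rt, conjTranspose_mul, hG.1, Matrix.mul_assoc _ G (G * M), ← Matrix.mul_assoc G,
        hG.2, Matrix.mul_assoc]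
    rw [a3 J hJ, Finset.sum_congr rfl fun a ha => a3 _ (h1 a ha)] at a2
    have a4 := Finset.sum_le_card_nsmul s _ _ hE
    rw [nsmul_eq_mul] at a4
    have a5 := mul_le_mul_of_nonneg_right hm' (mul_nonneg hK hD)
    linarith only [a1, a2, a4, a5]
  have y2 : η * x ≤ K * D + √x * √(m * K * D) := by
    have a1 := rt_nonneg (conj_nonneg hP.2.2.1 (1 - J))
    have a2 : (1 - J)ᴴ * (P * (∑ a ∈ s, E a + M - 1)) * (1 - J) =
        (1 - J) * (P * (1 - J) * M) * (1 - J) + (1 - J) * P * (J * M * (1 - J)) -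
          (1 - J) * P * (1 - J) := by
      rw [hQ.1, Matrix.mul_assoc, Matrix.mul_assoc, sub_mul _ 1, add_mul, j4]
      noncomm_ring
    have a3 : rt ((1 - J) * (P * (1 - J) * M) * (1 - J)) = tp ((1 - J) * P * (1 - J)) M := by
      rw [rt_comm, ← Matrix.mul_assoc, hQ.2, tp_eq_rt]
      simp only [Matrix.mul_assoc]
    have a4 := hU _ (hP.1.con.conj hQ.con.opb)
    rw [hQ.1, tp_sub, tp_rsmul, tp_eq_rt _ 1, mul_one, x1] at a4
    have a5 := (rt_le_norm _).trans (norm_trace_le ((1 - J) * P) (J * M * (1 - J)))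
    rw [x2] at a5
    have a6 := mul_le_mul_of_nonneg_left (Real.sqrt_le_sqrt y1) (Real.sqrt_nonneg x)
    rw [a2, rt_sub, rt_add, a3, x1] at a1
    linarith only [a1, a4, a5, a6]
  have y3 : x ≤ 2 / η * (K + m * K / (2 * η)) * D := by
    have a1 : 0 ≤ m * K * D := by positivity
    have a2 := sq_nonneg (η * √x - √(m * K * D))
    rw [sub_sq, mul_pow, Real.sq_sqrt x0, Real.sq_sqrt a1] at a2
    have a3 := mul_le_mul_of_nonneg_left y2 hη.le
    have : 2 / η * (K + m * K / (2 * η)) * D = (2 * η * K * D + m * K * D) / η ^ 2 := by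
      field_simp
    rw [this, le_div_iff₀ (by positivity)]
    linarith only [a2, a3]
  have y4 : rt J ≤ rt P := TT.rt_le_of_inj hJ hP.1 fun v hv h0 => hk v h0 (by
    have a1 := (le_iff_ip hJ.1 (herm_of_nonneg hF)).1 j1 v
    have a2 := psd_re_nonneg (nonneg_def.1 hM) v
    rw [hv] at a1
    rw [sub_mulVec, add_mulVec, one_mulVec, ip_sub_right, ip_add_right, Complex.sub_re,
      Complex.add_re]
    linarith only [a1, a2])
  have y5 : ∀ a ∈ s, rt (E a) - tp P (E a) ≤ x := fun a ha => by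
    have a1 : E a ≤ J := by
      have := conj_le (con_iff.1 (h1 a ha).con).2 J
      have e := j3 a ha
      rw [mul_sub, mul_one, sub_eq_zero] at e
      rwa [hJ.1, j2 a ha, ← e, mul_one, hJ.2] at this
    have a2 := tp_mono (con_iff.1 hP.1.con.compl).1 a1
    rw [tp_compl, tp_compl] at a2
    rw [hx, tp_sub, tp_eq_rt P 1, mul_one]
    linarith only [y4, a2]
  refine hP.up.mono le_rfl ?_
  have z1 := hT P hP.1.con
  have z2 := Finset.sum_le_card_nsmul s _ _ y5
  rw [nsmul_eq_mul, Finset.sum_sub_distrib, ← tp_sum] at z2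
  rw [tp_sub, tp_add, tp_rsmul] at z1
  rw [tp_sub, tp_add]
  have z3 := mul_le_mul hm' y3 x0 (Nat.cast_nonneg m)
  have z4 := mul_le_mul_of_nonneg_left (z2.trans z3) hτ
  have z5 := mul_nonneg hτ hD
  linarith only [z1, z4, z5]

end Pool.Agent.MP_b746ed_mp.LD
end

section
set_option autoImplicit false
set_option linter.unusedSectionVars false
open scoped ComplexOrder MatrixOrder
open Matrix

namespace Pool.Agent.MP_b746ed_mp.LD
open KF
open H14 (trf dg)

namespace ROT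

lemma peierls {γ : Type} [Fintype γ] [DecidableEq γ] {u : ℝ → ℝ} {K : ℝ}
    (hu : ConvexOn ℝ (Set.Icc 0 K) u) {A : Matrix γ γ ℂ} (h0 : 0 ≤ A)
    (hK : A ≤ K • (1 : Matrix γ γ ℂ)) : ∑ j, u (A j j).re ≤ trf u A := by
  obtain ⟨V, l, h3, h4, hl, rfl⟩ := H14.exists_spec (nonneg_def.1 h0)
  have lK : ∀ i, l i ≤ K := fun i => by
    have := (le_def.1 (conj_le hK V)).diag_nonneg (i := i)
    rw [Matrix.mul_smul, Matrix.mul_one, Matrix.smul_mul, h3, ← Matrix.mul_assoc,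
      ← Matrix.mul_assoc, h3, Matrix.one_mul, Matrix.mul_assoc, h3, Matrix.mul_one] at this
    simpa only [ge_iff_le, dg, Matrix.sub_apply, Matrix.smul_apply, one_apply_eq, Complex.real_smul, mul_one, diagonal_apply_eq, Complex.sub_re, Complex.ofReal_re, sub_nonneg] using (Complex.nonneg_iff.1 this).1
  rw [H14.trf_conj _ h3, H14.trf_dg]
  calc _ ≤ ∑ j, ∑ i, ‖V j i‖ ^ 2 * u (l i) := Finset.sum_le_sum fun j _ => by
        have e := H14.conj_diag Vᴴ l j
        simp only [conjTranspose_conjTranspose, conjTranspose_apply, norm_star] at e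
        rw [e, Complex.ofReal_re]
        exact hu.map_sum_le (fun i _ => by positivity) (by rw [H14.row_sq, h4]; simp)
          fun i _ => ⟨hl i, lK i⟩
    _ = _ := by
        rw [Finset.sum_comm]
        refine Finset.sum_congr rfl fun i _ => ?_
        rw [← Finset.sum_mul, H14.col_sq, h3]; simp

end ROT

theorem t_ROT : S_ROT := by
  intro β A _ _ s Z u K hK hu u0 hZ hs
  classical
  choose U l h1 h2 hl hU using fun a : s => H14.exists_spec (nonneg_def.1 (hZ a a.2))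
  obtain ⟨W, hW⟩ : ∃ W : Matrix β (s × β) ℂ,
      W = Matrix.of fun i k => (U k.1 * dg fun j => √(l k.1 j)) i k.2 := ⟨_, rfl⟩
  have e1 : W * Wᴴ = ∑ a ∈ s, Z a := by
    rw [← Finset.sum_coe_sort s]
    ext i j
    rw [Matrix.mul_apply, Fintype.sum_prod_type, Matrix.sum_apply]
    refine Finset.sum_congr rfl fun a _ => ?_
    have : Z a = (U a * dg fun j => √(l a j)) * (U a * dg fun j => √(l a j))ᴴ := by
      rw [conjTranspose_mul, H14.dg_conj, Matrix.mul_assoc, ← Matrix.mul_assoc (dg _), H14.dg_mul,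
        ← Matrix.mul_assoc]
      simpa only [Real.mul_self_sqrt (hl a _)] using hU a
    rw [this, hW, Matrix.mul_apply]
    rfl
  have e2 : ∀ k, ((Wᴴ * W) k k).re = l k.1 k.2 := fun k => by
    have : (Wᴴ * W) k k =
        ((U k.1 * dg fun j => √(l k.1 j))ᴴ * (U k.1 * dg fun j => √(l k.1 j))) k.2 k.2 := by
      rw [hW, Matrix.mul_apply, Matrix.mul_apply]
      rfl
    rw [this, conjTranspose_mul, H14.dg_conj, Matrix.mul_assoc, ← Matrix.mul_assoc (U k.1)ᴴ, h1,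
      Matrix.one_mul, H14.dg_mul]
    simp [dg, Real.mul_self_sqrt (hl k.1 _)]
  have e3 : Opb Wᴴ √K := by rwa [opb_iff, conjTranspose_conjTranspose, e1, Real.sq_sqrt hK]
  have e4 := opb_iff.1 e3.conj
  simp only [conjTranspose_conjTranspose, Real.sq_sqrt hK] at e4
  have := ROT.peierls hu (nonneg_def.2 (posSemidef_conjTranspose_mul_self W)) e4
  rw [H14.trf_comm u0, e1, Fintype.sum_prod_type] at this
  refine le_trans (le_of_eq ?_) this
  rw [← Finset.sum_coe_sort s]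
  refine Finset.sum_congr rfl fun a _ => ?_
  simp only [e2]
  rw [hU a, H14.trf_conj _ (h1 a), H14.trf_dg]

namespace WEI

lemma pos_pow (n : ℕ) (x : ℝ) :
    HasDerivAt (fun y : ℝ => max y 0 ^ (n + 2)) ((n + 2) * max x 0 ^ (n + 1)) x := by
  have a : ∀ x : ℝ, HasDerivAt (fun y : ℝ => y ^ (n + 2)) ((n + 2) * x ^ (n + 1)) x := fun x => by
    simpa only [Nat.cast_add, Nat.cast_ofNat, Nat.add_one_sub_one] using hasDerivAt_pow (n + 2) x
  rcases lt_trichotomy x 0 with h | rfl | h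
  · rw [max_eq_right h.le, zero_pow n.succ_ne_zero, mul_zero]
    exact (hasDerivAt_const x (0 : ℝ)).congr_of_eventuallyEq
      ((gt_mem_nhds h).mono fun y hy => by simp only [max_eq_right hy.le, ne_eq, Nat.add_eq_zero_iff, OfNat.ofNat_ne_zero, and_false, not_false_eq_true, zero_pow])
  · have h1 := (hasDerivWithinAt_const (0 : ℝ) (Set.Iic 0) (0 : ℝ)).congr
      (f₁ := fun y : ℝ => max y 0 ^ (n + 2)) (fun y hy => by simp only [max_eq_right hy.out, ne_eq, Nat.add_eq_zero_iff, OfNat.ofNat_ne_zero, and_false, not_false_eq_true, zero_pow]) (by simp)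
    have h2 := ((a 0).hasDerivWithinAt (s := Set.Ici 0)).congr
      (f₁ := fun y : ℝ => max y 0 ^ (n + 2)) (fun y hy => by rw [max_eq_left hy.out]) (by simp)
    rw [zero_pow n.succ_ne_zero, mul_zero] at h2
    have := h1.union h2
    rw [Set.Iic_union_Ici, hasDerivWithinAt_univ] at this
    simpa only [max_self, ne_eq, Nat.add_eq_zero_iff, one_ne_zero, and_false, not_false_eq_true, zero_pow, mul_zero] using this
  · rw [max_eq_left h.le]
    exact (a x).congr_of_eventuallyEq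
      ((lt_mem_nhds h).mono fun y hy => by simp only [max_eq_left hy.le])

lemma anti (r : Polynomial ℝ) : ∃ q : Polynomial ℝ, q.derivative = r ∧ q.eval 0 = 0 := by
  induction r using Polynomial.induction_on' with
  | add p q hp hq =>
    obtain ⟨a, a1, a2⟩ := hp
    obtain ⟨b, b1, b2⟩ := hq
    exact ⟨a + b, by simp [a1, b1], by simp [a2, b2]⟩
  | monomial n a =>
    refine ⟨Polynomial.monomial (n + 1) (a / (n + 1)), ?_, by simp only [Polynomial.eval_monomial, ne_eq, Nat.add_eq_zero_iff, one_ne_zero, and_false, not_false_eq_true, zero_pow, mul_zero]⟩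
    rw [Polynomial.derivative_monomial_succ, div_mul_cancel₀ _ (by positivity)]

/-- second differences of powers of the positive part -/
noncomputable def sd2 (e : ℝ) (n : ℕ) (x : ℝ) : ℝ :=
  max (x - 1 + e) 0 ^ n - 2 * max (x - 1) 0 ^ n + max (x - 1 - e) 0 ^ n

lemma sd2_deriv (e : ℝ) (n : ℕ) (x : ℝ) :
    HasDerivAt (sd2 e (n + 2)) ((n + 2) * sd2 e (n + 1) x) x := by
  have a := (hasDerivAt_id x).sub_const 1
  have := ((((pos_pow n _).comp x (a.add_const e)).sub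
    (((pos_pow n _).comp x a).const_mul 2)).add ((pos_pow n _).comp x (a.sub_const e)))
  refine (this.congr_deriv ?_).congr_of_eventuallyEq (.of_forall fun y => rfl)
  simp only [sd2, id]
  ring

lemma sd2_three {e : ℝ} (he : 0 < e) (x : ℝ) :
    sd2 e 3 x / (6 * e ^ 2) = max (x - 1) 0 + max (e - |x - 1|) 0 ^ 3 / (6 * e ^ 2) := by
  rw [sd2]
  generalize x - 1 = s
  field_simp
  rcases le_total s 0 with h | h
  · rw [abs_of_nonpos h, max_eq_right h, max_eq_right (by linarith : s - e ≤ 0), sub_neg_eq_add,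
      add_comm e]
    ring
  · rw [abs_of_nonneg h, max_eq_left h, max_eq_left (by linarith : 0 ≤ s + e)]
    rcases le_total s e with k | k
    · rw [max_eq_right (sub_nonpos.2 k), max_eq_left (sub_nonneg.2 k)]; ring
    · rw [max_eq_left (sub_nonneg.2 k), max_eq_right (sub_nonpos.2 k)]; ring

end WEI

theorem t_WEI : S_WEI := by
  intro e δ K he he1 hδ hK
  obtain ⟨r, hr⟩ := exists_polynomial_near_of_continuousOn 0 K (fun x => WEI.sd2 e 1 x / e ^ 2)
    (by unfold WEI.sd2; fun_prop) (2 * δ) (by positivity)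
  obtain ⟨q, hq, -⟩ := WEI.anti r
  obtain ⟨p, hp, hp0⟩ := WEI.anti q
  have key : ∀ σ : ℝ, |σ| ≤ 1 → ConvexOn ℝ (Set.Icc 0 K)
      (fun x => δ * x ^ 2 + σ * (WEI.sd2 e 3 x / (6 * e ^ 2) - p.eval x)) := fun σ hσ => by
    have d1 : ∀ x, HasDerivAt (fun x => δ * x ^ 2 + σ * (WEI.sd2 e 3 x / (6 * e ^ 2) - p.eval x))
        (2 * δ * x + σ * (WEI.sd2 e 2 x / (2 * e ^ 2) - q.eval x)) x := fun x => by
      refine (((hasDerivAt_pow 2 x).const_mul δ).add ((((WEI.sd2_deriv e 1 x).div_const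
        (6 * e ^ 2)).sub (p.hasDerivAt x)).const_mul σ)).congr_deriv ?_
      rw [hp]; push_cast; ring
    have d2 : ∀ x, HasDerivAt (fun x => 2 * δ * x + σ * (WEI.sd2 e 2 x / (2 * e ^ 2) - q.eval x))
        (2 * δ + σ * (WEI.sd2 e 1 x / e ^ 2 - r.eval x)) x := fun x => by
      refine (((hasDerivAt_id x).const_mul (2 * δ)).add ((((WEI.sd2_deriv e 0 x).div_const
        (2 * e ^ 2)).sub (q.hasDerivAt x)).const_mul σ)).congr_deriv ?_
      rw [hq]; push_cast; ring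
    refine convexOn_of_hasDerivWithinAt2_nonneg (convex_Icc 0 K)
      (fun x _ => (d1 x).continuousAt.continuousWithinAt) (fun x _ => (d1 x).hasDerivWithinAt)
      (fun x _ => (d2 x).hasDerivWithinAt) fun x hx => ?_
    have a := hr x (interior_subset hx)
    rw [abs_sub_comm] at a
    have b := neg_abs_le (σ * (WEI.sd2 e 1 x / e ^ 2 - r.eval x))
    rw [abs_mul] at b
    linarith [mul_le_of_le_one_left (abs_nonneg (WEI.sd2 e 1 x / e ^ 2 - r.eval x)) hσ]
  refine ⟨fun x => WEI.sd2 e 3 x / (6 * e ^ 2), p, fun x => ?_, fun x => ?_, hp0, ?_, ?_⟩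
  · simp only [WEI.sd2_three he]
    exact le_add_of_nonneg_right (by positivity)
  · simp only [WEI.sd2_three he]
    refine add_le_add le_rfl ?_
    split_ifs with h
    · rw [div_le_iff₀ (by positivity)]
      have : max (e - |x - 1|) 0 ^ 3 ≤ e ^ 3 :=
        pow_le_pow_left₀ (le_max_right _ _) (max_le (by linarith [abs_nonneg (x - 1)]) he.le) 3
      linarith [pow_pos he 3]
    · rw [max_eq_right (by linarith)]; simp
  · simpa only [one_mul] using key 1 (by simp)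
  · simpa only [neg_one_mul, ← sub_eq_add_neg] using key (-1) (by simp)

end Pool.Agent.MP_b746ed_mp.LD
end

section
/-! Large local dimension: traces of polynomials localise on clusters. -/

set_option autoImplicit false
set_option linter.unusedSectionVars false
open scoped ComplexOrder MatrixOrder
open Matrix

namespace Pool.Agent.MP_b746ed_mp.LD
open KF
open H14 (trf dg)

namespace LOCP

lemma trf_poly {β : Type} [Fintype β] [DecidableEq β] (p : Polynomial ℝ) (hp : p.eval 0 = 0)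
    {X : Matrix β β ℂ} (hX : Xᴴ = X) : trf (fun x => p.eval x) X =
      ∑ m ∈ Finset.range p.natDegree, p.coeff (m + 1) * rt (X ^ (m + 1)) := by
  obtain ⟨b, l, hb, -, hW, -⟩ := exists_basis hX
  have e : ∀ m : ℕ, X ^ (m + 1) = ∑ k, l k ^ (m + 1) • op (b k) (b k) := fun m => by
    induction m with
    | zero => simpa only [zero_add, pow_one] using hW
    | succ m ih =>
      rw [pow_succ, ih]
      conv_lhs => rw [hW]
      rw [basis_mul hb]
      simp only [pow_succ]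
  simp only [e, basis_rt hb, Finset.mul_sum]
  rw [Finset.sum_comm]
  conv_lhs => rw [hW, basis_trf hb]
  refine Finset.sum_congr rfl fun k _ => ?_
  rw [Polynomial.eval_eq_sum_range, Finset.sum_range_succ', Polynomial.coeff_zero_eq_eval_zero, hp,
    zero_mul, add_zero]

variable {ι : Type} [Fintype ι] [DecidableEq ι]

lemma sum_top {M : Type} [AddCommMonoid M] {k : ℕ} (g : Finset ι → M)
    (hg : ∀ I, k + 1 < I.card → g I = 0) {T : Finset ι} (hT : T.card = k + 1) :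
    ∑ I, (if T ⊆ I then g I else 0) = g T := by
  rw [Finset.sum_eq_single T]
  · simp
  · intro I _ hI
    split_ifs with h
    · exact hg I (hT ▸ Finset.card_lt_card (lt_of_le_of_ne h hI.symm))
    · rfl
  · simp

lemma sum_mid {M : Type} [AddCommMonoid M] {k : ℕ} (g : Finset ι → M)
    (hg : ∀ I, k + 1 < I.card → g I = 0) {S : Finset ι} (hS : S.card = k) :
    ∑ I, (if S ⊆ I then g I else 0) = g S + ∑ i ∈ Sᶜ, g (insert i S) := by
  have inj : ∀ i ∈ Sᶜ, ∀ j ∈ Sᶜ, insert i S = insert j S → i = j := fun i hi j _ h => by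
    have : i ∈ insert j S := h ▸ Finset.mem_insert_self i S
    exact (Finset.mem_insert.1 this).resolve_right (Finset.mem_compl.1 hi)
  have hn : S ∉ Sᶜ.image fun i => insert i S := fun h => by
    obtain ⟨i, hi, h⟩ := Finset.mem_image.1 h
    exact Finset.mem_compl.1 hi (h ▸ Finset.mem_insert_self i S)
  rw [← Finset.sum_image inj, ← Finset.sum_insert hn, ← Finset.sum_filter]
  refine (Finset.sum_subset (fun I hI => ?_) fun I hI hI' => ?_).symm
  · refine Finset.mem_filter.2 ⟨Finset.mem_univ _, ?_⟩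
    rcases Finset.mem_insert.1 hI with rfl | h
    · exact Finset.Subset.refl _
    · obtain ⟨i, -, rfl⟩ := Finset.mem_image.1 h
      exact Finset.subset_insert _ _
  · have h1 := (Finset.mem_filter.1 hI).2
    have h2 : S ≠ I := fun h => hI' (h ▸ Finset.mem_insert_self _ _)
    obtain ⟨i, hi, hi'⟩ := Finset.exists_of_ssubset (lt_of_le_of_ne h1 h2)
    have h3 : insert i S ≠ I := fun h => hI' (Finset.mem_insert_of_mem
      (Finset.mem_image.2 ⟨i, Finset.mem_compl.2 hi', h⟩))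
    have := Finset.card_lt_card (lt_of_le_of_ne (Finset.insert_subset hi h1) h3)
    rw [Finset.card_insert_of_notMem hi', hS] at this
    exact hg I this

lemma sum_all {M : Type} [AddCommMonoid M] {k : ℕ} (g : Finset ι → M)
    (hg : ∀ I, k + 1 < I.card → g I = 0) : ∑ I, g I =
      ∑ I, (if I.card < k then g I else 0) + ∑ S ∈ lv ι k, g S + ∑ T ∈ lv ι (k + 1), g T := by
  simp only [lv, Finset.sum_filter, ← Finset.sum_add_distrib]
  refine Finset.sum_congr rfl fun I _ => ?_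
  by_cases h1 : I.card < k
  · rw [if_pos h1, if_neg (by omega), if_neg (by omega), add_zero, add_zero]
  · by_cases h2 : I.card = k
    · rw [if_neg h1, if_pos h2, if_neg (by omega), zero_add, add_zero]
    · by_cases h3 : I.card = k + 1
      · rw [if_neg h1, if_neg h2, if_pos h3, zero_add, zero_add]
      · rw [if_neg h1, if_neg h2, if_neg h3, hg I (by omega), add_zero, add_zero]

/-- the sum of the words whose letters have the intersection `I` -/
noncomputable def wd {R : Type} [Semiring R] (Z : Finset ι → R) : ℕ → Finset ι → R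
  | 0, I => Z I
  | m + 1, I => ∑ J, ∑ S, if J ∩ S = I then wd Z m J * Z S else 0

lemma wd_pow {R : Type} [Semiring R] (Z : Finset ι → R) (C : Finset ι) (m : ℕ) :
    (∑ S, if C ⊆ S then Z S else 0) ^ (m + 1) = ∑ I, if C ⊆ I then wd Z m I else 0 := by
  induction m with
  | zero => simp only [zero_add, pow_one, wd]
  | succ m ih =>
    have e : ∀ I, (if C ⊆ I then wd Z (m + 1) I else 0) =
        ∑ J, ∑ S, if J ∩ S = I then (if C ⊆ J ∩ S then wd Z m J * Z S else 0) else 0 := fun I => by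
      by_cases h : C ⊆ I
      · rw [if_pos h, wd]
        refine Finset.sum_congr rfl fun J _ => Finset.sum_congr rfl fun S _ => ?_
        split_ifs with h1 h2
        · rfl
        · exact absurd (h1 ▸ h) h2
        · rfl
      · rw [if_neg h]
        refine (Finset.sum_eq_zero fun J _ => Finset.sum_eq_zero fun S _ => ?_).symm
        split_ifs with h1 h2
        · exact absurd (h1 ▸ h2) h
        · rfl
        · rfl
    rw [pow_succ, ih, Finset.sum_mul_sum]
    simp only [e]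
    refine Eq.trans (Finset.sum_congr rfl fun J _ => ?_) Finset.sum_comm
    refine Eq.trans (Finset.sum_congr rfl fun S _ => ?_) Finset.sum_comm
    rw [Finset.sum_ite_eq, if_pos (Finset.mem_univ _), ite_zero_mul_ite_zero]
    simp only [Finset.subset_inter_iff]

lemma wd_zero {R : Type} [Semiring R] {Z : Finset ι → R} {k : ℕ}
    (hZ : ∀ I, k < I.card → Z I = 0) (m : ℕ) (I : Finset ι) (hI : k < I.card) : wd Z m I = 0 := by
  cases m with
  | zero => exact hZ I hI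
  | succ m =>
    rw [wd]
    refine Finset.sum_eq_zero fun J _ => Finset.sum_eq_zero fun S _ => ?_
    split_ifs with h
    · rw [hZ S (hI.trans_le (Finset.card_le_card (h ▸ Finset.inter_subset_right))), mul_zero]
    · rfl

variable {α : Type} [Fintype α] [DecidableEq α]

lemma wd_nuc {o : α} {Z : Finset ι → Matrix (ι → α) (ι → α) ℂ} {K : ℝ}
    (hZ : ∀ S, Nuc o S (Z S) K) (m : ℕ) (I : Finset ι) :
    Nuc o I (wd Z m I) (((Fintype.card (Finset ι) : ℝ) ^ 2 * K) ^ m * K) := by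
  have hK := (hZ I).nonneg
  induction m generalizing I with
  | zero => simpa only [wd, Fintype.card_finset, Nat.cast_pow, Nat.cast_ofNat, pow_zero, one_mul] using hZ I
  | succ m ih =>
    rw [wd]
    refine (nuc_sum (ν := fun _ => ∑ _S : Finset ι,
      ((Fintype.card (Finset ι) : ℝ) ^ 2 * K) ^ m * K * K) _ fun J _ =>
        nuc_sum _ fun S _ => ?_).mono (le_of_eq ?_)
    · split_ifs with h
      · exact h ▸ (ih J).mul (hZ S)
      · exact nuc_zero.mono (by positivity)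
    · simp only [Finset.sum_const, Finset.card_univ, nsmul_eq_mul]
      ring

lemma mono_bound {o : α} {k : ℕ} {Z : Finset ι → Matrix (ι → α) (ι → α) ℂ} {K : ℝ}
    (hZ : ∀ S, Nuc o S (Z S) K) (m : ℕ) :
    |rt ((∑ S ∈ lv ι k, Z S + ∑ T ∈ lv ι (k + 1), Z T) ^ (m + 1)) -
        ∑ T ∈ lv ι (k + 1), rt (Z T ^ (m + 1)) -
      ∑ S ∈ lv ι k, (rt ((Z S + ∑ i ∈ Sᶜ, Z (insert i S)) ^ (m + 1)) -
        ∑ i ∈ Sᶜ, rt (Z (insert i S) ^ (m + 1)))| ≤
      Fintype.card (Finset ι) * (((Fintype.card (Finset ι) : ℝ) ^ 2 * K) ^ m * K) *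
        (Fintype.card α ^ k / Fintype.card α) := by
  have hK := (hZ ∅).nonneg
  obtain ⟨Z', hZ'⟩ : ∃ Z' : Finset ι → Matrix (ι → α) (ι → α) ℂ,
    ∀ S, Z' S = if S.card = k ∨ S.card = k + 1 then Z S else 0 := ⟨_, fun _ => rfl⟩
  have n1 : ∀ S, Nuc o S (Z' S) K := fun S => by
    rw [hZ']
    split_ifs
    · exact hZ S
    · exact nuc_zero.mono hK
  have z1 : ∀ I, k + 1 < I.card → Z' I = 0 := fun I hI => by rw [hZ', if_neg (by omega)]
  have z2 : ∀ I, k + 1 < I.card → rt (wd Z' m I) = 0 := fun I hI => by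
    rw [wd_zero z1 m I hI, rt_zero]
  have key : ∀ C : Finset ι, rt ((∑ S, if C ⊆ S then Z' S else 0) ^ (m + 1)) =
      ∑ I, if C ⊆ I then rt (wd Z' m I) else 0 := fun C => by
    rw [wd_pow, rt_sum]
    refine Finset.sum_congr rfl fun I _ => ?_
    split_ifs
    · rfl
    · exact rt_zero
  have ci : ∀ S : Finset ι, S.card = k → ∀ i ∈ Sᶜ, (insert i S).card = k + 1 := fun S hS i hi => by
    rw [Finset.card_insert_of_notMem (Finset.mem_compl.1 hi), hS]
  have top : ∀ T : Finset ι, T.card = k + 1 → rt (Z T ^ (m + 1)) = rt (wd Z' m T) := fun T hT => by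
    have := key T
    rwa [sum_top Z' z1 hT, sum_top _ z2 hT, hZ', if_pos (Or.inr hT)] at this
  have mid : ∀ S ∈ lv ι k, rt ((Z S + ∑ i ∈ Sᶜ, Z (insert i S)) ^ (m + 1)) -
      ∑ i ∈ Sᶜ, rt (Z (insert i S) ^ (m + 1)) = rt (wd Z' m S) := fun S hS => by
    have hS' : S.card = k := (Finset.mem_filter.1 hS).2
    have := key S
    rw [sum_mid Z' z1 hS', sum_mid _ z2 hS', hZ', if_pos (Or.inl hS'),
      Finset.sum_congr rfl fun i hi => (hZ' _).trans (if_pos (Or.inr (ci S hS' i hi)))] at this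
    rw [this, Finset.sum_congr (s₁ := Sᶜ) rfl fun i hi => top _ (ci S hS' i hi)]
    ring
  have all : rt ((∑ S ∈ lv ι k, Z S + ∑ T ∈ lv ι (k + 1), Z T) ^ (m + 1)) = ∑ I, rt (wd Z' m I) := by
    have := key ∅
    simp only [Finset.empty_subset, if_true] at this
    rw [← this, sum_all Z' z1, Finset.sum_eq_zero (s := Finset.univ) fun I _ => ?_, zero_add]
    · congr 3 <;> refine Finset.sum_congr rfl fun S hS => ?_
      · rw [hZ', if_pos (Or.inl (Finset.mem_filter.1 hS).2)]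
      · rw [hZ', if_pos (Or.inr (Finset.mem_filter.1 hS).2)]
    · split_ifs with h
      · rw [hZ', if_neg (by omega)]
      · rfl
  rw [all, Finset.sum_congr rfl mid, sum_all _ z2,
    Finset.sum_congr (s₁ := lv ι (k + 1)) rfl fun T hT => top T (Finset.mem_filter.1 hT).2,
    add_sub_cancel_right, add_sub_cancel_right]
  have hd : (1 : ℝ) ≤ Fintype.card α := by exact_mod_cast Fintype.card_pos_iff.2 ⟨o⟩
  refine (Finset.abs_sum_le_sum_abs _ _).trans ((Finset.sum_le_card_nsmul _ _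
    ((((Fintype.card (Finset ι) : ℝ) ^ 2 * K) ^ m * K) * (Fintype.card α ^ k / Fintype.card α))
      fun I _ => ?_).trans (le_of_eq ?_))
  · split_ifs with h
    · refine (wd_nuc n1 m I).tn.abs_rt.trans ?_
      rw [mul_comm]
      refine mul_le_mul_of_nonneg_left ?_ (by positivity)
      rw [le_div_iff₀ (by positivity), ← pow_succ]
      exact pow_le_pow_right₀ hd h
    · rw [abs_zero]; positivity
  · rw [Finset.card_univ, nsmul_eq_mul, mul_assoc (Fintype.card (Finset ι) : ℝ)]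

end LOCP

open LOCP in
theorem t_LOCP : S_LOCP := by
  intro ι _ _ p K hp
  refine ⟨1 + ∑ m ∈ Finset.range p.natDegree, |p.coeff (m + 1)| * (Fintype.card (Finset ι) *
    (((Fintype.card (Finset ι) : ℝ) ^ 2 * |K|) ^ m * |K|)), by positivity, ?_⟩
  intro α _ _ o k Z hZ
  have hN : ∀ S, Nuc o S (Z S) |K| := fun S => (hZ S).2.mono (le_abs_self K)
  have h1 : (∑ S ∈ lv ι k, Z S + ∑ T ∈ lv ι (k + 1), Z T)ᴴ =
      ∑ S ∈ lv ι k, Z S + ∑ T ∈ lv ι (k + 1), Z T := by
    simp only [conjTranspose_add, conjTranspose_sum, (hZ _).1]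
  have h2 : ∀ S : Finset ι, (Z S + ∑ i ∈ Sᶜ, Z (insert i S))ᴴ = Z S + ∑ i ∈ Sᶜ, Z (insert i S) :=
    fun S => by simp only [conjTranspose_add, conjTranspose_sum, (hZ _).1]
  have hD : (0 : ℝ) ≤ Fintype.card α ^ k / Fintype.card α := by positivity
  rw [← sub_le_iff_le_add', mul_div_assoc, add_mul, Finset.sum_mul]
  simp only [trf_poly p hp h1, trf_poly p hp (h2 _), trf_poly p hp (hZ _).1]
  have e : ∀ (s : Finset ι) (g : ι → ℕ → ℝ), ∑ i ∈ s, ∑ m ∈ Finset.range p.natDegree, g i m =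
    ∑ m ∈ Finset.range p.natDegree, ∑ i ∈ s, g i m := fun s g => Finset.sum_comm
  simp only [e, ← Finset.sum_sub_distrib]
  rw [Finset.sum_comm (s := lv ι (k + 1)), Finset.sum_comm (s := lv ι k),
    ← Finset.sum_sub_distrib, ← Finset.sum_sub_distrib]
  refine le_trans (Finset.sum_le_sum fun m _ => ?_) (le_add_of_nonneg_left (by linarith))
  have := mul_le_mul_of_nonneg_left (mono_bound (k := k) hN m) (abs_nonneg (p.coeff (m + 1)))
  rw [← abs_mul, ← mul_assoc] at this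
  refine le_trans (le_of_eq ?_) ((le_abs_self _).trans this)
  simp only [mul_sub, Finset.mul_sum]

end Pool.Agent.MP_b746ed_mp.LD
end

section
set_option autoImplicit false
set_option linter.unusedSectionVars false
open scoped ComplexOrder MatrixOrder
open Matrix

namespace Pool.Agent.MP_b746ed_mp.LD
open KF
open H14 (trf dg)

namespace LOC1

section
variable {β : Type} [Fintype β] [DecidableEq β]

lemma trf_add (a b : ℝ → ℝ) (A : Matrix β β ℂ) :
    trf (fun x => a x + b x) A = trf a A + trf b A := by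
  simp only [trf, Multiset.sum_map_add]

lemma trf_mul (c : ℝ) (a : ℝ → ℝ) (A : Matrix β β ℂ) :
    trf (fun x => c * a x) A = c * trf a A := by
  simp only [trf, Multiset.sum_map_mul_left]

lemma trf_neg (a : ℝ → ℝ) (A : Matrix β β ℂ) : trf (fun x => -a x) A = -trf a A := by
  simp only [trf, Multiset.sum_map_neg]

lemma trf_sub (a b : ℝ → ℝ) (A : Matrix β β ℂ) :
    trf (fun x => a x - b x) A = trf a A - trf b A := by
  simp only [trf, Multiset.sum_map_sub]

lemma trf_sq {A : Matrix β β ℂ} (hA : Aᴴ = A) : trf (fun x => x ^ 2) A = rt (A * A) := by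
  obtain ⟨b, l, hb, -, hW, -⟩ := exists_basis hA
  rw [hW, basis_trf hb, basis_mul hb, basis_rt hb]
  simp only [sq]

end

variable {ι α : Type} [Fintype ι] [DecidableEq ι] [Fintype α] [DecidableEq α]

lemma card_le (s : Finset (Finset ι)) : (s.card : ℝ) ≤ 2 ^ Fintype.card ι := by
  have := Finset.card_le_univ s
  rw [Fintype.card_finset] at this
  exact_mod_cast this

lemma cross (o : α) (k : ℕ) (Z : Finset ι → Matrix (ι → α) (ι → α) ℂ) {K : ℝ}
    (hZ : ∀ S, Nuc o S (Z S) K) (s : Finset (Finset ι)) (hs : ∀ S ∈ s, S.card ≤ k + 1) :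
    rt ((∑ S ∈ s, Z S) * ∑ S ∈ s, Z S) ≤ ∑ S ∈ s, rt (Z S * Z S) +
      2 ^ Fintype.card ι * (2 ^ Fintype.card ι * (Fintype.card α ^ k * (K * K))) := by
  have hd : (1 : ℝ) ≤ Fintype.card α := by
    exact_mod_cast Fintype.card_pos_iff.2 ⟨o⟩
  have hK : 0 ≤ (Fintype.card α : ℝ) ^ k * (K * K) := mul_nonneg (by positivity) (mul_self_nonneg K)
  rw [Finset.sum_mul_sum, rt_sum]
  have h1 : ∀ S ∈ s, rt (∑ T ∈ s, Z S * Z T) ≤
      rt (Z S * Z S) + 2 ^ Fintype.card ι * (Fintype.card α ^ k * (K * K)) := fun S hS => by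
    rw [← Finset.add_sum_erase s _ hS, rt_add, rt_sum]
    refine add_le_add le_rfl ((Finset.sum_le_card_nsmul _ _
      ((Fintype.card α : ℝ) ^ k * (K * K)) fun T hT => ?_).trans ?_)
    · obtain ⟨hne, hT⟩ := Finset.mem_erase.1 hT
      have hc : (S ∩ T).card ≤ k := by
        by_contra hc
        have e1 : S ∩ T = S := Finset.eq_of_subset_of_card_le Finset.inter_subset_left
          (by have := hs S hS; omega)
        have e2 : S ∩ T = T := Finset.eq_of_subset_of_card_le Finset.inter_subset_right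
          (by have := hs T hT; omega)
        exact hne (e2.symm.trans e1)
      exact ((le_abs_self _).trans ((hZ S).mul (hZ T)).tn.abs_rt).trans
        (mul_le_mul_of_nonneg_right (pow_le_pow_right₀ hd hc) (mul_self_nonneg K))
    · rw [nsmul_eq_mul]
      exact mul_le_mul_of_nonneg_right (card_le _) hK
  refine (Finset.sum_le_sum h1).trans ?_
  rw [Finset.sum_add_distrib, Finset.sum_const, nsmul_eq_mul]
  exact add_le_add le_rfl (mul_le_mul_of_nonneg_right (card_le _) (by positivity))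

lemma rot (hROT : S_ROT) (o : α) (k : ℕ) (Z : Finset ι → Matrix (ι → α) (ι → α) ℂ) {K δ : ℝ}
    (hK : 0 ≤ K) (hδ : 0 ≤ δ) (hZ : ∀ S, 0 ≤ Z S ∧ Nuc o S (Z S) K) (w : ℝ → ℝ) (h0 : w 0 = 0)
    (hw : ConvexOn ℝ (Set.Icc 0 (2 ^ Fintype.card ι * K)) fun x => δ * x ^ 2 + w x)
    (s : Finset (Finset ι)) (hs : ∀ S ∈ s, S.card ≤ k + 1) :
    ∑ S ∈ s, trf w (Z S) ≤ trf w (∑ S ∈ s, Z S) +
      δ * (2 ^ Fintype.card ι * (2 ^ Fintype.card ι * (Fintype.card α ^ k * (K * K)))) := by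
  have h1 : ∑ S ∈ s, Z S ≤ (2 ^ Fintype.card ι * K) • (1 : Matrix (ι → α) (ι → α) ℂ) := by
    refine (Finset.sum_le_sum fun S _ =>
      (hZ S).2.opb.le hK (herm_of_nonneg (hZ S).1)).trans ?_
    rw [← Finset.sum_smul, Finset.sum_const, nsmul_eq_mul]
    exact rsmul_le_rsmul one_nonneg (mul_le_mul_of_nonneg_right (card_le _) hK)
  have h2 := hROT _ _ s Z _ _ (by positivity) hw (by simp [h0]) (fun S _ => (hZ S).1) h1
  have h3 := mul_le_mul_of_nonneg_left (cross o k Z (fun S => (hZ S).2) s hs) hδ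
  simp only [trf_add, trf_mul] at h2
  rw [trf_sq (herm_of_nonneg (Finset.sum_nonneg fun S _ => (hZ S).1)), Finset.sum_add_distrib,
    ← Finset.mul_sum, Finset.sum_congr rfl fun S _ => trf_sq (herm_of_nonneg (hZ S).1)] at h2
  linarith only [h3, h2]

lemma sum_lv {M : Type} [AddCommMonoid M] (k : ℕ) (h : Finset ι → M) :
    ∑ S ∈ lv ι k ∪ lv ι (k + 1), h S = ∑ S ∈ lv ι k, h S + ∑ S ∈ lv ι (k + 1), h S :=
  Finset.sum_union (Finset.disjoint_filter.2 fun S _ h1 h2 => by omega)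

lemma sum_cl {M : Type} [AddCommMonoid M] (S : Finset ι) (h : Finset ι → M) :
    ∑ T ∈ insert S (Sᶜ.image fun i => insert i S), h T = h S + ∑ i ∈ Sᶜ, h (insert i S) := by
  rw [Finset.sum_insert, Finset.sum_image]
  · intro i hi j _ hij
    exact (Finset.insert_inj (Finset.mem_compl.1 hi)).1 hij
  · intro hS
    obtain ⟨i, hi, e⟩ := Finset.mem_image.1 hS
    exact Finset.mem_compl.1 hi (e ▸ Finset.mem_insert_self i S)

end LOC1

theorem t_LOC1 (hROT : S_ROT) (hWEI : S_WEI) (hLOCP : S_LOCP) : S_LOC1 := by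
  intro ι _ _ K e κ hK he he1 hκ
  obtain ⟨N, hN⟩ : ∃ N : ℝ, N = 2 ^ Fintype.card ι := ⟨_, rfl⟩
  have hN0 : 0 < N := by rw [hN]; positivity
  obtain ⟨δ, hδ, hδκ⟩ : ∃ δ : ℝ, 0 < δ ∧ δ * ((1 + N) * (N * (N * (K * K))) + 1) = κ / 2 :=
    ⟨κ / 2 / ((1 + N) * (N * (N * (K * K))) + 1), by positivity, div_mul_cancel₀ _ (by positivity)⟩
  obtain ⟨f, p, f1, f2, p0, c1, c2⟩ := hWEI e δ (2 ^ Fintype.card ι * K) he he1 hδ (by positivity)
  obtain ⟨C, hC, hP⟩ := hLOCP ι p K p0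
  refine ⟨f, 2 * C / κ, f1, f2, fun α _ _ o k Z hd hZ => ?_⟩
  have f0 : f 0 = 0 := by
    have a := f1 0
    have b := f2 0
    rw [if_neg (by simpa using he1)] at b
    simp only [zero_sub, Left.neg_nonpos_iff, zero_le_one, sup_of_le_right, add_zero] at a b
    linarith only [a, b]
  have hd0 : (0 : ℝ) < Fintype.card α := by exact_mod_cast Fintype.card_pos_iff.2 ⟨o⟩
  obtain ⟨D, hD⟩ : ∃ D : ℝ, D = Fintype.card α ^ k := ⟨_, rfl⟩
  have hD0 : 0 < D := by rw [hD]; positivity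
  have h1 := LOC1.rot hROT o k Z hK hδ.le hZ (fun x => -(f x - p.eval x)) (by simp [f0, p0])
    (by simpa only [sub_eq_add_neg] using c2) (lv ι k ∪ lv ι (k + 1)) (fun S hS => by
      rcases Finset.mem_union.1 hS with h | h <;> have := (Finset.mem_filter.1 h).2 <;> omega)
  have h2 : ∀ S ∈ lv ι k, trf f (Z S) - trf (fun x => p.eval x) (Z S) - δ * (N * (N * (D * (K * K))))
      + (trf (fun x => p.eval x) (Z S + ∑ i ∈ Sᶜ, Z (insert i S)) -
        ∑ i ∈ Sᶜ, trf (fun x => p.eval x) (Z (insert i S))) ≤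
      trf f (Z S + ∑ i ∈ Sᶜ, Z (insert i S)) - ∑ i ∈ Sᶜ, trf f (Z (insert i S)) := fun S hS => by
    have h := LOC1.rot hROT o k Z hK hδ.le hZ (fun x => f x - p.eval x) (by simp [f0, p0]) c1
      (insert S (Sᶜ.image fun i => insert i S)) (fun T hT => by
        have hc := (Finset.mem_filter.1 hS).2
        rcases Finset.mem_insert.1 hT with rfl | hT
        · omega
        · obtain ⟨i, -, rfl⟩ := Finset.mem_image.1 hT
          exact hc ▸ Finset.card_insert_le i S)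
    simp only [LOC1.sum_cl, LOC1.trf_sub, Finset.sum_sub_distrib, ← hN, ← hD] at h
    linarith only [h]
  have h3 := Finset.sum_le_sum h2
  have h4 := hP α o k Z fun S => ⟨herm_of_nonneg (hZ S).1, (hZ S).2⟩
  simp only [LOC1.sum_lv, LOC1.trf_neg, LOC1.trf_sub, Finset.sum_neg_distrib,
    Finset.sum_sub_distrib, ← hN, ← hD] at h1
  rw [Finset.sum_add_distrib, Finset.sum_sub_distrib, Finset.sum_sub_distrib, Finset.sum_const,
    nsmul_eq_mul] at h3
  have h5 : ((lv ι k).card : ℝ) * (δ * (N * (N * (D * (K * K))))) ≤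
      N * (δ * (N * (N * (D * (K * K))))) :=
    mul_le_mul_of_nonneg_right (hN ▸ LOC1.card_le _) (by positivity)
  have h6 : C * D / Fintype.card α ≤ κ / 2 * D := by
    rw [div_le_iff₀ hκ] at hd
    rw [div_le_iff₀ hd0]
    linarith only [mul_le_mul_of_nonneg_right hd hD0.le]
  have h7 : δ * (N * (N * (D * (K * K)))) + N * (δ * (N * (N * (D * (K * K))))) + δ * D
      = κ / 2 * D := by rw [← hδκ]; ring
  have h8 := mul_pos hδ hD0
  rw [← hD] at h4 ⊢
  linarith

end Pool.Agent.MP_b746ed_mp.LD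
end

section
set_option autoImplicit false
set_option linter.unusedSectionVars false
open scoped ComplexOrder MatrixOrder
open Matrix

namespace Pool.Agent.MP_b746ed_mp.LD
open KF
open H14 (trf dg)

namespace LOC

lemma small {a κ C : ℝ} (ha : 0 < a) (hκ : 0 < κ) (hC : 0 ≤ C) :
    ∃ x, 0 < x ∧ x ≤ a ∧ x * C ≤ κ := by
  refine ⟨min a (κ / (C + 1)), by positivity, min_le_left _ _, ?_⟩
  refine (mul_le_mul_of_nonneg_right (min_le_right _ _) hC).trans ?_
  rw [div_mul_eq_mul_div, div_le_iff₀ (by positivity)]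
  linarith [mul_add κ C 1]

variable {β : Type} [Fintype β] [DecidableEq β]

lemma key {Z : Matrix β β ℂ} (hZ : Zᴴ = Z) {τ η g w : ℝ} (hg : 0 ≤ g) (h1 : g ≤ τ) (h2 : g ≤ η)
    (hτ : τ ≤ 1) (h : w = τ ∧ IsProj Z ∨ w = 0 ∧ Z ≤ (1 - η) • (1 : Matrix β β ℂ)) :
    (1 + w) • Z ≤ (2 : ℝ) • (1 : Matrix β β ℂ) ∧
      g ^ 2 • (1 : Matrix β β ℂ) ≤ (1 - (1 + w) • Z) * (1 - (1 + w) • Z) ∧
      ∀ f : ℝ → ℝ, (∀ x, g ≤ |x - 1| → f x = max (x - 1) 0) → trf f ((1 + w) • Z) = w * rt Z := by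
  obtain ⟨b, l, hb, hs, hW, hl⟩ := exists_basis hZ
  have hk : ∀ k, (1 + w) * l k ≤ 2 ∧ g ≤ |(1 + w) * l k - 1| ∧
      max ((1 + w) * l k - 1) 0 = w * l k := fun k => by
    have e : ∀ A : Matrix β β ℂ, ∀ c : ℝ, A *ᵥ b k = c • b k → (ip (b k) (A *ᵥ b k)).re = c :=
      fun A c hc => by
        rw [hc, ← Complex.coe_smul, ip_smul_right, hb, if_pos rfl, mul_one, Complex.ofReal_re]
    rcases h with ⟨rfl, hP⟩ | ⟨rfl, hP⟩
    · have a1 := e (Z * Z) (l k * l k) (by rw [← mulVec_mulVec, hl, mulVec_smul, hl, smul_smul])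
      rw [hP.2, e _ _ (hl k)] at a1
      rcases mul_eq_zero.1 (show l k * (l k - 1) = 0 by linarith) with a | a
      · rw [a]; simp only [mul_zero, Nat.ofNat_nonneg, zero_sub, abs_neg, abs_one, Left.neg_nonpos_iff, zero_le_one, sup_of_le_right, and_true, true_and, ge_iff_le]; linarith
      · rw [sub_eq_zero.1 a]
        simp only [mul_one, add_sub_cancel_left, abs_of_nonneg (hg.trans h1),
          max_eq_left (hg.trans h1), and_true]
        exact ⟨by linarith, h1⟩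
    · have a1 := psd_re_nonneg (le_def.1 hP) (b k)
      rw [e _ (1 - η - l k) (by rw [sub_mulVec, smul_mulVec, one_mulVec, hl, ← sub_smul])] at a1
      rw [add_zero, one_mul, zero_mul, max_eq_right (by linarith), abs_of_nonpos (by linarith)]
      exact ⟨by linarith, by linarith, rfl⟩
  have e1 : (1 + w) • Z = ∑ k, ((1 + w) * l k) • op (b k) (b k) := by
    rw [hW, Finset.smul_sum]; simp only [smul_smul]
  have e2 : ∀ c : ℝ, c • (1 : Matrix β β ℂ) = ∑ k, c • op (b k) (b k) := fun c => by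
    rw [← hs, Finset.smul_sum]; simp only [one_smul]
  have e3 : 1 - (1 + w) • Z = ∑ k, (1 - (1 + w) * l k) • op (b k) (b k) := by
    rw [e1, ← hs, ← Finset.sum_sub_distrib]; simp only [sub_smul]
  refine ⟨?_, ?_, fun f hf => ?_⟩
  · rw [e1, e2]; exact basis_le _ fun k => (hk k).1
  · rw [e3, e2, basis_mul hb]
    refine basis_le _ fun k => ?_
    rw [← sq, ← sq_abs (1 - _), abs_sub_comm]
    exact pow_le_pow_left₀ hg (hk k).2.1 2
  · rw [e1, basis_trf hb, hW, basis_rt hb, Finset.mul_sum]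
    exact Finset.sum_congr rfl fun k _ => (hf _ (hk k).2.1).trans (hk k).2.2

variable {ι α : Type} [Fintype ι] [DecidableEq ι] [Fintype α] [DecidableEq α] {o : α}

lemma mem_lv {k : ℕ} {S : Finset ι} : S ∈ lv ι k ↔ S.card = k := by simp only [lv, Finset.univ_filter_card_eq, Finset.mem_powersetCard, Finset.subset_univ, true_and]

lemma pw_le (o : α) {j k : ℕ} (h : j ≤ k) : (Fintype.card α : ℝ) ^ j ≤ Fintype.card α ^ k :=
  pow_le_pow_right₀ (Nat.one_le_cast.2 (Fintype.card_pos_iff.2 ⟨o⟩)) h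

lemma inter_le {S T : Finset ι} {k : ℕ} (hS : S.card ≤ k + 1) (hT : T.card ≤ k + 1) (h : S ≠ T) :
    (S ∩ T).card ≤ k := by
  by_contra hc
  exact h ((Finset.eq_of_subset_of_card_le Finset.inter_subset_left (by omega)).symm.trans
    (Finset.eq_of_subset_of_card_le Finset.inter_subset_right (by omega)))

lemma el_sub (S : Finset ι) {a b : Option ι} (h : a ≠ b) :
    a.elim S (insert · S) ∩ b.elim S (insert · S) ⊆ S := fun x hx => by
  by_contra hn
  cases a <;> cases b <;>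
    simp only [Option.elim, Finset.mem_inter, Finset.mem_insert, hn, or_false, and_false,
      false_and] at hx
  exact h (by rw [← hx.1, ← hx.2])

lemma tn1 {S : Finset ι} {Z : Matrix (ι → α) (ι → α) ℂ} {a : ℝ} {k : ℕ} (h : Nuc o S Z a)
    (hk : S.card ≤ k) : Tn Z (a * Fintype.card α ^ k) ∧ hs Z ≤ a ^ 2 * Fintype.card α ^ k := by
  have := h.nonneg
  have := pw_le o hk
  exact ⟨h.tn.mono (by rw [mul_comm]; gcongr), h.hs_le.trans (by rw [mul_comm]; gcongr)⟩

lemma sum_le_card {u : Finset (Finset ι)} {F : Finset ι → ℝ} {c : ℝ} (hc : 0 ≤ c)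
    (h : ∀ S ∈ u, F S ≤ c) : ∑ S ∈ u, F S ≤ Fintype.card (Finset ι) * c := by
  refine (Finset.sum_le_card_nsmul _ _ _ h).trans ?_
  rw [nsmul_eq_mul]
  gcongr
  exact Finset.card_le_univ u

end LOC

open LOC in
theorem t_LOC (hLOC1 : S_LOC1) (hTT : S_TT) (hGS : S_GS) (hWIN : S_WIN) : S_LOC := by
  intro ι _ _ K η κ hK hη hη1 hκ
  obtain ⟨N, hN⟩ : ∃ N : ℝ, N = Fintype.card (Finset ι) := ⟨_, rfl⟩
  have hN0 : 0 ≤ N := hN ▸ Nat.cast_nonneg _
  obtain ⟨CT, hCT, hT⟩ := hTT (Fintype.card (Finset ι))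
    (N ^ 2 * (K * K) + N * K + 4 * (N * (N * (K * K) ^ 2))) (η / 2) (by positivity) (by positivity)
  obtain ⟨τ, hτ0, hτ1, hτ⟩ := small one_pos (show 0 < κ / 3 by positivity) hCT.le
  have hg : 0 < min τ η := lt_min hτ0 hη
  obtain ⟨CW, hCW, hW⟩ := hWIN (Fintype.card ι + 1) (2 * K + 2 * K * (2 * K)) (min τ η)
    (by positivity) hg ((min_le_left _ _).trans hτ1)
  obtain ⟨e, he0, heg, he⟩ := small (half_pos hg) (show 0 < κ / 3 by positivity)
    (show 0 ≤ CW * N by positivity)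
  obtain ⟨f, d0, hf1, hf2, hL⟩ := hLOC1 ι (2 * K) e (κ / 3) (by positivity) he0
    (by linarith only [min_le_left τ η, hτ1, heg]) (by positivity)
  refine ⟨d0, fun α _ _ o k Z Pu t hd hZ hPu hcomm hgap hUp => ?_⟩
  obtain ⟨D, hD⟩ : ∃ D : ℝ, D = Fintype.card α ^ k := ⟨_, rfl⟩
  have hD0 : 0 ≤ D := by rw [hD]; positivity
  obtain ⟨w, hw⟩ : ∃ w : Finset ι → ℝ, w = fun T => if T ∈ Pu then τ else 0 := ⟨_, rfl⟩
  have hw0 : ∀ T, 0 ≤ w T ∧ w T ≤ 1 := fun T => by
    rw [hw]; dsimp only; split_ifs <;> constructor <;> linarith only [hτ0, hτ1]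
  have hwk : ∀ S ∈ lv ι k, w S = 0 := fun S hS => by
    rw [hw]; exact if_neg fun h => by have := (hPu S h).1; have := mem_lv.1 hS; omega
  have hZ' : ∀ S, 0 ≤ (1 + w S) • Z S ∧ Nuc o S ((1 + w S) • Z S) (2 * K) := fun S =>
    ⟨rsmul_nonneg (hZ S).1 (by linarith only [hw0 S]), ((hZ S).2.rsmul _).mono (by
      rw [abs_of_nonneg (by linarith only [hw0 S])]; gcongr; linarith only [hw0 S])⟩
  have hkey := fun T (hT : T ∈ lv ι (k + 1)) => key (w := w T) (herm_of_nonneg (hZ T).1) hg.le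
    (min_le_left τ η) (min_le_right τ η) hτ1 (by
      by_cases h : T ∈ Pu
      · exact .inl ⟨by rw [hw]; exact if_pos h, (hPu T h).2⟩
      · exact .inr ⟨by rw [hw]; exact if_neg h, hgap T hT h⟩)
  have hf : ∀ x, min τ η ≤ |x - 1| → f x = max (x - 1) 0 := fun x hx =>
    le_antisymm (by simpa only [if_neg (show ¬|x - 1| < e by linarith only [he0, heg, hx]), add_zero] using hf2 x)
      (hf1 x)
  have hins : ∀ S ∈ lv ι k, ∀ i ∈ Sᶜ, insert i S ∈ lv ι (k + 1) := fun S hS i hi => by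
    rw [mem_lv, Finset.card_insert_of_notMem (Finset.mem_compl.1 hi), mem_lv.1 hS]
  have hcl : ∀ S ∈ lv ι k,
      trf f ((1 + w S) • Z S + ∑ i ∈ Sᶜ, (1 + w (insert i S)) • Z (insert i S)) -
        ∑ i ∈ Sᶜ, trf f ((1 + w (insert i S)) • Z (insert i S)) - t S ≤ e * CW * D := by
    intro S hS
    have := hW (ι → α) (Option ι) (Finset.insertNone Sᶜ) (Finset.univ.erase none)
      (fun a => (1 + w (a.elim S (insert · S))) • Z (a.elim S (insert · S))) D
      (t S + ∑ i ∈ Sᶜ, w (insert i S) * rt (Z (insert i S))) e f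
      (by rw [Finset.card_insertNone]; exact Nat.succ_le_succ (Finset.card_le_univ _)) hD0 he0 heg
      (fun a _ => (hZ' _).1) (fun a ha hb => ?_) (fun a _ hb => ?_) (fun a _ b _ hab => ?_) hf2 ?_
    · rw [Finset.sum_insertNone] at this
      rw [Finset.sum_congr rfl fun i hi => (hkey _ (hins S hS i hi)).2.2 f hf]
      simp only [Option.elim] at this
      linarith only [this]
    · cases a with
      | none => simp only [Finset.mem_erase, ne_eq, not_true_eq_false, Finset.mem_univ, and_true] at hb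
      | some i =>
        have := hkey _ (hins S hS i (Finset.some_mem_insertNone.1 ha))
        exact ⟨this.1, this.2.1⟩
    · obtain rfl : a = none := by simpa only [Finset.mem_erase, ne_eq, Finset.mem_univ, and_true, Decidable.not_not] using hb
      refine ((le_abs_self _).trans (tn1 (hZ' S).2 (mem_lv.1 hS).le).1.abs_rt).trans ?_
      rw [← hD]; gcongr; exact le_add_of_nonneg_right (by positivity)
    · refine (tn1 ((hZ' _).2.mul (hZ' _).2) (k := k) ?_).1.mono ?_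
      · exact (Finset.card_le_card (el_sub S hab)).trans (mem_lv.1 hS).le
      · rw [← hD]; gcongr; exact le_add_of_nonneg_left (by positivity)
    · refine ((hUp S hS).add (up_sum Sᶜ fun i _ => (up_psd (hZ (insert i S)).1).rsmul
        (hw0 (insert i S)).1)).mono (le_of_eq ?_) le_rfl
      simp only [Finset.sum_insertNone, Option.elim, hwk S hS, add_smul, one_smul, zero_smul,
        Finset.sum_add_distrib]
      abel
  have hsub : Pu ⊆ lv ι (k + 1) := fun T h => mem_lv.2 (hPu T h).1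
  have hM0 : 0 ≤ ∑ T ∈ lv ι (k + 1) \ Pu, Z T + ∑ S ∈ lv ι k, Z S :=
    add_nonneg (Finset.sum_nonneg fun _ _ => (hZ _).1) (Finset.sum_nonneg fun _ _ => (hZ _).1)
  have hhs : ∀ T ∈ Pu, ∀ u : Finset (Finset ι), (∀ S ∈ u, S.card ≤ k + 1 ∧ T ≠ S) →
      hs (Z T * ∑ S ∈ u, Z S) ≤ N * (N * (K * K) ^ 2) * D := fun T hT u hu => by
    rw [Finset.mul_sum, mul_assoc, mul_assoc, hN, hD]
    refine (hs_sum_le _ _).trans (mul_le_mul (Nat.cast_le.2 (Finset.card_le_univ u))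
      (sum_le_card (by positivity) fun S hS => (tn1 ((hZ T).2.mul (hZ S).2)
        (inter_le (hPu T hT).1.le (hu S hS).1 (hu S hS).2)).2)
      (Finset.sum_nonneg fun _ _ => hs_nonneg _) (by positivity))
  have main := hT (ι → α) (Finset ι) Pu Z (∑ T ∈ lv ι (k + 1) \ Pu, Z T + ∑ S ∈ lv ι k, Z S) D
    (∑ S ∈ lv ι k, t S + (κ / 3 + κ / 3) * D) τ (Finset.card_le_univ _) hD0 hτ0.le
    (fun T h => (hPu T h).2) hcomm hM0 ?_ (fun T h => ?_) ?_
  · refine main.mono (le_of_eq ?_) ?_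
    · rw [← Finset.sum_sdiff hsub]; abel
    · rw [← hD]; linarith only [mul_le_mul_of_nonneg_right hτ hD0]
  · have h1 := hGS (ι → α) (Finset ι) (lv ι (k + 1) \ Pu) Z η (K * K * D) hη.le hη1
      (by positivity) (fun T h => ⟨(hZ T).1, hgap T (Finset.mem_sdiff.1 h).1
        (Finset.mem_sdiff.1 h).2⟩) fun S hS T h hne => hD ▸ (tn1 ((hZ S).2.mul (hZ T).2)
          (inter_le (mem_lv.1 (Finset.mem_sdiff.1 hS).1).le
            (mem_lv.1 (Finset.mem_sdiff.1 h).1).le hne)).1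
    refine (h1.add (up_sum (lv ι k) fun S hS => (tn1 (hZ S).2 (mem_lv.1 hS).le).1.up)).mono
      (le_of_eq (by abel)) ?_
    have a1 : ∑ _S ∈ lv ι k, K * (Fintype.card α : ℝ) ^ k ≤ N * (K * D) :=
      hN ▸ hD ▸ sum_le_card (by positivity) fun _ _ => le_rfl
    have a2 : ((lv ι (k + 1) \ Pu).card : ℝ) ^ 2 * (K * K * D) ≤ N ^ 2 * (K * K * D) := by
      gcongr; rw [hN]; exact Nat.cast_le.2 (Finset.card_le_univ _)
    have a3 : 0 ≤ N * (N * (K * K) ^ 2) * D := by positivity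
    linarith only [a1, a2, a3]
  · have a1 := hhs T h (lv ι (k + 1) \ Pu) fun S hS => ⟨(mem_lv.1 (Finset.mem_sdiff.1 hS).1).le,
      fun e => (Finset.mem_sdiff.1 hS).2 (e ▸ h)⟩
    have a2 := hhs T h (lv ι k) fun S hS => ⟨(mem_lv.1 hS).le.trans (Nat.le_succ _), fun e => by
      have := (hPu T h).1; have := mem_lv.1 hS; subst e; omega⟩
    have a3 : 0 ≤ (N ^ 2 * (K * K) + N * K) * D := by positivity
    rw [mul_add]
    linarith only [hs_add_le (Z T * ∑ S ∈ lv ι (k + 1) \ Pu, Z S) (Z T * ∑ S ∈ lv ι k, Z S), a1, a2, a3]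
  · have h1 := hL α o k (fun S => (1 + w S) • Z S) hd hZ'
    have e1 : ∑ S ∈ lv ι k, (1 + w S) • Z S + ∑ T ∈ lv ι (k + 1), (1 + w T) • Z T =
        (1 + τ) • ∑ T ∈ Pu, Z T + (∑ T ∈ lv ι (k + 1) \ Pu, Z T + ∑ S ∈ lv ι k, Z S) := by
      rw [← Finset.sum_sdiff hsub, Finset.sum_congr rfl fun S hS => by rw [hwk S hS],
        Finset.sum_congr (s₁ := _ \ _) rfl fun T h => by
          rw [show w T = 0 from hw ▸ if_neg (Finset.mem_sdiff.1 h).2],
        Finset.sum_congr (s₁ := Pu) rfl fun T h => by rw [show w T = τ from hw ▸ if_pos h],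
        Finset.smul_sum]
      simp only [add_zero, one_smul]
      abel
    have e2 : ∑ T ∈ lv ι (k + 1), trf f ((1 + w T) • Z T) = τ * ∑ T ∈ Pu, rt (Z T) := by
      rw [Finset.sum_congr rfl fun T h => (hkey T h).2.2 f hf, hw]
      simp only [ite_mul, zero_mul, Finset.sum_ite_mem, Finset.inter_eq_right.2 hsub,
        Finset.mul_sum]
    have a1 := sum_le_card (by positivity) hcl
    rw [Finset.sum_sub_distrib, ← hN] at a1
    rw [← e1, up_iff_trf (herm_of_nonneg (add_nonneg (Finset.sum_nonneg fun _ _ => (hZ' _).1)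
      (Finset.sum_nonneg fun _ _ => (hZ' _).1)))]
    refine (Multiset.sum_map_le_sum_map _ _ fun _ _ => hf1 _).trans ?_
    change trf f _ ≤ _
    rw [e2, ← hD] at h1
    linarith only [mul_le_mul_of_nonneg_right he hD0, h1, a1]

end Pool.Agent.MP_b746ed_mp.LD
end

section
set_option autoImplicit false
set_option linter.unusedSectionVars false
open scoped ComplexOrder MatrixOrder
open Matrix

namespace Pool.Agent.MP_b746ed_mp.LD
open KF
open H14 (trf dg)

namespace PUR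

lemma pick {B : Type} (t : Finset B) (R : B → ℝ) (φ : B → ℂ) (e : ℝ) (hR : ∀ z, 0 ≤ R z)
    (he : ∑ z ∈ t, R z ≤ e) (hb : 0 < ∑ z ∈ t, ‖φ z‖ ^ 2) :
    ∃ z ∈ t, φ z ≠ 0 ∧ (∑ z ∈ t, ‖φ z‖ ^ 2) * R z ≤ e * ‖φ z‖ ^ 2 := by
  by_contra h
  have h' : ∀ z ∈ t, φ z ≠ 0 → e * ‖φ z‖ ^ 2 < (∑ z ∈ t, ‖φ z‖ ^ 2) * R z :=
    fun z hz h0 => lt_of_not_ge fun h1 => h ⟨z, hz, h0, h1⟩
  obtain ⟨z1, hz1, h1⟩ := Finset.exists_ne_zero_of_sum_ne_zero hb.ne'
  have h2 : φ z1 ≠ 0 := fun h0 => h1 (by simp [h0])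
  have h3 : ∑ z ∈ t, e * ‖φ z‖ ^ 2 < ∑ z ∈ t, (∑ z ∈ t, ‖φ z‖ ^ 2) * R z := by
    refine Finset.sum_lt_sum (fun z hz => ?_) ⟨z1, hz1, h' z1 hz1 h2⟩
    by_cases h0 : φ z = 0
    · rw [h0, norm_zero, zero_pow two_ne_zero, mul_zero]
      exact mul_nonneg hb.le (hR z)
    · exact (h' z hz h0).le
  rw [← Finset.mul_sum, ← Finset.mul_sum, mul_comm] at h3
  exact absurd (mul_le_mul_of_nonneg_left he hb.le) (not_le.2 h3)

lemma three (a b c : ℂ) : ‖a + b + c‖ ^ 2 ≤ 3 * (‖a‖ ^ 2 + ‖b‖ ^ 2 + ‖c‖ ^ 2) := by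
  have h : ‖a + b + c‖ ≤ ‖a‖ + ‖b‖ + ‖c‖ := norm_add₃_le
  refine (pow_le_pow_left₀ (norm_nonneg _) h 2).trans ?_
  linarith only [sq_nonneg (‖a‖ - ‖b‖), sq_nonneg (‖a‖ - ‖c‖), sq_nonneg (‖b‖ - ‖c‖)]

lemma quo {A : Type} (s : Finset A) (r : A → ℂ) (p : ℂ) (hp : p ≠ 0) (b e : ℝ)
    (h : b * ∑ y ∈ s, ‖r y‖ ^ 2 ≤ e * ‖p‖ ^ 2) : b * ∑ y ∈ s, ‖r y / p‖ ^ 2 ≤ e := by
  have h0 : 0 < ‖p‖ ^ 2 := by positivity
  simp only [norm_div, div_pow]
  rw [← Finset.sum_div, ← mul_div_assoc, div_le_iff₀ h0]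
  exact h

lemma close {A B : Type} (s : Finset A) (t : Finset B) (F : A → B → ℂ) (ξ : A → ℂ) (φ : B → ℂ)
    (e : ℝ) (he0 : 0 ≤ e) (he : e ≤ 1 / 12)
    (hr : ∑ y ∈ s, ∑ z ∈ t, ‖F y z - ξ y * φ z‖ ^ 2 ≤ e)
    (hab : 1 / 4 ≤ (∑ y ∈ s, ‖ξ y‖ ^ 2) * ∑ z ∈ t, ‖φ z‖ ^ 2) :
    ∃ y0 z0, ∃ c : ℂ,
      ∑ y ∈ s, ∑ z ∈ t, ‖c * (F y z0 * F y0 z) - ξ y * φ z‖ ^ 2 ≤ 7 * e := by
  have ha0 : 0 ≤ ∑ y ∈ s, ‖ξ y‖ ^ 2 := Finset.sum_nonneg fun _ _ => by positivity
  have hb0 : 0 ≤ ∑ z ∈ t, ‖φ z‖ ^ 2 := Finset.sum_nonneg fun _ _ => by positivity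
  have ha : 0 < ∑ y ∈ s, ‖ξ y‖ ^ 2 := ha0.lt_of_ne fun h => by
    rw [← h, zero_mul] at hab; norm_num at hab
  have hb : 0 < ∑ z ∈ t, ‖φ z‖ ^ 2 := hb0.lt_of_ne fun h => by
    rw [← h, mul_zero] at hab; norm_num at hab
  obtain ⟨y0, -, hy, hy'⟩ := pick s (fun y => ∑ z ∈ t, ‖F y z - ξ y * φ z‖ ^ 2) ξ e
    (fun _ => Finset.sum_nonneg fun _ _ => by positivity) hr ha
  obtain ⟨z0, -, hz, hz'⟩ := pick t (fun z => ∑ y ∈ s, ‖F y z - ξ y * φ z‖ ^ 2) φ e
    (fun _ => Finset.sum_nonneg fun _ _ => by positivity) (by rwa [Finset.sum_comm]) hb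
  have hU := quo s _ _ hz _ _ hz'
  have hV := quo t _ _ hy _ _ hy'
  refine ⟨y0, z0, (φ z0 * ξ y0)⁻¹, ?_⟩
  have hU0 : 0 ≤ ∑ y ∈ s, ‖(F y z0 - ξ y * φ z0) / φ z0‖ ^ 2 :=
    Finset.sum_nonneg fun _ _ => by positivity
  have hV0 : 0 ≤ ∑ z ∈ t, ‖(F y0 z - ξ y0 * φ z) / ξ y0‖ ^ 2 :=
    Finset.sum_nonneg fun _ _ => by positivity
  have key : ∑ y ∈ s, ∑ z ∈ t, ‖(φ z0 * ξ y0)⁻¹ * (F y z0 * F y0 z) - ξ y * φ z‖ ^ 2 ≤
      ∑ y ∈ s, ∑ z ∈ t, 3 * (‖(F y z0 - ξ y * φ z0) / φ z0‖ ^ 2 * ‖φ z‖ ^ 2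
        + ‖ξ y‖ ^ 2 * ‖(F y0 z - ξ y0 * φ z) / ξ y0‖ ^ 2
        + ‖(F y z0 - ξ y * φ z0) / φ z0‖ ^ 2 * ‖(F y0 z - ξ y0 * φ z) / ξ y0‖ ^ 2) := by
    refine Finset.sum_le_sum fun y _ => Finset.sum_le_sum fun z _ => ?_
    have : (φ z0 * ξ y0)⁻¹ * (F y z0 * F y0 z) - ξ y * φ z
        = (F y z0 - ξ y * φ z0) / φ z0 * φ z + ξ y * ((F y0 z - ξ y0 * φ z) / ξ y0)
          + (F y z0 - ξ y * φ z0) / φ z0 * ((F y0 z - ξ y0 * φ z) / ξ y0) := by
      field_simp
      ring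
    rw [this]
    refine (three _ _ _).trans (le_of_eq ?_)
    rw [norm_mul, norm_mul, norm_mul, mul_pow, mul_pow, mul_pow]
  refine key.trans ?_
  simp only [← Finset.mul_sum, Finset.sum_add_distrib, ← Finset.sum_mul]
  generalize (∑ y ∈ s, ‖(F y z0 - ξ y * φ z0) / φ z0‖ ^ 2) = U at *
  generalize (∑ z ∈ t, ‖(F y0 z - ξ y0 * φ z) / ξ y0‖ ^ 2) = V at *
  generalize (∑ y ∈ s, ‖ξ y‖ ^ 2) = a at *
  generalize (∑ z ∈ t, ‖φ z‖ ^ 2) = b at *
  have h1 : (b * U) * (a * V) ≤ e * e := mul_le_mul hU hV (mul_nonneg ha0 hV0) he0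
  have h2 : 1 / 4 * (U * V) ≤ a * b * (U * V) := mul_le_mul_of_nonneg_right hab (mul_nonneg hU0 hV0)
  have h3 : e * e ≤ e * (1 / 12) := mul_le_mul_of_nonneg_left he he0
  have h4 : (b * U) * (a * V) = a * b * (U * V) := by ring
  linarith only [hV, hU, h1, h2, h3]

lemma proj {B : Type} (t : Finset B) (u φ : B → ℂ) (hb : 0 < ∑ z ∈ t, ‖φ z‖ ^ 2) :
    ∑ z ∈ t, ‖u z - (∑ z ∈ t, star (φ z) * u z) / ((∑ z ∈ t, ‖φ z‖ ^ 2 : ℝ) : ℂ) * φ z‖ ^ 2
      = ∑ z ∈ t, ‖u z‖ ^ 2 - ‖∑ z ∈ t, star (φ z) * u z‖ ^ 2 / ∑ z ∈ t, ‖φ z‖ ^ 2 := by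
  set b := ∑ z ∈ t, ‖φ z‖ ^ 2 with hbd
  set p := ∑ z ∈ t, star (φ z) * u z with hpd
  have h1 : ∀ z, ‖u z - p / (b : ℂ) * φ z‖ ^ 2 = ‖u z‖ ^ 2 + ‖p‖ ^ 2 / b ^ 2 * ‖φ z‖ ^ 2
      - 2 / b * (star p * (star (φ z) * u z)).re := by
    intro z
    simp only [Complex.sq_norm, Complex.normSq_apply, Complex.sub_re, Complex.sub_im,
      Complex.mul_re, Complex.mul_im, Complex.div_ofReal_re, Complex.div_ofReal_im,
      Complex.star_def, Complex.conj_re, Complex.conj_im]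
    field_simp
    ring
  have h2 : (star p * p).re = ‖p‖ ^ 2 := by
    rw [Complex.star_def, Complex.conj_mul', ← Complex.ofReal_pow, Complex.ofReal_re]
  simp only [h1, Finset.sum_sub_distrib, Finset.sum_add_distrib, ← Finset.mul_sum,
    ← Complex.re_sum]
  rw [← hbd, ← hpd, h2]
  field_simp
  ring

variable {ι α : Type} [Fintype ι] [DecidableEq ι] [Fintype α] [DecidableEq α] (o : α)

lemma mask_c (S : Finset ι) {y : ι → α} (hy : y ∈ cfg o S) (z : ι → α) :
    mask o Sᶜ (pw S y z) = y := by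
  rw [mem_cfg] at hy
  funext i; by_cases hi : i ∈ S <;> simp [mask, pw, hi, hy]

lemma nv_pw (S : Finset ι) (ψ : (ι → α) → ℂ) :
    nv ψ = ∑ y ∈ cfg o S, ∑ z ∈ cfg o Sᶜ, ‖ψ (pw S y z)‖ ^ 2 := by
  rw [nv, sum_pw o S]

lemma ip_XT (S : Finset ι) (ψ v : (ι → α) → ℂ) : (ip v (XT o S ψ *ᵥ v)).re
    = ∑ x ∈ cfg o S, ∑ y ∈ cfg o S,
      ‖∑ z ∈ cfg o Sᶜ, star (v (pw S x z)) * ψ (pw S y z)‖ ^ 2 := by
  rw [Finset.sum_comm]
  simp only [XT, xop_eq_sum, sum_mulVec, ip_sum_right, op_mulVec, ip_smul_right, Complex.re_sum]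
  refine Finset.sum_congr rfl fun y _ => Finset.sum_congr rfl fun x _ => ?_
  have h : ip v (col o S (sl S y ψ) x)
      = ∑ z ∈ cfg o Sᶜ, star (v (pw S x z)) * ψ (pw S y z) := by
    simp only [ip_eq, col, mul_ite, mul_zero]
    rw [sum_agree o S x]
    refine Finset.sum_congr rfl fun z hz => ?_
    rw [mask_pw o S x hz, sl]
  rw [← star_ip v, h, Complex.star_def, Complex.conj_mul', ← Complex.ofReal_pow, Complex.ofReal_re]

lemma near (S : Finset ι) (ψ : (ι → α) → ℂ) (η : ℝ) (h1 : nv ψ = 1)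
    (h : ¬XT o S ψ ≤ (1 - η) • (1 : Matrix _ _ ℂ)) : ∃ χ, Prd o S χ ∧ nv (ψ - χ) ≤ η := by
  rw [le_iff_ip (XT_conj o S ψ) (by simp)] at h
  obtain ⟨v, hv⟩ := not_forall.1 h
  rw [ip_rsmul_one, ip_XT, nv_pw o S v, Finset.mul_sum, not_le] at hv
  obtain ⟨x, -, hx⟩ := Finset.exists_lt_of_sum_lt hv
  have hb0 : 0 ≤ ∑ z ∈ cfg o Sᶜ, ‖v (pw S x z)‖ ^ 2 := Finset.sum_nonneg fun _ _ => by positivity
  have hb : 0 < ∑ z ∈ cfg o Sᶜ, ‖v (pw S x z)‖ ^ 2 := hb0.lt_of_ne fun h0 => by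
    have h2 := (Finset.sum_eq_zero_iff_of_nonneg fun _ _ => by positivity).1 h0.symm
    have h3 : ∀ y, ∑ z ∈ cfg o Sᶜ, star (v (pw S x z)) * ψ (pw S y z) = 0 := fun y =>
      Finset.sum_eq_zero fun z hz => by
        rw [norm_eq_zero.1 (pow_eq_zero_iff two_ne_zero |>.1 (h2 z hz)), star_zero, zero_mul]
    rw [← h0] at hx
    simp only [h3] at hx
    simp at hx
  refine ⟨fun a => (∑ z ∈ cfg o Sᶜ, star (v (pw S x z)) * ψ (pw S (mask o Sᶜ a) z)) /
    ((∑ z ∈ cfg o Sᶜ, ‖v (pw S x z)‖ ^ 2 : ℝ) : ℂ) * v (pw S x (mask o S a)),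
    ⟨fun y => (∑ z ∈ cfg o Sᶜ, star (v (pw S x z)) * ψ (pw S y z)) /
      ((∑ z ∈ cfg o Sᶜ, ‖v (pw S x z)‖ ^ 2 : ℝ) : ℂ), fun z => v (pw S x z), fun _ => rfl⟩, ?_⟩
  rw [nv_pw o S, Finset.sum_congr rfl fun y hy => (Finset.sum_congr rfl fun z hz => by
    rw [Pi.sub_apply, mask_c o S hy, mask_pw o S y hz]).trans
      (proj (cfg o Sᶜ) (fun z => ψ (pw S y z)) (fun z => v (pw S x z)) hb),
    Finset.sum_sub_distrib, ← nv_pw o S ψ, h1, ← Finset.sum_div]
  have := (lt_div_iff₀ hb).2 hx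
  linarith

lemma step (S : Finset ι) (ψ χ : (ι → α) → ℂ) (ε : ℝ) (h0 : 0 ≤ ε) (hε : ε ≤ 1 / 8)
    (h1 : nv ψ = 1) (hχ : Prd o S χ) (hd : √(nv (ψ - χ)) ≤ ε) :
    ∃ ψ', nv ψ' = 1 ∧ √(nv (ψ - ψ')) ≤ 8 * ε ∧ Prd o S ψ' ∧ ∀ S', Prd o S' ψ → Prd o S' ψ' := by
  obtain ⟨ξ, φ, hχ⟩ := hχ
  have hd2 : nv (ψ - χ) ≤ ε ^ 2 := (Real.sqrt_le_left h0).1 hd
  have hx : ∀ y ∈ cfg o S, ∀ z ∈ cfg o Sᶜ, χ (pw S y z) = ξ y * φ z := fun y hy z hz => by
    rw [hχ, mask_c o S hy, mask_pw o S y hz]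
  have hn : 1 / 2 ≤ √(nv χ) := by
    have := sqrt_nv_add (ψ - χ) χ
    rw [sub_add_cancel, h1, Real.sqrt_one] at this
    linarith
  have hab : 1 / 4 ≤ (∑ y ∈ cfg o S, ‖ξ y‖ ^ 2) * ∑ z ∈ cfg o Sᶜ, ‖φ z‖ ^ 2 := by
    have h2 := (Real.le_sqrt (by norm_num) (nv_nonneg χ)).1 hn
    rw [nv_pw o S χ, Finset.sum_congr rfl fun y hy => Finset.sum_congr rfl fun z hz => by
      rw [hx y hy z hz, norm_mul, mul_pow], ← Finset.sum_mul_sum] at h2
    linarith only [h2]
  obtain ⟨y0, z0, c, hc⟩ := close (cfg o S) (cfg o Sᶜ) (fun y z => ψ (pw S y z)) ξ φ (ε ^ 2)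
    (sq_nonneg ε) (by nlinarith only [h0, hε]) (by
      rw [nv_pw o S, Finset.sum_congr rfl fun y hy => Finset.sum_congr rfl fun z hz => by
        rw [Pi.sub_apply, hx y hy z hz]] at hd2
      exact hd2) hab
  set θ : (ι → α) → ℂ := fun a => c * (ψ (pw S a z0) * ψ (pw S y0 a)) with hθ
  have hθχ : √(nv (θ - χ)) ≤ 3 * ε := by
    refine Real.sqrt_le_iff.2 ⟨by positivity, ?_⟩
    have e1 : ∀ y z, pw S (pw S y z) z0 = pw S y z0 := fun y z => by
      funext i; by_cases hi : i ∈ S <;> simp [pw, hi]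
    have e2 : ∀ y z, pw S y0 (pw S y z) = pw S y0 z := fun y z => by
      funext i; by_cases hi : i ∈ S <;> simp [pw, hi]
    rw [nv_pw o S, Finset.sum_congr rfl fun y hy => Finset.sum_congr rfl fun z hz => by
      rw [Pi.sub_apply, hx y hy z hz, hθ]]
    simp only [e1, e2]
    linarith only [sq_nonneg ε, hc]
  have hψθ : √(nv (ψ - θ)) ≤ 4 * ε := by
    have := sqrt_nv_sub (ψ - χ) (θ - χ)
    rw [sub_sub_sub_cancel_right] at this
    linarith only [hd, hθχ, this]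
  have hlo : 1 - 4 * ε ≤ √(nv θ) := by
    have := sqrt_nv_add (ψ - θ) θ
    rw [sub_add_cancel, h1, Real.sqrt_one] at this
    linarith only [hψθ, this]
  have hhi : √(nv θ) ≤ 1 + 4 * ε := by
    have := sqrt_nv_sub ψ (ψ - θ)
    rw [sub_sub_cancel, h1, Real.sqrt_one] at this
    linarith only [hψθ, this]
  have hpos : 0 < √(nv θ) := by linarith only [hε, hlo]
  have hsq : √(nv θ) ^ 2 = nv θ := Real.sq_sqrt (nv_nonneg θ)
  refine ⟨(√(nv θ))⁻¹ • θ, ?_, ?_, ?_, ?_⟩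
  · rw [nv_rsmul, inv_pow, hsq]
    exact inv_mul_cancel₀ (by rw [← hsq]; positivity)
  · have h2 := sqrt_nv_add (ψ - θ) (θ - (√(nv θ))⁻¹ • θ)
    rw [sub_add_sub_cancel] at h2
    have h3 : √(nv (θ - (√(nv θ))⁻¹ • θ)) ≤ 4 * ε := by
      refine Real.sqrt_le_iff.2 ⟨by positivity, ?_⟩
      have : θ - (√(nv θ))⁻¹ • θ = (1 - (√(nv θ))⁻¹) • θ := by rw [sub_smul, one_smul]
      rw [this, nv_rsmul]
      have h4 : (1 - (√(nv θ))⁻¹) ^ 2 * nv θ = (√(nv θ) - 1) ^ 2 := by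
        generalize √(nv θ) = n at *
        rw [← hsq]
        field_simp
      rw [h4]
      exact sq_le_sq' (by linarith only [hlo]) (by linarith only [hhi])
    linarith only [hψθ, h2, h3]
  · refine ⟨fun u => ((√(nv θ))⁻¹ : ℝ) • (c * ψ (pw S u z0)), fun u => ψ (pw S y0 u), fun a => ?_⟩
    have e1 : pw S (mask o Sᶜ a) z0 = pw S a z0 := by
      funext i; by_cases hi : i ∈ S <;> simp [pw, mask, hi]
    have e2 : pw S y0 (mask o S a) = pw S y0 a := by
      funext i; by_cases hi : i ∈ S <;> simp [pw, mask, hi]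
    simp only [e1, e2, Pi.smul_apply, smul_mul_assoc, mul_assoc]
    rfl
  · rintro S' ⟨f, g, hfg⟩
    refine ⟨fun u => ((√(nv θ))⁻¹ : ℝ) •
      (c * (f (mask o S'ᶜ (pw S u z0)) * f (mask o S'ᶜ (pw S y0 u)))),
      fun u => g (mask o S' (pw S u z0)) * g (mask o S' (pw S y0 u)), fun a => ?_⟩
    have e1 : ∀ T : Finset ι, mask o T (pw S (mask o T a) z0) = mask o T (pw S a z0) := fun T => by
      funext i; by_cases hi : i ∈ T <;> simp [pw, mask, hi]
    have e2 : ∀ T : Finset ι, mask o T (pw S y0 (mask o T a)) = mask o T (pw S y0 a) := fun T => by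
      funext i; by_cases hi : i ∈ T <;> simp [pw, mask, hi]
    simp only [e1, e2, Pi.smul_apply, smul_mul_assoc]
    congr 1
    show c * (ψ (pw S a z0) * ψ (pw S y0 a)) = _
    rw [hfg (pw S a z0), hfg (pw S y0 a)]
    ring

lemma ind (m : ℕ) : ∀ γ : ℝ, 0 < γ → ∃ δ : ℝ, 0 < δ ∧
    ∀ (ι α : Type) [Fintype ι] [DecidableEq ι] [Fintype α] [DecidableEq α] (o : α)
      (ψ : (ι → α) → ℂ) (Pu : Finset (Finset ι)), Pu.card ≤ m → nv ψ = 1 →
      (∀ S ∈ Pu, ∃ χ, Prd o S χ ∧ √(nv (ψ - χ)) ≤ δ) →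
      ∃ ψ', nv ψ' = 1 ∧ √(nv (ψ - ψ')) ≤ γ ∧ ∀ S ∈ Pu, Prd o S ψ' := by
  induction m with
  | zero =>
    refine fun γ hγ => ⟨1, one_pos, fun ι α _ _ _ _ o ψ Pu hc h1 _ => ⟨ψ, h1, ?_, ?_⟩⟩
    · rw [sub_self, nv_zero, Real.sqrt_zero]; exact hγ.le
    · rw [Finset.card_eq_zero.1 (Nat.le_zero.1 hc)]; simp
  | succ m ih =>
    intro γ hγ
    have hg : 0 < min (γ / 17) (1 / 16) := lt_min (by positivity) (by norm_num)
    have hg1 := min_le_left (γ / 17) (1 / 16)
    have hg2 := min_le_right (γ / 17) (1 / 16)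
    generalize min (γ / 17) (1 / 16) = g at hg hg1 hg2
    obtain ⟨δ, hδ, H⟩ := ih g hg
    refine ⟨min δ g, lt_min hδ hg, fun ι α _ _ _ _ o ψ Pu hc h1 hP => ?_⟩
    rcases Pu.eq_empty_or_nonempty with rfl | ⟨S, hS⟩
    · refine ⟨ψ, h1, ?_, by simp⟩
      rw [sub_self, nv_zero, Real.sqrt_zero]; exact hγ.le
    obtain ⟨ψ1, n1, d1, p1⟩ := H ι α o ψ (Pu.erase S)
      (by rw [Finset.card_erase_of_mem hS]; omega) h1 fun T hT => by
        obtain ⟨χ, a, b⟩ := hP T (Finset.mem_of_mem_erase hT)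
        exact ⟨χ, a, b.trans (min_le_left _ _)⟩
    obtain ⟨χ, a, b⟩ := hP S hS
    have b' := b.trans (min_le_right _ _)
    have d2 : √(nv (ψ1 - χ)) ≤ 2 * g := by
      have := sqrt_nv_sub (ψ - χ) (ψ - ψ1)
      rw [sub_sub_sub_cancel_left] at this
      linarith only [d1, b', this]
    obtain ⟨ψ2, n2, d3, p2, p3⟩ := step o S ψ1 χ (2 * g) (by positivity) (by linarith only [hg2]) n1 a d2
    refine ⟨ψ2, n2, ?_, fun T hT => ?_⟩
    · have := sqrt_nv_add (ψ - ψ1) (ψ1 - ψ2)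
      rw [sub_add_sub_cancel] at this
      linarith only [hg1, d1, d3, this]
    · by_cases h : T = S
      · exact h ▸ p2
      · exact p3 T (p1 T (Finset.mem_erase.2 ⟨h, hT⟩))

end PUR

theorem t_PUR : S_PUR := by
  intro m γ hγ
  obtain ⟨δ, hδ, H⟩ := PUR.ind m γ hγ
  refine ⟨δ ^ 2, by positivity, fun ι α _ _ _ _ o ψ Pu hc h1 hP => ?_⟩
  obtain ⟨ψ', n, d, p⟩ := H ι α o ψ Pu hc h1 fun S hS => by
    obtain ⟨χ, a, b⟩ := PUR.near o S ψ _ h1 (hP S hS)
    exact ⟨χ, a, (Real.sqrt_le_left hδ.le).2 b⟩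
  exact ⟨ψ', n, (Real.sqrt_le_left hγ.le).1 d, p⟩

end Pool.Agent.MP_b746ed_mp.LD
end

section
set_option autoImplicit false
set_option linter.unusedSectionVars false
open scoped ComplexOrder MatrixOrder
open Matrix

namespace Pool.Agent.MP_b746ed_mp.LD
open KF
open H14 (trf dg)

namespace PRD

variable {ι α : Type} [Fintype ι] [DecidableEq ι] [Fintype α] [DecidableEq α]

lemma mask_c_pw (o : α) (S : Finset ι) (y a : ι → α) :
    mask o Sᶜ (pw S y a) = mask o Sᶜ y := by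
  funext i; by_cases h : i ∈ S <;> simp [mask, pw, h]

lemma mask_pw' (o : α) (S : Finset ι) (y a : ι → α) : mask o S (pw S y a) = mask o S a := by
  funext i; by_cases h : i ∈ S <;> simp [mask, pw, h]

lemma mask_c (o : α) (S : Finset ι) {y : ι → α} (hy : y ∈ cfg o S) : mask o Sᶜ y = y :=
  mask_of_mem o Sᶜ fun i hi => (mem_cfg o S).1 hy i (Finset.mem_compl.1 hi)

lemma swap {o : α} {S : Finset ι} {ψ : (ι → α) → ℂ} (h : Prd o S ψ) (x y : ι → α) :
    ψ x * ψ y = ψ (pw S x y) * ψ (pw S y x) := by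
  obtain ⟨ξ, φ, h⟩ := h
  rw [h x, h y, h (pw S x y), h (pw S y x), mask_c_pw, mask_c_pw, mask_pw', mask_pw']
  ring

lemma normal {o : α} {S : Finset ι} {ψ : (ι → α) → ℂ} (h1 : nv ψ = 1) (h : Prd o S ψ) :
    ∃ ξ φ : (ι → α) → ℂ, nq o Sᶜ ξ = 1 ∧ nq o S φ = 1 ∧
      (∀ x, ψ x = ξ (mask o Sᶜ x) * φ (mask o S x)) ∧ XT o S ψ = xop o S φ φ := by
  obtain ⟨ξ, φ, h⟩ := h
  have hab : nq o Sᶜ ξ * nq o S φ = 1 := by
    rw [← h1, nv, sum_pw o S, nq_eq, nq_eq, compl_compl, Finset.sum_mul_sum]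
    refine Finset.sum_congr rfl fun y hy => Finset.sum_congr rfl fun z hz => ?_
    rw [h, mask_c_pw, mask_c o S hy, mask_pw o S y hz, norm_mul, mul_pow]
  have ha := nq_nonneg o Sᶜ ξ
  have hb := nq_nonneg o S φ
  have hs : √(nq o S φ) * √(nq o Sᶜ ξ) = 1 := by
    rw [← Real.sqrt_mul hb, mul_comm, hab, Real.sqrt_one]
  have h2 : nq o Sᶜ (√(nq o S φ) • ξ) = 1 := by
    rw [nq_rsmul, Real.sq_sqrt hb, mul_comm, hab]
  have h3 : ∀ x, ψ x = (√(nq o S φ) • ξ) (mask o Sᶜ x) * (√(nq o Sᶜ ξ) • φ) (mask o S x) := by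
    intro x
    rw [h x, Pi.smul_apply, Pi.smul_apply, smul_mul_smul_comm, hs, one_smul]
  refine ⟨_, _, h2, by rw [nq_rsmul, Real.sq_sqrt ha, hab], h3, ?_⟩
  generalize √(nq o S φ) • ξ = ξ' at h2 h3
  generalize √(nq o Sᶜ ξ) • φ = φ' at h3
  ext a b
  rw [XT_apply, xop, of_apply]
  split_ifs with hab'
  · rw [nq_eq, compl_compl] at h2
    have h4 : ∑ y ∈ cfg o S, ξ' y * star (ξ' y) = 1 := by
      rw [← Complex.ofReal_one, ← h2, Complex.ofReal_sum]
      exact Finset.sum_congr rfl fun y _ => by simp [Complex.mul_conj']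
    rw [← one_mul (φ' _ * _), ← h4, Finset.sum_mul]
    refine Finset.sum_congr rfl fun y hy => ?_
    rw [h3, h3, mask_c_pw, mask_c_pw, mask_c o S hy, mask_pw', mask_pw', star_mul']
    ring
  · rfl

end PRD

theorem t_PRD : S_PRD := by
  intro ι α _ _ _ _ o ψ S h1 h
  obtain ⟨ξ, φ, hξ, hφ, hx, hX⟩ := PRD.normal h1 h
  refine ⟨⟨ξ, φ, hξ, hφ, hx, hX⟩, ⟨XT_conj o S ψ, ?_⟩, fun S' h' => ?_⟩
  · rw [hX, xop_mul_same, ip_self_nv, ← nq, hφ, Complex.ofReal_one, one_smul]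
  obtain ⟨ξ', φ', -, -, hx', hX'⟩ := PRD.normal h1 h'
  obtain ⟨x0, h0⟩ : ∃ x0, ψ x0 ≠ 0 := by
    by_contra hc
    have : ψ = 0 := funext fun x => not_not.1 fun hx => hc ⟨x, hx⟩
    rw [this, nv_zero] at h1
    exact zero_ne_one h1
  have n1 : ξ (mask o Sᶜ x0) ≠ 0 := fun e => h0 (by rw [hx, e, zero_mul])
  have n2 : ξ' (mask o S'ᶜ x0) ≠ 0 := fun e => h0 (by rw [hx', e, zero_mul])
  have key : ∀ c a : ι → α, φ (mask o S a) * φ' (mask o S' (pw (S ∪ S')ᶜ c a)) =
      φ (mask o S (pw (S ∪ S')ᶜ c a)) * φ' (mask o S' a) := by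
    intro c a
    refine mul_left_cancel₀ (mul_ne_zero n1 n2) ?_
    have e1 := hx (pw S x0 a)
    have e2 := hx' (pw S' x0 (pw (S ∪ S')ᶜ c a))
    have e3 := hx (pw S x0 (pw (S ∪ S')ᶜ c a))
    have e4 := hx' (pw S' x0 a)
    rw [PRD.mask_c_pw, PRD.mask_pw'] at e1 e2 e3 e4
    have s1 := PRD.swap h (pw S x0 a) (pw S' x0 (pw (S ∪ S')ᶜ c a))
    have s2 := PRD.swap h' (pw S (pw S x0 a) (pw S' x0 (pw (S ∪ S')ᶜ c a)))
      (pw S (pw S' x0 (pw (S ∪ S')ᶜ c a)) (pw S x0 a))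
    have p1 : pw S' (pw S (pw S x0 a) (pw S' x0 (pw (S ∪ S')ᶜ c a)))
        (pw S (pw S' x0 (pw (S ∪ S')ᶜ c a)) (pw S x0 a)) = pw S' x0 a := by
      funext i; by_cases a1 : i ∈ S <;> by_cases a2 : i ∈ S' <;> simp [pw, a1, a2]
    have p2 : pw S' (pw S (pw S' x0 (pw (S ∪ S')ᶜ c a)) (pw S x0 a))
        (pw S (pw S x0 a) (pw S' x0 (pw (S ∪ S')ᶜ c a))) = pw S x0 (pw (S ∪ S')ᶜ c a) := by
      funext i; by_cases a1 : i ∈ S <;> by_cases a2 : i ∈ S' <;> simp [pw, a1, a2]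
    rw [s2, p1, p2, e1, e2, e3, e4] at s1
    linear_combination s1
  have hh : (XT o S ψ * XT o S' ψ)ᴴ = XT o S ψ * XT o S' ψ := by
    rw [hX, hX', xop_mul, conjTranspose_sum]
    refine Finset.sum_congr rfl fun c _ => ?_
    simp only [key]
    exact xop_conj _ _ _ _
  rw [← hh, conjTranspose_mul, XT_conj, XT_conj]

end Pool.Agent.MP_b746ed_mp.LD
end

section
set_option autoImplicit false
set_option linter.unusedSectionVars false
open scoped ComplexOrder MatrixOrder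
open Matrix

namespace Pool.Agent.MP_b746ed_mp.LD
open KF
open H14 (trf dg)

namespace VM

variable {ι α : Type} [Fintype ι] [DecidableEq ι] [Fintype α] [DecidableEq α] (o : α)

lemma mul_conj (S : Finset ι) (f : (ι → α) → (ι → α) → ℂ) :
    Vm o S f * (Vm o S f)ᴴ = ∑ k, xop o S (f k) (f k) := by
  have e : ∀ k, xop o S (f k) (f k) = xop o S (f k) (e0 o) * (xop o S (f k) (e0 o))ᴴ := fun k => by
    rw [xop_conj, xop_mul_same, emb_e0, ip_self_nv, nv_e0, Complex.ofReal_one, one_smul]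
  ext a b
  rw [Matrix.sum_apply, Matrix.mul_apply, Fintype.sum_prod_type]
  exact Finset.sum_congr rfl fun k _ => by rw [e k]; rfl

lemma nuc (S S' : Finset ι) (f g : (ι → α) → ℂ) :
    Nuc o (S ∩ S') (xop o S (e0 o) f * xop o S' g (e0 o)) (√(nq o S f) * √(nq o S' g)) := by
  simpa only [nq_e0, Real.sqrt_one, one_mul, mul_one] using
    nuc_xop_mul (o := o) (T := S) S' (e0 o) f g (e0 o)

lemma nuc_hs (S S' : Finset ι) (f g : (ι → α) → ℂ) : hs (xop o S (e0 o) f * xop o S' g (e0 o)) ≤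
    Fintype.card α ^ (S ∩ S').card * (nq o S f * nq o S' g) := by
  have := (nuc o S S' f g).hs_le
  rwa [mul_pow, Real.sq_sqrt (nq_nonneg _ _ _), Real.sq_sqrt (nq_nonneg _ _ _)] at this

/-- the restriction to one block of columns -/
def inj {β : Type} [DecidableEq β] (k : β) : Matrix β (β × β) ℂ :=
  Matrix.of fun y p => if p = (k, y) then 1 else 0

lemma opb_inj {β : Type} [Fintype β] [DecidableEq β] (k : β) : Opb (inj k) 1 := fun x => by
  have e : inj k *ᵥ x = fun y => x (k, y) := by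
    funext y; simp only [mulVec, dotProduct, inj, of_apply, ite_mul, one_mul, zero_mul, Finset.sum_ite_eq', Finset.mem_univ, ↓ reduceIte]
  rw [e, one_pow, one_mul, nv, nv, Fintype.sum_prod_type]
  exact Finset.single_le_sum (f := fun l => ∑ y, ‖x (l, y)‖ ^ 2)
    (fun _ _ => Finset.sum_nonneg fun _ _ => by positivity) (Finset.mem_univ k)

lemma eq_inj (S : Finset ι) (f : (ι → α) → (ι → α) → ℂ) (k0 : ι → α)
    (h : ∀ k, k ≠ k0 → emb o S (f k) = 0) : Vm o S f = xop o S (f k0) (e0 o) * inj k0 := by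
  ext a ⟨k, y⟩
  simp only [Vm, inj, Matrix.mul_apply, of_apply, Prod.mk.injEq, mul_ite, mul_one, mul_zero]
  by_cases hk : k = k0
  · simp only [hk, true_and, Finset.sum_ite_eq, Finset.mem_univ, ↓ reduceIte]
  · rw [← xop_emb_left, h k hk, xop_zero_left]
    simp only [Matrix.zero_apply, hk, false_and, ↓ reduceIte, Finset.sum_const_zero]

lemma gram (S S' : Finset ι) (f g : (ι → α) → (ι → α) → ℂ) (k0 : ι → α)
    (h : ∀ k, k ≠ k0 → emb o S (f k) = 0) (h' : ∀ k, k ≠ k0 → emb o S' (g k) = 0) :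
    (Vm o S f)ᴴ * Vm o S' g =
      (inj k0)ᴴ * (xop o S (e0 o) (f k0) * xop o S' (g k0) (e0 o)) * inj k0 := by
  rw [eq_inj o S f k0 h, eq_inj o S' g k0 h', conjTranspose_mul, xop_conj]
  simp only [Matrix.mul_assoc]

lemma PA_Jc {A B : Finset ι} (h : ¬B ⊆ A) (g : (ι → α) → ℂ) : PA o A * Jc o B g = 0 := by
  ext a x
  rw [PA, diagonal_mul, Jc_apply, col, Matrix.zero_apply]
  split_ifs with h1 h2 h3
  · refine absurd (fun i hi => ?_) h
    rw [← h1, mem_spt, h3 i hi, ← mem_spt, h2]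
    exact hi
  all_goals simp

lemma Jc_prp (A : Finset ι) (f : (ι → α) → ℂ) :
    Jc o A (prp o f) = Jc o A f - (f fun _ => o) • PA o A := by
  rw [prp_eq, Jc_sub, Jc_smul, Jc_e0]

lemma Jc_mul (A B : Finset ι) (f g : (ι → α) → ℂ) : (Jc o A f)ᴴ * Jc o B g =
    PA o A * (xop o A (e0 o) f * xop o B g (e0 o)) * PA o B := by
  rw [Jc, Jc, conjTranspose_mul, xop_conj, PA_conj]
  simp only [Matrix.mul_assoc]

lemma ker (r : ι → ℝ) (S : Finset ι) (a b x y : ι → α) :
    (∏ i ∈ S, dl (a i) (b i) * dl (x i) (y i)) *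
      ∏ i ∈ Finset.univ \ S, (r i : ℂ) * (dl (a i) (x i) * dl (b i) (y i)) =
    if y = pw S x b then (if ∀ i ∈ Sᶜ, x i = a i then (if ∀ i ∈ S, a i = b i then
      ((∏ i ∈ Sᶜ, r i : ℝ) : ℂ) else 0) else 0) else 0 := by
  have e : y = pw S x b ↔ (∀ i ∈ S, x i = y i) ∧ ∀ i ∈ Sᶜ, b i = y i := by
    refine ⟨fun h => ⟨fun i hi => by simp [h, pw, hi], fun i hi => ?_⟩, fun h => funext fun i => ?_⟩
    · simp [h, pw, Finset.mem_compl.1 hi]
    · by_cases hi : i ∈ S
      · simp [pw, hi, h.1 i hi]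
      · simp [pw, hi, h.2 i (Finset.mem_compl.2 hi)]
  have e' : (∀ i ∈ Sᶜ, x i = a i) ↔ ∀ i ∈ Sᶜ, a i = x i := by simp only [eq_comm]
  simp only [← Finset.compl_eq_univ_sdiff, Finset.prod_mul_distrib, dl, Finset.prod_boole, e, e',
    Complex.ofReal_prod, ite_and]
  split_ifs <;> simp

end VM
open VM

theorem t_VM : S_VM := by
  intro ι α _ _ _ _ o S S' f g
  refine ⟨mul_conj o S f, ?_, ?_, ?_, ?_, fun A hA => ?_, fun k0 h => ⟨fun h' => ?_, fun h' => ?_⟩⟩
  · ext a p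
    simp only [Vm, of_apply, Matrix.sub_apply, Pi.sub_apply, xop_sub_left]
  · have : Opb (Vm o S f)ᴴ √(∑ k, nq o S (f k)) := by
      rw [opb_iff, conjTranspose_conjTranspose, mul_conj,
        Real.sq_sqrt (Finset.sum_nonneg fun _ _ => nq_nonneg _ _ _), Finset.sum_smul]
      exact Finset.sum_le_sum fun k _ => xop_le o S _
    simpa only [conjTranspose_conjTranspose] using this.conj
  · rw [hs_eq_rt', mul_conj, rt_sum, Finset.mul_sum]
    exact Finset.sum_congr rfl fun k _ => rt_xop o S _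
  · have e : hs ((Vm o S f)ᴴ * Vm o S' g) =
        ∑ k, ∑ l, hs (xop o S (e0 o) (f k) * xop o S' (g l) (e0 o)) := by
      rw [hs, Fintype.sum_prod_type]
      refine Finset.sum_congr rfl fun k _ => ?_
      simp only [Fintype.sum_prod_type]
      rw [Finset.sum_comm]
      refine Finset.sum_congr rfl fun l _ => ?_
      rw [← xop_conj o S (f k)]
      rfl
    rw [e, Finset.sum_mul_sum, Finset.mul_sum]
    refine Finset.sum_le_sum fun k _ => ?_
    rw [Finset.mul_sum]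
    exact Finset.sum_le_sum fun l _ => nuc_hs o S S' _ _
  · ext a p
    exact congrFun (congrFun ((hA (f p.1)).1 (e0 o)) a) p.2
  · rw [gram o S S' f g k0 h h']
    simpa only [one_mul] using ((nuc o S S' (f k0) (g k0)).tn.mul_left one_pos
      (opb_inj k0).conj).mul_right one_pos (opb_inj k0)
  · have h1 : ∀ k, k ≠ k0 → emb o S ((Pi.single k0 (e0 o) : (ι → α) → (ι → α) → ℂ) k) = 0 :=
      fun k hk => by rw [Pi.single_eq_of_ne hk, emb_zero]
    rw [gram o S S f g k0 h h', gram o S S _ _ k0 h1 h1, Pi.single_eq_same, xop_mul_same,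
      xop_mul_same, emb_e0, ip_self_nv, nv_e0, Complex.ofReal_one, one_smul, Matrix.mul_smul,
      Matrix.smul_mul]

theorem t_CRS : S_CRS := by
  intro ι α _ _ _ _ o A B f g
  refine ⟨fun h => ?_, fun h => ?_, ?_, ?_⟩
  · rw [Jc_prp, conjTranspose_sub, conjTranspose_smul, PA_conj, sub_mul, smul_mul_assoc,
      PA_Jc o h, smul_zero, sub_zero]
  · have : (Jc o A f)ᴴ * PA o B = 0 := by
      rw [← PA_conj, ← conjTranspose_mul, PA_Jc o h, conjTranspose_zero]
    rw [Jc_prp, mul_sub, mul_smul_comm, this, smul_zero, sub_zero]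
  · rw [Jc_mul]
    simpa only [one_mul] using ((nuc o A B f g).tn.mul_left one_pos
      (opb_PA o A)).mul_right one_pos (opb_PA o B)
  · rw [Jc_mul]
    have h1 := (opb_PA o B).mul_hs (PA o A * (xop o A (e0 o) f * xop o B g (e0 o)))
    have h2 := (opb_PA o A).hs_mul (xop o A (e0 o) f * xop o B g (e0 o))
    rw [one_pow, one_mul] at h1 h2
    exact h1.trans (h2.trans (nuc_hs o A B f g))

theorem t_KM : S_KM := by
  intro ι α _ _ _ _ o r ψ
  ext a b
  simp only [kmap, of_apply, kr, add_comm (_ * (_ * _) : ℂ), Finset.prod_add, Finset.powerset_univ,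
    ker, Finset.mul_sum, Matrix.sum_apply, Matrix.smul_apply, XT_apply, op_apply]
  conv_lhs => enter [2, x]; rw [Finset.sum_comm]
  rw [Finset.sum_comm]
  refine Finset.sum_congr rfl fun S _ => ?_
  simp only [mul_ite, mul_zero, Finset.sum_ite_eq', Finset.mem_univ, if_true]
  rw [sum_agree o Sᶜ a, compl_compl]
  have e : ∀ z, pw Sᶜ a z = pw S z a := fun z => by
    funext i; by_cases hi : i ∈ S <;> simp [pw, hi]
  have e' : ∀ z, pw S (pw S z a) b = pw S z b := fun z => by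
    funext i; by_cases hi : i ∈ S <;> simp [pw, hi]
  simp only [e, e']
  split_ifs
  · rw [← Finset.sum_mul, mul_comm, Complex.real_smul]
  · simp

end Pool.Agent.MP_b746ed_mp.LD
end

section
set_option autoImplicit false
set_option linter.unusedSectionVars false
open scoped ComplexOrder MatrixOrder
open Matrix

namespace Pool.Agent.MP_b746ed_mp.LD
open KF
open H14 (trf dg)

namespace RPL
variable {ι α : Type} [Fintype ι] [DecidableEq ι] [Fintype α] [DecidableEq α]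

/-- all families side by side -/
def BV (o : α) (f : Finset ι → (ι → α) → (ι → α) → ℂ) :
    Matrix (ι → α) (Finset ι × (ι → α) × (ι → α)) ℂ := Matrix.of fun a p => Vm o p.1 (f p.1) a p.2

/-- the sets that contain `S` -/
def ab (S : Finset ι) : Finset (Finset ι) := Finset.univ.filter fun l => S ⊆ l

/-- the Gram matrix of the dressed vectors -/
def G0 (o : α) (u : Finset ι → (ι → α) → (ι → α) → ℂ)
    (Z : Finset ι → Matrix (ι → α) (ι → α) ℂ) :
    Matrix (Finset ι × (ι → α) × (ι → α)) (Finset ι × (ι → α) × (ι → α)) ℂ :=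
  Matrix.of fun k k' => ((BV o u)ᴴ * (1 - ∑ l ∈ ab k.1 ∩ ab k'.1, Z l) * BV o u :
    Matrix (Finset ι × (ι → α) × (ι → α)) (Finset ι × (ι → α) × (ι → α)) ℂ) k k'

lemma BV_mul (hVM : S_VM) (o : α) (f : Finset ι → (ι → α) → (ι → α) → ℂ) :
    BV o f * (BV o f)ᴴ = ∑ S, ∑ y, xop o S (f S y) (f S y) := by
  simp only [← fun S => (hVM ι α o S S (f S) (f S)).1]
  ext a b
  rw [Matrix.mul_apply, Fintype.sum_prod_type, Matrix.sum_apply]
  rfl

lemma Vm_zero (o : α) (S : Finset ι) : Vm o S 0 = 0 := by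
  ext a p; simp [Vm, xop_zero_left]

lemma Vm_emb (o : α) (S : Finset ι) (f : (ι → α) → (ι → α) → ℂ) :
    (Vm o S fun y => emb o S (f y)) = Vm o S f := by
  ext a p; simp [Vm, xop_emb_left]

lemma near {o : α} {S : Finset ι} {L : Matrix (ι → α) (ι → α) ℂ} {c : ℝ} (hc : 0 ≤ c)
    (hc' : c ≤ 1 / 2) (hL : Opb L c) {u f : (ι → α) → ℂ} (h1 : √(nv u) ≤ 2 * √(nq o S f))
    (h2 : √(nv (u - emb o S f)) ≤ 2 * c * √(nq o S f)) (f' : (ι → α) → ℂ) :
    nq o S ((1 - L) *ᵥ u) ≤ 9 * nq o S f ∧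
      nq o S ((1 - L) *ᵥ u - f') ≤ 32 * c ^ 2 * nq o S f + 2 * nq o S (f - f') := by
  have a0 := hL.sqrt_le hc u
  have s0 := Real.sqrt_nonneg (nq o S f)
  have s1 := Real.sq_sqrt (nq_nonneg o S f)
  have a1 : √(nv (L *ᵥ u)) ≤ 2 * c * √(nq o S f) := by nlinarith only [hc, h1, a0]
  rw [sub_mulVec, one_mulVec]
  constructor
  · have a2 := sqrt_nv_sub u (L *ᵥ u)
    have a3 : √(nv (u - L *ᵥ u)) ≤ 3 * √(nq o S f) := by nlinarith only [hc', h1, s0, a1, a2]
    have := (Real.sqrt_le_iff.1 a3).2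
    rw [mul_pow, s1] at this
    linarith only [nq_le o S (u - L *ᵥ u), this]
  · have e : u - L *ᵥ u - f' = (u - emb o S f - L *ᵥ u) + (emb o S f - f') := by abel
    have a2 := sqrt_nq_add o S (u - emb o S f - L *ᵥ u) (emb o S f - f')
    have e2 : nq o S (emb o S f - f') = nq o S (f - f') := by
      rw [nq, emb_sub, emb_emb, ← emb_sub, nq]
    have a3 := (Real.sqrt_le_sqrt (nq_le o S (u - emb o S f - L *ᵥ u))).trans (sqrt_nv_sub _ _)
    have s2 := Real.sq_sqrt (nq_nonneg o S (f - f'))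
    rw [← e, e2] at a2
    have a4 : √(nq o S (u - L *ᵥ u - f')) ≤ 4 * c * √(nq o S f) + √(nq o S (f - f')) := by
      linarith only [h2, a1, a2, a3]
    have := (Real.sqrt_le_iff.1 a4).2
    have e3 : (4 * c * √(nq o S f)) ^ 2 = 16 * c ^ 2 * nq o S f := by rw [mul_pow, s1]; ring
    linarith only [sq_nonneg (4 * c * √(nq o S f) - √(nq o S (f - f'))), s2, this, e3]

lemma diff (hVM : S_VM) (o : α) (S S' : Finset ι) (u g f f' : (ι → α) → (ι → α) → ℂ) {M β : ℝ}
    (hM : 0 ≤ M) (hβ : 0 ≤ β) (h1 : ∑ y, nq o S (u y - f y) ≤ β ^ 2)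
    (h2 : ∑ y, nq o S' (g y - f' y) ≤ β ^ 2) (h3 : ∑ y, nq o S' (g y) ≤ M ^ 2)
    (h4 : ∑ y, nq o S (f y) ≤ M ^ 2) :
    Opb ((Vm o S u)ᴴ * Vm o S' g - (Vm o S f)ᴴ * Vm o S' f') (2 * M * β) ∧
    hs ((Vm o S u)ᴴ * Vm o S' g - (Vm o S f)ᴴ * Vm o S' f') ≤
      (2 * M * β) ^ 2 * Fintype.card α ^ (S ∩ S').card ∧
    ∀ k0, (∀ y, y ≠ k0 → u y = 0 ∧ f y = 0 ∧ g y = 0 ∧ f' y = 0) →
      Tn ((Vm o S u)ᴴ * Vm o S' g - (Vm o S f)ᴴ * Vm o S' f')
        (2 * M * β * Fintype.card α ^ (S ∩ S').card) := by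
  have e : (Vm o S u)ᴴ * Vm o S' g - (Vm o S f)ᴴ * Vm o S' f' =
      (Vm o S (u - f))ᴴ * Vm o S' g + (Vm o S f)ᴴ * Vm o S' (g - f') := by
    rw [(hVM ι α o S S u f).2.1, (hVM ι α o S' S' g f').2.1, conjTranspose_sub, Matrix.sub_mul,
      Matrix.mul_sub]
    abel
  have op : ∀ (T : Finset ι) (v : (ι → α) → (ι → α) → ℂ) (c : ℝ), 0 ≤ c →
      ∑ y, nq o T (v y) ≤ c ^ 2 → Opb (Vm o T v) c := fun T v c hc h =>
    (hVM ι α o T T v v).2.2.1.mono (Real.sqrt_nonneg _) (Real.sqrt_le_iff.2 ⟨hc, h⟩)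
  have sg : ∀ (T : Finset ι) (v : (ι → α) → (ι → α) → ℂ) (c : ℝ) (y : ι → α), 0 ≤ c →
      ∑ y, nq o T (v y) ≤ c ^ 2 → √(nq o T (v y)) ≤ c := fun T v c y hc h =>
    Real.sqrt_le_iff.2 ⟨hc, le_trans (Finset.single_le_sum (f := fun y => nq o T (v y))
      (fun y _ => nq_nonneg o T _) (Finset.mem_univ y)) h⟩
  have sn : ∀ (T : Finset ι) (v : (ι → α) → (ι → α) → ℂ), 0 ≤ ∑ y, nq o T (v y) :=
    fun T v => Finset.sum_nonneg fun y _ => nq_nonneg o T _
  have d0 : (0 : ℝ) ≤ Fintype.card α ^ (S ∩ S').card := by positivity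
  rw [e]
  refine ⟨?_, ?_, fun k0 h => ?_⟩
  · have := ((op S (u - f) β hβ h1).conj.mul (op S' g M hM h3)).add
      ((op S f M hM h4).conj.mul (op S' (g - f') β hβ h2)) (by positivity) (by positivity)
    convert this using 1
    ring
  · have a1 := (hVM ι α o S S' (u - f) g).2.2.2.2.1.trans (mul_le_mul_of_nonneg_left
      (mul_le_mul h1 h3 (sn _ _) (sq_nonneg _)) d0)
    have a2 := (hVM ι α o S S' f (g - f')).2.2.2.2.1.trans (mul_le_mul_of_nonneg_left
      (mul_le_mul h4 h2 (sn S' (g - f')) (sq_nonneg _)) d0)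
    refine (hs_add_le _ _).trans ?_
    linarith
  · have a1 := (((hVM ι α o S S' (u - f) g).2.2.2.2.2.2 k0 fun y hy => by
      simp [h y hy, emb_zero]).1 fun y hy => by simp [h y hy, emb_zero]).mono
      (mul_le_mul_of_nonneg_left (mul_le_mul (sg S (u - f) β k0 hβ h1) (sg S' g M k0 hM h3)
        (Real.sqrt_nonneg _) hβ) d0)
    have a2 := (((hVM ι α o S S' f (g - f')).2.2.2.2.2.2 k0 fun y hy => by
      simp [h y hy, emb_zero]).1 fun y hy => by simp [h y hy, emb_zero]).mono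
      (mul_le_mul_of_nonneg_left (mul_le_mul (sg S f M k0 hM h4) (sg S' (g - f') β k0 hβ h2)
        (Real.sqrt_nonneg _) hM) d0)
    exact (a1.add a2).mono (le_of_eq (by ring))

lemma pure {o : α} {T : Finset ι} {L : Matrix (ι → α) (ι → α) ℂ} (hL : Lᴴ = L)
    {u f : (ι → α) → ℂ} (h1 : (1 - L) *ᵥ u = emb o T f) (h2 : xop o T f f + L ≤ 1) :
    ∃ r : ℝ, r ≤ 1 ∧ ip u (emb o T f) = r := by
  have hH : (1 - L)ᴴ = 1 - L := by simp [hL]
  have a1 : op (emb o T f) (emb o T f) ≤ 1 - L := by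
    refine le_trans ?_ (le_sub_iff_add_le.2 h2)
    have e : emb o T f = col o T f fun _ => o := by
      funext a
      unfold emb col
      split_ifs with h
      · rw [mask_of_mem o T h]
      · rfl
    rw [xop_eq_sum, e]
    exact Finset.single_le_sum (f := fun y => op (col o T f y) (col o T f y))
      (fun y _ => op_nonneg _) ((mem_cfg o T).2 fun _ _ => rfl)
  have a2 : star (ip u (emb o T f)) = ip u (emb o T f) := by
    rw [star_ip]
    conv_rhs => rw [← h1, ip_mulVec, hH, h1]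
  obtain ⟨r, hr⟩ := Complex.conj_eq_iff_real.1 a2
  have a3 := (le_iff_ip (herm_of_nonneg (op_nonneg _)) hH).1 a1 u
  rw [h1, op_mulVec, ip_smul_right, ← star_ip, a2, hr, ← Complex.ofReal_mul, Complex.ofReal_re,
    Complex.ofReal_re] at a3
  exact ⟨r, by nlinarith only [a3], hr⟩

lemma inter_le {k : ℕ} {S l : Finset ι} (h : ¬S ⊆ l) (hS : S.card ≤ k + 1) :
    (l ∩ S).card ≤ k := by
  have : l ∩ S ⊂ S := ⟨Finset.inter_subset_right, fun h' => h (h'.trans Finset.inter_subset_left)⟩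
  have := Finset.card_lt_card this
  omega

end RPL

open RPL in
theorem t_RPL (hMRG : S_MRG) (hREP : S_REP) (hVM : S_VM) : S_RPL := by
  intro ι _ _ K η hK hη hη1
  have K3 : 1 ≤ (3 * K) ^ 2 := one_le_pow₀ (by linarith)
  have a5 : K ≤ K ^ 2 := le_self_pow₀ hK two_ne_zero
  have K4 : K ≤ (3 * K) ^ 2 := by linarith
  obtain ⟨C1, hC1, hR⟩ := hREP (Finset ι) ((3 * K) ^ 2 * (3 * K) ^ 2) (η / 2)
    (one_le_mul_of_one_le_of_one_le K3 K3) (by linarith) (by linarith)
  obtain ⟨N, hN⟩ : ∃ N : ℝ, N = Fintype.card (Finset ι) := ⟨_, rfl⟩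
  have N1 : 1 ≤ N := by rw [hN]; exact_mod_cast Fintype.card_pos
  refine ⟨36 * C1 * K ^ 2 * N + 18 * N ^ 2 * K ^ 2 + 2 * N + 72 * K ^ 2 * N / η,
    by positivity, ?_⟩
  intro α _ _ o k f f' Z Pu k0 b t hb hCb h1 h2 h3 h4 h5
  have hc : 0 ≤ N * b := by positivity
  have p1 : 0 ≤ 36 * C1 * K ^ 2 * N * b := by positivity
  have p2 : 0 ≤ 18 * N ^ 2 * K ^ 2 * b := by positivity
  have p3 : 0 ≤ 72 * K ^ 2 * N / η * b := by positivity
  have hc' : N * b ≤ 1 / 2 := by linarith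
  have hg : 2 * (3 * K) * (6 * K * (N * b)) ≤ η / 2 := by
    have : 72 * K ^ 2 * N / η * b ≤ 1 := by linarith only [hCb, hc, p1, p2]
    rw [div_mul_eq_mul_div, div_le_one hη] at this
    linarith only [this]
  have hM : 0 ≤ 3 * K := by linarith only [hK]
  have hβ : 0 ≤ 6 * K * (N * b) := by positivity
  have hg0 : 0 ≤ 2 * (3 * K) * (6 * K * (N * b)) := by positivity
  have d1 : (1 : ℝ) ≤ Fintype.card α := by exact_mod_cast Fintype.card_pos_iff.2 ⟨o⟩
  have D0 : (0 : ℝ) ≤ Fintype.card α ^ k := by positivity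
  have hL : ∀ s : Finset (Finset ι), Opb (∑ l ∈ s, Z l) (N * b) := fun s => by
    refine (opb_sum s (fun l _ => (h2 l).2.1.opb) fun _ _ => hb).mono
      (Finset.sum_nonneg fun _ _ => hb) ?_
    rw [Finset.sum_const, nsmul_eq_mul, hN]
    exact mul_le_mul_of_nonneg_right (by exact_mod_cast s.card_le_univ) hb
  have hP : ∀ s : Finset (Finset ι), 0 ≤ ∑ l ∈ s, Z l :=
    fun s => Finset.sum_nonneg fun l _ => (h2 l).1
  have hLo : ∀ (S : Finset ι) (s : Finset (Finset ι)), s ⊆ ab S → Lo o S (∑ l ∈ s, Z l) :=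
    fun S s h => lo_sum s fun l hl => (h2 l).2.1.lo (Finset.mem_filter.1 (h hl)).2
  choose u hu1 hu2 hu3 hu4 using fun S y => (hLo S _ le_rfl).solve hc hc' (hL _) (f S y)
  have u0 : ∀ S y, f S y = 0 → u S y = 0 := fun S y h => by
    have := hu3 S y
    rw [h, nq_zero, Real.sqrt_zero, mul_zero] at this
    exact eq_zero_of_ip_self (by
      rw [← nv_eq_ip]; exact le_antisymm (by simpa only [Std.le_refl, ne_eq, OfNat.ofNat_ne_zero, not_false_eq_true, zero_pow, true_and] using Real.sqrt_le_iff.1 this) (nv_nonneg _))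
  have fK : ∀ S, ∑ y, nq o S (f S y) ≤ (3 * K) ^ 2 ∧ ∑ y, nq o S (f' S y) ≤ (3 * K) ^ 2 :=
    fun S => ⟨(h1 S).2.1.trans K4, (h1 S).2.2.1.trans K4⟩
  have sm : ∀ (s : Finset (Finset ι)) (S : Finset ι) (v : (ι → α) → (ι → α) → ℂ),
      ∑ y, nq o S (f S y - v y) ≤ b ^ 2 →
      ∑ y, nq o S ((1 - ∑ l ∈ s, Z l) *ᵥ u S y) ≤ (3 * K) ^ 2 ∧
      ∑ y, nq o S ((1 - ∑ l ∈ s, Z l) *ᵥ u S y - v y) ≤ (6 * K * (N * b)) ^ 2 := by
    intro s S v hv
    have a := fun y => near hc hc' (hL s) (hu3 S y) (hu4 S y) (v y)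
    have a1 := Finset.sum_le_sum fun y (_ : y ∈ Finset.univ) => (a y).1
    have a2 := Finset.sum_le_sum fun y (_ : y ∈ Finset.univ) => (a y).2
    rw [← Finset.mul_sum] at a1
    rw [Finset.sum_add_distrib, ← Finset.mul_sum, ← Finset.mul_sum] at a2
    have a3 := (h1 S).2.1
    have a4 : b ^ 2 ≤ (N * b) ^ 2 := pow_le_pow_left₀ hb (le_mul_of_one_le_left hb N1) 2
    have a6 := mul_le_mul_of_nonneg_left (a3.trans a5) (sq_nonneg (N * b))
    have a7 := mul_le_mul_of_nonneg_left (hK.trans a5) (sq_nonneg (N * b))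
    have a8 := sq_nonneg (N * b)
    exact ⟨by linarith only [a5, a1, a3], by linarith only [hv, a2, a4, a6, a7, a8]⟩
  have su : ∀ (S : Finset ι) (v : (ι → α) → (ι → α) → ℂ), ∑ y, nq o S (f S y - v y) ≤ b ^ 2 →
      ∑ y, nq o S (u S y) ≤ (3 * K) ^ 2 ∧ ∑ y, nq o S (u S y - v y) ≤ (6 * K * (N * b)) ^ 2 :=
    fun S v hv => by simpa only [Finset.sum_empty, sub_zero, one_mulVec] using sm ∅ S v hv
  have ff : ∀ S, ∑ y, nq o S (f S y - f S y) ≤ b ^ 2 := fun S => by
    simp only [sub_self, nq_zero, Finset.sum_const_zero]; exact sq_nonneg b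
  have act : ∀ (S : Finset ι) (s : Finset (Finset ι)), s ⊆ ab S →
      (1 - ∑ l ∈ s, Z l) * Vm o S (u S) = Vm o S fun y => (1 - ∑ l ∈ s, Z l) *ᵥ u S y :=
    fun S s h => by
      rw [(hVM ι α o S S (u S) (u S)).2.2.2.2.2.1 _ (lo_one.sub (hLo S s h))]
      simp only [hu1]
  have act' : ∀ S, (1 - ∑ l ∈ ab S, Z l) * Vm o S (u S) = Vm o S (f S) := fun S => by
    rw [act S _ le_rfl]
    simp only [hu2, Vm_emb]
  have bl0 : ∀ S S', bk (G0 o u Z) S S' =
      (Vm o S (u S))ᴴ * (1 - ∑ l ∈ ab S ∩ ab S', Z l) * Vm o S' (u S') := fun _ _ => rfl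
  have bl : ∀ S S', bk (G0 o u Z) S S' =
      (Vm o S (u S))ᴴ * Vm o S' fun y => (1 - ∑ l ∈ ab S ∩ ab S', Z l) *ᵥ u S' y :=
    fun S S' => by rw [bl0, Matrix.mul_assoc, act S' _ Finset.inter_subset_right]
  have bd : ∀ S, bk (G0 o u Z) S S = (Vm o S (u S))ᴴ * Vm o S (f S) :=
    fun S => by rw [bl0, Matrix.mul_assoc, Finset.inter_self, act']
  have bl' : ∀ S S', bk ((BV o f')ᴴ * BV o f') S S' = (Vm o S (f' S))ᴴ * Vm o S' (f' S') :=
    fun _ _ => rfl
  have hH : ∀ (s : Finset (Finset ι)) {γ : Type} [Fintype γ] (X : Matrix (ι → α) γ ℂ),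
      (Xᴴ * (1 - ∑ l ∈ s, Z l) * X)ᴴ = Xᴴ * (1 - ∑ l ∈ s, Z l) * X := fun s _ _ X => by
    rw [conjTranspose_mul, conjTranspose_mul, conjTranspose_conjTranspose, conjTranspose_sub,
      conjTranspose_one, herm_of_nonneg (hP s), Matrix.mul_assoc]
  have hG : (G0 o u Z)ᴴ = G0 o u Z := by
    ext p q
    have := congrFun (congrFun (hH (ab p.1 ∩ ab q.1) (BV o u)) p) q
    rw [conjTranspose_apply] at this ⊢
    unfold G0
    rw [of_apply, of_apply, Finset.inter_comm (ab q.1), this]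
  have dH : ∀ (S : Finset ι) (v : (ι → α) → (ι → α) → ℂ),
      ((Vm o S (u S))ᴴ * Vm o S (f S) - (Vm o S v)ᴴ * Vm o S v)ᴴ =
        (Vm o S (u S))ᴴ * Vm o S (f S) - (Vm o S v)ᴴ * Vm o S v := fun S v => by
    rw [conjTranspose_sub, ← bd, bl0, hH, conjTranspose_mul (Vm o S v)ᴴ,
      conjTranspose_conjTranspose]
  have dL : ∀ (S : Finset ι) (v : (ι → α) → (ι → α) → ℂ), ∑ y, nq o S (f S y - v y) ≤ b ^ 2 →
      ∑ y, nq o S (v y) ≤ (3 * K) ^ 2 → bk (G0 o u Z) S S ≤ (Vm o S v)ᴴ * Vm o S v +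
        (2 * (3 * K) * (6 * K * (N * b))) • (1 : Matrix _ _ ℂ) := fun S v hv hv' => by
    have q : ∑ y, nq o S (f S y - v y) ≤ (6 * K * (N * b)) ^ 2 :=
      hv.trans (pow_le_pow_left₀ hb ((le_mul_of_one_le_left hb N1).trans
        (le_mul_of_one_le_left hc (by linarith only [hK]))) 2)
    rw [bd, ← sub_le_iff_le_add']
    exact (diff hVM o S S _ _ v v hM hβ (su S v hv).2 q (fK S).1 hv').1.le hg0 (dH S v)
  have z0 : ∀ S : Finset ι, S.card ≠ k → S.card ≠ k + 1 → u S = 0 ∧ f' S = 0 := fun S a a' =>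
    ⟨funext fun y => u0 S y (congrFun ((h1 S).1 a a').1 y), ((h1 S).1 a a').2⟩
  have up := hR _ (G0 o u Z) ((BV o f')ᴴ * BV o f') Pu _ _ t hG hg0 D0 ?_ ?_ ?_ ?_
  · have m := hMRG _ _ _ (BV o f) (BV o u) Z (fun p => ab p.1) (N * b) _ hc hc'
      (fun l => (h2 l).1) ((hL _).le hc (herm_of_nonneg (hP _)))
      (fun p a => congrFun (congrFun (act' p.1) a) p.2) up
    rw [BV_mul hVM] at m
    refine m.mono le_rfl ?_
    have n1 : ∀ S l : Finset ι, l ∈ (ab S)ᶜ → rt ((Vm o S (u S))ᴴ * Z l * Vm o S (u S)) ≤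
        Fintype.card α ^ k * (b * (3 * K) ^ 2) := fun S l hl => by
      by_cases hS : S.card ≤ k + 1
      · have w : Nuc o S (∑ y, xop o S (u S y) (u S y)) ((3 * K) ^ 2) :=
          (nuc_sum _ fun y _ => nuc_xop (u S y) (u S y)).mono (by
            simpa only [Real.mul_self_sqrt (nq_nonneg o S _)] using (su S _ (ff S)).1)
        rw [Matrix.mul_assoc, rt_comm, Matrix.mul_assoc, (hVM ι α o S S (u S) (u S)).1]
        refine (le_abs_self _).trans (((h2 l).2.1.mul w).tn.abs_rt.trans ?_)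
        exact mul_le_mul_of_nonneg_right (pow_le_pow_right₀ d1
          (inter_le (by simpa only [ab, Finset.compl_filter, Finset.mem_filter, Finset.mem_univ, true_and] using hl) hS)) (by positivity)
      · rw [(z0 S (by omega) (by omega)).1, Vm_zero, Matrix.mul_zero, rt_zero]
        positivity
    have n2 : ∑ p : Finset ι × (ι → α) × (ι → α),
        (((BV o u)ᴴ * (∑ l ∈ (ab p.1)ᶜ, Z l) * BV o u : Matrix _ _ ℂ) p p).re ≤
        N * (N * (Fintype.card α ^ k * (b * (3 * K) ^ 2))) := by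
      rw [Fintype.sum_prod_type]
      refine (Finset.sum_le_card_nsmul _ _ (N * (Fintype.card α ^ k * (b * (3 * K) ^ 2)))
        fun S _ => ?_).trans (by rw [nsmul_eq_mul, Finset.card_univ, ← hN])
      refine le_trans (le_of_eq
        (rt_eq_sum ((Vm o S (u S))ᴴ * (∑ l ∈ (ab S)ᶜ, Z l) * Vm o S (u S))).symm) ?_
      rw [Matrix.mul_sum, Matrix.sum_mul, rt_sum]
      refine (Finset.sum_le_card_nsmul _ _ _ (n1 S)).trans ?_
      rw [nsmul_eq_mul, hN]
      exact mul_le_mul_of_nonneg_right (by exact_mod_cast Finset.card_le_univ _) (by positivity)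
    have n3 := (mul_le_mul_of_nonneg_left n2 (by linarith only [hc] : 0 ≤ 1 + 2 * (N * b))).trans
      (mul_le_mul_of_nonneg_right (by linarith only [hCb, p1, p2, p3] : 1 + 2 * (N * b) ≤ 2) (by positivity))
    have n4 := mul_nonneg hc D0
    have n5 := mul_nonneg p3 D0
    linarith only [n3, n4, n5]
  · intro T hT
    obtain ⟨-, a1, a2, a3⟩ := h3 T hT
    obtain ⟨r, hr, er⟩ := pure (herm_of_nonneg (hP (ab T))) (hu2 T k0) a3
    rw [bd, bl', ((hVM ι α o T T (u T) (f T)).2.2.2.2.2.2 k0 fun y hy => by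
        rw [u0 T y (a1 y hy).1, emb_zero]).2 fun y hy => by rw [(a1 y hy).1, emb_zero],
      ((hVM ι α o T T (f' T) (f' T)).2.2.2.2.2.2 k0 fun y hy => by
        rw [(a1 y hy).2, emb_zero]).2 fun y hy => by rw [(a1 y hy).2, emb_zero],
      hu1, er, ip_self_nv, ← nq, a2, Complex.coe_smul, Complex.coe_smul]
    exact rsmul_le_rsmul (nonneg_def.2 (posSemidef_conjTranspose_mul_self _)) hr
  · intro S hS
    refine ⟨?_, by rw [bl']; exact dL S _ (h1 S).2.2.2 (fK S).2⟩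
    by_cases hk : S.card = k + 1
    · have a1 := h4 S (by simpa only [lv, Finset.univ_filter_card_eq, Finset.mem_powersetCard, Finset.subset_univ, true_and] using hk) hS
      rw [← (hVM ι α o S S (f S) (f S)).1] at a1
      have a2 : Opb (Vm o S (f S))ᴴ √(1 - η) := by
        rwa [opb_iff, conjTranspose_conjTranspose, Real.sq_sqrt (sub_nonneg.2 hη1)]
      have a3 := a2.conj
      rw [conjTranspose_conjTranspose, opb_iff, Real.sq_sqrt (sub_nonneg.2 hη1)] at a3
      refine (up_nonpos (sub_nonpos.2 ((dL S _ (ff S) (fK S).1).trans ?_))).mono le_rfl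
        (by positivity)
      refine (add_le_add a3 (rsmul_le_rsmul one_nonneg hg)).trans (le_of_eq ?_)
      rw [← add_smul]
      congr 1
      ring
    · have a1 : bk (G0 o u Z) S S ≤ (Vm o S (u S))ᴴ * Vm o S (u S) := by
        have := conj_le (sub_le_self 1 (hP (ab S ∩ ab S))) (Vm o S (u S))
        rw [Matrix.mul_one] at this
        rw [bl0]
        exact this
      refine (up_psd (nonneg_def.2 (posSemidef_conjTranspose_mul_self (Vm o S (u S))))).mono
        ((sub_le_self _ (rsmul_nonneg one_nonneg (by linarith only [hη1]))).trans a1) ?_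
      rw [← hs_eq_rt]
      by_cases hk' : S.card = k
      · rw [(hVM ι α o S S (u S) (u S)).2.2.2.1, hk', mul_comm]
        exact mul_le_mul_of_nonneg_right ((su S _ (ff S)).1.trans
          (le_mul_of_one_le_left (by positivity) K3)) D0
      · rw [(z0 S hk' hk).1, Vm_zero, hs_zero]
        positivity
  · intro S S' hne
    by_cases hk : (S ∩ S').card ≤ k
    · have dk : (Fintype.card α : ℝ) ^ (S ∩ S').card ≤ Fintype.card α ^ k :=
        pow_le_pow_right₀ d1 hk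
      have a1 := sm (ab S ∩ ab S') S' _ (h1 S').2.2.2
      have a2 := su S _ (h1 S).2.2.2
      obtain ⟨-, b2, b3⟩ := diff hVM o S S' _ _ _ _ hM hβ a2.2 a1.2 a1.1 (fK S).2
      rw [bl, bl']
      refine ⟨(hVM ι α o S S' _ _).2.2.2.2.1.trans ?_, fun h => (b3 k0 fun y hy => ?_).mono
        (mul_le_mul_of_nonneg_left dk hg0), fun _ => b2.trans
        (mul_le_mul_of_nonneg_left dk (sq_nonneg _))⟩
      · rw [mul_comm]
        exact mul_le_mul (mul_le_mul a2.1 a1.1 (Finset.sum_nonneg fun y _ => nq_nonneg o S' _)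
          (sq_nonneg _)) dk (by positivity) (by positivity)
      · have c1 := (h3 S h.1).2.1 y hy
        have c2 := (h3 S' h.2).2.1 y hy
        exact ⟨u0 S y c1.1, c1.2, by rw [u0 S' y c2.1, mulVec_zero], c2.2⟩
    · have z : bk (G0 o u Z) S S' = 0 ∧ bk ((BV o f')ᴴ * BV o f') S S' = 0 := by
        rw [bl0, bl']
        have c1 := Finset.card_le_card (Finset.inter_subset_left (s₁ := S) (s₂ := S'))
        have c2 := Finset.card_le_card (Finset.inter_subset_right (s₁ := S) (s₂ := S'))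
        by_cases hS : S.card = k + 1
        · have hS' : S'.card ≠ k + 1 := fun h => hne (by
            rw [← Finset.eq_of_subset_of_card_le (Finset.inter_subset_left (s₁ := S) (s₂ := S'))
              (by omega)]
            exact Finset.eq_of_subset_of_card_le Finset.inter_subset_right (by omega))
          obtain ⟨e1, e2⟩ := z0 S' (by omega) hS'
          rw [e1, e2, Vm_zero, Matrix.mul_zero, Matrix.mul_zero]
          exact ⟨rfl, rfl⟩
        · obtain ⟨e1, e2⟩ := z0 S (by omega) hS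
          rw [e1, e2, Vm_zero, conjTranspose_zero, Matrix.zero_mul, Matrix.zero_mul,
            Matrix.zero_mul]
          exact ⟨rfl, rfl⟩
      rw [z.1, z.2, sub_zero, hs_zero]
      exact ⟨by positivity, fun _ => tn_zero.mono (by positivity), fun _ => by positivity⟩
  · have := Up.gram (W := (BV o f')ᴴ) (t := t) (by rwa [conjTranspose_conjTranspose, BV_mul hVM])
    rwa [conjTranspose_conjTranspose] at this

end Pool.Agent.MP_b746ed_mp.LD
end
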