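import Pool.Agent.MP_b746ed_mp.LD.Base

attribute [-instance] AddQuantale.instAddLeftMono NumberField.to_charZero Nontrivial.to_nonempty
  Zero.instNonempty IdemSemiring.toCanonicallyOrderedAdd bot_nonempty One.instNonempty
  LieAdmissibleAlgebra.toModule LeftPreLieAlgebra.toModule AddTorsor.nonempty
  AddQuantale.instAddRightMono RightPreLieAlgebra.toModule LieAdmissibleRing.toNonUnitalNonAssocRing
  instCoeOTCOfCoeOut instCoeHTCTOfCoeTailOfCoeHTC Quantale.instMulRightMono Torsor.nonempty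
  instNonUnitalAlgHomClassOfNonUnitalAlgEquivClass top_nonempty instCoeHTCOfCoeHeadOfCoeOTC
  ConnectedSpace.toNonempty

/-! Large local dimension: the local lemma and the one-site steps. -/

section
set_option autoImplicit false
set_option linter.unusedSectionVars false
open scoped ComplexOrder MatrixOrder
open Matrix

namespace Pool.Agent.MP_b746ed_mp.LD
open KF
open H14 (trf dg)

namespace LL12
variable {α A : Type} [Fintype α] [DecidableEq α] [Fintype A]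

lemma add_sq' (U V : A → A → ℂ) : ∑ a, ∑ b, ‖U a b + V a b‖ ^ 2 =
    ∑ a, ∑ b, ‖U a b‖ ^ 2 + ∑ a, ∑ b, ‖V a b‖ ^ 2 + 2 * (∑ a, ∑ b, U a b * star (V a b)).re := by
  simp only [Complex.sq_norm, Complex.normSq_add, Finset.sum_add_distrib, Complex.re_sum,
    Finset.mul_sum, Complex.star_def]

lemma anti (T : A → A → ℂ) : ∑ a, ∑ b, ‖T a b - T b a‖ ^ 2 =
    2 * ∑ a, ∑ b, ‖T a b‖ ^ 2 - 2 * (∑ a, ∑ b, T a b * star (T b a)).re := by
  have h : ∑ a, ∑ b, ‖T b a‖ ^ 2 = ∑ a, ∑ b, ‖T a b‖ ^ 2 := Finset.sum_comm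
  have := add_sq' T fun a b => -T b a
  simp only [norm_neg, star_neg, mul_neg, Finset.sum_neg_distrib, Complex.neg_re,
    ← sub_eq_add_neg] at this
  rw [this, h]
  ring

lemma Dm_conj (y : A → Matrix α α ℂ) (e e' : α × α) : star (Dm y e e') = Dm y e' e := by
  simp only [Dm, RCLike.star_def, of_apply, star_sum, star_mul', RingHomCompTriple.comp_apply, RingHom.id_apply, mul_comm]

lemma dn_comm (y : A → Matrix α α ℂ) (e e' : α × α) : dn y e e' = dn y e' e := by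
  rw [dn, dn, ← Dm_conj, norm_star]

lemma sw3 (s : Finset α) (F : A → A → α → ℂ) :
    ∑ a, ∑ b, ∑ t ∈ s, F a b t = ∑ t ∈ s, ∑ a, ∑ b, F a b t := by
  rw [Finset.sum_comm (s := s)]
  exact Finset.sum_congr rfl fun a _ => Finset.sum_comm

lemma gen (y : A → Matrix α α ℂ) (s : Finset α) (u x : α) :
    ∑ a, ∑ b, ‖∑ t ∈ s, y a u t * y b t x - ∑ t ∈ s, y b u t * y a t x‖ ^ 2 ≤
      2 * ∑ a, ∑ b, ‖∑ t ∈ s, y a u t * y b t x‖ ^ 2 +
        2 * ∑ t ∈ s, ∑ t' ∈ s.erase t, dn y (u, t) (t', x) * dn y (u, t') (t, x) := by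
  have e : ∑ a, ∑ b, (∑ t ∈ s, y a u t * y b t x) * star (∑ t ∈ s, y b u t * y a t x) =
      ∑ t ∈ s, ∑ t' ∈ s, Dm y (u, t) (t', x) * star (Dm y (u, t') (t, x)) := by
    simp only [Dm_conj]
    simp only [star_sum, Finset.sum_mul_sum, Dm, of_apply, star_mul']
    rw [sw3]
    refine Finset.sum_congr rfl fun t _ => ?_
    rw [sw3]
    refine Finset.sum_congr rfl fun t' _ => Finset.sum_congr rfl fun a _ =>
      Finset.sum_congr rfl fun b _ => by ring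
  have h : -(∑ t ∈ s, ∑ t' ∈ s, Dm y (u, t) (t', x) * star (Dm y (u, t') (t, x))).re ≤
      ∑ t ∈ s, ∑ t' ∈ s.erase t, dn y (u, t) (t', x) * dn y (u, t') (t, x) := by
    rw [Complex.re_sum, ← Finset.sum_neg_distrib]
    refine Finset.sum_le_sum fun t ht => ?_
    rw [← Finset.add_sum_erase _ _ ht, Complex.add_re, Complex.star_def, Complex.mul_conj,
      Complex.ofReal_re, Complex.re_sum, neg_add, ← Finset.sum_neg_distrib]
    refine (add_le_of_nonpos_left (neg_nonpos.2 (Complex.normSq_nonneg _))).trans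
      (Finset.sum_le_sum fun t' _ => ?_)
    refine (neg_le_abs _).trans ((Complex.abs_re_le_norm _).trans (le_of_eq ?_))
    rw [norm_mul, Complex.norm_conj, dn, dn]
  rw [anti fun a b => ∑ t ∈ s, y a u t * y b t x, e]
  linarith

lemma hone {p : α → ℝ} {y : A → Matrix α α ℂ} (h : HOne p y) (s : Finset α) (u x : α) :
    ∑ a, ∑ b, ‖∑ t ∈ s, y a u t * y b t x‖ ^ 2 ≤ 1 / 3 * (∑ t ∈ s, (p t + p x) * ww y u t -
      2 * p x ^ 2 * if x ∈ s then ww y u x else 0) := by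
  have e : ∑ t ∈ s, (p t + p x) * ww y u t - 2 * p x ^ 2 * (if x ∈ s then ww y u x else 0) =
      ∑ a, (∑ t ∈ s, (p t + p x) * ‖y a u t‖ ^ 2 -
        2 * p x ^ 2 * if x ∈ s then ‖y a u x‖ ^ 2 else 0) := by
    rw [Finset.sum_sub_distrib, Finset.sum_comm, ← Finset.mul_sum]
    simp only [ww, Finset.mul_sum]
    split_ifs <;> simp only [Finset.mul_sum, mul_zero, sub_zero, Finset.sum_const_zero]
  rw [e, Finset.mul_sum]
  refine Finset.sum_le_sum fun a _ => ?_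
  have := h x fun t => if t ∈ s then y a u t else 0
  simpa only [ite_mul, zero_mul, apply_ite norm, norm_zero, ite_pow, ne_eq, OfNat.ofNat_ne_zero,
    not_false_eq_true, zero_pow, mul_ite, mul_zero, Finset.sum_ite_mem, Finset.univ_inter]
    using this

lemma split (z0 z1 : α) (h : z0 ≠ z1) (F : α → ℂ) :
    ∑ t, F t = F z0 + F z1 + ∑ t ∈ Rs z0 z1, F t := by
  rw [← Finset.add_sum_erase _ _ (Finset.mem_univ z0),
    ← Finset.add_sum_erase _ _ (Finset.mem_erase.2 ⟨h.symm, Finset.mem_univ z1⟩), add_assoc, Rs]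

lemma rank (f g : A → ℂ) : ∑ a, ∑ b, ‖f a * g b - f b * g a‖ ^ 2 ≤
    2 * (∑ a, ‖f a‖ ^ 2) * ∑ a, ‖g a‖ ^ 2 := by
  have e : ∑ a, ∑ b, f a * g b * star (f b * g a) =
      (∑ a, f a * star (g a)) * star (∑ a, f a * star (g a)) := by
    simp only [star_sum, Finset.sum_mul_sum, star_mul', star_star]
    exact Finset.sum_congr rfl fun a _ => Finset.sum_congr rfl fun b _ => by ring
  rw [anti fun a b => f a * g b, e, Complex.star_def, Complex.mul_conj, Complex.ofReal_re,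
    mul_assoc, Finset.sum_mul_sum]
  simp only [norm_mul, mul_pow]
  have := Complex.normSq_nonneg (∑ a, f a * (starRingEnd ℂ) (g a))
  linarith

lemma crs (y : A → Matrix α α ℂ) (s : Finset α) (z0 z1 : α) :
    ∑ a, ∑ b, (y a z1 z0 * (y b z0 z0 - y b z1 z1) - y b z1 z0 * (y a z0 z0 - y a z1 z1)) *
      star (∑ t ∈ s, y a z1 t * y b t z0 - ∑ t ∈ s, y b z1 t * y a t z0) =
    2 * ∑ t ∈ s, (Dm y (z1, z0) (z1, t) * (Dm y (z0, z0) (t, z0) - Dm y (z1, z1) (t, z0)) -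
      Dm y (z1, z0) (t, z0) * (Dm y (z0, z0) (z1, t) - Dm y (z1, z1) (z1, t))) := by
  simp only [← Finset.sum_sub_distrib, star_sum, Finset.mul_sum]
  rw [sw3]
  refine Finset.sum_congr rfl fun t _ => ?_
  have e : ∀ F : A → A → ℂ, ∑ a, ∑ b, (F a b + F b a) = 2 * ∑ a, ∑ b, F a b := fun F => by
    simp only [Finset.sum_add_distrib]
    rw [two_mul]
    congr 1
    exact Finset.sum_comm
  simp only [Dm, of_apply, ← Finset.sum_sub_distrib, Finset.sum_mul_sum]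
  rw [← e]
  refine Finset.sum_congr rfl fun a _ => Finset.sum_congr rfl fun b _ => ?_
  simp only [star_sub, star_mul']
  ring

end LL12

theorem t_LL12 : S_LL12 := by
  intro α A _ _ _ p y _ h
  refine ⟨fun u x => ?_, fun z0 z1 hz => ?_⟩
  · have h1 := LL12.gen y Finset.univ u x
    have h2 := LL12.hone h Finset.univ u x
    rw [if_pos (Finset.mem_univ x)] at h2
    simp only [RR, ch, cr, Matrix.sub_apply, Matrix.mul_apply]
    linarith
  · have h1 := LL12.gen y (Rs z0 z1) z1 z0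
    have h2 := LL12.hone h (Rs z0 z1) z1 z0
    rw [if_neg (by simp only [Rs, Finset.mem_erase, ne_eq, not_true_eq_false, Finset.mem_univ, and_true, and_false, not_false_eq_true]), mul_zero, sub_zero] at h2
    have h3 := LL12.rank (fun a => y a z1 z0) fun a => y a z0 z0 - y a z1 z1
    have h4 := LL12.add_sq'
      (fun a b => y a z1 z0 * (y b z0 z0 - y b z1 z1) - y b z1 z0 * (y a z0 z0 - y a z1 z1))
      fun a b => ∑ t ∈ Rs z0 z1, y a z1 t * y b t z0 - ∑ t ∈ Rs z0 z1, y b z1 t * y a t z0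
    rw [LL12.crs] at h4
    have h5 : RR y z1 z0 = ∑ a, ∑ b,
        ‖(y a z1 z0 * (y b z0 z0 - y b z1 z1) - y b z1 z0 * (y a z0 z0 - y a z1 z1)) +
        (∑ t ∈ Rs z0 z1, y a z1 t * y b t z0 - ∑ t ∈ Rs z0 z1, y b z1 t * y a t z0)‖ ^ 2 := by
      refine Finset.sum_congr rfl fun a _ => Finset.sum_congr rfl fun b _ => ?_
      rw [Matrix.sub_apply, Matrix.mul_apply, Matrix.mul_apply, LL12.split z0 z1 hz,
        LL12.split z0 z1 hz]
      congr 2
      ring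
    have h6 : ‖∑ t ∈ Rs z0 z1,
        (Dm y (z1, z0) (z1, t) * (Dm y (z0, z0) (t, z0) - Dm y (z1, z1) (t, z0)) -
          Dm y (z1, z0) (t, z0) * (Dm y (z0, z0) (z1, t) - Dm y (z1, z1) (z1, t)))‖ ≤
        ∑ t ∈ Rs z0 z1,
          (dn y (z1, z0) (z1, t) * (dn y (t, z0) (z0, z0) + dn y (t, z0) (z1, z1)) +
            dn y (z1, z0) (t, z0) * (dn y (z1, t) (z0, z0) + dn y (z1, t) (z1, z1))) := by
      refine (norm_sum_le _ _).trans (Finset.sum_le_sum fun t _ => (norm_sub_le _ _).trans ?_)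
      rw [norm_mul, norm_mul, LL12.dn_comm y (t, z0), LL12.dn_comm y (t, z0),
        LL12.dn_comm y (z1, t), LL12.dn_comm y (z1, t)]
      exact add_le_add (mul_le_mul_of_nonneg_left (norm_sub_le _ _) (norm_nonneg _))
        (mul_le_mul_of_nonneg_left (norm_sub_le _ _) (norm_nonneg _))
    have h7 := (Complex.re_le_norm _).trans h6
    rw [show ∀ z : ℂ, (2 * z).re = 2 * z.re from fun z => by simp] at h4
    rw [h5, h4, cr2]
    change _ ≤ 2 * ww y z1 z0 * De y z0 z1 at h3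
    linarith

end Pool.Agent.MP_b746ed_mp.LD
end

section
set_option autoImplicit false
set_option linter.unusedSectionVars false
open scoped ComplexOrder MatrixOrder
open Matrix

namespace Pool.Agent.MP_b746ed_mp.LD
open KF
open H14 (trf dg)

namespace LLb
open Finset
variable {α : Type} [Fintype α] [DecidableEq α]

/-- off-diagonal double sums -/
def od (T : Finset α) (g : α → α → ℝ) : ℝ := ∑ t ∈ T, ∑ t' ∈ T.erase t, g t t'

lemma od_split {T : Finset α} {z : α} (hz : z ∈ T) (g : α → α → ℝ) :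
    od T g = ∑ b ∈ T.erase z, g z b + ∑ b ∈ T.erase z, g b z + od (T.erase z) g := by
  unfold od
  rw [← add_sum_erase T (fun t => ∑ t' ∈ T.erase t, g t t') hz, add_assoc]
  refine congrArg _ ((sum_congr rfl fun t ht => ?_).trans sum_add_distrib)
  have := add_sum_erase (T.erase t) (g t) (mem_erase.2 ⟨(mem_erase.1 ht).1.symm, hz⟩)
  rw [← this, erase_right_comm]

lemma od_congr {T : Finset α} {g g' : α → α → ℝ}
    (h : ∀ t ∈ T, ∀ t' ∈ T, t ≠ t' → g t t' = g' t t') : od T g = od T g' :=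
  sum_congr rfl fun t ht => sum_congr rfl fun t' ht' =>
    h t ht t' (mem_erase.1 ht').2 (mem_erase.1 ht').1.symm

lemma od_le {T : Finset α} {g g' : α → α → ℝ}
    (h : ∀ t ∈ T, ∀ t' ∈ T, t ≠ t' → g t t' ≤ g' t t') : od T g ≤ od T g' :=
  sum_le_sum fun t ht => sum_le_sum fun t' ht' =>
    h t ht t' (mem_erase.1 ht').2 (mem_erase.1 ht').1.symm

lemma od_full (T : Finset α) (g : α → α → ℝ) :
    ∑ t ∈ T, ∑ t' ∈ T, g t t' = ∑ t ∈ T, g t t + od T g := by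
  unfold od
  rw [← sum_add_distrib]
  exact sum_congr rfl fun t ht => (add_sum_erase T _ ht).symm

lemma gen_sum {z0 z1 : α} (h : z0 ≠ z1) (g : α → α → ℝ) :
    ∑ q ∈ Gen z0 z1, g q.1 q.2 =
      ∑ a ∈ Rs z0 z1, g z0 a + ∑ a ∈ Rs z0 z1, g a z0 + od (univ.erase z0) g := by
  have h1 : z1 ∈ univ.erase z0 := mem_erase.2 ⟨h.symm, mem_univ _⟩
  have e : ∑ q ∈ Gen z0 z1, g q.1 q.2 =
      od univ fun u x => if (u, x) ≠ (z0, z1) ∧ (u, x) ≠ (z1, z0) then g u x else 0 := by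
    have := od_full univ fun u x =>
      if u ≠ x ∧ (u, x) ≠ (z0, z1) ∧ (u, x) ≠ (z1, z0) then g u x else 0
    rw [Gen, sum_filter, Fintype.sum_prod_type, this]
    simp only [ne_eq, not_true_eq_false, false_and, if_false, sum_const_zero, zero_add]
    exact od_congr fun t _ t' _ ht => by simp [ht]
  rw [e, od_split (mem_univ z0), ← add_sum_erase _ _ h1, ← add_sum_erase _ _ h1]
  simp only [ne_eq, not_true_eq_false, false_and, and_false, if_false, zero_add]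
  congr 1
  · congr 1 <;> refine sum_congr rfl fun a ha => if_pos ?_ <;>
      simp [(mem_erase.1 ha).1, h]
  · exact od_congr fun t ht t' ht' _ => if_pos (by simp [(mem_erase.1 ht).1, (mem_erase.1 ht').1])

/-- the standard entries -/
def st (z u t t' x : α) : ℝ :=
  if u ≠ x ∧ t ≠ t' ∧ ¬((u = z ∨ x = z) ∧ (t = z ∨ t' = z)) then 1 else 0

lemma st_nonneg (z u t t' x : α) : 0 ≤ st z u t t' x := by
  unfold st
  split_ifs <;> norm_num

lemma st_mid (z u t t' x : α) : st z u t t' x = st z u t' t x := by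
  unfold st
  exact if_congr (by tauto) rfl rfl

lemma st_flip (z u t t' x : α) : st z u t t' x = st z t' x u t := by
  unfold st
  exact if_congr (by tauto) rfl rfl

lemma st_swap (z u t t' x : α) : st z u t t' x = st z t u x t' := by
  unfold st
  exact if_congr (by tauto) rfl rfl

lemma st_a {z u x : α} (h : u ≠ x) (hu : u ≠ z) (hx : x ≠ z) (g : α → α → ℝ) :
    ∑ t, ∑ t', st z u t t' x * g t t' = od univ g := by
  rw [od_full]
  simp only [st, ne_eq, not_true_eq_false, false_and, and_false, if_false, zero_mul,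
    sum_const_zero, zero_add]
  exact od_congr fun t _ t' _ ht => by simp [h, hu, hx, ht]

lemma st_b {z u x : α} (h : u ≠ x) (hz : u = z ∨ x = z) (g : α → α → ℝ) :
    ∑ t, ∑ t', st z u t t' x * g t t' = od (univ.erase z) g := by
  rw [od_full, od_split (mem_univ z)]
  simp only [st, ne_eq, not_true_eq_false, false_and, and_false, if_false, zero_mul,
    sum_const_zero, zero_add, hz, true_or, or_true, and_self]
  exact od_congr fun t ht t' ht' e => by simp [h, (mem_erase.1 ht).1, (mem_erase.1 ht').1, e]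

lemma amgm {k c W S : ℝ} (hk : 0 ≤ k) (hc : 0 ≤ c) (h : S ^ 2 ≤ k * c) :
    2 * (W * S) ≤ k * W ^ 2 + c := by
  refine le_trans (le_abs_self _) (abs_le_of_sq_le_sq' ?_ (by positivity) |> abs_le.2)
  linarith only [sq_nonneg (k * W ^ 2 - c), mul_le_mul_of_nonneg_left h (sq_nonneg W)]

lemma flip4 (f : α → α → α → α → ℝ) :
    ∑ u, ∑ t, ∑ t', ∑ x, f u t t' x = ∑ u, ∑ t, ∑ t', ∑ x, f t' x u t := by
  calc ∑ u, ∑ t, ∑ t', ∑ x, f u t t' x = ∑ e : α × α, ∑ e' : α × α, f e.1 e.2 e'.1 e'.2 := by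
        simp only [Fintype.sum_prod_type]
    _ = ∑ e' : α × α, ∑ e : α × α, f e.1 e.2 e'.1 e'.2 := sum_comm
    _ = _ := by simp only [Fintype.sum_prod_type]

lemma swap4 (f : α → α → α → α → ℝ) :
    ∑ u, ∑ t, ∑ t', ∑ x, f u t t' x = ∑ u, ∑ t, ∑ t', ∑ x, f t u x t' := by
  rw [sum_comm]
  exact sum_congr rfl fun _ _ => sum_congr rfl fun _ _ => sum_comm

variable {p : α → ℝ} {z0 z1 : α} {D : α → α → α → α → ℝ}

/-- the cost of the standard entries -/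
lemma cost (hp : ∀ u, 0 ≤ p u) (h1 : ∀ u t t' x, D u t t' x = D t' x u t)
    (h2 : ∀ u t t' x, D u t t' x = D t u x t') :
    ∑ u, ∑ x, p x * (2 * ∑ t, ∑ t', st z0 u t t' x * (D u t t' x * D u t' t x)) ≤
      ∑ u, ∑ t, ∑ t', ∑ x, st z0 u t t' x * ((p u + p t + p t' + p x) / 2) * D u t t' x ^ 2 := by
  have a : ∀ u x, 2 * ∑ t, ∑ t', st z0 u t t' x * (D u t t' x * D u t' t x) ≤
      2 * ∑ t, ∑ t', st z0 u t t' x * D u t t' x ^ 2 := fun u x => by
    have e : ∑ t, ∑ t', st z0 u t t' x * D u t t' x ^ 2 =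
        ∑ t, ∑ t', st z0 u t t' x * D u t' t x ^ 2 := by
      rw [sum_comm]
      exact sum_congr rfl fun t _ => sum_congr rfl fun t' _ => by rw [st_mid]
    rw [two_mul (∑ t, ∑ t', st z0 u t t' x * D u t t' x ^ 2)]
    nth_rewrite 2 [e]
    simp only [mul_sum, ← sum_add_distrib]
    refine sum_le_sum fun t _ => sum_le_sum fun t' _ => ?_
    linarith only [mul_nonneg (st_nonneg z0 u t t' x) (sq_nonneg (D u t t' x - D u t' t x))]
  have b : ∑ u, ∑ x, p x * (2 * ∑ t, ∑ t', st z0 u t t' x * D u t t' x ^ 2) =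
      2 * ∑ u, ∑ t, ∑ t', ∑ x, st z0 u t t' x * p x * D u t t' x ^ 2 := by
    simp only [mul_sum]
    refine sum_congr rfl fun u _ => ?_
    rw [sum_comm]
    refine sum_congr rfl fun t _ => ?_
    rw [sum_comm]
    exact sum_congr rfl fun _ _ => sum_congr rfl fun _ _ => by ring
  have c1 := flip4 fun u t t' x => st z0 u t t' x * p x * D u t t' x ^ 2
  have c2 := swap4 fun u t t' x => st z0 u t t' x * p x * D u t t' x ^ 2
  have c3 := swap4 fun u t t' x => st z0 u t t' x * p t * D u t t' x ^ 2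
  simp only [← st_flip z0, ← h1] at c1
  simp only [← st_swap z0, ← h2] at c2 c3
  have d : ∑ u, ∑ t, ∑ t', ∑ x,
      st z0 u t t' x * ((p u + p t + p t' + p x) / 2) * D u t t' x ^ 2 =
      (∑ u, ∑ t, ∑ t', ∑ x, st z0 u t t' x * p u * D u t t' x ^ 2 +
      ∑ u, ∑ t, ∑ t', ∑ x, st z0 u t t' x * p t * D u t t' x ^ 2 +
      ∑ u, ∑ t, ∑ t', ∑ x, st z0 u t t' x * p t' * D u t t' x ^ 2 +
      ∑ u, ∑ t, ∑ t', ∑ x, st z0 u t t' x * p x * D u t t' x ^ 2) / 2 := by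
    simp only [← sum_add_distrib, sum_div]
    exact sum_congr rfl fun _ _ => sum_congr rfl fun _ _ => sum_congr rfl fun _ _ =>
      sum_congr rfl fun _ _ => by ring
  calc _ ≤ ∑ u, ∑ x, p x * (2 * ∑ t, ∑ t', st z0 u t t' x * D u t t' x ^ 2) :=
        sum_le_sum fun u _ => sum_le_sum fun x _ => mul_le_mul_of_nonneg_left (a u x) (hp x)
    _ = _ := by rw [b, d, ← c3, ← c2, ← c1]; ring

lemma two_le (hp : Prob p) {u t : α} (h : u ≠ t) : p u + p t ≤ 1 := by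
  rw [← hp.2, ← sum_pair h]
  exact sum_le_sum_of_subset_of_nonneg (subset_univ _) fun _ _ _ => hp.1 _

lemma three_le (hp : Prob p) {u t x : α} (h : u ≠ t) (h' : u ≠ x) (h'' : t ≠ x) :
    p u + p t + p x ≤ 1 := by
  rw [← hp.2, add_assoc, ← sum_pair h'', ← sum_insert (by simp [h, h'])]
  exact sum_le_sum_of_subset_of_nonneg (subset_univ _) fun _ _ _ => hp.1 _

lemma kap_swap (p : α → ℝ) (z u t : α) : kap p z (u, t) = kap p z (t, u) := by
  unfold kap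
  by_cases h : u = t
  · simp [h]
  · simp only [h, Ne.symm h, if_false]
    ring

lemma kap_diag (p : α → ℝ) (z u : α) : kap p z (u, u) = 4 - 2 * p z := if_pos rfl

lemma kap_zero (hs : Srt p z0 z1) {a : α} (h : a ≠ z0) :
    4 * (1 - p z0) ≤ kap p z0 (a, z0) ∧ p a + p z0 - 1 + 2 * (1 - p z0) ≤ kap p z0 (a, z0) := by
  have h1 := two_le hs.1 h
  have h2 := hs.2.2.1 a
  have h3 := hs.1.1 a
  have : (p a - p z0) ^ 2 ≤ 1 - 2 * p a := by nlinarith only [h1, h2, h3]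
  simp only [kap, h, if_false]
  constructor <;> linarith

lemma kap_free (hs : Srt p z0 z1) {u t : α} (hu : u ≠ z0) (ht : t ≠ z0) :
    p u + p t + 1 ≤ kap p z0 (u, t) ∧ p u + p t + 3 - 2 * (1 - p z0) ≤ kap p z0 (u, t) ∨
    u = t ∧ p u + p t + 1 ≤ kap p z0 (u, t) := by
  have h3 := hs.1.1 u
  have h4 := hs.1.1 t
  have h5 := hs.1.1 z0
  by_cases h : u = t
  · subst h
    have := two_le hs.1 hu
    exact Or.inr ⟨rfl, by rw [kap_diag]; linarith⟩
  · have h1 := three_le hs.1 h hu ht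
    have : (p u - p t) ^ 2 ≤ 1 - p z0 := by nlinarith only [h3, h4, h5, h1]
    simp only [kap, h, if_false]
    exact Or.inl ⟨by linarith, by linarith⟩

lemma kap_nonneg (hs : Srt p z0 z1) (u t : α) : 0 ≤ kap p z0 (u, t) := by
  have h0 : p z0 ≤ 1 := by linarith [two_le hs.1 hs.2.1, hs.1.1 z1]
  by_cases h : u = t
  · rw [h, kap_diag]; linarith
  by_cases hu : u = z0
  · rw [hu, kap_swap]; linarith only [(kap_zero hs (fun e => h (hu.trans e.symm) : t ≠ z0)).1, h0]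
  by_cases ht : t = z0
  · rw [ht]; linarith only [(kap_zero hs hu).1, h0]
  rcases kap_free hs hu ht with h | h <;> linarith [hs.1.1 u, hs.1.1 t, h.1, h.2]

/-- what is left of the quartic form -/
noncomputable def rem (p : α → ℝ) (z u t t' x : α) : ℝ :=
  (kap p z (u, t) + kap p z (t', x)) / 2 - st z u t t' x * ((p u + p t + p t' + p x) / 2)

lemma rem_nonneg (hs : Srt p z0 z1) (u t t' x : α) : 0 ≤ rem p z0 u t t' x := by
  have h0 : p z0 ≤ 1 := by linarith [two_le hs.1 hs.2.1, hs.1.1 z1]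
  have f : ∀ u t, u ≠ z0 → t ≠ z0 → p u + p t + 1 ≤ kap p z0 (u, t) := fun u t hu ht => by
    rcases kap_free hs hu ht with h | h
    exacts [h.1, h.2]
  have g : ∀ u t, ¬(u = z0 ∧ t = z0) → p u + p t - 1 ≤ kap p z0 (u, t) := fun u t h => by
    by_cases hu : u = z0
    · rw [hu, kap_swap]; linarith [(kap_zero hs (fun e => h ⟨hu, e⟩ : t ≠ z0)).2]
    by_cases ht : t = z0
    · rw [ht]; linarith only [(kap_zero hs hu).2, h0]
    linarith [f u t hu ht]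
  unfold rem st
  split_ifs with h
  · by_cases k : u ≠ z0 ∧ t ≠ z0
    · linarith only [f u t k.1 k.2, g t' x (by tauto)]
    · have hx : x ≠ z0 := fun e => by
        by_cases hu : u = z0
        · exact h.1 (hu.trans e.symm)
        · tauto
      have ht : t' ≠ z0 := fun e => by
        by_cases hu : t = z0
        · exact h.2.1 (hu.trans e.symm)
        · tauto
      linarith only [f t' x ht hx, g u t (by tauto)]
  · linarith [kap_nonneg hs u t, kap_nonneg hs t' x]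

lemma pick (h : z0 ≠ z1) (F : α → α → α → α → ℝ) (hF : ∀ u t t' x, 0 ≤ F u t t' x) :
    ∑ a ∈ univ.erase z0, ∑ b ∈ univ.erase z0, F a z0 b z0 +
      ∑ a ∈ univ.erase z0, ∑ b ∈ univ.erase z0, F z0 a z0 b +
      ∑ a ∈ univ.erase z0, F a a z0 z0 + ∑ a ∈ univ.erase z0, F z0 z0 a a +
      (∑ a ∈ univ.erase z0, F a z0 z0 z0 + ∑ a ∈ univ.erase z0, F z0 a z0 z0 +
        ∑ a ∈ univ.erase z0, F z0 z0 a z0 + ∑ a ∈ univ.erase z0, F z0 z0 z0 a) +
      F z0 z0 z0 z0 + ∑ a ∈ univ.erase z0, F z1 z0 z1 a + F z1 z1 z1 z1 ≤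
    ∑ u, ∑ t, ∑ t', ∑ x, F u t t' x := by
  have h1 : z1 ∈ univ.erase z0 := mem_erase.2 ⟨h.symm, mem_univ _⟩
  have sp : ∀ f : α → ℝ, ∑ u, f u = f z0 + ∑ u ∈ univ.erase z0, f u := fun f =>
    (add_sum_erase _ f (mem_univ z0)).symm
  generalize univ.erase z0 = N at h1 sp ⊢
  have s1 : ∀ (f : α → ℝ), (∀ u, 0 ≤ f u) → f z1 ≤ ∑ u ∈ N, f u := fun f hf =>
    single_le_sum (fun u _ => hf u) h1
  have n1 : ∀ {f : α → ℝ}, (∀ u, 0 ≤ f u) → 0 ≤ ∑ u ∈ N, f u := fun hf =>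
    sum_nonneg fun u _ => hf u
  have d : ∀ f : α → α → ℝ, (∀ u t, 0 ≤ f u t) → ∑ a ∈ N, f a a ≤ ∑ a ∈ N, ∑ b ∈ N, f a b :=
    fun f hf => sum_le_sum fun a ha => single_le_sum (fun u _ => hf a u) ha
  have a1 := d (fun a b => F a b z0 z0) fun _ _ => hF _ _ _ _
  have a2 := d (fun a b => F z0 z0 a b) fun _ _ => hF _ _ _ _
  have a3 : ∑ a ∈ N, F z1 z0 z1 a ≤ ∑ u ∈ N, ∑ t' ∈ N, ∑ x ∈ N, F u z0 t' x :=
    (s1 (fun t' => ∑ x ∈ N, F z1 z0 t' x) fun _ => n1 fun _ => hF _ _ _ _).trans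
      (s1 (fun u => ∑ t' ∈ N, ∑ x ∈ N, F u z0 t' x) fun _ => n1 fun _ => n1 fun _ => hF _ _ _ _)
  have a4 : F z1 z1 z1 z1 ≤ ∑ u ∈ N, ∑ t ∈ N, ∑ t' ∈ N, ∑ x ∈ N, F u t t' x :=
    (s1 (F z1 z1 z1) fun _ => hF _ _ _ _).trans
      ((s1 (fun t' => ∑ x ∈ N, F z1 z1 t' x) fun _ => n1 fun _ => hF _ _ _ _).trans
      ((s1 (fun t => ∑ t' ∈ N, ∑ x ∈ N, F z1 t t' x) fun _ => n1 fun _ => n1 fun _ =>
        hF _ _ _ _).trans
      (s1 (fun u => ∑ t ∈ N, ∑ t' ∈ N, ∑ x ∈ N, F u t t' x) fun _ => n1 fun _ => n1 fun _ =>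
        n1 fun _ => hF _ _ _ _)))
  have b1 : 0 ≤ ∑ a ∈ N, ∑ b ∈ N, F a z0 z0 b := n1 fun _ => n1 fun _ => hF _ _ _ _
  have b2 : 0 ≤ ∑ a ∈ N, ∑ b ∈ N, F z0 a b z0 := n1 fun _ => n1 fun _ => hF _ _ _ _
  have b3 : 0 ≤ ∑ a ∈ N, ∑ b ∈ N, ∑ c ∈ N, F z0 a b c :=
    n1 fun _ => n1 fun _ => n1 fun _ => hF _ _ _ _
  have b4 : 0 ≤ ∑ a ∈ N, ∑ b ∈ N, ∑ c ∈ N, F a b z0 c :=
    n1 fun _ => n1 fun _ => n1 fun _ => hF _ _ _ _
  have b5 : 0 ≤ ∑ a ∈ N, ∑ b ∈ N, ∑ c ∈ N, F a b c z0 :=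
    n1 fun _ => n1 fun _ => n1 fun _ => hF _ _ _ _
  simp only [sp, sum_add_distrib]
  linarith

/-- the remainder pays for the special entries -/
lemma supply (hs : Srt p z0 z1) (h1 : ∀ u t t' x, D u t t' x = D t' x u t)
    (h2 : ∀ u t t' x, D u t t' x = D t u x t') :
    8 * (1 - p z0) * od (univ.erase z0) (fun a b => D a z0 b z0 ^ 2) +
      8 * (1 - p z0) * ∑ a ∈ Rs z0 z1, D a z0 a z0 ^ 2 + 4 * ∑ a ∈ Rs z0 z1, D a a z0 z0 ^ 2 +
      4 * ∑ a ∈ Rs z0 z1, D a z0 z0 z0 ^ 2 + ∑ a ∈ Rs z0 z1, D z1 z0 z1 a ^ 2 +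
      2 * kap p z0 (z0, z1) * D z1 z0 z1 z0 ^ 2 +
      (4 - 2 * p z0) * (D z0 z0 z0 z0 ^ 2 + 2 * D z0 z0 z1 z1 ^ 2 + D z1 z1 z1 z1 ^ 2) ≤
    ∑ u, ∑ t, ∑ t', ∑ x, rem p z0 u t t' x * D u t t' x ^ 2 := by
  have hz : z1 ∈ univ.erase z0 := mem_erase.2 ⟨hs.2.1.symm, mem_univ _⟩
  have h0 : p z0 ≤ 1 := by linarith [two_le hs.1 hs.2.1, hs.1.1 z1]
  have hF : ∀ u t t' x, 0 ≤ rem p z0 u t t' x * D u t t' x ^ 2 := fun u t t' x =>
    mul_nonneg (rem_nonneg hs u t t' x) (sq_nonneg _)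
  refine le_trans ?_ (pick hs.2.1 _ hF)
  have r1 : ∀ u t t' x, rem p z0 u t t' x = rem p z0 t' x u t := fun u t t' x => by
    unfold rem
    rw [st_flip]
    ring
  have r2 : ∀ u t t' x, rem p z0 u t t' x = rem p z0 t u x t' := fun u t t' x => by
    unfold rem
    rw [st_swap, kap_swap p z0 u, kap_swap p z0 t']
    ring
  have e1 : ∀ a b, rem p z0 z0 a z0 b * D z0 a z0 b ^ 2 = rem p z0 a z0 b z0 * D a z0 b z0 ^ 2 :=
    fun a b => by rw [r2, h2]
  have e2 : ∀ a, rem p z0 z0 z0 a a * D z0 z0 a a ^ 2 = rem p z0 a a z0 z0 * D a a z0 z0 ^ 2 :=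
    fun a => by rw [r1, h1]
  have e3 : ∑ a ∈ univ.erase z0, rem p z0 z0 a z0 z0 * D z0 a z0 z0 ^ 2 =
      ∑ a ∈ univ.erase z0, rem p z0 a z0 z0 z0 * D a z0 z0 z0 ^ 2 :=
    sum_congr rfl fun a _ => by rw [r2, h2]
  have e4 : ∑ a ∈ univ.erase z0, rem p z0 z0 z0 a z0 * D z0 z0 a z0 ^ 2 =
      ∑ a ∈ univ.erase z0, rem p z0 a z0 z0 z0 * D a z0 z0 z0 ^ 2 :=
    sum_congr rfl fun a _ => by rw [r1, h1]
  have e5 : ∑ a ∈ univ.erase z0, rem p z0 z0 z0 z0 a * D z0 z0 z0 a ^ 2 =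
      ∑ a ∈ univ.erase z0, rem p z0 a z0 z0 z0 * D a z0 z0 z0 ^ 2 :=
    sum_congr rfl fun a _ => by rw [r1, h1, r2, h2]
  rw [e3, e4, e5, sum_congr rfl fun a _ => e2 a,
    sum_congr rfl fun a _ => sum_congr rfl fun b _ => e1 a b, od_full]
  have q1 : ∀ a b, rem p z0 a z0 b z0 = (kap p z0 (a, z0) + kap p z0 (b, z0)) / 2 := fun a b => by
    simp [rem, st]
  have q2 : ∀ a, rem p z0 a a z0 z0 = 4 - 2 * p z0 := fun a => by
    simp [rem, st, kap_diag]
  have q3 : ∀ a, rem p z0 a z0 z0 z0 = (kap p z0 (a, z0) + (4 - 2 * p z0)) / 2 := fun a => by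
    simp [rem, st, kap_diag]
  have q4 : rem p z0 z1 z1 z1 z1 = 4 - 2 * p z0 := by simp [rem, st, kap_diag]
  have hR : ∀ a ∈ Rs z0 z1, a ≠ z0 := fun a ha => (mem_erase.1 (mem_erase.1 ha).2).1
  have c1 : 4 * (1 - p z0) * od (univ.erase z0) (fun a b => D a z0 b z0 ^ 2) ≤
      od (univ.erase z0) fun a b => rem p z0 a z0 b z0 * D a z0 b z0 ^ 2 := by
    have : 4 * (1 - p z0) * od (univ.erase z0) (fun a b => D a z0 b z0 ^ 2) =
        od (univ.erase z0) fun a b => 4 * (1 - p z0) * D a z0 b z0 ^ 2 := by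
      simp only [od, mul_sum]
    rw [this]
    refine od_le fun a ha b hb _ => mul_le_mul_of_nonneg_right ?_ (sq_nonneg _)
    linarith only [q1 a b, (kap_zero hs (mem_erase.1 ha).1).1, (kap_zero hs (mem_erase.1 hb).1).1]
  have c2 : 4 * (1 - p z0) * ∑ a ∈ Rs z0 z1, D a z0 a z0 ^ 2 ≤
      ∑ a ∈ Rs z0 z1, rem p z0 a z0 a z0 * D a z0 a z0 ^ 2 := by
    rw [mul_sum]
    refine sum_le_sum fun a ha => mul_le_mul_of_nonneg_right ?_ (sq_nonneg _)
    linarith [q1 a a, (kap_zero hs (hR a ha)).1]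
  have c3 : 2 * ∑ a ∈ Rs z0 z1, D a a z0 z0 ^ 2 ≤
      ∑ a ∈ Rs z0 z1, rem p z0 a a z0 z0 * D a a z0 z0 ^ 2 := by
    rw [mul_sum]
    refine sum_le_sum fun a _ => mul_le_mul_of_nonneg_right ?_ (sq_nonneg _)
    linarith [q2 a]
  have c4 : ∑ a ∈ Rs z0 z1, D a z0 z0 z0 ^ 2 ≤
      ∑ a ∈ Rs z0 z1, rem p z0 a z0 z0 z0 * D a z0 z0 z0 ^ 2 := by
    refine sum_le_sum fun a ha => le_mul_of_one_le_left (sq_nonneg _) ?_
    linarith [q3 a, (kap_zero hs (hR a ha)).1]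
  have c5 : ∑ a ∈ Rs z0 z1, D z1 z0 z1 a ^ 2 ≤
      ∑ a ∈ Rs z0 z1, rem p z0 z1 z0 z1 a * D z1 z0 z1 a ^ 2 := by
    refine sum_le_sum fun a ha => le_mul_of_one_le_left (sq_nonneg _) ?_
    have k1 := (kap_zero hs hs.2.1.symm).2
    have k2 : st z0 z1 z0 z1 a ≤ 1 := by
      unfold st
      split_ifs <;> norm_num
    have k3 : st z0 z1 z0 z1 a * ((p z1 + p z0 + p z1 + p a) / 2) ≤
        (p z1 + p z0 + p z1 + p a) / 2 :=
      mul_le_of_le_one_left (by linarith only [hs.1.1 z0, hs.1.1 z1, hs.1.1 a]) k2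
    rcases kap_free hs hs.2.1.symm (hR a ha) with k | k
    · unfold rem
      linarith only [k.2, k1, k3]
    · exact absurd k.1.symm (mem_erase.1 ha).1
  have c6 := hF z1 z0 z0 z0
  have c7 := hF z1 z0 z1 z1
  simp only [← add_sum_erase _ _ hz]
  rw [q1 z1 z1, q2 z1, q2 z0, q4, kap_swap p z0 z0, h1 z0 z0 z1 z1]
  unfold Rs at *
  linarith

/-- the left side in terms of the standard entries and the special products -/
lemma demand (hs : Srt p z0 z1) (h0 : ∀ u t t' x, 0 ≤ D u t t' x)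
    (h1 : ∀ u t t' x, D u t t' x = D t' x u t) (h2 : ∀ u t t' x, D u t t' x = D t u x t') :
    ∑ q ∈ Gen z0 z1, p q.2 * (2 * od univ fun t t' => D q.1 t t' q.2 * D q.1 t' t q.2) +
      (p z0 + p z1) * (2 * od (Rs z0 z1) (fun t t' => D z1 t t' z0 * D z1 t' t z0) +
        4 * ∑ t ∈ Rs z0 z1, (D z1 z0 z1 t * (D t z0 z0 z0 + D t z0 z1 z1) +
          D z1 z0 t z0 * (D z1 t z0 z0 + D z1 t z1 z1))) ≤
    ∑ u, ∑ x, p x * (2 * ∑ t, ∑ t', st z0 u t t' x * (D u t t' x * D u t' t x)) +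
      4 * od (univ.erase z0) (fun a b => D a z0 b z0 * D a b z0 z0) +
      4 * ∑ a ∈ Rs z0 z1, D a z0 a z0 * D a a z0 z0 +
      4 * ∑ t ∈ Rs z0 z1, D z1 z0 z1 t * D t z0 z0 z0 +
      4 * ∑ t ∈ Rs z0 z1, D z1 z0 t z0 * D z1 t z1 z1 := by
  have hz : z1 ∈ univ.erase z0 := mem_erase.2 ⟨hs.2.1.symm, mem_univ _⟩
  have hR : ∀ a ∈ Rs z0 z1, a ≠ z0 := fun a ha => (mem_erase.1 (mem_erase.1 ha).2).1
  obtain ⟨H, hH⟩ : ∃ H : α → ℝ, ∀ a,
      H a = od (univ.erase z0) fun t t' => D a t t' z0 * D a t' t z0 := ⟨_, fun _ => rfl⟩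
  obtain ⟨M, hM⟩ : ∃ M : α → ℝ, ∀ a, M a = ∑ b ∈ univ.erase z0, D a z0 b z0 * D a b z0 z0 :=
    ⟨_, fun _ => rfl⟩
  have sy : ∀ a t t', D z0 t t' a * D z0 t' t a = D a t t' z0 * D a t' t z0 := fun a t t' => by
    rw [h1 z0 t, h2 t' a, h1 z0 t', h2 t a, mul_comm]
  have c1 : ∀ a, od univ (fun t t' => D a t t' z0 * D a t' t z0) = 2 * M a + H a := fun a => by
    rw [od_split (mem_univ z0), hH, hM, two_mul]
    simp only [mul_comm (D a _ z0 z0)]
  have c2 : ∀ a, od univ (fun t t' => D z0 t t' a * D z0 t' t a) = 2 * M a + H a := fun a => by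
    simp only [sy, c1]
  rw [gen_sum hs.2.1 fun u x => p x * (2 * od univ fun t t' => D u t t' x * D u t' t x),
    od_full univ fun u x => p x * (2 * ∑ t, ∑ t', st z0 u t t' x * (D u t t' x * D u t' t x)),
    od_split (mem_univ z0)]
  have d0 : 0 ≤ ∑ u, p u * (2 * ∑ t, ∑ t', st z0 u t t' u * (D u t t' u * D u t' t u)) := by
    simp only [st, ne_eq, not_true_eq_false, or_self, not_and, not_or, false_and, ↓ reduceIte, zero_mul, sum_const_zero, mul_zero, Std.le_refl]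
  have d1 : ∑ a ∈ univ.erase z0, p a * (2 * ∑ t, ∑ t', st z0 z0 t t' a *
      (D z0 t t' a * D z0 t' t a)) = ∑ a ∈ univ.erase z0, p a * (2 * H a) :=
    sum_congr rfl fun a ha => by
      rw [st_b (mem_erase.1 ha).1.symm (Or.inl rfl), hH]
      simp only [sy]
  have d2 : ∑ a ∈ univ.erase z0, p z0 * (2 * ∑ t, ∑ t', st z0 a t t' z0 *
      (D a t t' z0 * D a t' t z0)) = ∑ a ∈ univ.erase z0, p z0 * (2 * H a) :=
    sum_congr rfl fun a ha => by rw [st_b (mem_erase.1 ha).1 (Or.inr rfl), hH]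
  have d3 : od (univ.erase z0) (fun u x => p x * (2 * ∑ t, ∑ t', st z0 u t t' x *
      (D u t t' x * D u t' t x))) = od (univ.erase z0)
        fun u x => p x * (2 * od univ fun t t' => D u t t' x * D u t' t x) :=
    od_congr fun u hu x hx h => by rw [st_a h (mem_erase.1 hu).1 (mem_erase.1 hx).1]
  rw [d1, d2, d3, ← add_sum_erase _ _ hz, ← add_sum_erase _ _ hz]
  simp only [c1, c2]
  have e1 : H z1 = 2 * ∑ t ∈ Rs z0 z1, D z1 z0 z1 t * D t z0 z1 z1 +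
      od (Rs z0 z1) fun t t' => D z1 t t' z0 * D z1 t' t z0 := by
    rw [hH, od_split hz, two_mul]
    simp only [h1 z1 z1, h1 z1 _ z1 z0, mul_comm (D _ z0 z1 z1)]
    rfl
  have e2 : ∑ a ∈ Rs z0 z1, M a + ∑ t ∈ Rs z0 z1, D z1 z0 t z0 * D z1 t z0 z0 =
      od (univ.erase z0) (fun a b => D a z0 b z0 * D a b z0 z0) +
        ∑ a ∈ Rs z0 z1, D a z0 a z0 * D a a z0 z0 := by
    have := od_full (univ.erase z0) fun a b => D a z0 b z0 * D a b z0 z0
    simp only [← hM] at this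
    rw [← add_sum_erase _ _ hz, ← add_sum_erase _ _ hz, hM z1, ← add_sum_erase _ _ hz] at this
    unfold Rs
    linarith only [this]
  have e3 : ∑ a ∈ Rs z0 z1, p a * (2 * (2 * M a + H a)) +
      ∑ a ∈ Rs z0 z1, p z0 * (2 * (2 * M a + H a)) ≤ ∑ a ∈ Rs z0 z1, p a * (2 * H a) +
      ∑ a ∈ Rs z0 z1, p z0 * (2 * H a) + 4 * ∑ a ∈ Rs z0 z1, M a := by
    simp only [mul_sum, ← sum_add_distrib]
    refine sum_le_sum fun a ha => ?_
    have : 0 ≤ M a := hM a ▸ sum_nonneg fun _ _ => mul_nonneg (h0 _ _ _ _) (h0 _ _ _ _)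
    nlinarith only [two_le hs.1 (hR a ha), this]
  have n : ∀ f g : α → ℝ, (∀ t, 0 ≤ f t) → (∀ t, 0 ≤ g t) →
      (p z0 + p z1) * ∑ t ∈ Rs z0 z1, f t * g t ≤ ∑ t ∈ Rs z0 z1, f t * g t := fun f g hf hg =>
    mul_le_of_le_one_left (sum_nonneg fun t _ => mul_nonneg (hf t) (hg t)) (two_le hs.1 hs.2.1)
  have n1 := n (fun t => D z1 z0 z1 t) (fun t => D t z0 z0 z0) (fun _ => h0 _ _ _ _)
    fun _ => h0 _ _ _ _
  have n2 := n (fun t => D z1 z0 t z0) (fun t => D z1 t z0 z0) (fun _ => h0 _ _ _ _)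
    fun _ => h0 _ _ _ _
  have n3 := n (fun t => D z1 z0 t z0) (fun t => D z1 t z1 z1) (fun _ => h0 _ _ _ _)
    fun _ => h0 _ _ _ _
  simp only [mul_add (D _ _ _ _), sum_add_distrib]
  rw [e1]
  unfold Rs at *
  linarith

/-- the special products -/
lemma prods (hs : Srt p z0 z1) {w : α → α → ℝ} (hw0 : ∀ u t, 0 ≤ w u t)
    (h1 : ∀ u t t' x, D u t t' x = D t' x u t)
    (hc : ∀ u t t' x, D u t t' x ^ 2 ≤ w u t * w t' x)
    (hw : ∀ u, w u u ≤ 2 / 3 * (p u * (1 - p u))) :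
    4 * od (univ.erase z0) (fun a b => D a z0 b z0 * D a b z0 z0) +
      4 * ∑ a ∈ Rs z0 z1, D a z0 a z0 * D a a z0 z0 +
      4 * ∑ t ∈ Rs z0 z1, D z1 z0 z1 t * D t z0 z0 z0 +
      4 * ∑ t ∈ Rs z0 z1, D z1 z0 t z0 * D z1 t z1 z1 ≤
    8 * (1 - p z0) * od (univ.erase z0) (fun a b => D a z0 b z0 ^ 2) +
      8 * (1 - p z0) * ∑ a ∈ Rs z0 z1, D a z0 a z0 ^ 2 + 4 * ∑ a ∈ Rs z0 z1, D a a z0 z0 ^ 2 +
      4 * ∑ a ∈ Rs z0 z1, D a z0 z0 z0 ^ 2 + ∑ a ∈ Rs z0 z1, D z1 z0 z1 a ^ 2 +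
      (8 / 15 * p z0 * od (univ.erase z0) w + lb p z0 / 3 * ∑ a ∈ Rs z0 z1, w a a +
        4 / 9 * ∑ t ∈ Rs z0 z1, (1 - p z1 - p t) * w z1 t) := by
  have hz : z1 ∈ univ.erase z0 := mem_erase.2 ⟨hs.2.1.symm, mem_univ _⟩
  have hp := hs.1.1
  have h0 : 0 ≤ 1 - p z0 := by linarith [two_le hs.1 hs.2.1, hp z1]
  have a1 : 4 * od (univ.erase z0) (fun a b => D a z0 b z0 * D a b z0 z0) ≤
      5 * (1 - p z0) * od (univ.erase z0) (fun a b => D a z0 b z0 ^ 2) +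
        8 / 15 * p z0 * od (univ.erase z0) w := by
    simp only [od, mul_sum, ← sum_add_distrib]
    refine sum_le_sum fun a _ => sum_le_sum fun b _ => ?_
    have := amgm (k := 5 * (1 - p z0)) (c := 8 / 15 * p z0 * w a b) (W := D a z0 b z0)
      (S := 2 * D a b z0 z0) (by linarith) (by have := hp z0; have := hw0 a b; positivity)
      (by linarith [hc a b z0 z0, mul_le_mul_of_nonneg_left (hw z0) (hw0 a b)])
    linarith
  have a2 : 4 * ∑ a ∈ Rs z0 z1, D a z0 a z0 * D a a z0 z0 ≤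
      8 * (1 - p z0) * ∑ a ∈ Rs z0 z1, D a z0 a z0 ^ 2 + 4 * ∑ a ∈ Rs z0 z1, D a a z0 z0 ^ 2 +
        lb p z0 / 3 * ∑ a ∈ Rs z0 z1, w a a := by
    simp only [mul_sum, ← sum_add_distrib]
    refine sum_le_sum fun a _ => ?_
    have l0 : 0 ≤ lb p z0 := le_max_left _ _
    have l1 : 1 - 5 * (1 - p z0) ≤ lb p z0 := le_max_right _ _
    have k0 : w z0 z0 ≤ 2 / 3 * (1 - p z0) := by linarith only [hw z0, sq_nonneg (1 - p z0)]
    have k1 : D a a z0 z0 ^ 2 ≤ w a a * (2 / 3 * (1 - p z0)) :=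
      (hc a a z0 z0).trans (mul_le_mul_of_nonneg_left k0 (hw0 a a))
    have k2 := mul_le_mul_of_nonneg_left k1 l0
    have k3 := mul_le_mul_of_nonneg_right
      (show 1 ≤ lb p z0 + 8 * (1 - p z0) by linarith only [h0, l1]) (sq_nonneg (D a a z0 z0))
    have := amgm (k := 8 * (1 - p z0)) (c := 4 * D a a z0 z0 ^ 2 + lb p z0 / 3 * w a a)
      (W := D a z0 a z0) (S := 2 * D a a z0 z0) (by linarith only [h0])
      (by have := hw0 a a; positivity) (by linarith only [k2, k3])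
    linarith only [this]
  have a3 : 4 * ∑ t ∈ Rs z0 z1, D z1 z0 z1 t * D t z0 z0 z0 ≤
      4 * ∑ a ∈ Rs z0 z1, D a z0 z0 z0 ^ 2 + ∑ a ∈ Rs z0 z1, D z1 z0 z1 a ^ 2 := by
    simp only [mul_sum, ← sum_add_distrib]
    exact sum_le_sum fun a _ => by linarith only [sq_nonneg (D z1 z0 z1 a - 2 * D a z0 z0 z0)]
  have a4 : 4 * ∑ t ∈ Rs z0 z1, D z1 z0 t z0 * D z1 t z1 z1 ≤
      6 * (1 - p z0) * ∑ t ∈ Rs z0 z1, D z1 z0 t z0 ^ 2 +
        4 / 9 * ∑ t ∈ Rs z0 z1, (1 - p z1 - p t) * w z1 t := by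
    simp only [mul_sum, ← sum_add_distrib]
    refine sum_le_sum fun t ht => ?_
    have k0 := three_le hs.1 hs.2.1 (mem_erase.1 (mem_erase.1 ht).2).1.symm
      (mem_erase.1 ht).1.symm
    have k1 : p z1 * (1 - p z1) ≤ (1 - p z0) * (1 - p z1 - p t) := by
      linarith only [mul_nonneg (hp t) (sub_nonneg.2 (hs.2.2.1 z1)), mul_nonneg (sub_nonneg.2 k0)
        (show 0 ≤ 1 - p z1 by linarith only [hp z0, hp t, k0])]
    have k2 : 0 ≤ 1 - p z1 - p t := by linarith only [hp z0, k0]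
    have := amgm (k := 6 * (1 - p z0)) (c := 4 / 9 * ((1 - p z1 - p t) * w z1 t))
      (W := D z1 z0 t z0) (S := 2 * D z1 t z1 z1) (by linarith only [h0])
      (by have := hw0 z1 t; positivity)
      (by linarith only [hc z1 t z1 z1, mul_le_mul_of_nonneg_left (hw z1) (hw0 z1 t), mul_le_mul_of_nonneg_left k1 (hw0 z1 t)])
    linarith only [this]
  have a5 : 2 * ∑ t ∈ Rs z0 z1, D z1 z0 t z0 ^ 2 ≤
      od (univ.erase z0) fun a b => D a z0 b z0 ^ 2 := by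
    rw [od_split hz, two_mul]
    simp only [h1 _ z0 z1 z0]
    exact le_add_of_nonneg_right (sum_nonneg fun _ _ => sum_nonneg fun _ _ => sq_nonneg _)
  linarith [mul_le_mul_of_nonneg_left a5 h0]

variable {A : Type} [Fintype A] {y : A → Matrix α α ℂ}

lemma dn_flip (e e' : α × α) : dn y e e' = dn y e' e := by
  unfold dn Dm
  rw [← norm_star]
  simp only [RCLike.star_def, of_apply, star_sum, star_mul', RingHomCompTriple.comp_apply, RingHom.id_apply, mul_comm]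

lemma dn_swap (hy : ∀ a, (y a)ᴴ = y a) (u t t' x : α) :
    dn y (u, t) (t', x) = dn y (t, u) (x, t') := by
  have h : ∀ a u t, star (y a u t) = y a t u := fun a u t => congrFun (congrFun (hy a) t) u
  rw [dn_flip]
  unfold dn Dm
  simp only [of_apply, h, mul_comm]

lemma dn_self (u t : α) : dn y (u, t) (u, t) = ww y u t := by
  unfold dn Dm ww
  simp only [of_apply, Complex.star_def, Complex.mul_conj', ← Complex.ofReal_pow,
    ← Complex.ofReal_sum, Complex.norm_real]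
  exact abs_of_nonneg (sum_nonneg fun _ _ => sq_nonneg _)

lemma dn_cs (u t t' x : α) : dn y (u, t) (t', x) ^ 2 ≤ ww y u t * ww y t' x := by
  refine le_trans (pow_le_pow_left₀ (norm_nonneg _) (norm_sum_le _ _) 2) ?_
  simp only [norm_mul, norm_star]
  exact sum_mul_sq_le_sq_mul_sq _ _ _

lemma ww_le (h : HOne p y) (u : α) : ww y u u ≤ 2 / 3 * (p u * (1 - p u)) := by
  have := h u (Pi.single u 1)
  simp only [Pi.single_apply, ite_mul, one_mul, zero_mul, sum_ite_eq', mem_univ, if_true,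
    apply_ite norm, norm_one, norm_zero, ite_pow, one_pow, ne_eq, OfNat.ofNat_ne_zero,
    not_false_eq_true, zero_pow, mul_ite, mul_one, mul_zero] at this
  unfold ww
  linarith

end LLb

open LLb Finset in
theorem t_LLb : S_LLb := by
  intro α A _ _ _ p y z0 z1 hs hy hH
  obtain ⟨D, hD⟩ : ∃ D : α → α → α → α → ℝ, ∀ u t t' x, dn y (u, t) (t', x) = D u t t' x :=
    ⟨_, fun _ _ _ _ => rfl⟩
  have h0 : ∀ u t t' x, 0 ≤ D u t t' x := fun _ _ _ _ => hD _ _ _ _ ▸ norm_nonneg _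
  have h1 : ∀ u t t' x, D u t t' x = D t' x u t := fun _ _ _ _ => by rw [← hD, ← hD, dn_flip]
  have h2 : ∀ u t t' x, D u t t' x = D t u x t' := fun _ _ _ _ => by rw [← hD, ← hD, dn_swap hy]
  have hd : ∀ u t, ww y u t = D u t u t := fun u t => by rw [← hD, dn_self]
  have a := demand hs h0 h1 h2
  have b := cost (z0 := z0) hs.1.1 h1 h2
  have c := supply hs h1 h2
  have d := prods (D := D) (w := ww y) hs (fun _ _ => sum_nonneg fun _ _ => sq_nonneg _) h1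
    (fun _ _ _ _ => hD _ _ _ _ ▸ dn_cs _ _ _ _) (ww_le hH)
  have e : QQ p z0 y = ∑ u, ∑ t, ∑ t', ∑ x, kap p z0 (u, t) * D u t t' x ^ 2 := by
    simp only [QQ, Fintype.sum_prod_type, hD]
  have f := flip4 fun u t t' x => kap p z0 (u, t) * D u t t' x ^ 2
  simp only [← h1] at f
  have g : ∑ u, ∑ t, ∑ t', ∑ x, rem p z0 u t t' x * D u t t' x ^ 2 +
      ∑ u, ∑ t, ∑ t', ∑ x, st z0 u t t' x * ((p u + p t + p t' + p x) / 2) * D u t t' x ^ 2 =
      (∑ u, ∑ t, ∑ t', ∑ x, kap p z0 (u, t) * D u t t' x ^ 2 +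
        ∑ u, ∑ t, ∑ t', ∑ x, kap p z0 (t', x) * D u t t' x ^ 2) / 2 := by
    simp only [← sum_add_distrib, sum_div, rem]
    exact sum_congr rfl fun _ _ => sum_congr rfl fun _ _ => sum_congr rfl fun _ _ =>
      sum_congr rfl fun _ _ => by ring
  rw [hd z0 z1, hd z0 z0, hd z1 z1, h2 z0 z1]
  simp only [cr, cr2, Lin2, hD]
  simp only [od] at a d
  simp only [od] at c
  linarith

end Pool.Agent.MP_b746ed_mp.LD
end

section
set_option autoImplicit false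
set_option linter.unusedSectionVars false
open scoped ComplexOrder MatrixOrder
open Matrix

namespace Pool.Agent.MP_b746ed_mp.LD
open KF
open H14 (trf dg)

namespace LL4

noncomputable def aa (p r s : ℝ) : ℝ :=
  199 / 50 * (1 - (1 - p - r + 5 / 2 * s * (p + r)) * (p + r)) - 4 / 3 * (1 - p - r)

noncomputable def bb (p r s : ℝ) : ℝ :=
  -(199 / 100) * (1 - p - r + 5 / 2 * s * (p + r)) * (p - r)

noncomputable def cc (p r s l : ℝ) : ℝ :=
  199 / 200 * (1 - p - r + (1 - 5 / 2 * s) * (p - r) ^ 2) - (1 - p - r) / 3 - 2 / 3 * l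

noncomputable def nn (p r s l : ℝ) : ℝ :=
  199 / 200 * (2 - 4 * s - 8 / 5 * (1 - 5 / 2 * s) * (1 - p - r)) - 2 / 3 * (p + s) - l / 3

theorem a1 (p r : ℝ) (hu : 0 ≤ 1 - p - 2 * r) (hv : 0 ≤ p - r)
    (hw : 0 ≤ r) :
    0 ≤ aa p r r - 1 := by
  have h : ∀ u v w : ℝ, 0 ≤ u → 0 ≤ v → 0 ≤ w → 0 ≤ 1 / 300 * (
    494 * u ^ 3 + 688 * u ^ 2 * v + 2858 * u ^ 2 * w + 1088 * u * v ^ 2 +
    5728 * u * v * w + 8586 * u * w ^ 2 + 894 * v ^ 3 + 3467 * v ^ 2 * w +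
    3828 * v * w ^ 2 + 1434 * w ^ 3) := by
    intro u v w _ _ _
    positivity
  refine (h _ _ _ hu hv hw).trans_eq ?_
  unfold aa
  ring

theorem d10 (p r : ℝ) (hu : 0 ≤ 1 - p - 2 * r) (hv : 0 ≤ p - r)
    (hw : 0 ≤ r) :
    0 ≤ aa p r r * cc p r r 0 - bb p r r ^ 2 := by
  have h : ∀ u v w : ℝ, 0 ≤ u → 0 ≤ v → 0 ≤ w → 0 ≤ 1 / 360000 * (
    630436 * u ^ 5 + 1891308 * u ^ 4 * v + 6934796 * u ^ 4 * w + 2361744 * u ^ 3 * v ^ 2 +
    18922608 * u ^ 3 * v * w + 32792200 * u ^ 3 * w ^ 2 + 2996944 * u ^ 2 * v ^ 3 +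
    18444972 * u ^ 2 * v ^ 2 * w + 66257712 * u ^ 2 * v * w ^ 2 +
    73803888 * u ^ 2 * w ^ 3 + 3321708 * u * v ^ 4 + 11204504 * u * v ^ 3 * w +
    28835184 * u * v ^ 2 * w ^ 2 + 85208904 * u * v * w ^ 3 + 70026036 * u * w ^ 4 +
    1425636 * v ^ 5 + 427344 * v ^ 4 * w + 42472 * v ^ 3 * w ^ 2 +
    2934324 * v ^ 2 * w ^ 3 + 28692492 * v * w ^ 4 + 22709988 * w ^ 5 +
    270000 * v ^ 2 * w * (4 * v - 3 * w) ^ 2 + 810000 * v * w ^ 2 * (2 * v - 3 * w) ^ 2) := by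
    intro u v w _ _ _
    positivity
  refine (h _ _ _ hu hv hw).trans_eq ?_
  unfold aa bb cc
  ring

theorem n10 (p r : ℝ) (hu : 0 ≤ 1 - p - 2 * r) (hv : 0 ≤ p - r)
    (hw : 0 ≤ r) :
    0 ≤ nn p r r 0 := by
  have h : ∀ u v w : ℝ, 0 ≤ u → 0 ≤ v → 0 ≤ w → 0 ≤ 1 / 600 * (
    1194 / 5 * u ^ 2 + 5164 / 5 * u * v + 12716 / 5 * u * w + 794 * v ^ 2 +
    9104 / 5 * v * w + 3522 / 5 * w ^ 2) := by
    intro u v w _ _ _
    positivity
  refine (h _ _ _ hu hv hw).trans_eq ?_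
  unfold nn
  ring

theorem d11 (p r : ℝ) (hu : 0 ≤ 1 - p - 2 * r) (hv : 0 ≤ p - r)
    (hw : 0 ≤ r) :
    0 ≤ aa p r r * cc p r r (1 - 5 * (1 - p)) - bb p r r ^ 2 := by
  have h : ∀ u v w : ℝ, 0 ≤ u → 0 ≤ v → 0 ≤ w → 0 ≤ 1 / 360000 * (
    3171236 * u ^ 5 + 8878508 * u ^ 4 * v + 36789196 * u ^ 4 * w +
    11899344 * u ^ 3 * v ^ 2 + 94549808 * u ^ 3 * v * w + 184008200 * u ^ 3 * w ^ 2 +
    10318544 * u ^ 2 * v ^ 3 + 95739372 * u ^ 2 * v ^ 2 * w +
    358083312 * u ^ 2 * v * w ^ 2 + 451314288 * u ^ 2 * w ^ 3 + 4596908 * u * v ^ 4 +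
    41613304 * u * v ^ 3 * w + 206859984 * u * v ^ 2 * w ^ 2 + 529741704 * u * v * w ^ 3 +
    495267636 * u * w ^ 4 + 470436 * v ^ 5 + 3634544 * v ^ 4 * w +
    27053672 * v ^ 3 * w ^ 2 + 129792324 * v ^ 2 * w ^ 3 + 266881692 * v * w ^ 4 +
    182881188 * w ^ 5) := by
    intro u v w _ _ _
    positivity
  refine (h _ _ _ hu hv hw).trans_eq ?_
  unfold aa bb cc
  ring

theorem n11 (p r : ℝ) (hu : 0 ≤ 1 - p - 2 * r) (hv : 0 ≤ p - r)
    (hw : 0 ≤ r) :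
    0 ≤ nn p r r (1 - 5 * (1 - p)) := by
  have h : ∀ u v w : ℝ, 0 ≤ u → 0 ≤ v → 0 ≤ w → 0 ≤ 1 / 600 * (
    5194 / 5 * u ^ 2 + 8164 / 5 * u * v + 31716 / 5 * u * w + 594 * v ^ 2 +
    13104 / 5 * v * w + 24522 / 5 * w ^ 2) := by
    intro u v w _ _ _
    positivity
  refine (h _ _ _ hu hv hw).trans_eq ?_
  unfold nn
  ring

theorem a2 (p r : ℝ) (hu : 0 ≤ p + 2 * r - 1) (hv : 0 ≤ p - r)
    (hw : 0 ≤ 1 - p - r) :
    0 ≤ aa p r (1 - p - r) - 1 := by
  have h : ∀ u v w : ℝ, 0 ≤ u → 0 ≤ v → 0 ≤ w → 0 ≤ 1 / 300 * (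
    7152 * u ^ 3 + 10728 * u ^ 2 * v + 13868 * u ^ 2 * w + 5364 * u * v ^ 2 +
    13868 * u * v * w + 7656 * u * w ^ 2 + 894 * v ^ 3 + 3467 * v ^ 2 * w +
    3828 * v * w ^ 2 + 1434 * w ^ 3) := by
    intro u v w _ _ _
    positivity
  refine (h _ _ _ hu hv hw).trans_eq ?_
  unfold aa
  ring

theorem d20 (p r : ℝ) (hu : 0 ≤ p + 2 * r - 1) (hv : 0 ≤ p - r)
    (hw : 0 ≤ 1 - p - r) :
    0 ≤ aa p r (1 - p - r) * cc p r (1 - p - r) 0 - bb p r (1 - p - r) ^ 2 := by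
  have h : ∀ u v w : ℝ, 0 ≤ u → 0 ≤ v → 0 ≤ w → 0 ≤ 1 / 360000 * (
    15168576 * u ^ 4 * w + 11405088 * u ^ 3 * v ^ 2 + 30337152 * u ^ 3 * v * w +
    61925648 * u ^ 3 * w ^ 2 + 17107632 * u ^ 2 * v ^ 3 + 37950096 * u ^ 2 * v ^ 2 * w +
    92888472 * u ^ 2 * v * w ^ 2 + 96642504 * u ^ 2 * w ^ 3 + 8553816 * u * v ^ 4 +
    22781520 * u * v ^ 3 * w + 24567768 * u * v ^ 2 * w ^ 2 + 96642504 * u * v * w ^ 3 +
    71964984 * u * w ^ 4 + 1425636 * v ^ 5 + 427344 * v ^ 4 * w + 42472 * v ^ 3 * w ^ 2 +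
    2934324 * v ^ 2 * w ^ 3 + 28692492 * v * w ^ 4 + 22709988 * w ^ 5 +
    270000 * v ^ 2 * w * (4 * v - 3 * w) ^ 2 + 810000 * v * w ^ 2 * (2 * v - 3 * w) ^ 2) := by
    intro u v w _ _ _
    positivity
  refine (h _ _ _ hu hv hw).trans_eq ?_
  unfold aa bb cc
  ring

theorem n20 (p r : ℝ) (hu : 0 ≤ p + 2 * r - 1) (hv : 0 ≤ p - r)
    (hw : 0 ≤ 1 - p - r) :
    0 ≤ nn p r (1 - p - r) 0 := by
  have h : ∀ u v w : ℝ, 0 ≤ u → 0 ≤ v → 0 ≤ w → 0 ≤ 1 / 600 * (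
    3976 * u ^ 2 + 3576 * u * v + 24208 / 5 * u * w + 794 * v ^ 2 + 9104 / 5 * v * w +
    3522 / 5 * w ^ 2) := by
    intro u v w _ _ _
    positivity
  refine (h _ _ _ hu hv hw).trans_eq ?_
  unfold nn
  ring

theorem d21 (p r : ℝ) (hu : 0 ≤ p + 2 * r - 1) (hv : 0 ≤ p - r)
    (hw : 0 ≤ 1 - p - r) :
    0 ≤ aa p r (1 - p - r) * cc p r (1 - p - r) (1 - 5 * (1 - p)) - bb p r (1 - p - r) ^ 2 := by
  have h : ∀ u v w : ℝ, 0 ≤ u → 0 ≤ v → 0 ≤ w → 0 ≤ 1 / 360000 * (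
    45849600 * u ^ 5 + 76416000 * u ^ 4 * v + 309331776 * u ^ 4 * w +
    49613088 * u ^ 3 * v ^ 2 + 462679552 * u ^ 3 * v * w + 790799248 * u ^ 3 * w ^ 2 +
    17107632 * u ^ 2 * v ^ 3 + 245218896 * u ^ 2 * v ^ 2 * w +
    942766872 * u ^ 2 * v * w ^ 2 + 995778504 * u ^ 2 * w ^ 3 + 3777816 * u * v ^ 4 +
    52875120 * u * v ^ 3 * w + 327790968 * u * v ^ 2 * w ^ 2 + 814506504 * u * v * w ^ 3 +
    648171384 * u * w ^ 4 + 470436 * v ^ 5 + 3634544 * v ^ 4 * w +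
    27053672 * v ^ 3 * w ^ 2 + 129792324 * v ^ 2 * w ^ 3 + 266881692 * v * w ^ 4 +
    182881188 * w ^ 5) := by
    intro u v w _ _ _
    positivity
  refine (h _ _ _ hu hv hw).trans_eq ?_
  unfold aa bb cc
  ring

theorem n21 (p r : ℝ) (hu : 0 ≤ p + 2 * r - 1) (hv : 0 ≤ p - r)
    (hw : 0 ≤ 1 - p - r) :
    0 ≤ nn p r (1 - p - r) (1 - 5 * (1 - p)) := by
  have h : ∀ u v w : ℝ, 0 ≤ u → 0 ≤ v → 0 ≤ w → 0 ≤ 1 / 600 * (
    5176 * u ^ 2 + 3776 * u * v + 47208 / 5 * u * w + 594 * v ^ 2 + 13104 / 5 * v * w +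
    24522 / 5 * w ^ 2) := by
    intro u v w _ _ _
    positivity
  refine (h _ _ _ hu hv hw).trans_eq ?_
  unfold nn
  ring


theorem quad (a b c m d : ℝ) (ha : 0 ≤ a - 1) (hd : 0 ≤ a * c - b ^ 2) :
    0 ≤ a * m ^ 2 + 2 * b * m * d + c * d ^ 2 := by
  have h0 : 0 < a := by linarith
  have e : a * (a * m ^ 2 + 2 * b * m * d + c * d ^ 2) =
      (a * m + b * d) ^ 2 + (a * c - b ^ 2) * d ^ 2 := by ring
  refine le_of_mul_le_mul_left ?_ h0
  rw [mul_zero, e]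
  positivity

theorem sq_ge (s q N t z : ℝ) (hs : 0 ≤ s) (hs1 : s ≤ 1 / 3) (hq : 0 ≤ q) (hN : 0 ≤ N)
    (hz : z ^ 2 ≤ s * q * N) :
    (1 - 5 / 2 * s) * t ^ 2 - (1 - 5 / 2 * s) * (2 / 5) * q * N ≤ (t + z) ^ 2 := by
  rcases hs.eq_or_lt with rfl | h0
  · have hz0 : z = 0 := by
      have : z ^ 2 ≤ 0 := by simpa only [sq_nonpos_iff, zero_mul] using hz
      exact pow_eq_zero_iff (two_ne_zero) |>.1 (le_antisymm this (sq_nonneg z))
    subst hz0
    have := mul_nonneg hq hN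
    simp only [mul_zero, sub_zero, one_mul, add_zero]
    linarith only [this]
  · have e : 5 / 2 * s * ((t + z) ^ 2 -
        ((1 - 5 / 2 * s) * t ^ 2 - (1 - 5 / 2 * s) * (2 / 5) * q * N)) =
        (5 / 2 * s * t + z) ^ 2 + (1 - 5 / 2 * s) * (s * q * N - z ^ 2) := by ring
    have h1 : 0 ≤ (1 - 5 / 2 * s) * (s * q * N - z ^ 2) := mul_nonneg (by linarith only [hs1]) (by linarith only [hz])
    have h2 : 0 < 5 / 2 * s := by positivity
    refine sub_nonneg.1 (le_of_mul_le_mul_left ?_ h2)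
    rw [mul_zero, e]
    positivity

theorem core (p r s l x y N M z : ℝ) (hs : 0 ≤ s) (hsr : s ≤ r) (hsq : s ≤ 1 - p - r)
    (hrp : r ≤ p) (hl : 0 ≤ l) (hN : 0 ≤ N) (hM : M ≤ s * N) (hz : z ^ 2 ≤ s * (1 - p - r) * N)
    (ha : 0 ≤ aa p r s - 1) (hd : 0 ≤ aa p r s * cc p r s l - bb p r s ^ 2)
    (hn : 0 ≤ nn p r s l) :
    2 / 3 * (1 - p - r) * (x ^ 2 + y ^ 2) + (2 / 3 * (p + s) + l / 3) * N +
        2 / 3 * l * (p + r) ^ 2 * (x - y) ^ 2 ≤
      199 / 200 * (2 * ((1 - 2 * p) * x ^ 2 + ((1 - 2 * r) * y ^ 2 + (N - 2 * M))) +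
        4 * (p * x + (r * y + z)) ^ 2) ∧
    2 / 9 * N ≤ 2 * ((1 - 2 * p) * x ^ 2 + ((1 - 2 * r) * y ^ 2 + (N - 2 * M))) +
        4 * (p * x + (r * y + z)) ^ 2 := by
  have hq : 0 ≤ 1 - p - r := hs.trans hsq
  have hs1 : s ≤ 1 / 3 := by linarith
  have h1 := sq_ge s (1 - p - r) N (p * x + r * y) z hs hs1 hq hN hz
  have h2 := quad _ _ _ ((x + y) / 2) (x - y) ha hd
  have h3 := mul_nonneg hn hN
  have e : aa p r s * ((x + y) / 2) ^ 2 + 2 * bb p r s * ((x + y) / 2) * (x - y) +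
      cc p r s l * (x - y) ^ 2 = 199 / 200 * (2 * (1 - 2 * p) * x ^ 2 + 2 * (1 - 2 * r) * y ^ 2 +
        4 * ((1 - 5 / 2 * s) * (p * x + r * y) ^ 2)) - 2 / 3 * ((1 - p - r) * (x ^ 2 + y ^ 2)) -
        2 / 3 * (l * (x - y) ^ 2) := by
    unfold aa bb cc
    ring
  rw [e] at h2
  rw [← add_assoc (p * x)]
  unfold nn at h3
  have h9 : l * (p + r) ^ 2 * (x - y) ^ 2 ≤ l * 1 * (x - y) ^ 2 :=
    mul_le_mul_of_nonneg_right (mul_le_mul_of_nonneg_left
      (pow_le_one₀ (by linarith only [hs, hsr, hrp]) (by linarith only [hs, hsq])) hl) (sq_nonneg _)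
  refine ⟨by linarith, ?_⟩
  have h4 : 0 ≤ (1 - p - r) * (x ^ 2 + y ^ 2) := by positivity
  have h5 : 0 ≤ l * (x - y) ^ 2 := by positivity
  have h6 : 0 ≤ (2 - 4 * s - 8 / 5 * (1 - 5 / 2 * s) * (1 - p - r) - 2 / 9) * N := by
    refine mul_nonneg ?_ hN
    have h7 : (1 - 5 / 2 * s) * (1 - p - r) ≤ (1 - 5 / 2 * s) * (1 - 2 * s) :=
      mul_le_mul_of_nonneg_left (by linarith only [hsr, hrp]) (by linarith only [hsr, hsq, hrp])
    have h8 : 0 ≤ s * (1 / 3 - s) := mul_nonneg hs (by linarith only [hsr, hsq, hrp])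
    linarith only [hs, h7, h8]
  linarith only [hM, h1, h2, h4, h5, h6]

end LL4

theorem t_LL4 : S_LL4 := by
  intro α _ _ p η z0 z1 ⟨⟨hp, h1⟩, hne, h0, hz1⟩
  have sp : ∀ f : α → ℝ, ∑ u, f u = f z0 + (f z1 + ∑ u ∈ Rs z0 z1, f u) := fun f => by
    rw [Rs, Finset.add_sum_erase _ f (Finset.mem_erase.2 ⟨hne.symm, Finset.mem_univ _⟩),
      Finset.add_sum_erase _ f (Finset.mem_univ _)]
  have hq : ∑ u ∈ Rs z0 z1, p u = 1 - p z0 - p z1 := by
    have := sp p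
    linarith
  have hq0 : 0 ≤ 1 - p z0 - p z1 := hq ▸ Finset.sum_nonneg fun u _ => hp u
  have hu : ∀ u ∈ Rs z0 z1, p u ≤ min (p z1) (1 - p z0 - p z1) := fun u hu =>
    le_min (hz1 u (Finset.mem_erase.1 (Finset.mem_erase.1 hu).2).1)
      (hq ▸ Finset.single_le_sum (fun u _ => hp u) hu)
  have hs : 0 ≤ min (p z1) (1 - p z0 - p z1) := le_min (hp z1) hq0
  have hM : ∑ u ∈ Rs z0 z1, p u * η u ^ 2 ≤
      min (p z1) (1 - p z0 - p z1) * ∑ u ∈ Rs z0 z1, η u ^ 2 := by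
    rw [Finset.mul_sum]
    exact Finset.sum_le_sum fun u h => mul_le_mul_of_nonneg_right (hu u h) (sq_nonneg _)
  have hz : (∑ u ∈ Rs z0 z1, p u * η u) ^ 2 ≤
      min (p z1) (1 - p z0 - p z1) * (1 - p z0 - p z1) * ∑ u ∈ Rs z0 z1, η u ^ 2 := by
    refine (Finset.sum_mul_sq_le_sq_mul_sq _ p η).trans (mul_le_mul_of_nonneg_right ?_
      (Finset.sum_nonneg fun u _ => sq_nonneg _))
    calc ∑ u ∈ Rs z0 z1, p u ^ 2 ≤ ∑ u ∈ Rs z0 z1, min (p z1) (1 - p z0 - p z1) * p u :=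
          Finset.sum_le_sum fun u h => by
            rw [sq]
            exact mul_le_mul_of_nonneg_right (hu u h) (hp u)
      _ = _ := by rw [← Finset.mul_sum, hq]
  have e : ∑ u ∈ Rs z0 z1, (1 - 2 * p u) * η u ^ 2 =
      ∑ u ∈ Rs z0 z1, η u ^ 2 - 2 * ∑ u ∈ Rs z0 z1, p u * η u ^ 2 := by
    rw [Finset.mul_sum, ← Finset.sum_sub_distrib]
    exact Finset.sum_congr rfl fun u _ => by ring
  rw [sp fun u => (1 - 2 * p u) * η u ^ 2, sp fun u => p u * η u, e]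
  have hv : 0 ≤ p z0 - p z1 := sub_nonneg.2 (h0 z1)
  refine LL4.core _ _ _ _ _ _ _ _ _ hs (min_le_left _ _) (min_le_right _ _) (h0 z1)
    (le_max_left _ _) (Finset.sum_nonneg fun u _ => sq_nonneg _) hM hz ?_ ?_ ?_
  all_goals
    rcases le_total (p z1) (1 - p z0 - p z1) with h | h
  · rw [min_eq_left h]
    exact LL4.a1 _ _ (by linarith) hv (hp z1)
  · rw [min_eq_right h]
    exact LL4.a2 _ _ (by linarith) hv hq0
  · rw [min_eq_left h]
    rcases max_choice 0 (1 - 5 * (1 - p z0)) with k | k <;> rw [lb, k]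
    exacts [LL4.d10 _ _ (by linarith only [h]) hv (hp z1), LL4.d11 _ _ (by linarith) hv (hp z1)]
  · rw [min_eq_right h]
    rcases max_choice 0 (1 - 5 * (1 - p z0)) with k | k <;> rw [lb, k]
    exacts [LL4.d20 _ _ (by linarith) hv hq0, LL4.d21 _ _ (by linarith) hv hq0]
  · rw [min_eq_left h]
    rcases max_choice 0 (1 - 5 * (1 - p z0)) with k | k <;> rw [lb, k]
    exacts [LL4.n10 _ _ (by linarith) hv (hp z1), LL4.n11 _ _ (by linarith) hv (hp z1)]
  · rw [min_eq_right h]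
    rcases max_choice 0 (1 - 5 * (1 - p z0)) with k | k <;> rw [lb, k]
    exacts [LL4.n20 _ _ (by linarith) hv hq0, LL4.n21 _ _ (by linarith) hv hq0]

end Pool.Agent.MP_b746ed_mp.LD
end

section
set_option autoImplicit false
set_option linter.unusedSectionVars false
open scoped ComplexOrder MatrixOrder
open Matrix

namespace Pool.Agent.MP_b746ed_mp.LD
open KF
open H14 (trf dg)

namespace LLc
variable {α : Type} [Fintype α] [DecidableEq α]

theorem sym_le (T B w : α → α → ℝ) (hw : ∀ u t, 0 ≤ w u t) (hs : ∀ u t, w u t = w t u)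
    (h : ∀ u t, T u t + T t u ≤ B u t + B t u) :
    ∑ u, ∑ t, T u t * w u t ≤ ∑ u, ∑ t, B u t * w u t := by
  have e : ∀ F : α → α → ℝ, ∑ u, ∑ t, (F u t + F t u) * w u t = 2 * ∑ u, ∑ t, F u t * w u t := by
    intro F
    have : ∑ u, ∑ t, F t u * w u t = ∑ u, ∑ t, F u t * w u t := by
      rw [Finset.sum_comm]
      exact Finset.sum_congr rfl fun u _ => Finset.sum_congr rfl fun t _ => by rw [hs]
    simp only [add_mul, Finset.sum_add_distrib, this]
    ring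
  have : ∑ u, ∑ t, (T u t + T t u) * w u t ≤ ∑ u, ∑ t, (B u t + B t u) * w u t :=
    Finset.sum_le_sum fun u _ => Finset.sum_le_sum fun t _ =>
      mul_le_mul_of_nonneg_right (h u t) (hw u t)
  rw [e, e] at this
  linarith

theorem mem_Rs {z0 z1 u : α} : u ∈ Rs z0 z1 ↔ u ≠ z0 ∧ u ≠ z1 := by
  simp only [Rs, Finset.mem_erase, Finset.mem_univ, and_true]
  exact and_comm

/-- the second coordinates of generic pairs -/
def Nb (z0 z1 u : α) : Finset α := if u = z0 ∨ u = z1 then Rs z0 z1 else Finset.univ.erase u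

theorem sum_Gen {z0 z1 : α} (h01 : z0 ≠ z1) (f : α → α → ℝ) :
    ∑ q ∈ Gen z0 z1, f q.1 q.2 = ∑ u, ∑ x ∈ Nb z0 z1 u, f u x := by
  rw [Finset.sum_finset_product (Gen z0 z1) Finset.univ (Nb z0 z1) (f := fun q => f q.1 q.2)]
  rintro ⟨u, x⟩
  simp only [Gen, Nb, Finset.mem_filter, Finset.mem_univ, true_and, ne_eq, Prod.mk.injEq]
  split_ifs with h
  · rw [mem_Rs]
    rcases h with rfl | rfl
    · have := h01
      grind
    · have := h01
      grind
  · simp only [Finset.mem_erase, Finset.mem_univ, and_true]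
    grind

noncomputable def cc (p : α → ℝ) (z0 z1 u t : α) : ℝ :=
  ∑ x ∈ Nb z0 z1 u, p x * (p t + p x) - if t ∈ Nb z0 z1 u then 2 * p t ^ 3 else 0

theorem sum_ind (s : Finset α) (f : α → ℝ) : ∑ t ∈ s, f t = ∑ t, if t ∈ s then f t else 0 := by
  rw [Finset.sum_ite_mem, Finset.univ_inter]

theorem term1 (p : α → ℝ) {z0 z1 : α} (h01 : z0 ≠ z1) (w : α → α → ℝ) :
    ∑ q ∈ Gen z0 z1, p q.2 * (2 / 3 * (∑ t, (p t + p q.2) * w q.1 t - 2 * p q.2 ^ 2 * w q.1 q.2)) =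
      ∑ u, ∑ t, 2 / 3 * cc p z0 z1 u t * w u t := by
  rw [sum_Gen h01 fun u x => p x * (2 / 3 * (∑ t, (p t + p x) * w u t - 2 * p x ^ 2 * w u x))]
  refine Finset.sum_congr rfl fun u _ => ?_
  have e1 : ∑ t, 2 / 3 * cc p z0 z1 u t * w u t =
      ∑ t, ∑ x ∈ Nb z0 z1 u, 2 / 3 * (p x * (p t + p x)) * w u t -
        ∑ t, if t ∈ Nb z0 z1 u then 2 / 3 * (2 * p t ^ 3) * w u t else 0 := by
    rw [← Finset.sum_sub_distrib]
    refine Finset.sum_congr rfl fun t _ => ?_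
    rw [← Finset.sum_mul, ← Finset.mul_sum, cc]
    split_ifs <;> ring
  rw [e1, ← sum_ind, Finset.sum_comm, ← Finset.sum_sub_distrib]
  refine Finset.sum_congr rfl fun x _ => ?_
  have : ∑ t, 2 / 3 * (p x * (p t + p x)) * w u t = 2 / 3 * p x * ∑ t, (p t + p x) * w u t := by
    rw [Finset.mul_sum]
    exact Finset.sum_congr rfl fun t _ => by ring
  rw [this]
  ring

theorem row (z : α) (s : Finset α) (c : α → ℝ) (w : α → α → ℝ) :
    ∑ t ∈ s, c t * w z t = ∑ u, ∑ t, (if u = z ∧ t ∈ s then c t else 0) * w u t := by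
  symm
  rw [Finset.sum_eq_single z, sum_ind s]
  · exact Finset.sum_congr rfl fun t _ => by by_cases h : t ∈ s <;> simp [h]
  · intro u _ hu
    simp only [hu, false_and, ↓ reduceIte, zero_mul, Finset.sum_const_zero]
  · simp

theorem diag (c : α → ℝ) (w : α → α → ℝ) :
    ∑ u, c u * w u u = ∑ u, ∑ t, (if u = t then c u else 0) * w u t := by
  refine Finset.sum_congr rfl fun u _ => ?_
  simp only [ite_mul, zero_mul, Finset.sum_ite_eq, Finset.mem_univ, ↓ reduceIte]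

theorem pairs (z : α) (c : ℝ) (w : α → α → ℝ) :
    c * ∑ a ∈ Finset.univ.erase z, ∑ b ∈ (Finset.univ.erase z).erase a, w a b =
      ∑ u, ∑ t, (if u ≠ z ∧ t ≠ z ∧ u ≠ t then c else 0) * w u t := by
  rw [sum_ind, Finset.mul_sum]
  refine Finset.sum_congr rfl fun u _ => ?_
  by_cases hu : u = z
  · simp only [hu, Finset.mem_erase, ne_eq, not_true_eq_false, Finset.mem_univ, and_true, ↓ reduceIte, mul_zero, false_and, zero_mul, Finset.sum_const_zero]
  · rw [if_pos (by simp only [Finset.mem_erase, ne_eq, hu, not_false_eq_true, Finset.mem_univ, and_self]), sum_ind, Finset.mul_sum]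
    refine Finset.sum_congr rfl fun t _ => ?_
    by_cases h1 : t = z
    · simp only [h1, Finset.mem_erase, ne_eq, not_true_eq_false, Finset.mem_univ, and_true, and_false, ↓ reduceIte, mul_zero, false_and, zero_mul]
    · by_cases h2 : t = u
      · simp only [h2, Finset.mem_erase, ne_eq, not_true_eq_false, Finset.mem_univ, and_true, false_and, ↓ reduceIte, mul_zero, and_false, zero_mul]
      · simp only [Finset.mem_erase, ne_eq, h2, not_false_eq_true, h1, Finset.mem_univ, and_self, ↓ reduceIte, hu, Ne.symm h2]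

theorem split3 {z0 z1 : α} (h01 : z0 ≠ z1) (f : α → ℝ) :
    ∑ u, f u = f z0 + f z1 + ∑ u ∈ Rs z0 z1, f u := by
  rw [Rs, ← Finset.add_sum_erase _ _ (Finset.mem_univ z0),
    ← Finset.add_sum_erase _ _ (Finset.mem_erase.2 ⟨h01.symm, Finset.mem_univ z1⟩), add_assoc]

section
variable {p : α → ℝ} {z0 z1 : α}

theorem s_erase (hp : Prob p) (u : α) : ∑ x ∈ Finset.univ.erase u, p x = 1 - p u := by
  rw [← hp.2, ← Finset.add_sum_erase _ _ (Finset.mem_univ u)]; ring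

theorem s_erase2 (hp : Prob p) {u t : α} (h : u ≠ t) :
    ∑ x ∈ (Finset.univ.erase u).erase t, p x = 1 - p u - p t := by
  rw [← s_erase hp u, ← Finset.add_sum_erase _ _ (Finset.mem_erase.2 ⟨h.symm, Finset.mem_univ t⟩)]
  ring

theorem s_erase3 (hp : Prob p) (h01 : z0 ≠ z1) {t : α} (ht : t ∈ Rs z0 z1) :
    ∑ x ∈ (Rs z0 z1).erase t, p x = 1 - p z0 - p z1 - p t := by
  rw [← s_erase2 hp h01, ← Finset.add_sum_erase _ _ (show t ∈ (Finset.univ.erase z0).erase z1 from ht)]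
  simp only [Rs]
  ring

theorem two_le (hp : Prob p) {u t : α} (h : u ≠ t) : p u + p t ≤ 1 := by
  have := Finset.sum_nonneg fun x (_ : x ∈ (Finset.univ.erase u).erase t) => hp.1 x
  rw [s_erase2 hp h] at this
  linarith

theorem three_le (hp : Prob p) {a b c : α} (h1 : a ≠ b) (h2 : c ≠ a) (h3 : c ≠ b) :
    p a + p b + p c ≤ 1 := by
  have := Finset.sum_nonneg fun x (_ : x ∈ (Rs a b).erase c) => hp.1 x
  rw [s_erase3 hp h1 (mem_Rs.2 ⟨h2, h3⟩)] at this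
  linarith

theorem bnd (hp : Prob p) (s : Finset α) (t : α) (M : ℝ) (h : ∀ x ∈ s, p t + p x ≤ M) :
    ∑ x ∈ s, p x * (p t + p x) ≤ (∑ x ∈ s, p x) * M := by
  rw [Finset.sum_mul]
  exact Finset.sum_le_sum fun x hx => mul_le_mul_of_nonneg_left (h x hx) (hp.1 x)

theorem cc_in (hp : Prob p) {u t : α} (ht : t ∈ Nb z0 z1 u) (M : ℝ)
    (h : ∀ x ∈ (Nb z0 z1 u).erase t, p t + p x ≤ M) :
    cc p z0 z1 u t ≤ (∑ x ∈ (Nb z0 z1 u).erase t, p x) * M + 2 * p t ^ 2 * (1 - p t) := by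
  rw [cc, if_pos ht, ← Finset.add_sum_erase _ _ ht]
  have := bnd hp _ t M h
  linarith only [this]

theorem Nb_top {u : α} (h : u = z0 ∨ u = z1) : Nb z0 z1 u = Rs z0 z1 := if_pos h

theorem Nb_R {u : α} (h0 : u ≠ z0) (h1 : u ≠ z1) : Nb z0 z1 u = Finset.univ.erase u :=
  if_neg (by tauto)

theorem cc_top (hp : Prob p) (h01 : z0 ≠ z1) {u t : α} (hu : u = z0 ∨ u = z1)
    (ht : t = z0 ∨ t = z1) : cc p z0 z1 u t ≤ 1 - p z0 - p z1 := by
  have hn : t ∉ Rs z0 z1 := by rw [mem_Rs]; tauto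
  rw [cc, Nb_top hu, if_neg hn]
  have := bnd hp (Rs z0 z1) t 1 fun x hx => two_le hp (by rintro rfl; exact hn hx)
  rw [Rs, s_erase2 hp h01] at this
  rw [Rs]
  linarith

theorem cc_topR (hs : Srt p z0 z1) {u t : α} (hu : u = z0 ∨ u = z1) (ht : t ∈ Rs z0 z1) (M : ℝ)
    (h : ∀ x ∈ Rs z0 z1, x ≠ t → p t + p x ≤ M) :
    cc p z0 z1 u t ≤ (1 - p z0 - p z1 - p t) * M + 2 * p t ^ 2 := by
  have h1 := cc_in hs.1 (z0 := z0) (z1 := z1) (u := u) (t := t) (by rwa [Nb_top hu]) M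
    (by rw [Nb_top hu]; exact fun x hx => h x (Finset.mem_of_mem_erase hx) (Finset.ne_of_mem_erase hx))
  rw [Nb_top hu, s_erase3 hs.1 hs.2.1 ht] at h1
  linarith only [mul_nonneg (sq_nonneg (p t)) (hs.1.1 t), h1]

theorem cc_R (hs : Srt p z0 z1) {u t : α} (h0 : u ≠ z0) (h1 : u ≠ z1) (ht : u ≠ t) (M : ℝ)
    (h : ∀ x, x ≠ t → p t + p x ≤ M) :
    cc p z0 z1 u t ≤ (1 - p u - p t) * M + 2 * p t ^ 2 * (1 - p t) := by
  have h2 := cc_in hs.1 (z0 := z0) (z1 := z1) (u := u) (t := t)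
    (by rw [Nb_R h0 h1]; simp only [Finset.mem_erase, ne_eq, ht.symm, not_false_eq_true, Finset.mem_univ, and_self]) M (fun x hx => h x (Finset.ne_of_mem_erase hx))
  rwa [Nb_R h0 h1, s_erase2 hs.1 ht] at h2

theorem cc_diag (hs : Srt p z0 z1) {u : α} (h0 : u ≠ z0) (h1 : u ≠ z1) :
    cc p z0 z1 u u ≤ p z0 + min (p z1) (1 - p z0 - p z1) := by
  rw [cc, Nb_R h0 h1, if_neg (by simp only [Finset.mem_erase, ne_eq, not_true_eq_false, Finset.mem_univ, and_true, not_false_eq_true])]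
  have h2 := bnd hs.1 (Finset.univ.erase u) u (p u + p z0) fun x _ => by linarith [hs.2.2.1 x]
  rw [s_erase hs.1] at h2
  have h3 : p u ≤ min (p z1) (1 - p z0 - p z1) :=
    le_min (hs.2.2.2 u h0) (by linarith [three_le hs.1 hs.2.1 h0 h1])
  linarith only [mul_nonneg (hs.1.1 u) (add_nonneg (hs.1.1 u) (hs.1.1 z0)), h2, h3]

theorem free (a b c k : ℝ) (ha : 0 ≤ a) (hb : 0 ≤ b) (hac : a ≤ c) (hbc : b ≤ c) (hck : c ≤ k)
    (h : k = 1 - a - b) : k * (b + c) + 2 * b ^ 2 + (k * (a + c) + 2 * a ^ 2) ≤ 8 / 3 * k := by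
  have hk : 0 ≤ k := by linarith
  have h1 := mul_le_mul_of_nonneg_left (hac.trans hck) ha
  have h2 := mul_le_mul_of_nonneg_left (hbc.trans hck) hb
  have h3 := mul_le_mul_of_nonneg_left hck hk
  have h4 := mul_le_mul_of_nonneg_left (show 1 / 3 ≤ k by linarith) hk
  have h5 : k * (a + b) = k - k * k := by rw [show a + b = 1 - k by linarith only [h]]; ring
  linarith only [h1, h2, h3, h4, h5]

noncomputable def TT (p : α → ℝ) (z0 z1 u t : α) : ℝ :=
  2 / 3 * cc p z0 z1 u t +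
    (if u = z1 ∧ t ∈ Rs z0 z1 then
      2 / 3 * (p t + p z0) * (p z0 + p z1) + 4 / 9 * (1 - p z1 - p t) else 0) +
    if u ≠ z0 ∧ t ≠ z0 ∧ u ≠ t then 8 / 15 * p z0 else 0

theorem e0 (hs : Srt p z0 z1) {t : α} (h0 : t ≠ z0) (h1 : t ≠ z1) :
    TT p z0 z1 z0 t + TT p z0 z1 t z0 ≤ 199 / 50 * (1 - p z0 - p t) := by
  have a1 := cc_topR hs (Or.inl rfl) (mem_Rs.2 ⟨h0, h1⟩) (1 - p z0) fun x hx hxt => by
    linarith [three_le hs.1 h0 (a := t) (c := x) hxt (mem_Rs.1 hx).1]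
  have a2 := cc_R hs h0 h1 h0 1 fun x hx => two_le hs.1 hx.symm
  have b1 := three_le hs.1 hs.2.1 h0 h1
  have b2 := hs.2.2.2 t h0
  have b3 := hs.1.1 t
  have b4 := hs.1.1 z0
  have b5 := hs.1.1 z1
  have c1 : p t * p t ≤ (1 - p z0 - p t) * ((1 - p z0) / 2) :=
    mul_le_mul (by linarith) (by linarith) b3 (by linarith)
  have c2 : p z0 ^ 2 * (1 - p z0) ≤ p z0 ^ 2 * (2 * (1 - p z0 - p t)) :=
    mul_le_mul_of_nonneg_left (by linarith only [b1, b2]) (sq_nonneg _)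
  have c3 : (1 - p z0 - p t) * (4 * p z0 ^ 2 - 2 * p z0) ≤ (1 - p z0 - p t) * 2 :=
    mul_le_mul_of_nonneg_left (by nlinarith only [b1, b2, b3, b4]) (by linarith only [b1, b2, b3])
  have c4 : 0 ≤ p z1 * (1 - p z0) := mul_nonneg b5 (by linarith only [b1, b2, b3])
  simp only [TT, hs.2.1, h1, false_and, if_false, ne_eq, not_true, and_false]
  linarith only [a1, a2, b1, b2, b3, c1, c2, c3, c4]

theorem e1 (hs : Srt p z0 z1) {t : α} (h0 : t ≠ z0) (h1 : t ≠ z1) :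
    TT p z0 z1 z1 t + TT p z0 z1 t z1 ≤ 199 / 50 * (1 - p z1 - p t) := by
  have a1 := cc_topR hs (Or.inr rfl) (mem_Rs.2 ⟨h0, h1⟩) (p t + p z0) fun x _ _ => by
    linarith [hs.2.2.1 x]
  have a2 := cc_R hs h0 h1 h1 (p z1 + p z0) fun x _ => by linarith [hs.2.2.1 x]
  have b1 := three_le hs.1 hs.2.1 h0 h1
  have b3 := hs.1.1 t
  have b5 := hs.1.1 z1
  have b6 := hs.2.2.1 z1
  have c1 := free (p z1) (p t) (p z0) (1 - p z1 - p t) b5 b3 b6 (hs.2.2.1 t) (by linarith) rfl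
  have c2 : p z1 * (p t + p z0) ≤ p z1 * 1 := mul_le_mul_of_nonneg_left (by linarith only [b1, b5]) b5
  have c3 := mul_nonneg (sq_nonneg (p z1)) b5
  simp only [TT, mem_Rs, h0, h1, hs.2.1.symm, h1.symm, false_and, if_false, ne_eq,
    not_false_eq_true, and_self, if_true]
  linarith only [a1, a2, b1, b5, b6, c1, c2, c3]

theorem e2 (hs : Srt p z0 z1) {u t : α} (u0 : u ≠ z0) (u1 : u ≠ z1) (h0 : t ≠ z0) (h1 : t ≠ z1)
    (h : u ≠ t) : TT p z0 z1 u t + TT p z0 z1 t u ≤ 199 / 50 * (1 - p u - p t) := by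
  have a1 := cc_R hs u0 u1 h (p t + p z0) fun x _ => by linarith [hs.2.2.1 x]
  have a2 := cc_R hs h0 h1 h.symm (p u + p z0) fun x _ => by linarith [hs.2.2.1 x]
  have b1 := three_le hs.1 h u0.symm h0.symm
  have c1 := free (p u) (p t) (p z0) (1 - p u - p t) (hs.1.1 u) (hs.1.1 t) (hs.2.2.1 u)
    (hs.2.2.1 t) (by linarith) rfl
  have c2 := mul_nonneg (sq_nonneg (p u)) (hs.1.1 u)
  have c3 := mul_nonneg (sq_nonneg (p t)) (hs.1.1 t)
  have c4 := hs.1.1 z0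
  simp only [TT, u0, u1, h0, h1, h, h.symm, false_and, if_false, ne_eq,
    not_false_eq_true, and_self, if_true]
  linarith only [a1, a2, b1, c1, c2, c3, c4]

theorem e3 (hs : Srt p z0 z1) :
    TT p z0 z1 z0 z1 + TT p z0 z1 z1 z0 ≤ 199 / 50 * (1 - p z0 - p z1) := by
  have a1 := cc_top hs.1 hs.2.1 (Or.inl rfl) (Or.inr rfl)
  have a2 := cc_top hs.1 hs.2.1 (Or.inr rfl) (Or.inl rfl)
  have b := two_le hs.1 hs.2.1
  simp only [TT, mem_Rs, hs.2.1, false_and, if_false, ne_eq, not_true, and_false]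
  linarith

theorem edge (hs : Srt p z0 z1) {u t : α} (h : u ≠ t) :
    TT p z0 z1 u t + TT p z0 z1 t u ≤ 199 / 50 * (1 - p u - p t) := by
  by_cases u0 : u = z0
  · subst u0
    by_cases h1 : t = z1
    · subst h1; exact e3 hs
    · exact e0 hs h.symm h1
  by_cases h0 : t = z0
  · subst h0
    by_cases u1 : u = z1
    · subst u1; linarith [e3 hs]
    · linarith [e0 hs u0 u1]
  by_cases u1 : u = z1
  · subst u1; exact e1 hs h0 h.symm
  by_cases h1 : t = z1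
  · subst h1; linarith [e1 hs u0 u1]
  exact e2 hs u0 u1 h0 h1 h

noncomputable def dd (p : α → ℝ) (z0 z1 u : α) : ℝ :=
  if u ∈ Rs z0 z1 then 2 / 3 * (p z0 + min (p z1) (1 - p z0 - p z1)) else 2 / 3 * (1 - p z0 - p z1)

theorem vert (hs : Srt p z0 z1) (u : α) : TT p z0 z1 u u ≤ dd p z0 z1 u := by
  have : ¬(u = z1 ∧ u ∈ Rs z0 z1) := by rw [mem_Rs]; tauto
  rw [TT, if_neg this, if_neg (by simp), dd]
  split_ifs with h
  · linarith [cc_diag hs (mem_Rs.1 h).1 (mem_Rs.1 h).2]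
  · have h' : u = z0 ∨ u = z1 := by rw [mem_Rs] at h; tauto
    linarith [cc_top hs.1 hs.2.1 h' h']

theorem main1 (hs : Srt p z0 z1) (w : α → α → ℝ) (hw : ∀ u t, 0 ≤ w u t)
    (hy : ∀ u t, w u t = w t u) :
    ∑ q ∈ Gen z0 z1, p q.2 * (2 / 3 * (∑ t, (p t + p q.2) * w q.1 t - 2 * p q.2 ^ 2 * w q.1 q.2)) +
      (p z0 + p z1) * (2 / 3 * ∑ t ∈ Rs z0 z1, (p t + p z0) * w z1 t) +
      8 / 15 * p z0 * ∑ a ∈ Finset.univ.erase z0, ∑ b ∈ (Finset.univ.erase z0).erase a, w a b +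
      4 / 9 * ∑ t ∈ Rs z0 z1, (1 - p z1 - p t) * w z1 t ≤
    2 / 3 * (1 - p z0 - p z1) * (w z0 z0 + w z1 z1) +
      2 / 3 * (p z0 + min (p z1) (1 - p z0 - p z1)) * ∑ u ∈ Rs z0 z1, w u u +
      199 / 100 * (∑ u, ∑ t, (1 - p u - p t) * w u t - ∑ u, (1 - 2 * p u) * w u u) := by
  have key := sym_le (TT p z0 z1) (fun u t => (if u = t then
      dd p z0 z1 u - 199 / 100 * (1 - 2 * p u) else 0) + 199 / 100 * (1 - p u - p t)) w hw hy
    fun u t => by
      by_cases h : u = t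
      · subst h
        simp only [if_true]
        linarith [vert hs u]
      · simp only [h, Ne.symm h, if_false]
        linarith [edge hs h]
  have r := row z1 (Rs z0 z1)
    (fun t => 2 / 3 * (p t + p z0) * (p z0 + p z1) + 4 / 9 * (1 - p z1 - p t)) w
  have r2 : ∑ t ∈ Rs z0 z1, (2 / 3 * (p t + p z0) * (p z0 + p z1) + 4 / 9 * (1 - p z1 - p t)) *
      w z1 t = (p z0 + p z1) * (2 / 3 * ∑ t ∈ Rs z0 z1, (p t + p z0) * w z1 t) +
        4 / 9 * ∑ t ∈ Rs z0 z1, (1 - p z1 - p t) * w z1 t := by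
    simp only [Finset.mul_sum, ← Finset.sum_add_distrib]
    exact Finset.sum_congr rfl fun t _ => by ring
  have d1 := diag (fun u => dd p z0 z1 u - 199 / 100 * (1 - 2 * p u)) w
  have d2 : ∑ u, (dd p z0 z1 u - 199 / 100 * (1 - 2 * p u)) * w u u =
      ∑ u, dd p z0 z1 u * w u u - 199 / 100 * ∑ u, (1 - 2 * p u) * w u u := by
    rw [Finset.mul_sum, ← Finset.sum_sub_distrib]
    exact Finset.sum_congr rfl fun t _ => by ring
  have d3 : ∑ u, dd p z0 z1 u * w u u = 2 / 3 * (1 - p z0 - p z1) * (w z0 z0 + w z1 z1) +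
      2 / 3 * (p z0 + min (p z1) (1 - p z0 - p z1)) * ∑ u ∈ Rs z0 z1, w u u := by
    rw [split3 hs.2.1, Finset.mul_sum, dd, dd, if_neg (by simp [mem_Rs]), if_neg (by simp [mem_Rs]),
      Finset.sum_congr rfl fun u hu => by rw [dd, if_pos hu]]
    ring
  have d4 : ∑ u, ∑ t, 199 / 100 * (1 - p u - p t) * w u t =
      199 / 100 * ∑ u, ∑ t, (1 - p u - p t) * w u t := by
    simp only [Finset.mul_sum, mul_assoc]
  simp only [TT, add_mul, Finset.sum_add_distrib] at key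
  rw [← term1 p hs.2.1, ← r, ← pairs, ← d1, r2, d2, d3, d4] at key
  linarith only [key]

theorem main2 (hs : Srt p z0 z1) (w : α → α → ℝ) (hw : ∀ u t, 0 ≤ w u t)
    (hy : ∀ u t, w u t = w t u) :
    2 / 9 * (1 - p z0) * (∑ u, ∑ t, w u t - 2 * w z0 z1 - ∑ u, w u u) ≤
      2 * (∑ u, ∑ t, (1 - p u - p t) * w u t - ∑ u, (1 - 2 * p u) * w u u) := by
  have b0 := hs.1.1 z0
  have aux : ∀ u t, u ≠ t → u ≠ z0 → ¬(u = z1 ∧ t = z0) →
      2 / 9 * (1 - p z0) ≤ 2 * (1 - p u - p t) := by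
    intro u t h u0 h1
    by_cases t0 : t = z0
    · subst t0
      have := three_le hs.1 hs.2.1 u0 (by tauto)
      linarith [hs.2.2.2 u u0, hs.1.1 u]
    · have := three_le hs.1 h (Ne.symm u0) (Ne.symm t0)
      linarith only [hs.2.2.1 u, hs.2.2.1 t, this]
  have key := sym_le (fun _ _ => 2 / 9 * (1 - p z0)) (fun u t => (if u = t then
      2 / 9 * (1 - p z0) - 2 * (1 - 2 * p u) else 0) + 2 * (1 - p u - p t) +
      if u = z0 ∧ t ∈ ({z1} : Finset α) then 4 / 9 * (1 - p z0) else 0) w hw hy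
    fun u t => by
      have h01 := hs.2.1
      have b1 := two_le hs.1 h01
      simp only [Finset.mem_singleton]
      by_cases h : u = t
      · subst h
        rw [if_pos rfl, if_neg (by rintro ⟨rfl, h⟩; exact h01 h)]
        linarith
      rw [if_neg h, if_neg (Ne.symm h)]
      by_cases h1 : u = z0 ∧ t = z1
      · rw [if_pos h1, if_neg (by rintro ⟨rfl, -⟩; exact h h1.1), h1.1, h1.2]
        linarith
      by_cases h2 : t = z0 ∧ u = z1
      · rw [if_neg h1, if_pos h2, h2.1, h2.2]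
        linarith
      rw [if_neg h1, if_neg h2]
      by_cases u0 : u = z0
      · linarith [aux t u (Ne.symm h) (by rintro rfl; exact h u0) (by tauto)]
      · linarith [aux u t h u0 (by tauto)]
  have r := row z0 {z1} (fun _ => 4 / 9 * (1 - p z0)) w
  have d1 := diag (fun u => 2 / 9 * (1 - p z0) - 2 * (1 - 2 * p u)) w
  have d2 : ∑ u, (2 / 9 * (1 - p z0) - 2 * (1 - 2 * p u)) * w u u =
      2 / 9 * (1 - p z0) * ∑ u, w u u - 2 * ∑ u, (1 - 2 * p u) * w u u := by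
    simp only [Finset.mul_sum, ← Finset.sum_sub_distrib]
    exact Finset.sum_congr rfl fun t _ => by ring
  have d4 : ∑ u, ∑ t, 2 * (1 - p u - p t) * w u t = 2 * ∑ u, ∑ t, (1 - p u - p t) * w u t := by
    simp only [Finset.mul_sum, mul_assoc]
  have d5 : ∑ u, ∑ t, 2 / 9 * (1 - p z0) * w u t = 2 / 9 * (1 - p z0) * ∑ u, ∑ t, w u t := by
    simp only [Finset.mul_sum]
  simp only [add_mul, Finset.sum_add_distrib] at key
  rw [← r, ← d1, d2, d4, d5, Finset.sum_singleton] at key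
  linarith only [key]

end
end LLc

theorem t_LLc (hLL4 : S_LL4) : S_LLc := by
  intro α A _ _ _ p y z0 z1 hs hy
  have hw : ∀ u t, 0 ≤ ww y u t := fun u t => Finset.sum_nonneg fun a _ => sq_nonneg _
  have hst : ∀ a u t, y a t u = star (y a u t) := fun a u t => by
    rw [← conjTranspose_apply, hy a]
  have hsy : ∀ u t, ww y u t = ww y t u := fun u t =>
    Finset.sum_congr rfl fun a _ => by rw [hst a u t, norm_star]
  obtain ⟨η, hη⟩ : ∃ η : A → α → ℝ, ∀ a u, y a u u = (η a u : ℂ) :=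
    ⟨fun a u => (y a u u).re, fun a u => (Complex.conj_eq_iff_re.1 (hst a u u).symm).symm⟩
  have w1 : ∀ u, ww y u u = ∑ a, η a u ^ 2 := fun u =>
    Finset.sum_congr rfl fun a _ => by rw [hη, Complex.norm_real, Real.norm_eq_abs, sq_abs]
  have w2 : De y z0 z1 = ∑ a, (η a z0 - η a z1) ^ 2 :=
    Finset.sum_congr rfl fun a _ => by
      rw [hη, hη, ← Complex.ofReal_sub, Complex.norm_real, Real.norm_eq_abs, sq_abs]
  have w3 : ∑ a, ‖∑ u, (p u : ℂ) * y a u u‖ ^ 2 = ∑ a, (∑ u, p u * η a u) ^ 2 :=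
    Finset.sum_congr rfl fun a _ => by
      simp only [hη, ← Complex.ofReal_mul, ← Complex.ofReal_sum]
      rw [Complex.norm_real, Real.norm_eq_abs, sq_abs]
  have w4 : ∑ u ∈ Rs z0 z1, ww y u u = ∑ a, ∑ u ∈ Rs z0 z1, η a u ^ 2 := by
    simp only [w1]; exact Finset.sum_comm
  have w5 : ∑ u, (1 - 2 * p u) * ww y u u = ∑ a, ∑ u, (1 - 2 * p u) * η a u ^ 2 := by
    simp only [w1, Finset.mul_sum]; exact Finset.sum_comm
  have s1 := Finset.sum_le_sum fun a (_ : a ∈ Finset.univ) => (hLL4 α p (η a) z0 z1 hs).1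
  have s2 := Finset.sum_le_sum fun a (_ : a ∈ Finset.univ) => (hLL4 α p (η a) z0 z1 hs).2
  simp only [Finset.sum_add_distrib, ← Finset.mul_sum] at s1 s2
  rw [← w1, ← w1, ← w2, ← w3, ← w4, ← w5] at s1
  rw [← w3, ← w4, ← w5] at s2
  have m1 := LLc.main1 hs (ww y) hw hsy
  have m2 := LLc.main2 hs (ww y) hw hsy
  rw [LLc.split3 hs.2.1 fun u => ww y u u] at m2
  have h4 : 0 ≤ p z0 * ∑ u ∈ Rs z0 z1, ww y u u :=
    mul_nonneg (hs.1.1 z0) (Finset.sum_nonneg fun u _ => hw u u)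
  constructor
  · simp only [ch, Lin2, AA]
    linarith
  · simp only [AA]
    linarith only [s2, m2, h4]

end Pool.Agent.MP_b746ed_mp.LD
end

section
set_option autoImplicit false
set_option linter.unusedSectionVars false
open scoped ComplexOrder MatrixOrder
open Matrix

namespace Pool.Agent.MP_b746ed_mp.LD
open KF
open H14 (trf dg)

namespace LLF
variable {α A : Type} [Fintype α] [DecidableEq α] [Fintype A]

theorem rr_symm (y : A → Matrix α α ℂ) (hy : ∀ a, (y a)ᴴ = y a) (u x : α) :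
    RR y u x = RR y x u := by
  unfold RR
  refine Finset.sum_congr rfl fun a _ => Finset.sum_congr rfl fun b _ => ?_
  have h : (y a * y b - y b * y a)ᴴ = -(y a * y b - y b * y a) := by
    rw [conjTranspose_sub, conjTranspose_mul, conjTranspose_mul, hy a, hy b, neg_sub]
  have h2 := congrFun (congrFun h u) x
  rw [conjTranspose_apply, Matrix.neg_apply] at h2
  rw [← norm_neg, ← h2, norm_star]

theorem ww_symm (y : A → Matrix α α ℂ) (hy : ∀ a, (y a)ᴴ = y a) (u x : α) :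
    ww y u x = ww y x u := by
  unfold ww
  refine Finset.sum_congr rfl fun a _ => ?_
  have h2 := congrFun (congrFun (hy a) u) x
  rw [conjTranspose_apply] at h2
  rw [← h2, norm_star]

theorem ww_nn (y : A → Matrix α α ℂ) (u x : α) : 0 ≤ ww y u x :=
  Finset.sum_nonneg fun _ _ => sq_nonneg _

theorem koff_eq (p : α → ℝ) (y : A → Matrix α α ℂ) (z0 z1 : α) (hz : z0 ≠ z1) :
    Koff p y = ∑ q ∈ Gen z0 z1, p q.2 * RR y q.1 q.2 + p z1 * RR y z0 z1 + p z0 * RR y z1 z0 := by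
  have h1 : Koff p y = ∑ q ∈ Finset.univ.filter (fun q : α × α => q.1 ≠ q.2),
      p q.2 * RR y q.1 q.2 := by
    unfold Koff
    rw [Finset.sum_filter, Fintype.sum_prod_type_right]
    refine Finset.sum_congr rfl fun x _ => ?_
    rw [← Finset.sum_filter]
    refine Finset.sum_congr ?_ fun _ _ => rfl
    ext u; simp only [Finset.mem_erase, ne_eq, Finset.mem_univ, and_true, Finset.mem_filter, true_and]
  have h2 : Finset.univ.filter (fun q : α × α => q.1 ≠ q.2)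
      = insert (z1, z0) (insert (z0, z1) (Gen z0 z1)) := by
    ext q
    simp only [Gen, Finset.mem_filter, Finset.mem_univ, true_and, Finset.mem_insert]
    constructor
    · intro h
      by_cases h1 : q = (z1, z0)
      · exact Or.inl h1
      by_cases h0 : q = (z0, z1)
      · exact Or.inr (Or.inl h0)
      exact Or.inr (Or.inr ⟨h, h0, h1⟩)
    · rintro (rfl | rfl | h)
      · exact hz.symm
      · exact hz
      · exact h.1
  rw [h1, h2, Finset.sum_insert, Finset.sum_insert]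
  · ring
  · simp only [Gen, ne_eq, Finset.mem_filter, Finset.mem_univ, not_true_eq_false, Prod.mk.injEq, not_and, false_and, and_false, not_false_eq_true]
  · simp only [Gen, ne_eq, Finset.mem_insert, Prod.mk.injEq, hz.symm, hz, and_self, Finset.mem_filter, Finset.mem_univ, not_false_eq_true, not_true_eq_false, and_false, or_self]

theorem four_le (y : A → Matrix α α ℂ) (z0 z1 : α) (hz : z0 ≠ z1) :
    ww y z0 z1 + ww y z1 z0 + ww y z0 z0 + ww y z1 z1 ≤ ∑ u, ∑ v, ww y u v := by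
  have h : ∀ f : α → ℝ, (∀ u, 0 ≤ f u) → f z0 + f z1 ≤ ∑ u, f u := fun f hf => by
    rw [← Finset.sum_pair hz]
    exact Finset.sum_le_sum_of_subset_of_nonneg (Finset.subset_univ _) fun u _ _ => hf u
  have h0 := h (ww y z0) (ww_nn y z0)
  have h1 := h (ww y z1) (ww_nn y z1)
  have h2 := h (fun u => ∑ v, ww y u v) fun u => Finset.sum_nonneg fun v _ => ww_nn y u v
  linarith

theorem w_le (p : α → ℝ) (y : A → Matrix α α ℂ) (hH : HOne p y) (z0 z1 : α) (hz : z0 ≠ z1) :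
    ww y z0 z1 ≤ (p z0 + p z1) / 3 := by
  have h := hH z1 (fun t => if t = z0 then 1 else 0)
  simp only [ite_mul, one_mul, zero_mul, Finset.sum_ite_eq', Finset.mem_univ, if_true,
    if_neg hz.symm, norm_zero, apply_ite (fun c : ℂ => ‖c‖ ^ 2), norm_one, one_pow, mul_ite,
    mul_one, ne_eq, OfNat.ofNat_ne_zero, not_false_eq_true, zero_pow, mul_zero] at h
  unfold ww
  linarith

theorem de_le (y : A → Matrix α α ℂ) (z0 z1 : α) :
    De y z0 z1 ≤ ww y z0 z0 + 2 * dn y (z0, z0) (z1, z1) + ww y z1 z1 := by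
  have h1 : De y z0 z1 = ww y z0 z0 - 2 * (Dm y (z0, z0) (z1, z1)).re + ww y z1 z1 := by
    unfold De ww Dm
    rw [Matrix.of_apply, Complex.re_sum, Finset.mul_sum, ← Finset.sum_sub_distrib,
      ← Finset.sum_add_distrib]
    refine Finset.sum_congr rfl fun a _ => ?_
    simp only [Complex.sq_norm, Complex.normSq_apply, Complex.sub_re, Complex.sub_im,
      Complex.mul_re, Complex.star_def, Complex.conj_re, Complex.conj_im]
    ring
  have h2 := (abs_le.1 (Complex.abs_re_le_norm (Dm y (z0, z0) (z1, z1)))).1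
  unfold dn
  linarith

theorem special (h p1 w D : ℝ) (h0 : 0 ≤ h) (hp : 0 ≤ p1) (h1 : p1 ≤ h) (h2 : p1 ≤ 1 - h)
    (hw : 0 ≤ w) (hD : 0 ≤ D) (hw3 : w ≤ (1 - h + p1) / 3) :
    2 * (1 - h + p1) * w * D ≤ 2 / 3 * max 0 (1 - 5 * h) * (1 - h + p1) ^ 2 * D
      + (2 * (6 * h - (h + p1) ^ 2) - h / 200) * w ^ 2 + (2 + 2 * h - h / 200) * (D ^ 2 / 4) := by
  have hwD := mul_nonneg hw hD
  have hs0 : 0 ≤ 1 - h + p1 := by linarith only [hp, h2]
  have hs1 : (1 - h + p1) * (w * D) ≤ 1 * (w * D) :=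
    mul_le_mul_of_nonneg_right (by linarith only [h1]) hwD
  have hq : (h + p1) ^ 2 ≤ (2 * h) ^ 2 := pow_le_pow_left₀ (by linarith only [h0, hp]) (by linarith only [h1]) 2
  rcases le_total h (1 / 5) with hc | hc
  · rw [max_eq_right (by linarith only [hc])]
    have k1 : 5 * h ≤ 6 * h - (h + p1) ^ 2 := by nlinarith only [h0, hq, hc]
    have k2 : (1 - 5 * h) * ((1 - h + p1) * D) * w
        ≤ (1 - 5 * h) * ((1 - h + p1) * D) * ((1 - h + p1) / 3) :=
      mul_le_mul_of_nonneg_left hw3 (mul_nonneg (by linarith only [hc]) (mul_nonneg hs0 hD))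
    have k3 : h * ((1 - h + p1) * (w * D)) ≤ h * (1 * (w * D)) := mul_le_mul_of_nonneg_left hs1 h0
    have k4 : 5 * h * w ^ 2 ≤ (6 * h - (h + p1) ^ 2) * w ^ 2 :=
      mul_le_mul_of_nonneg_right k1 (sq_nonneg w)
    have k5 : 10 * h * D ^ 2 ≤ 2 * D ^ 2 := mul_le_mul_of_nonneg_right (by linarith only [hc]) (sq_nonneg D)
    have k6 : 0 ≤ h * (3 * w - 5 / 3 * D) ^ 2 := mul_nonneg h0 (sq_nonneg _)
    have k7 : 0 ≤ h * w ^ 2 := mul_nonneg h0 (sq_nonneg _)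
    have k8 : 0 ≤ h * D ^ 2 := mul_nonneg h0 (sq_nonneg _)
    linarith
  · have k0 : 0 ≤ 2 / 3 * max 0 (1 - 5 * h) * (1 - h + p1) ^ 2 * D :=
      mul_nonneg (mul_nonneg (mul_nonneg (by norm_num) (le_max_left _ _)) (sq_nonneg _)) hD
    have k1 : 1 ≤ 6 * h - (h + p1) ^ 2 := by
      rcases le_total h (1 / 2) with h5 | h5
      · nlinarith only [hq, hc, h5]
      · nlinarith only [hp, h2, h5]
    have k2 : (199 / 100 : ℝ) * w ^ 2 ≤ (2 * (6 * h - (h + p1) ^ 2) - h / 200) * w ^ 2 :=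
      mul_le_mul_of_nonneg_right (by linarith only [hp, h2, k1]) (sq_nonneg w)
    have k3 : (239 / 100 : ℝ) * (D ^ 2 / 4) ≤ (2 + 2 * h - h / 200) * (D ^ 2 / 4) :=
      mul_le_mul_of_nonneg_right (by linarith only [hc]) (by positivity)
    linarith [sq_nonneg (4 / 3 * w - 3 / 4 * D), sq_nonneg w, sq_nonneg D]

theorem final (t T w a b : ℝ) (ht : 0 ≤ t) (hT : 2 / 3 * t ≤ T) (hs : 2 * w + a + b ≤ T) :
    min t (t ^ 2) / 54 ≤ 2 / 9 * (T - 2 * w - a - b) + (w ^ 2 + a ^ 2 + b ^ 2) := by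
  have h6 : (2 * w + a + b) ^ 2 ≤ 6 * (w ^ 2 + a ^ 2 + b ^ 2) := by
    linarith only [sq_nonneg (w - 2 * a), sq_nonneg (w - 2 * b), sq_nonneg (a - b)]
  rcases le_total (2 * w + a + b) (T / 2) with hc | hc
  · have := min_le_left t (t ^ 2)
    linarith [sq_nonneg (2 * w + a + b)]
  · have := min_le_right t (t ^ 2)
    have h7 : (t / 3) ^ 2 ≤ (2 * w + a + b) ^ 2 := pow_le_pow_left₀ (by linarith only [ht]) (by linarith) 2
    linarith

end LLF

theorem t_LLF (hLL12 : S_LL12) (hLLb : S_LLb) (hLLc : S_LLc) : S_LLF := by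
  intro α A _ _ _ p y z0 z1 t hS hy hH ht hT
  obtain ⟨h12a, h12b⟩ := hLL12 α A p y hy hH
  have hb := hLLb α A p y z0 z1 hS hy hH
  obtain ⟨hc1, hc2⟩ := hLLc α A p y z0 z1 hS hy
  obtain ⟨⟨hp0, hp1⟩, hz, hm0, -⟩ := hS
  have hsum : p z0 + p z1 ≤ 1 := by
    rw [← hp1, ← Finset.sum_pair hz]
    exact Finset.sum_le_sum_of_subset_of_nonneg (Finset.subset_univ _) fun u _ _ => hp0 u
  have hK := LLF.koff_eq p y z0 z1 hz
  rw [LLF.rr_symm y hy z0 z1] at hK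
  have hG : ∑ q ∈ Gen z0 z1, p q.2 * RR y q.1 q.2 ≤
      ∑ q ∈ Gen z0 z1, p q.2 * ch p y q.1 q.2 + ∑ q ∈ Gen z0 z1, p q.2 * cr y q.1 q.2 := by
    rw [← Finset.sum_add_distrib]
    refine Finset.sum_le_sum fun q _ => ?_
    rw [← mul_add]
    exact mul_le_mul_of_nonneg_left (h12a q.1 q.2) (hp0 _)
  have hR := mul_le_mul_of_nonneg_left (h12b z0 z1 hz) (add_nonneg (hp0 z0) (hp0 z1))
  have h4 := LLF.four_le y z0 z1 hz
  rw [LLF.ww_symm y hy z1 z0] at hR h4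
  have hDe0 : 0 ≤ De y z0 z1 := Finset.sum_nonneg fun _ _ => sq_nonneg _
  have hh : 0 ≤ 1 - p z0 := by linarith only [hp0 z1, hsum]
  have hsp := LLF.special (1 - p z0) (p z1) (ww y z0 z1) (De y z0 z1) hh (hp0 z1) (by linarith only [hsum])
    (by linarith only [hm0 z1]) (LLF.ww_nn y z0 z1) hDe0 (by linarith only [LLF.w_le p y hH z0 z1 hz])
  have hk : kap p z0 (z0, z1) = 6 * (1 - p z0) - (1 - p z0 + p z1) ^ 2 := by
    unfold kap
    rw [if_neg hz]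
    ring
  have hD2 : De y z0 z1 ^ 2 / 4 ≤
      ww y z0 z0 ^ 2 + 2 * dn y (z0, z0) (z1, z1) ^ 2 + ww y z1 z1 ^ 2 := by
    have h1 := pow_le_pow_left₀ hDe0 (LLF.de_le y z0 z1) 2
    linarith only [sq_nonneg (ww y z0 z0 - dn y (z0, z0) (z1, z1)), sq_nonneg (ww y z1 z1 - dn y (z0, z0) (z1, z1)), sq_nonneg (ww y z0 z0 - ww y z1 z1), h1]
  have hD3 := mul_le_mul_of_nonneg_left hD2
    (show 0 ≤ 2 + 2 * (1 - p z0) - (1 - p z0) / 200 by linarith only [hh])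
  have hf := mul_le_mul_of_nonneg_left (LLF.final t (∑ u, ∑ v, ww y u v) (ww y z0 z1) (ww y z0 z0)
    (ww y z1 z1) ht hT (by linarith only [h4])) hh
  have hd := mul_nonneg hh (sq_nonneg (dn y (z0, z0) (z1, z1)))
  rw [hk] at hb
  unfold lb at hc1
  generalize max 0 (1 - 5 * (1 - p z0)) = m at hc1 hsp
  linarith

end Pool.Agent.MP_b746ed_mp.LD
end

section
set_option autoImplicit false
set_option linter.unusedSectionVars false
open scoped ComplexOrder MatrixOrder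
open Matrix

namespace Pool.Agent.MP_b746ed_mp.LD
open KF
open H14 (trf dg)

namespace C4b
variable {α β A : Type} [Fintype α] [DecidableEq α] [Fintype β] [DecidableEq β] [Fintype A]

lemma ip_dg (f : β → ℝ) (x : β → ℂ) : (ip x (dg f *ᵥ x)).re = ∑ e, f e * ‖x e‖ ^ 2 := by
  rw [ip_eq, Complex.re_sum]
  refine Finset.sum_congr rfl fun e _ => ?_
  rw [dg, mulVec_diagonal, mul_left_comm, Complex.star_def, Complex.conj_mul',
    ← Complex.ofReal_pow, ← Complex.ofReal_mul, Complex.ofReal_re]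

lemma ip_op (v x : β → ℂ) : (ip x (op v v *ᵥ x)).re = ‖ip v x‖ ^ 2 := by
  rw [op_mulVec, ip_smul_right, ← star_ip v x, Complex.star_def, Complex.mul_conj',
    ← Complex.ofReal_pow, Complex.ofReal_re]

lemma Cs_eq (p : α → ℝ) : Cs p = dg (fun e => p e.1 + p e.2) -
    (2 : ℝ) • op (fun e => if e.1 = e.2 then (p e.1 : ℂ) else 0)
      fun e => if e.1 = e.2 then (p e.1 : ℂ) else 0 := by
  ext e e'
  simp only [Cs, dg, of_apply, Matrix.sub_apply, Matrix.smul_apply, diagonal_apply, op_apply,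
    ite_and, Complex.real_smul]
  split_ifs <;> simp only [mul_assoc, Complex.ofReal_sub, Complex.ofReal_add, Complex.ofReal_mul, Complex.ofReal_ofNat, RCLike.star_def, Complex.conj_ofReal, sub_zero, star_zero, mul_zero, zero_mul, zero_sub, Complex.ofReal_neg, sub_self, Complex.ofReal_zero]

lemma Cs_conj (p : α → ℝ) : (Cs p)ᴴ = Cs p := by
  rw [Cs_eq, conjTranspose_sub, H14.dg_conj, conjTranspose_smul, herm_of_nonneg (op_nonneg _),
    star_trivial]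

lemma quad (p : α → ℝ) (x : α × α → ℂ) : (ip x (Cs p *ᵥ x)).re =
    ∑ e : α × α, (p e.1 + p e.2) * ‖x e‖ ^ 2 - 2 * ‖∑ u, (p u : ℂ) * x (u, u)‖ ^ 2 := by
  rw [Cs_eq, sub_mulVec, ip_sub_right, Complex.sub_re, ip_dg, smul_mulVec, ← Complex.coe_smul,
    ip_smul_right, Complex.re_ofReal_mul, ip_op, ip_eq, Fintype.sum_prod_type (f := fun e => _ * x e)]
  simp only [apply_ite star, RCLike.star_def, Complex.conj_ofReal, star_zero, ite_mul, zero_mul, Finset.sum_ite_eq, Finset.mem_univ, ↓ reduceIte]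

lemma var_real {p : α → ℝ} (hp : Prob p) (η : α → ℝ) :
    2 * ∑ u, p u * η u ^ 2 - 2 * (∑ u, p u * η u) ^ 2 ≤ ∑ u, η u ^ 2 := by
  have h1 : ∑ u, ∑ v, -(2 * (p u * η u * (p v * η v))) ≤
      ∑ u, ∑ v, (p u * η u ^ 2 * p v + p u * (p v * η v ^ 2) -
        if u = v then 4 * p u ^ 2 * η u ^ 2 else 0) :=
    Finset.sum_le_sum fun u _ => Finset.sum_le_sum fun v _ => by
      split_ifs with h
      · rw [← h]; linarith
      · linarith [mul_nonneg (mul_nonneg (hp.1 u) (hp.1 v)) (sq_nonneg (η u + η v))]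
  have h2 : ∑ u, (4 * (p u * η u ^ 2) - 4 * p u ^ 2 * η u ^ 2) ≤ ∑ u, η u ^ 2 :=
    Finset.sum_le_sum fun u _ => by linarith [sq_nonneg ((1 - 2 * p u) * η u)]
  simp only [Finset.sum_sub_distrib, Finset.sum_add_distrib, Finset.sum_neg_distrib,
    ← Finset.mul_sum, ← Finset.sum_mul, hp.2, Finset.sum_ite_eq, Finset.mem_univ, if_true] at h1 h2
  linarith

lemma Cs_le {p : α → ℝ} (hp : Prob p) :
    Cs p ≤ dg fun e : α × α => if e.1 = e.2 then 1 else p e.1 + p e.2 := by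
  rw [le_iff_ip (Cs_conj p) (H14.dg_conj _)]
  intro x
  have h1 := var_real hp fun u => (x (u, u)).re
  have h2 := var_real hp fun u => (x (u, u)).im
  have h3 : ∀ z : ℂ, ‖z‖ ^ 2 = z.re ^ 2 + z.im ^ 2 := fun z => by
    rw [Complex.sq_norm, Complex.normSq_apply]; ring
  have h4 : ∑ e : α × α, (if e.1 = e.2 then 1 else p e.1 + p e.2) * ‖x e‖ ^ 2 =
      ∑ e : α × α, ((p e.1 + p e.2) * ‖x e‖ ^ 2 +
        if e.1 = e.2 then ‖x e‖ ^ 2 - 2 * (p e.1 * ‖x e‖ ^ 2) else 0) :=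
    Finset.sum_congr rfl fun e _ => by
      split_ifs with h
      · rw [← h]; ring
      · ring
  rw [quad, ip_dg, h4, Finset.sum_add_distrib, Fintype.sum_prod_type (f := fun e => ite _ _ _),
    h3 (∑ u, _), Complex.re_sum, Complex.im_sum]
  simp only [Finset.sum_ite_eq, Finset.mem_univ, if_true, Complex.re_ofReal_mul,
    Complex.im_ofReal_mul, Finset.sum_sub_distrib, ← Finset.mul_sum]
  simp only [h3 (x (_, _)), mul_add, Finset.sum_add_distrib]
  linarith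

lemma rt_dg {D : Matrix β β ℂ} (hD : Dᴴ = D) (f : β → ℝ) :
    rt (D * D * dg f) = ∑ e, f e * ∑ e', ‖D e e'‖ ^ 2 := by
  rw [rt_eq_sum]
  refine Finset.sum_congr rfl fun e _ => ?_
  rw [dg, mul_diagonal, Complex.re_mul_ofReal, mul_comm, Matrix.mul_apply, Complex.re_sum]
  refine congrArg _ (Finset.sum_congr rfl fun e' _ => ?_)
  rw [← hD, conjTranspose_apply _ e e', hD, Complex.star_def, Complex.mul_conj',
    ← Complex.ofReal_pow, Complex.ofReal_re]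

lemma Dm_eq (y : A → Matrix α α ℂ) :
    Dm y = ∑ a, op (fun e : α × α => y a e.1 e.2) fun e => y a e.1 e.2 := by
  ext e e'
  simp only [Dm, of_apply, Matrix.sum_apply, op_apply]

lemma RR_le {y : A → Matrix α α ℂ} (hy : ∀ a, (y a)ᴴ = y a) (x : α) :
    RR y x x ≤ ∑ e : α × α, (((if e.2 = x then 1 else 0) - if e.1 = x then 1 else 0) *
      ((if e.2 = x then 1 else 0) - if e.1 = x then 1 else 0)) * ∑ e', dn y e e' ^ 2 := by
  classical
  obtain ⟨a, ha⟩ : ∃ a : α × α → ℝ,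
    a = fun e => (if e.2 = x then 1 else 0) - if e.1 = x then 1 else 0 := ⟨_, rfl⟩
  obtain ⟨Y, hY⟩ : ∃ Y : Matrix (α × α) A ℂ, Y = Matrix.of fun e b => y b e.1 e.2 := ⟨_, rfl⟩
  have hD : Dm y = Y * Yᴴ := by rw [hY]; rfl
  have hD' : (Dm y)ᴴ = Dm y := by rw [hD, conjTranspose_mul, conjTranspose_conjTranspose]
  have h1 : RR y x x = hs (Yᴴ * (dg a * Y)) := by
    refine Finset.sum_congr rfl fun b _ => Finset.sum_congr rfl fun c _ => ?_
    congr 2
    have h : ∀ s t, star (y b s t) = y b t s := fun s t => by rw [← conjTranspose_apply, hy]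
    simp only [hY, ha, dg, Matrix.sub_apply, Matrix.mul_apply (N := y _),
      Matrix.mul_apply (M := conjTranspose _), diagonal_mul, conjTranspose_apply, of_apply, h,
      Fintype.sum_prod_type, Complex.ofReal_sub, sub_mul, mul_sub, Finset.sum_sub_distrib,
      apply_ite Complex.ofReal, Complex.ofReal_one, Complex.ofReal_zero, ite_mul, mul_ite, one_mul,
      zero_mul, mul_zero, Finset.sum_ite_eq', Finset.mem_univ, if_true]
    rw [Finset.sum_comm]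
    simp only [Finset.sum_ite_eq', Finset.mem_univ, if_true, mul_comm (y c _ _)]
  have h2 : hs (Yᴴ * (dg a * Y)) = rt (Dm y * dg a * (Dm y * dg a)) := by
    rw [hs_eq_rt, conjTranspose_mul, conjTranspose_mul, H14.dg_conj, conjTranspose_conjTranspose,
      ← Matrix.mul_assoc, ← Matrix.mul_assoc, rt_comm, hD]
    simp only [Matrix.mul_assoc]
  have h3 := (rt_le_norm _).trans (norm_trace_le (Dm y * dg a) (Dm y * dg a))
  rw [Real.mul_self_sqrt (hs_nonneg _), hs_eq_rt', conjTranspose_mul, H14.dg_conj, hD',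
    ← Matrix.mul_assoc _ (dg a) (Dm y), rt_comm _ (Dm y), Matrix.mul_assoc _ (dg a) (dg a),
    ← Matrix.mul_assoc (Dm y) (Dm y), H14.dg_mul, rt_dg hD', ← h2, ← h1, ha] at h3
  exact h3

end C4b

open C4b in
theorem t_C4b : S_C4b := by
  intro α A _ _ _ p z y hp hy
  have hp2 : ∀ u t, u ≠ t → p u + p t ≤ 1 := fun u t h => by
    rw [← hp.2, ← Finset.sum_pair h]
    exact Finset.sum_le_sum_of_subset_of_nonneg (Finset.subset_univ _) fun v _ _ => hp.1 v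
  have hD : 0 ≤ Dm y := Dm_eq y ▸ Finset.sum_nonneg fun a _ => op_nonneg _
  have hD' := herm_of_nonneg hD
  have h2 : ∑ u, ∑ t, ww y u t = rt (Dm y) := by
    simp only [rt_eq_sum, Fintype.sum_prod_type, Dm, of_apply, Complex.re_sum, ww,
      Complex.star_def, Complex.mul_conj', ← Complex.ofReal_pow, Complex.ofReal_re]
  refine ⟨(Cs_le hp).trans ?_, h2, ?_, fun h x c => ?_, ?_⟩
  · rw [le_iff_ip (H14.dg_conj _) conjTranspose_one]
    intro x
    rw [ip_dg, one_mulVec, ip_self_re]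
    refine Finset.sum_le_sum fun e _ => mul_le_of_le_one_left (sq_nonneg _) ?_
    split_ifs with h
    exacts [le_rfl, hp2 _ _ h]
  · have : ∑ u, ∑ t, (1 - p u - p t) * ww y u t =
        ∑ u, ∑ t, ww y u t - ∑ a, ∑ e : α × α, (p e.1 + p e.2) * ‖y a e.1 e.2‖ ^ 2 := by
      rw [Finset.sum_comm (s := (Finset.univ : Finset A)), Fintype.sum_prod_type]
      simp only [← Finset.sum_sub_distrib, ← Finset.mul_sum]
      exact Finset.sum_congr rfl fun u _ => Finset.sum_congr rfl fun t _ => by rw [ww]; ring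
    rw [AA, this, h2, rt_comm, ← tp_eq_rt]
    conv_rhs => rw [Dm_eq, tp_sum, ← Dm_eq]
    simp only [tp_op, quad, Finset.sum_sub_distrib, ← Finset.mul_sum]
    ring
  · have := (le_iff_ip (by rw [conjTranspose_smul, hD', star_trivial]) (Cs_conj p)).1 h
      fun e => if e.2 = x then star (c e.1) else 0
    rw [quad, smul_mulVec, ← Complex.coe_smul, ip_smul_right, Complex.re_ofReal_mul, Dm_eq,
      sum_mulVec, ip_sum_right, Complex.re_sum] at this
    simp only [ip_op] at this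
    simp only [ip_eq, Fintype.sum_prod_type, mul_ite, mul_zero, Finset.sum_ite_eq',
      Finset.mem_univ, if_true, apply_ite norm, norm_zero, ite_pow, ne_eq, OfNat.ofNat_ne_zero,
      not_false_eq_true, zero_pow, norm_star, norm_mul, Complex.norm_real, Real.norm_eq_abs,
      mul_pow, sq_abs, ← star_mul, ← star_sum] at this
    linarith only [this]
  · have h1 := tp_mono (A := Cs p) (P := Dm y * Dm y)
      (by simpa only [hD', Matrix.mul_one] using conj_nonneg one_nonneg (Dm y)) (Cs_le hp)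
    have h3 : rt (Dm y * Dm y) = ∑ e, ∑ e', dn y e e' ^ 2 := by
      have := hs_eq_rt (Dm y)
      rw [hD'] at this
      exact this.symm
    have h4 : ∑ x, ∑ u, p x * RR y u x = Koff p y + ∑ x, p x * RR y x x := by
      rw [Koff, ← Finset.sum_add_distrib]
      exact Finset.sum_congr rfl fun x _ => (Finset.sum_erase_add _ _ (Finset.mem_univ x)).symm
    have h5 := Finset.sum_le_sum fun x (_ : x ∈ Finset.univ) =>
      mul_le_mul_of_nonneg_left (RR_le hy x) (hp.1 x)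
    have h6 : QQ p z y + ∑ x, p x * ∑ e : α × α,
        (((if e.2 = x then 1 else 0) - if e.1 = x then 1 else 0) *
          ((if e.2 = x then 1 else 0) - if e.1 = x then 1 else 0)) * ∑ e', dn y e e' ^ 2 =
        (5 - 2 * p z) * ∑ e, ∑ e', dn y e e' ^ 2 -
          ∑ e : α × α, (p e.2 - p e.1) * (p e.2 - p e.1) * ∑ e', dn y e e' ^ 2 -
          ∑ e : α × α, (if e.1 = e.2 then 1 else p e.1 + p e.2) * ∑ e', dn y e e' ^ 2 := by
      rw [Finset.sum_congr rfl fun x _ => Finset.mul_sum _ _ (p x), QQ,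
        Finset.sum_comm (s := (Finset.univ : Finset α)), Finset.mul_sum,
        ← Finset.sum_add_distrib, ← Finset.sum_sub_distrib, ← Finset.sum_sub_distrib]
      refine Finset.sum_congr rfl fun e _ => ?_
      simp only [← mul_assoc, ← Finset.sum_mul, ← Finset.mul_sum, kap]
      by_cases h : e.1 = e.2
      · simp only [h, if_true, sub_self, mul_zero, Finset.sum_const_zero]
        ring
      · have : ∀ x, p x * ((if e.2 = x then 1 else 0) - if e.1 = x then 1 else 0) *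
            ((if e.2 = x then 1 else 0) - if e.1 = x then 1 else 0) =
            (if e.1 = x then p x else 0) + if e.2 = x then p x else 0 := fun x => by
          split_ifs with h1 h2
          exacts [absurd (h2.trans h1.symm) h, by ring, by ring, by ring]
        simp only [this, if_neg h, Finset.sum_add_distrib, Finset.sum_ite_eq, Finset.mem_univ,
          if_true]
        ring
    rw [tp_eq_rt, tp_eq_rt, rt_dg hD'] at h1
    rw [Matrix.mul_sub, Matrix.mul_sub, rt_sub, rt_sub, Matrix.mul_smul, Matrix.mul_one, rt_rsmul,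
      As, H14.dg_mul, rt_dg hD', h3, h4]
    simp only [dn] at h5 h6 ⊢
    linarith only [h1, h5, h6]

end Pool.Agent.MP_b746ed_mp.LD
end

section
set_option autoImplicit false
set_option linter.unusedSectionVars false
open scoped ComplexOrder MatrixOrder
open Matrix

namespace Pool.Agent.MP_b746ed_mp.LD
open KF
open H14 (trf dg)

namespace C1
variable {I α Ω : Type} [Fintype I] [DecidableEq I] [Fintype α] [DecidableEq α] [Fintype Ω]
  [DecidableEq Ω]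

lemma sq_ip_le (x y : Ω → ℂ) : ‖ip x y‖ ^ 2 ≤ nv x * nv y := by
  rw [nv_eq_ip, nv_eq_ip, ← Complex.normSq_eq_norm_sq]
  exact normSq_ip_le x y

lemma sum_nv (L : Matrix α α ℂ →⋆ₐ[ℂ] Matrix Ω Ω ℂ) (o : α) (φ : Ω → ℂ) :
    ∑ t, nv (L (eu o t) *ᵥ φ) = nv φ := by
  simp only [nv_eq_ip]
  rw [← Complex.re_sum, sum_ip_eu]

lemma ip_eu (L : Matrix α α ℂ →⋆ₐ[ℂ] Matrix Ω Ω ℂ) (s t : α) (φ χ : Ω → ℂ) :
    ip (L (eu s t) *ᵥ φ) χ = ip φ (L (eu t s) *ᵥ χ) := by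
  rw [ip_mulVec, L_conj, eu_conj]

lemma hs1 (L : Matrix α α ℂ →⋆ₐ[ℂ] Matrix Ω Ω ℂ) (o : α) (φ χ : Ω → ℂ) :
    ∑ x, ∑ y, ‖ip φ (L (eu y x) *ᵥ χ)‖ ^ 2 ≤ nv φ * nv χ := by
  rw [← sum_nv L o φ, ← sum_nv L o χ, Finset.sum_mul_sum, Finset.sum_comm]
  refine Finset.sum_le_sum fun y _ => Finset.sum_le_sum fun x _ => ?_
  refine le_of_eq_of_le ?_ (sq_ip_le _ _)
  rw [ip_eu, mulVec_mulVec, ← map_mul, eu_mul, if_pos rfl]

lemma hs2 (L L' : Matrix α α ℂ →⋆ₐ[ℂ] Matrix Ω Ω ℂ) (h : ∀ X Y, L X * L' Y = L' Y * L X) (o : α)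
    (φ χ : Ω → ℂ) :
    ∑ e : α × α, ∑ f : α × α, ‖ip φ (L (eu e.2 e.1) *ᵥ L' (eu f.1 f.2) *ᵥ χ)‖ ^ 2 ≤
      nv φ * nv χ := by
  have e : ∀ x y s t, ip φ (L (eu y x) *ᵥ L' (eu s t) *ᵥ χ) =
      ip (L' (eu o s) *ᵥ φ) (L (eu y x) *ᵥ L' (eu o t) *ᵥ χ) := by
    intro x y s t
    rw [ip_eu]
    simp only [mulVec_mulVec]
    rw [← mul_assoc, ← h, mul_assoc, ← map_mul, eu_mul, if_pos rfl]
  rw [Finset.sum_comm, ← sum_nv L' o φ, ← sum_nv L' o χ, Finset.sum_mul_sum,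
    Fintype.sum_prod_type]
  refine Finset.sum_le_sum fun s _ => Finset.sum_le_sum fun t _ => ?_
  rw [Fintype.sum_prod_type]
  simp only [e]
  exact hs1 L o _ _

lemma entry (L : I → (Matrix α α ℂ →⋆ₐ[ℂ] Matrix Ω Ω ℂ)) {ψ : Ω → ℂ} (h : ip ψ ψ = 1)
    (k l : I × α × α) : ((Wm L ψ)ᴴ * Wm L ψ) k l =
      ip ψ (L k.1 (eu k.2.2 k.2.1) *ᵥ L l.1 (eu l.2.1 l.2.2) *ᵥ ψ) -
        ip ψ (L k.1 (eu k.2.2 k.2.1) *ᵥ ψ) * ip ψ (L l.1 (eu l.2.1 l.2.2) *ᵥ ψ) := by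
  have e : ((Wm L ψ)ᴴ * Wm L ψ) k l = ip ((1 - op ψ ψ) *ᵥ (L k.1 (eu k.2.1 k.2.2) *ᵥ ψ))
      ((1 - op ψ ψ) *ᵥ (L l.1 (eu l.2.1 l.2.2) *ᵥ ψ)) := rfl
  rw [e, sub_mulVec, sub_mulVec, one_mulVec, one_mulVec, op_mulVec, op_mulVec, ip_sub_left,
    ip_sub_right, ip_sub_right, ip_smul_left, ip_smul_left, ip_smul_right, ip_smul_right, h,
    star_ip, ip_eu, ip_eu]
  ring

lemma four (a b c d : ℂ) :
    ‖a + b - c + d‖ ^ 2 ≤ 4 * (‖a‖ ^ 2 + ‖b‖ ^ 2 + ‖c‖ ^ 2 + ‖d‖ ^ 2) := by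
  have h : ‖a + b - c + d‖ ≤ ‖a‖ + ‖b‖ + ‖c‖ + ‖d‖ :=
    (norm_add_le _ _).trans (by
      gcongr
      exact (norm_sub_le _ _).trans (by gcongr; exact norm_add_le _ _))
  refine (pow_le_pow_left₀ (norm_nonneg _) h 2).trans ?_
  linarith only [sq_nonneg (‖a‖ - ‖b‖), sq_nonneg (‖a‖ - ‖c‖), sq_nonneg (‖a‖ - ‖d‖), sq_nonneg (‖b‖ - ‖c‖), sq_nonneg (‖b‖ - ‖d‖), sq_nonneg (‖c‖ - ‖d‖)]

lemma cross (L L' : Matrix α α ℂ →⋆ₐ[ℂ] Matrix Ω Ω ℂ) (h : ∀ X Y, L X * L' Y = L' Y * L X)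
    {ψ : Ω → ℂ} (hψ : nv ψ = 1) {p : α → ℝ} (hp : Prob p)
    (hm : ∀ s t, ip ψ (L' (eu s t) *ᵥ ψ) = if s = t then (p s : ℂ) else 0) (z : α) :
    ∑ e : α × α, ∑ f : α × α, ‖ip ψ (L (eu e.2 e.1) *ᵥ L' (eu f.1 f.2) *ᵥ ψ) -
      ip ψ (L (eu e.2 e.1) *ᵥ ψ) * ip ψ (L' (eu f.1 f.2) *ᵥ ψ)‖ ^ 2 ≤ 25 * (1 - p z) := by
  obtain ⟨ψ0, h0⟩ : ∃ ψ0, ψ0 = L' (eu z z) *ᵥ ψ := ⟨_, rfl⟩
  obtain ⟨ψ1, h1⟩ : ∃ ψ1, ψ1 = ψ - ψ0 := ⟨_, rfl⟩
  have hs : ψ = ψ0 + ψ1 := by rw [h1]; abel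
  have hi : ip ψ ψ = 1 := by rw [ip_self_nv, hψ, Complex.ofReal_one]
  have a0 : ip ψ ψ0 = p z := by rw [h0, hm, if_pos rfl]
  have b0 : ip ψ0 ψ = p z := by rw [h0, ip_eu, hm, if_pos rfl]
  have c0 : ip ψ0 ψ0 = p z := by
    rw [h0, ip_eu, mulVec_mulVec, ← map_mul, eu_mul, if_pos rfl, hm, if_pos rfl]
  have n0 : nv ψ0 = p z := by rw [nv_eq_ip, c0, Complex.ofReal_re]
  have n1 : nv ψ1 = 1 - p z := by
    rw [nv_eq_ip, h1, ip_sub_left, ip_sub_right, ip_sub_right, a0, b0, c0, hi]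
    simp
  have le1 : ∀ s, p s ≤ 1 := fun s =>
    hp.2 ▸ Finset.single_le_sum (fun x _ => hp.1 x) (Finset.mem_univ s)
  have hz := le1 z
  have hz0 := hp.1 z
  obtain ⟨δ, hδ⟩ : ∃ δ : α × α → ℂ, ∀ f, δ f = if f = (z, z) then 1 else 0 := ⟨_, fun _ => rfl⟩
  have key : ∀ (X : Matrix α α ℂ) (f : α × α), ip ψ (L X *ᵥ L' (eu f.1 f.2) *ᵥ ψ) -
      ip ψ (L X *ᵥ ψ) * ip ψ (L' (eu f.1 f.2) *ᵥ ψ) =
      ip ψ (L X *ᵥ L' (eu f.1 f.2) *ᵥ ψ1) + ip ψ1 (L X *ᵥ L' (eu f.1 f.2) *ᵥ ψ0) -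
        ip ψ (L X *ᵥ ψ1) * δ f + ip ψ (L X *ᵥ ψ) * (δ f - ip ψ (L' (eu f.1 f.2) *ᵥ ψ)) := by
    rintro X ⟨s, t⟩
    have e0 : ip ψ0 (L X *ᵥ L' (eu s t) *ᵥ ψ0) = ip ψ (L X *ᵥ ψ0) * δ (s, t) := by
      rw [h0, ip_eu, hδ]
      simp only [mulVec_mulVec]
      rw [← mul_assoc, ← h, mul_assoc, ← map_mul, ← map_mul, eu_mul]
      by_cases ht : t = z
      · by_cases hs : z = s
        · subst ht hs
          simp [eu_mul]
        · simp [ht, eu_mul, hs, Ne.symm hs, ip_zero_right]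
      · simp [ht, ip_zero_right]
    have e1 : ψ0 = ψ - ψ1 := by rw [h1]; abel
    have e2 : ip ψ (L X *ᵥ ψ0) = ip ψ (L X *ᵥ ψ) - ip ψ (L X *ᵥ ψ1) := by
      rw [e1, mulVec_sub, ip_sub_right]
    have e3 : ip ψ (L X *ᵥ L' (eu s t) *ᵥ ψ) = ip ψ (L X *ᵥ L' (eu s t) *ᵥ ψ1) +
        (ip ψ0 (L X *ᵥ L' (eu s t) *ᵥ ψ0) + ip ψ1 (L X *ᵥ L' (eu s t) *ᵥ ψ0)) := by
      rw [← ip_add_left, ← hs, ← ip_add_right, ← mulVec_add, ← mulVec_add, add_comm ψ1, ← hs]
    rw [e3, e0, e2]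
    ring
  have d1 : ∑ f, ‖δ f‖ ^ 2 = 1 := by
    rw [Finset.sum_eq_single (z, z)] <;> simp +contextual only [hδ, ↓ reduceIte, norm_one, one_pow, Finset.mem_univ, ne_eq, norm_zero, OfNat.ofNat_ne_zero, not_false_eq_true, zero_pow, implies_true, imp_self, not_true_eq_false, one_ne_zero]
  have d2 : ∑ f : α × α, ‖δ f - ip ψ (L' (eu f.1 f.2) *ᵥ ψ)‖ ^ 2 ≤ 2 * (1 - p z) := by
    have : ∀ s, ∑ t, ‖δ (s, t) - ip ψ (L' (eu s t) *ᵥ ψ)‖ ^ 2 ≤
        p s + if s = z then 1 - 2 * p z else 0 := by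
      intro s
      rw [Finset.sum_eq_single s, hδ, hm, if_pos rfl]
      · by_cases hs : s = z
        · rw [hs, if_pos rfl, if_pos rfl, ← Complex.ofReal_one, ← Complex.ofReal_sub,
            Complex.norm_real, Real.norm_eq_abs, sq_abs]
          nlinarith only [hz, hz0]
        · rw [if_neg (fun e => hs (congrArg Prod.fst e)), if_neg hs, zero_sub, norm_neg,
            Complex.norm_real, Real.norm_eq_abs, sq_abs]
          nlinarith only [le1 s, hp.1 s]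
      · intro t _ ht
        rw [hδ, hm, if_neg (Ne.symm ht), if_neg]
        · simp
        · intro e
          exact ht ((congrArg Prod.snd e).trans (congrArg Prod.fst e).symm)
      · simp only [Finset.mem_univ, not_true_eq_false, ne_eq, OfNat.ofNat_ne_zero, not_false_eq_true, pow_eq_zero_iff, norm_eq_zero, IsEmpty.forall_iff]
    rw [Fintype.sum_prod_type]
    refine (Finset.sum_le_sum fun s _ => this s).trans ?_
    rw [Finset.sum_add_distrib, hp.2, Finset.sum_ite_eq', if_pos (Finset.mem_univ _)]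
    linarith
  have t1 := hs2 L L' h z ψ ψ1
  have t2 := hs2 L L' h z ψ1 ψ0
  have t3 := hs1 L z ψ ψ1
  have t4 := hs1 L z ψ ψ
  rw [← Fintype.sum_prod_type'] at t3 t4
  rw [hψ, n1] at t1 t3
  rw [n1, n0] at t2
  rw [hψ] at t4
  simp only [key]
  refine (Finset.sum_le_sum fun e _ => Finset.sum_le_sum fun f _ => four _ _ _ _).trans ?_
  simp only [norm_mul, mul_pow, ← Finset.mul_sum, Finset.sum_add_distrib, ← Finset.sum_mul, d1]
  have t5 := mul_le_mul t4 d2 (Finset.sum_nonneg fun _ _ => by positivity) (by norm_num)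
  nlinarith only [hz, t1, t2, t3, t5]

end C1

theorem t_C1 : S_C1 := by
  intro I α Ω _ _ _ _ _ _ L ψ p hC hψ hp hm
  have hi : ip ψ ψ = 1 := by rw [ip_self_nv, hψ, Complex.ofReal_one]
  have m : ∀ i s t, ip ψ (L i (eu s t) *ᵥ ψ) = if s = t then (p i s : ℂ) else 0 := by
    intro i s t
    have := congrFun (congrFun (hm i) t) s
    rw [marg, of_apply, dg, diagonal_apply] at this
    rw [this]
    by_cases h : s = t
    · simp [h]
    · simp [h, Ne.symm h]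
  have q : ∀ i s t s' t', ip ψ (L i (eu t s) *ᵥ L i (eu s' t') *ᵥ ψ) =
      if s = s' ∧ t = t' then (p i t : ℂ) else 0 := by
    intro i s t s' t'
    rw [mulVec_mulVec, ← map_mul, eu_mul]
    by_cases h : s = s'
    · simp [h, m]
    · simp [h, ip_zero_right]
  refine ⟨⟨nonneg_def.2 (posSemidef_conjTranspose_mul_self _), ?_, fun i => ?_⟩,
    fun i j z hij => ?_⟩
  · ext ⟨i, s, t⟩ ⟨j, s', t'⟩
    rw [Matrix.sub_apply, bar, of_apply, C1.entry L hi, C1.entry L hi]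
    simp only [sw, star_sub, star_mul', star_ip, C1.ip_eu, am, dg, diagonal_apply, m]
    by_cases hij : i = j
    · subst hij
      rw [q, q]
      by_cases h1 : s = s' <;> by_cases h2 : t = t' <;> by_cases h3 : s = t <;>
        by_cases h4 : s' = t' <;> simp_all [eq_comm]
    · rw [mulVec_mulVec, mulVec_mulVec, hC i j hij]
      by_cases h3 : s = t <;> by_cases h4 : s' = t' <;> simp_all [eq_comm]
  · ext ⟨s, t⟩ ⟨s', t'⟩
    rw [Matrix.smul_apply, bk, of_apply, C1.entry L hi]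
    simp only [Matrix.add_apply, Cs, As, dg, of_apply, diagonal_apply, q, m]
    by_cases h1 : s = s' <;> by_cases h2 : t = t' <;> by_cases h3 : s = t <;>
      by_cases h4 : s' = t' <;> simp_all [eq_comm] <;> ring
  · simp only [hs, bk, of_apply, C1.entry L hi]
    exact C1.cross (L j) (L i) (hC j i hij.symm) hψ (hp i) (m i) z

end Pool.Agent.MP_b746ed_mp.LD
end

section
set_option autoImplicit false
set_option linter.unusedSectionVars false
open scoped ComplexOrder MatrixOrder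
open Matrix

namespace Pool.Agent.MP_b746ed_mp.LD
open KF
open H14 (trf dg)

namespace C3

variable {I α Ω A : Type} [Fintype I] [DecidableEq I] [Fintype α] [DecidableEq α] [Fintype Ω]
  [DecidableEq Ω] [Fintype A]

lemma L_eq (L : Matrix α α ℂ →⋆ₐ[ℂ] Matrix Ω Ω ℂ) (X : Matrix α α ℂ) :
    L X = ∑ s, ∑ t, X s t • L (eu s t) := by
  conv_lhs => rw [← one_mul X, ← sum_eu, Finset.sum_mul]
  simp only [eu_mul', map_sum, map_smul]

lemma two_re_le (x y : Ω → ℂ) : 2 * (ip x y).re ≤ nv x + nv y := by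
  have h := nv_nonneg (x + -y)
  rw [nv_add, nv_neg, ip_neg_right, Complex.neg_re] at h
  linarith

lemma swap_le (L : Matrix α α ℂ →⋆ₐ[ℂ] Matrix Ω Ω ℂ) (o : α) (w : α → Ω → ℂ) :
    ∑ s, ∑ t, (ip (w t) (L (eu s t) *ᵥ w s)).re ≤ ∑ t, nv (w t) := by
  have h1 : ∀ s t, 2 * (ip (w t) (L (eu s t) *ᵥ w s)).re ≤
      nv (L (eu o s) *ᵥ w t) + nv (L (eu o t) *ᵥ w s) := fun s t => by
    have : ip (w t) (L (eu s t) *ᵥ w s) = ip (L (eu o s) *ᵥ w t) (L (eu o t) *ᵥ w s) := by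
      rw [eu, L_op_eq L o, ← mulVec_mulVec, ip_mulVec (A := (L _)ᴴ), conjTranspose_conjTranspose]
      rfl
    rw [this]
    exact two_re_le _ _
  have h2 : ∀ v : Ω → ℂ, ∑ s, nv (L (eu o s) *ᵥ v) = nv v := fun v => by
    simp only [nv_eq_ip, ← Complex.re_sum, sum_ip_eu]
  have h3 := Finset.sum_le_sum fun s (_ : s ∈ Finset.univ) =>
    Finset.sum_le_sum fun t (_ : t ∈ Finset.univ) => h1 s t
  simp only [Finset.sum_add_distrib, ← Finset.mul_sum, h2] at h3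
  rw [Finset.sum_comm (f := fun s t => nv (L (eu o s) *ᵥ w t))] at h3
  simp only [h2] at h3
  linarith

lemma sum5 {M : Type} [AddCommMonoid M] (F : α → α → α → A → A → M) :
    ∑ x, ∑ s, ∑ t, ∑ a, ∑ b, F x s t a b = ∑ a, ∑ b, ∑ s, ∑ t, ∑ x, F x s t a b := by
  rw [Finset.sum_comm]
  conv_lhs => enter [2, s]; rw [Finset.sum_comm]
  conv_lhs => enter [2, s, 2, t]; rw [Finset.sum_comm]
  conv_lhs => enter [2, s, 2, t, 2, a]; rw [Finset.sum_comm]
  conv_lhs => enter [2, s]; rw [Finset.sum_comm]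
  conv_lhs => enter [2, s, 2, a]; rw [Finset.sum_comm]
  rw [Finset.sum_comm]
  conv_lhs => enter [2, a]; rw [Finset.sum_comm]

lemma gen (L : Matrix α α ℂ →⋆ₐ[ℂ] Matrix Ω Ω ℂ) (o : α) (Y : A → Matrix α α ℂ)
    (hY : ∀ a, (Y a)ᴴ = Y a) (φ : A → Ω → ℂ) :
    ∑ a, ∑ b, (ip (φ a) (L (Y b * Y a) *ᵥ φ b)).re ≤
      ∑ a, ∑ b, ((Y a * Y b).trace * ip (φ a) (φ b)).re := by
  have hs : ∀ a s t, star (Y a s t) = Y a t s := fun a s t => by
    rw [← conjTranspose_apply, hY]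
  have h := Finset.sum_le_sum fun x (_ : x ∈ Finset.univ) =>
    swap_le L o fun t => ∑ b, Y b t x • φ b
  refine le_trans (le_of_eq ?_) (h.trans (le_of_eq ?_))
  · simp only [← Complex.re_sum, ip_sum_left, mulVec_sum, mulVec_smul, ip_sum_right, ip_smul_left,
      ip_smul_right, hs, Finset.mul_sum]
    rw [sum5]
    congr 1
    conv_rhs => rw [Finset.sum_comm]
    refine Finset.sum_congr rfl fun a _ => Finset.sum_congr rfl fun b _ => ?_
    simp only [L_eq L (Y b * Y a), sum_mulVec, smul_mulVec, ip_sum_right, ip_smul_right,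
      Matrix.mul_apply, Finset.sum_mul]
    refine Finset.sum_congr rfl fun s _ => Finset.sum_congr rfl fun t _ =>
      Finset.sum_congr rfl fun x _ => by ring
  · simp only [nv_eq_ip, ← Complex.re_sum, ip_sum_left, ip_sum_right, ip_smul_left,
      ip_smul_right, hs, Finset.mul_sum, trace, diag_apply, Matrix.mul_apply, Finset.sum_mul]
    congr 1
    conv_lhs => enter [2, x]; rw [Finset.sum_comm]
    conv_lhs => enter [2, x, 2, a]; rw [Finset.sum_comm]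
    rw [Finset.sum_comm]
    conv_lhs => enter [2, a]; rw [Finset.sum_comm]
    rw [Finset.sum_comm]
    refine Finset.sum_congr rfl fun a _ => Finset.sum_congr rfl fun b _ =>
      Finset.sum_congr rfl fun x _ => Finset.sum_congr rfl fun t _ => by ring

lemma gen2 (L : Matrix α α ℂ →⋆ₐ[ℂ] Matrix Ω Ω ℂ) (o : α) (Y : A → Matrix α α ℂ)
    (hY : ∀ a, (Y a)ᴴ = Y a) (V : A → Matrix Ω Ω ℂ) (hV : ∀ a, (V a)ᴴ = V a)
    (hc : ∀ a X, V a * L X = L X * V a) (ψ : Ω → ℂ) :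
    2 * nv (∑ a, L (Y a) *ᵥ (V a *ᵥ ψ)) ≤
      2 * ∑ a, ∑ b, ((Y a * Y b).trace * ip (V a *ᵥ ψ) (V b *ᵥ ψ)).re +
      ∑ a, ∑ b, (ip ψ ((L (Y a * Y b - Y b * Y a) * (V a * V b - V b * V a)) *ᵥ ψ)).re := by
  have h := gen L o Y hY fun a => V a *ᵥ ψ
  have e : ∀ X a b, ip (V a *ᵥ ψ) (L X *ᵥ (V b *ᵥ ψ)) = ip ψ ((L X * (V a * V b)) *ᵥ ψ) :=
    fun X a b => by
      rw [← hV a, ← ip_mulVec, hV a, mulVec_mulVec, mulVec_mulVec, hc, mul_assoc]
  have e1 : nv (∑ a, L (Y a) *ᵥ (V a *ᵥ ψ)) =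
      ∑ a, ∑ b, (ip ψ ((L (Y a * Y b) * (V a * V b)) *ᵥ ψ)).re := by
    simp only [nv_eq_ip, ip_sum_left, ip_sum_right, Complex.re_sum, ← e]
    rw [Finset.sum_comm]
    refine Finset.sum_congr rfl fun a _ => Finset.sum_congr rfl fun b _ => ?_
    rw [map_mul, ← mulVec_mulVec, ip_mulVec (L (Y a)), L_conj, hY]
  simp only [e] at h
  simp only [map_sub, sub_mul, mul_sub, sub_mulVec, ip_sub_right, Complex.sub_re,
    Finset.sum_sub_distrib]
  have c1 := Finset.sum_comm (s := Finset.univ) (t := Finset.univ)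
    (f := fun a b => (ip ψ ((L (Y b * Y a) * (V b * V a)) *ᵥ ψ)).re)
  have c2 := Finset.sum_comm (s := Finset.univ) (t := Finset.univ)
    (f := fun a b => (ip ψ ((L (Y a * Y b) * (V b * V a)) *ᵥ ψ)).re)
  rw [e1]
  linarith

lemma site (L : Matrix α α ℂ →⋆ₐ[ℂ] Matrix Ω Ω ℂ) (o : α) (Y : A → Matrix α α ℂ)
    (hY : ∀ a, (Y a)ᴴ = Y a) (V : A → Matrix Ω Ω ℂ) (hV : ∀ a, (V a)ᴴ = V a)
    (hc : ∀ a X, V a * L X = L X * V a) (ψ : Ω → ℂ) (hψ : nv ψ = 1) (p : α → ℝ)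
    (hp : marg L ψ = dg p) (h0 : ∀ a, ip ψ (V a *ᵥ ψ) = 0) :
    4 * ∑ a, (ip (V a *ᵥ ψ) (L (Y a) *ᵥ ψ)).re -
      2 * ∑ a, ∑ b, ((Y a * Y b).trace * ip (V a *ᵥ ψ) (V b *ᵥ ψ)).re -
      ∑ a, ∑ b, (ip ψ ((L (Y a * Y b - Y b * Y a) * (V a * V b - V b * V a)) *ᵥ ψ)).re ≤
      2 * (1 - ∑ x, p x ^ 2) := by
  have h := gen2 L o (fun a : Option A => a.elim (dg p) Y)
    (fun a => by cases a <;> simp [hY, H14.dg_conj]) (fun a => a.elim 1 V)
    (fun a => by cases a <;> simp [hV]) (fun a X => by cases a <;> simp [hc]) ψ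
  have h0' : ∀ a, ip (V a *ᵥ ψ) ψ = 0 := fun a => by rw [← star_ip, h0, star_zero]
  have t : ((dg p * dg p).trace).re = ∑ x, p x ^ 2 := by
    simp only [dg, diagonal_mul_diagonal, trace_diagonal, Complex.re_sum, Complex.mul_re, Complex.ofReal_re, Complex.ofReal_im, mul_zero, sub_zero, sq]
  have h1 := two_re_le ψ (L (dg p) *ᵥ ψ + ∑ a, L (Y a) *ᵥ (V a *ᵥ ψ))
  have e : ∀ a, ip ψ (L (Y a) *ᵥ (V a *ᵥ ψ)) = ip (V a *ᵥ ψ) (L (Y a) *ᵥ ψ) := fun a => by
    rw [mulVec_mulVec, ← hc, ← mulVec_mulVec, ip_mulVec (V a), hV]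
  rw [ip_add_right, ip_L_eq, hp, Complex.add_re, t, hψ, ip_sum_right, Complex.re_sum] at h1
  simp only [Fintype.sum_option, Option.elim_none, Option.elim_some, one_mulVec, h0, h0', mul_zero,
    Complex.zero_re, Finset.sum_const_zero, add_zero, zero_add, ip_self_nv, hψ, Complex.ofReal_one,
    mul_one, one_mul, t, sub_self, zero_mulVec, ip_zero_right] at h
  simp only [e] at h1
  linarith

def Ym (v : I × α × α → ℂ) (i : I) : Matrix α α ℂ := Matrix.of fun s t => v (i, s, t)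

def pt (v : I × α × α → ℂ) (i : I) : I × α × α → ℂ := fun k => if k.1 = i then v k else 0

def He (v : I × α × α → ℂ) : Prop := ∀ k, v (sw k) = star (v k)

lemma He.Ym {v : I × α × α → ℂ} (h : He v) (i : I) : (Ym v i)ᴴ = Ym v i := by
  ext s t
  exact (h (i, t, s)).symm

lemma He.pt {v : I × α × α → ℂ} (h : He v) (i : I) : He (pt v i) := fun k => by
  simp only [C3.pt, h k, apply_ite star, star_zero]
  rfl

lemma He.sub {v w : I × α × α → ℂ} (h : He v) (h' : He w) : He (v - w) := fun k => by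
  simp [h k, h' k]

lemma Ym_pt (v : I × α × α → ℂ) (i j : I) : Ym (pt v i) j = if j = i then Ym v j else 0 := by
  ext s t
  by_cases h : j = i <;> simp [Ym, pt, h]

lemma Ym_sub (v w : I × α × α → ℂ) (j : I) : Ym (v - w) j = Ym v j - Ym w j := rfl

lemma ip_Ym {v : I × α × α → ℂ} (h : He v) (w : I × α × α → ℂ) :
    ip v w = ∑ i, (Ym v i * Ym w i).trace := by
  simp only [ip_eq, Fintype.sum_prod_type, ← h _, trace, diag_apply, Matrix.mul_apply]
  exact Finset.sum_congr rfl fun i _ => Finset.sum_comm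

variable (L : I → (Matrix α α ℂ →⋆ₐ[ℂ] Matrix Ω Ω ℂ)) (ψ : Ω → ℂ)

lemma Wm_mul (v : I × α × α → ℂ) :
    Wm L ψ *ᵥ v = (1 - op ψ ψ) *ᵥ ((∑ i, L i (Ym v i)) *ᵥ ψ) := by
  simp only [L_eq (L _) (Ym v _), sum_mulVec, smul_mulVec, mulVec_sum, mulVec_smul]
  funext a
  simp only [mulVec, dotProduct, Wm, of_apply, Fintype.sum_prod_type, Finset.sum_apply,
    Pi.smul_apply, smul_eq_mul, Ym, mul_comm]

lemma form (G : Matrix (I × α × α) (I × α × α) ℂ) {v w : I × α × α → ℂ} (h : He v) (h' : He w) :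
    ip v ((G + bar sw G) *ᵥ w) = ip v (G *ᵥ w) + star (ip v (G *ᵥ w)) := by
  rw [add_mulVec, ip_add_right]
  congr 1
  let e : I × α × α ≃ I × α × α := ⟨sw, sw, fun _ => rfl, fun _ => rfl⟩
  simp only [ip_eq, mulVec, dotProduct, bar, of_apply, star_sum, star_mul', star_star]
  rw [← e.sum_comp]
  refine Finset.sum_congr rfl fun k _ => ?_
  rw [← e.sum_comp]
  change star (v (sw k)) * ∑ l, star (G k l) * w (sw l) = _
  simp only [h _, h' _, star_star]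

lemma tr_op (u v : I × α × α → ℂ) (C : Matrix (I × α × α) (I × α × α) ℂ) :
    (op u v * C).trace = ip v (C *ᵥ u) := by
  rw [trace_mul_comm, op, mul_vecMulVec, ← op, trace_op]

lemma anti {K : Matrix Ω Ω ℂ} (h : Kᴴ = -K) : (ip ψ ((K * K) *ᵥ ψ)).re = -nv (K *ᵥ ψ) := by
  rw [← mulVec_mulVec, ip_mulVec K, h, neg_mulVec, ip_neg_left, Complex.neg_re, nv_eq_ip]

lemma nv_L (M : Matrix α α ℂ →⋆ₐ[ℂ] Matrix Ω Ω ℂ) {p : α → ℝ} (hp : marg M ψ = dg p)
    (K : Matrix α α ℂ) : nv (M K *ᵥ ψ) = ∑ x, ∑ u, p x * ‖K u x‖ ^ 2 := by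
  rw [nv_eq_ip, ← conjTranspose_conjTranspose (M K), ← ip_mulVec, conjTranspose_conjTranspose,
    mulVec_mulVec, L_conj, ← map_mul, ip_L_eq, hp, trace, Complex.re_sum]
  refine Finset.sum_congr rfl fun x _ => ?_
  rw [diag_apply, dg, mul_diagonal, Complex.re_mul_ofReal, ← H14.col_sq, Finset.sum_mul]
  simp only [mul_comm]

lemma comm_sum {L : I → (Matrix α α ℂ →⋆ₐ[ℂ] Matrix Ω Ω ℂ)} (hC : Comm L) (s : Finset I)
    (Y Y' : I → Matrix α α ℂ) :
    (∑ j ∈ s, L j (Y j)) * (∑ j ∈ s, L j (Y' j)) - (∑ j ∈ s, L j (Y' j)) * ∑ j ∈ s, L j (Y j) =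
      ∑ j ∈ s, L j (Y j * Y' j - Y' j * Y j) := by
  rw [Finset.sum_mul_sum, Finset.sum_mul_sum, Finset.sum_comm (f := fun j l => L j (Y' j) * _),
    ← Finset.sum_sub_distrib]
  refine Finset.sum_congr rfl fun j hj => ?_
  rw [← Finset.sum_sub_distrib, Finset.sum_eq_single_of_mem j hj, map_sub, map_mul, map_mul]
  intro l _ hl
  rw [hC l j hl, sub_self]

lemma ip_am {p : I → α → ℝ} (hm : ∀ i, marg (L i) ψ = dg (p i)) {v w : I × α × α → ℂ} (h : He v) :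
    ip v (am p *ᵥ w) = ip ψ ((∑ i, L i (Ym v i * Ym w i - Ym w i * Ym v i)) *ᵥ ψ) := by
  simp only [sum_mulVec, ip_sum_right, ip_L_eq, hm]
  simp only [ip_eq, Fintype.sum_prod_type, ← h _, am, dg, mulVec_diagonal, trace, diag_apply,
    mul_diagonal, Matrix.sub_apply, Matrix.mul_apply (M := Ym _ _), sub_mul, Finset.sum_mul,
    Finset.sum_sub_distrib, Complex.ofReal_sub, mul_sub]
  congr 1
  · refine Finset.sum_congr rfl fun i _ => ?_
    rw [Finset.sum_comm]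
    exact Finset.sum_congr rfl fun s _ => Finset.sum_congr rfl fun t _ => by
      simp only [Ym, sw, of_apply]; ring
  · exact Finset.sum_congr rfl fun i _ => Finset.sum_congr rfl fun s _ =>
      Finset.sum_congr rfl fun t _ => by simp only [Ym, sw, of_apply]; ring

end C3

open C3 in
theorem t_C3 : S_C3 := by
  intro I α Ω _ _ _ _ _ _ L ψ p hC hψ hp hm A _ y hy Bh B hBh hB
  have hy' : ∀ a, He (y a) := hy
  have hz : ∀ a i, He (y a - pt (y a) i) := fun a i => (hy' a).sub ((hy' a).pt i)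
  have h1 : ip ψ ψ = 1 := by rw [ip_self_nv, hψ, Complex.ofReal_one]
  obtain ⟨T, hT⟩ : ∃ T : A → I → Matrix Ω Ω ℂ,
      ∀ a i, T a i = ∑ j ∈ Finset.univ.erase i, L j (Ym (y a) j) := ⟨_, fun _ _ => rfl⟩
  obtain ⟨V, hV⟩ : ∃ V : A → I → Matrix Ω Ω ℂ,
      ∀ a i, V a i = T a i - ip ψ (T a i *ᵥ ψ) • 1 := ⟨_, fun _ _ => rfl⟩
  obtain ⟨K, hK⟩ : ∃ K : A → A → I → Matrix α α ℂ,
      ∀ a b i, K a b i = Ym (y a) i * Ym (y b) i - Ym (y b) i * Ym (y a) i := ⟨_, fun _ _ _ => rfl⟩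
  have Q : ∀ v, (1 - op ψ ψ) *ᵥ v = v - ip ψ v • ψ := fun v => by
    rw [sub_mulVec, one_mulVec, op_mulVec]
  have W1 : ∀ a i, Wm L ψ *ᵥ pt (y a) i =
      L i (Ym (y a) i) *ᵥ ψ - ip ψ (L i (Ym (y a) i) *ᵥ ψ) • ψ := fun a i => by
    simp only [Wm_mul, Ym_pt, apply_ite (L _), map_zero, Finset.sum_ite_eq', Finset.mem_univ, ↓ reduceIte, Q]
  have W2 : ∀ a i, Wm L ψ *ᵥ (y a - pt (y a) i) = V a i *ᵥ ψ := fun a i => by
    rw [Wm_mul, Q, hV, sub_mulVec, smul_mulVec, one_mulVec, hT,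
      Finset.sum_erase_eq_sub (Finset.mem_univ i)]
    simp only [Ym_sub, Ym_pt, map_sub, apply_ite (L _), map_zero, Finset.sum_sub_distrib, Finset.sum_ite_eq', Finset.mem_univ, ↓ reduceIte]
  have TH : ∀ a i, (T a i)ᴴ = T a i := fun a i => by
    simp only [hT, conjTranspose_sum, L_conj, (hy' a).Ym]
  have VH : ∀ a i, (V a i)ᴴ = V a i := fun a i => by
    rw [hV, conjTranspose_sub, conjTranspose_smul, conjTranspose_one, TH, star_ip,
      ← TH a i, ← ip_mulVec, TH]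
  have V0 : ∀ a i, ip ψ (V a i *ᵥ ψ) = 0 := fun a i => by
    rw [hV, sub_mulVec, smul_mulVec, one_mulVec, ip_sub_right, ip_smul_right, h1, mul_one, sub_self]
  have Vc : ∀ a i X, V a i * L i X = L i X * V a i := fun a i X => by
    simp only [hV, hT, sub_mul, mul_sub, smul_mul_assoc, mul_smul_comm, one_mul, mul_one,
      Finset.sum_mul, Finset.mul_sum]
    congr 1
    exact Finset.sum_congr rfl fun j hj => hC j i (Finset.mem_erase.1 hj).1 _ _
  have VV : ∀ a b i, V a i * V b i - V b i * V a i = ∑ j, L j (K a b j) - L i (K a b i) :=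
    fun a b i => by
      rw [← Finset.sum_erase_eq_sub (Finset.mem_univ i)]
      simp only [hK, ← comm_sum hC, ← hT, hV, sub_mul, mul_sub, smul_mul_assoc, mul_smul_comm,
        one_mul, mul_one, smul_sub, smul_smul, mul_comm (ip ψ (T a i *ᵥ ψ))]
      abel
  have KH : ∀ a b i, (L i (K a b i))ᴴ = -L i (K a b i) := fun a b i => by
    simp only [L_conj, hK, conjTranspose_sub, conjTranspose_mul, He.Ym (hy' _), ← map_neg, neg_sub]
  have G : ∀ v w, ip v (((Wm L ψ)ᴴ * Wm L ψ) *ᵥ w) = ip (Wm L ψ *ᵥ v) (Wm L ψ *ᵥ w) :=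
    fun v w => by rw [← mulVec_mulVec, ip_mulVec (Wm L ψ)ᴴ, conjTranspose_conjTranspose]
  have B1 : B = ∑ i, ∑ a, op (pt (y a) i) (y a - pt (y a) i) := by
    ext k l
    rw [Matrix.sum_apply, Finset.sum_eq_single k.1 (fun i _ hi => by
      simp only [Matrix.sum_apply, op_apply, pt, hi.symm, ↓ reduceIte, Pi.sub_apply, star_sub, RCLike.star_def, zero_mul, Finset.sum_const_zero]) (by simp only [Finset.mem_univ, not_true_eq_false, IsEmpty.forall_iff])]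
    by_cases h : k.1 = l.1 <;> simp only [hB, hBh, sd, Matrix.sum_apply, op_apply, RCLike.star_def, Matrix.sub_apply, of_apply, h, ↓ reduceIte, sub_self, pt, Pi.sub_apply, star_zero, mul_zero, Finset.sum_const_zero, sub_zero, eq_comm]
  have B2 : B = ∑ i, ∑ a, op (y a - pt (y a) i) (pt (y a) i) := by
    ext k l
    rw [Matrix.sum_apply, Finset.sum_eq_single l.1 (fun i _ hi => by
      simp [Matrix.sum_apply, op_apply, pt, hi.symm]) (by simp only [Finset.mem_univ, not_true_eq_false, IsEmpty.forall_iff])]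
    by_cases h : k.1 = l.1 <;> simp only [hB, hBh, sd, Matrix.sum_apply, op_apply, RCLike.star_def, Matrix.sub_apply, of_apply, h, ↓ reduceIte, sub_self, Pi.sub_apply, pt, zero_mul, Finset.sum_const_zero, sub_zero]
  have e1 : rt (B * ((Wm L ψ)ᴴ * Wm L ψ + bar sw ((Wm L ψ)ᴴ * Wm L ψ))) =
      2 * ∑ i, ∑ a, (ip (V a i *ᵥ ψ) (L i (Ym (y a) i) *ᵥ ψ)).re := by
    simp only [B1, Finset.sum_mul, rt_sum, Finset.mul_sum]
    refine Finset.sum_congr rfl fun i _ => Finset.sum_congr rfl fun a _ => ?_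
    rw [rt, tr_op, form _ (hz a i) ((hy' a).pt i), G, W1, W2, ip_sub_right, ip_smul_right,
      ← star_ip ψ (V a i *ᵥ ψ), V0, star_zero, mul_zero, sub_zero, Complex.add_re,
      Complex.star_def, Complex.conj_re, two_mul]
  have e2 : rt (B * B * ((Wm L ψ)ᴴ * Wm L ψ + bar sw ((Wm L ψ)ᴴ * Wm L ψ))) = 2 * ∑ i, ∑ a, ∑ b,
      ((Ym (y a) i * Ym (y b) i).trace * ip (V a i *ᵥ ψ) (V b i *ᵥ ψ)).re := by
    have : B * B = ∑ i, ∑ a, ∑ b, (Ym (y a) i * Ym (y b) i).trace •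
        op (y a - pt (y a) i) (y b - pt (y b) i) := by
      nth_rewrite 1 [B2]
      rw [B1, Finset.sum_mul_sum]
      refine Finset.sum_congr rfl fun i _ => ?_
      rw [Finset.sum_eq_single i (fun j _ hj => by
        simp only [Finset.sum_mul_sum, op_mul_op, ip_Ym ((hy' _).pt i), Ym_pt, mul_ite, ite_mul, zero_mul, mul_zero, apply_ite trace, trace_zero, Finset.sum_ite_eq', Finset.mem_univ, ↓ reduceIte, hj, zero_smul, Finset.sum_const_zero])
        (by simp only [Finset.mem_univ, not_true_eq_false, IsEmpty.forall_iff])]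
      simp only [Finset.sum_mul_sum, op_mul_op, ip_Ym ((hy' _).pt i), Ym_pt, mul_ite, ite_mul, zero_mul, mul_zero, apply_ite trace, trace_zero, Finset.sum_ite_eq', Finset.mem_univ, ↓ reduceIte]
    simp only [this, Finset.sum_mul, rt, trace_sum, Complex.re_sum, smul_mul_assoc, trace_smul,
      tr_op, form _ (hz _ _) (hz _ _), G, W2, star_ip, smul_eq_mul]
    simp only [mul_add, Complex.add_re, Finset.sum_add_distrib, two_mul]
    congr 1
    refine Finset.sum_congr rfl fun i _ => ?_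
    rw [Finset.sum_comm]
    exact Finset.sum_congr rfl fun a _ => Finset.sum_congr rfl fun b _ => by rw [trace_mul_comm]
  have e3 : rt (Bh * am p * Bh * am p) ≤ ∑ a, ∑ b, nv ((∑ j, L j (K a b j)) *ᵥ ψ) := by
    rw [hBh, mul_assoc, Finset.sum_mul, Finset.sum_mul_sum, rt_sum]
    refine Finset.sum_le_sum fun a _ => ?_
    rw [rt_sum]
    refine Finset.sum_le_sum fun b _ => ?_
    have h2 := norm_ip_le ψ ((∑ j, L j (K a b j)) *ᵥ ψ)
    have h3 : ip (y b) (am p *ᵥ y a) = star (ip (y a) (am p *ᵥ y b)) := by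
      rw [star_ip, ip_mulVec (am p), am, H14.dg_conj]
    rw [hψ, Real.sqrt_one, one_mul, Real.le_sqrt (norm_nonneg _) (nv_nonneg _)] at h2
    rw [rt, mul_assoc, tr_op, ← mulVec_mulVec, ← mulVec_mulVec, op_mulVec, mulVec_smul,
      ip_smul_right, h3, Complex.star_def, Complex.conj_mul', ← Complex.ofReal_pow,
      Complex.ofReal_re, ip_am L ψ hm (hy' a)]
    simpa only [hK] using h2
  have e4 : ∀ i, ∑ x, ∑ u, p i x * RR (fun a => Matrix.of fun s t => y a (i, s, t)) u x =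
      ∑ a, ∑ b, nv (L i (K a b i) *ᵥ ψ) := fun i => by
    simp only [nv_L ψ _ (hm i), RR, Finset.mul_sum, hK]
    conv_lhs => enter [2, x]; rw [Finset.sum_comm]
    conv_lhs => enter [2, x, 2, a]; rw [Finset.sum_comm]
    rw [Finset.sum_comm]
    conv_lhs => enter [2, a]; rw [Finset.sum_comm]
    rfl
  have e5 : ∑ i, ∑ a, ∑ b,
      (ip ψ ((L i (K a b i) * (∑ j, L j (K a b j) - L i (K a b i))) *ᵥ ψ)).re =
      ∑ i, ∑ a, ∑ b, nv (L i (K a b i) *ᵥ ψ) - ∑ a, ∑ b, nv ((∑ j, L j (K a b j)) *ᵥ ψ) := by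
    have h2 : ∀ a b, ∑ i, (ip ψ ((L i (K a b i) * ∑ j, L j (K a b j)) *ᵥ ψ)).re =
        -nv ((∑ j, L j (K a b j)) *ᵥ ψ) := fun a b => by
      rw [← Complex.re_sum, ← ip_sum_right, ← sum_mulVec, ← Finset.sum_mul, anti]
      simp only [conjTranspose_sum, KH, Finset.sum_neg_distrib]
    simp only [mul_sub, sub_mulVec, ip_sub_right, Complex.sub_re, anti ψ (KH _ _ _),
      Finset.sum_sub_distrib, Finset.sum_neg_distrib]
    rw [Finset.sum_comm]
    conv_lhs => enter [1, 2, a]; rw [Finset.sum_comm]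
    simp only [h2, Finset.sum_neg_distrib]
    ring
  have h := Finset.sum_le_sum fun i (_ : i ∈ Finset.univ) =>
    (show Nonempty α by
      by_contra h0
      rw [not_nonempty_iff] at h0
      simpa using (hp i).2).elim fun o => site (L i) o (fun a => Ym (y a) i)
      (fun a => (hy' a).Ym i) (fun a => V a i) (fun a => VH a i) (fun a => Vc a i) ψ hψ (p i)
      (hm i) fun a => V0 a i
  simp only [← hK, VV, Finset.sum_sub_distrib, ← Finset.mul_sum] at h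
  simp only [e4, Finset.sum_sub_distrib]
  rw [e5] at h
  linarith only [e1, e2, e3, h]

end Pool.Agent.MP_b746ed_mp.LD
end
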