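import Pool.Agent.MP_b746ed_mp.LexTwo
import Pool.Agent.MP_b746ed_mp.Approx

attribute [-instance] SubfieldClass.toSubringClass LieAdmissibleAlgebra.toModule
  RightPreLieAlgebra.toModule LeftPreLieAlgebra.toModule instCoeOTCOfCoeOut
  instCoeHTCTOfCoeTailOfCoeHTC AddQuantale.instAddLeftMono instCoeHTCOfCoeHeadOfCoeOTC
  IdemSemiring.toCanonicallyOrderedAdd instCoeTCOfCoe RKHS.instFunLike
  MulSemiringAction.toDistribMulAction Nontrivial.to_nonempty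
  IsStarProjection.instTrivialStarOfStarOrderedRing MulOneClass.toMulOne
  NonUnitalAlgSemiHomClass.toDistribMulActionSemiHomClass Torsor.toMulAction
  IdemSemiring.toMulLeftMono Unique.instInhabited LieAdmissibleRing.toNonUnitalNonAssocRing
  AddCommMonoidWithOne.toAddMonoidWithOne AddQuantale.instAddRightMono Zero.instNonempty bot_nonempty
  NumberField.to_charZero Quantale.instMulRightMono MonTypeEquivalenceMon.monMonoid
  Action.FintypeCat.instMulActionObjFiniteOf AddTorsor.nonempty Distrib.toMul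
  GrpTypeEquivalenceGrp.grpGroup instCoeTOfCoeDep instNonemptyOfMonad CommRing.toRing
  IsStrictOrderedRing.toIsOrderedRing

section
/-! Large local dimension: norms of vectors and matrices, bounds on the positive part. -/

set_option autoImplicit false
set_option linter.unusedSectionVars false
open scoped ComplexOrder MatrixOrder
open Matrix

namespace Pool.Agent.MP_b746ed_mp.LD
open KF
open H14 (trf)

section Abs
variable {β γ δ : Type} [Fintype β] [DecidableEq β] [Fintype γ] [DecidableEq γ] [Fintype δ]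
  [DecidableEq δ]

/-- squared norm of a vector -/
noncomputable def nv (x : β → ℂ) : ℝ := ∑ i, ‖x i‖ ^ 2

/-- squared Hilbert Schmidt norm -/
noncomputable def hs (A : Matrix β γ ℂ) : ℝ := ∑ i, ∑ j, ‖A i j‖ ^ 2

/-- real part of the trace -/
noncomputable def rt (A : Matrix β β ℂ) : ℝ := A.trace.re

/-- the trace of the positive part is at most `t` -/
def Up (A : Matrix β β ℂ) (t : ℝ) : Prop := ∀ P, Con P → tp P A ≤ t

/-- the operator norm is at most `|c|` -/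
def Opb (M : Matrix β γ ℂ) (c : ℝ) : Prop := ∀ x, nv (M *ᵥ x) ≤ c ^ 2 * nv x

/-- the trace norm is at most `t` -/
def Tn (A : Matrix β γ ℂ) (t : ℝ) : Prop :=
  ∀ M : Matrix γ β ℂ, Opb M 1 → ‖(M * A).trace‖ ≤ t

/-- `P` is a spectral projector of `A` at the level zero -/
def Spec (A P : Matrix β β ℂ) : Prop :=
  IsProj P ∧ P * A = A * P ∧ 0 ≤ P * A ∧ (1 - P) * A ≤ 0

/-- a block of a matrix -/
def bk (G : Matrix (β × γ) (β × γ) ℂ) (a b : β) : Matrix γ γ ℂ :=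
  Matrix.of fun k l => G (a, k) (b, l)

lemma nv_nonneg (x : β → ℂ) : 0 ≤ nv x := Finset.sum_nonneg fun _ _ => by positivity

lemma nv_eq_ip (x : β → ℂ) : nv x = (ip x x).re := (ip_self_re x).symm

lemma ip_self_nv (x : β → ℂ) : ip x x = (nv x : ℂ) := ip_self_eq x

lemma nv_zero : nv (0 : β → ℂ) = 0 := by simp only [nv, Pi.zero_apply, norm_zero, ne_eq, OfNat.ofNat_ne_zero, not_false_eq_true, zero_pow, Finset.sum_const_zero]

lemma nv_smul (c : ℂ) (x : β → ℂ) : nv (c • x) = ‖c‖ ^ 2 * nv x := by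
  simp only [nv, Pi.smul_apply, smul_eq_mul, Complex.norm_mul, mul_pow, Finset.mul_sum]

lemma nv_rsmul (c : ℝ) (x : β → ℂ) : nv (c • x) = c ^ 2 * nv x := by
  simp only [nv, Pi.smul_apply, Complex.real_smul, Complex.norm_mul, Complex.norm_real, Real.norm_eq_abs, mul_pow, sq_abs, Finset.mul_sum]

lemma nv_neg (x : β → ℂ) : nv (-x) = nv x := by simp only [nv, Pi.neg_apply, norm_neg]

lemma nv_sub_comm (x y : β → ℂ) : nv (x - y) = nv (y - x) := by rw [← nv_neg, neg_sub]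

lemma norm_ip_le (x y : β → ℂ) : ‖ip x y‖ ≤ √(nv x) * √(nv y) := by
  rw [← Real.sqrt_mul (nv_nonneg x)]
  refine Real.le_sqrt_of_sq_le ?_
  rw [← Complex.normSq_eq_norm_sq, nv_eq_ip, nv_eq_ip]
  exact normSq_ip_le x y

lemma nv_add (x y : β → ℂ) : nv (x + y) = nv x + nv y + 2 * (ip x y).re := by
  have h : (ip y x).re = (ip x y).re := by rw [← star_ip, Complex.star_def, Complex.conj_re]
  simp only [nv_eq_ip, ip_add_left, ip_add_right, Complex.add_re, h]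
  ring

lemma sqrt_nv_add (x y : β → ℂ) : √(nv (x + y)) ≤ √(nv x) + √(nv y) := by
  refine Real.sqrt_le_iff.2 ⟨by positivity, ?_⟩
  have h := (Complex.re_le_norm _).trans (norm_ip_le x y)
  rw [nv_add, add_sq, Real.sq_sqrt (nv_nonneg x), Real.sq_sqrt (nv_nonneg y)]
  linarith

lemma sqrt_nv_sub (x y : β → ℂ) : √(nv (x - y)) ≤ √(nv x) + √(nv y) := by
  rw [sub_eq_add_neg, ← nv_neg y]; exact sqrt_nv_add _ _

lemma sqrt_nv_sum {ρ : Type} (s : Finset ρ) (x : ρ → β → ℂ) :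
    √(nv (∑ r ∈ s, x r)) ≤ ∑ r ∈ s, √(nv (x r)) := by
  classical
  induction s using Finset.induction_on with
  | empty => simp [nv_zero]
  | insert r s h ih =>
    rw [Finset.sum_insert h, Finset.sum_insert h]
    exact (sqrt_nv_add _ _).trans (by linarith)

lemma hs_nonneg (A : Matrix β γ ℂ) : 0 ≤ hs A :=
  Finset.sum_nonneg fun _ _ => Finset.sum_nonneg fun _ _ => by positivity

lemma hs_eq_nv (A : Matrix β γ ℂ) : hs A = nv fun p : β × γ => A p.1 p.2 := by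
  simp only [hs, nv, Fintype.sum_prod_type]

lemma hs_eq_cols (A : Matrix β γ ℂ) : hs A = ∑ j, nv fun i => A i j := by
  rw [hs, Finset.sum_comm]; rfl

lemma hs_eq_rt (A : Matrix β γ ℂ) : hs A = rt (Aᴴ * A) := by
  rw [hs, Finset.sum_comm, rt, trace, Complex.re_sum]
  exact Finset.sum_congr rfl fun j _ => H14.col_sq A j

lemma hs_conj (A : Matrix β γ ℂ) : hs Aᴴ = hs A := by
  rw [hs, hs, Finset.sum_comm]; simp only [conjTranspose_apply, RCLike.star_def, RCLike.norm_conj]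

lemma hs_eq_rt' (A : Matrix β γ ℂ) : hs A = rt (A * Aᴴ) := by
  rw [← hs_conj, hs_eq_rt, conjTranspose_conjTranspose]

lemma hs_zero : hs (0 : Matrix β γ ℂ) = 0 := by simp only [hs, Matrix.zero_apply, norm_zero, ne_eq, OfNat.ofNat_ne_zero, not_false_eq_true, zero_pow, Finset.sum_const_zero]

lemma hs_neg (A : Matrix β γ ℂ) : hs (-A) = hs A := by simp only [hs, Matrix.neg_apply, norm_neg]

lemma hs_rsmul (c : ℝ) (A : Matrix β γ ℂ) : hs (c • A) = c ^ 2 * hs A := by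
  simp only [hs, Matrix.smul_apply, Complex.real_smul, Complex.norm_mul, Complex.norm_real, Real.norm_eq_abs, mul_pow, sq_abs, Finset.mul_sum]

lemma sqrt_hs_add (A B : Matrix β γ ℂ) : √(hs (A + B)) ≤ √(hs A) + √(hs B) := by
  simp only [hs_eq_nv]
  exact sqrt_nv_add (fun p : β × γ => A p.1 p.2) fun p => B p.1 p.2

lemma sqrt_hs_sub (A B : Matrix β γ ℂ) : √(hs (A - B)) ≤ √(hs A) + √(hs B) := by
  rw [sub_eq_add_neg, ← hs_neg B]; exact sqrt_hs_add _ _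

lemma sqrt_hs_sum {ρ : Type} (s : Finset ρ) (A : ρ → Matrix β γ ℂ) :
    √(hs (∑ r ∈ s, A r)) ≤ ∑ r ∈ s, √(hs (A r)) := by
  classical
  induction s using Finset.induction_on with
  | empty => simp [hs_zero]
  | insert r s h ih =>
    rw [Finset.sum_insert h, Finset.sum_insert h]
    exact (sqrt_hs_add _ _).trans (by linarith)

lemma hs_add_le (A B : Matrix β γ ℂ) : hs (A + B) ≤ 2 * hs A + 2 * hs B := by
  have h := pow_le_pow_left₀ (Real.sqrt_nonneg _) (sqrt_hs_add A B) 2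
  rw [Real.sq_sqrt (hs_nonneg _), add_sq, Real.sq_sqrt (hs_nonneg _),
    Real.sq_sqrt (hs_nonneg _)] at h
  linarith only [sq_nonneg (√(hs A) - √(hs B)), Real.sq_sqrt (hs_nonneg A), Real.sq_sqrt (hs_nonneg B), h]

lemma hs_sum_le {ρ : Type} (s : Finset ρ) (A : ρ → Matrix β γ ℂ) :
    hs (∑ r ∈ s, A r) ≤ s.card * ∑ r ∈ s, hs (A r) := by
  have h := pow_le_pow_left₀ (Real.sqrt_nonneg _) (sqrt_hs_sum s A) 2
  rw [Real.sq_sqrt (hs_nonneg _)] at h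
  refine h.trans (sq_sum_le_card_mul_sum_sq.trans (le_of_eq ?_))
  simp only [Real.sq_sqrt (hs_nonneg _)]

lemma norm_trace_le (A : Matrix γ β ℂ) (B : Matrix β γ ℂ) :
    ‖(A * B).trace‖ ≤ √(hs A) * √(hs B) := by
  have : (A * B).trace = ip (fun p : β × γ => Aᴴ p.1 p.2) fun p => B p.1 p.2 := by
    simp only [trace, diag_apply, Matrix.mul_apply, ip_eq, Fintype.sum_prod_type,
      conjTranspose_apply, star_star]
    exact Finset.sum_comm
  rw [this, ← hs_conj A, hs_eq_nv, hs_eq_nv]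
  exact norm_ip_le _ _

lemma rt_add (A B : Matrix β β ℂ) : rt (A + B) = rt A + rt B := by simp only [rt, trace_add, Complex.add_re]
lemma rt_sub (A B : Matrix β β ℂ) : rt (A - B) = rt A - rt B := by simp only [rt, trace_sub, Complex.sub_re]
lemma rt_neg (A : Matrix β β ℂ) : rt (-A) = -rt A := by simp only [rt, trace_neg, Complex.neg_re]
lemma rt_zero : rt (0 : Matrix β β ℂ) = 0 := by simp only [rt, trace_zero, Complex.zero_re]
lemma rt_rsmul (c : ℝ) (A : Matrix β β ℂ) : rt (c • A) = c * rt A := by simp only [rt, trace_smul, Complex.real_smul, Complex.mul_re, Complex.ofReal_re, Complex.ofReal_im, zero_mul, sub_zero]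
lemma rt_sum {ρ : Type} (s : Finset ρ) (A : ρ → Matrix β β ℂ) :
    rt (∑ r ∈ s, A r) = ∑ r ∈ s, rt (A r) := by simp only [rt, trace_sum, Complex.re_sum]
lemma rt_comm (A : Matrix β γ ℂ) (B : Matrix γ β ℂ) : rt (A * B) = rt (B * A) := by
  rw [rt, rt, trace_mul_comm]
lemma rt_conj (A : Matrix β β ℂ) : rt Aᴴ = rt A := by simp only [rt, trace_conjTranspose, RCLike.star_def, Complex.conj_re]
lemma rt_eq_sum (A : Matrix β β ℂ) : rt A = ∑ i, (A i i).re := by simp only [rt, trace, diag_apply, Complex.re_sum]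
lemma tp_eq_rt (P A : Matrix β β ℂ) : tp P A = rt (P * A) := rfl
lemma rt_le_norm (A : Matrix β β ℂ) : rt A ≤ ‖A.trace‖ := Complex.re_le_norm _
lemma abs_rt_le (A : Matrix β β ℂ) : |rt A| ≤ ‖A.trace‖ := Complex.abs_re_le_norm _

lemma le_def {A B : Matrix β β ℂ} : A ≤ B ↔ (B - A).PosSemidef := Iff.rfl

lemma nonneg_def {A : Matrix β β ℂ} : 0 ≤ A ↔ A.PosSemidef := by rw [le_def, sub_zero]

lemma rt_nonneg {A : Matrix β β ℂ} (h : 0 ≤ A) : 0 ≤ rt A :=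
  (Complex.nonneg_iff.1 (nonneg_def.1 h).trace_nonneg).1

lemma rt_mono {A B : Matrix β β ℂ} (h : A ≤ B) : rt A ≤ rt B := by
  have := rt_nonneg (sub_nonneg.2 h)
  rw [rt_sub] at this; linarith

lemma con_iff {P : Matrix β β ℂ} : Con P ↔ 0 ≤ P ∧ P ≤ 1 := by rw [nonneg_def]; rfl

lemma tp_rsmul (P Z : Matrix β β ℂ) (c : ℝ) : tp P (c • Z) = c * tp P Z := by
  rw [tp_eq_rt, Matrix.mul_smul, rt_rsmul, tp_eq_rt]

lemma tp_mono {P A B : Matrix β β ℂ} (hP : 0 ≤ P) (h : A ≤ B) : tp P A ≤ tp P B := by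
  have := tp_nonneg (nonneg_def.1 hP) (le_def.1 h)
  rw [tp_sub] at this; linarith

lemma tp_compl (P Z : Matrix β β ℂ) : tp (1 - P) Z = rt Z - tp P Z := by
  rw [tp_eq_rt, sub_mul, one_mul, rt_sub, tp_eq_rt]

lemma conj_le {A B : Matrix β β ℂ} (h : A ≤ B) (T : Matrix β γ ℂ) : Tᴴ * A * T ≤ Tᴴ * B * T := by
  rw [le_def, ← Matrix.sub_mul, ← Matrix.mul_sub]
  exact (le_def.1 h).conjTranspose_mul_mul_same T

lemma conj_nonneg {A : Matrix β β ℂ} (h : 0 ≤ A) (T : Matrix β γ ℂ) : 0 ≤ Tᴴ * A * T :=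
  nonneg_def.2 ((nonneg_def.1 h).conjTranspose_mul_mul_same T)

lemma rsmul_nonneg {A : Matrix β β ℂ} (h : 0 ≤ A) {c : ℝ} (hc : 0 ≤ c) : 0 ≤ c • A :=
  nonneg_def.2 ((nonneg_def.1 h).smul hc)

lemma rsmul_le {A B : Matrix β β ℂ} (h : A ≤ B) {c : ℝ} (hc : 0 ≤ c) : c • A ≤ c • B := by
  rw [← sub_nonneg, ← smul_sub]; exact rsmul_nonneg (sub_nonneg.2 h) hc

lemma rsmul_le_rsmul {A : Matrix β β ℂ} (h : 0 ≤ A) {b c : ℝ} (hc : b ≤ c) : b • A ≤ c • A := by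
  rw [← sub_nonneg, ← sub_smul]; exact rsmul_nonneg h (sub_nonneg.2 hc)

lemma one_nonneg : (0 : Matrix β β ℂ) ≤ 1 := nonneg_def.2 PosSemidef.one

lemma op_nonneg (x : β → ℂ) : 0 ≤ op x x := nonneg_def.2 (psd_op x)

lemma herm_of_nonneg {A : Matrix β β ℂ} (h : 0 ≤ A) : Aᴴ = A := (nonneg_def.1 h).isHermitian

lemma le_iff_ip {A B : Matrix β β ℂ} (hA : Aᴴ = A) (hB : Bᴴ = B) :
    A ≤ B ↔ ∀ x, (ip x (A *ᵥ x)).re ≤ (ip x (B *ᵥ x)).re := by
  refine ⟨fun h x => ?_, fun h => ?_⟩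
  · have := psd_re_nonneg (le_def.1 h) x
    rw [sub_mulVec, ip_sub_right, Complex.sub_re] at this; linarith
  · have hH : (B - A).IsHermitian := IsHermitian.sub hB hA
    refine PosSemidef.of_dotProduct_mulVec_nonneg hH fun x => ?_
    change 0 ≤ ip x _
    refine Complex.nonneg_iff.2 ⟨?_, ?_⟩
    · rw [sub_mulVec, ip_sub_right, Complex.sub_re]; linarith [h x]
    · have : star (ip x ((B - A) *ᵥ x)) = ip x ((B - A) *ᵥ x) := by
        rw [star_ip, ip_mulVec (B - A), hH.eq]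
      exact (Complex.conj_eq_iff_im.1 this).symm

lemma ip_rsmul_one (c : ℝ) (x : β → ℂ) :
    (ip x ((c • (1 : Matrix β β ℂ)) *ᵥ x)).re = c * nv x := by
  rw [smul_mulVec, one_mulVec, ← Complex.coe_smul, ip_smul_right, ip_self_nv,
    ← Complex.ofReal_mul, Complex.ofReal_re]

lemma opb_iff {M : Matrix β γ ℂ} {c : ℝ} : Opb M c ↔ Mᴴ * M ≤ c ^ 2 • (1 : Matrix γ γ ℂ) := by
  rw [le_iff_ip (by simp) (by simp)]
  refine forall_congr' fun x => ?_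
  rw [ip_rsmul_one, ← mulVec_mulVec, ip_mulVec Mᴴ, conjTranspose_conjTranspose, ← nv_eq_ip]

lemma Opb.sqrt_le {M : Matrix β γ ℂ} {c : ℝ} (h : Opb M c) (hc : 0 ≤ c) (x : γ → ℂ) :
    √(nv (M *ᵥ x)) ≤ c * √(nv x) := by
  refine Real.sqrt_le_iff.2 ⟨by positivity, ?_⟩
  rw [mul_pow, Real.sq_sqrt (nv_nonneg x)]; exact h x

lemma opb_of_sqrt {M : Matrix β γ ℂ} {c : ℝ} (h : ∀ x, √(nv (M *ᵥ x)) ≤ c * √(nv x)) :
    Opb M c := fun x => by
  have := pow_le_pow_left₀ (Real.sqrt_nonneg _) (h x) 2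
  rwa [mul_pow, Real.sq_sqrt (nv_nonneg _), Real.sq_sqrt (nv_nonneg _)] at this

lemma Opb.mono {M : Matrix β γ ℂ} {b c : ℝ} (h : Opb M b) (hb : 0 ≤ b) (hc : b ≤ c) : Opb M c :=
  fun x => (h x).trans (mul_le_mul_of_nonneg_right (by gcongr) (nv_nonneg x))

lemma Opb.mul {M : Matrix β γ ℂ} {N : Matrix γ δ ℂ} {b c : ℝ} (h : Opb M b) (h' : Opb N c) :
    Opb (M * N) (b * c) := fun x => by
  rw [← mulVec_mulVec, mul_pow, mul_assoc]
  exact (h _).trans (mul_le_mul_of_nonneg_left (h' x) (sq_nonneg b))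

lemma Opb.add {M N : Matrix β γ ℂ} {b c : ℝ} (h : Opb M b) (h' : Opb N c) (hb : 0 ≤ b)
    (hc : 0 ≤ c) : Opb (M + N) (b + c) := opb_of_sqrt fun x => by
  rw [add_mulVec]
  refine (sqrt_nv_add _ _).trans ?_
  linarith [h.sqrt_le hb x, h'.sqrt_le hc x]

lemma Opb.neg {M : Matrix β γ ℂ} {c : ℝ} (h : Opb M c) : Opb (-M) c := fun x => by
  rw [neg_mulVec, nv_neg]; exact h x

lemma Opb.sub {M N : Matrix β γ ℂ} {b c : ℝ} (h : Opb M b) (h' : Opb N c) (hb : 0 ≤ b)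
    (hc : 0 ≤ c) : Opb (M - N) (b + c) := by
  rw [sub_eq_add_neg]; exact h.add h'.neg hb hc

lemma opb_zero (c : ℝ) : Opb (0 : Matrix β γ ℂ) c := fun x => by
  rw [zero_mulVec, nv_zero]; exact mul_nonneg (sq_nonneg c) (nv_nonneg x)

lemma opb_one : Opb (1 : Matrix β β ℂ) 1 := fun x => by simp

lemma Opb.rsmul {M : Matrix β γ ℂ} {c : ℝ} (h : Opb M c) (b : ℝ) : Opb (b • M) (b * c) :=
  fun x => by
    rw [smul_mulVec, nv_rsmul, mul_pow, mul_assoc]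
    exact mul_le_mul_of_nonneg_left (h x) (sq_nonneg b)

lemma opb_sum {ρ : Type} (s : Finset ρ) {M : ρ → Matrix β γ ℂ} {c : ρ → ℝ}
    (h : ∀ r ∈ s, Opb (M r) (c r)) (hc : ∀ r ∈ s, 0 ≤ c r) :
    Opb (∑ r ∈ s, M r) (∑ r ∈ s, c r) := opb_of_sqrt fun x => by
  rw [sum_mulVec, Finset.sum_mul]
  exact (sqrt_nv_sum _ _).trans (Finset.sum_le_sum fun r hr => (h r hr).sqrt_le (hc r hr) x)

lemma Opb.conj {M : Matrix β γ ℂ} {c : ℝ} (h : Opb M c) : Opb Mᴴ c := fun x => by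
  have h1 := norm_ip_le x (M *ᵥ (Mᴴ *ᵥ x))
  have h2 : ip x (M *ᵥ (Mᴴ *ᵥ x)) = (nv (Mᴴ *ᵥ x) : ℂ) := by rw [ip_mulVec M, ip_self_nv]
  rw [h2, Complex.norm_real, Real.norm_of_nonneg (nv_nonneg _)] at h1
  have h3 := pow_le_pow_left₀ (nv_nonneg _) h1 2
  rw [mul_pow, Real.sq_sqrt (nv_nonneg _), Real.sq_sqrt (nv_nonneg _)] at h3
  have h4 := mul_le_mul_of_nonneg_left (h (Mᴴ *ᵥ x)) (nv_nonneg x)
  rcases (nv_nonneg (Mᴴ *ᵥ x)).eq_or_lt with h5 | h5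
  · rw [← h5]; exact mul_nonneg (sq_nonneg c) (nv_nonneg x)
  · refine le_of_mul_le_mul_right ?_ h5
    linarith only [h3, h4]

lemma Opb.ip_le {M : Matrix β γ ℂ} {c : ℝ} (h : Opb M c) (hc : 0 ≤ c) (x : β → ℂ) (y : γ → ℂ) :
    ‖ip x (M *ᵥ y)‖ ≤ c * (√(nv x) * √(nv y)) := by
  refine (norm_ip_le _ _).trans ?_
  have := mul_le_mul_of_nonneg_left (h.sqrt_le hc y) (Real.sqrt_nonneg (nv x))
  linarith

lemma Opb.le {A : Matrix β β ℂ} {c : ℝ} (h : Opb A c) (hc : 0 ≤ c) (hA : Aᴴ = A) :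
    A ≤ c • (1 : Matrix β β ℂ) := by
  rw [le_iff_ip hA (by simp)]
  intro x
  have := h.ip_le hc x x
  rw [Real.mul_self_sqrt (nv_nonneg x)] at this
  rw [ip_rsmul_one]
  exact (Complex.re_le_norm _).trans this

lemma sq_le_of_le {A : Matrix β β ℂ} {c : ℝ} (h0 : 0 ≤ A) (h : A ≤ c • (1 : Matrix β β ℂ)) :
    A * A ≤ c • A := by
  have := psd_mul (nonneg_def.1 h0) (le_def.1 h) (by simp [mul_sub, sub_mul])
  rw [le_def]
  simpa [mul_sub] using this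

lemma opb_of_le {A : Matrix β β ℂ} {c : ℝ} (hc : 0 ≤ c) (h0 : 0 ≤ A)
    (h : A ≤ c • (1 : Matrix β β ℂ)) : Opb A c := by
  rw [opb_iff, herm_of_nonneg h0, sq, ← smul_smul]
  exact (sq_le_of_le h0 h).trans (rsmul_le h hc)

lemma _root_.Pool.Agent.MP_b746ed_mp.KF.Con.opb {P : Matrix β β ℂ} (h : Con P) : Opb P 1 :=
  opb_of_le zero_le_one (con_iff.1 h).1 (by simpa only [one_smul] using (con_iff.1 h).2)

lemma _root_.Pool.Agent.MP_b746ed_mp.KF.Con.compl {P : Matrix β β ℂ} (h : Con P) : Con (1 - P) :=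
  ⟨h.2, by simpa using h.1⟩

lemma _root_.Pool.Agent.MP_b746ed_mp.KF.Con.conj {P : Matrix β β ℂ} (h : Con P)
    {T : Matrix β γ ℂ} (hT : Opb T 1) : Con (Tᴴ * P * T) := by
  refine con_iff.2 ⟨conj_nonneg (con_iff.1 h).1 T, (conj_le (con_iff.1 h).2 T).trans ?_⟩
  simpa only [Matrix.mul_one, one_pow, one_smul] using opb_iff.1 hT

lemma Opb.hs_mul {M : Matrix β γ ℂ} {c : ℝ} (h : Opb M c) (A : Matrix γ δ ℂ) :
    hs (M * A) ≤ c ^ 2 * hs A := by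
  rw [hs_eq_cols, hs_eq_cols, Finset.mul_sum]
  exact Finset.sum_le_sum fun j _ => h fun i => A i j

lemma Opb.mul_hs {M : Matrix γ δ ℂ} {c : ℝ} (h : Opb M c) (A : Matrix β γ ℂ) :
    hs (A * M) ≤ c ^ 2 * hs A := by
  rw [← hs_conj, conjTranspose_mul, ← hs_conj A]; exact h.conj.hs_mul _

lemma Tn.mono {A : Matrix β γ ℂ} {s t : ℝ} (h : Tn A s) (hs : s ≤ t) : Tn A t :=
  fun M hM => (h M hM).trans hs

lemma tn_zero : Tn (0 : Matrix β γ ℂ) 0 := fun M _ => by simp only [Matrix.mul_zero, trace_zero, norm_zero, Std.le_refl]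

lemma Tn.nonneg {A : Matrix β γ ℂ} {t : ℝ} (h : Tn A t) : 0 ≤ t :=
  (norm_nonneg _).trans (h 0 (opb_zero 1))

lemma Tn.add {A B : Matrix β γ ℂ} {s t : ℝ} (h : Tn A s) (h' : Tn B t) : Tn (A + B) (s + t) :=
  fun M hM => by
    rw [Matrix.mul_add, trace_add]
    exact (norm_add_le _ _).trans (add_le_add (h M hM) (h' M hM))

lemma Tn.neg {A : Matrix β γ ℂ} {t : ℝ} (h : Tn A t) : Tn (-A) t := fun M hM => by
  rw [Matrix.mul_neg, trace_neg, norm_neg]; exact h M hM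

lemma Tn.rsmul {A : Matrix β γ ℂ} {t : ℝ} (h : Tn A t) {c : ℝ} (hc : 0 ≤ c) :
    Tn (c • A) (c * t) := fun M hM => by
  rw [Matrix.mul_smul, trace_smul, norm_smul, Real.norm_of_nonneg hc]
  exact mul_le_mul_of_nonneg_left (h M hM) hc

lemma tn_sum {ρ : Type} (s : Finset ρ) {A : ρ → Matrix β γ ℂ} {t : ρ → ℝ}
    (h : ∀ r ∈ s, Tn (A r) (t r)) : Tn (∑ r ∈ s, A r) (∑ r ∈ s, t r) := fun M hM => by
  rw [Matrix.mul_sum, trace_sum]
  exact (norm_sum_le _ _).trans (Finset.sum_le_sum fun r hr => h r hr M hM)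

lemma Tn.trace_le {A : Matrix β γ ℂ} {t : ℝ} (h : Tn A t) {M : Matrix γ β ℂ} {c : ℝ} (hc : 0 < c)
    (hM : Opb M c) : ‖(M * A).trace‖ ≤ c * t := by
  have := h (c⁻¹ • M) (by simpa [hc.ne'] using hM.rsmul c⁻¹)
  rw [Matrix.smul_mul, trace_smul, norm_smul, Real.norm_of_nonneg (by positivity)] at this
  exact (inv_mul_le_iff₀ hc).1 this

lemma Tn.mul_left {A : Matrix β γ ℂ} {t : ℝ} (h : Tn A t) {U : Matrix δ β ℂ} {c : ℝ} (hc : 0 < c)
    (hU : Opb U c) : Tn (U * A) (c * t) := fun M hM => by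
  rw [← Matrix.mul_assoc]
  exact h.trace_le hc (by simpa using hM.mul hU)

lemma Tn.mul_right {A : Matrix β γ ℂ} {t : ℝ} (h : Tn A t) {U : Matrix γ δ ℂ} {c : ℝ} (hc : 0 < c)
    (hU : Opb U c) : Tn (A * U) (c * t) := fun M hM => by
  rw [← Matrix.mul_assoc, trace_mul_comm, ← Matrix.mul_assoc]
  exact h.trace_le hc (by simpa using hU.mul hM)

lemma Tn.conj {A : Matrix β γ ℂ} {t : ℝ} (h : Tn A t) : Tn Aᴴ t := fun M hM => by
  have := h Mᴴ hM.conj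
  rwa [← norm_star, ← trace_conjTranspose, conjTranspose_mul, conjTranspose_conjTranspose,
    trace_mul_comm] at this

lemma tn_mul (F : Matrix β δ ℂ) (G : Matrix δ γ ℂ) : Tn (F * G) (√(hs F) * √(hs G)) :=
  fun M hM => by
    rw [← Matrix.mul_assoc]
    refine (norm_trace_le _ _).trans ?_
    have := hM.hs_mul F
    gcongr
    simpa using this

lemma Tn.hs_le {A : Matrix β γ ℂ} {t c : ℝ} (h : Tn A t) (hc : 0 < c) (hA : Opb A c) :
    hs A ≤ c * t := by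
  rw [hs_eq_rt]; exact (rt_le_norm _).trans (h.trace_le hc hA.conj)

lemma Tn.up {A : Matrix β β ℂ} {t : ℝ} (h : Tn A t) : Up A t :=
  fun P hP => (rt_le_norm _).trans (h P hP.opb)

lemma Tn.abs_tp {A P : Matrix β β ℂ} {t : ℝ} (h : Tn A t) (hP : Con P) : |tp P A| ≤ t :=
  (abs_rt_le _).trans (h P hP.opb)

lemma Tn.abs_rt {A : Matrix β β ℂ} {t : ℝ} (h : Tn A t) : |rt A| ≤ t := by
  simpa using (abs_rt_le _).trans (h 1 opb_one)

lemma Up.nonneg {A : Matrix β β ℂ} {t : ℝ} (h : Up A t) : 0 ≤ t := by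
  simpa only [tp, zero_mul, trace_zero, Complex.zero_re] using h 0 ⟨PosSemidef.zero, by simpa using PosSemidef.one⟩

lemma Up.mono {A B : Matrix β β ℂ} {s t : ℝ} (h : Up B s) (hA : A ≤ B) (hs : s ≤ t) : Up A t :=
  fun P hP => (tp_mono (con_iff.1 hP).1 hA).trans ((h P hP).trans hs)

lemma Up.add {A B : Matrix β β ℂ} {s t : ℝ} (h : Up A s) (h' : Up B t) : Up (A + B) (s + t) :=
  fun P hP => by rw [tp_add]; exact add_le_add (h P hP) (h' P hP)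

lemma Up.rsmul {A : Matrix β β ℂ} {t : ℝ} (h : Up A t) {c : ℝ} (hc : 0 ≤ c) :
    Up (c • A) (c * t) := fun P hP => by
  rw [tp_rsmul]; exact mul_le_mul_of_nonneg_left (h P hP) hc

lemma up_sum {ρ : Type} (s : Finset ρ) {A : ρ → Matrix β β ℂ} {t : ρ → ℝ}
    (h : ∀ r ∈ s, Up (A r) (t r)) : Up (∑ r ∈ s, A r) (∑ r ∈ s, t r) := fun P hP => by
  rw [tp_sum]; exact Finset.sum_le_sum fun r hr => h r hr P hP

lemma up_psd {Z : Matrix β β ℂ} (h : 0 ≤ Z) : Up Z (rt Z) :=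
  fun _ hP => hP.tp_le (nonneg_def.1 h)

lemma up_nonpos {A : Matrix β β ℂ} (h : A ≤ 0) : Up A 0 := fun P hP => by
  simpa only [tp, mul_zero, trace_zero, Complex.zero_re] using tp_mono (con_iff.1 hP).1 h

lemma Up.conj {A : Matrix β β ℂ} {t : ℝ} (h : Up A t) {T : Matrix β γ ℂ} (hT : Opb T 1) :
    Up (Tᴴ * A * T) t := fun P hP => by
  have := h _ (hP.conj hT.conj)
  rw [conjTranspose_conjTranspose, tp_eq_rt, Matrix.mul_assoc, Matrix.mul_assoc, rt_comm] at this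
  rw [tp_eq_rt]
  simpa only [Matrix.mul_assoc] using this

lemma Spec.up {A P : Matrix β β ℂ} (h : Spec A P) : Up A (tp P A) := fun C hC => by
  have e : A = P * A + (1 - P) * A := by rw [← add_mul]; simp
  have h1 := up_psd h.2.2.1 C hC
  have h2 := up_nonpos h.2.2.2 C hC
  conv_lhs => rw [e, tp_add]
  rw [tp_eq_rt P]
  linarith

/-- sums over an orthonormal basis -/
lemma basis_mul {b : β → β → ℂ} (hb : ∀ k k', ip (b k) (b k') = if k = k' then 1 else 0)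
    (f g : β → ℝ) : (∑ k, f k • op (b k) (b k)) * (∑ k, g k • op (b k) (b k)) =
      ∑ k, (f k * g k) • op (b k) (b k) := by
  rw [Finset.sum_mul_sum]
  refine Finset.sum_congr rfl fun k _ => ?_
  simp only [Algebra.mul_smul_comm, Algebra.smul_mul_assoc, op_mul_op, hb, ite_smul, one_smul, zero_smul, smul_ite, smul_zero, smul_smul, mul_comm, Finset.sum_ite_eq, Finset.mem_univ, ↓ reduceIte]

lemma basis_nonneg (b : β → β → ℂ) {f : β → ℝ} (hf : ∀ k, 0 ≤ f k) :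
    0 ≤ ∑ k, f k • op (b k) (b k) :=
  Finset.sum_nonneg fun k _ => rsmul_nonneg (op_nonneg _) (hf k)

lemma basis_le (b : β → β → ℂ) {f g : β → ℝ} (hf : ∀ k, f k ≤ g k) :
    ∑ k, f k • op (b k) (b k) ≤ ∑ k, g k • op (b k) (b k) :=
  Finset.sum_le_sum fun k _ => rsmul_le_rsmul (op_nonneg _) (hf k)

lemma basis_conj (b : β → β → ℂ) (f : β → ℝ) :
    (∑ k, f k • op (b k) (b k))ᴴ = ∑ k, f k • op (b k) (b k) := by
  simp only [conjTranspose_sum, conjTranspose_smul, star_trivial, op_conjTranspose]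

lemma basis_rt {b : β → β → ℂ} (hb : ∀ k k', ip (b k) (b k') = if k = k' then 1 else 0)
    (f : β → ℝ) : rt (∑ k, f k • op (b k) (b k)) = ∑ k, f k := by
  simp only [rt, trace_sum, trace_smul, trace_op, hb, ↓ reduceIte, Complex.real_smul, mul_one, Complex.re_sum, Complex.ofReal_re]

lemma basis_trf {b : β → β → ℂ} (hb : ∀ k k', ip (b k) (b k') = if k = k' then 1 else 0)
    (l : β → ℝ) (f : ℝ → ℝ) : trf f (∑ k, l k • op (b k) (b k)) = ∑ k, f (l k) := by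
  have h1 : (Matrix.of fun i k => b k i)ᴴ * (Matrix.of fun i k => b k i) = 1 := by
    ext k k'
    simpa only [Matrix.mul_apply, conjTranspose_apply, of_apply, RCLike.star_def, one_apply, ip_eq] using hb k k'
  rw [← H14.trf_dg, ← H14.trf_conj f h1 (H14.dg l)]
  congr 1
  ext i j
  simp only [Matrix.mul_apply (N := conjTranspose _), H14.dg, mul_diagonal, Matrix.sum_apply,
    op_apply, Matrix.smul_apply, of_apply, conjTranspose_apply, Complex.real_smul]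
  exact Finset.sum_congr rfl fun k _ => by ring

/-- the spectral theorem with real scalars -/
lemma exists_basis {A : Matrix β β ℂ} (hA : Aᴴ = A) : ∃ (b : β → β → ℂ) (l : β → ℝ),
    (∀ k k', ip (b k) (b k') = if k = k' then 1 else 0) ∧
      ∑ k, (1 : ℝ) • op (b k) (b k) = 1 ∧ A = ∑ k, l k • op (b k) (b k) ∧
      ∀ k, A *ᵥ b k = l k • b k := by
  obtain ⟨b, l, h1, h2, h3, h4⟩ := spectral_op (W := A) hA
  exact ⟨b, l, h1, by simpa only [one_smul] using h2, h3, h4⟩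

/-- a spectral projector that contains the kernel -/
lemma exists_spec {A : Matrix β β ℂ} (hA : Aᴴ = A) : ∃ P, Spec A P ∧
    ∀ v, P *ᵥ v = 0 → 0 ≤ (ip v (A *ᵥ v)).re → v = 0 := by
  obtain ⟨b, l, hb, h1, hW, -⟩ := exists_basis hA
  have hc : 1 - ∑ k, (if 0 ≤ l k then (1 : ℝ) else 0) • op (b k) (b k) =
      ∑ k, (if 0 ≤ l k then (0 : ℝ) else 1) • op (b k) (b k) := by
    rw [← h1, ← Finset.sum_sub_distrib]
    refine Finset.sum_congr rfl fun k _ => ?_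
    split_ifs <;> simp
  refine ⟨∑ k, (if 0 ≤ l k then (1 : ℝ) else 0) • op (b k) (b k),
    ⟨⟨basis_conj _ _, ?_⟩, ?_, ?_, ?_⟩, fun v hv h0 => ?_⟩
  · rw [basis_mul hb]
    refine Finset.sum_congr rfl fun k _ => ?_
    split_ifs <;> simp
  · rw [hW, basis_mul hb, basis_mul hb]
    simp only [mul_comm]
  · rw [hW, basis_mul hb]
    refine basis_nonneg _ fun k => ?_
    split_ifs with h <;> simp [h]
  · rw [hc, hW, basis_mul hb]
    refine (basis_le b (g := 0) fun k => ?_).trans (by simp only [Pi.zero_apply, zero_smul, Finset.sum_const_zero, Std.le_refl])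
    split_ifs with h
    · simp
    · simpa using (not_le.1 h).le
  · have e : ∀ f : β → ℝ, (ip v ((∑ k, f k • op (b k) (b k)) *ᵥ v)).re =
        ∑ k, f k * ‖ip (b k) v‖ ^ 2 := fun f => by
      rw [sum_mulVec, ip_sum_right, Complex.re_sum]
      refine Finset.sum_congr rfl fun k _ => ?_
      rw [smul_mulVec, op_mulVec, ← Complex.coe_smul, ip_smul_right, ip_smul_right,
        ← star_ip (b k) v, Complex.star_def, Complex.mul_conj', ← Complex.ofReal_pow,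
        ← Complex.ofReal_mul, Complex.ofReal_re]
    have a1 := e fun k => if 0 ≤ l k then (1 : ℝ) else 0
    rw [hv, ip_zero_right, Complex.zero_re] at a1
    have a2 := (Finset.sum_eq_zero_iff_of_nonneg fun k _ => by positivity).1 a1.symm
    rw [hW, e] at h0
    have a3 : ∀ k ∈ Finset.univ, l k * ‖ip (b k) v‖ ^ 2 ≤ 0 := fun k hk => by
      by_cases h : 0 ≤ l k
      · have := a2 k hk
        rw [if_pos h, one_mul] at this
        rw [this, mul_zero]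
      · exact mul_nonpos_of_nonpos_of_nonneg (not_le.1 h).le (by positivity)
    have a4 := (Finset.sum_eq_zero_iff_of_nonpos a3).1 (le_antisymm (Finset.sum_nonpos a3) h0)
    have a5 := e fun _ => 1
    rw [h1, one_mulVec] at a5
    refine eq_zero_of_ip_self (a5.trans (Finset.sum_eq_zero fun k hk => ?_))
    by_cases h : 0 ≤ l k
    · simpa [h] using a2 k hk
    · simpa [(not_le.1 h).ne] using a4 k hk

lemma up_iff_trf {A : Matrix β β ℂ} (hA : Aᴴ = A) {t : ℝ} :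
    Up (A - 1) t ↔ trf (fun x => max (x - 1) 0) A ≤ t := by
  obtain ⟨b, l, hb, h1, hW, -⟩ := exists_basis hA
  have e : A - 1 = ∑ k, (l k - 1) • op (b k) (b k) := by
    rw [hW, ← h1, ← Finset.sum_sub_distrib]
    simp only [sub_smul]
  rw [e, hW, basis_trf hb]
  refine ⟨fun h => ?_, fun h => ?_⟩
  · have := h (∑ k, (if 0 ≤ l k - 1 then (1 : ℝ) else 0) • op (b k) (b k)) (con_iff.2
      ⟨basis_nonneg _ fun k => by positivity, by
        rw [← h1]; exact basis_le _ fun k => by split_ifs <;> simp⟩)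
    rw [tp_eq_rt, basis_mul hb, basis_rt hb] at this
    refine le_trans (le_of_eq (Finset.sum_congr rfl fun k _ => ?_)) this
    split_ifs with h
    · rw [max_eq_left h, one_mul]
    · rw [max_eq_right (not_le.1 h).le, zero_mul]
  · refine (up_psd (basis_nonneg b fun k => le_max_right (l k - 1) 0)).mono
      (basis_le b fun k => le_max_left _ _) ?_
    rwa [basis_rt hb]

/-- passage to the Gram matrix -/
lemma Up.gram {W : Matrix β γ ℂ} {t : ℝ} (h : Up (Wᴴ * W - 1) t) : Up (W * Wᴴ - 1) t := by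
  rw [up_iff_trf (by simp)] at h ⊢
  rwa [H14.trf_comm (by simp only [zero_sub, Left.neg_nonpos_iff, zero_le_one, sup_of_le_right])]

lemma exists_factor {A : Matrix β β ℂ} (h : 0 ≤ A) : ∃ T : Matrix β β ℂ, Tᴴ = T ∧ T * T = A := by
  obtain ⟨b, l, hb, -, hW, hl⟩ := exists_basis (herm_of_nonneg h)
  have h0 : ∀ k, 0 ≤ l k := fun k => by
    have := psd_re_nonneg (nonneg_def.1 h) (b k)
    rwa [hl, ← Complex.coe_smul, ip_smul_right, hb, if_pos rfl, mul_one, Complex.ofReal_re] at this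
  refine ⟨∑ k, √(l k) • op (b k) (b k), basis_conj _ _, ?_⟩
  rw [basis_mul hb, hW]
  simp only [Real.mul_self_sqrt (h0 _)]

lemma tn_psd {Z : Matrix β β ℂ} (h : 0 ≤ Z) : Tn Z (rt Z) := by
  obtain ⟨T, h1, h2⟩ := exists_factor h
  have := tn_mul T T
  rwa [Real.mul_self_sqrt (hs_nonneg T), hs_eq_rt, h1, h2] at this

end Abs

end Pool.Agent.MP_b746ed_mp.LD
end

section
/-! Large local dimension: operators that act as the identity on a set of sites. -/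

set_option autoImplicit false
set_option linter.unusedSectionVars false
open scoped ComplexOrder MatrixOrder
open Matrix

namespace Pool.Agent.MP_b746ed_mp.LD
open KF

variable {ι α : Type} [Fintype ι] [DecidableEq ι] [Fintype α] [DecidableEq α]

/-- `y` on `T` and `a` elsewhere -/
def pw (T : Finset ι) (y a : ι → α) : ι → α := fun i => if i ∈ T then y i else a i

/-- `o` on `T` and `a` elsewhere -/
def mask (o : α) (T : Finset ι) (a : ι → α) : ι → α := fun i => if i ∈ T then o else a i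

/-- configurations that are `o` outside `T` -/
def cfg (o : α) (T : Finset ι) : Finset (ι → α) := Finset.univ.filter fun y => ∀ i, i ∉ T → y i = o

/-- the sites where `x` is not `o` -/
def spt (o : α) (x : ι → α) : Finset ι := Finset.univ.filter fun i => x i ≠ o

/-- the part of `f` that has `o` at all sites of `T` -/
def emb (o : α) (T : Finset ι) (f : (ι → α) → ℂ) : (ι → α) → ℂ :=
  fun a => if ∀ i ∈ T, a i = o then f a else 0

/-- squared norm of `f` seen as a vector on the complement of `T` -/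
noncomputable def nq (o : α) (T : Finset ι) (f : (ι → α) → ℂ) : ℝ := nv (emb o T f)

/-- the basis vector `y` on `T` tensor `f` on the complement -/
def col (o : α) (T : Finset ι) (f : (ι → α) → ℂ) (y : ι → α) : (ι → α) → ℂ :=
  fun a => if ∀ i ∈ T, a i = y i then f (mask o T a) else 0

/-- the identity on `T` tensor `f g^*` on the complement -/
def xop (o : α) (T : Finset ι) (f g : (ι → α) → ℂ) : Matrix (ι → α) (ι → α) ℂ :=
  Matrix.of fun a b => if ∀ i ∈ T, a i = b i then f (mask o T a) * star (g (mask o T b)) else 0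

/-- the slice of `ψ` at the values `y` on `T` -/
def sl (T : Finset ι) (y : ι → α) (ψ : (ι → α) → ℂ) : (ι → α) → ℂ := fun a => ψ (pw T y a)

/-- the identity on `T` tensor the reduced state of `ψ` on the complement -/
def XT (o : α) (T : Finset ι) (ψ : (ι → α) → ℂ) : Matrix (ι → α) (ι → α) ℂ :=
  ∑ y ∈ cfg o T, xop o T (sl T y ψ) (sl T y ψ)

/-- the reference product vector -/
def e0 (o : α) : (ι → α) → ℂ := Pi.single (fun _ => o) 1

/-- the identity on `T` tensor an operator of trace norm at most `ν` -/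
def Nuc (o : α) (T : Finset ι) (Z : Matrix (ι → α) (ι → α) ℂ) (ν : ℝ) : Prop :=
  ∃ (κ : Type) (_ : Fintype κ) (f g : κ → (ι → α) → ℂ), Z = ∑ k, xop o T (f k) (g k) ∧
    ∑ k, √(nq o T (f k)) * √(nq o T (g k)) ≤ ν

/-- `A` acts as the identity on the sites of `T` -/
def Lo (o : α) (T : Finset ι) (A : Matrix (ι → α) (ι → α) ℂ) : Prop :=
  ∀ f, (∀ g, A * xop o T f g = xop o T (A *ᵥ emb o T f) g) ∧
    emb o T (A *ᵥ emb o T f) = A *ᵥ emb o T f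

/-- the projector on the basis vectors with support `A` -/
def PA (o : α) (A : Finset ι) : Matrix (ι → α) (ι → α) ℂ :=
  diagonal fun x => if spt o x = A then 1 else 0

/-- the map that sends a basis vector `x` of support `A` to `x` on `A` tensor `f` -/
def Jc (o : α) (A : Finset ι) (f : (ι → α) → ℂ) : Matrix (ι → α) (ι → α) ℂ :=
  xop o A f (e0 o) * PA o A

/-- `f` without its component along the reference vector -/
def prp (o : α) (f : (ι → α) → ℂ) : (ι → α) → ℂ := fun a => if a = fun _ => o then 0 else f a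

variable (o : α) (T : Finset ι)

lemma mem_cfg {y : ι → α} : y ∈ cfg o T ↔ ∀ i, i ∉ T → y i = o := by simp only [cfg, Finset.mem_filter, Finset.mem_univ, true_and]

lemma mem_spt {x : ι → α} {i : ι} : i ∈ spt o x ↔ x i ≠ o := by simp only [spt, ne_eq, Finset.mem_filter, Finset.mem_univ, true_and]

lemma mem_cfg_iff {y : ι → α} : y ∈ cfg o T ↔ spt o y ⊆ T := by
  simp only [mem_cfg, Finset.subset_iff, mem_spt]
  exact forall_congr' fun i => not_imp_comm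

lemma mask_mem (a : ι → α) : mask o T a ∈ cfg o Tᶜ := by
  simp +contextual [mem_cfg, mask]

lemma mask_of_mem {a : ι → α} (h : ∀ i ∈ T, a i = o) : mask o T a = a := by
  funext i; by_cases hi : i ∈ T <;> simp [mask, hi, h]

lemma mask_mask (a : ι → α) : mask o T (mask o T a) = mask o T a := by
  funext i; by_cases hi : i ∈ T <;> simp [mask, hi]

lemma sum_inj_le {A B : Type} [DecidableEq B] {s : Finset A} {t : Finset B} (φ : A → B)
    (h1 : ∀ a ∈ s, φ a ∈ t) (h2 : ∀ a ∈ s, ∀ b ∈ s, φ a = φ b → a = b) {F : B → ℝ}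
    (hF : ∀ b, 0 ≤ F b) : ∑ a ∈ s, F (φ a) ≤ ∑ b ∈ t, F b := by
  rw [← Finset.sum_image h2]
  exact Finset.sum_le_sum_of_subset_of_nonneg (Finset.image_subset_iff.2 h1) fun b _ _ => hF b

lemma sum_pw {M : Type} [AddCommMonoid M] (F : (ι → α) → M) :
    ∑ a, F a = ∑ y ∈ cfg o T, ∑ z ∈ cfg o Tᶜ, F (pw T y z) := by
  rw [← Finset.sum_product']
  refine Finset.sum_nbij' (fun a => (mask o Tᶜ a, mask o T a)) (fun p => pw T p.1 p.2) ?_ ?_ ?_ ?_ ?_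
  · intro a _
    simpa using ⟨by simpa using mask_mem o Tᶜ a, mask_mem o T a⟩
  · simp only [Finset.mem_product, Finset.mem_univ, implies_true]
  · intro a _
    funext i; by_cases hi : i ∈ T <;> simp [mask, pw, hi]
  · intro p hp
    simp only [Finset.mem_product, mem_cfg, Finset.mem_compl, not_not] at hp
    refine Prod.ext (funext fun i => ?_) (funext fun i => ?_) <;> by_cases hi : i ∈ T <;>
      simp [mask, pw, hi, hp.1, hp.2]
  · intro a _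
    congr 1
    funext i; by_cases hi : i ∈ T <;> simp [mask, pw, hi]

/-- the sum over the configurations that agree with `y` on `T` -/
lemma sum_agree {M : Type} [AddCommMonoid M] (y : ι → α) (F : (ι → α) → M) :
    ∑ a, (if ∀ i ∈ T, a i = y i then F a else 0) = ∑ z ∈ cfg o Tᶜ, F (pw T y z) := by
  rw [← Finset.sum_filter]
  refine Finset.sum_nbij' (fun a => mask o T a) (fun z => pw T y z) ?_ ?_ ?_ ?_ ?_
  · exact fun a _ => mask_mem o T a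
  · intro z _
    simp +contextual only [Finset.mem_filter, Finset.mem_univ, pw, ↓ reduceIte, implies_true, and_self]
  · intro a ha
    simp only [Finset.mem_filter, Finset.mem_univ, true_and] at ha
    funext i; by_cases hi : i ∈ T <;> simp [mask, pw, hi, ha]
  · intro z hz
    simp only [mem_cfg, Finset.mem_compl, not_not] at hz
    funext i; by_cases hi : i ∈ T <;> simp [mask, pw, hi, hz]
  · intro a ha
    simp only [Finset.mem_filter, Finset.mem_univ, true_and] at ha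
    congr 1
    funext i; by_cases hi : i ∈ T <;> simp [mask, pw, hi, ha]

lemma mask_pw (y : ι → α) {z : ι → α} (hz : z ∈ cfg o Tᶜ) : mask o T (pw T y z) = z := by
  simp only [mem_cfg, Finset.mem_compl, not_not] at hz
  funext i; by_cases hi : i ∈ T <;> simp [mask, pw, hi, hz]

lemma card_cfg : (cfg o T).card = Fintype.card α ^ T.card := by
  have : cfg o T = Fintype.piFinset fun i => if i ∈ T then Finset.univ else {o} := by
    ext y
    simp only [mem_cfg, Fintype.mem_piFinset]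
    refine forall_congr' fun i => ?_
    by_cases hi : i ∈ T <;> simp only [hi, not_true_eq_false, IsEmpty.forall_iff, ↓ reduceIte, Finset.mem_univ, not_false_eq_true, forall_const, Finset.mem_singleton]
  rw [this, Fintype.card_piFinset]
  simp only [apply_ite Finset.card, Finset.card_univ, Finset.card_singleton, Finset.prod_ite_mem, Finset.univ_inter, Finset.prod_const]

lemma card_spt (A : Finset ι) :
    (Finset.univ.filter fun x : ι → α => spt o x = A).card = (Fintype.card α - 1) ^ A.card := by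
  have : (Finset.univ.filter fun x : ι → α => spt o x = A) =
      Fintype.piFinset fun i => if i ∈ A then Finset.univ.erase o else {o} := by
    ext y
    simp only [Finset.mem_filter, Finset.mem_univ, true_and, Finset.ext_iff, mem_spt,
      Fintype.mem_piFinset]
    refine forall_congr' fun i => ?_
    by_cases hi : i ∈ A <;> simp only [ne_eq, hi, iff_true, ↓ reduceIte, Finset.mem_erase, Finset.mem_univ, and_true, iff_false, Decidable.not_not, Finset.mem_singleton]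
  rw [this, Fintype.card_piFinset]
  simp only [apply_ite Finset.card, Finset.mem_univ, Finset.card_erase_of_mem, Finset.card_univ, Finset.card_singleton, Finset.prod_ite_mem, Finset.univ_inter, Finset.prod_const]

lemma emb_emb (f : (ι → α) → ℂ) : emb o T (emb o T f) = emb o T f := by
  funext a; simp +contextual only [emb, implies_true, ↓ reduceIte]

lemma emb_add (f g : (ι → α) → ℂ) : emb o T (f + g) = emb o T f + emb o T g := by
  funext a; simp only [emb, Pi.add_apply]; split_ifs <;> simp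

lemma emb_sub (f g : (ι → α) → ℂ) : emb o T (f - g) = emb o T f - emb o T g := by
  funext a; simp only [emb, Pi.sub_apply]; split_ifs <;> simp

lemma emb_smul (c : ℂ) (f : (ι → α) → ℂ) : emb o T (c • f) = c • emb o T f := by
  funext a; simp only [emb, Pi.smul_apply, smul_eq_mul, mul_ite, mul_zero]

lemma emb_rsmul (c : ℝ) (f : (ι → α) → ℂ) : emb o T (c • f) = c • emb o T f := by
  funext a; simp only [emb, Pi.smul_apply, Complex.real_smul, smul_ite, smul_zero]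

lemma emb_zero : emb o T 0 = 0 := by funext a; simp only [emb, Pi.zero_apply, ite_self]

lemma emb_mask (f : (ι → α) → ℂ) (a : ι → α) : emb o T f (mask o T a) = f (mask o T a) := by
  simp +contextual [emb, mask]

lemma emb_e0 : emb o T (e0 o) = e0 o := by
  funext a
  by_cases h : a = fun _ => o
  · simp [emb, h]
  · simp only [emb, e0, ne_eq, h, not_false_eq_true, Pi.single_eq_of_ne, ite_self]

lemma nv_e0 : nv (e0 o : (ι → α) → ℂ) = 1 := by simp only [nv, e0, Pi.single_apply, apply_ite, norm_one, norm_zero, ite_pow, one_pow, ne_eq, OfNat.ofNat_ne_zero, not_false_eq_true, zero_pow, Finset.sum_ite_eq', Finset.mem_univ, ↓ reduceIte]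

lemma ip_e0 (f : (ι → α) → ℂ) : ip (e0 o) f = f fun _ => o := by
  simp only [e0, ip_eq, Pi.single_apply, apply_ite, star_one, star_zero, ite_mul, one_mul, zero_mul, Finset.sum_ite_eq', Finset.mem_univ, ↓ reduceIte]

lemma nq_e0 : nq o T (e0 o) = 1 := by rw [nq, emb_e0, nv_e0]

lemma nq_nonneg (f : (ι → α) → ℂ) : 0 ≤ nq o T f := nv_nonneg _

lemma ip_emb (f g : (ι → α) → ℂ) :
    ip (emb o T f) (emb o T g) = ∑ z ∈ cfg o Tᶜ, star (f z) * g z := by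
  rw [cfg, Finset.sum_filter, ip_eq]
  refine Finset.sum_congr rfl fun a _ => ?_
  simp only [emb, Finset.mem_compl, not_not]
  split_ifs <;> simp

lemma nq_eq (f : (ι → α) → ℂ) : nq o T f = ∑ z ∈ cfg o Tᶜ, ‖f z‖ ^ 2 := by
  rw [cfg, Finset.sum_filter, nq, nv]
  refine Finset.sum_congr rfl fun a _ => ?_
  simp only [emb, Finset.mem_compl, not_not]
  split_ifs <;> simp

lemma nq_le (f : (ι → α) → ℂ) : nq o T f ≤ nv f := by
  rw [nq_eq]
  exact Finset.sum_le_sum_of_subset_of_nonneg (Finset.subset_univ _) fun _ _ _ => by positivity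

lemma nq_emb (f : (ι → α) → ℂ) : nq o T (emb o T f) = nq o T f := by rw [nq, emb_emb, nq]

lemma nq_zero : nq o T 0 = 0 := by rw [nq, emb_zero, nv_zero]

lemma nq_rsmul (c : ℝ) (f : (ι → α) → ℂ) : nq o T (c • f) = c ^ 2 * nq o T f := by
  rw [nq, emb_rsmul, nv_rsmul, nq]

lemma nq_smul (c : ℂ) (f : (ι → α) → ℂ) : nq o T (c • f) = ‖c‖ ^ 2 * nq o T f := by
  rw [nq, emb_smul, nv_smul, nq]

lemma sqrt_nq_add (f g : (ι → α) → ℂ) : √(nq o T (f + g)) ≤ √(nq o T f) + √(nq o T g) := by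
  rw [nq, emb_add]; exact sqrt_nv_add _ _

lemma sqrt_nq_sub (f g : (ι → α) → ℂ) : √(nq o T (f - g)) ≤ √(nq o T f) + √(nq o T g) := by
  rw [nq, emb_sub]; exact sqrt_nv_sub _ _

lemma ip_col (f g : (ι → α) → ℂ) (y : ι → α) :
    ip (col o T f y) (col o T g y) = ip (emb o T f) (emb o T g) := by
  have := sum_agree o T y fun a => star (f (mask o T a)) * g (mask o T a)
  rw [Finset.sum_congr (s₁ := cfg o Tᶜ) rfl fun z hz => by rw [mask_pw o T y hz]] at this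
  rw [ip_emb, ip_eq, ← this]
  refine Finset.sum_congr rfl fun a _ => ?_
  simp only [col]
  split_ifs <;> simp

lemma nv_col (f : (ι → α) → ℂ) (y : ι → α) : nv (col o T f y) = nq o T f := by
  rw [nv_eq_ip, ip_col, nq, nv_eq_ip]

lemma xop_eq_sum (f g : (ι → α) → ℂ) :
    xop o T f g = ∑ y ∈ cfg o T, op (col o T f y) (col o T g y) := by
  ext a b
  simp only [xop, of_apply, Matrix.sum_apply, op_apply, col]
  rw [Finset.sum_eq_single (mask o Tᶜ a)]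
  · by_cases h : ∀ i ∈ T, a i = b i
    · rw [if_pos h, if_pos (by simp +contextual [mask]), if_pos (by simp +contextual [mask, h])]
    · rw [if_neg h, if_neg (c := ∀ i ∈ T, b i = _) fun h' => h fun i hi => by
        simpa [mask, hi] using (h' i hi).symm]
      simp only [star_zero, mul_zero]
  · intro y hy hne
    rw [if_neg fun h => hne (funext fun i => ?_), zero_mul]
    by_cases hi : i ∈ T
    · simp [mask, hi, h]
    · simp [mask, hi, (mem_cfg o T).1 hy i hi]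
  · exact fun h => absurd (by simpa using mask_mem o Tᶜ a) h

lemma xop_conj (f g : (ι → α) → ℂ) : (xop o T f g)ᴴ = xop o T g f := by
  simp only [xop_eq_sum, conjTranspose_sum, op_conjTranspose]

lemma xop_nonneg (f : (ι → α) → ℂ) : 0 ≤ xop o T f f := by
  rw [xop_eq_sum]; exact Finset.sum_nonneg fun _ _ => op_nonneg _

lemma xop_emb_left (f g : (ι → α) → ℂ) : xop o T (emb o T f) g = xop o T f g := by
  simp only [xop, emb_mask]

lemma xop_emb_right (f g : (ι → α) → ℂ) : xop o T f (emb o T g) = xop o T f g := by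
  simp only [xop, emb_mask]

lemma xop_add_left (f f' g : (ι → α) → ℂ) : xop o T (f + f') g = xop o T f g + xop o T f' g := by
  ext a b; simp only [xop, of_apply, Matrix.add_apply, Pi.add_apply]; split_ifs <;> simp [add_mul]

lemma xop_add_right (f g g' : (ι → α) → ℂ) : xop o T f (g + g') = xop o T f g + xop o T f g' := by
  ext a b; simp only [xop, of_apply, Matrix.add_apply, Pi.add_apply]; split_ifs <;> simp [mul_add]

lemma xop_sub_left (f f' g : (ι → α) → ℂ) : xop o T (f - f') g = xop o T f g - xop o T f' g := by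
  ext a b; simp only [xop, of_apply, Matrix.sub_apply, Pi.sub_apply]; split_ifs <;> simp [sub_mul]

lemma xop_sub_right (f g g' : (ι → α) → ℂ) : xop o T f (g - g') = xop o T f g - xop o T f g' := by
  ext a b; simp only [xop, of_apply, Matrix.sub_apply, Pi.sub_apply]; split_ifs <;> simp [mul_sub]

lemma xop_smul_left (c : ℂ) (f g : (ι → α) → ℂ) : xop o T (c • f) g = c • xop o T f g := by
  ext a b; simp only [xop, Pi.smul_apply, smul_eq_mul, RCLike.star_def, mul_assoc, of_apply, Matrix.smul_apply, mul_ite, mul_zero]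

lemma xop_smul_right (c : ℂ) (f g : (ι → α) → ℂ) : xop o T f (c • g) = star c • xop o T f g := by
  ext a b; simp only [xop, Pi.smul_apply, smul_eq_mul, star_mul', RCLike.star_def, of_apply, Matrix.smul_apply, mul_ite, mul_left_comm, mul_zero]

lemma xop_rsmul_left (c : ℝ) (f g : (ι → α) → ℂ) : xop o T (c • f) g = c • xop o T f g :=
  xop_smul_left o T c f g

lemma xop_rsmul_right (c : ℝ) (f g : (ι → α) → ℂ) : xop o T f (c • g) = c • xop o T f g := by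
  ext a b; simp only [xop, Pi.smul_apply, Complex.real_smul, star_mul', RCLike.star_def, Complex.conj_ofReal, mul_left_comm, of_apply, Matrix.smul_apply, smul_ite, smul_zero]

lemma xop_zero_left (g : (ι → α) → ℂ) : xop o T 0 g = 0 := by ext a b; simp only [xop, Pi.zero_apply, RCLike.star_def, zero_mul, ite_self, of_apply, Matrix.zero_apply]

lemma xop_zero_right (f : (ι → α) → ℂ) : xop o T f 0 = 0 := by ext a b; simp only [xop, Pi.zero_apply, star_zero, mul_zero, ite_self, of_apply, Matrix.zero_apply]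

lemma xop_sum_left {ρ : Type} (s : Finset ρ) (f : ρ → (ι → α) → ℂ) (g : (ι → α) → ℂ) :
    xop o T (∑ r ∈ s, f r) g = ∑ r ∈ s, xop o T (f r) g := by
  ext a b; simp only [xop, Finset.sum_apply, RCLike.star_def, Finset.sum_mul, of_apply, Matrix.sum_apply, Finset.sum_ite_irrel, Finset.sum_const_zero]

lemma trace_xop (f g : (ι → α) → ℂ) :
    (xop o T f g).trace = Fintype.card α ^ T.card * ip (emb o T g) (emb o T f) := by
  simp only [xop_eq_sum, trace_sum, trace_op, ip_col, Finset.sum_const, card_cfg, nsmul_eq_mul, Nat.cast_pow]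

lemma rt_xop (f : (ι → α) → ℂ) : rt (xop o T f f) = Fintype.card α ^ T.card * nq o T f := by
  rw [rt, trace_xop, ip_self_nv, nq]
  norm_cast

lemma tn_op {β : Type} [Fintype β] [DecidableEq β] (x y : β → ℂ) :
    Tn (op x y) (√(nv x) * √(nv y)) := fun M hM => by
  have : (M * op x y).trace = ip y (M *ᵥ x) := by
    rw [op, mul_vecMulVec, ← op, trace_op]
  rw [this]
  simpa only [ge_iff_le, mul_comm, one_mul] using hM.ip_le zero_le_one y x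

lemma tn_xop (f g : (ι → α) → ℂ) :
    Tn (xop o T f g) (Fintype.card α ^ T.card * (√(nq o T f) * √(nq o T g))) := by
  rw [xop_eq_sum]
  refine (tn_sum _ fun y _ => tn_op _ _).mono (le_of_eq ?_)
  simp only [nv_col, Finset.sum_const, card_cfg, nsmul_eq_mul, Nat.cast_pow]

/-- the product of two such operators -/
lemma xop_mul (T' : Finset ι) (f g f' g' : (ι → α) → ℂ) :
    xop o T f g * xop o T' f' g' = ∑ c ∈ cfg o (T ∪ T')ᶜ, xop o (T ∩ T')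
      (fun a => f (mask o T a) * f' (mask o T' (pw (T ∪ T')ᶜ c a)))
      (fun b => g (mask o T (pw (T ∪ T')ᶜ c b)) * g' (mask o T' b)) := by
  ext a b
  simp only [Matrix.mul_apply, Matrix.sum_apply, xop, of_apply]
  by_cases h : ∀ i ∈ T ∩ T', a i = b i
  · have key : ∀ c : ι → α, (∀ i ∈ T ∪ T', c i = pw T a b i) ↔
        (∀ i ∈ T, a i = c i) ∧ ∀ i ∈ T', c i = b i := fun c => by
      refine ⟨fun hc => ⟨fun i hi => ?_, fun i hi => ?_⟩, fun hc i hi => ?_⟩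
      · simp [hc i (Finset.mem_union_left _ hi), pw, hi]
      · by_cases h' : i ∈ T
        · simp [hc i (Finset.mem_union_right _ hi), pw, h', h i (Finset.mem_inter.2 ⟨h', hi⟩)]
        · simp [hc i (Finset.mem_union_right _ hi), pw, h']
      · by_cases h' : i ∈ T
        · simp [pw, h', hc.1 i h']
        · simp [pw, h', hc.2 i ((Finset.mem_union.1 hi).resolve_left h')]
    have := sum_agree o (T ∪ T') (pw T a b) fun c =>
      f (mask o T a) * star (g (mask o T c)) * (f' (mask o T' c) * star (g' (mask o T' b)))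
    simp only [key] at this
    simp only [if_pos h, ite_zero_mul_ite_zero, this]
    refine Finset.sum_congr rfl fun c _ => ?_
    have e1 : mask o T (mask o (T ∩ T') a) = mask o T a := by
      funext i; by_cases h1 : i ∈ T <;> simp [mask, h1]
    have e2 : mask o T' (mask o (T ∩ T') b) = mask o T' b := by
      funext i; by_cases h1 : i ∈ T' <;> simp [mask, h1]
    have e3 : mask o T' (pw (T ∪ T')ᶜ c (mask o (T ∩ T') a)) =
        mask o T' (pw (T ∪ T') (pw T a b) c) := by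
      funext i; by_cases h1 : i ∈ T <;> by_cases h2 : i ∈ T' <;> simp [mask, pw, h1, h2]
    have e4 : mask o T (pw (T ∪ T')ᶜ c (mask o (T ∩ T') b)) =
        mask o T (pw (T ∪ T') (pw T a b) c) := by
      funext i; by_cases h1 : i ∈ T <;> by_cases h2 : i ∈ T' <;> simp [mask, pw, h1, h2]
    rw [e1, e2, e3, e4, star_mul']
    ring
  · simp only [if_neg h, ite_zero_mul_ite_zero, Finset.sum_const_zero]
    refine Finset.sum_eq_zero fun c _ => if_neg fun hc => h fun i hi => ?_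
    rw [hc.1 i (Finset.mem_inter.1 hi).1, hc.2 i (Finset.mem_inter.1 hi).2]

lemma sum_nq_mul (T' : Finset ι) (f f' : (ι → α) → ℂ) : ∑ c ∈ cfg o (T ∪ T')ᶜ, nq o (T ∩ T')
    (fun a => f (mask o T a) * f' (mask o T' (pw (T ∪ T')ᶜ c a))) ≤ nq o T f * nq o T' f' := by
  simp only [nq_eq, norm_mul, mul_pow]
  rw [Finset.sum_mul_sum, ← Finset.sum_product', ← Finset.sum_product']
  refine sum_inj_le (F := fun q : (ι → α) × (ι → α) => ‖f q.1‖ ^ 2 * ‖f' q.2‖ ^ 2)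
    (fun p : (ι → α) × (ι → α) => (mask o T p.2, mask o T' (pw (T ∪ T')ᶜ p.1 p.2)))
    (fun p _ => Finset.mem_product.2 ⟨mask_mem _ _ _, mask_mem _ _ _⟩) (fun p hp q hq h => ?_)
    fun _ => by positivity
  simp only [Finset.mem_product, mem_cfg, Finset.mem_compl, not_not, Prod.mk.injEq, funext_iff]
    at hp hq h
  refine Prod.ext (funext fun i => ?_) (funext fun i => ?_) <;> have h1 := h.1 i <;>
    have h2 := h.2 i <;> by_cases a1 : i ∈ T <;> by_cases a2 : i ∈ T' <;>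
    simp_all [mask, pw]

lemma xop_mul_same (f g f' g' : (ι → α) → ℂ) :
    xop o T f g * xop o T f' g' = ip (emb o T g) (emb o T f') • xop o T f g' := by
  rw [xop_mul, Finset.union_self, Finset.inter_self, ip_emb, Finset.sum_smul]
  refine Finset.sum_congr rfl fun c hc => ?_
  have e : ∀ a : ι → α, mask o T (pw Tᶜ c a) = c := fun a => by
    simp only [mem_cfg, Finset.mem_compl, not_not] at hc
    funext i; by_cases h1 : i ∈ T <;> simp [mask, pw, h1, hc]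
  ext a b
  simp only [xop, of_apply, e, mask_mask, Matrix.smul_apply, smul_eq_mul, star_mul']
  split_ifs <;> ring

lemma le_of_sq {β : Type} [Fintype β] [DecidableEq β] {X : Matrix β β ℂ} {c : ℝ} (hX : Xᴴ = X)
    (hc : 0 ≤ c) (h : X * X = c • X) : X ≤ c • (1 : Matrix β β ℂ) := by
  rcases hc.eq_or_lt with rfl | hc
  · rw [zero_smul] at h ⊢
    exact le_of_eq (conjTranspose_mul_self_eq_zero.1 (by rwa [hX]))
  · have h1 : 0 ≤ (c • 1 - X)ᴴ * (c • 1 - X) := nonneg_def.2 (posSemidef_conjTranspose_mul_self _)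
    have h2 : (c • 1 - X)ᴴ * (c • 1 - X) = c • (c • 1 - X) := by
      simp [hX, sub_mul, mul_sub, h]
    have := rsmul_nonneg (h2 ▸ h1) (inv_nonneg.2 hc.le)
    rwa [smul_smul, inv_mul_cancel₀ hc.ne', one_smul, sub_nonneg] at this

lemma xop_le (f : (ι → α) → ℂ) : xop o T f f ≤ nq o T f • (1 : Matrix _ _ ℂ) :=
  le_of_sq (xop_conj o T f f) (nq_nonneg o T f) (by rw [xop_mul_same, ip_self_nv]; rfl)

lemma opb_xop (f g : (ι → α) → ℂ) : Opb (xop o T f g) (√(nq o T f) * √(nq o T g)) := by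
  rw [opb_iff, xop_conj, xop_mul_same, ip_self_nv, mul_pow, Real.sq_sqrt (nq_nonneg _ _ _),
    Real.sq_sqrt (nq_nonneg _ _ _), ← smul_smul]
  exact rsmul_le (xop_le o T g) (nq_nonneg _ _ _)

variable {o T}

lemma Nuc.nonneg {Z : Matrix (ι → α) (ι → α) ℂ} {ν : ℝ} (h : Nuc o T Z ν) : 0 ≤ ν := by
  obtain ⟨κ, _, f, g, -, h⟩ := h
  exact le_trans (Finset.sum_nonneg fun _ _ => by positivity) h

lemma Nuc.mono {Z : Matrix (ι → α) (ι → α) ℂ} {ν ν' : ℝ} (h : Nuc o T Z ν) (h' : ν ≤ ν') :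
    Nuc o T Z ν' := by
  obtain ⟨κ, _, f, g, h1, h2⟩ := h
  exact ⟨κ, _, f, g, h1, h2.trans h'⟩

lemma nuc_xop (f g : (ι → α) → ℂ) : Nuc o T (xop o T f g) (√(nq o T f) * √(nq o T g)) :=
  ⟨Unit, inferInstance, fun _ => f, fun _ => g, by simp, by simp⟩

lemma nuc_zero : Nuc o T 0 0 := ⟨Empty, inferInstance, fun _ => 0, fun _ => 0, by simp, by simp only [Finset.univ_eq_empty, Finset.sum_const, Finset.card_empty, zero_nsmul, Std.le_refl]⟩

lemma Nuc.add {Z Z' : Matrix (ι → α) (ι → α) ℂ} {ν ν' : ℝ} (h : Nuc o T Z ν)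
    (h' : Nuc o T Z' ν') : Nuc o T (Z + Z') (ν + ν') := by
  obtain ⟨κ, _, f, g, h1, h2⟩ := h
  obtain ⟨κ', _, f', g', h1', h2'⟩ := h'
  exact ⟨κ ⊕ κ', inferInstance, Sum.elim f f', Sum.elim g g', by simp only [h1, h1', Fintype.sum_sum_type, Sum.elim_inl, Sum.elim_inr],
    by simpa only [Fintype.sum_sum_type, Sum.elim_inl, Sum.elim_inr] using add_le_add h2 h2'⟩

lemma nuc_sum {ρ : Type} (s : Finset ρ) {Z : ρ → Matrix (ι → α) (ι → α) ℂ} {ν : ρ → ℝ}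
    (h : ∀ r ∈ s, Nuc o T (Z r) (ν r)) : Nuc o T (∑ r ∈ s, Z r) (∑ r ∈ s, ν r) := by
  classical
  induction s using Finset.induction_on with
  | empty => simpa using nuc_zero
  | insert r s hr ih =>
    rw [Finset.sum_insert hr, Finset.sum_insert hr]
    exact (h r (by simp)).add (ih fun k hk => h k (by simp [hk]))

lemma Nuc.rsmul {Z : Matrix (ι → α) (ι → α) ℂ} {ν : ℝ} (h : Nuc o T Z ν) (c : ℝ) :
    Nuc o T (c • Z) (|c| * ν) := by
  obtain ⟨κ, _, f, g, h1, h2⟩ := h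
  refine ⟨κ, inferInstance, fun k => c • f k, g, by simp only [h1, xop_rsmul_left, Finset.smul_sum], ?_⟩
  simp only [nq_rsmul, Real.sqrt_mul (sq_nonneg c), Real.sqrt_sq_eq_abs, mul_assoc,
    ← Finset.mul_sum]
  exact mul_le_mul_of_nonneg_left h2 (abs_nonneg c)

lemma Nuc.neg {Z : Matrix (ι → α) (ι → α) ℂ} {ν : ℝ} (h : Nuc o T Z ν) : Nuc o T (-Z) ν := by
  simpa using h.rsmul (-1)

lemma Nuc.conj {Z : Matrix (ι → α) (ι → α) ℂ} {ν : ℝ} (h : Nuc o T Z ν) : Nuc o T Zᴴ ν := by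
  obtain ⟨κ, _, f, g, h1, h2⟩ := h
  exact ⟨κ, _, g, f, by simp only [h1, conjTranspose_sum, xop_conj],
    by simpa only [mul_comm] using h2⟩

lemma Nuc.opb {Z : Matrix (ι → α) (ι → α) ℂ} {ν : ℝ} (h : Nuc o T Z ν) : Opb Z ν := by
  obtain ⟨κ, _, f, g, rfl, h2⟩ := h
  exact (opb_sum _ (fun k _ => opb_xop o T _ _) fun _ _ => by positivity).mono
    (Finset.sum_nonneg fun _ _ => by positivity) h2

lemma Nuc.tn {Z : Matrix (ι → α) (ι → α) ℂ} {ν : ℝ} (h : Nuc o T Z ν) :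
    Tn Z (Fintype.card α ^ T.card * ν) := by
  obtain ⟨κ, _, f, g, rfl, h2⟩ := h
  refine (tn_sum _ fun k _ => tn_xop o T _ _).mono ?_
  rw [← Finset.mul_sum]
  gcongr

lemma Nuc.hs_le {Z : Matrix (ι → α) (ι → α) ℂ} {ν : ℝ} (h : Nuc o T Z ν) :
    hs Z ≤ Fintype.card α ^ T.card * ν ^ 2 := by
  refine le_of_forall_pos_le_add fun ε hε => ?_
  have h0 := h.nonneg
  have h1 : 0 ≤ (Fintype.card α : ℝ) ^ T.card * ν := by positivity
  have := h.tn.hs_le (c := ν + ε / (Fintype.card α ^ T.card * ν + 1)) (by positivity)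
    (h.opb.mono h0 (le_add_of_nonneg_right (by positivity)))
  have h2 : ε / (Fintype.card α ^ T.card * ν + 1) * (Fintype.card α ^ T.card * ν) ≤ ε := by
    rw [div_mul_eq_mul_div, div_le_iff₀ (by positivity)]
    linarith only [hε]
  linarith only [this, h2]

lemma nuc_xop_mul (T' : Finset ι) (f g f' g' : (ι → α) → ℂ) :
    Nuc o (T ∩ T') (xop o T f g * xop o T' f' g')
      (√(nq o T f) * √(nq o T g) * (√(nq o T' f') * √(nq o T' g'))) := by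
  rw [xop_mul]
  refine (nuc_sum _ fun c _ => nuc_xop _ _).mono ((Real.sum_sqrt_mul_sqrt_le _
    (fun _ => nq_nonneg _ _ _) fun _ => nq_nonneg _ _ _).trans ?_)
  have h1 := sum_nq_mul o T T' f f'
  have h2 := sum_nq_mul o T' T g' g
  rw [Finset.union_comm, Finset.inter_comm] at h2
  simp only [mul_comm (g' _)] at h2
  refine (mul_le_mul (Real.sqrt_le_sqrt h1) (Real.sqrt_le_sqrt h2) (by positivity)
    (by positivity)).trans (le_of_eq ?_)
  rw [Real.sqrt_mul (nq_nonneg _ _ _), Real.sqrt_mul (nq_nonneg _ _ _)]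
  ring

/-- the product rule -/
lemma Nuc.mul {T' : Finset ι} {Z Z' : Matrix (ι → α) (ι → α) ℂ} {ν ν' : ℝ} (h : Nuc o T Z ν)
    (h' : Nuc o T' Z' ν') : Nuc o (T ∩ T') (Z * Z') (ν * ν') := by
  have h0 := h.nonneg
  obtain ⟨κ, _, f, g, rfl, h2⟩ := h
  obtain ⟨κ', _, f', g', rfl, h2'⟩ := h'
  rw [Finset.sum_mul_sum]
  refine (nuc_sum _ fun k _ => nuc_sum _ fun l _ => nuc_xop_mul T' _ _ _ _).mono ?_
  rw [← Finset.sum_mul_sum]
  exact mul_le_mul h2 h2' (Finset.sum_nonneg fun _ _ => by positivity) h0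

lemma lo_one : Lo o T 1 := fun f =>
  ⟨fun g => by rw [one_mul, one_mulVec, xop_emb_left], by rw [one_mulVec, emb_emb]⟩

lemma lo_zero : Lo o T 0 := fun f =>
  ⟨fun g => by rw [zero_mul, zero_mulVec, xop_zero_left], by rw [zero_mulVec, emb_zero]⟩

lemma Lo.add {A B : Matrix (ι → α) (ι → α) ℂ} (h : Lo o T A) (h' : Lo o T B) : Lo o T (A + B) :=
  fun f => ⟨fun g => by rw [add_mul, add_mulVec, xop_add_left, (h f).1, (h' f).1],
    by rw [add_mulVec, emb_add, (h f).2, (h' f).2]⟩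

lemma Lo.sub {A B : Matrix (ι → α) (ι → α) ℂ} (h : Lo o T A) (h' : Lo o T B) : Lo o T (A - B) :=
  fun f => ⟨fun g => by rw [sub_mul, sub_mulVec, xop_sub_left, (h f).1, (h' f).1],
    by rw [sub_mulVec, emb_sub, (h f).2, (h' f).2]⟩

lemma Lo.rsmul {A : Matrix (ι → α) (ι → α) ℂ} (h : Lo o T A) (c : ℝ) : Lo o T (c • A) :=
  fun f => ⟨fun g => by rw [smul_mul_assoc, smul_mulVec, xop_rsmul_left, (h f).1],
    by rw [smul_mulVec, emb_rsmul, (h f).2]⟩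

lemma lo_sum {ρ : Type} (s : Finset ρ) {A : ρ → Matrix (ι → α) (ι → α) ℂ}
    (h : ∀ r ∈ s, Lo o T (A r)) : Lo o T (∑ r ∈ s, A r) :=
  Finset.sum_induction _ _ (fun _ _ => Lo.add) lo_zero h

lemma lo_xop {S : Finset ι} (h : T ⊆ S) (u v : (ι → α) → ℂ) : Lo o T (xop o S u v) := by
  intro f
  refine ⟨fun g => ?_, funext fun a => ?_⟩
  · ext a b
    have e1 := sum_agree o T b fun c => xop o S u v a c * (f (mask o T c) * star (g (mask o T b)))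
    have e2 := sum_agree o T (fun _ => o) fun c => xop o S u v (mask o T a) c * f c
    have e3 : ∀ z, xop o S u v a (pw T b z) =
        if ∀ i ∈ T, a i = b i then xop o S u v (mask o T a) (pw T (fun _ => o) z) else 0 := by
      intro z
      have m1 : mask o S (mask o T a) = mask o S a := by
        funext i; by_cases h1 : i ∈ T <;> simp [mask, h1, @h i]
      have m2 : ∀ y, mask o S (pw T y z) = mask o S z := fun y => by
        funext i; by_cases h1 : i ∈ T <;> simp [mask, pw, h1, @h i]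
      have m3 : (∀ i ∈ S, a i = pw T b z i) ↔
          (∀ i ∈ T, a i = b i) ∧ ∀ i ∈ S, mask o T a i = pw T (fun _ => o) z i := by
        refine ⟨fun hc => ⟨fun i hi => by simpa [pw, hi] using hc i (h hi), fun i hi => ?_⟩,
          fun hc i hi => ?_⟩ <;> by_cases h1 : i ∈ T
        · simp [mask, pw, h1]
        · simpa [mask, pw, h1] using hc i hi
        · simpa [pw, h1] using hc.1 i h1
        · simpa [mask, pw, h1] using hc.2 i hi
      simp only [xop, of_apply, m1, m2, m3, ite_and]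
    rw [Matrix.mul_apply, xop.eq_1 o T, xop.eq_1 o T]
    simp only [of_apply, mulVec, dotProduct, emb, mul_ite, mul_zero, e1, e2, e3]
    split_ifs
    · rw [Finset.sum_mul]
      refine Finset.sum_congr rfl fun z hz => ?_
      have : pw T (fun _ => o) z = z := mask_of_mem o T (by simpa only [mem_cfg, Finset.mem_compl, Decidable.not_not] using hz)
      rw [mask_pw o T b hz, this, mul_assoc]
    · simp
  · refine ite_eq_left_iff.2 fun ha => (Finset.sum_eq_zero fun c _ => ?_).symm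
    simp only [xop, of_apply, emb]
    rw [ite_zero_mul_ite_zero, if_neg fun hc => ha fun i hi => by rw [hc.1 i (h hi), hc.2 i hi]]

lemma Nuc.lo {S : Finset ι} {Z : Matrix (ι → α) (ι → α) ℂ} {ν : ℝ} (hZ : Nuc o S Z ν)
    (h : T ⊆ S) : Lo o T Z := by
  obtain ⟨κ, _, f, g, rfl, -⟩ := hZ
  exact lo_sum _ fun k _ => lo_xop h _ _

/-- solving a local linear equation -/
lemma Lo.solve {L : Matrix (ι → α) (ι → α) ℂ} (hL : Lo o T L) {b : ℝ} (hb0 : 0 ≤ b)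
    (hb : b ≤ 1 / 2) (h : Opb L b) (f : (ι → α) → ℂ) : ∃ f0, emb o T f0 = f0 ∧
      (1 - L) *ᵥ f0 = emb o T f ∧ √(nv f0) ≤ 2 * √(nq o T f) ∧
      √(nv (f0 - emb o T f)) ≤ 2 * b * √(nq o T f) := by
  have low : ∀ v, √(nv v) ≤ 2 * √(nv ((1 - L) *ᵥ v)) := fun v => by
    have h1 := sqrt_nv_add ((1 - L) *ᵥ v) (L *ᵥ v)
    rw [← add_mulVec, sub_add_cancel, one_mulVec] at h1
    nlinarith [h.sqrt_le hb0 v, Real.sqrt_nonneg (nv v)]
  let V : Submodule ℂ ((ι → α) → ℂ) :=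
    { carrier := {v | emb o T v = v}
      add_mem' := fun {x y} hx hy => by
        change emb o T (x + y) = x + y
        rw [emb_add, hx, hy]
      zero_mem' := emb_zero o T
      smul_mem' := fun c x hx => by
        change emb o T (c • x) = c • x
        rw [emb_smul, hx] }
  have hV : ∀ v ∈ V, (1 - L).mulVecLin v ∈ V := fun v hv => by
    have := ((lo_one.sub hL) v).2
    rwa [show emb o T v = v from hv] at this
  have inj : Function.Injective ((1 - L).mulVecLin.restrict hV) := by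
    rw [injective_iff_map_eq_zero]
    intro v hv
    have h1 : (1 - L) *ᵥ v.1 = 0 := congrArg Subtype.val hv
    have h2 := low v.1
    rw [h1, nv_zero, Real.sqrt_zero, mul_zero] at h2
    refine Subtype.ext (eq_zero_of_ip_self ?_)
    rw [← nv_eq_ip]
    exact le_antisymm (Real.sqrt_eq_zero'.1 (le_antisymm h2 (Real.sqrt_nonneg _))) (nv_nonneg _)
  obtain ⟨f0, h0⟩ := LinearMap.injective_iff_surjective.1 inj ⟨emb o T f, emb_emb o T f⟩
  have h1 : (1 - L) *ᵥ f0.1 = emb o T f := congrArg Subtype.val h0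
  have h2 := low f0.1
  rw [h1] at h2
  refine ⟨f0.1, f0.2, h1, h2, ?_⟩
  have : f0.1 - emb o T f = L *ᵥ f0.1 := by rw [← h1, sub_mulVec, one_mulVec, sub_sub_cancel]
  rw [this]
  refine (h.sqrt_le hb0 _).trans ?_
  have := mul_le_mul_of_nonneg_left h2 hb0
  rw [nq]
  linarith only [this]

variable (o T)

lemma sum_nq_sl (ψ : (ι → α) → ℂ) : ∑ y ∈ cfg o T, nq o T (sl T y ψ) = nv ψ := by
  rw [nv, sum_pw o T]
  simp only [nq_eq, sl]

lemma sl_sub (y : ι → α) (ψ φ : (ι → α) → ℂ) : sl T y (ψ - φ) = sl T y ψ - sl T y φ := rfl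

lemma XT_nonneg (ψ : (ι → α) → ℂ) : 0 ≤ XT o T ψ :=
  Finset.sum_nonneg fun _ _ => xop_nonneg o T _

lemma XT_conj (ψ : (ι → α) → ℂ) : (XT o T ψ)ᴴ = XT o T ψ := herm_of_nonneg (XT_nonneg o T ψ)

lemma nuc_XT (ψ : (ι → α) → ℂ) : Nuc o T (XT o T ψ) (nv ψ) := by
  refine (nuc_sum _ fun y _ => nuc_xop _ _).mono (le_of_eq ?_)
  simp only [Real.mul_self_sqrt (nq_nonneg _ _ _), sum_nq_sl]

lemma XT_le (ψ : (ι → α) → ℂ) : XT o T ψ ≤ nv ψ • (1 : Matrix _ _ ℂ) :=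
  (nuc_XT o T ψ).opb.le (nv_nonneg ψ) (XT_conj o T ψ)

lemma rt_XT (ψ : (ι → α) → ℂ) : rt (XT o T ψ) = Fintype.card α ^ T.card * nv ψ := by
  simp only [XT, rt_sum, rt_xop, ← Finset.mul_sum, sum_nq_sl]

lemma nuc_XT_sub (ψ φ : (ι → α) → ℂ) :
    Nuc o T (XT o T ψ - XT o T φ) ((√(nv ψ) + √(nv φ)) * √(nv (ψ - φ))) := by
  have e : XT o T ψ - XT o T φ = ∑ y ∈ cfg o T, xop o T (sl T y ψ) (sl T y (ψ - φ)) +
      ∑ y ∈ cfg o T, xop o T (sl T y (ψ - φ)) (sl T y φ) := by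
    simp only [XT, sl_sub, xop_sub_left, xop_sub_right, Finset.sum_sub_distrib]
    abel
  have c : ∀ f g : (ι → α) → ℂ, ∑ y ∈ cfg o T, √(nq o T (sl T y f)) * √(nq o T (sl T y g)) ≤
      √(nv f) * √(nv g) := fun f g => by
    rw [← sum_nq_sl o T f, ← sum_nq_sl o T g]
    exact Real.sum_sqrt_mul_sqrt_le _ (fun _ => nq_nonneg _ _ _) fun _ => nq_nonneg _ _ _
  rw [e]
  refine ((nuc_sum _ fun y _ => nuc_xop _ _).add (nuc_sum _ fun y _ => nuc_xop _ _)).mono ?_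
  linarith [c ψ (ψ - φ), c (ψ - φ) φ]

lemma XT_apply (ψ : (ι → α) → ℂ) (a b : ι → α) : XT o T ψ a b =
    if ∀ i ∈ T, a i = b i then ∑ y ∈ cfg o T, ψ (pw T y a) * star (ψ (pw T y b)) else 0 := by
  have e : ∀ y c : ι → α, pw T y (mask o T c) = pw T y c := fun y c => by
    funext i; by_cases h : i ∈ T <;> simp [pw, mask, h]
  simp only [XT, Matrix.sum_apply, xop, of_apply, sl, e]
  split_ifs <;> simp

lemma XT_rsmul (c : ℝ) (ψ : (ι → α) → ℂ) : XT o T (c • ψ) = c ^ 2 • XT o T ψ := by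
  have : ∀ y, sl T y (c • ψ) = c • sl T y ψ := fun _ => rfl
  simp only [XT, this, xop_rsmul_left, xop_rsmul_right, smul_smul, Finset.smul_sum, sq]

lemma XT_zero : XT o T 0 = 0 := by
  have : ∀ y, sl T y (0 : (ι → α) → ℂ) = 0 := fun _ => rfl
  simp [XT, this, xop_zero_left]

lemma XT_split (ψ : (ι → α) → ℂ) : XT o T ψ = xop o T ψ ψ + XT o T (ψ - emb o T ψ) := by
  have h0 : (fun _ => o) ∈ cfg o T := by simp [mem_cfg]
  have e1 : ∀ f : (ι → α) → ℂ, emb o T (sl T (fun _ => o) f) = emb o T f := fun f => by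
    funext a
    simp only [emb, sl]
    split_ifs with h
    · exact congrArg f (mask_of_mem o T h)
    · rfl
  have e2 : ∀ f : (ι → α) → ℂ, xop o T (sl T (fun _ => o) f) (sl T (fun _ => o) f) = xop o T f f :=
    fun f => by rw [← xop_emb_left, ← xop_emb_right, e1, xop_emb_left, xop_emb_right]
  rw [XT, XT, ← Finset.add_sum_erase _ _ h0, ← Finset.add_sum_erase _ _ h0, e2, e2,
    ← xop_emb_left o T (ψ - _), emb_sub, emb_emb, sub_self, xop_zero_left, zero_add]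
  congr 1
  refine Finset.sum_congr rfl fun y hy => ?_
  have : sl T y (emb o T ψ) = 0 := by
    funext a
    refine if_neg fun h => (Finset.mem_erase.1 hy).1 (funext fun i => ?_)
    by_cases hi : i ∈ T
    · simpa [pw, hi] using h i hi
    · exact (mem_cfg o T).1 (Finset.mem_erase.1 hy).2 i hi
  rw [sl_sub, this, sub_zero]

lemma XT_emb (f : (ι → α) → ℂ) : XT o T (emb o T f) = xop o T f f := by
  rw [XT_split, emb_emb, sub_self, XT_zero, add_zero, xop_emb_left, xop_emb_right]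

lemma xop_le_XT (ψ : (ι → α) → ℂ) : xop o T ψ ψ ≤ XT o T ψ := by
  rw [XT_split]; exact le_add_of_nonneg_right (XT_nonneg _ _ _)

lemma XT_empty (ψ : (ι → α) → ℂ) : XT o ∅ ψ = op ψ ψ := by
  have h : emb o ∅ ψ = ψ := by funext a; simp [emb]
  have m : ∀ a : ι → α, mask o ∅ a = a := fun a => mask_of_mem o ∅ (by simp)
  rw [← h, XT_emb, h]
  ext a b
  simp [xop, m, op_apply]

lemma XT_univ (ψ : (ι → α) → ℂ) : XT o Finset.univ ψ = nv ψ • (1 : Matrix _ _ ℂ) := by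
  ext a b
  have e : ∀ y c : ι → α, pw Finset.univ y c = y := fun y c => by funext i; simp only [pw, Finset.mem_univ, ↓ reduceIte]
  have : cfg o (Finset.univ : Finset ι) = Finset.univ := by ext; simp only [mem_cfg, Finset.mem_univ, not_true_eq_false, IsEmpty.forall_iff, implies_true]
  simp only [XT_apply, Finset.mem_univ, forall_const, this, e, RCLike.star_def, Complex.mul_conj', nv, Matrix.smul_apply, one_apply, funext_iff, smul_ite, Complex.real_smul, Complex.ofReal_sum, Complex.ofReal_pow, mul_one, smul_zero]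

lemma PA_conj (A : Finset ι) : (PA o A)ᴴ = PA o A := by
  simp [PA, diagonal_conjTranspose, Pi.star_def, apply_ite]

lemma PA_mul (A B : Finset ι) : PA o A * PA o B = if A = B then PA o A else 0 := by
  rw [PA, PA, diagonal_mul_diagonal]
  split_ifs with h
  · subst h
    congr 1
    funext x
    split_ifs <;> simp
  · rw [← diagonal_zero]
    congr 1
    funext x
    rw [ite_zero_mul_ite_zero, if_neg fun h' => h (h'.1.symm.trans h'.2)]

lemma PA_proj (A : Finset ι) : IsProj (PA o A) := ⟨PA_conj o A, by simp [PA_mul]⟩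

lemma PA_nonneg (A : Finset ι) : 0 ≤ PA o A := (con_iff.1 (PA_proj o A).con).1

lemma opb_PA (A : Finset ι) : Opb (PA o A) 1 := (PA_proj o A).con.opb

lemma sum_PA : ∑ A : Finset ι, PA o A = 1 := by
  ext a b
  simp only [PA, Matrix.sum_apply, diagonal_apply, one_apply]
  split_ifs <;> simp

lemma rt_PA (A : Finset ι) : rt (PA o A) = (Fintype.card α - 1) ^ A.card := by
  have : 1 ≤ Fintype.card α := Fintype.card_pos_iff.2 ⟨o⟩
  simp only [rt, PA, trace_diagonal, Finset.sum_boole, card_spt, Complex.natCast_re]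
  simp only [Nat.cast_pow, this, Nat.cast_sub, Nat.cast_one]

lemma e0_mask (a : ι → α) : e0 o (mask o T a) = if spt o a ⊆ T then 1 else 0 := by
  simp only [e0, Pi.single_apply, ← mem_cfg_iff, mem_cfg, funext_iff, mask]
  congr 1
  refine propext (forall_congr' fun i => ?_)
  by_cases h : i ∈ T <;> simp [h]

lemma xop_e0 : xop o T (e0 o) (e0 o) = ∑ A ∈ T.powerset, PA o A := by
  ext a b
  simp only [xop, of_apply, e0_mask, PA, Matrix.sum_apply, diagonal_apply, ← mem_cfg_iff]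
  by_cases h : a = b
  · simp [h, mem_cfg_iff]
  · simp only [if_neg h, Finset.sum_const_zero, apply_ite star, star_zero, ite_zero_mul_ite_zero,
      ite_eq_right_iff]
    refine fun h1 h2 => absurd (funext fun i => ?_) h
    by_cases hi : i ∈ T
    · exact h1 i hi
    · rw [(mem_cfg o T).1 h2.1 i hi, (mem_cfg o T).1 h2.2 i hi]

lemma Jc_apply (A : Finset ι) (f : (ι → α) → ℂ) (a x : ι → α) :
    Jc o A f a x = if spt o x = A then col o A f x a else 0 := by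
  simp only [Jc, PA, mul_diagonal, xop, of_apply, e0_mask, col]
  by_cases h : spt o x = A <;> simp only [h, Std.le_refl, ↓ reduceIte, star_one, mul_one, RCLike.star_def, MonoidWithZeroHom.map_ite_one_zero, mul_ite, mul_zero]

lemma Jc_mul_PA (A B : Finset ι) (f : (ι → α) → ℂ) :
    Jc o A f * PA o B = if A = B then Jc o A f else 0 := by
  rw [Jc, Matrix.mul_assoc, PA_mul]
  split_ifs <;> simp

lemma Jc_e0 (A : Finset ι) : Jc o A (e0 o) = PA o A := by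
  simp [Jc, xop_e0, Finset.sum_mul, PA_mul]

lemma Jc_emb (A : Finset ι) (f : (ι → α) → ℂ) : Jc o A (emb o A f) = Jc o A f := by
  rw [Jc, xop_emb_left, Jc]

lemma Jc_add (A : Finset ι) (f g : (ι → α) → ℂ) : Jc o A (f + g) = Jc o A f + Jc o A g := by
  simp only [Jc, xop_add_left, add_mul]

lemma Jc_sub (A : Finset ι) (f g : (ι → α) → ℂ) : Jc o A (f - g) = Jc o A f - Jc o A g := by
  simp only [Jc, xop_sub_left, sub_mul]

lemma Jc_smul (A : Finset ι) (c : ℂ) (f : (ι → α) → ℂ) : Jc o A (c • f) = c • Jc o A f := by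
  simp only [Jc, xop_smul_left, smul_mul_assoc]

lemma Jc_rsmul (A : Finset ι) (c : ℝ) (f : (ι → α) → ℂ) : Jc o A (c • f) = c • Jc o A f := by
  simp only [Jc, xop_rsmul_left, smul_mul_assoc]

lemma Jc_gram (A : Finset ι) (f g : (ι → α) → ℂ) :
    (Jc o A f)ᴴ * Jc o A g = ip (emb o A f) (emb o A g) • PA o A := by
  rw [Jc, Jc, conjTranspose_mul, xop_conj, PA_conj, Matrix.mul_assoc, ← Matrix.mul_assoc (xop _ _ _ _),
    xop_mul_same, smul_mul_assoc, mul_smul_comm, ← Jc, Jc_e0, (PA_proj o A).2]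

lemma opb_Jc (A : Finset ι) (f : (ι → α) → ℂ) : Opb (Jc o A f) √(nq o A f) := by
  simpa [nq_e0, Jc] using (opb_xop o A f (e0 o)).mul (opb_PA o A)

lemma hs_Jc (A : Finset ι) (f : (ι → α) → ℂ) :
    hs (Jc o A f) = (Fintype.card α - 1) ^ A.card * nq o A f := by
  rw [hs_eq_rt, Jc_gram, ip_self_nv, Complex.coe_smul, rt_rsmul, rt_PA, mul_comm, nq]

lemma Jc_mul_le (A : Finset ι) (f : (ι → α) → ℂ) : Jc o A f * (Jc o A f)ᴴ ≤ xop o A f f := by
  have := conj_le (con_iff.1 (PA_proj o A).con).2 (xop o A (e0 o) f)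
  rw [Matrix.mul_one, xop_conj, xop_mul_same, emb_e0, ip_self_nv, nv_e0] at this
  rw [Jc, conjTranspose_mul, xop_conj, PA_conj, Matrix.mul_assoc, ← Matrix.mul_assoc (PA _ _),
    (PA_proj o A).2, ← Matrix.mul_assoc]
  simpa only [ge_iff_le, Complex.ofReal_one, one_smul] using this

lemma Lo.mul_Jc {o : α} {A : Finset ι} {L : Matrix (ι → α) (ι → α) ℂ} (h : Lo o A L)
    (f : (ι → α) → ℂ) : L * Jc o A f = Jc o A (L *ᵥ emb o A f) := by
  rw [Jc, ← Matrix.mul_assoc, (h f).1, Jc]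

lemma prp_eq (f : (ι → α) → ℂ) : prp o f = f - (f fun _ => o) • e0 o := by
  funext a
  by_cases h : a = fun _ => o <;> simp [prp, e0, h]

lemma nv_prp (f : (ι → α) → ℂ) : nv (prp o f) = nv f - ‖f fun _ => o‖ ^ 2 := by
  rw [nv, nv, eq_sub_iff_add_eq, ← Finset.add_sum_erase _ _ (Finset.mem_univ fun _ => o),
    ← Finset.add_sum_erase _ _ (Finset.mem_univ fun _ => o),
    Finset.sum_congr rfl fun a ha => by rw [prp, if_neg (Finset.mem_erase.1 ha).1]]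
  simp only [prp, ↓ reduceIte, norm_zero, ne_eq, OfNat.ofNat_ne_zero, not_false_eq_true, zero_pow, Finset.mem_univ, Finset.sum_erase_eq_sub, zero_add, add_comm, add_sub_cancel]

end Pool.Agent.MP_b746ed_mp.LD
end

section
/-! Large local dimension: the statements of the steps of the proof. -/

set_option autoImplicit false
set_option linter.unusedSectionVars false
open scoped ComplexOrder MatrixOrder
open Matrix

namespace Pool.Agent.MP_b746ed_mp.LD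
open KF
open H14 (trf dg)

/-! ### Abstract matrix steps -/

def S_PEN : Prop := ∀ (β : Type) [Fintype β] [DecidableEq β] (R H P : Matrix β β ℂ) (K lam : ℝ),
  IsProj R → Hᴴ = H → 0 ≤ K → Opb H K → K < lam → Con P →
  tp P H - lam * tp (1 - P) R ≤
    rt (R * H) + tp P ((1 - R) * H * (1 - R)) + hs ((1 - R) * H * R) / (lam - K)

def S_RNG : Prop := ∀ (β γ : Type) [Fintype β] [DecidableEq β] [Fintype γ] [DecidableEq γ]
  (J : Matrix β γ ℂ) (E : Matrix γ γ ℂ), IsProj E → J * E = J → Opb (Jᴴ * J - E) (1 / 2) →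
  ∃ R : Matrix β β ℂ, IsProj R ∧ (1 - R) * J = 0 ∧ R ≤ (2 : ℝ) • (J * Jᴴ) ∧
    ∀ (H : Matrix β β ℂ) (K : ℝ), Hᴴ = H → 0 ≤ K → Opb H K →
      rt (R * H) ≤ rt ((E - (Jᴴ * J - E)) * (Jᴴ * H * J)) + 3 * K * hs (Jᴴ * J - E) ∧
      ∀ N : Matrix γ γ ℂ, hs ((1 - R) * H * R) ≤ 2 * hs (H * J - J * N)

def S_MRG : Prop := ∀ (β κ Λ : Type) [Fintype β] [DecidableEq β] [Fintype κ] [DecidableEq κ]
  [Fintype Λ] [DecidableEq Λ] (V V0 : Matrix β κ ℂ) (Z : Λ → Matrix β β ℂ) (S : κ → Finset Λ)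
  (b t : ℝ), 0 ≤ b → b ≤ 1 / 2 → (∀ l, 0 ≤ Z l) → ∑ l, Z l ≤ b • (1 : Matrix β β ℂ) →
  (∀ k a, ((1 - ∑ l ∈ S k, Z l) * V0 : Matrix β κ ℂ) a k = V a k) →
  Up ((Matrix.of fun k k' => (V0ᴴ * (1 - ∑ l ∈ S k ∩ S k', Z l) * V0 : Matrix κ κ ℂ) k k') - 1) t →
  Up (V * Vᴴ + ∑ l, Z l - 1)
    (t + (1 + 2 * b) * ∑ k, ((V0ᴴ * (∑ l ∈ (S k)ᶜ, Z l) * V0 : Matrix κ κ ℂ) k k).re)

def S_REP : Prop := ∀ (A : Type) [Fintype A] [DecidableEq A] (K η : ℝ), 1 ≤ K → 0 < η → η ≤ 1 →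
  ∃ C : ℝ, 0 < C ∧ ∀ (κ : Type) [Fintype κ] [DecidableEq κ] (G G' : Matrix (A × κ) (A × κ) ℂ)
    (Pu : Finset A) (g D t : ℝ), Gᴴ = G → 0 ≤ g → 0 ≤ D →
    (∀ a ∈ Pu, bk G a a ≤ bk G' a a) →
    (∀ a, a ∉ Pu → Up (bk G a a - (1 - η) • (1 : Matrix κ κ ℂ)) (K * D) ∧
      bk G a a ≤ bk G' a a + g • (1 : Matrix κ κ ℂ)) →
    (∀ a b, a ≠ b → hs (bk G a b) ≤ K * D ∧
      (a ∈ Pu ∧ b ∈ Pu → Tn (bk G a b - bk G' a b) (g * D)) ∧
      (¬(a ∈ Pu ∧ b ∈ Pu) → hs (bk G a b - bk G' a b) ≤ g ^ 2 * D)) →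
    Up (G' - 1) t → Up (G - 1) (t + C * g * D)

def S_GS : Prop := ∀ (β A : Type) [Fintype β] [DecidableEq β] (s : Finset A)
  (Z : A → Matrix β β ℂ) (η D : ℝ), 0 ≤ η → η ≤ 1 → 0 ≤ D →
  (∀ a ∈ s, 0 ≤ Z a ∧ Z a ≤ (1 - η) • (1 : Matrix β β ℂ)) →
  (∀ a ∈ s, ∀ b ∈ s, a ≠ b → Tn (Z a * Z b) D) →
  Up (∑ a ∈ s, Z a - (1 - η / 2) • (1 : Matrix β β ℂ)) (s.card ^ 2 * D)

def S_TT : Prop := ∀ (m : ℕ) (K η : ℝ), 0 ≤ K → 0 < η → ∃ C : ℝ, 0 < C ∧
  ∀ (β A : Type) [Fintype β] [DecidableEq β] (s : Finset A) (E : A → Matrix β β ℂ)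
    (M : Matrix β β ℂ) (D t τ : ℝ), s.card ≤ m → 0 ≤ D → 0 ≤ τ → (∀ a ∈ s, IsProj (E a)) →
    (∀ a ∈ s, ∀ b ∈ s, E a * E b = E b * E a) → 0 ≤ M →
    Up (M - (1 - η) • (1 : Matrix β β ℂ)) (K * D) → (∀ a ∈ s, hs (E a * M) ≤ K * D) →
    Up ((1 + τ) • ∑ a ∈ s, E a + M - 1) (t + τ * ∑ a ∈ s, rt (E a)) →
    Up (∑ a ∈ s, E a + M - 1) (t + τ * C * D)

def S_WIN : Prop := ∀ (m : ℕ) (K g : ℝ), 0 ≤ K → 0 < g → g ≤ 1 → ∃ C : ℝ, 0 < C ∧
  ∀ (β A : Type) [Fintype β] [DecidableEq β] (s Gp : Finset A) (Z : A → Matrix β β ℂ)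
    (D t e : ℝ) (f : ℝ → ℝ), s.card ≤ m → 0 ≤ D → 0 < e → e ≤ g / 2 → (∀ a ∈ s, 0 ≤ Z a) →
    (∀ a ∈ s, a ∈ Gp → Z a ≤ (2 : ℝ) • (1 : Matrix β β ℂ) ∧
      g ^ 2 • (1 : Matrix β β ℂ) ≤ (1 - Z a) * (1 - Z a)) →
    (∀ a ∈ s, a ∉ Gp → rt (Z a) ≤ K * D) →
    (∀ a ∈ s, ∀ b ∈ s, a ≠ b → Tn (Z a * Z b) (K * D)) →
    (∀ x, f x ≤ max (x - 1) 0 + if |x - 1| < e then e else 0) →
    Up (∑ a ∈ s, Z a - 1) t → trf f (∑ a ∈ s, Z a) ≤ t + e * C * D

def S_ROT : Prop := ∀ (β A : Type) [Fintype β] [DecidableEq β] (s : Finset A)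
  (Z : A → Matrix β β ℂ) (u : ℝ → ℝ) (K : ℝ), 0 ≤ K → ConvexOn ℝ (Set.Icc 0 K) u → u 0 = 0 →
  (∀ a ∈ s, 0 ≤ Z a) → ∑ a ∈ s, Z a ≤ K • (1 : Matrix β β ℂ) →
  ∑ a ∈ s, trf u (Z a) ≤ trf u (∑ a ∈ s, Z a)

def S_WEI : Prop := ∀ e δ K : ℝ, 0 < e → e ≤ 1 → 0 < δ → 0 ≤ K →
  ∃ (f : ℝ → ℝ) (p : Polynomial ℝ), (∀ x, max (x - 1) 0 ≤ f x) ∧
    (∀ x, f x ≤ max (x - 1) 0 + if |x - 1| < e then e else 0) ∧ p.eval 0 = 0 ∧
    ConvexOn ℝ (Set.Icc 0 K) (fun x => δ * x ^ 2 + (f x - p.eval x)) ∧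
    ConvexOn ℝ (Set.Icc 0 K) (fun x => δ * x ^ 2 - (f x - p.eval x))

/-! ### One site -/

section Site
variable {α A : Type} [Fintype α] [DecidableEq α] [Fintype A]

/-- probability vectors -/
def Prob (p : α → ℝ) : Prop := (∀ x, 0 ≤ p x) ∧ ∑ x, p x = 1

/-- probability vectors with the two largest entries at `z0` and `z1` -/
def Srt (p : α → ℝ) (z0 z1 : α) : Prop :=
  Prob p ∧ z0 ≠ z1 ∧ (∀ u, p u ≤ p z0) ∧ ∀ u, u ≠ z0 → p u ≤ p z1

/-- second moments of a family of matrices -/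
noncomputable def Dm (y : A → Matrix α α ℂ) : Matrix (α × α) (α × α) ℂ :=
  Matrix.of fun e e' => ∑ a, y a e.1 e.2 * star (y a e'.1 e'.2)

noncomputable def dn (y : A → Matrix α α ℂ) (e e' : α × α) : ℝ := ‖Dm y e e'‖

noncomputable def ww (y : A → Matrix α α ℂ) (u t : α) : ℝ := ∑ a, ‖y a u t‖ ^ 2

noncomputable def RR (y : A → Matrix α α ℂ) (u x : α) : ℝ :=
  ∑ a, ∑ b, ‖(y a * y b - y b * y a) u x‖ ^ 2

noncomputable def AA (p : α → ℝ) (y : A → Matrix α α ℂ) : ℝ :=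
  2 * ∑ u, ∑ t, (1 - p u - p t) * ww y u t + 4 * ∑ a, ‖∑ u, (p u : ℂ) * y a u u‖ ^ 2

noncomputable def kap (p : α → ℝ) (z : α) (e : α × α) : ℝ :=
  if e.1 = e.2 then 4 - 2 * p z else 5 - 2 * (p e.1 + p e.2) - (p e.1 - p e.2) ^ 2 - 2 * p z

noncomputable def QQ (p : α → ℝ) (z : α) (y : A → Matrix α α ℂ) : ℝ :=
  ∑ e, ∑ e', kap p z e * dn y e e' ^ 2

noncomputable def Koff (p : α → ℝ) (y : A → Matrix α α ℂ) : ℝ :=
  ∑ x, ∑ u ∈ Finset.univ.erase x, p x * RR y u x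

def HOne (p : α → ℝ) (y : A → Matrix α α ℂ) : Prop := ∀ (x : α) (c : α → ℂ),
  ∑ a, ‖∑ t, c t * y a t x‖ ^ 2 ≤
    1 / 3 * (∑ t, (p t + p x) * ‖c t‖ ^ 2 - 2 * p x ^ 2 * ‖c x‖ ^ 2)

/-- the symmetrised covariance form of one site -/
noncomputable def Cs (p : α → ℝ) : Matrix (α × α) (α × α) ℂ :=
  Matrix.of fun e e' => (((if e = e' then p e.1 + p e.2 else 0) -
    (if e.1 = e.2 ∧ e'.1 = e'.2 then 2 * p e.1 * p e'.1 else 0) : ℝ) : ℂ)

/-- the commutator form of one site -/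
noncomputable def As (p : α → ℝ) : Matrix (α × α) (α × α) ℂ := dg fun e => p e.2 - p e.1

def Rs (z0 z1 : α) : Finset α := (Finset.univ.erase z0).erase z1

def Gen (z0 z1 : α) : Finset (α × α) :=
  Finset.univ.filter fun q => q.1 ≠ q.2 ∧ q ≠ (z0, z1) ∧ q ≠ (z1, z0)

noncomputable def ch (p : α → ℝ) (y : A → Matrix α α ℂ) (u x : α) : ℝ :=
  2 / 3 * (∑ t, (p t + p x) * ww y u t - 2 * p x ^ 2 * ww y u x)

noncomputable def cr (y : A → Matrix α α ℂ) (u x : α) : ℝ :=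
  2 * ∑ t, ∑ t' ∈ Finset.univ.erase t, dn y (u, t) (t', x) * dn y (u, t') (t, x)

noncomputable def cr2 (y : A → Matrix α α ℂ) (z0 z1 : α) : ℝ :=
  2 * ∑ t ∈ Rs z0 z1, ∑ t' ∈ (Rs z0 z1).erase t, dn y (z1, t) (t', z0) * dn y (z1, t') (t, z0) +
  4 * ∑ t ∈ Rs z0 z1, (dn y (z1, z0) (z1, t) * (dn y (t, z0) (z0, z0) + dn y (t, z0) (z1, z1)) +
    dn y (z1, z0) (t, z0) * (dn y (z1, t) (z0, z0) + dn y (z1, t) (z1, z1)))

noncomputable def De (y : A → Matrix α α ℂ) (z0 z1 : α) : ℝ := ∑ a, ‖y a z0 z0 - y a z1 z1‖ ^ 2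

noncomputable def lb (p : α → ℝ) (z0 : α) : ℝ := max 0 (1 - 5 * (1 - p z0))

noncomputable def Lin2 (p : α → ℝ) (y : A → Matrix α α ℂ) (z0 z1 : α) : ℝ :=
  8 / 15 * p z0 * ∑ a ∈ Finset.univ.erase z0, ∑ b ∈ (Finset.univ.erase z0).erase a, ww y a b +
  lb p z0 / 3 * ∑ a ∈ Rs z0 z1, ww y a a +
  4 / 9 * ∑ t ∈ Rs z0 z1, (1 - p z1 - p t) * ww y z1 t

end Site

def S_LL12 : Prop := ∀ (α A : Type) [Fintype α] [DecidableEq α] [Fintype A] (p : α → ℝ)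
  (y : A → Matrix α α ℂ), (∀ a, (y a)ᴴ = y a) → HOne p y →
  (∀ u x, RR y u x ≤ ch p y u x + cr y u x) ∧ ∀ z0 z1, z0 ≠ z1 →
    RR y z1 z0 ≤ 2 * ww y z1 z0 * De y z0 z1 +
      2 / 3 * ∑ t ∈ Rs z0 z1, (p t + p z0) * ww y z1 t + cr2 y z0 z1

def S_LLb : Prop := ∀ (α A : Type) [Fintype α] [DecidableEq α] [Fintype A] (p : α → ℝ)
  (y : A → Matrix α α ℂ) (z0 z1 : α), Srt p z0 z1 → (∀ a, (y a)ᴴ = y a) → HOne p y →
  ∑ q ∈ Gen z0 z1, p q.2 * cr y q.1 q.2 + (p z0 + p z1) * cr2 y z0 z1 +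
      2 * kap p z0 (z0, z1) * ww y z0 z1 ^ 2 +
      (4 - 2 * p z0) * (ww y z0 z0 ^ 2 + 2 * dn y (z0, z0) (z1, z1) ^ 2 + ww y z1 z1 ^ 2) ≤
    QQ p z0 y + Lin2 p y z0 z1

def S_LL4 : Prop := ∀ (α : Type) [Fintype α] [DecidableEq α] (p η : α → ℝ) (z0 z1 : α),
  Srt p z0 z1 →
  2 / 3 * (1 - p z0 - p z1) * (η z0 ^ 2 + η z1 ^ 2) +
      (2 / 3 * (p z0 + min (p z1) (1 - p z0 - p z1)) + lb p z0 / 3) * ∑ u ∈ Rs z0 z1, η u ^ 2 +
      2 / 3 * lb p z0 * (p z0 + p z1) ^ 2 * (η z0 - η z1) ^ 2 ≤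
    199 / 200 * (2 * ∑ u, (1 - 2 * p u) * η u ^ 2 + 4 * (∑ u, p u * η u) ^ 2) ∧
  2 / 9 * ∑ u ∈ Rs z0 z1, η u ^ 2 ≤ 2 * ∑ u, (1 - 2 * p u) * η u ^ 2 + 4 * (∑ u, p u * η u) ^ 2

def S_LLc : Prop := ∀ (α A : Type) [Fintype α] [DecidableEq α] [Fintype A] (p : α → ℝ)
  (y : A → Matrix α α ℂ) (z0 z1 : α), Srt p z0 z1 → (∀ a, (y a)ᴴ = y a) →
  ∑ q ∈ Gen z0 z1, p q.2 * ch p y q.1 q.2 +
      (p z0 + p z1) * (2 / 3 * ∑ t ∈ Rs z0 z1, (p t + p z0) * ww y z1 t) + Lin2 p y z0 z1 +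
      2 / 3 * lb p z0 * (p z0 + p z1) ^ 2 * De y z0 z1 ≤ 199 / 200 * AA p y ∧
  2 / 9 * (1 - p z0) * (∑ u, ∑ t, ww y u t - 2 * ww y z0 z1 - ww y z0 z0 - ww y z1 z1) ≤ AA p y

def S_LLF : Prop := ∀ (α A : Type) [Fintype α] [DecidableEq α] [Fintype A] (p : α → ℝ)
  (y : A → Matrix α α ℂ) (z0 z1 : α) (t : ℝ), Srt p z0 z1 → (∀ a, (y a)ᴴ = y a) → HOne p y →
  0 ≤ t → 2 / 3 * t ≤ ∑ u, ∑ v, ww y u v →
  (1 - p z0) * min t (t ^ 2) / 10800 ≤ AA p y + QQ p z0 y - Koff p y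

def S_C4b : Prop := ∀ (α A : Type) [Fintype α] [DecidableEq α] [Fintype A] (p : α → ℝ) (z : α)
  (y : A → Matrix α α ℂ), Prob p → (∀ a, (y a)ᴴ = y a) →
  Cs p ≤ 1 ∧ ∑ u, ∑ t, ww y u t = rt (Dm y) ∧ AA p y = 2 * rt (Dm y) - 2 * rt (Dm y * Cs p) ∧
    ((3 : ℝ) • Dm y ≤ Cs p → HOne p y) ∧
    QQ p z y - Koff p y ≤
      rt (Dm y * Dm y * ((5 - 2 * p z) • (1 : Matrix _ _ ℂ) - As p * As p - Cs p)) -
        ∑ x, ∑ u, p x * RR y u x

/-! ### Several sites and a reference system -/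

section Cform
variable {I α Ω κ : Type} [Fintype I] [DecidableEq I] [Fintype α] [DecidableEq α] [Fintype Ω]
  [DecidableEq Ω]

/-- commuting copies of the matrix algebra -/
def Comm (L : I → (Matrix α α ℂ →⋆ₐ[ℂ] Matrix Ω Ω ℂ)) : Prop :=
  ∀ i j, i ≠ j → ∀ X Y, L i X * L j Y = L j Y * L i X

/-- the columns are the centred vectors of the matrix units -/
noncomputable def Wm (L : I → (Matrix α α ℂ →⋆ₐ[ℂ] Matrix Ω Ω ℂ)) (ψ : Ω → ℂ) :
    Matrix Ω (I × α × α) ℂ :=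
  Matrix.of fun a k => ((1 - op ψ ψ) *ᵥ (L k.1 (eu k.2.1 k.2.2) *ᵥ ψ)) a

def sw (k : I × α × α) : I × α × α := (k.1, k.2.2, k.2.1)

def bar (τ : κ → κ) (X : Matrix κ κ ℂ) : Matrix κ κ ℂ := Matrix.of fun k l => star (X (τ k) (τ l))

/-- the site diagonal part -/
def sd (X : Matrix (I × α × α) (I × α × α) ℂ) : Matrix (I × α × α) (I × α × α) ℂ :=
  Matrix.of fun k l => if k.1 = l.1 then X k l else 0

noncomputable def am (p : I → α → ℝ) : Matrix (I × α × α) (I × α × α) ℂ :=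
  dg fun k => p k.1 k.2.2 - p k.1 k.2.1

def Cov (p : I → α → ℝ) (G : Matrix (I × α × α) (I × α × α) ℂ) : Prop :=
  0 ≤ G ∧ G - bar sw G = am p ∧ ∀ i, (2 : ℝ) • bk G i i = Cs (p i) + As (p i)

def CThree (p : I → α → ℝ) (G : Matrix (I × α × α) (I × α × α) ℂ) : Prop :=
  ∀ (A : Type) [Fintype A] (y : A → I × α × α → ℂ), (∀ a k, y a (sw k) = star (y a k)) →
    ∀ Bh B, Bh = ∑ a, op (y a) (y a) → B = Bh - sd Bh →
      2 * rt (B * (G + bar sw G)) - rt (B * B * (G + bar sw G)) + rt (Bh * am p * Bh * am p) -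
          ∑ i, ∑ x, ∑ u, p i x * RR (fun a => Matrix.of fun s t => y a (i, s, t)) u x ≤
        2 * ∑ i, (1 - ∑ x, p i x ^ 2)

/-- linear entropy of the reduced state -/
noncomputable def Nn (L : Matrix α α ℂ →⋆ₐ[ℂ] Matrix Ω Ω ℂ) (ψ : Ω → ℂ) : ℝ := 1 - hs (marg L ψ)

/-- a decomposition into pure states -/
def Dec [Fintype κ] (σ : Matrix Ω Ω ℂ) (π : κ → ℝ) (χ : κ → Ω → ℂ) : Prop :=
  (∀ k, 0 ≤ π k) ∧ (∀ k, nv (χ k) = 1) ∧ σ = ∑ k, π k • op (χ k) (χ k)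

end Cform

def S_C1 : Prop := ∀ (I α Ω : Type) [Fintype I] [DecidableEq I] [Fintype α] [DecidableEq α]
  [Fintype Ω] [DecidableEq Ω] (L : I → (Matrix α α ℂ →⋆ₐ[ℂ] Matrix Ω Ω ℂ)) (ψ : Ω → ℂ)
  (p : I → α → ℝ), Comm L → nv ψ = 1 → (∀ i, Prob (p i)) → (∀ i, marg (L i) ψ = dg (p i)) →
  Cov p ((Wm L ψ)ᴴ * Wm L ψ) ∧
    ∀ i j z, i ≠ j → hs (bk ((Wm L ψ)ᴴ * Wm L ψ) j i) ≤ 25 * (1 - p i z)

def S_C3 : Prop := ∀ (I α Ω : Type) [Fintype I] [DecidableEq I] [Fintype α] [DecidableEq α]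
  [Fintype Ω] [DecidableEq Ω] (L : I → (Matrix α α ℂ →⋆ₐ[ℂ] Matrix Ω Ω ℂ)) (ψ : Ω → ℂ)
  (p : I → α → ℝ), Comm L → nv ψ = 1 → (∀ i, Prob (p i)) → (∀ i, marg (L i) ψ = dg (p i)) →
  CThree p ((Wm L ψ)ᴴ * Wm L ψ)

def S_C2 : Prop := ∀ (κ : Type) [Fintype κ] [DecidableEq κ] (τ : κ → κ) (Cp : Matrix κ κ ℂ)
  (a : κ → ℝ), (∀ k, τ (τ k) = k) → 0 ≤ Cp → (∀ k, a (τ k) = -a k) → (∀ k, |a k| ≤ 1) →
  Cp - bar τ Cp = (2 : ℝ) • dg a →
  ∃ E F : Matrix κ κ ℂ, Spec (Cp - (2 : ℝ) • (1 : Matrix κ κ ℂ)) E ∧ 0 ≤ F ∧ (3 : ℝ) • F ≤ Cp ∧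
    (2 / 3 : ℝ) • E ≤ F ∧ (2 : ℝ) • F ≤ F * Cp ∧
    ∀ Bh Th : Matrix κ κ ℂ, Bh = (1 / 2 : ℝ) • (F + bar τ F) → Thᴴ = Th →
      tp E (Cp - (2 : ℝ) • (1 : Matrix κ κ ℂ)) +
          rt ((Th * F + F * Th - Th * Cp * Th) * (1 - dg a * dg a)) ≤
        2 * rt (Bh * (Cp - dg a)) - rt (Bh * Bh * (Cp - dg a)) - 2 * rt Bh +
          rt (Bh * dg a * Bh * dg a)

def S_C4a : Prop := ∀ (I α : Type) [Fintype I] [DecidableEq I] [Fintype α] [DecidableEq α]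
  (p : I → α → ℝ) (z : I → α) (G : Matrix (I × α × α) (I × α × α) ℂ),
  (∀ i, Prob (p i) ∧ ∀ u, p i u ≤ p i (z i)) → Cov p G → CThree p G →
  ∃ (E : Matrix (I × α × α) (I × α × α) ℂ) (A : Type) (_ : Fintype A)
    (y : I → A → Matrix α α ℂ), Spec (G - 1) E ∧
    (∀ i, (∀ a, (y i a)ᴴ = y i a) ∧ (3 : ℝ) • Dm (y i) ≤ Cs (p i) ∧
      2 / 3 * rt (bk E i i) ≤ rt (Dm (y i))) ∧
    2 * tp E (G - 1) + ∑ i, (2 * rt (Dm (y i)) - 2 * rt (Dm (y i) * Cs (p i)) +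
      rt (Dm (y i) * Dm (y i) *
        ((5 - 2 * p i (z i)) • (1 : Matrix _ _ ℂ) - As (p i) * As (p i) - Cs (p i))) -
      ∑ x, ∑ u, p i x * RR (y i) u x) ≤ 2 * ∑ i, (1 - ∑ x, p i x ^ 2)

def S_C5 : Prop := ∀ (I α Ω : Type) [Fintype I] [DecidableEq I] [Fintype α] [DecidableEq α]
  [Fintype Ω] [DecidableEq Ω] (L : I → (Matrix α α ℂ →⋆ₐ[ℂ] Matrix Ω Ω ℂ)) (ψ : Ω → ℂ)
  (p : I → α → ℝ) (i0 : I), 2 ≤ Fintype.card α → Comm L → nv ψ = 1 → (∀ i, Prob (p i)) →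
  (∀ i, marg (L i) ψ = dg (p i)) →
  Up ((Wm L ψ)ᴴ * Wm L ψ - 1) (∑ i, (1 - ∑ x, p i x ^ 2) -
    (1 - ∑ x, p i0 x ^ 2) ^ 3 / (3 * 10 ^ 10 * Fintype.card I ^ 2))

def S_C6 : Prop := ∀ (I α Ω : Type) [Fintype I] [DecidableEq I] [Fintype α] [DecidableEq α]
  [Fintype Ω] [DecidableEq Ω] (L : I → (Matrix α α ℂ →⋆ₐ[ℂ] Matrix Ω Ω ℂ)) (ψ : Ω → ℂ)
  (i0 : I), 2 ≤ Fintype.card α → Comm L → nv ψ = 1 →
  Up ((1 - op ψ ψ) * (∑ i, tw (L i) (op ψ ψ) - 1) * (1 - op ψ ψ))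
    (∑ i, Nn (L i) ψ - Nn (L i0) ψ ^ 3 / (3 * 10 ^ 10 * Fintype.card I ^ 2))

def S_C7 : Prop := ∀ (I α Ω : Type) [Fintype I] [DecidableEq I] [Fintype α] [DecidableEq α]
  [Fintype Ω] [DecidableEq Ω] (L : I → (Matrix α α ℂ →⋆ₐ[ℂ] Matrix Ω Ω ℂ)) (ψ : Ω → ℂ)
  (i0 : I) (b : I → ℝ) (Λ : ℝ), 2 ≤ Fintype.card α → Comm L → nv ψ = 1 →
  (∀ i, 0 ≤ b i ∧ b i ≤ 1) → 2 * ((Fintype.card I : ℝ) + 1) ≤ Λ →
  Up (Λ • op ψ ψ + ∑ i, b i • tw (L i) (op ψ ψ) - 1)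
    (Λ + ∑ i, b i - 1 + 2 * (Fintype.card I + 1) ^ 2 / Λ -
      (∏ i, b i) * Nn (L i0) ψ ^ 3 / (3 * 10 ^ 10 * Fintype.card I ^ 2))

def S_ASS1 : Prop := ∀ (A B : Type) [Fintype A] [DecidableEq A] [Fintype B] [DecidableEq B]
  (σ : Matrix (A × B) (A × B) ℂ) (h h' : ℝ), St σ → 0 ≤ h → 0 ≤ h' →
  trr σ ≤ (1 - h) • (1 : Matrix A A ℂ) →
  (Matrix.of fun y y' => ∑ x, σ (x, y) (x, y')) ≤ (1 - h') • (1 : Matrix B B ℂ) →
  ∃ (κ : Type) (_ : Fintype κ) (π : κ → ℝ) (χ : κ → A × B → ℂ), Dec σ π χ ∧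
    h * h' / 12 ≤ ∑ k, π k * (1 - hs (trr (op (χ k) (χ k))))

/-! ### Many qudits -/

section Ten
variable {ι α : Type} [Fintype ι] [DecidableEq ι] [Fintype α] [DecidableEq α]

/-- the sets with `k` elements -/
def lv (ι : Type) [Fintype ι] [DecidableEq ι] (k : ℕ) : Finset (Finset ι) :=
  Finset.univ.filter fun S => S.card = k

/-- the largest eigenvalue of the reduced state at `i` is at most `1 - h` -/
def Hole (i : ι) (h : ℝ) (σ : Matrix (ι → α) (ι → α) ℂ) : Prop :=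
  ∀ v : α → ℂ, nv v = 1 → tp σ (lift i (op v v)) ≤ 1 - h

/-- the reduced state on the complement of `C`, with the reference vector put on `C` -/
def sig (o : α) (C : Finset ι) (ψ : (ι → α) → ℂ) : Matrix (ι → α) (ι → α) ℂ :=
  ∑ y ∈ cfg o C, op (emb o C (sl C y ψ)) (emb o C (sl C y ψ))

/-- the operator of one cluster -/
noncomputable def Yc (o : α) (C : Finset ι) (Λ : ℝ) (b : ι → ℝ) (ψ : (ι → α) → ℂ) :
    Matrix (ι → α) (ι → α) ℂ := Λ • XT o C ψ + ∑ i ∈ Cᶜ, b i • XT o (insert i C) ψ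

/-- product vectors across a cut -/
def Prd (o : α) (S : Finset ι) (ψ : (ι → α) → ℂ) : Prop :=
  ∃ ξ φ : (ι → α) → ℂ, ∀ x, ψ x = ξ (mask o Sᶜ x) * φ (mask o S x)

/-- admissible weights -/
def Adm (k : ℕ) (g b : ℝ) (a : Finset ι → ℝ) : Prop :=
  (∀ S : Finset ι, S.card < k → a S = 0) ∧ (∀ S : Finset ι, S.card = k → a S = 1) ∧
  (∀ T : Finset ι, T.card = k + 1 → g ≤ a T ∧ ∑ S with T ⊆ S, a S ≤ 1) ∧
  ∀ S : Finset ι, k + 1 < S.card → 0 ≤ a S ∧ a S ≤ b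

noncomputable def tau0 (d : ℝ) (k : ℕ) (a : Finset ι → ℝ) : ℝ :=
  ∑ A : Finset ι with A.card ≤ k, (d - 1) ^ A.card * (∑ S with A ⊆ S, a S - 1)

noncomputable def HH (o : α) (a : Finset ι → ℝ) (ψ : (ι → α) → ℂ) : Matrix (ι → α) (ι → α) ℂ :=
  ∑ S, a S • XT o S ψ - 1

/-- the core inequality -/
def Core (o : α) (k : ℕ) (a : Finset ι → ℝ) (lam : ℝ) (ψ : (ι → α) → ℂ) : Prop :=
  ∀ P, Con P → tp P (HH o a ψ) - lam * ∑ B : Finset ι with B.card ≤ k, tp (1 - P) (XT o B ψ) ≤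
    tau0 (Fintype.card α) k a

/-- unit vectors without single excitations -/
def Fr1 (o : α) (ψ : (ι → α) → ℂ) : Prop :=
  nv ψ = 1 ∧ 0 ≤ ψ (fun _ => o) ∧ ∀ x, (spt o x).card = 1 → ψ x = 0

/-- the reference vector is a closest product vector -/
def Frame (o : α) (ψ : (ι → α) → ℂ) : Prop :=
  Fr1 o ψ ∧ ∀ v : ι → α → ℂ, (∀ i, nv (v i) = 1) →
    ‖ip (fun x => ∏ i, v i (x i)) ψ‖ ≤ ‖ψ fun _ => o‖

/-- a family of vectors on the complement of `S` as the columns of a matrix -/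
def Vm (o : α) (S : Finset ι) (f : (ι → α) → (ι → α) → ℂ) :
    Matrix (ι → α) ((ι → α) × (ι → α)) ℂ := Matrix.of fun a p => xop o S (f p.1) (e0 o) a p.2

noncomputable def eps (o : α) (ψ : (ι → α) → ℂ) : ℝ := nv (prp o ψ)

/-- the weight of the basis vectors whose support has the property `Q` -/
noncomputable def wt (o : α) (ψ : (ι → α) → ℂ) (Q : Finset ι → Prop) [DecidablePred Q] : ℝ :=
  ∑ x, if Q (spt o x) then ‖ψ x‖ ^ 2 else 0

noncomputable def hh (o : α) (ψ : (ι → α) → ℂ) (S : Finset ι) : ℝ :=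
  wt o ψ fun B => ¬Disjoint B S ∧ ¬B ⊆ S

noncomputable def gg (o : α) (ψ : (ι → α) → ℂ) (S : Finset ι) : ℝ :=
  wt o ψ fun B => (B \ S).card = 1

noncomputable def be (o : α) (ψ : (ι → α) → ℂ) (C S : Finset ι) : ℝ :=
  wt o ψ fun B => Disjoint B C ∧ ¬Disjoint B S

def J1 (o : α) (k : ℕ) (ψ : (ι → α) → ℂ) : Matrix (ι → α) (ι → α) ℂ :=
  ∑ A : Finset ι with A.card ≤ k, Jc o A ψ

def P1 (o : α) (k : ℕ) : Matrix (ι → α) (ι → α) ℂ := ∑ A : Finset ι with A.card ≤ k, PA o A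

/-- the vectors of the small terms -/
def lowv (o : α) (k : ℕ) (ψ : (ι → α) → ℂ) (A S : Finset ι) : (ι → α) → ℂ :=
  if A = S then (if S.card ≤ k + 1 then ψ - emb o S ψ else ψ)
  else if A ⊆ S ∧ S.card ≤ k + 1 then emb o A ψ - emb o S ψ else 0

/-- the small terms -/
noncomputable def lowZ (o : α) (k : ℕ) (a : Finset ι → ℝ) (ψ : (ι → α) → ℂ)
    (l : Finset ι × Finset ι) : Matrix (ι → α) (ι → α) ℂ := a l.2 • XT o l.1 (lowv o k ψ l.1 l.2)

def Sl (T : Finset ι) : Finset (Finset ι × Finset ι) := Finset.univ.filter fun l => T ⊆ l.1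

noncomputable def Y1 (o : α) (k : ℕ) (a : Finset ι → ℝ) (ψ : (ι → α) → ℂ) :
    Matrix (ι → α) (ι → α) ℂ :=
  ∑ T ∈ lv ι (k + 1), a T • (Jc o T ψ * (Jc o T ψ)ᴴ) + ∑ l, lowZ o k a ψ l

/-- the standing assumptions near a product vector -/
def Reg (o : α) (k : ℕ) (a : Finset ι → ℝ) (ψ : (ι → α) → ℂ) (δ : ℝ) : Prop :=
  0 < δ ∧ δ ≤ 1 ∧ Adm k 0 δ a ∧ Fr1 o ψ ∧ eps o ψ ≤ δ ^ 2 ∧ 1 ≤ δ ^ 2 * Fintype.card α

/-- the dressed vectors -/
def Sol (o : α) (k : ℕ) (a : Finset ι → ℝ) (ψ : (ι → α) → ℂ) (δ K : ℝ)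
    (f : Finset ι → (ι → α) → ℂ) : Prop :=
  ∀ T ∈ lv ι (k + 1), emb o T (f T) = f T ∧
    (1 - ∑ l ∈ Sl T, lowZ o k a ψ l) *ᵥ f T = √(a T) • emb o T ψ ∧
    (ip (f T) (√(a T) • emb o T ψ)).re ≤ 1 ∧ nv (f T) ≤ 4 ∧ ‖f T fun _ => o‖ ^ 2 ≤ 1 + K * δ ∧
    nv (prp o (f T)) ≤ K * eps o ψ ∧
    nv (prp o (f T - √(a T) • emb o T ψ)) ≤ K * δ ^ 2 * eps o ψ ∧
    ∀ S, T ⊂ S → nv (prp o ((a S • XT o S ψ) *ᵥ f T)) ≤ K * δ ^ 2 * eps o ψ

noncomputable def mG (o : α) (k : ℕ) (a : Finset ι → ℝ) (ψ : (ι → α) → ℂ) : ℝ :=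
  ∑ C ∈ lv ι k, (gg o ψ C + ∑ j ∈ Cᶜ, a (insert j C) * gg o ψ (insert j C))

noncomputable def mH (o : α) (k : ℕ) (a : Finset ι → ℝ) (ψ : (ι → α) → ℂ) : ℝ :=
  ∑ C ∈ lv ι k, (hh o ψ C + ∑ j ∈ Cᶜ, a (insert j C) * hh o ψ (insert j C))

noncomputable def mB (o : α) (k : ℕ) (a : Finset ι → ℝ) (ψ : (ι → α) → ℂ) : ℝ :=
  ∑ C ∈ lv ι k, ∑ j ∈ Cᶜ, a (insert j C) * be o ψ C (insert j C)

end Ten

def S_ASS2 : Prop := ∀ (ι α : Type) [Fintype ι] [DecidableEq ι] [Fintype α] [DecidableEq α]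
  (σ : Matrix (ι → α) (ι → α) ℂ) (i j : ι) (h : ℝ), St σ → i ≠ j → 0 ≤ h → h ≤ 1 →
  Hole i h σ → Hole j h σ →
  ∃ (κ : Type) (_ : Fintype κ) (π : κ → ℝ) (χ : κ → (ι → α) → ℂ), Dec σ π χ ∧
    (h ^ 2 / 96 ≤ ∑ k, π k * Nn (lift i) (χ k) ∨ h ^ 2 / 96 ≤ ∑ k, π k * Nn (lift j) (χ k))

def S_SIG : Prop := ∀ (ι α : Type) [Fintype ι] [DecidableEq ι] [Fintype α] [DecidableEq α] (o : α)
  (C : Finset ι) (ψ : (ι → α) → ℂ), 0 ≤ sig o C ψ ∧ (sig o C ψ).trace = nv ψ ∧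
  (∀ i, i ∉ C → tw (lift i) (XT o C ψ) = XT o (insert i C) ψ ∧
    ∀ X, tp (sig o C ψ) (lift i X) = tp (op ψ ψ) (lift i X)) ∧
  ∀ (κ : Type) [Fintype κ] (π : κ → ℝ) (χ : κ → (ι → α) → ℂ), Dec (sig o C ψ) π χ →
    (∀ k, π k = 0 ∨ emb o C (χ k) = χ k) ∧ ∑ k, π k = nv ψ ∧
    ∀ S, C ⊆ S → XT o S ψ = ∑ k, π k • XT o S (χ k)

def S_CL0 : Prop := ∀ (ι α κ : Type) [Fintype ι] [DecidableEq ι] [Fintype α] [DecidableEq α]
  [Fintype κ] (o : α) (C : Finset ι) (ψ : (ι → α) → ℂ) (b : ι → ℝ) (Λ : ℝ) (i0 : ι) (π : κ → ℝ)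
  (χ : κ → (ι → α) → ℂ), 2 ≤ Fintype.card α → nv ψ = 1 → i0 ∉ C →
  (∀ i, i ∉ C → 0 ≤ b i ∧ b i ≤ 1) → 2 * ((Fintype.card ι : ℝ) + 1) ≤ Λ → Dec (sig o C ψ) π χ →
  Up (Yc o C Λ b ψ - 1) (Fintype.card α ^ C.card *
    (Λ + ∑ i ∈ Cᶜ, b i - 1 + 2 * (Fintype.card ι + 1) ^ 2 / Λ - (∏ i ∈ Cᶜ, b i) *
      (∑ k, π k * Nn (lift i0) (χ k)) ^ 3 / (3 * 10 ^ 10 * Fintype.card ι ^ 2)))

def S_CL : Prop := ∀ (ι : Type) [Fintype ι] [DecidableEq ι] (g h : ℝ), 0 < g → 0 < h → h ≤ 1 →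
  ∃ s : ℝ, 0 < s ∧ ∀ (α : Type) [Fintype α] [DecidableEq α] (o : α) (C : Finset ι)
    (ψ : (ι → α) → ℂ) (b : ι → ℝ) (Λ : ℝ), 2 ≤ Fintype.card α → nv ψ = 1 → Cᶜ.Nonempty →
    (∀ i, i ∉ C → g ≤ b i ∧ b i ≤ 1) → 2 * ((Fintype.card ι : ℝ) + 1) ≤ Λ →
    Up (Yc o C Λ b ψ - 1) (Fintype.card α ^ C.card *
      (Λ + ∑ i ∈ Cᶜ, b i - 1 + 2 * (Fintype.card ι + 1) ^ 2 / Λ)) ∧
    ∀ i j, i ∉ C → j ∉ C → i ≠ j → Hole i h (op ψ ψ) → Hole j h (op ψ ψ) →
      Up (Yc o C Λ b ψ - 1) (Fintype.card α ^ C.card *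
        (Λ + ∑ i ∈ Cᶜ, b i - 1 + 2 * (Fintype.card ι + 1) ^ 2 / Λ - s))

def S_LOCP : Prop := ∀ (ι : Type) [Fintype ι] [DecidableEq ι] (p : Polynomial ℝ) (K : ℝ),
  p.eval 0 = 0 → ∃ C : ℝ, 0 < C ∧ ∀ (α : Type) [Fintype α] [DecidableEq α] (o : α) (k : ℕ)
    (Z : Finset ι → Matrix (ι → α) (ι → α) ℂ), (∀ S, (Z S)ᴴ = Z S ∧ Nuc o S (Z S) K) →
    trf (fun x => p.eval x) (∑ S ∈ lv ι k, Z S + ∑ T ∈ lv ι (k + 1), Z T) -
        ∑ T ∈ lv ι (k + 1), trf (fun x => p.eval x) (Z T) ≤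
      ∑ S ∈ lv ι k, (trf (fun x => p.eval x) (Z S + ∑ i ∈ Sᶜ, Z (insert i S)) -
        ∑ i ∈ Sᶜ, trf (fun x => p.eval x) (Z (insert i S))) +
      C * Fintype.card α ^ k / Fintype.card α

def S_LOC1 : Prop := ∀ (ι : Type) [Fintype ι] [DecidableEq ι] (K e κ : ℝ), 0 ≤ K → 0 < e →
  e ≤ 1 → 0 < κ → ∃ (f : ℝ → ℝ) (d0 : ℝ), (∀ x, max (x - 1) 0 ≤ f x) ∧
    (∀ x, f x ≤ max (x - 1) 0 + if |x - 1| < e then e else 0) ∧
    ∀ (α : Type) [Fintype α] [DecidableEq α] (o : α) (k : ℕ)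
      (Z : Finset ι → Matrix (ι → α) (ι → α) ℂ), d0 ≤ Fintype.card α →
      (∀ S, 0 ≤ Z S ∧ Nuc o S (Z S) K) →
      trf f (∑ S ∈ lv ι k, Z S + ∑ T ∈ lv ι (k + 1), Z T) - ∑ T ∈ lv ι (k + 1), trf f (Z T) ≤
        ∑ S ∈ lv ι k, (trf f (Z S + ∑ i ∈ Sᶜ, Z (insert i S)) -
          ∑ i ∈ Sᶜ, trf f (Z (insert i S))) + κ * Fintype.card α ^ k

def S_LOC : Prop := ∀ (ι : Type) [Fintype ι] [DecidableEq ι] (K η κ : ℝ), 0 ≤ K → 0 < η →
  η ≤ 1 → 0 < κ → ∃ d0 : ℝ, ∀ (α : Type) [Fintype α] [DecidableEq α] (o : α) (k : ℕ)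
    (Z : Finset ι → Matrix (ι → α) (ι → α) ℂ) (Pu : Finset (Finset ι)) (t : Finset ι → ℝ),
    d0 ≤ Fintype.card α → (∀ S, 0 ≤ Z S ∧ Nuc o S (Z S) K) →
    (∀ T ∈ Pu, T.card = k + 1 ∧ IsProj (Z T)) → (∀ T ∈ Pu, ∀ T' ∈ Pu, Z T * Z T' = Z T' * Z T) →
    (∀ T ∈ lv ι (k + 1), T ∉ Pu → Z T ≤ (1 - η) • (1 : Matrix _ _ ℂ)) →
    (∀ S ∈ lv ι k, Up (Z S + ∑ i ∈ Sᶜ, Z (insert i S) - 1) (t S)) →
    Up (∑ S ∈ lv ι k, Z S + ∑ T ∈ lv ι (k + 1), Z T - 1)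
      (∑ S ∈ lv ι k, t S + κ * Fintype.card α ^ k)

def S_PUR : Prop := ∀ (m : ℕ) (γ : ℝ), 0 < γ → ∃ η : ℝ, 0 < η ∧
  ∀ (ι α : Type) [Fintype ι] [DecidableEq ι] [Fintype α] [DecidableEq α] (o : α)
    (ψ : (ι → α) → ℂ) (Pu : Finset (Finset ι)), Pu.card ≤ m → nv ψ = 1 →
    (∀ S ∈ Pu, ¬XT o S ψ ≤ (1 - η) • (1 : Matrix _ _ ℂ)) →
    ∃ ψ', nv ψ' = 1 ∧ nv (ψ - ψ') ≤ γ ^ 2 ∧ ∀ S ∈ Pu, Prd o S ψ'

def S_PRD : Prop := ∀ (ι α : Type) [Fintype ι] [DecidableEq ι] [Fintype α] [DecidableEq α] (o : α)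
  (ψ : (ι → α) → ℂ) (S : Finset ι), nv ψ = 1 → Prd o S ψ →
  (∃ ξ φ : (ι → α) → ℂ, nq o Sᶜ ξ = 1 ∧ nq o S φ = 1 ∧
    (∀ x, ψ x = ξ (mask o Sᶜ x) * φ (mask o S x)) ∧ XT o S ψ = xop o S φ φ) ∧
  IsProj (XT o S ψ) ∧ ∀ S', Prd o S' ψ → XT o S ψ * XT o S' ψ = XT o S' ψ * XT o S ψ

def S_VM : Prop := ∀ (ι α : Type) [Fintype ι] [DecidableEq ι] [Fintype α] [DecidableEq α] (o : α)
  (S S' : Finset ι) (f g : (ι → α) → (ι → α) → ℂ),
  Vm o S f * (Vm o S f)ᴴ = ∑ k, xop o S (f k) (f k) ∧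
  Vm o S (f - g) = Vm o S f - Vm o S g ∧
  Opb (Vm o S f) √(∑ k, nq o S (f k)) ∧
  hs (Vm o S f) = Fintype.card α ^ S.card * ∑ k, nq o S (f k) ∧
  hs ((Vm o S f)ᴴ * Vm o S' g) ≤
    Fintype.card α ^ (S ∩ S').card * ((∑ k, nq o S (f k)) * ∑ k, nq o S' (g k)) ∧
  (∀ A, Lo o S A → A * Vm o S f = Vm o S fun k => A *ᵥ emb o S (f k)) ∧
  ∀ k0, (∀ k, k ≠ k0 → emb o S (f k) = 0) →
    ((∀ k, k ≠ k0 → emb o S' (g k) = 0) → Tn ((Vm o S f)ᴴ * Vm o S' g)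
      (Fintype.card α ^ (S ∩ S').card * (√(nq o S (f k0)) * √(nq o S' (g k0))))) ∧
    ((∀ k, k ≠ k0 → emb o S (g k) = 0) → (Vm o S f)ᴴ * Vm o S g =
      ip (emb o S (f k0)) (emb o S (g k0)) •
        ((Vm o S (Pi.single k0 (e0 o)))ᴴ * Vm o S (Pi.single k0 (e0 o))))

def S_RPL : Prop := ∀ (ι : Type) [Fintype ι] [DecidableEq ι] (K η : ℝ), 1 ≤ K → 0 < η → η ≤ 1 →
  ∃ C : ℝ, 0 < C ∧ ∀ (α : Type) [Fintype α] [DecidableEq α] (o : α) (k : ℕ)
    (f f' : Finset ι → (ι → α) → (ι → α) → ℂ) (Z : Finset ι → Matrix (ι → α) (ι → α) ℂ)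
    (Pu : Finset (Finset ι)) (k0 : ι → α) (b t : ℝ), 0 ≤ b → C * b ≤ 1 →
    (∀ S, (S.card ≠ k → S.card ≠ k + 1 → f S = 0 ∧ f' S = 0) ∧ ∑ y, nq o S (f S y) ≤ K ∧
      ∑ y, nq o S (f' S y) ≤ K ∧ ∑ y, nq o S (f S y - f' S y) ≤ b ^ 2) →
    (∀ S, 0 ≤ Z S ∧ Nuc o S (Z S) b ∧ (S.card ≤ k → Z S = 0)) →
    (∀ T ∈ Pu, T.card = k + 1 ∧ (∀ y, y ≠ k0 → f T y = 0 ∧ f' T y = 0) ∧ nq o T (f' T k0) = 1 ∧
      xop o T (f T k0) (f T k0) + ∑ S with T ⊆ S, Z S ≤ 1) →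
    (∀ T ∈ lv ι (k + 1), T ∉ Pu → ∑ y, xop o T (f T y) (f T y) ≤ (1 - η) • (1 : Matrix _ _ ℂ)) →
    Up (∑ S, ∑ y, xop o S (f' S y) (f' S y) - 1) t →
    Up (∑ S, ∑ y, xop o S (f S y) (f S y) + ∑ S, Z S - 1) (t + C * b * Fintype.card α ^ k)

def S_RP2 : Prop := ∀ (ι : Type) [Fintype ι] [DecidableEq ι] (Λ η : ℝ), 1 ≤ Λ → 0 < η → η ≤ 1 →
  ∃ C : ℝ, 0 < C ∧ ∀ (α : Type) [Fintype α] [DecidableEq α] (o : α) (k : ℕ) (a : Finset ι → ℝ)
    (ψ ψ' : (ι → α) → ℂ) (Pu : Finset (Finset ι)) (b t : ℝ), 0 ≤ b → C * b ≤ 1 → Adm k 0 b a →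
    nv ψ = 1 → nv ψ' = 1 → nv (ψ - ψ') ≤ b ^ 2 →
    (∀ T ∈ Pu, T.card = k + 1 ∧ Prd o T ψ' ∧ 1 - b ≤ a T) →
    (∀ T ∈ lv ι (k + 1), T ∉ Pu → a T • XT o T ψ ≤ (1 - η) • (1 : Matrix _ _ ℂ)) →
    Up (∑ S ∈ lv ι k, Λ • XT o S ψ' +
      ∑ T ∈ lv ι (k + 1), (if T ∈ Pu then 1 else a T) • XT o T ψ' - 1) t →
    Up (∑ S ∈ lv ι k, Λ • XT o S ψ + ∑ S : Finset ι with k < S.card, a S • XT o S ψ - 1)
      (t + C * b * Fintype.card α ^ k)

def S_UPY : Prop := ∀ (ι : Type) [Fintype ι] [DecidableEq ι] (g h : ℝ), 0 < g → 0 < h → h ≤ 1 →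
  ∃ s Λ : ℝ, 0 < s ∧ 1 ≤ Λ ∧ ∀ η : ℝ, 0 < η → η ≤ 1 → ∃ d0 : ℝ,
    ∀ (α : Type) [Fintype α] [DecidableEq α] (o : α) (k : ℕ) (c : Finset ι → ℝ)
      (ψ : (ι → α) → ℂ) (Pu : Finset (Finset ι)) (i j : ι), d0 ≤ Fintype.card α →
      k + 2 ≤ Fintype.card ι → nv ψ = 1 → i ≠ j → Hole i h (op ψ ψ) → Hole j h (op ψ ψ) →
      (∀ T ∈ lv ι (k + 1), g ≤ c T ∧ c T ≤ 1) →
      (∀ T ∈ Pu, T.card = k + 1 ∧ Prd o T ψ ∧ c T = 1) →
      (∀ T ∈ lv ι (k + 1), T ∉ Pu → c T • XT o T ψ ≤ (1 - η) • (1 : Matrix _ _ ℂ)) →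
      Up (∑ S ∈ lv ι k, Λ • XT o S ψ + ∑ T ∈ lv ι (k + 1), c T • XT o T ψ - 1)
        (Fintype.card α ^ k * (∑ S ∈ lv ι k, (Λ - 1 + ∑ i ∈ Sᶜ, c (insert i S)) - s))

def S_II1 : Prop := ∀ (ι : Type) [Fintype ι] [DecidableEq ι] (g h η : ℝ), 0 < g → 0 < h → h ≤ 1 →
  0 < η → η ≤ 1 → ∃ η' L : ℝ, 0 < η' ∧ η' ≤ η ∧ 0 < L ∧
    ∀ (α : Type) [Fintype α] [DecidableEq α] (o : α) (k : ℕ) (a : Finset ι → ℝ)
      (ψ : (ι → α) → ℂ) (i j : ι), L ≤ Fintype.card α → k + 2 ≤ Fintype.card ι →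
      Adm k g (1 / L) a → nv ψ = 1 → i ≠ j → Hole i h (op ψ ψ) → Hole j h (op ψ ψ) →
      (∀ T ∈ lv ι (k + 1), a T • XT o T ψ ≤ (1 - η) • (1 : Matrix _ _ ℂ) ∨
        ¬a T • XT o T ψ ≤ (1 - η') • (1 : Matrix _ _ ℂ)) →
      Core o k a L ψ

def S_II : Prop := ∀ (ι : Type) [Fintype ι] [DecidableEq ι] (g h : ℝ), 0 < g → 0 < h → h ≤ 1 →
  ∃ L : ℝ, 0 < L ∧ ∀ (α : Type) [Fintype α] [DecidableEq α] (o : α) (k : ℕ) (a : Finset ι → ℝ)
    (ψ : (ι → α) → ℂ) (i j : ι), L ≤ Fintype.card α → k + 2 ≤ Fintype.card ι →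
    Adm k g (1 / L) a → nv ψ = 1 → i ≠ j → Hole i h (op ψ ψ) → Hole j h (op ψ ψ) →
    Core o k a L ψ

def S_CRS : Prop := ∀ (ι α : Type) [Fintype ι] [DecidableEq ι] [Fintype α] [DecidableEq α] (o : α)
  (A B : Finset ι) (f g : (ι → α) → ℂ),
  (¬B ⊆ A → (Jc o A f)ᴴ * Jc o B g = (Jc o A (prp o f))ᴴ * Jc o B g) ∧
  (¬A ⊆ B → (Jc o A f)ᴴ * Jc o B g = (Jc o A f)ᴴ * Jc o B (prp o g)) ∧
  Tn ((Jc o A f)ᴴ * Jc o B g) (Fintype.card α ^ (A ∩ B).card * (√(nq o A f) * √(nq o B g))) ∧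
  hs ((Jc o A f)ᴴ * Jc o B g) ≤ Fintype.card α ^ (A ∩ B).card * (nq o A f * nq o B g)

def S_RA : Prop := ∀ (ι α : Type) [Fintype ι] [DecidableEq ι] [Fintype α] [DecidableEq α] (o : α)
  (A S : Finset ι) (u φ : (ι → α) → ℂ),
  (¬A ⊆ S → rt ((Jc o A u)ᴴ * XT o S φ * Jc o A u) ≤
    Fintype.card α ^ (A ∩ S).card * (nq o A u * eps o φ)) ∧
  ∀ (j : ι) (θ : ℝ), A \ S = {j} → 0 < θ → rt ((Jc o A u)ᴴ * XT o S φ * Jc o A u) ≤
    (Fintype.card α - 1) ^ (A ∩ S).card *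
      ((1 + θ) * ‖u fun _ => o‖ ^ 2 * wt o φ (fun B => B \ S = {j}) +
        (1 + 1 / θ) * eps o φ * nq o A (prp o u))

def S_R6 : Prop := ∀ (ι : Type) [Fintype ι] [DecidableEq ι], ∃ K : ℝ, 0 < K ∧
  ∀ (α : Type) [Fintype α] [DecidableEq α] (o : α) (k : ℕ) (a : Finset ι → ℝ) (ψ : (ι → α) → ℂ),
    (∀ T ∈ lv ι (k + 1), 0 ≤ a T ∧ a T ≤ 1) →
    Up (∑ T ∈ lv ι (k + 1), ∑ T' ∈ (lv ι (k + 1)).erase T,
        (√(a T) * √(a T')) • ((Jc o T ψ)ᴴ * Jc o T' ψ))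
      ((1 - 1 / Fintype.card ι) * (Fintype.card α - 1) ^ k * mB o k a ψ +
        K * eps o ψ * Fintype.card α ^ k / Fintype.card α)

def S_SOL : Prop := ∀ (ι : Type) [Fintype ι] [DecidableEq ι], ∃ K : ℝ, 1 ≤ K ∧
  ∀ (α : Type) [Fintype α] [DecidableEq α] (o : α) (k : ℕ) (a : Finset ι → ℝ) (ψ : (ι → α) → ℂ)
    (δ : ℝ), Reg o k a ψ δ → K * δ ≤ 1 / 2 →
    ∑ l, lowZ o k a ψ l ≤ (K * δ) • (1 : Matrix _ _ ℂ) ∧ ∃ f, Sol o k a ψ δ K f

def S_NS : Prop := ∀ (ι : Type) [Fintype ι] [DecidableEq ι] (K : ℝ), 1 ≤ K → ∃ K' : ℝ, 0 < K' ∧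
  ∀ (α : Type) [Fintype α] [DecidableEq α] (o : α) (k : ℕ) (a : Finset ι → ℝ) (ψ : (ι → α) → ℂ)
    (δ : ℝ) (f : Finset ι → (ι → α) → ℂ), Reg o k a ψ δ → Sol o k a ψ δ K f →
    ∑ T ∈ lv ι (k + 1), rt ((Jc o T (f T))ᴴ * (∑ l ∈ (Sl T)ᶜ, lowZ o k a ψ l) * Jc o T (f T)) ≤
      (Fintype.card α - 1) ^ k * mG o k a ψ + K' * δ * eps o ψ * Fintype.card α ^ k

def S_G0 : Prop := ∀ (ι : Type) [Fintype ι] [DecidableEq ι] (K : ℝ), 1 ≤ K → ∃ K' : ℝ, 0 < K' ∧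
  ∀ (α : Type) [Fintype α] [DecidableEq α] (o : α) (k : ℕ) (a : Finset ι → ℝ) (ψ : (ι → α) → ℂ)
    (δ : ℝ) (f : Finset ι → (ι → α) → ℂ), Reg o k a ψ δ → Sol o k a ψ δ K f →
    Up (∑ T ∈ lv ι (k + 1), ∑ T' ∈ lv ι (k + 1),
        (Jc o T (f T))ᴴ * (1 - ∑ l ∈ Sl T ∩ Sl T', lowZ o k a ψ l) * Jc o T' (f T') - 1)
      ((1 - 1 / Fintype.card ι) * (Fintype.card α - 1) ^ k * mB o k a ψ +
        K' * δ * eps o ψ * Fintype.card α ^ k)

def S_F6 : Prop := ∀ (ι : Type) [Fintype ι] [DecidableEq ι], ∃ K : ℝ, 0 < K ∧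
  ∀ (α : Type) [Fintype α] [DecidableEq α] (o : α) (k : ℕ) (a : Finset ι → ℝ) (ψ : (ι → α) → ℂ)
    (δ : ℝ), Reg o k a ψ δ → K * δ ≤ 1 →
    Up (Y1 o k a ψ - 1) ((Fintype.card α - 1) ^ k *
      (mG o k a ψ + (1 - 1 / Fintype.card ι) * mB o k a ψ) + K * δ * eps o ψ * Fintype.card α ^ k)

def S_F5 : Prop := ∀ (ι α : Type) [Fintype ι] [DecidableEq ι] [Fintype α] [DecidableEq α] (o : α)
  (k : ℕ) (a : Finset ι → ℝ) (ψ : (ι → α) → ℂ) (Q : Matrix (ι → α) (ι → α) ℂ), (∀ S, 0 ≤ a S) →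
  Qᴴ = Q → Q * J1 o k ψ = 0 → Q * (∑ S, a S • XT o S ψ) * Q ≤ Q * Y1 o k a ψ * Q

def S_F23 : Prop := ∀ (ι : Type) [Fintype ι] [DecidableEq ι], ∃ K : ℝ, 0 < K ∧
  ∀ (α : Type) [Fintype α] [DecidableEq α] (o : α) (k : ℕ) (a : Finset ι → ℝ) (ψ : (ι → α) → ℂ)
    (δ : ℝ), Reg o k a ψ δ →
    IsProj (P1 (ι := ι) o k) ∧ J1 o k ψ * P1 o k = J1 o k ψ ∧
    J1 o k ψ * (J1 o k ψ)ᴴ ≤ ∑ B : Finset ι with B.card ≤ k, XT o B ψ ∧ Opb (HH o a ψ) K ∧
    Opb ((J1 o k ψ)ᴴ * J1 o k ψ - P1 o k) (K * δ) ∧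
    hs ((J1 o k ψ)ᴴ * J1 o k ψ - P1 o k) ≤ K * δ ^ 2 * eps o ψ * Fintype.card α ^ k ∧
    ∃ c : Finset ι → ℝ, (∀ A, |c A| ≤ K) ∧
      (∀ A : Finset ι, A.card ≤ k →
        hs (HH o a ψ * Jc o A ψ - c A • Jc o A ψ) ≤ K * eps o ψ * Fintype.card α ^ k) ∧
      hs (HH o a ψ * J1 o k ψ - J1 o k ψ * ∑ A, c A • PA o A) ≤ K * eps o ψ * Fintype.card α ^ k

def S_F4a : Prop := ∀ (ι α : Type) [Fintype ι] [DecidableEq ι] [Fintype α] [DecidableEq α] (o : α)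
  (ψ : (ι → α) → ℂ) (C S : Finset ι) (δ : ℝ), Fr1 o ψ → 0 ≤ δ → δ ≤ 1 → eps o ψ ≤ δ ^ 2 → C ⊆ S →
  (S \ C).card ≤ 1 →
  (2 - nq o C ψ) * (ip (emb o C ψ) (XT o S ψ *ᵥ emb o C ψ)).re ≤
    1 - hh o ψ S - be o ψ C S + 20 * δ * eps o ψ

def S_F4 : Prop := ∀ (ι : Type) [Fintype ι] [DecidableEq ι], ∃ K : ℝ, 0 < K ∧
  ∀ (α : Type) [Fintype α] [DecidableEq α] (o : α) (k : ℕ) (a : Finset ι → ℝ) (ψ : (ι → α) → ℂ)
    (δ : ℝ), Reg o k a ψ δ →
    rt ((P1 o k - ((J1 o k ψ)ᴴ * J1 o k ψ - P1 o k)) * ((J1 o k ψ)ᴴ * HH o a ψ * J1 o k ψ)) ≤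
      tau0 (Fintype.card α) k a - (Fintype.card α - 1) ^ k * (mH o k a ψ + mB o k a ψ) +
        K * δ * eps o ψ * Fintype.card α ^ k

def S_R10 : Prop := ∀ (ι α : Type) [Fintype ι] [DecidableEq ι] [Fintype α] [DecidableEq α] (o : α)
  (k : ℕ) (a : Finset ι → ℝ) (ψ : (ι → α) → ℂ) (g : ℝ), 0 ≤ g → g ≤ 1 → k + 2 ≤ Fintype.card ι →
  (∀ T ∈ lv ι (k + 1), g ≤ a T) → (∀ x, (spt o x).card = 1 → ψ x = 0) →
  g / Fintype.card ι * eps o ψ ≤ mH o k a ψ - mG o k a ψ + 1 / Fintype.card ι * mB o k a ψ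

def S_I : Prop := ∀ (ι : Type) [Fintype ι] [DecidableEq ι] (g : ℝ), 0 < g →
  ∃ η L : ℝ, 0 < η ∧ η ≤ 1 ∧ 0 < L ∧ ∀ (α : Type) [Fintype α] [DecidableEq α] (o : α) (k : ℕ)
    (a : Finset ι → ℝ) (ψ : (ι → α) → ℂ), L ≤ Fintype.card α → k + 2 ≤ Fintype.card ι →
    Adm k g (1 / L) a → Fr1 o ψ → eps o ψ ≤ η → Core o k a L ψ

def S_FRAME : Prop := ∀ (ι α : Type) [Fintype ι] [DecidableEq ι] [Nonempty ι] [Fintype α]
  [DecidableEq α] (o : α) (ψ : (ι → α) → ℂ), nv ψ = 1 →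
  ∃ V : ι → Matrix α α ℂ, (∀ i, (V i)ᴴ * V i = 1) ∧ (∀ i, V i * (V i)ᴴ = 1) ∧ Frame o (pu V *ᵥ ψ)

def S_HOLES : Prop := ∀ (ι α : Type) [Fintype ι] [DecidableEq ι] [Nonempty ι] [Fintype α]
  [DecidableEq α] (o : α) (ψ : (ι → α) → ℂ) (η : ℝ), Frame o ψ → 0 < η → η < eps o ψ →
  ∃ i j, i ≠ j ∧ Hole i (η / Fintype.card ι) (op ψ ψ) ∧ Hole j (η / Fintype.card ι) (op ψ ψ)

def S_CORE : Prop := ∀ (ι : Type) [Fintype ι] [DecidableEq ι] (g : ℝ), 0 < g →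
  ∃ L : ℝ, 0 < L ∧ ∀ (α : Type) [Fintype α] [DecidableEq α] (o : α) (k : ℕ)
    (a : Finset ι → ℝ) (ψ : (ι → α) → ℂ), L ≤ Fintype.card α → k + 2 ≤ Fintype.card ι →
    Adm k g (1 / L) a → Frame o ψ → Core o k a L ψ

def S_KM : Prop := ∀ (ι α : Type) [Fintype ι] [DecidableEq ι] [Fintype α] [DecidableEq α] (o : α)
  (r : ι → ℝ) (ψ : (ι → α) → ℂ), kmap r (op ψ ψ) = ∑ S : Finset ι, (∏ i ∈ Sᶜ, r i) • XT o S ψ

def S_RED : Prop := ∀ (ι : Type) [Fintype ι] [DecidableEq ι] (g : ℝ), 0 < g →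
  ∃ L : ℝ, 0 < L ∧ ∀ (α : Type) [Fintype α] [DecidableEq α] (o : α) (r : ι → ℝ)
    (ψ : (ι → α) → ℂ) (P : Matrix (ι → α) (ι → α) ℂ) (a0 : ι → α), L ≤ Fintype.card α →
    (∀ i, L ≤ r i) → (∀ i j, g * r i ≤ r j) → Frame o ψ → Con P →
    tp P (kmap r (op ψ ψ)) ≤ sp o r a0 * rt P + ∑ a, max (sp o r a - sp o r a0) 0

def S_FIN : Prop := ∀ (ι : Type) [Fintype ι] [DecidableEq ι] [Nonempty ι] (g : ℝ), 0 < g →
  ∃ L : ℝ, ∀ (α : Type) [Fintype α] [DecidableEq α] (o : α) (q r : ι → ℝ),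
    2 ≤ Fintype.card α → L ≤ Fintype.card α → (∀ i, 0 ≤ q i ∧ q i < 1) →
    (∀ i, r i = Fintype.card α * q i / (1 - q i)) → (∀ i, L ≤ r i) → (∀ i j, g * r i ≤ r j) →
    ∀ N : Matrix (ι → α) (ι → α) ℂ → ℝ, (∀ X Y, N (X + Y) ≤ N X + N Y) →
    (∀ (c : ℂ) X, N (c • X) = ‖c‖ * N X) →
    (∀ X U V, U ∈ unitaryGroup (ι → α) ℂ → V ∈ unitaryGroup (ι → α) ℂ → N (U * X * V) = N X) →
    ∀ ρ : Matrix (ι → α) (ι → α) ℂ, ρ.PosSemidef → ρ.trace = 1 →
      N (chan q ρ) ≤ N (chan q (op (Pi.single (fun _ => o) 1) (Pi.single (fun _ => o) 1)))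

end Pool.Agent.MP_b746ed_mp.LD
end
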