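import Pool.Agent.MP_b746ed_mp.LD.Base

attribute [-instance] LieAdmissibleAlgebra.toModule RightPreLieAlgebra.toModule
  LeftPreLieAlgebra.toModule AddQuantale.instAddLeftMono IdemSemiring.toCanonicallyOrderedAdd
  RKHS.instFunLike Zero.instNonempty bot_nonempty
  IsSelfAdjoint.instNonUnitalContinuousFunctionalCalculus NumberField.to_charZero
  MulSemiringAction.toDistribMulAction One.instNonempty Infinite.instNontrivial
  instCoeHTCOfCoeHeadOfCoeOTC AddTorsor.nonempty AddQuantale.instAddRightMono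
  Action.FintypeCat.instMulActionObjFiniteOf GrpTypeEquivalenceGrp.grpGroup
  IdemSemiring.toMulLeftMono IsLocalRing.toNontrivial IsStrictOrderedRing.toIsOrderedRing
  IsOrderedMonoid.toMulLeftMono Quantale.instMulRightMono AddCommMonoidWithOne.toAddMonoidWithOne
  IsStrictOrderedRing.toNontrivial Quantale.instMulLeftMono ConnectedSpace.toNonempty
  instCoeOutOfCoeFun LieAdmissibleRing.toNonUnitalNonAssocRing top_nonempty
  ContinuousMonoidHom.instCoeOutOfMonoidHomClassOfContinuousMapClass IsSimpleRing.instNontrivial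
  IsDomain.toNontrivial instNontrivialOfCharZero Torsor.nonempty MonTypeEquivalenceMon.monMonoid
  instCoeTailIntOfIntCast CategoryTheory.Limits.Concrete.instUniqueToTypeTerminal
  TestFunctionClass.toDFunLike ContDiffMapSupportedInClass.toDFunLike

/-! Large local dimension: the Gram inequality, the assistance lemma and the collection lemma. -/

section
set_option autoImplicit false
set_option linter.unusedSectionVars false
open scoped ComplexOrder MatrixOrder
open Matrix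

namespace Pool.Agent.MP_b746ed_mp.LD
open KF
open H14 (trf dg)

namespace C2
variable {κ : Type} [Fintype κ] [DecidableEq κ] {τ : κ → κ}

lemma bar_add (X Y : Matrix κ κ ℂ) : bar τ (X + Y) = bar τ X + bar τ Y :=
  Matrix.ext fun _ _ => star_add _ _

lemma bar_sub (X Y : Matrix κ κ ℂ) : bar τ (X - Y) = bar τ X - bar τ Y :=
  Matrix.ext fun _ _ => star_sub _ _

lemma bar_rsmul (c : ℝ) (X : Matrix κ κ ℂ) : bar τ (c • X) = c • bar τ X :=
  Matrix.ext fun _ _ => (star_smul c _).trans rfl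

lemma bar_conj (X : Matrix κ κ ℂ) : bar τ Xᴴ = (bar τ X)ᴴ := rfl

lemma bar_bar (h : ∀ k, τ (τ k) = k) (X : Matrix κ κ ℂ) : bar τ (bar τ X) = X := by
  ext k l
  simp only [bar, of_apply, h, star_star]

lemma bar_mul (h : ∀ k, τ (τ k) = k) (X Y : Matrix κ κ ℂ) :
    bar τ (X * Y) = bar τ X * bar τ Y := by
  ext k l
  simp only [bar, of_apply, Matrix.mul_apply, star_sum, star_mul']
  exact (Equiv.sum_comp (Function.Involutive.toPerm τ h) _).symm

lemma rt_bar (h : ∀ k, τ (τ k) = k) (X : Matrix κ κ ℂ) : rt (bar τ X) = rt X := by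
  rw [rt_eq_sum, rt_eq_sum]
  exact Equiv.sum_comp (Function.Involutive.toPerm τ h) fun k => (X k k).re

lemma rt_odd (h : ∀ k, τ (τ k) = k) {Z : Matrix κ κ ℂ} (hZ : bar τ Z = -Z) : rt Z = 0 := by
  have := rt_bar h Z
  rw [hZ, rt_neg] at this
  linarith

lemma bar_nonneg (h : ∀ k, τ (τ k) = k) {F : Matrix κ κ ℂ} (hF : 0 ≤ F) : 0 ≤ bar τ F := by
  obtain ⟨T, h1, h2⟩ := exists_factor hF
  have := conj_nonneg (one_nonneg (β := κ)) (bar τ T)
  rwa [← bar_conj, h1, Matrix.mul_one, ← bar_mul h, h2] at this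

lemma bar_dg (h : ∀ k, τ (τ k) = k) {a : κ → ℝ} (ha : ∀ k, a (τ k) = -a k) :
    bar τ (dg a) = -dg a := by
  ext k l
  have : τ k = τ l ↔ k = l := (Function.Involutive.injective h).eq_iff
  simp only [bar, dg, of_apply, Matrix.neg_apply, diagonal_apply, this, ha]
  split_ifs <;> simp

lemma rt_herm3 {X Y Z : Matrix κ κ ℂ} (hX : Xᴴ = X) (hY : Yᴴ = Y) (hZ : Zᴴ = Z) :
    rt (X * (Y * Z)) = rt (Y * (X * Z)) := by
  rw [← rt_conj, conjTranspose_mul, conjTranspose_mul, hX, hY, hZ, Matrix.mul_assoc, rt_comm,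
    Matrix.mul_assoc]

lemma core (h : ∀ k, τ (τ k) = k) {Cp A F S R B M Th : Matrix κ κ ℂ} (hC : 0 ≤ Cp) (hA : Aᴴ = A)
    (hAo : bar τ A = -A) (hA1 : 0 ≤ 1 - A * A) (hCA : bar τ (Cp - A) = Cp - A) (hF : 0 ≤ F)
    (hS : Sᴴ = S) (hCS : Cp * S = F) (hR : Rᴴ = R) (hFR : F * (R * F) = F - F * F)
    (hB : B = (1 / 2 : ℝ) • (F + bar τ F)) (hM : M = (1 / 2 : ℝ) • (F - bar τ F))
    (hTh : Thᴴ = Th) :
    2 * rt (F * Cp) - rt (F * (F * Cp)) - 2 * rt F - 2 * rt (F * (R * (F * R))) - rt (S * F) +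
        rt ((Th * F + F * Th - Th * Cp * Th) * (1 - A * A)) ≤
      2 * rt (B * (Cp - A)) - rt (B * B * (Cp - A)) - 2 * rt B + rt (B * A * B * A) := by
  have hF' := herm_of_nonneg hF
  have hG := bar_nonneg h hF
  have hG' := herm_of_nonneg hG
  have hSC : S * Cp = F := by
    rw [← hF', ← hCS, conjTranspose_mul, hS, herm_of_nonneg hC]
  have hBe : bar τ B = B := by rw [hB, bar_rsmul, bar_add, bar_bar h, add_comm]
  have hMo : bar τ M = -M := by rw [hM, bar_rsmul, bar_sub, bar_bar h, ← smul_neg, neg_sub]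
  have hB' : Bᴴ = B := by rw [hB, conjTranspose_smul, conjTranspose_add, hF', hG', star_trivial]
  have hM' : Mᴴ = M := by rw [hM, conjTranspose_smul, conjTranspose_sub, hF', hG', star_trivial]
  have e : F = B + M := by rw [hB, hM]; module
  -- the bound of the last term
  have a1 : rt (F * (A * (F * A))) / 2 ≤ rt (B * A * B * A) := by
    have b1 := rt_bar h (F * (A * (F * A)))
    have b2 := tp_nonneg (nonneg_def.1 hF) (nonneg_def.1 (conj_nonneg hG A))
    have b3 := tp_nonneg (nonneg_def.1 hG) (nonneg_def.1 (conj_nonneg hF A))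
    simp only [bar_mul h, hAo, Matrix.neg_mul, Matrix.mul_neg, neg_neg] at b1
    rw [tp_eq_rt, hA, Matrix.mul_assoc] at b2 b3
    rw [hB]
    simp only [Matrix.smul_mul, Matrix.mul_smul, Matrix.add_mul, Matrix.mul_add, rt_rsmul, rt_add,
      Matrix.mul_assoc]
    linarith only [b2, b3, b1]
  have a2 := tp_nonneg (nonneg_def.1 hF) (nonneg_def.1 (conj_nonneg hF (A - (2 : ℝ) • R)))
  have a3 : rt (F * (A * (F * R))) = rt (F * A) - rt (F * (F * A)) := by
    rw [← Matrix.mul_assoc, rt_comm, Matrix.mul_assoc, ← Matrix.mul_assoc R, ← Matrix.mul_assoc,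
      hFR, Matrix.sub_mul, rt_sub, Matrix.mul_assoc]
  have a4 : rt (F * (R * (F * A))) = rt (F * A) - rt (F * (F * A)) := by
    rw [← Matrix.mul_assoc R, ← Matrix.mul_assoc, hFR, Matrix.sub_mul, rt_sub, Matrix.mul_assoc]
  rw [tp_eq_rt, conjTranspose_sub, conjTranspose_smul, hA, hR, star_trivial] at a2
  simp only [Matrix.smul_mul, Matrix.mul_smul, Matrix.sub_mul, Matrix.mul_sub, rt_rsmul, rt_sub,
    Matrix.mul_assoc, a3, a4] at a2
  -- the two squares
  have a5 := rt_nonneg (conj_nonneg hC (M - S * A))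
  rw [conjTranspose_sub, conjTranspose_mul, hM', hA, hS, Matrix.sub_mul, Matrix.mul_assoc A, hSC,
    Matrix.sub_mul, Matrix.mul_sub, Matrix.mul_sub, Matrix.mul_assoc M Cp (S * A),
    ← Matrix.mul_assoc Cp, hCS, rt_sub, rt_sub, rt_sub, rt_comm (M * Cp), rt_comm (A * F) M,
    rt_comm M (A * F), Matrix.mul_assoc A F M, rt_herm3 hA hF' hM', rt_comm F,
    Matrix.mul_assoc A M F, rt_herm3 hA hM' hF', rt_comm M (A * F), Matrix.mul_assoc A F M,
    rt_comm A (F * M), Matrix.mul_assoc F M A, rt_herm3 hF' hM' hA] at a5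
  have a6 := tp_nonneg (nonneg_def.1 (conj_nonneg hC (Th - S))) (nonneg_def.1 hA1)
  have a7 : (Th - S)ᴴ * Cp * (Th - S) = S * F - (Th * F + F * Th - Th * Cp * Th) := by
    rw [conjTranspose_sub, hTh, hS, Matrix.sub_mul, hSC, Matrix.sub_mul, Matrix.mul_sub,
      Matrix.mul_sub, Matrix.mul_assoc Th Cp S, hCS, ← hSC, Matrix.mul_assoc S Cp S, hCS, hSC]
    abel
  have a8 : rt (A * F * (S * A)) = rt (S * F * (A * A)) := by
    rw [Matrix.mul_assoc, rt_comm, Matrix.mul_assoc, Matrix.mul_assoc, Matrix.mul_assoc,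
      rt_herm3 hF' hS (by rw [conjTranspose_mul, hA])]
  rw [tp_eq_rt, a7, Matrix.sub_mul, rt_sub, Matrix.mul_sub (S * F), Matrix.mul_one, rt_sub] at a6
  -- parity
  have p1 : rt M = 0 := rt_odd h hMo
  have p2 : rt (M * (Cp - A)) = 0 := rt_odd h (by rw [bar_mul h, hMo, hCA, Matrix.neg_mul])
  have p3 : rt (M * (B * (Cp - A))) = 0 :=
    rt_odd h (by rw [bar_mul h, bar_mul h, hMo, hBe, hCA, Matrix.neg_mul])
  have p4 : rt (B * (M * (Cp - A))) = 0 :=
    rt_odd h (by rw [bar_mul h, bar_mul h, hMo, hBe, hCA, Matrix.neg_mul, Matrix.mul_neg])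
  have p5 : rt (M * (M * A)) = 0 := rt_odd h (by simp only [bar_mul h, hMo, hAo, Matrix.neg_mul,
    Matrix.mul_neg, neg_neg])
  have p6 : rt (B * (B * A)) = 0 := rt_odd h (by simp only [bar_mul h, hBe, hAo, Matrix.mul_neg])
  have p7 := rt_herm3 hB' hM' hA
  have q1 : rt F = rt B + rt M := by rw [e, rt_add]
  have q2 : rt (F * (Cp - A)) = rt (B * (Cp - A)) + rt (M * (Cp - A)) := by
    rw [e, Matrix.add_mul, rt_add]
  have q3 : ∀ X, rt (F * (F * X)) =
      rt (B * (B * X)) + rt (B * (M * X)) + rt (M * (B * X)) + rt (M * (M * X)) := fun X => by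
    rw [e]
    simp only [Matrix.add_mul, Matrix.mul_add, rt_add]
    ring
  have q4 : rt (M * (F * A)) = rt (M * (B * A)) + rt (M * (M * A)) := by
    rw [e, Matrix.add_mul, Matrix.mul_add, rt_add]
  have q5 := q3 (Cp - A)
  have q6 := q3 A
  rw [Matrix.mul_sub F, rt_sub] at q2
  rw [p3, p4, Matrix.mul_sub F, Matrix.mul_sub F, rt_sub, Matrix.mul_sub M, Matrix.mul_sub M,
    rt_sub] at q5
  rw [Matrix.mul_assoc B B]
  linarith

end C2

theorem t_C2 : S_C2 := by
  intro κ _ _ τ Cp a hτ hC ha ha1 hCA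
  obtain ⟨b, l, hb, h1, hW, hl⟩ := exists_basis (herm_of_nonneg hC)
  have h0 : ∀ k, 0 ≤ l k := fun k => by
    have := psd_re_nonneg (nonneg_def.1 hC) (b k)
    rwa [hl, ← Complex.coe_smul, ip_smul_right, hb, if_pos rfl, mul_one, Complex.ofReal_re] at this
  let φ : (κ → ℝ) → Matrix κ κ ℂ := fun g => ∑ k, g k • op (b k) (b k)
  have hm : ∀ f g, φ f * φ g = φ fun k => f k * g k := basis_mul hb
  have hs : ∀ f g, φ f - φ g = φ fun k => f k - g k := fun f g => by
    simp only [φ, ← Finset.sum_sub_distrib, sub_smul]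
  have hc : ∀ (c : ℝ) f, c • φ f = φ fun k => c * f k := fun c f => by
    simp only [φ, Finset.smul_sum, smul_smul]
  have hr : ∀ f, rt (φ f) = ∑ k, f k := basis_rt hb
  have hle : ∀ f g : κ → ℝ, (∀ k, f k ≤ g k) → φ f ≤ φ g := fun f g => basis_le b
  have hcg : ∀ f g : κ → ℝ, (∀ k, f k = g k) → φ f = φ g := fun f g h => by rw [funext h]
  have h1' : (1 : Matrix κ κ ℂ) = φ fun _ => 1 := h1.symm
  have hW' : Cp = φ l := hW
  have h2 : Cp - (2 : ℝ) • (1 : Matrix κ κ ℂ) = φ fun k => l k - 2 * 1 := by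
    rw [hW', h1', hc, hs]
  have hp : ∀ k, 0 < 1 + l k := fun k => by linarith only [h0 k]
  have hF : 0 ≤ φ fun k => if 2 < l k then l k / (1 + l k) else 0 :=
    basis_nonneg _ fun k => by
      split_ifs
      exacts [div_nonneg (h0 k) (hp k).le, le_rfl]
  refine ⟨φ fun k => if 2 < l k then 1 else 0, φ fun k => if 2 < l k then l k / (1 + l k) else 0,
    ⟨⟨basis_conj _ _, ?_⟩, ?_, ?_, ?_⟩, hF, ?_, ?_, ?_, fun Bh Th hB hTh => ?_⟩
  · rw [hm]
    exact hcg _ _ fun k => by split_ifs <;> simp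
  · rw [h2, hm, hm]
    exact hcg _ _ fun k => mul_comm _ _
  · rw [h2, hm]
    exact basis_nonneg _ fun k => by split_ifs <;> linarith
  · rw [h2, h1', hs, hm]
    refine (hle _ (fun _ => 0) fun k => ?_).trans (by simp only [φ, zero_smul, Finset.sum_const_zero, Std.le_refl])
    split_ifs <;> linarith
  · rw [hc, hW']
    refine hle _ _ fun k => ?_
    split_ifs with h
    · rw [← mul_div_assoc, div_le_iff₀ (hp k)]
      nlinarith only [h]
    · linarith [h0 k]
  · rw [hc]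
    refine hle _ _ fun k => ?_
    split_ifs with h
    · rw [le_div_iff₀ (hp k)]
      linarith only [h]
    · simp
  · rw [hc, hW', hm]
    refine hle _ _ fun k => ?_
    split_ifs with h
    · have := mul_nonneg (div_nonneg (h0 k) (hp k).le) (sub_nonneg.2 h.le)
      linarith only [this]
    · simp
  have hA := C2.bar_dg hτ ha
  have := C2.core hτ (S := φ fun k => if 2 < l k then 1 / (1 + l k) else 0)
    (R := φ fun k => if 2 < l k then 1 / l k else 0) hC (H14.dg_conj a) hA ?_ ?_ hF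
    (basis_conj _ _) ?_ (basis_conj _ _) ?_ hB rfl hTh
  · refine le_trans (le_of_eq ?_) this
    congr 1
    rw [tp_eq_rt, h2, hW']
    simp only [hm, hr, Finset.mul_sum, ← Finset.sum_sub_distrib]
    refine Finset.sum_congr rfl fun k _ => ?_
    split_ifs with h
    · have := (hp k).ne'
      have : l k ≠ 0 := by linarith only [h]
      field_simp
      ring
    · ring
  · rw [H14.dg_mul, nonneg_def]
    have : (1 : Matrix κ κ ℂ) - dg (fun i => a i * a i) = dg fun i => 1 - a i * a i := by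
      simp [dg, ← diagonal_one, diagonal_sub]
    rw [this]
    exact H14.dg_psd fun i => by nlinarith only [abs_le.1 (ha1 i)]
  · rw [C2.bar_sub, hA, ← sub_eq_iff_comm.1 hCA]
    module
  · rw [hW', hm]
    exact hcg _ _ fun k => by split_ifs <;> ring
  · rw [hm, hm, hm, hs]
    refine hcg _ _ fun k => ?_
    split_ifs with h
    · have := (hp k).ne'
      have : l k ≠ 0 := by linarith only [h]
      field_simp
      ring
    · ring

end Pool.Agent.MP_b746ed_mp.LD
end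

section
set_option autoImplicit false
set_option linter.unusedSectionVars false
open scoped ComplexOrder MatrixOrder
open Matrix

namespace Pool.Agent.MP_b746ed_mp.LD
open KF
open H14 (trf dg)

namespace C4a
open C2
section
variable {I β : Type} [Fintype I] [DecidableEq I] [Fintype β] [DecidableEq β]

/-- block diagonal matrices -/
def BD (Y : I → Matrix β β ℂ) : Matrix (I × β) (I × β) ℂ :=
  Matrix.of fun k l => if k.1 = l.1 then Y k.1 k.2 l.2 else 0

lemma bk_BD (Y : I → Matrix β β ℂ) (i : I) : bk (BD Y) i i = Y i :=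
  Matrix.ext fun _ _ => if_pos rfl

lemma BD_sub (Y Z : I → Matrix β β ℂ) : BD Y - BD Z = BD fun i => Y i - Z i := by
  ext k l
  simp only [BD, Matrix.sub_apply, of_apply]
  split_ifs <;> simp

lemma BD_one : BD (fun _ : I => (1 : Matrix β β ℂ)) = 1 := by
  ext ⟨i, s⟩ ⟨j, t⟩
  simp only [BD, of_apply, Matrix.one_apply, Prod.mk.injEq, ite_and]

lemma mul_BD (X : Matrix (I × β) (I × β) ℂ) (Y : I → Matrix β β ℂ) (k l : I × β) :
    (X * BD Y) k l = ∑ s, X k (l.1, s) * Y l.1 s l.2 := by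
  rw [Matrix.mul_apply, Fintype.sum_prod_type, Finset.sum_eq_single l.1]
  · simp only [BD, of_apply, if_true]
  · intro j _ hj
    simp only [BD, of_apply, if_neg hj, mul_zero, Finset.sum_const_zero]
  · simp only [Finset.mem_univ, not_true_eq_false, IsEmpty.forall_iff]

lemma BD_mul (Y Z : I → Matrix β β ℂ) : BD Y * BD Z = BD fun i => Y i * Z i := by
  ext ⟨i, s⟩ ⟨j, t⟩
  rw [mul_BD]
  simp only [BD, of_apply]
  split_ifs with h
  · rw [h, Matrix.mul_apply]
  · simp only [zero_mul, Finset.sum_const_zero]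

lemma rt_BD (X : Matrix (I × β) (I × β) ℂ) (Y : I → Matrix β β ℂ) :
    rt (X * BD Y) = ∑ i, rt (bk X i i * Y i) := by
  simp only [rt_eq_sum, mul_BD, Fintype.sum_prod_type]
  rfl

lemma bk_le {X Y : Matrix (I × β) (I × β) ℂ} (h : X ≤ Y) (i : I) : bk X i i ≤ bk Y i i :=
  (le_def.1 h).submatrix fun s => (i, s)

lemma spec_two {X P : Matrix β β ℂ} (h : Spec ((2 : ℝ) • X) P) : Spec X P := by
  obtain ⟨h1, h2, h3, h4⟩ := h
  have e : ∀ Y : Matrix β β ℂ, (1 / 2 : ℝ) • (2 : ℝ) • Y = Y := fun Y => by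
    rw [smul_smul]; norm_num
  rw [Matrix.mul_smul] at h2 h3 h4
  refine ⟨h1, ?_, ?_, ?_⟩
  · rw [← e (P * X), h2, Matrix.smul_mul, e]
  · exact e (P * X) ▸ rsmul_nonneg h3 (by norm_num)
  · simpa only [e, smul_zero] using rsmul_le h4 (by norm_num : (0 : ℝ) ≤ 1 / 2)

lemma dg_le (a : β → ℝ) {c : ℝ} (h : ∀ k, |a k| ≤ c) :
    dg a * dg a ≤ c ^ 2 • (1 : Matrix β β ℂ) := by
  have : c ^ 2 • (1 : Matrix β β ℂ) - dg (fun i => a i * a i) = dg fun i => c ^ 2 - a i * a i := by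
    ext k l
    simp only [dg, Matrix.sub_apply, Matrix.smul_apply, Matrix.one_apply, diagonal_apply]
    split_ifs <;> simp
  rw [H14.dg_mul, le_def, this]
  exact H14.dg_psd fun i => by nlinarith only [abs_le.1 (h i)]

lemma site {F G A : Matrix β β ℂ} {c : ℝ} (hF : 0 ≤ F) (hG : 0 ≤ G) (hc : 0 ≤ c) (hA : Opb A c) :
    rt ((1 / 2 : ℝ) • (F - G) * (A * (1 / 2 : ℝ) • (F + G))) ≤
      c * rt ((1 / 2 : ℝ) • (F + G) * (1 / 2 : ℝ) • (F + G)) := by
  have h1 := tp_nonneg (nonneg_def.1 hF) (nonneg_def.1 hG)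
  have h2 := rt_comm F G
  have e : hs ((1 / 2 : ℝ) • (F + G)) = rt ((1 / 2 : ℝ) • (F + G) * (1 / 2 : ℝ) • (F + G)) := by
    rw [hs_eq_rt, conjTranspose_smul, conjTranspose_add, herm_of_nonneg hF, herm_of_nonneg hG,
      star_trivial]
  have h3 : hs ((1 / 2 : ℝ) • (F - G)) ≤ hs ((1 / 2 : ℝ) • (F + G)) := by
    rw [e, hs_eq_rt, conjTranspose_smul, conjTranspose_sub, herm_of_nonneg hF, herm_of_nonneg hG,
      star_trivial]
    simp only [Matrix.smul_mul, Matrix.mul_smul, Matrix.add_mul, Matrix.mul_add, Matrix.sub_mul,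
      Matrix.mul_sub, rt_rsmul, rt_add, rt_sub]
    rw [tp_eq_rt] at h1
    linarith
  refine (rt_le_norm _).trans ((norm_trace_le _ _).trans ?_)
  rw [← e]
  refine (mul_le_mul (Real.sqrt_le_sqrt h3) (Real.sqrt_le_sqrt (hA.hs_mul _)) (Real.sqrt_nonneg _)
    (Real.sqrt_nonneg _)).trans (le_of_eq ?_)
  rw [Real.sqrt_mul (sq_nonneg c), Real.sqrt_sq hc, mul_left_comm,
    Real.mul_self_sqrt (hs_nonneg _)]

/-- the even part of a positive matrix is a sum of squares of real vectors -/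
lemma exists_real {τ : β → β} (h : ∀ k, τ (τ k) = k) {F : Matrix β β ℂ} (hF : 0 ≤ F) :
    ∃ y : β ⊕ β → β → ℂ, (∀ a k, y a (τ k) = star (y a k)) ∧
      (1 / 2 : ℝ) • (F + bar τ F) = ∑ a, op (y a) (y a) := by
  obtain ⟨T, h1, h2⟩ := exists_factor hF
  have h3 : ∀ k l, F k l = ∑ c, T k c * star (T l c) := fun k l => by
    rw [← h2, Matrix.mul_apply]
    exact Finset.sum_congr rfl fun c _ => by rw [← conjTranspose_apply, h1]
  refine ⟨Sum.elim (fun c k => (T k c + star (T (τ k) c)) / 2)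
    fun c k => Complex.I * (T k c - star (T (τ k) c)) / 2, ?_, ?_⟩
  · rintro (c | c) k
    · simp only [RCLike.star_def, Sum.elim_inl, h, star_div₀, star_add, RingHomCompTriple.comp_apply, RingHom.id_apply, add_comm, star_ofNat]
    · simp only [Sum.elim_inr, h, star_div₀, star_mul', star_sub, star_star, star_ofNat]
      rw [Complex.star_def, Complex.conj_I]
      ring
  · ext k l
    simp only [Matrix.smul_apply, Matrix.add_apply, bar, of_apply, h3, Matrix.sum_apply,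
      Fintype.sum_sum_type, Sum.elim_inl, Sum.elim_inr, op_apply, star_sum,
      ← Finset.sum_add_distrib, Finset.smul_sum]
    refine Finset.sum_congr rfl fun c _ => ?_
    simp only [star_div₀, star_mul', star_sub, star_add, star_star, Complex.real_smul,
      star_ofNat]
    rw [Complex.star_def, Complex.conj_I]
    push_cast
    linear_combination ((T k c - (starRingEnd ℂ) (T (τ k) c)) *
      ((starRingEnd ℂ) (T l c) - T (τ l) c) / 4) * Complex.I_mul_I

end
end C4a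

open C2 C4a in
theorem t_C4a (hC2 : S_C2) (hC4b : S_C4b) : S_C4a := by
  intro I α _ _ _ _ p z G hp ⟨hG, hGa, hGb⟩ h3
  have hτ : ∀ k : I × α × α, sw (sw k) = k := fun _ => rfl
  have hpz : ∀ i u t, |p i t - p i u| ≤ p i (z i) := fun i u t => abs_le.2
    ⟨by linarith only [(hp i).1.1 t, (hp i).2 u], by linarith only [(hp i).1.1 u, (hp i).2 t]⟩
  have hp1 : ∀ i, p i (z i) ≤ 1 := fun i => (hp i).1.2 ▸
    Finset.single_le_sum (fun u _ => (hp i).1.1 u) (Finset.mem_univ _)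
  obtain ⟨E, F, hE, hF, hF3, hEF, hF2, hM⟩ := hC2 _ sw ((2 : ℝ) • G)
    (fun k => p k.1 k.2.2 - p k.1 k.2.1) hτ (rsmul_nonneg hG zero_le_two)
    (fun k => (neg_sub _ _).symm) (fun k => (hpz _ _ _).trans (hp1 _))
    (by rw [bar_rsmul, ← smul_sub, hGa]; rfl)
  obtain ⟨y, hy, hB⟩ := exists_real hτ hF
  rw [← smul_sub] at hE hM
  have hAo : bar sw (am p) = -am p := bar_dg hτ fun k => (neg_sub _ _).symm
  have hA' : (am p)ᴴ = am p := H14.dg_conj _
  have hAb : am p = BD fun i => As (p i) := by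
    ext ⟨i, s⟩ ⟨j, t⟩
    simp only [am, As, dg, BD, of_apply, diagonal_apply, Prod.mk.injEq, ite_and]
  obtain ⟨C, hC⟩ : ∃ C, C = G + bar sw G := ⟨_, rfl⟩
  have hC1 : (2 : ℝ) • G = C + am p := by rw [hC, ← hGa]; module
  have hCe : bar sw C = C := by rw [hC, bar_add, bar_bar hτ, add_comm]
  have hC' : Cᴴ = C := herm_of_nonneg (hC ▸ add_nonneg hG (bar_nonneg hτ hG))
  have hCb : ∀ i, bk C i i = Cs (p i) := fun i => by
    have : bk C i i + bk (am p) i i = Cs (p i) + As (p i) := by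
      rw [← hGb i]
      exact congrArg (fun X => bk X i i) hC1.symm
    rwa [hAb, bk_BD, add_left_inj] at this
  obtain ⟨B, hB1⟩ : ∃ B, B = (1 / 2 : ℝ) • (F + bar sw F) := ⟨_, rfl⟩
  obtain ⟨M, hM1⟩ : ∃ M, M = (1 / 2 : ℝ) • (F - bar sw F) := ⟨_, rfl⟩
  have hF' := bar_nonneg hτ hF
  have hB0 : 0 ≤ B := hB1 ▸ rsmul_nonneg (add_nonneg hF hF') (by norm_num)
  have hB' := herm_of_nonneg hB0
  have hBe : bar sw B = B := by rw [hB1, bar_rsmul, bar_add, bar_bar hτ, add_comm]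
  have hMo : bar sw M = -M := by rw [hM1, bar_rsmul, bar_sub, bar_bar hτ, ← smul_neg, neg_sub]
  have e : F = B + M := by rw [hB1, hM1]; module
  have hDm : ∀ i, Dm (fun a => Matrix.of fun s t => y a (i, s, t)) = bk B i i := fun i => by
    ext s t
    simp only [hB1, hB, Dm, bk, of_apply, Matrix.sum_apply, op_apply]
  have hyh : ∀ i a, (Matrix.of fun s t => y a (i, s, t))ᴴ = Matrix.of fun s t => y a (i, s, t) :=
    fun i a => Matrix.ext fun s t => (hy a (i, t, s)).symm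
  have hd : ∀ i, 0 ≤ bk B i i := fun i => bk_le hB0 i
  refine ⟨E, _, inferInstance, fun i a => Matrix.of fun s t => y a (i, s, t), spec_two hE,
    fun i => ⟨hyh i, ?_, ?_⟩, ?_⟩
  · have h1 := bar_nonneg hτ (sub_nonneg.2 hF3)
    have h2 := rsmul_nonneg (add_nonneg (sub_nonneg.2 hF3) h1) (c := 1 / 2) (by norm_num)
    have : (3 : ℝ) • B ≤ C := by
      rw [← sub_nonneg]
      convert h2 using 1
      rw [hB1, hC, bar_sub, bar_rsmul, bar_rsmul]
      module
    rw [hDm, ← hCb]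
    exact bk_le this i
  · have h1 : rt ((2 / 3 : ℝ) • bk E i i) ≤ rt (bk F i i) := rt_mono (bk_le hEF i)
    have h2 : rt (bk (bar sw F) i i) = rt (bk F i i) :=
      rt_bar (τ := Prod.swap) (fun _ => rfl) (bk F i i)
    have h4 : bk B i i = (1 / 2 : ℝ) • (bk F i i + bk (bar sw F) i i) := by rw [hB1]; rfl
    rw [hDm, h4, rt_rsmul, rt_add]
    rw [rt_rsmul] at h1
    linarith only [h1, h2]
  obtain ⟨D, hD⟩ : ∃ D, D = sd B := ⟨_, rfl⟩
  have hDb : D = BD fun i => bk B i i := by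
    rw [hD]
    ext ⟨i, s⟩ ⟨j, t⟩
    simp only [sd, BD, bk, of_apply]
    split_ifs with h
    exacts [by rw [h], rfl]
  have hD' : Dᴴ = D := by
    rw [hD]
    ext k l
    simp only [sd, conjTranspose_apply, of_apply, eq_comm (a := l.1), apply_ite star, star_zero]
    rw [← conjTranspose_apply, hB']
  have hDe : bar sw D = D := by
    rw [hD]
    ext k l
    conv_rhs => rw [← hBe]
    simp only [sd, bar, of_apply, apply_ite star, star_zero]
    rfl
  obtain ⟨N, hN⟩ : ∃ N, N = 1 - am p * am p := ⟨_, rfl⟩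
  have hNb : N = BD fun i => 1 - As (p i) * As (p i) := by rw [hN, hAb, BD_mul, ← BD_one, BD_sub]
  have hN' : Nᴴ = N := by rw [hN, conjTranspose_sub, conjTranspose_mul, hA', conjTranspose_one]
  have hNe : bar sw N = N := by
    have : bar sw (1 : Matrix (I × α × α) _ ℂ) = 1 := by
      have := bar_mul hτ (1 : Matrix (I × α × α) _ ℂ) (bar sw 1)
      rwa [Matrix.one_mul, bar_bar hτ, Matrix.mul_one, eq_comm] at this
    rw [hN, bar_sub, bar_mul hτ, hAo, this, neg_mul_neg]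
  have k1 := hM B D hB1 hD'
  have k2 := h3 _ y hy B (B - D) (hB1.trans hB) (by rw [hD])
  change _ + rt (_ * (1 - am p * am p)) ≤ 2 * rt (_ * (_ - am p)) - rt (_ * (_ - am p)) - _ +
    rt (B * am p * B * am p) at k1
  rw [← hN, hC1, add_sub_cancel_right, tp_rsmul, Matrix.sub_mul, Matrix.add_mul, rt_sub, rt_add,
    Matrix.mul_assoc D F, Matrix.mul_assoc F D, rt_herm3 hD' (herm_of_nonneg hF) hN',
    Matrix.mul_assoc D _ D, Matrix.mul_assoc D _ N, rt_comm D, Matrix.mul_assoc _ D N,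
    Matrix.mul_assoc, Matrix.add_mul, rt_add] at k1
  rw [← hC] at k2
  simp only [Matrix.sub_mul, Matrix.mul_sub, rt_sub, Matrix.mul_assoc] at k2
  have p1 : rt (M * (D * N)) = 0 :=
    rt_odd hτ (by rw [bar_mul hτ, bar_mul hτ, hMo, hDe, hNe, Matrix.neg_mul])
  have p2 : rt (am p * (D * N * D)) = 0 :=
    rt_odd hτ (by simp only [bar_mul hτ, hAo, hDe, hNe, Matrix.neg_mul])
  have p3 : rt (D * (B * am p)) = 0 :=
    rt_odd hτ (by simp only [bar_mul hτ, hAo, hDe, hBe, Matrix.mul_neg])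
  have p4 : rt (D * (M * C)) = 0 :=
    rt_odd hτ (by simp only [bar_mul hτ, hMo, hDe, hCe, Matrix.mul_neg, Matrix.neg_mul])
  have p5 : rt (M * D) = 0 := rt_odd hτ (by rw [bar_mul hτ, hMo, hDe, Matrix.neg_mul])
  have q1 : rt (F * (D * N)) = rt (B * (D * N)) + rt (M * (D * N)) := by
    rw [e, Matrix.add_mul, rt_add]
  have q2 : rt (F * (2 : ℝ) • G * D) =
      rt (D * (B * C)) + rt (D * (B * am p)) + rt (D * (M * C)) + rt (M * (am p * D)) := by
    rw [← Matrix.mul_assoc M, rt_comm _ D, rt_comm _ D, e, hC1]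
    simp only [Matrix.add_mul, Matrix.mul_add, rt_add]
    ring
  have q3 : rt (F * D) = rt (B * D) + rt (M * D) := by rw [e, Matrix.add_mul, rt_add]
  have q4 : 0 ≤ rt ((F * (2 : ℝ) • G - (2 : ℝ) • F) * D) := by
    rw [hDb, rt_BD]
    exact Finset.sum_nonneg fun i _ =>
      tp_nonneg (nonneg_def.1 (bk_le (sub_nonneg.2 hF2) i)) (nonneg_def.1 (hd i))
  rw [Matrix.sub_mul, rt_sub, Matrix.smul_mul, rt_rsmul] at q4
  have q5 := rt_herm3 hB' hD' hC'
  have s1 : rt B = ∑ i, rt (bk B i i) := by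
    simpa only [BD_one, Matrix.mul_one] using rt_BD B fun _ => 1
  have s2 : rt (D * C) = ∑ i, rt (bk B i i * Cs (p i)) := by
    rw [rt_comm, hDb, rt_BD]
    exact Finset.sum_congr rfl fun i _ => by rw [hCb, rt_comm]
  have s3 : rt (D * (D * C)) = ∑ i, rt (bk B i i * bk B i i * Cs (p i)) := by
    rw [← Matrix.mul_assoc, rt_comm, hDb, BD_mul, rt_BD]
    exact Finset.sum_congr rfl fun i _ => by rw [hCb, rt_comm]
  have s4 : rt (B * D) = ∑ i, rt (bk B i i * bk B i i) := by rw [hDb, rt_BD]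
  have s5 : rt (B * (D * N)) = ∑ i, rt (bk B i i * (bk B i i * (1 - As (p i) * As (p i)))) := by
    rw [hDb, hNb, BD_mul, rt_BD]
  have s6 : rt (C * (D * N * D)) ≤
      ∑ i, rt (bk B i i * (bk B i i * (1 - As (p i) * As (p i)))) := by
    rw [hDb, hNb, BD_mul, BD_mul, rt_BD]
    refine Finset.sum_le_sum fun i _ => ?_
    have h1 : As (p i) * As (p i) ≤ 1 := by
      simpa only [As, one_pow, one_smul] using
        dg_le (fun e : α × α => p i e.2 - p i e.1) fun e => (hpz i _ _).trans (hp1 i)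
    have h2 := conj_nonneg (sub_nonneg.2 h1) (bk B i i)
    rw [herm_of_nonneg (hd i)] at h2
    have h4 := tp_mono h2 (hC4b α _ (p i) (z i) _ (hp i).1 (hyh i)).1
    rwa [tp_eq_rt, tp_eq_rt, Matrix.mul_one, rt_comm, ← hCb, rt_comm _ (bk B i i)] at h4
  have s7 : rt (M * (am p * D)) ≤ ∑ i, p i (z i) * rt (bk B i i * bk B i i) := by
    rw [hDb, hAb, BD_mul, rt_BD, hB1, hM1]
    refine Finset.sum_le_sum fun i _ => site (bk_le hF i) (bk_le hF' i) ((hp i).1.1 _) ?_
    rw [opb_iff, As, H14.dg_conj]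
    exact dg_le _ fun e => hpz i _ _
  have s8 : ∀ i, rt (bk B i i * bk B i i *
      ((5 - 2 * p i (z i)) • (1 : Matrix _ _ ℂ) - As (p i) * As (p i) - Cs (p i))) =
      4 * rt (bk B i i * bk B i i) - 2 * (p i (z i) * rt (bk B i i * bk B i i)) +
        rt (bk B i i * (bk B i i * (1 - As (p i) * As (p i)))) -
        rt (bk B i i * bk B i i * Cs (p i)) := fun i => by
    simp only [Matrix.mul_sub, Matrix.mul_smul, Matrix.mul_one, rt_sub, rt_rsmul, Matrix.mul_assoc]
    ring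
  simp only [hDm, s8, Finset.sum_sub_distrib, Finset.sum_add_distrib, ← Finset.mul_sum] at k2 ⊢
  simp only [Matrix.mul_assoc B, Matrix.mul_assoc (am p) B] at k1
  linarith

end Pool.Agent.MP_b746ed_mp.LD
end

section
/-! Large local dimension: the strict bound for the Gram matrix of several sites. -/

set_option autoImplicit false
set_option linter.unusedSectionVars false
open scoped ComplexOrder MatrixOrder
open Matrix

namespace Pool.Agent.MP_b746ed_mp.LD
open KF
open H14 (trf dg)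

namespace C5
section
variable {β γ : Type} [Fintype β] [DecidableEq β] [Fintype γ] [DecidableEq γ]

lemma bk_mul (X Y : Matrix (β × γ) (β × γ) ℂ) (i : β) :
    bk (X * Y) i i = ∑ j, bk X i j * bk Y j i := by
  ext k l
  simp only [bk, Matrix.mul_apply, Fintype.sum_prod_type, of_apply, Matrix.sum_apply]

lemma tp_bk (X Y : Matrix (β × γ) (β × γ) ℂ) :
    tp X Y = ∑ i, ∑ j, tp (bk X i j) (bk Y j i) := by
  have : ∀ i, ∑ j, tp (bk X i j) (bk Y j i) = rt (bk (X * Y) i i) := fun i => by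
    rw [bk_mul, rt_sum]; rfl
  simp only [this]
  simp only [tp_eq_rt X, rt_eq_sum, Fintype.sum_prod_type, bk, of_apply]

lemma bk_conj {X : Matrix (β × γ) (β × γ) ℂ} (h : Xᴴ = X) (i j : β) : bk X j i = (bk X i j)ᴴ := by
  ext k l
  rw [conjTranspose_apply]
  exact (congrFun (congrFun h (j, k)) (i, l)).symm

lemma sum_hs {E : Matrix (β × γ) (β × γ) ℂ} (h : IsProj E) (i : β) :
    ∑ j, hs (bk E i j) = rt (bk E i i) := by
  conv_rhs => rw [← h.2, bk_mul, rt_sum]
  exact Finset.sum_congr rfl fun j _ => by rw [hs_eq_rt', ← bk_conj h.1]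

lemma con_bk {E : Matrix (β × γ) (β × γ) ℂ} (h : Con E) (i : β) : Con (bk E i i) :=
  h.submatrix (e := fun e => (i, e)) (Prod.mk_right_injective i)

lemma bk_one_ne (G : Matrix (β × γ) (β × γ) ℂ) {i j : β} (h : i ≠ j) :
    bk (G - 1) i j = bk G i j := by
  ext k l
  simp [bk, one_apply, h]

lemma bk_one (G : Matrix (β × γ) (β × γ) ℂ) (i : β) : bk (G - 1) i i = bk G i i - 1 := by
  ext k l
  simp [bk, one_apply]

lemma tp_le (A B : Matrix γ γ ℂ) {c : ℝ} (hc : 0 < c) : tp A B ≤ (c * hs A + hs B / c) / 2 := by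
  have h := (rt_le_norm _).trans (norm_trace_le A B)
  have h1 := Real.sq_sqrt (hs_nonneg A)
  have h2 := Real.sq_sqrt (hs_nonneg B)
  have h3 : 0 ≤ (c * √(hs A) - √(hs B)) ^ 2 / c := by positivity
  have h4 : (c * √(hs A) - √(hs B)) ^ 2 / c =
      c * √(hs A) ^ 2 + √(hs B) ^ 2 / c - 2 * (√(hs A) * √(hs B)) := by
    field_simp
    ring
  rw [h4, h1, h2] at h3
  rw [tp_eq_rt]
  linarith only [h, h3]

lemma split {E G : Matrix (β × γ) (β × γ) ℂ} (hE : IsProj E) (hG : Gᴴ = G) (i0 : β) {h s : ℝ}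
    (h0 : 0 ≤ h) (ht : rt (bk E i0 i0) ≤ h / (400 * Fintype.card β)) (h1 : bk G i0 i0 ≤ 1)
    (h2 : ∀ j, j ≠ i0 → hs (bk G j i0) ≤ 25 * h)
    (h3 : ∑ i : {i // i ≠ i0}, ∑ j : {i // i ≠ i0}, tp (bk E i.1 j.1) (bk (G - 1) j.1 i.1) ≤ s) :
    tp E (G - 1) ≤ s + h / 2 := by
  have m1 : (0 : ℝ) < Fintype.card β := by exact_mod_cast Fintype.card_pos_iff.2 ⟨i0⟩
  have b3 : tp (bk E i0 i0) (bk (G - 1) i0 i0) ≤ 0 :=
    up_nonpos (by rwa [bk_one, sub_nonpos]) _ (con_bk hE.con i0)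
  have cpos : (0 : ℝ) < 100 * Fintype.card β := by positivity
  have b4 : ∀ j : {i // i ≠ i0}, tp (bk E i0 j.1) (bk (G - 1) j.1 i0) +
      tp (bk E j.1 i0) (bk (G - 1) i0 j.1) ≤ 100 * Fintype.card β * hs (bk E i0 j.1) +
        25 * h / (100 * Fintype.card β) := fun j => by
    have c1 := tp_le (bk E i0 j.1) (bk G j.1 i0) cpos
    have c2 := tp_le (bk E j.1 i0) (bk G i0 j.1) cpos
    have c4 : hs (bk E j.1 i0) = hs (bk E i0 j.1) := by rw [bk_conj hE.1 i0 j.1, hs_conj]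
    have c5 : hs (bk G i0 j.1) = hs (bk G j.1 i0) := by rw [bk_conj hG j.1 i0, hs_conj]
    have c3 := div_le_div_of_nonneg_right (h2 j.1 j.2) cpos.le
    rw [c4, c5] at c2
    rw [bk_one_ne G j.2, bk_one_ne G j.2.symm]
    linarith
  have b5 := Finset.sum_le_sum fun j (_ : j ∈ Finset.univ) => b4 j
  rw [Finset.sum_add_distrib, Finset.sum_add_distrib, ← Finset.mul_sum, Finset.sum_const,
    nsmul_eq_mul, Finset.card_univ] at b5
  have b6 := sum_hs hE i0
  rw [Fintype.sum_eq_add_sum_subtype_ne _ i0] at b6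
  have b7 : 100 * Fintype.card β * ∑ j : {i // i ≠ i0}, hs (bk E i0 j.1) ≤ h / 4 := by
    have := mul_le_mul_of_nonneg_left ((le_add_of_nonneg_left (hs_nonneg _)).trans
      (b6.le.trans ht)) cpos.le
    refine this.trans (le_of_eq ?_)
    field_simp
    ring
  have b8 : (Fintype.card {i // i ≠ i0} : ℝ) * (25 * h / (100 * Fintype.card β)) ≤ h / 4 := by
    have : (Fintype.card {i // i ≠ i0} : ℝ) ≤ Fintype.card β := by
      exact_mod_cast Fintype.card_subtype_le _
    refine (mul_le_mul_of_nonneg_right this (by positivity)).trans (le_of_eq ?_)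
    field_simp
    ring
  rw [tp_bk, Fintype.sum_eq_add_sum_subtype_ne _ i0]
  simp only [Fintype.sum_eq_add_sum_subtype_ne _ i0, Finset.sum_add_distrib]
  linarith

lemma exists_srt (hα : 2 ≤ Fintype.card γ) {p : γ → ℝ} (hp : Prob p) : ∃ z0 z1, Srt p z0 z1 := by
  have : Nontrivial γ := Fintype.one_lt_card_iff_nontrivial.1 hα
  obtain ⟨z0, -, h0⟩ := Finset.exists_max_image Finset.univ p Finset.univ_nonempty
  obtain ⟨u, hu⟩ := exists_ne z0
  obtain ⟨z1, h1, h2⟩ := Finset.exists_max_image (Finset.univ.erase z0) p ⟨u, by simpa using hu⟩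
  exact ⟨z0, z1, hp, (Finset.ne_of_mem_erase h1).symm, fun u => h0 u (Finset.mem_univ _),
    fun u hu => h2 u (by simpa using hu)⟩

lemma le_one {p : γ → ℝ} (hp : Prob p) (z : γ) : p z ≤ 1 := by
  rw [← hp.2]
  exact Finset.single_le_sum (fun x _ => hp.1 x) (Finset.mem_univ z)

lemma ent {p : γ → ℝ} (hp : Prob p) {z : γ} (hz : ∀ u, p u ≤ p z) :
    1 - p z ≤ 1 - ∑ x, p x ^ 2 ∧ 1 - ∑ x, p x ^ 2 ≤ 2 * (1 - p z) ∧ 1 - ∑ x, p x ^ 2 ≤ 1 := by
  have h1 : ∑ x, p x ^ 2 ≤ ∑ x, p z * p x := Finset.sum_le_sum fun x _ => by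
    rw [sq]; exact mul_le_mul_of_nonneg_right (hz x) (hp.1 x)
  rw [← Finset.mul_sum, hp.2, mul_one] at h1
  have h2 : p z ^ 2 ≤ ∑ x, p x ^ 2 :=
    Finset.single_le_sum (fun x _ => sq_nonneg (p x)) (Finset.mem_univ z)
  exact ⟨by linarith, by linarith [sq_nonneg (1 - p z), sub_sq 1 (p z)],
    by linarith [sq_nonneg (p z)]⟩

lemma as_le {p : γ → ℝ} (hp : Prob p) : As p ≤ 1 := by
  rw [le_def, As, dg, ← diagonal_one, diagonal_sub]
  refine PosSemidef.diagonal fun e => ?_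
  have : (0 : ℝ) ≤ 1 - (p e.2 - p e.1) := by linarith [le_one hp e.2, hp.1 e.1]
  simpa only [Pi.zero_apply, Complex.ofReal_sub, sub_nonneg, tsub_le_iff_right, ge_iff_le, Complex.ofReal_one] using Complex.zero_le_real.2 this

end

lemma first (hC1 : S_C1) (hC3 : S_C3) (hC4a : S_C4a) (hC4b : S_C4b) (hLLF : S_LLF)
    (I α Ω : Type) [Fintype I] [DecidableEq I] [Fintype α] [DecidableEq α]
    [Fintype Ω] [DecidableEq Ω] (L : I → (Matrix α α ℂ →⋆ₐ[ℂ] Matrix Ω Ω ℂ)) (ψ : Ω → ℂ)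
    (p : I → α → ℝ) (hα : 2 ≤ Fintype.card α) (hL : Comm L) (hψ : nv ψ = 1)
    (hp : ∀ i, Prob (p i)) (hm : ∀ i, marg (L i) ψ = dg (p i)) :
    ∃ (E : Matrix (I × α × α) (I × α × α) ℂ) (z : I → α), Spec ((Wm L ψ)ᴴ * Wm L ψ - 1) E ∧
      (∀ i u, p i u ≤ p i (z i)) ∧ 2 * tp E ((Wm L ψ)ᴴ * Wm L ψ - 1) +
        ∑ i, (1 - p i (z i)) * min (rt (bk E i i)) (rt (bk E i i) ^ 2) / 10800 ≤
          2 * ∑ i, (1 - ∑ x, p i x ^ 2) := by
  choose z z1 hz using fun i => exists_srt hα (hp i)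
  obtain ⟨E, A, _, y, hE, hy, h⟩ := hC4a I α p z _ (fun i => ⟨hp i, (hz i).2.2.1⟩)
    (hC1 I α Ω L ψ p hL hψ hp hm).1 (hC3 I α Ω L ψ p hL hψ hp hm)
  refine ⟨E, z, hE, fun i => (hz i).2.2.1, le_trans (add_le_add le_rfl ?_) h⟩
  refine Finset.sum_le_sum fun i _ => ?_
  obtain ⟨-, a2, a3, a4, a5⟩ := hC4b α A (p i) (z i) (y i) (hp i) (hy i).1
  have := hLLF α A (p i) (y i) (z i) (z1 i) (rt (bk E i i)) (hz i) (hy i).1 (a4 (hy i).2.1)
    (rt_nonneg (con_iff.1 (con_bk hE.1.con i)).1) (by rw [a2]; exact (hy i).2.2)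
  linarith

lemma gain_nonneg {h t : ℝ} (hh : 0 ≤ h) (ht : 0 ≤ t) : 0 ≤ h * min t (t ^ 2) / 10800 := by
  have := le_min ht (sq_nonneg t)
  positivity

lemma big {h t N m : ℝ} (hh : 0 ≤ h) (h1 : h ≤ 1) (hm : 1 ≤ m) (hN : 0 ≤ N) (hN2 : N ≤ 2 * h)
    (ht : h / (400 * m) ≤ t) : 2 * (N ^ 3 / (3 * 10 ^ 10 * m ^ 2)) ≤ h * min t (t ^ 2) / 10800 := by
  have s0 : 0 ≤ h / (400 * m) := by positivity
  have s1 : h / (400 * m) ≤ 1 := (div_le_one (by positivity)).2 (by linarith only [h1, hm])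
  have s2 : (h / (400 * m)) ^ 2 ≤ min t (t ^ 2) :=
    le_min ((pow_le_of_le_one s0 s1 two_ne_zero).trans ht) (pow_le_pow_left₀ s0 ht 2)
  have s3 : N ^ 3 ≤ (2 * h) ^ 3 := pow_le_pow_left₀ hN hN2 3
  have s4 : 0 ≤ h ^ 3 / m ^ 2 := by positivity
  calc 2 * (N ^ 3 / (3 * 10 ^ 10 * m ^ 2)) ≤ 2 * ((2 * h) ^ 3 / (3 * 10 ^ 10 * m ^ 2)) := by gcongr
    _ = 16 / (3 * 10 ^ 10) * (h ^ 3 / m ^ 2) := by field_simp; ring
    _ ≤ 1 / (160000 * 10800) * (h ^ 3 / m ^ 2) := mul_le_mul_of_nonneg_right (by norm_num) s4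
    _ = h * (h / (400 * m)) ^ 2 / 10800 := by field_simp; ring
    _ ≤ h * min t (t ^ 2) / 10800 := by gcongr

lemma small {N m : ℝ} (hm : 1 ≤ m) (hN : 0 ≤ N) (hN1 : N ≤ 1) :
    N ^ 3 / (3 * 10 ^ 10 * m ^ 2) ≤ N / 2 := by
  have s1 : N ^ 3 ≤ N := pow_le_of_le_one hN hN1 three_ne_zero
  have s2 : 1 ≤ m ^ 2 := one_le_pow₀ hm
  exact div_le_div₀ hN s1 two_pos (by linarith)

end C5

open C5 in
theorem t_C5 (hC1 : S_C1) (hC3 : S_C3) (hC4a : S_C4a) (hC4b : S_C4b) (hLLF : S_LLF) : S_C5 := by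
  intro I α Ω _ _ _ _ _ _ L ψ p i0 hα hL hψ hp hm
  obtain ⟨E, z, hE, hz, h⟩ := first hC1 hC3 hC4a hC4b hLLF I α Ω L ψ p hα hL hψ hp hm
  refine hE.up.mono le_rfl ?_
  have hEc := hE.1.con
  have m1 : (1 : ℝ) ≤ Fintype.card I := by exact_mod_cast Fintype.card_pos_iff.2 ⟨i0⟩
  obtain ⟨e1, e2, e3⟩ := ent (hp i0) (hz i0)
  have h0 : ∀ i, 0 ≤ 1 - p i (z i) := fun i => sub_nonneg.2 (le_one (hp i) _)
  have h1 : 1 - p i0 (z i0) ≤ 1 := by linarith only [e1, e3]
  rcases le_total ((1 - p i0 (z i0)) / (400 * Fintype.card I)) (rt (bk E i0 i0)) with ht | ht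
  · have a1 := Finset.single_le_sum (fun i _ => gain_nonneg (h0 i)
      (rt_nonneg (con_iff.1 (con_bk hEc i)).1)) (Finset.mem_univ i0)
    have a2 := big (h0 i0) h1 m1 ((h0 i0).trans e1) e2 ht
    linarith only [h, a1, a2]
  · obtain ⟨E', z', hE', hz', h'⟩ := first hC1 hC3 hC4a hC4b hLLF {i // i ≠ i0} α Ω
      (fun i => L i) ψ (fun i => p i) hα (fun i j hij => hL i j fun e => hij (Subtype.ext e)) hψ
      (fun i => hp i) fun i => hm i
    have b0 := Finset.sum_nonneg (s := Finset.univ) fun (i : {i // i ≠ i0}) _ => gain_nonneg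
      (sub_nonneg.2 (le_one (hp i) (z' i))) (rt_nonneg (con_iff.1 (con_bk hE'.1.con i)).1)
    have b1 := hE'.up _ (hEc.submatrix (e := fun k : {i // i ≠ i0} × α × α => (k.1.1, k.2))
      (Subtype.val_injective.prodMap Function.injective_id))
    obtain ⟨⟨g0, -, g2⟩, g3⟩ := hC1 I α Ω L ψ p hL hψ hp hm
    have b2 : ∀ i j : {i // i ≠ i0}, bk ((Wm (fun i : {i // i ≠ i0} => L i) ψ)ᴴ *
        Wm (fun i : {i // i ≠ i0} => L i) ψ - 1) j i = bk ((Wm L ψ)ᴴ * Wm L ψ - 1) j.1 i.1 := by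
      intro i j
      ext k l
      simp only [bk, of_apply, Matrix.sub_apply, one_apply, Prod.mk.injEq, Subtype.ext_iff]
      rfl
    rw [tp_bk] at b1
    simp only [b2] at b1
    have c1 := (hC4b α Empty (p i0) (z i0) (fun a => a.elim) (hp i0) fun a => a.elim).1
    have c2 := rsmul_le ((g2 i0).le.trans (add_le_add c1 (as_le (hp i0))))
      (c := 1 / 2) (by norm_num)
    have b3 := split hE.1 (herm_of_nonneg g0) i0 (h0 i0) ht
      (by simpa only [one_div, smul_smul, ne_eq, OfNat.ofNat_ne_zero, not_false_eq_true, inv_mul_cancel₀, one_smul, ← two_smul ℝ] using c2) (fun j hj => g3 i0 j (z i0) hj.symm) b1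
    have b9 := small m1 ((h0 i0).trans e1) e3
    rw [Fintype.sum_eq_add_sum_subtype_ne (fun i => 1 - ∑ x, p i x ^ 2) i0]
    linarith only [e1, h', b0, b3, b9]

end Pool.Agent.MP_b746ed_mp.LD
end

section
set_option autoImplicit false
set_option linter.unusedSectionVars false
open scoped ComplexOrder MatrixOrder
open Matrix

namespace Pool.Agent.MP_b746ed_mp.LD
open KF
open H14 (trf dg)

namespace C6
variable {I α Ω : Type} [Fintype I] [DecidableEq I] [Fintype α] [DecidableEq α] [Fintype Ω]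
  [DecidableEq Ω]

/-- a rotated copy of the algebra in which the reduced state is diagonal -/
lemma exists_diag [Nonempty α] (L : Matrix α α ℂ →⋆ₐ[ℂ] Matrix Ω Ω ℂ) {ψ : Ω → ℂ} (hψ : nv ψ = 1) :
    ∃ (L' : Matrix α α ℂ →⋆ₐ[ℂ] Matrix Ω Ω ℂ) (p : α → ℝ), (∀ X, ∃ Y, L' X = L Y) ∧ Prob p ∧
      marg L' ψ = dg p ∧ (∀ X, tw L' X = tw L X) ∧ Nn L ψ = 1 - ∑ x, p x ^ 2 := by
  obtain ⟨b, l, hb, -, hM, hl⟩ := exists_basis (marg_psd L ψ).isHermitian
  obtain ⟨U, hU⟩ : ∃ U : Matrix α α ℂ, U = Matrix.of fun a k => b k a := ⟨_, rfl⟩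
  have h1 : Uᴴ * U = 1 := by
    ext k k'
    simpa only [hU, Matrix.mul_apply, conjTranspose_apply, of_apply, RCLike.star_def, one_apply, ip_eq] using hb k k'
  have h2 : U * Uᴴ = 1 := mul_eq_one_comm.1 h1
  obtain ⟨L', hL⟩ : ∃ L' : Matrix α α ℂ →⋆ₐ[ℂ] Matrix Ω Ω ℂ, ∀ X, L' X = L (U * X * Uᴴ) :=
    ⟨L.comp (Unitary.conjStarAlgAut ℂ (Matrix α α ℂ) ⟨U, h1, h2⟩ : _ ≃⋆ₐ[ℂ] _), fun _ => rfl⟩
  have e : ∀ s t, U * eu s t * Uᴴ = op (b s) (b t) := fun s t => by
    ext x y
    simp [hU, eu, Matrix.mul_apply, op_apply, Pi.single_apply]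
  have hm : marg L' ψ = dg l := by
    ext s t
    rw [marg, of_apply, hL, ip_L_eq, e, trace_mul_comm, op, mul_vecMulVec, ← op, trace_op, hl,
      ← Complex.coe_smul, ip_smul_right, hb, dg, diagonal_apply]
    split_ifs with h <;> simp [h]
  refine ⟨L', l, fun X => ⟨_, hL X⟩, ⟨fun x => ?_, ?_⟩, hm, fun X => ?_, ?_⟩
  · simpa only [hm, dg, diagonal_apply_eq, Complex.zero_le_real] using (marg_psd L' ψ).diag_nonneg (i := x)
  · have := marg_trace L' ψ
    rw [hm, ip_self_nv, hψ, dg, trace_diagonal] at this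
    exact_mod_cast this
  · have := tw_conj_self L X (U := Uᴴ) (by simpa only [conjTranspose_conjTranspose] using h2) (by simpa using h1)
    have e2 : tw L' X = L U * tw L (L Uᴴ * X * (L Uᴴ)ᴴ) * L Uᴴ := by
      simp only [tw, hL, map_mul, Finset.mul_sum, Finset.sum_mul, L_conj,
        conjTranspose_conjTranspose, mul_assoc]
    rw [e2, this, L_conj, conjTranspose_conjTranspose, ← mul_assoc, ← mul_assoc, ← map_mul, h2,
      map_one, one_mul, mul_assoc, ← map_mul, h2, map_one, mul_one]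
  · rw [Nn, hs_eq_rt, hM, basis_conj, basis_mul hb, basis_rt hb]
    simp only [sq]

lemma Wm_mul (L : I → (Matrix α α ℂ →⋆ₐ[ℂ] Matrix Ω Ω ℂ)) (ψ : Ω → ℂ) :
    Wm L ψ * (Wm L ψ)ᴴ = (1 - op ψ ψ) * (∑ i, tw (L i) (op ψ ψ)) * (1 - op ψ ψ)ᴴ := by
  have e : ∀ (Q : Matrix Ω Ω ℂ) (x : Ω → ℂ), Q * op x x * Qᴴ = op (Q *ᵥ x) (Q *ᵥ x) :=
    fun Q x => by rw [op, op, mul_vecMulVec, vecMulVec_mul, star_mulVec]
  simp only [tw_op, Finset.mul_sum, Finset.sum_mul, e]
  ext a b
  simp only [Wm, Matrix.mul_apply, of_apply, conjTranspose_apply, Matrix.sum_apply, op_apply,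
    Fintype.sum_prod_type]

end C6

theorem t_C6 (hC5 : S_C5) : S_C6 := by
  intro I α Ω _ _ _ _ _ _ L ψ i0 hα hL hψ
  have : Nonempty α := Fintype.card_pos_iff.1 (by omega)
  choose L' p h1 h2 h3 h4 h5 using fun i => C6.exists_diag (L i) hψ
  have hc : Comm L' := fun i j hij X Y => by
    obtain ⟨X', hX⟩ := h1 i X
    obtain ⟨Y', hY⟩ := h1 j Y
    rw [hX, hY, hL i j hij]
  have hQ : IsProj (1 - op ψ ψ) :=
    IsProj.compl ⟨op_conjTranspose _ _, by rw [op_mul_op, ip_self_nv, hψ]; simp⟩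
  have := (hC5 I α Ω L' ψ p i0 hα hc hψ h2 h3).gram.conj hQ.con.opb
  rw [C6.Wm_mul, hQ.1, mul_sub _ _ 1, sub_mul, ← mul_assoc, ← mul_assoc, hQ.2, mul_assoc _ _ (1 - _),
    hQ.2, ← sub_mul, ← mul_sub] at this
  simpa only [h4, h5] using this

end Pool.Agent.MP_b746ed_mp.LD
end

section
/-! Large local dimension: weights on the sites and the penalty on the state itself. -/

set_option autoImplicit false
set_option linter.unusedSectionVars false
open scoped ComplexOrder MatrixOrder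
open Matrix

namespace Pool.Agent.MP_b746ed_mp.LD
open KF
open H14 (trf dg)

namespace C7

/-- a multi-affine function on the cube is bounded by its values at the vertices -/
lemma avg {I : Type} [Fintype I] [DecidableEq I] (b a : I → ℝ) (a0 s : ℝ)
    (hb : ∀ i, 0 ≤ b i ∧ b i ≤ 1)
    (h : ∀ S : Finset I, ∑ i ∈ S, a i - a0 + (if S = Finset.univ then s else 0) ≤ 0) :
    ∑ i, b i * a i - a0 + (∏ i, b i) * s ≤ 0 := by
  set w : Finset I → ℝ := fun S => (∏ i ∈ S, b i) * ∏ i ∈ Finset.univ \ S, (1 - b i) with hw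
  have w0 : ∀ S, 0 ≤ w S := fun S => mul_nonneg (Finset.prod_nonneg fun i _ => (hb i).1)
    (Finset.prod_nonneg fun i _ => sub_nonneg.2 (hb i).2)
  have w1 : ∑ S, w S = 1 := by
    have := Finset.prod_add b (fun i => 1 - b i) (Finset.univ : Finset I)
    simpa only [hw, Finset.powerset_univ, add_sub_cancel, Finset.prod_const_one] using this.symm
  have w2 : ∀ i, ∑ S, (if i ∈ S then w S else 0) = b i := fun i => by
    have := Finset.prod_add b (fun j => if j = i then 0 else 1 - b j) (Finset.univ : Finset I)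
    rw [Finset.prod_eq_single i (fun j _ hj => by simp [hj]) (by simp only [Finset.mem_univ, not_true_eq_false, ↓ reduceIte, add_zero, IsEmpty.forall_iff]), Finset.powerset_univ] at this
    rw [show b i = b i + if i = i then 0 else 1 - b i by simp, this]
    refine Finset.sum_congr rfl fun S _ => ?_
    split_ifs with hi
    · refine congrArg (_ * ·) (Finset.prod_congr rfl fun j hj => ?_)
      rw [if_neg (by rintro rfl; exact (Finset.mem_sdiff.1 hj).2 hi)]
    · rw [Finset.prod_eq_zero (s := Finset.univ \ S) (i := i) (by simp only [Finset.mem_sdiff, Finset.mem_univ, hi, not_false_eq_true, and_self]) (by simp), mul_zero]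
  have e : ∑ S, w S * (∑ i ∈ S, a i - a0 + (if S = Finset.univ then s else 0)) =
      ∑ i, b i * a i - a0 + (∏ i, b i) * s := by
    have e1 : ∑ S, w S * ∑ i ∈ S, a i = ∑ i, b i * a i := by
      have : ∀ S : Finset I, w S * ∑ i ∈ S, a i = ∑ i, (if i ∈ S then w S else 0) * a i :=
        fun S => by simp only [Finset.mul_sum, ite_mul, zero_mul, Finset.sum_ite_mem, Finset.univ_inter]
      rw [Finset.sum_congr rfl fun S _ => this S, Finset.sum_comm]
      exact Finset.sum_congr rfl fun i _ => by rw [← Finset.sum_mul, w2]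
    have e2 : ∑ S, w S * (if S = Finset.univ then s else 0) = (∏ i, b i) * s := by
      simp only [hw, mul_ite, mul_zero, Finset.sum_ite_eq', Finset.mem_univ, ↓ reduceIte, sdiff_self, Finset.bot_eq_empty, Finset.prod_empty, mul_one]
    simp only [mul_add, mul_sub, Finset.sum_add_distrib, Finset.sum_sub_distrib, e1, e2,
      ← Finset.sum_mul, w1, one_mul]
  rw [← e]
  exact Finset.sum_nonpos fun S _ => mul_nonpos_of_nonneg_of_nonpos (w0 S) (h S)

variable {α Ω : Type} [Fintype α] [DecidableEq α] [Fintype Ω] [DecidableEq Ω]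

lemma nn_nonneg [Nonempty α] (L : Matrix α α ℂ →⋆ₐ[ℂ] Matrix Ω Ω ℂ) (ψ : Ω → ℂ)
    (hψ : ip ψ ψ = 1) : 0 ≤ Nn L ψ := by
  have h0 : 0 ≤ marg L ψ := nonneg_def.2 (marg_psd L ψ)
  have h1 : marg L ψ ≤ (1 : ℝ) • (1 : Matrix α α ℂ) := by
    rw [one_smul]; exact le_def.2 (marg_le_one L ψ hψ)
  have h2 := rt_mono (sq_le_of_le h0 h1)
  rw [one_smul, rt, rt, marg_trace, hψ] at h2
  rw [Nn, hs_eq_rt, herm_of_nonneg h0, rt]
  simpa only [sub_nonneg, ge_iff_le, Complex.one_re] using h2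

lemma rt_tw (L : Matrix α α ℂ →⋆ₐ[ℂ] Matrix Ω Ω ℂ) (ψ : Ω → ℂ) :
    tp (op ψ ψ) (tw L (op ψ ψ)) = 1 - Nn L ψ := by
  rw [Nn, sub_sub_cancel, tw_op, tp_sum, hs, Finset.sum_comm]
  refine Finset.sum_congr rfl fun s _ => ?_
  rw [tp_sum]
  refine Finset.sum_congr rfl fun t _ => ?_
  rw [tp_op, op_mulVec, ip_smul_right, ← star_ip ψ, marg, of_apply, Complex.star_def,
    Complex.mul_conj, Complex.normSq_eq_norm_sq, Complex.ofReal_re]

end C7

theorem t_C7 (hC6 : S_C6) (hPEN : S_PEN) : S_C7 := by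
  intro I α Ω _ _ _ _ _ _ L ψ i0 b Λ hd hL hψ hb hΛ P hP
  have : Nonempty α := Fintype.card_pos_iff.1 (by omega)
  have hψ' : ip ψ ψ = 1 := by rw [ip_self_nv, hψ]; simp
  set R := op ψ ψ with hR
  set K : ℝ := (Fintype.card I : ℝ) + 1 with hK
  have K0 : 0 < K := by positivity
  have pR : IsProj R := ⟨op_conjTranspose _ _, by rw [hR, op_mul_op, hψ', one_smul]⟩
  have rR : rt R = 1 := by rw [rt, hR, trace_op, hψ']; simp
  have X0 : ∀ i, 0 ≤ tw (L i) R := fun i => nonneg_def.2 (tw_psd _ _)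
  have X1 : ∀ i, Opb (b i • tw (L i) R) 1 := fun i =>
    ((Con.opb ⟨tw_psd _ _, tw_le_one _ _ hψ'⟩).rsmul (b i)).mono (by simpa only [mul_one] using (hb i).1)
      (by simpa using (hb i).2)
  set H := ∑ i, b i • tw (L i) R - 1 with hH
  have cH : Hᴴ = H := by
    rw [hH, conjTranspose_sub, conjTranspose_one,
      herm_of_nonneg (Finset.sum_nonneg fun i _ => rsmul_nonneg (X0 i) (hb i).1)]
  have oH : Opb H K := by
    simpa only [Finset.sum_const, Finset.card_univ, nsmul_eq_mul, mul_one] using (opb_sum Finset.univ (fun i _ => X1 i) fun _ _ => zero_le_one).sub opb_one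
      (by simp only [Finset.sum_const, Finset.card_univ, nsmul_eq_mul, mul_one, Nat.cast_nonneg]) zero_le_one
  have pen := hPEN Ω R H P K Λ pR cH K0.le oH (by linarith) hP
  have h1 : rt (R * H) = ∑ i, b i * (1 - Nn (L i) ψ) - 1 := by
    rw [← tp_eq_rt, hH, tp_sub, tp_sum, tp_one]
    simp only [tp_rsmul, hR, C7.rt_tw]
    rw [← rt, ← hR, rR]
  have h2 : hs ((1 - R) * H * R) ≤ K ^ 2 := by
    have := (pR.compl.con.opb.mul oH).hs_mul R
    rwa [hs_eq_rt R, pR.1, pR.2, rR, one_mul, mul_one] at this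
  have h3 : hs ((1 - R) * H * R) / (Λ - K) ≤ 2 * K ^ 2 / Λ := by
    rw [div_le_div_iff₀ (by linarith) (by linarith)]
    nlinarith [hs_nonneg ((1 - R) * H * R), sq_nonneg K]
  have ex : ∀ (J : Type) (s : Finset J) (Y : J → Matrix Ω Ω ℂ),
      tp P ((1 - R) * (∑ i ∈ s, Y i - 1) * (1 - R)) =
        ∑ i ∈ s, tp P ((1 - R) * Y i * (1 - R)) - tp P ((1 - R) * 1 * (1 - R)) := fun J s Y => by
    generalize 1 - R = Q
    rw [Matrix.mul_sub, Matrix.sub_mul, tp_sub, Finset.mul_sum, Finset.sum_mul, tp_sum]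
  have N0 := fun i => C7.nn_nonneg (L i) ψ hψ'
  have h4 := C7.avg b (fun i => tp P ((1 - R) * tw (L i) R * (1 - R)) - Nn (L i) ψ)
    (tp P ((1 - R) * 1 * (1 - R))) (Nn (L i0) ψ ^ 3 / (3 * 10 ^ 10 * Fintype.card I ^ 2)) hb
    fun S => by
      rw [Finset.sum_sub_distrib]
      split_ifs with hS
      · have := hC6 I α Ω L ψ i0 hd hL hψ P hP
        rw [ex] at this
        rw [hS]; linarith only [this]
      · rcases S.eq_empty_or_nonempty with rfl | ⟨j, hj⟩
        · have : 0 ≤ tp P ((1 - R) * 1 * (1 - R)) := by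
            rw [mul_one, pR.compl.2]; exact tp_nonneg hP.1 pR.compl.con.1
          simpa only [Finset.sum_empty, sub_self, mul_one, zero_sub, add_zero, Left.neg_nonpos_iff, ge_iff_le] using this
        · have := hC6 S α Ω (fun i => L i) ψ ⟨j, hj⟩ hd
            (fun i i' hi => hL i i' fun h => hi (Subtype.ext h)) hψ P hP
          rw [ex, Finset.sum_coe_sort S fun i => tp P ((1 - R) * tw (L i) R * (1 - R)),
            Finset.sum_coe_sort S fun i => Nn (L i) ψ] at this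
          have h0 : 0 ≤ Nn (L j) ψ ^ 3 / (3 * 10 ^ 10 * (Fintype.card S : ℝ) ^ 2) := by
            have := N0 j; positivity
          linarith only [this, h0]
  have h5 : tp P ((1 - R) * H * (1 - R)) = ∑ i, b i * tp P ((1 - R) * tw (L i) R * (1 - R)) -
      tp P ((1 - R) * 1 * (1 - R)) := by
    rw [hH, ex]
    simp only [Matrix.mul_smul, Matrix.smul_mul, tp_rsmul]
  rw [add_sub_assoc, tp_add, tp_rsmul, ← hH, mul_div_assoc (∏ i, b i)]
  rw [tp_compl, rR, h1, h5] at pen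
  simp only [mul_sub, Finset.sum_sub_distrib, mul_one] at pen h4
  linarith

end Pool.Agent.MP_b746ed_mp.LD
end

section
set_option autoImplicit false
set_option linter.unusedSectionVars false
open scoped ComplexOrder MatrixOrder
open Matrix

namespace Pool.Agent.MP_b746ed_mp.LD
open KF
open H14 (trf dg)

namespace ASS1
open H14 (ph sum_ph norm_ph)
variable {A B κ : Type} [Fintype A] [DecidableEq A] [Fintype B] [DecidableEq B] [Fintype κ]
  [DecidableEq κ]

lemma dsum {q : κ → ℝ} (hq : ∑ z, q z = 1) (c : ℝ) (u : κ → ℝ) :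
    ∑ z, ∑ w, q z * q w * (c + u z + u w) = c + 2 * ∑ z, q z * u z := by
  have e : ∀ z w, q z * q w * (c + u z + u w) =
      (q z * c + q z * u z) * q w + q z * (q w * u w) := fun z w => by ring
  simp only [e, Finset.sum_add_distrib, ← Finset.mul_sum, ← Finset.sum_mul, hq]
  ring

lemma marg_sq (q : A × B → ℝ) :
    ∑ z, ∑ w, q z * q w * (if z.1 = w.1 then 1 else 0) = ∑ x, (∑ y, q (x, y)) ^ 2 := by
  simp only [Fintype.sum_prod_type, mul_ite, mul_one, mul_zero, sq, Finset.sum_mul_sum]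
  refine Finset.sum_congr rfl fun x _ => Finset.sum_congr rfl fun y _ => ?_
  rw [Finset.sum_comm]
  simp only [Finset.sum_ite_eq, Finset.mem_univ, ↓ reduceIte]

lemma comb (q : A × B → ℝ) (h h' : ℝ) (h0 : ∀ z, 0 ≤ q z) (hq : ∑ z, q z = 1) (hh : 0 ≤ h')
    (hA : ∀ x, ∑ y, q (x, y) ≤ 1 - h) (hB : ∀ y, ∑ x, q (x, y) ≤ 1 - h') :
    h * h' ≤ 5 * (1 + ∑ z, q z ^ 2 - ∑ x, (∑ y, q (x, y)) ^ 2 - ∑ y, (∑ x, q (x, y)) ^ 2) := by
  set a : A × B → A × B → ℝ := fun z w => if z.1 = w.1 then 1 else 0 with ha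
  set b : A × B → A × B → ℝ := fun z w => if z.2 = w.2 then 1 else 0 with hb
  set g : A × B → A × B → ℝ := fun z w => (1 - a z w) * (1 - b z w) with hg
  have e1 : ∑ z, ∑ w, q z * q w * a z w = ∑ x, (∑ y, q (x, y)) ^ 2 := marg_sq q
  have e2 : ∑ z, ∑ w, q z * q w * b z w = ∑ y, (∑ x, q (x, y)) ^ 2 := by
    rw [← marg_sq fun z : B × A => q (z.2, z.1)]
    exact Fintype.sum_equiv (Equiv.prodComm A B) _ _ fun z =>
      Fintype.sum_equiv (Equiv.prodComm A B) _ _ fun w => rfl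
  have e3 : ∑ z, ∑ w, q z * q w * (a z w * b z w) = ∑ z, q z ^ 2 := by
    refine Finset.sum_congr rfl fun z _ => ?_
    rw [Finset.sum_eq_single z (fun w _ hw => ?_) (by simp only [Finset.mem_univ, not_true_eq_false, mul_eq_zero, or_self, IsEmpty.forall_iff])]
    · simp [ha, hb, sq]
    · by_cases h1 : z.1 = w.1
      · have h2 : z.2 ≠ w.2 := fun h2 => hw (Prod.ext h1 h2).symm
        simp [hb, h2]
      · simp [ha, h1]
  have e0 : ∑ z, ∑ w, q z * q w = 1 := by rw [← Finset.sum_mul_sum, hq, one_mul]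
  have hq1 : ∑ x, ∑ y, q (x, y) = 1 := by rw [← hq, Fintype.sum_prod_type]
  have hq2 : ∑ y, ∑ x, q (x, y) = 1 := by rw [← hq1, Finset.sum_comm]
  have l1 : ∑ x, (∑ y, q (x, y)) ^ 2 ≤ 1 - h := by
    refine le_trans (Finset.sum_le_sum fun x _ => ?_ : _ ≤ ∑ x, (1 - h) * ∑ y, q (x, y))
      (by rw [← Finset.mul_sum, hq1, mul_one])
    rw [sq]
    exact mul_le_mul_of_nonneg_right (hA x) (Finset.sum_nonneg fun y _ => h0 _)
  have l2 : ∑ y, (∑ x, q (x, y)) ^ 2 ≤ 1 - h' := by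
    refine le_trans (Finset.sum_le_sum fun x _ => ?_ : _ ≤ ∑ y, (1 - h') * ∑ x, q (x, y))
      (by rw [← Finset.mul_sum, hq2, mul_one])
    rw [sq]
    exact mul_le_mul_of_nonneg_right (hB x) (Finset.sum_nonneg fun y _ => h0 _)
  have g0 : ∀ z w, 0 ≤ g z w := fun z w => by simp only [hg, ha, hb]; split_ifs <;> norm_num
  have k1 : ∀ z w, (1 - a z w) * h' ≤
      g z w + 2 * ∑ s, q s * g z s + 2 * ∑ s, q s * g w s := fun z w => by
    have n1 : ∀ z, 0 ≤ ∑ s, q s * g z s := fun z =>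
      Finset.sum_nonneg fun s _ => mul_nonneg (h0 s) (g0 z s)
    by_cases h1 : z.1 = w.1
    · have := g0 z w
      have := n1 z
      have := n1 w
      simp only [ha, h1, if_true, sub_self, zero_mul]; positivity
    have k2 := dsum hq (g z w) fun s => g z s + g w s
    simp only [mul_add (q _), Finset.sum_add_distrib] at k2
    have k3 : ∑ s, ∑ t, q s * q t * (1 - b s t) ≤
        ∑ s, ∑ t, q s * q t * (g z w + (g z s + g w s) + (g z t + g w t)) := by
      refine Finset.sum_le_sum fun s _ => Finset.sum_le_sum fun t _ =>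
        mul_le_mul_of_nonneg_left ?_ (mul_nonneg (h0 s) (h0 t))
      have g1 : ∀ z w : A × B, z.1 ≠ w.1 → z.2 ≠ w.2 → g z w = 1 := fun z w h1 h2 => by
        simp [hg, ha, hb, h1, h2]
      have g2 : ∀ s : A × B, z.2 = w.2 → z.2 ≠ s.2 → 1 ≤ g z s + g w s := fun s h2 h3 => by
        by_cases h4 : z.1 = s.1
        · linarith only [g1 w s (fun h5 => h1 (h4.trans h5.symm)) (h2 ▸ h3), g0 z s]
        · linarith only [g1 z s h4 h3, g0 w s]
      have := g0 z w
      have := add_nonneg (g0 z s) (g0 w s)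
      have := add_nonneg (g0 z t) (g0 w t)
      by_cases h2 : s.2 = t.2
      · simp only [hb, h2, if_true, sub_self]; positivity
      simp only [hb, h2, if_false, sub_zero]
      by_cases h3 : z.2 = w.2
      · by_cases h4 : z.2 = s.2
        · linarith [g2 t h3 (h4 ▸ h2)]
        · linarith [g2 s h3 h4]
      · linarith [g1 z w h1 h3]
    simp only [mul_sub, mul_one, Finset.sum_sub_distrib, e0, e2] at k3
    simp only [ha, h1, if_false, sub_zero, one_mul]
    linarith only [l2, k2, k3]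
  have k4 : ∑ z, ∑ w, q z * q w * ((1 - a z w) * h') ≤
      ∑ z, ∑ w, (q z * q w * g z w +
        q z * q w * (0 + 2 * ∑ s, q s * g z s + 2 * ∑ s, q s * g w s)) := by
    refine Finset.sum_le_sum fun z _ => Finset.sum_le_sum fun w _ => ?_
    rw [← mul_add, zero_add, ← add_assoc]
    exact mul_le_mul_of_nonneg_left (k1 z w) (mul_nonneg (h0 z) (h0 w))
  have e4 : ∑ z, q z * (2 * ∑ s, q s * g z s) = 2 * ∑ z, ∑ w, q z * q w * g z w := by
    simp only [Finset.mul_sum]
    exact Finset.sum_congr rfl fun z _ => Finset.sum_congr rfl fun w _ => by ring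
  have e5 : ∑ z, ∑ w, q z * q w * g z w = ∑ z, ∑ w, (q z * q w + q z * q w * (a z w * b z w)
      - q z * q w * a z w - q z * q w * b z w) :=
    Finset.sum_congr rfl fun z _ => Finset.sum_congr rfl fun w _ => by simp only [hg]; ring
  simp only [Finset.sum_add_distrib, Finset.sum_sub_distrib, e0, e1, e2, e3] at e5
  simp only [Finset.sum_add_distrib, dsum hq 0 fun z => 2 * ∑ s, q s * g z s, e4] at k4
  simp only [← mul_assoc, ← Finset.sum_mul, mul_sub, mul_one, Finset.sum_sub_distrib, e0, e1] at k4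
  linarith only [mul_le_mul_of_nonneg_right l1 hh, e5, k4]

/-- the spectral data of a state -/
lemma spec {σ : Matrix κ κ ℂ} (hσ : St σ) : ∃ (b : κ → κ → ℂ) (l : κ → ℝ),
    (∀ k k', ip (b k) (b k') = if k = k' then 1 else 0) ∧ ∑ k, op (b k) (b k) = 1 ∧
      σ = ∑ k, l k • op (b k) (b k) ∧ (∀ k, tp σ (op (b k) (b k)) = l k) ∧ (∀ k, 0 ≤ l k) ∧
      ∑ k, l k = 1 ∧ hs σ = ∑ k, l k ^ 2 ∧
      ∀ c : ℝ, σ ≤ c • (1 : Matrix κ κ ℂ) → ∀ k, l k ≤ c := by
  have hH : σᴴ = σ := hσ.1.isHermitian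
  obtain ⟨b, l, hb, h1, hW, hl⟩ := exists_basis hH
  have e : ∀ k, (ip (b k) (σ *ᵥ b k)).re = l k := fun k => by
    rw [hl, ← Complex.coe_smul, ip_smul_right, hb, if_pos rfl, mul_one, Complex.ofReal_re]
  refine ⟨b, l, hb, by simpa only [one_smul] using h1, hW, fun k => by rw [tp_op, e], fun k => ?_, ?_, ?_,
    fun c hc k => ?_⟩
  · rw [← e]; exact psd_re_nonneg hσ.1 _
  · rw [← basis_rt hb, ← hW, rt, hσ.2, Complex.one_re]
  · rw [hs_eq_rt, hH, hW, basis_mul hb, basis_rt hb]; simp only [sq]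
  · have := (le_iff_ip hH (by simp)).1 hc (b k)
    rwa [e, ip_rsmul_one, nv_eq_ip, hb, if_pos rfl, Complex.one_re, mul_one] at this

lemma bessel {σ : Matrix κ κ ℂ} {v : κ → κ → ℂ}
    (hv : ∀ k k', ip (v k) (v k') = if k = k' then 1 else 0) (hH : σᴴ = σ) :
    ∑ k, tp σ (op (v k) (v k)) ^ 2 ≤ hs σ := by
  set D := ∑ k, tp σ (op (v k) (v k)) • op (v k) (v k) with hD
  have h := hs_nonneg (σ - D)
  have e1 : rt (σ * D) = ∑ k, tp σ (op (v k) (v k)) ^ 2 := by
    simp only [hD, Finset.mul_sum, Matrix.mul_smul, rt_sum, rt_rsmul, ← tp_eq_rt, sq]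
  have e2 : rt (D * D) = ∑ k, tp σ (op (v k) (v k)) ^ 2 := by
    rw [hD, basis_mul hv, basis_rt hv]; simp only [sq]
  rw [hs_eq_rt, conjTranspose_sub, hH, basis_conj, ← hD, sub_mul, mul_sub, mul_sub, rt_sub, rt_sub,
    rt_sub, rt_comm D σ, e1, e2] at h
  rw [hs_eq_rt, hH]
  linarith

lemma key {σ : Matrix (A × B) (A × B) ℂ} {h h' : ℝ} (hσ : St σ) (hh : 0 ≤ h')
    (hA : trr σ ≤ (1 - h) • (1 : Matrix A A ℂ))
    (hB : trr (σ.submatrix Prod.swap Prod.swap) ≤ (1 - h') • (1 : Matrix B B ℂ)) :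
    h * h' ≤ 5 * (1 + hs σ - hs (trr σ) - hs (trr (σ.submatrix Prod.swap Prod.swap))) := by
  have hσ' : St (σ.submatrix (Prod.swap : B × A → A × B) Prod.swap) :=
    ⟨hσ.1.submatrix _, by
      rw [← hσ.2]; exact Fintype.sum_equiv (Equiv.prodComm B A) _ _ fun z => rfl⟩
  obtain ⟨a, l, ha, ha1, -, hl, -, -, hl2, hl3⟩ := spec hσ.trr
  obtain ⟨b, m, hb, hb1, -, hm, -, -, hm2, hm3⟩ := spec hσ'.trr
  set v : A × B → A × B → ℂ := fun p z => a p.1 z.1 * b p.2 z.2 with hv
  have v1 : ∀ k k', ip (v k) (v k') = if k = k' then 1 else 0 := fun k k' => by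
    have : ip (v k) (v k') = ip (a k.1) (a k'.1) * ip (b k.2) (b k'.2) := by
      simp only [ip_eq, hv, Fintype.sum_prod_type, Finset.sum_mul_sum, star_mul']
      exact Finset.sum_congr rfl fun _ _ => Finset.sum_congr rfl fun _ _ => by ring
    simp only [this, ha, hb, Prod.ext_iff]
    split_ifs <;> simp_all
  have sA : ∀ x, ∑ y, tp σ (op (v (x, y)) (v (x, y))) = l x := fun x => by
    have e : ∑ y, op (v (x, y)) (v (x, y)) =
        of fun z w => op (a x) (a x) z.1 w.1 * (1 : Matrix B B ℂ) z.2 w.2 := by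
      ext z w
      simp only [← hb1, Matrix.sum_apply, op_apply, hv, of_apply, Finset.mul_sum, star_mul']
      exact Finset.sum_congr rfl fun _ _ => by ring
    simp only [tp_eq_rt, ← rt_sum, ← Finset.mul_sum, e, ← hl]
    simp only [rt, trace, diag_apply, Matrix.mul_apply, Fintype.sum_prod_type, of_apply, one_apply,
      mul_ite, mul_one, mul_zero, Finset.sum_ite_eq', Finset.mem_univ, if_true, trr,
      Finset.sum_mul]
    exact congrArg _ (Finset.sum_congr rfl fun _ _ => Finset.sum_comm)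
  have sB : ∀ y, ∑ x, tp σ (op (v (x, y)) (v (x, y))) = m y := fun y => by
    have e : ∑ x, op (v (x, y)) (v (x, y)) =
        of fun z w => op (b y) (b y) z.2 w.2 * (1 : Matrix A A ℂ) z.1 w.1 := by
      ext z w
      simp only [← ha1, Matrix.sum_apply, op_apply, hv, of_apply, Finset.mul_sum, star_mul']
      exact Finset.sum_congr rfl fun _ _ => by ring
    simp only [tp_eq_rt, ← rt_sum, ← Finset.mul_sum, e, ← hm]
    simp only [rt, trace, diag_apply, Matrix.mul_apply, Fintype.sum_prod_type_right, of_apply,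
      one_apply, mul_ite, mul_one, mul_zero, Finset.sum_ite_eq', Finset.mem_univ, if_true, trr,
      Finset.sum_mul, submatrix_apply, Prod.swap_prod_mk]
    exact congrArg _ (Finset.sum_congr rfl fun _ _ => Finset.sum_comm)
  have h1 : ∑ x, l x = 1 := by
    simp only [← hl, tp_eq_rt, ← rt_sum, ← Finset.mul_sum, ha1, mul_one]
    rw [rt, hσ.trr.2, Complex.one_re]
  have := comb (fun z => tp σ (op (v z) (v z))) h h' (fun z => tp_nonneg hσ.1 (psd_op _))
    (by rw [Fintype.sum_prod_type]; simp only [sA, h1]) hh (fun x => (sA x).trans_le (hl3 _ hA x))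
    fun y => (sB y).trans_le (hm3 _ hB y)
  simp only [sA, sB] at this
  linarith only [bessel v1 hσ.1.isHermitian, hl2, hm2, this]

/-- a vector as a matrix -/
def mx (χ : A × B → ℂ) : Matrix A B ℂ := of fun x y => χ (x, y)

lemma trr_op (χ : A × B → ℂ) : trr (op χ χ) = mx χ * (mx χ)ᴴ := by
  ext x y
  simp only [trr, op_apply, RCLike.star_def, of_apply, mx, Matrix.mul_apply, conjTranspose_apply]

lemma pur_le (χ : A × B → ℂ) : hs (trr (op χ χ)) ≤ nv χ ^ 2 := by
  have e : nv χ = ∑ x, nv fun y => χ (x, y) := by simp only [nv, Fintype.sum_prod_type]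
  rw [e, sq, Finset.sum_mul_sum, hs]
  refine Finset.sum_le_sum fun x _ => Finset.sum_le_sum fun y _ => ?_
  have h := pow_le_pow_left₀ (norm_nonneg _) (norm_ip_le (fun s => χ (y, s)) fun s => χ (x, s)) 2
  rw [mul_pow, Real.sq_sqrt (nv_nonneg _), Real.sq_sqrt (nv_nonneg _), mul_comm] at h
  simpa only [trr, op_apply, RCLike.star_def, of_apply, ge_iff_le, ip_eq, mul_comm] using h

lemma mean4 (W : κ → κ → κ → κ → ℂ) :
    ∑ θ : κ → ZMod 3, ∑ k, ∑ l, ∑ j, ∑ i,
      ph θ k * star (ph θ l) * (star (ph θ i) * ph θ j) * W k l j i =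
    (Fintype.card (κ → ZMod 3) : ℂ) *
      (∑ k, ∑ j, W k k j j + ∑ k, ∑ l, W k l l k - ∑ k, W k k k k) := by
  have e : ∀ k l j i : κ, (if (k = l ∧ i = j) ∨ (k = i ∧ j = l) then
      (Fintype.card (κ → ZMod 3) : ℂ) else 0) * W k l j i = (Fintype.card (κ → ZMod 3) : ℂ) *
      ((if j = i then if k = l then W k l j i else 0 else 0) +
        (if k = i then if l = j then W k l j i else 0 else 0) -
        if k = i then if k = j then if k = l then W k l j i else 0 else 0 else 0) := by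
    intro k l j i
    by_cases h1 : k = l <;> by_cases h2 : k = i <;> by_cases h3 : k = j <;> by_cases h4 : j = i <;>
      by_cases h5 : l = j <;> simp_all [eq_comm]
  rw [Finset.sum_comm]
  simp only [Finset.sum_comm (s := (Finset.univ : Finset (κ → ZMod 3))), ← Finset.sum_mul, sum_ph, e,
    ← Finset.mul_sum, Finset.sum_add_distrib, Finset.sum_sub_distrib, Finset.sum_ite_eq,
    Finset.mem_univ, if_true, Finset.sum_ite_irrel, Finset.sum_const_zero]

lemma mean2 (k l : κ) : ∑ θ : κ → ZMod 3, ph θ k * star (ph θ l) =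
    if k = l then (Fintype.card (κ → ZMod 3) : ℂ) else 0 := by
  have h := sum_ph k l l l
  have e : ∀ θ : κ → ZMod 3, star (ph θ l) * ph θ l = 1 := fun θ => by
    rw [Complex.star_def, Complex.conj_mul', norm_ph]; simp
  simp only [e, mul_one] at h
  simpa only [RCLike.star_def, Fintype.card_pi, ZMod.card, Finset.prod_const, Finset.card_univ, Nat.cast_pow, Nat.cast_ofNat, and_true, or_self] using h

lemma mean_pur (M : κ → Matrix A B ℂ) (p : κ → ℝ) (hp : ∀ k, 0 ≤ p k) :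
    ∑ θ : κ → ZMod 3, hs ((∑ k, ((√(p k) : ℝ) * ph θ k) • M k) *
      (∑ k, ((√(p k) : ℝ) * ph θ k) • M k)ᴴ) = (Fintype.card (κ → ZMod 3) : ℝ) *
      (hs (∑ k, p k • (M k * (M k)ᴴ)) + hs (∑ k, p k • ((M k)ᴴ * M k)) -
        ∑ k, p k ^ 2 * hs (M k * (M k)ᴴ)) := by
  have h := mean4 fun k l j i => ((√(p k) * √(p l) * (√(p j) * √(p i)) : ℝ) : ℂ) *
    (M k * (M l)ᴴ * (M j * (M i)ᴴ)).trace
  have e1 : ∀ k l, √(p k) * √(p l) * (√(p l) * √(p k)) = p k * p l := fun k l => by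
    rw [mul_comm √(p l), mul_mul_mul_comm, Real.mul_self_sqrt (hp k), Real.mul_self_sqrt (hp l)]
  have e2 : ∀ k l, (M k * (M l)ᴴ * (M l * (M k)ᴴ)).trace =
      ((M k)ᴴ * M k * ((M l)ᴴ * M l)).trace := fun k l => by
    rw [← Matrix.mul_assoc, trace_mul_comm]; simp only [Matrix.mul_assoc]
  simp only [e1, Real.mul_self_sqrt (hp _)] at h
  conv at h => rhs; enter [2, 1, 2]; simp only [e2]
  have h' := congrArg Complex.re h
  rw [← Complex.ofReal_natCast, Complex.re_ofReal_mul, Complex.re_sum, Complex.sub_re,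
    Complex.add_re] at h'
  convert h' using 2 with θ
  · have e : (∑ k, ((√(p k) : ℝ) * ph θ k) • M k) * (∑ k, ((√(p k) : ℝ) * ph θ k) • M k)ᴴ =
        ∑ k, ∑ l, ((√(p k) : ℝ) * ph θ k * ((√(p l) : ℝ) * star (ph θ l))) • (M k * (M l)ᴴ) := by
      rw [conjTranspose_sum, Matrix.sum_mul]
      simp only [Matrix.mul_sum, conjTranspose_smul, Matrix.smul_mul, Matrix.mul_smul, smul_smul,
        star_mul', Complex.star_def, Complex.conj_ofReal, mul_comm (_ * starRingEnd ℂ _)]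
    rw [hs_eq_rt, conjTranspose_mul, conjTranspose_conjTranspose, rt, e]
    simp only [Finset.sum_mul]
    simp only [Finset.mul_sum, Matrix.smul_mul, Matrix.mul_smul, trace_sum, trace_smul,
      smul_eq_mul, Complex.ofReal_mul]
    exact congrArg _ (Finset.sum_congr rfl fun _ _ => Finset.sum_congr rfl fun _ _ =>
      Finset.sum_congr rfl fun _ _ => Finset.sum_congr rfl fun _ _ => by ring)
  · simp only [hs_eq_rt, rt, conjTranspose_sum, conjTranspose_smul, conjTranspose_mul,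
      conjTranspose_conjTranspose, star_trivial, Finset.sum_mul_sum, Matrix.smul_mul,
      Matrix.mul_smul, trace_sum, trace_smul, smul_smul, Complex.real_smul, Complex.re_sum,
      Complex.re_ofReal_mul, sq, mul_comm (p _) (p _)]

end ASS1

open ASS1 H14 in
theorem t_ASS1 : S_ASS1 := by
  intro A B _ _ _ _ σ h h' hσ _ hh hA hB
  have hk := key hσ hh hA hB
  obtain ⟨ψ, p, hψ, -, hW, -, hp, hp1, hp2, -⟩ := spec hσ
  have hN : (0 : ℝ) < Fintype.card (A × B → ZMod 3) := by exact_mod_cast Fintype.card_pos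
  set N : ℝ := ((Fintype.card (A × B → ZMod 3) : ℕ) : ℝ) with hNd
  have n1 : ∀ k, nv (ψ k) = 1 := fun k => by rw [nv_eq_ip, hψ, if_pos rfl, Complex.one_re]
  set χ : (A × B → ZMod 3) → A × B → ℂ := fun θ => ∑ k, ((√(p k) : ℝ) * ph θ k) • ψ k with hχ
  have n2 : ∀ θ, nv (χ θ) = 1 := fun θ => by
    have e : ∀ k, star ((√(p k) : ℝ) * ph θ k) * ((√(p k) : ℝ) * ph θ k) = (p k : ℂ) := fun k => by
      rw [Complex.star_def, Complex.conj_mul', norm_mul, norm_ph, mul_one, Complex.norm_real,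
        Real.norm_of_nonneg (Real.sqrt_nonneg _), ← Complex.ofReal_pow, Real.sq_sqrt (hp k)]
    simp only [nv_eq_ip, hχ, ip_sum_left, ip_sum_right, ip_smul_left, ip_smul_right, hψ, mul_ite,
      mul_one, mul_zero, Finset.sum_ite_eq', Finset.mem_univ, if_true, mul_comm (_ * _), e,
      Complex.re_sum, Complex.ofReal_re, hp1]
  have n3 : ∑ θ, op (χ θ) (χ θ) = N • σ := by
    ext z w
    have e : ∀ θ, op (χ θ) (χ θ) z w = ∑ k, ∑ l, ph θ k * star (ph θ l) *
        (((√(p k) * √(p l) : ℝ) : ℂ) * (ψ k z * star (ψ l w))) := fun θ => by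
      simp only [op_apply, hχ, Finset.sum_apply, Pi.smul_apply, smul_eq_mul, star_sum,
        Finset.sum_mul_sum, star_mul', Complex.star_def, Complex.conj_ofReal, Complex.ofReal_mul]
      exact Finset.sum_congr rfl fun _ _ => Finset.sum_congr rfl fun _ _ => by ring
    simp only [Matrix.sum_apply, e, Finset.sum_comm (s := (Finset.univ : Finset (A × B → ZMod 3))),
      ← Finset.sum_mul, mean2, ite_mul, zero_mul, Finset.sum_ite_eq, Finset.mem_univ, if_true,
      Real.mul_self_sqrt (hp _)]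
    rw [hW]
    simp only [Matrix.smul_apply, Matrix.sum_apply, op_apply, Complex.real_smul, Finset.mul_sum,
      hNd, Complex.ofReal_natCast]
  have n4 : ∑ θ, hs (trr (op (χ θ) (χ θ))) = N * (hs (trr σ) +
      hs (trr (σ.submatrix Prod.swap Prod.swap)) - ∑ k, p k ^ 2 * hs (trr (op (ψ k) (ψ k)))) := by
    have e1 : ∀ θ, mx (χ θ) = ∑ k, ((√(p k) : ℝ) * ph θ k) • mx (ψ k) := fun θ => by
      ext x y; simp only [mx, hχ, Finset.sum_apply, Pi.smul_apply, smul_eq_mul, of_apply, smul_of, Matrix.sum_apply]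
    have e2 : trr σ = ∑ k, p k • (mx (ψ k) * (mx (ψ k))ᴴ) := by
      rw [hW]; ext x y
      simp only [trr, of_apply, Matrix.sum_apply, Matrix.smul_apply, op_apply, mx,
        Matrix.mul_apply, conjTranspose_apply, Finset.smul_sum]
      exact Finset.sum_comm
    have e3 : hs (trr (σ.submatrix Prod.swap Prod.swap)) =
        hs (∑ k, p k • ((mx (ψ k))ᴴ * mx (ψ k))) := by
      rw [hW, hs, hs, Finset.sum_comm]
      refine Finset.sum_congr rfl fun x _ => Finset.sum_congr rfl fun y _ => ?_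
      simp only [trr, of_apply, Matrix.sum_apply, Matrix.smul_apply, op_apply, mx, submatrix_apply,
        Matrix.mul_apply, conjTranspose_apply, Finset.smul_sum, Prod.swap_prod_mk, mul_comm (star _)]
      rw [Finset.sum_comm]
    simp only [trr_op, e1, e2, e3, mean_pur _ p hp, hNd]
  refine ⟨(A × B) ⊕ (A × B → ZMod 3), inferInstance, Sum.elim (fun k => p k / 2) fun _ => 1 / (2 * N),
    Sum.elim ψ χ, ⟨?_, ?_, ?_⟩, ?_⟩
  · rintro (k | θ)
    · exact div_nonneg (hp k) zero_le_two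
    · exact one_div_nonneg.2 (by positivity)
  · rintro (k | θ)
    exacts [n1 k, n2 θ]
  · have e : ∑ k, (p k / 2) • op (ψ k) (ψ k) = (2⁻¹ : ℝ) • σ := by
      rw [hW, Finset.smul_sum]
      exact Finset.sum_congr rfl fun k _ => by rw [smul_smul, div_eq_inv_mul]
    have e' : (2⁻¹ : ℝ) + 1 / (2 * N) * N = 1 := by field_simp; norm_num
    simp only [Fintype.sum_sum_type, Sum.elim_inl, Sum.elim_inr, ← Finset.smul_sum, n3, e]
    rw [smul_smul, ← add_smul, e', one_smul]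
  · simp only [Fintype.sum_sum_type, Sum.elim_inl, Sum.elim_inr, ← Finset.mul_sum,
      Finset.sum_sub_distrib, n4, Finset.sum_const, Finset.card_univ, nsmul_eq_mul, ← hNd]
    have l1 : ∑ k, (p k ^ 2 - p k ^ 2 * hs (trr (op (ψ k) (ψ k)))) / 2 ≤
        ∑ k, p k / 2 * (1 - hs (trr (op (ψ k) (ψ k)))) := Finset.sum_le_sum fun k _ => by
      have a1 := pur_le (ψ k)
      have a2 : p k ≤ 1 := hp1 ▸ Finset.single_le_sum (fun j _ => hp j) (Finset.mem_univ k)
      rw [n1, one_pow] at a1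
      linarith only [mul_nonneg (mul_nonneg (hp k) (sub_nonneg.2 a2)) (sub_nonneg.2 a1)]
    rw [← Finset.sum_div, Finset.sum_sub_distrib, ← hp2] at l1
    rw [← mul_sub, ← mul_assoc, show 1 / (2 * N) * N = 1 / 2 by field_simp]
    linarith only [mul_nonneg ‹0 ≤ h› hh, hk, l1]

end Pool.Agent.MP_b746ed_mp.LD
end

section
set_option autoImplicit false
set_option linter.unusedSectionVars false
open scoped ComplexOrder MatrixOrder
open Matrix

namespace Pool.Agent.MP_b746ed_mp.LD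
open KF
open H14 (trf dg)

namespace ASS2

section Abs
variable {β : Type} [Fintype β] [DecidableEq β]

lemma le_of_unit {A : Matrix β β ℂ} (hA : Aᴴ = A) {c : ℝ}
    (h : ∀ v, nv v = 1 → (ip v (A *ᵥ v)).re ≤ c) : A ≤ c • (1 : Matrix β β ℂ) := by
  rw [le_iff_ip hA (by simp)]
  intro x
  rw [ip_rsmul_one]
  rcases (nv_nonneg x).eq_or_lt with h0 | h0
  · have : x = 0 := eq_zero_of_ip_self (by rw [← nv_eq_ip, ← h0])
    subst this
    simp [ip_zero_left, nv_zero]
  · obtain ⟨r, hr⟩ : ∃ r : ℝ, r ^ 2 * nv x = 1 := ⟨(√(nv x))⁻¹, by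
      rw [inv_pow, Real.sq_sqrt h0.le, inv_mul_cancel₀ h0.ne']⟩
    have h1 := h (r • x) (by rw [nv_rsmul, hr])
    rw [mulVec_smul, ← Complex.coe_smul, ← Complex.coe_smul, ip_smul_left, ip_smul_right,
      ← mul_assoc, Complex.star_def, Complex.conj_ofReal, ← Complex.ofReal_mul,
      Complex.re_ofReal_mul] at h1
    have h2 := mul_le_mul_of_nonneg_right h1 h0.le
    have h3 : r * r * (ip x (A *ᵥ x)).re * nv x = (r ^ 2 * nv x) * (ip x (A *ᵥ x)).re := by ring
    rwa [h3, hr, one_mul] at h2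

lemma nv_add_le (a b : β → ℂ) : nv (a + b) ≤ 2 * nv a + 2 * nv b := by
  have h1 := nv_add a b
  have h2 := nv_add a (-b)
  rw [nv_neg, ip_neg_right, Complex.neg_re] at h2
  linarith [nv_nonneg (a + -b)]

lemma split {R : Matrix β β ℂ} (hR : Opb R 1) {v : β → ℂ} (hv : nv v = 1) (w : β → ℂ) :
    ‖ip v w‖ ^ 2 ≤ nv w ∧
    nv (R *ᵥ w) ≤ 2 * (nv (R *ᵥ v) * ‖ip v w‖ ^ 2) + 2 * (nv w - ‖ip v w‖ ^ 2) ∧
    nv (R *ᵥ v) * ‖ip v w‖ ^ 2 ≤ 2 * nv (R *ᵥ w) + 2 * (nv w - ‖ip v w‖ ^ 2) := by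
  obtain ⟨c, hc⟩ : ∃ c, c = ip v w := ⟨_, rfl⟩
  obtain ⟨w', hw⟩ : ∃ w', w = c • v + w' := ⟨w - c • v, by simp⟩
  have h0 : ip v w' = 0 := by
    have := hc
    rw [hw, ip_add_right, ip_smul_right, ip_self_nv, hv] at this
    simpa using this
  have h1 := nv_add (c • v) w'
  rw [← hw, ip_smul_left, h0, nv_smul, hv] at h1
  simp only [mul_zero, Complex.zero_re, add_zero, mul_one] at h1
  have h2 := hR w'
  have h3 : R *ᵥ w = c • R *ᵥ v + R *ᵥ w' := by
    conv_lhs => rw [hw, mulVec_add, mulVec_smul]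
  have h4 := nv_add_le (c • R *ᵥ v) (R *ᵥ w')
  have h5 := nv_add_le (R *ᵥ w) (-(R *ᵥ w'))
  rw [← h3, nv_smul] at h4
  rw [h3, add_neg_cancel_right, ← h3, nv_smul, nv_neg] at h5
  rw [← hc]
  exact ⟨by linarith [nv_nonneg w'], by linarith, by linarith⟩

lemma nv_compl {Q : Matrix β β ℂ} (hQ : IsProj Q) (x : β → ℂ) :
    nv ((1 - Q) *ᵥ x) = nv x - (ip x (Q *ᵥ x)).re := by
  have h : ip x ((1 - Q) *ᵥ x) = ip ((1 - Q) *ᵥ x) ((1 - Q) *ᵥ x) := by
    conv_lhs => rw [← hQ.compl.2, ← mulVec_mulVec, ip_mulVec, hQ.compl.1]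
  rw [nv_eq_ip, ← h, sub_mulVec, one_mulVec, ip_sub_right, Complex.sub_re, ← nv_eq_ip]

lemma proj_op {α : Type} [Fintype α] [DecidableEq α]
    (L : Matrix α α ℂ →⋆ₐ[ℂ] Matrix β β ℂ) {u : α → ℂ} (hu : nv u = 1) : IsProj (L (op u u)) :=
  ⟨by rw [L_conj, op_conjTranspose], by rw [← map_mul, op_mul_op, ip_self_nv, hu]; simp⟩

lemma re_op (v w : β → ℂ) : (ip v (op w w *ᵥ v)).re = ‖ip v w‖ ^ 2 := by
  rw [op_mulVec, ip_smul_right, ← star_ip v w, Complex.star_def, mul_comm, Complex.mul_conj',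
    ← Complex.ofReal_pow, Complex.ofReal_re]

lemma nn_ge {α : Type} [Fintype α] [DecidableEq α] [Nonempty α]
    (L : Matrix α α ℂ →⋆ₐ[ℂ] Matrix β β ℂ) {χ : β → ℂ} (hχ : nv χ = 1) {t : ℝ}
    (h : ∀ u, nv u = 1 → t ≤ nv ((1 - L (op u u)) *ᵥ χ)) : t ≤ Nn L χ := by
  have h0 : 0 ≤ marg L χ := nonneg_def.2 (marg_psd L χ)
  have h1 : marg L χ ≤ (1 - t) • (1 : Matrix α α ℂ) := le_of_unit (herm_of_nonneg h0) fun u hu => by
    have := h u hu
    rw [nv_compl (proj_op L hu), hχ, ip_L_eq] at this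
    rw [← tp_op, tp_comm, tp]
    linarith only [this]
  have h2 := rt_mono (sq_le_of_le h0 h1)
  have h3 : rt (marg L χ) = 1 := by rw [rt, marg_trace, ← nv_eq_ip, hχ]
  rw [rt_rsmul, h3] at h2
  rw [Nn, hs_eq_rt, herm_of_nonneg h0]
  linarith only [h2]

end Abs

section Split
variable {ι α : Type} [Fintype ι] [DecidableEq ι] [Fintype α] [DecidableEq α]

/-- gluing of one site and of the other sites -/
def gl (i : ι) : α × ({l // l ≠ i} → α) ≃ (ι → α) := (Equiv.funSplitAt i α).symm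

lemma gl_self (i : ι) (x : α) (y : {l // l ≠ i} → α) : gl i (x, y) i = x := by
  simp [gl]

lemma gl_ne (i : ι) (x : α) (y : {l // l ≠ i} → α) {j : ι} (h : j ≠ i) :
    gl i (x, y) j = y ⟨j, h⟩ := by
  simp [gl, h]

lemma up_self (i : ι) (x s : α) (y : {l // l ≠ i} → α) :
    Function.update (gl i (x, y)) i s = gl i (s, y) := by
  funext l
  rcases eq_or_ne l i with rfl | h
  · rw [Function.update_self, gl_self]
  · rw [Function.update_of_ne h, gl_ne _ _ _ h, gl_ne _ _ _ h]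

lemma up_ne (i : ι) (x s : α) (y : {l // l ≠ i} → α) {j : ι} (h : j ≠ i) :
    Function.update (gl i (x, y)) j s = gl i (x, Function.update y ⟨j, h⟩ s) := by
  funext l
  rcases eq_or_ne l i with rfl | hl
  · rw [Function.update_of_ne h.symm, gl_self, gl_self]
  · rw [gl_ne _ _ _ hl]
    rcases eq_or_ne l j with rfl | hj
    · rw [Function.update_self, Function.update_self]
    · rw [Function.update_of_ne hj, Function.update_of_ne (by simpa using hj), gl_ne _ _ _ hl]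

lemma tr_lift (i : ι) (σ : Matrix (ι → α) (ι → α) ℂ) (X : Matrix α α ℂ) :
    (σ * lift i X).trace = (trr (σ.submatrix (gl i) (gl i)) * X).trace := by
  simp only [trace, diag_apply, lift_apply, mul_liftFun]
  rw [← (gl i).sum_comp, Fintype.sum_prod_type]
  refine Finset.sum_congr rfl fun x _ => ?_
  simp only [up_self, gl_self, Matrix.mul_apply, trr, of_apply, submatrix_apply, Finset.sum_mul]
  exact Finset.sum_comm

lemma marg_eq (i : ι) (χ : α × ({l // l ≠ i} → α) → ℂ) :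
    marg (lift i) (χ ∘ (gl i).symm) = trr (op χ χ) := by
  ext s t
  rw [marg_lift_apply, ← (gl i).sum_comp, Fintype.sum_prod_type, Finset.sum_comm]
  simp only [ne_eq, gl_self, Function.comp_apply, Equiv.symm_apply_apply, RCLike.star_def, up_self, mul_comm, Finset.sum_ite_eq', Finset.mem_univ, ↓ reduceIte, trr, op_apply, of_apply]

lemma nv_slices (i : ι) (χ : (ι → α) → ℂ) : nv χ = ∑ x, nv fun y => χ (gl i (x, y)) := by
  rw [nv, ← (gl i).sum_comp, Fintype.sum_prod_type]; rfl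

lemma slice (i : ι) {j : ι} (h : j ≠ i) (X : Matrix α α ℂ) (χ : (ι → α) → ℂ) (x : α) :
    (fun y => ((1 - lift j X) *ᵥ χ) (gl i (x, y))) =
      (1 - lift (⟨j, h⟩ : {l // l ≠ i}) X) *ᵥ fun y => χ (gl i (x, y)) := by
  funext y
  simp only [sub_mulVec, one_mulVec, Pi.sub_apply, lift_apply, liftFun_mulVec, up_ne _ _ _ _ h,
    gl_ne _ _ _ h]

end Split

end ASS2

open ASS2 in
theorem t_ASS2 (hASS1 : S_ASS1) : S_ASS2 := by
  intro ι α _ _ _ _ σ i j h hσ hij h0 h1 hi hj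
  have hσ0 : 0 ≤ σ := nonneg_def.2 hσ.1
  obtain ⟨σB, hB⟩ : ∃ σB : Matrix ({l // l ≠ i} → α) ({l // l ≠ i} → α) ℂ,
    σB = Matrix.of fun y y' => ∑ x, σ (gl i (x, y)) (gl i (x, y')) := ⟨_, rfl⟩
  have hσH : ∀ a b, star (σ a b) = σ b a := fun a b => by
    rw [← conjTranspose_apply, herm_of_nonneg hσ0]
  by_cases hc : ∀ v, nv v = 1 → (ip v (σB *ᵥ v)).re ≤ 1 - h / 8
  · obtain ⟨κ, _, π, χ, hD, hN⟩ := hASS1 α _ (σ.submatrix (gl i) (gl i)) h (h / 8)
      ⟨hσ.1.submatrix _, by rw [trace_sub_equiv, hσ.2]⟩ h0 (by positivity)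
      (le_of_unit (by ext a b; simp only [trr, ne_eq, submatrix_apply, conjTranspose_apply, of_apply, star_sum, hσH]) fun v hv => by
        have := hi v hv
        rwa [tp, tr_lift, ← tp, tp_op] at this)
      (le_of_unit (by ext a b; simp only [ne_eq, submatrix_apply, conjTranspose_apply, of_apply, star_sum, hσH]) (hB ▸ hc :))
    refine ⟨κ, inferInstance, π, fun k => χ k ∘ (gl i).symm, ⟨hD.1, fun k => ?_, ?_⟩, Or.inl ?_⟩
    · rw [← hD.2.1 k, nv, nv, ← (gl i).sum_comp]; simp only [ne_eq, Function.comp_apply, Equiv.symm_apply_apply]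
    · ext a b
      have := congrFun (congrFun hD.2.2 ((gl i).symm a)) ((gl i).symm b)
      simpa only [ne_eq, Matrix.sum_apply, Matrix.smul_apply, op_apply, Function.comp_apply, RCLike.star_def, Complex.real_smul, submatrix_apply, Equiv.apply_symm_apply] using this
    · simp only [Nn, marg_eq]
      linarith only [hN]
  push Not at hc
  obtain ⟨v, hv, hc⟩ := hc
  obtain ⟨b, l, hb, -, hW, hl⟩ := exists_basis (herm_of_nonneg hσ0)
  have hn : ∀ k, nv (b k) = 1 := fun k => by rw [nv_eq_ip, hb, if_pos rfl, Complex.one_re]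
  have l0 : ∀ k, 0 ≤ l k := fun k => by
    have := psd_re_nonneg hσ.1 (b k)
    rwa [hl, ← Complex.coe_smul, ip_smul_right, hb, if_pos rfl, mul_one, Complex.ofReal_re] at this
  have l1 : ∑ k, l k = 1 := by rw [← basis_rt hb, ← hW, rt, hσ.2, Complex.one_re]
  have : Nonempty α := by
    by_contra hα
    have : IsEmpty (ι → α) := ⟨fun f => hα ⟨f i⟩⟩
    simp at l1
  obtain ⟨m, hm⟩ : ∃ m : (ι → α) → ℝ, ∀ k, m k = ∑ x, ‖ip v fun y => b k (gl i (x, y))‖ ^ 2 :=
    ⟨_, fun _ => rfl⟩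
  have hmean : (ip v (σB *ᵥ v)).re = ∑ k, l k * m k := by
    have e : σB = ∑ k, l k • ∑ x, op (fun y => b k (gl i (x, y))) fun y => b k (gl i (x, y)) := by
      ext y y'
      rw [hB, hW]
      simp only [of_apply, Matrix.sum_apply, Matrix.smul_apply, op_apply, Finset.smul_sum]
      exact Finset.sum_comm
    rw [e, sum_mulVec, ip_sum_right, Complex.re_sum]
    refine Finset.sum_congr rfl fun k _ => ?_
    rw [smul_mulVec, ← Complex.coe_smul, ip_smul_right, Complex.re_ofReal_mul, sum_mulVec,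
      ip_sum_right, Complex.re_sum, hm]
    simp only [re_op]
  rw [hmean] at hc
  have key : ∀ u, nv u = 1 → ∃ c : ℝ, 0 ≤ c ∧ ∀ k, m k ≤ 1 ∧
      nv ((1 - lift j (op u u)) *ᵥ b k) ≤ 2 * (c * m k) + 2 * (1 - m k) ∧
      c * m k ≤ 2 * nv ((1 - lift j (op u u)) *ᵥ b k) + 2 * (1 - m k) := fun u hu => by
    have hR := (proj_op (lift (⟨j, hij.symm⟩ : {l // l ≠ i})) hu).compl.con.opb
    refine ⟨_, nv_nonneg ((1 - lift (⟨j, hij.symm⟩ : {l // l ≠ i}) (op u u)) *ᵥ v), fun k => ?_⟩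
    have hs := fun x => split hR hv fun y => b k (gl i (x, y))
    rw [← hn k, nv_slices i (b k), nv_slices i (_ *ᵥ b k), hm]
    simp only [slice i hij.symm, Finset.mul_sum, ← Finset.sum_sub_distrib,
      ← Finset.sum_add_distrib]
    exact ⟨Finset.sum_le_sum fun x _ => (hs x).1, Finset.sum_le_sum fun x _ => (hs x).2.1,
      Finset.sum_le_sum fun x _ => (hs x).2.2⟩
  have hN : ∀ k, (3 * h / 16 + 1) * m k - 1 ≤ Nn (lift j) (b k) := fun k => by
    refine nn_ge _ (hn k) fun u hu => ?_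
    obtain ⟨c, c0, hk⟩ := key u hu
    have a1 : ∑ k, l k * nv ((1 - lift j (op u u)) *ᵥ b k) = 1 - tp σ (lift j (op u u)) := by
      conv_rhs => rw [← l1, tp_comm, hW, tp_sum, ← Finset.sum_sub_distrib]
      refine Finset.sum_congr rfl fun k _ => ?_
      rw [nv_compl (proj_op _ hu), hn, tp_rsmul, tp_op]; ring
    have a2 : ∑ k, l k * nv ((1 - lift j (op u u)) *ᵥ b k) ≤
        ∑ k, ((2 * c + 2) * l k - 2 * (l k * m k)) := Finset.sum_le_sum fun k _ => by
      have := mul_le_mul_of_nonneg_left (hk k).1 c0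
      have := mul_le_mul_of_nonneg_left
        (show nv ((1 - lift j (op u u)) *ᵥ b k) ≤ 2 * c + 2 - 2 * m k by linarith only [(hk k).2.1, this])
        (l0 k)
      linarith only [this]
    rw [a1, Finset.sum_sub_distrib, ← Finset.mul_sum, ← Finset.mul_sum, l1] at a2
    have a3 : 3 * h / 8 ≤ c := by linarith [hj u hu]
    have m0 : 0 ≤ m k := by rw [hm]; positivity
    have := mul_le_mul_of_nonneg_right a3 m0
    linarith only [(hk k).2.2, this]
  refine ⟨_, inferInstance, l, b, ⟨l0, hn, hW⟩, Or.inr ?_⟩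
  have a4 : ∑ k, ((3 * h / 16 + 1) * (l k * m k) - l k) ≤ ∑ k, l k * Nn (lift j) (b k) :=
    Finset.sum_le_sum fun k _ => by
      have := mul_le_mul_of_nonneg_left (hN k) (l0 k)
      linarith
  rw [Finset.sum_sub_distrib, ← Finset.mul_sum, l1] at a4
  have a5 := mul_le_mul_of_nonneg_left hc.le (show 0 ≤ 3 * h / 16 + 1 by positivity)
  have a6 := mul_le_mul_of_nonneg_left h1 h0
  linarith

end Pool.Agent.MP_b746ed_mp.LD
end

section
set_option autoImplicit false
set_option linter.unusedSectionVars false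
open scoped ComplexOrder MatrixOrder
open Matrix

namespace Pool.Agent.MP_b746ed_mp.LD
open KF
open H14 (trf dg)

namespace SIG
variable {ι α : Type} [Fintype ι] [DecidableEq ι] [Fintype α] [DecidableEq α] (o : α)
  (C : Finset ι)

lemma sig_apply (ψ : (ι → α) → ℂ) (a b : ι → α) : sig o C ψ a b =
    if (∀ i ∈ C, a i = o) ∧ ∀ i ∈ C, b i = o then
      ∑ y ∈ cfg o C, ψ (pw C y a) * star (ψ (pw C y b)) else 0 := by
  simp only [sig, Matrix.sum_apply, op_apply, emb, sl]
  by_cases ha : ∀ i ∈ C, a i = o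
  · by_cases hb : ∀ i ∈ C, b i = o
    · simp only [if_pos ha, if_pos hb, if_pos (And.intro ha hb)]
    · simp only [if_neg hb, if_neg fun h : _ ∧ _ => hb h.2, star_zero, mul_zero,
        Finset.sum_const_zero]
  · simp only [if_neg ha, if_neg fun h : _ ∧ _ => ha h.1, zero_mul, Finset.sum_const_zero]

lemma sum_all (F : (ι → α) → ℂ) :
    ∑ w, F w = ∑ z, if ∀ i ∈ C, z i = o then ∑ y ∈ cfg o C, F (pw C y z) else 0 := by
  rw [sum_pw o C, Finset.sum_comm, cfg.eq_1 o Cᶜ, Finset.sum_filter]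
  simp only [Finset.mem_compl, not_not]

lemma sum_sub {S : Finset ι} (h : C ⊆ S) (F : (ι → α) → ℂ) : ∑ w ∈ cfg o S, F w =
    ∑ z ∈ cfg o S, if ∀ i ∈ C, z i = o then ∑ y ∈ cfg o C, F (pw C y z) else 0 := by
  rw [cfg.eq_1 o S, Finset.sum_filter, Finset.sum_filter, sum_all o C]
  refine Finset.sum_congr rfl fun z _ => ?_
  have e : ∀ y : ι → α, (∀ i, i ∉ S → pw C y z i = o) ↔ ∀ i, i ∉ S → z i = o := fun y =>
    forall_congr' fun i => forall_congr' fun hi => by rw [pw, if_neg fun hc => hi (h hc)]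
  simp only [e]
  split_ifs <;> simp

lemma sum_insert {i : ι} (hi : i ∉ C) (F : (ι → α) → ℂ) :
    ∑ w ∈ cfg o (insert i C), F w = ∑ t, ∑ y ∈ cfg o C, F (Function.update y i t) := by
  rw [← Finset.sum_product']
  refine Finset.sum_nbij' (fun w => (w i, Function.update w i o))
    (fun p => Function.update p.2 i p.1) ?_ ?_ ?_ ?_ ?_
  · intro w hw
    simp only [Finset.mem_product, Finset.mem_univ, true_and, mem_cfg] at hw ⊢
    intro j hj
    rcases eq_or_ne j i with rfl | hne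
    · simp
    · rw [Function.update_of_ne hne, hw j (by simp [hne, hj])]
  · intro p hp
    simp only [Finset.mem_product, Finset.mem_univ, true_and, mem_cfg, Finset.mem_insert,
      not_or] at hp ⊢
    intro j hj
    rw [Function.update_of_ne hj.1, hp j hj.2]
  · intro w _
    simp
  · intro p hp
    simp only [Finset.mem_product, Finset.mem_univ, true_and, mem_cfg] at hp
    simp [← hp i hi]
  · intro w _
    simp

lemma tw_XT (ψ : (ι → α) → ℂ) {i : ι} (hi : i ∉ C) :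
    tw (lift i) (XT o C ψ) = XT o (insert i C) ψ := by
  ext a b
  have e1 : ∀ t, (∀ j ∈ C, Function.update a i t j = Function.update b i t j) ↔
      ∀ j ∈ C, a j = b j := fun t => forall_congr' fun j => forall_congr' fun hj => by
    have : j ≠ i := fun h => hi (h ▸ hj)
    rw [Function.update_of_ne this, Function.update_of_ne this]
  have e2 : ∀ (y c : ι → α) (t : α),
      pw (insert i C) (Function.update y i t) c = pw C y (Function.update c i t) := fun y c t => by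
    funext j
    rcases eq_or_ne j i with rfl | hne
    · simp [pw, hi]
    · simp [pw, hne]
  rw [tw_lift_apply, XT_apply, sum_insert o C hi]
  simp only [XT_apply, e1, e2, Finset.forall_mem_insert, ite_and]
  split_ifs <;> simp only [RCLike.star_def, Finset.sum_const_zero]

lemma tp_sig (ψ : (ι → α) → ℂ) {i : ι} (hi : i ∉ C) (X : Matrix α α ℂ) :
    tp (sig o C ψ) (lift i X) = tp (op ψ ψ) (lift i X) := by
  have e1 : ∀ (z : ι → α) (s : α), (∀ j ∈ C, Function.update z i s j = o) ↔ ∀ j ∈ C, z j = o :=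
    fun z s => forall_congr' fun j => forall_congr' fun hj => by
      rw [Function.update_of_ne fun h : j = i => hi (h ▸ hj)]
  have e2 : ∀ (y z : ι → α) (s : α),
      Function.update (pw C y z) i s = pw C y (Function.update z i s) := fun y z s => by
    funext j
    rcases eq_or_ne j i with rfl | hne
    · simp [pw, hi]
    · simp [pw, hne]
  have e3 : ∀ y z : ι → α, pw C y z i = z i := fun y z => if_neg hi
  simp only [tp, trace, diag, lift_apply, mul_liftFun, sig_apply, op_apply, e1, and_self]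
  rw [sum_all o C (fun w => ∑ s, ψ w * star (ψ (Function.update w i s)) * X s (w i))]
  congr 1
  refine Finset.sum_congr rfl fun z _ => ?_
  simp only [e2, e3]
  split_ifs
  · simp only [Finset.sum_mul]
    exact Finset.sum_comm
  · simp only [zero_mul, Finset.sum_const_zero]

lemma trace_sig (ψ : (ι → α) → ℂ) : (sig o C ψ).trace = nv ψ := by
  rw [← sum_nq_sl o C, sig, trace_sum]
  simp only [trace_op, ip_self_nv, nq, Complex.ofReal_sum]

lemma XT_sig (ψ : (ι → α) → ℂ) {S : Finset ι} (h : C ⊆ S) (a b : ι → α) : XT o S ψ a b =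
    if ∀ i ∈ S, a i = b i then ∑ z ∈ cfg o S, sig o C ψ (pw S z a) (pw S z b) else 0 := by
  have e1 : ∀ z c : ι → α, (∀ i ∈ C, pw S z c i = o) ↔ ∀ i ∈ C, z i = o := fun z c =>
    forall_congr' fun i => forall_congr' fun hi => by rw [pw, if_pos (h hi)]
  have e2 : ∀ y z c : ι → α, pw S (pw C y z) c = pw C y (pw S z c) := fun y z c => by
    funext i
    by_cases hi : i ∈ C
    · simp [pw, hi, h hi]
    · simp [pw, hi]
  rw [XT_apply, sum_sub o C h]
  simp only [sig_apply, e1, e2, and_self]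

end SIG

theorem t_SIG : S_SIG := by
  intro ι α _ _ _ _ o C ψ
  refine ⟨Finset.sum_nonneg fun _ _ => op_nonneg _, SIG.trace_sig o C ψ,
    fun i hi => ⟨SIG.tw_XT o C ψ hi, SIG.tp_sig o C ψ hi⟩, fun κ _ π χ ⟨h0, h1, h2⟩ =>
      ⟨fun k => ?_, ?_, fun S hS => ?_⟩⟩
  · refine or_iff_not_imp_left.2 fun hk => funext fun a => ite_eq_left_iff.2 fun ha => ?_
    have e := congrArg (fun M : Matrix (ι → α) (ι → α) ℂ => (M a a).re) h2
    simp only [SIG.sig_apply, if_neg fun h : _ ∧ _ => ha h.1, Matrix.sum_apply, Matrix.smul_apply,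
      op_apply, Complex.star_def, Complex.mul_conj', Complex.real_smul, ← Complex.ofReal_pow,
      ← Complex.ofReal_mul, ← Complex.ofReal_sum, Complex.ofReal_re, Complex.zero_re] at e
    have := (Finset.sum_eq_zero_iff_of_nonneg fun l _ =>
      mul_nonneg (h0 l) (sq_nonneg ‖χ l a‖)).1 e.symm k (Finset.mem_univ k)
    simpa [hk, eq_comm] using this
  · have e := SIG.trace_sig o C ψ
    rw [h2, trace_sum] at e
    simp only [trace_smul, trace_op, ip_self_nv, h1, Complex.real_smul, Complex.ofReal_one,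
      mul_one, ← Complex.ofReal_sum, Complex.ofReal_inj] at e
    exact e
  · ext a b
    rw [SIG.XT_sig o C ψ hS, h2]
    simp only [Matrix.sum_apply, Matrix.smul_apply, op_apply, XT_apply]
    split_ifs
    · simp only [Finset.smul_sum]
      exact Finset.sum_comm
    · simp only [smul_zero, Finset.sum_const_zero]

end Pool.Agent.MP_b746ed_mp.LD
end

section
/-! Large local dimension: the bound for one cluster. -/

set_option autoImplicit false
set_option linter.unusedSectionVars false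
open scoped ComplexOrder MatrixOrder
open Matrix

namespace Pool.Agent.MP_b746ed_mp.LD
open KF
open H14 (trf dg)

namespace CL0

variable {ι α : Type} [Fintype ι] [DecidableEq ι] [Fintype α] [DecidableEq α]

lemma tw_sum {Ω ρ : Type} [Fintype Ω] [DecidableEq Ω] (L : Matrix α α ℂ →⋆ₐ[ℂ] Matrix Ω Ω ℂ)
    (s : Finset ρ) (X : ρ → Matrix Ω Ω ℂ) : tw L (∑ r ∈ s, X r) = ∑ r ∈ s, tw L (X r) := by
  simp only [tw, Finset.mul_sum, Finset.sum_mul]
  rw [Finset.sum_comm (s := s)]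
  exact Finset.sum_congr rfl fun _ _ => Finset.sum_comm

lemma nn_nonneg {Ω : Type} [Fintype Ω] [DecidableEq Ω] (o : α)
    (L : Matrix α α ℂ →⋆ₐ[ℂ] Matrix Ω Ω ℂ) {ψ : Ω → ℂ} (h : nv ψ = 1) : 0 ≤ Nn L ψ := by
  have : Nonempty α := ⟨o⟩
  have h1 : ip ψ ψ = 1 := by rw [ip_self_nv, h]; rfl
  have h0 : 0 ≤ marg L ψ := nonneg_def.2 (marg_psd L ψ)
  have h2 : marg L ψ ≤ (1 : ℝ) • (1 : Matrix α α ℂ) := by
    rw [one_smul]; exact le_def.2 (marg_le_one L ψ h1)
  have h3 := rt_mono (sq_le_of_le h0 h2)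
  rw [one_smul] at h3
  have h4 : rt (marg L ψ) = 1 := by rw [rt, marg_trace, h1]; rfl
  rw [Nn, hs_eq_rt, herm_of_nonneg h0]
  linarith only [h3, h4]

/-- the projector on the configurations that agree with `x` on `C` -/
def pj (C : Finset ι) (x : ι → α) : Matrix (ι → α) (ι → α) ℂ :=
  diagonal fun a => if ∀ i ∈ C, a i = x i then 1 else 0

lemma pj_conj (C : Finset ι) (x : ι → α) : (pj C x)ᴴ = pj C x := by
  rw [pj, diagonal_conjTranspose]
  congr 1
  funext a
  simp only [Pi.star_apply]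
  split_ifs <;> simp

lemma opb_pj (C : Finset ι) (x : ι → α) : Opb (pj C x) 1 := fun v => by
  rw [one_pow, one_mul]
  refine Finset.sum_le_sum fun a _ => ?_
  rw [pj, mulVec_diagonal]
  split_ifs <;> simp

lemma pj_fix (C : Finset ι) (x : ι → α) (Y : Matrix (ι → α) (ι → α) ℂ)
    (h : ∀ a b, ¬((∀ i ∈ C, a i = x i) ∧ ∀ i ∈ C, b i = x i) → Y a b = 0) :
    pj C x * Y * pj C x = Y := by
  ext a b
  rw [pj, mul_diagonal, diagonal_mul]
  by_cases ha : ∀ i ∈ C, a i = x i
  · by_cases hb : ∀ i ∈ C, b i = x i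
    · rw [if_pos ha, if_pos hb, one_mul, mul_one]
    · rw [if_neg hb, mul_zero, h a b fun h' => hb h'.2]
  · rw [if_neg ha, zero_mul, zero_mul, h a b fun h' => ha h'.1]

lemma sum_pj (o : α) (C : Finset ι) : ∑ x ∈ cfg o C, pj C x * 1 * pj C x = 1 := by
  ext a b
  simp only [Matrix.mul_one, pj, diagonal_mul_diagonal, Matrix.sum_apply, diagonal_apply, one_apply]
  by_cases hab : a = b
  · simp only [if_pos hab]
    rw [Finset.sum_eq_single (mask o Cᶜ a)]
    · rw [if_pos (by simp +contextual [mask]), one_mul]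
    · intro y hy hne
      rw [if_neg fun h => hne (funext fun i => ?_), zero_mul]
      by_cases hi : i ∈ C
      · simp [mask, hi, h]
      · simp [mask, hi, (mem_cfg o C).1 hy i hi]
    · intro h
      exact absurd (by simpa using mask_mem o Cᶜ a) h
  · simp [hab]

lemma op_col_zero (o : α) (C : Finset ι) (f : (ι → α) → ℂ) (x a b : ι → α)
    (h : ¬((∀ i ∈ C, a i = x i) ∧ ∀ i ∈ C, b i = x i)) :
    op (col o C f x) (col o C f x) a b = 0 := by
  rw [op_apply, col, col]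
  by_cases ha : ∀ i ∈ C, a i = x i
  · rw [if_neg (c := ∀ i ∈ C, b i = x i) fun hb => h ⟨ha, hb⟩, star_zero, mul_zero]
  · rw [if_neg ha, zero_mul]

lemma agree_update {C : Finset ι} {j : ι} (hj : j ∉ C) (x a : ι → α) (t : α) :
    (∀ i ∈ C, Function.update a j t i = x i) ↔ ∀ i ∈ C, a i = x i :=
  forall₂_congr fun i hi => by rw [Function.update_of_ne (ne_of_mem_of_not_mem hi hj)]

lemma tw_col_zero (o : α) {C : Finset ι} {j : ι} (hj : j ∉ C) (f : (ι → α) → ℂ) (x a b : ι → α)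
    (h : ¬((∀ i ∈ C, a i = x i) ∧ ∀ i ∈ C, b i = x i)) :
    tw (lift j) (op (col o C f x) (col o C f x)) a b = 0 := by
  rw [tw_lift_apply]
  split_ifs
  · refine Finset.sum_eq_zero fun t _ => op_col_zero o C f x _ _ ?_
    rwa [agree_update hj, agree_update hj]
  · rfl

lemma marg_col (o : α) {C : Finset ι} {j : ι} (hj : j ∉ C) (f : (ι → α) → ℂ) (x : ι → α)
    (s t : α) : marg (lift j) (col o C f x) s t =
      ∑ z ∈ cfg o Cᶜ, if z j = t then star (f z) * f (Function.update z j s) else 0 := by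
  have := sum_agree o C x fun a =>
    if a j = t then star (f (mask o C a)) * f (mask o C (Function.update a j s)) else 0
  rw [Finset.sum_congr (s₁ := cfg o Cᶜ) rfl (g := fun z =>
    if z j = t then star (f z) * f (Function.update z j s) else 0) fun z hz => ?_] at this
  · rw [marg_lift_apply, ← this]
    refine Finset.sum_congr rfl fun a _ => ?_
    simp only [col, agree_update hj]
    split_ifs <;> simp
  · have e : mask o C (Function.update (pw C x z) j s) = Function.update z j s := by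
      have hz' := (mem_cfg o Cᶜ).1 hz
      funext i
      by_cases hi : i ∈ C
      · rw [Function.update_of_ne (ne_of_mem_of_not_mem hi hj), hz' i (by simpa using hi)]
        simp [mask, hi]
      · by_cases hij : i = j
        · subst hij; simp [mask, hi]
        · simp [mask, pw, hi, hij]
    have e' : pw C x z j = z j := by simp [pw, hj]
    simp only [e, e', mask_pw o C x hz]

lemma col_ref (o : α) (C : Finset ι) (f : (ι → α) → ℂ) : col o C f (fun _ => o) = emb o C f := by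
  funext a
  simp only [col, emb]
  split_ifs with h
  · rw [mask_of_mem o C h]
  · rfl

lemma nn_col (o : α) {C : Finset ι} {j : ι} (hj : j ∉ C) {f : (ι → α) → ℂ} (hf : emb o C f = f)
    (x : ι → α) : Nn (lift j) (col o C f x) = Nn (lift j) f := by
  have : marg (lift j) (col o C f x) = marg (lift j) f := by
    ext s t
    conv_rhs => rw [← hf, ← col_ref]
    rw [marg_col o hj, marg_col o hj]
  rw [Nn, Nn, this]

lemma one_vec (hSIG : S_SIG) (hC7 : S_C7) (o : α) (C : Finset ι) (χ : (ι → α) → ℂ) (b : ι → ℝ)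
    (Λ : ℝ) (i0 : ι) (hd : 2 ≤ Fintype.card α) (h1 : nv χ = 1) (he : emb o C χ = χ)
    (hi0 : i0 ∉ C) (hb : ∀ i, i ∉ C → 0 ≤ b i ∧ b i ≤ 1)
    (hΛ : 2 * ((Fintype.card ι : ℝ) + 1) ≤ Λ) :
    Up (Yc o C Λ b χ - 1) (Fintype.card α ^ C.card *
      (Λ + ∑ i ∈ Cᶜ, b i - 1 + 2 * (Fintype.card ι + 1) ^ 2 / Λ - (∏ i ∈ Cᶜ, b i) *
        Nn (lift i0) χ ^ 3 / (3 * 10 ^ 10 * Fintype.card ι ^ 2))) := by
  have hX : XT o C χ = ∑ x ∈ cfg o C, op (col o C χ x) (col o C χ x) := by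
    conv_lhs => rw [← he, XT_emb, xop_eq_sum]
  have hsub : ∀ i, i ∈ Cᶜ ↔ i ∉ C := fun i => Finset.mem_compl
  have hY : Yc o C Λ b χ - 1 = ∑ x ∈ cfg o C, (pj C x)ᴴ *
      (Λ • op (col o C χ x) (col o C χ x) + ∑ i : {i // i ∉ C},
        b i.1 • tw (lift i.1) (op (col o C χ x) (col o C χ x)) - 1) * pj C x := by
    have e : ∀ x ∈ cfg o C, (pj C x)ᴴ *
        (Λ • op (col o C χ x) (col o C χ x) + ∑ i : {i // i ∉ C},
          b i.1 • tw (lift i.1) (op (col o C χ x) (col o C χ x)) - 1) * pj C x =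
        Λ • op (col o C χ x) (col o C χ x) + ∑ i : {i // i ∉ C},
          b i.1 • tw (lift i.1) (op (col o C χ x) (col o C χ x)) - pj C x * 1 * pj C x := by
      intro x _
      rw [pj_conj, Matrix.mul_sub, Matrix.sub_mul, pj_fix]
      intro a a' h
      rw [Matrix.add_apply, Matrix.smul_apply, op_col_zero o C χ x a a' h, Matrix.sum_apply,
        Finset.sum_eq_zero fun i _ => by
          rw [Matrix.smul_apply, tw_col_zero o i.2 χ x a a' h, smul_zero]]
      simp
    rw [Finset.sum_congr rfl e, Finset.sum_sub_distrib, sum_pj, Finset.sum_add_distrib,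
      ← Finset.smul_sum, ← hX, Finset.sum_comm, Yc,
      Finset.sum_subtype Cᶜ hsub fun i => b i • XT o (insert i C) χ]
    congr 2
    refine Finset.sum_congr rfl fun i _ => ?_
    rw [← Finset.smul_sum, ← tw_sum, ← hX, ((hSIG ι α o C χ).2.2.1 i.1 i.2).1]
  have hm : (Fintype.card {i // i ∉ C} : ℝ) ≤ Fintype.card ι := by
    exact_mod_cast Fintype.card_subtype_le _
  have hm1 : (0 : ℝ) < Fintype.card {i // i ∉ C} := by
    exact_mod_cast (Fintype.card_pos_iff (α := {i // i ∉ C})).2 ⟨⟨i0, hi0⟩⟩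
  have hΛ0 : 0 < Λ := by linarith only [hΛ, hm, hm1]
  have hN := nn_nonneg o (lift i0) h1
  have hP : 0 ≤ ∏ i ∈ Cᶜ, b i := Finset.prod_nonneg fun i hi => (hb i ((hsub i).1 hi)).1
  rw [hY, ← Nat.cast_pow, ← card_cfg o C, ← nsmul_eq_mul, ← Finset.sum_const]
  refine up_sum _ fun x _ => Up.conj ?_ (opb_pj C x)
  have h7 := hC7 {i // i ∉ C} α (ι → α) (fun i => lift i.1) (col o C χ x) ⟨i0, hi0⟩
    (fun i => b i.1) Λ hd (fun i j hij X Y => lift_comm _ _ (fun h => hij (Subtype.ext h.symm)) Y X)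
    (by rw [nv_col, nq, he, h1]) (fun i => hb i.1 i.2) (by linarith only [hΛ, hm])
  refine h7.mono le_rfl ?_
  rw [← Finset.sum_subtype Cᶜ hsub b, ← Finset.prod_subtype Cᶜ hsub b, nn_col o hi0 he]
  have a1 : 2 * ((Fintype.card {i // i ∉ C} : ℝ) + 1) ^ 2 / Λ ≤
      2 * ((Fintype.card ι : ℝ) + 1) ^ 2 / Λ := by gcongr
  have a2 : (∏ i ∈ Cᶜ, b i) * Nn (lift i0) χ ^ 3 / (3 * 10 ^ 10 * (Fintype.card ι : ℝ) ^ 2) ≤
      (∏ i ∈ Cᶜ, b i) * Nn (lift i0) χ ^ 3 /
        (3 * 10 ^ 10 * (Fintype.card {i // i ∉ C} : ℝ) ^ 2) := by gcongr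
  linarith

lemma exists_dec {Ω : Type} [Fintype Ω] [DecidableEq Ω] {σ : Matrix Ω Ω ℂ} (h : 0 ≤ σ) :
    ∃ (π : Ω → ℝ) (χ : Ω → Ω → ℂ), Dec σ π χ := by
  obtain ⟨b, l, hb, -, hW, hl⟩ := exists_basis (herm_of_nonneg h)
  refine ⟨l, b, fun k => ?_, fun k => ?_, hW⟩
  · have := psd_re_nonneg (nonneg_def.1 h) (b k)
    rwa [hl, ← Complex.coe_smul, ip_smul_right, hb, if_pos rfl, mul_one, Complex.ofReal_re] at this
  · rw [nv_eq_ip, hb, if_pos rfl, Complex.one_re]

end CL0

theorem t_CL0 (hSIG : S_SIG) (hC7 : S_C7) : S_CL0 := by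
  intro ι α κ _ _ _ _ _ o C ψ b Λ i0 π χ hd h1 hi0 hb hΛ hD
  obtain ⟨he, hπ, hX⟩ := (hSIG ι α o C ψ).2.2.2 κ π χ hD
  rw [h1] at hπ
  have hY : Yc o C Λ b ψ - 1 = ∑ k, π k • (Yc o C Λ b (χ k) - 1) := by
    simp only [Yc, smul_sub, smul_add, Finset.sum_sub_distrib, Finset.sum_add_distrib,
      Finset.smul_sum]
    rw [← Finset.sum_smul, hπ, one_smul, hX C subset_rfl, Finset.smul_sum, Finset.sum_comm]
    congr 2
    · exact Finset.sum_congr rfl fun k _ => smul_comm _ _ _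
    · refine Finset.sum_congr rfl fun i _ => ?_
      rw [hX _ (Finset.subset_insert i C), Finset.smul_sum]
      exact Finset.sum_congr rfl fun k _ => smul_comm _ _ _
  obtain ⟨A, hA⟩ : ∃ A : ℝ, A = Λ + ∑ i ∈ Cᶜ, b i - 1 + 2 * (Fintype.card ι + 1) ^ 2 / Λ := ⟨_, rfl⟩
  obtain ⟨c, hc⟩ : ∃ c : ℝ, c = (∏ i ∈ Cᶜ, b i) / (3 * 10 ^ 10 * Fintype.card ι ^ 2) := ⟨_, rfl⟩
  have hc0 : 0 ≤ c := by
    have : 0 ≤ ∏ i ∈ Cᶜ, b i := Finset.prod_nonneg fun i hi => (hb i (Finset.mem_compl.1 hi)).1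
    rw [hc]; positivity
  have hU : ∀ k ∈ Finset.univ, Up (π k • (Yc o C Λ b (χ k) - 1))
      (π k * (Fintype.card α ^ C.card * (A - c * Nn (lift i0) (χ k) ^ 3))) := fun k _ => by
    rcases he k with h | h
    · rw [h, zero_smul, zero_mul]; exact up_nonpos le_rfl
    · have := CL0.one_vec hSIG hC7 o C (χ k) b Λ i0 hd (hD.2.1 k) h hi0 hb hΛ
      rw [← hA, mul_div_right_comm, ← hc] at this
      exact this.rsmul (hD.1 k)
  have hJ := Real.pow_arith_mean_le_arith_mean_pow Finset.univ π (fun k => Nn (lift i0) (χ k))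
    (fun k _ => hD.1 k) hπ (fun k _ => CL0.nn_nonneg o _ (hD.2.1 k)) 3
  rw [hY, ← hA, mul_div_right_comm, ← hc]
  refine (up_sum _ hU).mono le_rfl ?_
  have e : ∑ k, π k * (Fintype.card α ^ C.card * (A - c * Nn (lift i0) (χ k) ^ 3)) =
      Fintype.card α ^ C.card * (A * ∑ k, π k - c * ∑ k, π k * Nn (lift i0) (χ k) ^ 3) := by
    simp only [Finset.mul_sum, ← Finset.sum_sub_distrib]
    exact Finset.sum_congr rfl fun k _ => by ring
  rw [e, hπ, mul_one]
  gcongr

theorem t_CL (hCL0 : S_CL0) (hASS2 : S_ASS2) (hSIG : S_SIG) : S_CL := by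
  intro ι _ _ g h hg hh hh1
  have hg' : 0 < min g 1 := lt_min hg one_pos
  refine ⟨min g 1 ^ Fintype.card ι * (h ^ 2 / 96) ^ 3 / (3 * 10 ^ 10 * (Fintype.card ι + 1) ^ 2),
    by positivity, ?_⟩
  intro α _ _ o C ψ b Λ hd h1 ⟨i0, hi0⟩ hb hΛ
  obtain ⟨s0, s1, s2, -⟩ := hSIG ι α o C ψ
  have hb' : ∀ i, i ∉ C → 0 ≤ b i ∧ b i ≤ 1 := fun i hi => ⟨hg.le.trans (hb i hi).1, (hb i hi).2⟩
  have hP : min g 1 ^ Fintype.card ι ≤ ∏ i ∈ Cᶜ, b i := by
    refine (pow_le_pow_of_le_one hg'.le (min_le_right _ _) (Finset.card_le_univ Cᶜ)).trans ?_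
    rw [← Finset.prod_const]
    exact Finset.prod_le_prod (fun _ _ => hg'.le) fun i hi =>
      (min_le_left _ _).trans (hb i (Finset.mem_compl.1 hi)).1
  have hP0 : 0 ≤ ∏ i ∈ Cᶜ, b i := le_trans (by positivity) hP
  have hn : (0 : ℝ) < Fintype.card ι := by exact_mod_cast Fintype.card_pos_iff.2 ⟨i0⟩
  refine ⟨?_, fun i j hi hj hij Hi Hj => ?_⟩
  · obtain ⟨π, χ, hD⟩ := CL0.exists_dec s0
    refine (hCL0 ι α _ o C ψ b Λ i0 π χ hd h1 (Finset.mem_compl.1 hi0) hb' hΛ hD).mono le_rfl ?_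
    have : 0 ≤ ∑ k, π k * Nn (lift i0) (χ k) := Finset.sum_nonneg fun k _ =>
      mul_nonneg (hD.1 k) (CL0.nn_nonneg o _ (hD.2.1 k))
    refine mul_le_mul_of_nonneg_left (sub_le_self _ ?_) (by positivity)
    positivity
  · obtain ⟨κ, _, π, χ, hD, hN⟩ := hASS2 ι α (sig o C ψ) i j h
      ⟨nonneg_def.1 s0, by rw [s1, h1]; rfl⟩ hij hh.le hh1
      (fun v hv => by rw [(s2 i hi).2]; exact Hi v hv)
      (fun v hv => by rw [(s2 j hj).2]; exact Hj v hv)
    have key : ∀ l, l ∉ C → h ^ 2 / 96 ≤ ∑ k, π k * Nn (lift l) (χ k) →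
        Up (Yc o C Λ b ψ - 1) (Fintype.card α ^ C.card *
          (Λ + ∑ i ∈ Cᶜ, b i - 1 + 2 * (Fintype.card ι + 1) ^ 2 / Λ -
            min g 1 ^ Fintype.card ι * (h ^ 2 / 96) ^ 3 /
              (3 * 10 ^ 10 * (Fintype.card ι + 1) ^ 2))) := fun l hl hN => by
      refine (hCL0 ι α κ o C ψ b Λ l π χ hd h1 hl hb' hΛ hD).mono le_rfl ?_
      refine mul_le_mul_of_nonneg_left (sub_le_sub_left ?_ _) (by positivity)
      have : 0 ≤ ∑ k, π k * Nn (lift l) (χ k) := le_trans (by positivity) hN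
      gcongr
      linarith only []
    exact hN.elim (key i hi) (key j hj)

end Pool.Agent.MP_b746ed_mp.LD
end
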