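import Pool.Agent.MP_b746ed_mp.LD.Base

attribute [-instance] Nontrivial.to_nonempty LieAdmissibleAlgebra.toModule
  RightPreLieAlgebra.toModule LeftPreLieAlgebra.toModule IdemSemiring.toCanonicallyOrderedAdd
  Zero.instNonempty bot_nonempty One.instNonempty NumberField.to_charZero
  AddQuantale.instAddRightMono AddTorsor.nonempty RKHS.instFunLike Quantale.instMulRightMono
  GrpTypeEquivalenceGrp.grpGroup MulSemiringAction.toDistribMulAction instCoeHTCTOfCoeTailOfCoeHTC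
  instCoeOTCOfCoeOut instCoeHTCOfCoeHeadOfCoeOTC ConnectedSpace.toNonempty top_nonempty
  Action.FintypeCat.instMulActionObjFiniteOf CommGroup.toGroup IdemSemiring.toMulLeftMono
  LieAdmissibleRing.toNonUnitalNonAssocRing Order.Coframe.toCompleteLattice NeZero.of_gt'
  CompletelyDistribLattice.toCompleteLattice CategoryTheory.IsConnected.is_nonempty
  instNonemptyOfMonad Torsor.toMulAction instSMulZeroClass instCoeTOfCoeDep

/-! Large local dimension: the regime far from products and the first-order analysis near products. -/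

section
/-! Large local dimension: replacing a vector by a close vector with exact product cuts. -/

set_option autoImplicit false
set_option linter.unusedSectionVars false
open scoped ComplexOrder MatrixOrder
open Matrix

namespace Pool.Agent.MP_b746ed_mp.LD
open KF
open H14 (trf dg)

namespace RP2
variable {ι α : Type} [Fintype ι] [DecidableEq ι] [Fintype α] [DecidableEq α] (o : α)
  (T : Finset ι)

lemma key (s : Finset (ι → α)) (ξ : (ι → α) → ℂ) (w : (ι → α) → (ι → α) → ℂ) (F : (ι → α) → ℂ)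
    (h : ∑ y ∈ s, ξ y * star (ξ y) = 1) (hF : ∑ y ∈ s, star (ξ y) • w y = F) :
    ∑ y ∈ s, xop o T (w y - ξ y • F) (w y - ξ y • F) + xop o T F F =
      ∑ y ∈ s, xop o T (w y) (w y) := by
  have h1 : ∑ y ∈ s, star (ξ y) • xop o T (w y) F = xop o T F F := by
    simp only [← xop_smul_left, ← xop_sum_left, hF]
  have h2 : ∑ y ∈ s, ξ y • xop o T F (w y) = xop o T F F := by
    simpa only [conjTranspose_sum, conjTranspose_smul, star_star, xop_conj] using
      congrArg conjTranspose h1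
  simp only [xop_sub_left, xop_sub_right, xop_smul_left, xop_smul_right, smul_sub,
    Finset.sum_sub_distrib, smul_smul, ← Finset.sum_smul, h, h1, h2, mul_comm (star _), one_smul]
  abel

lemma keyq (s : Finset (ι → α)) (ξ : (ι → α) → ℂ) (w : (ι → α) → (ι → α) → ℂ) (F : (ι → α) → ℂ)
    (h : ∑ y ∈ s, ξ y * star (ξ y) = 1) (hF : ∑ y ∈ s, star (ξ y) • w y = F) :
    ∑ y ∈ s, nq o T (w y - ξ y • F) + nq o T F = ∑ y ∈ s, nq o T (w y) := by
  have := congrArg rt (key o T s ξ w F h hF)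
  simp only [rt_add, rt_sum, rt_xop, ← Finset.mul_sum, ← mul_add] at this
  have hd : (0 : ℝ) < Fintype.card α := Nat.cast_pos.2 (Fintype.card_pos_iff.2 ⟨o⟩)
  exact mul_left_cancel₀ (by positivity) this

lemma pure (hPRD : S_PRD) {ψ ψ' : (ι → α) → ℂ} {b : ℝ} (h1 : nv ψ = 1) (h2 : nv ψ' = 1)
    (h3 : nv (ψ - ψ') ≤ b ^ 2) (hP : Prd o T ψ') : ∃ F φ : (ι → α) → ℂ, nq o T φ = 1 ∧
      XT o T ψ' = xop o T φ φ ∧ nq o T F ≤ 1 ∧ nq o T (F - φ) ≤ b ^ 2 ∧
      0 ≤ XT o T ψ - xop o T F F ∧ Nuc o T (XT o T ψ - xop o T F F) (b ^ 2) := by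
  obtain ⟨⟨ξ, φ, a1, a2, a3, a4⟩, -⟩ := hPRD ι α o ψ' T h2 hP
  have hξ : ∑ y ∈ cfg o T, ξ y * star (ξ y) = 1 := by
    rw [nq_eq, compl_compl] at a1
    simp only [Complex.star_def, Complex.mul_conj']
    exact_mod_cast a1
  obtain ⟨F, hF⟩ : ∃ F, ∑ y ∈ cfg o T, star (ξ y) • sl T y ψ = F := ⟨_, rfl⟩
  have k1 := key o T _ ξ _ F hξ hF
  have k2 := keyq o T _ ξ _ F hξ hF
  have k3 := keyq o T _ ξ (fun y => sl T y ψ - ξ y • φ) (F - φ) hξ (by
    simp only [smul_sub, Finset.sum_sub_distrib, hF, smul_smul, ← Finset.sum_smul,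
      mul_comm (star _), hξ, one_smul])
  have e : ∑ y ∈ cfg o T, nq o T (sl T y ψ - ξ y • φ) = nv (ψ - ψ') := by
    rw [← sum_nq_sl o T]
    simp only [nq_eq]
    refine Finset.sum_congr rfl fun y hy => Finset.sum_congr rfl fun z hz => ?_
    have : mask o Tᶜ (pw T y z) = y := by
      funext i; by_cases hi : i ∈ T <;> simp [mask, pw, hi, (mem_cfg o T).1 hy i]
    simp [sl, a3, this, mask_pw o T y hz]
  simp only [smul_sub, sub_sub_sub_cancel_right, e] at k3
  rw [sum_nq_sl, h1] at k2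
  have p := Finset.sum_nonneg fun y (_ : y ∈ cfg o T) => nq_nonneg o T (sl T y ψ - ξ y • F)
  have p' := nq_nonneg o T (F - φ)
  have e' : XT o T ψ - xop o T F F = _ := (eq_sub_of_add_eq k1).symm
  refine ⟨F, φ, a2, a4, by linarith, by linarith only [h3, k3, p], ?_, ?_⟩ <;> rw [e']
  · exact Finset.sum_nonneg fun _ _ => xop_nonneg _ _ _
  · refine (nuc_sum _ fun y _ => nuc_xop _ _).mono ?_
    simp only [Real.mul_self_sqrt (nq_nonneg _ _ _)]
    linarith only [h3, k3, p']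

/-- the weighted slices -/
noncomputable def G (c : ℝ) (ψ : (ι → α) → ℂ) (y : ι → α) : (ι → α) → ℂ :=
  if y ∈ cfg o T then √c • sl T y ψ else 0

lemma G_xop {c : ℝ} (hc : 0 ≤ c) (ψ : (ι → α) → ℂ) :
    ∑ y, xop o T (G o T c ψ y) (G o T c ψ y) = c • XT o T ψ := by
  rw [XT, Finset.smul_sum, ← Finset.sum_subset (Finset.subset_univ (cfg o T))
    fun y _ hy => by rw [G, if_neg hy, xop_zero_left]]
  refine Finset.sum_congr rfl fun y hy => ?_
  rw [G, if_pos hy, xop_rsmul_left, xop_rsmul_right, smul_smul, Real.mul_self_sqrt hc]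

lemma G_nq {c : ℝ} (hc : 0 ≤ c) (ψ : (ι → α) → ℂ) : ∑ y, nq o T (G o T c ψ y) = c * nv ψ := by
  rw [← sum_nq_sl o T, Finset.mul_sum, ← Finset.sum_subset (Finset.subset_univ (cfg o T))
    fun y _ hy => by rw [G, if_neg hy, nq_zero]]
  refine Finset.sum_congr rfl fun y hy => ?_
  rw [G, if_pos hy, nq_rsmul, Real.sq_sqrt hc]

lemma G_sub (c : ℝ) (ψ φ : (ι → α) → ℂ) (y : ι → α) :
    G o T c ψ y - G o T c φ y = G o T c (ψ - φ) y := by
  simp only [G, sl_sub]; split_ifs <;> simp [smul_sub]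

lemma G_zero (ψ : (ι → α) → ℂ) : G o T 0 ψ = 0 := by funext y; simp [G]

/-- one vector at the reference index -/
def D (u : (ι → α) → ℂ) (y : ι → α) : (ι → α) → ℂ := if y = fun _ => o then u else 0

lemma D_xop (u : (ι → α) → ℂ) : ∑ y, xop o T (D o u y) (D o u y) = xop o T u u := by
  rw [Finset.sum_eq_single (fun _ => o) (fun y _ hy => by rw [D, if_neg hy, xop_zero_left])
    (by simp only [Finset.mem_univ, not_true_eq_false, IsEmpty.forall_iff]), D, if_pos rfl]

lemma D_nq (u : (ι → α) → ℂ) : ∑ y, nq o T (D o u y) = nq o T u := by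
  rw [Finset.sum_eq_single (fun _ => o) (fun y _ hy => by rw [D, if_neg hy, nq_zero])
    (by simp only [Finset.mem_univ, not_true_eq_false, IsEmpty.forall_iff]), D, if_pos rfl]

lemma D_sub (u v : (ι → α) → ℂ) (y : ι → α) : D o u y - D o v y = D o (u - v) y := by
  simp only [D]; split_ifs <;> simp

lemma close {F φ : (ι → α) → ℂ} {a b : ℝ} (hb : 0 ≤ b) (h0 : 0 ≤ a) (h1 : a ≤ 1) (h2 : 1 - b ≤ a)
    (hφ : nq o T φ = 1) (h : nq o T (F - φ) ≤ b ^ 2) : nq o T (√a • F - φ) ≤ (2 * b) ^ 2 := by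
  have e : √a • F - φ = √a • (F - φ) - (1 - √a) • φ := by module
  have s0 := Real.sqrt_nonneg a
  have s1 : √a ≤ 1 := Real.sqrt_le_one.2 h1
  have s2 : a ≤ √a := by nlinarith only [Real.mul_self_sqrt h0, s0, s1]
  have := sqrt_nq_sub o T (√a • (F - φ)) ((1 - √a) • φ)
  rw [← e, nq_rsmul, nq_rsmul, hφ, mul_one, Real.sqrt_mul (sq_nonneg _), Real.sqrt_sq s0,
    Real.sqrt_sq (by linarith)] at this
  have s3 : √(nq o T (F - φ)) ≤ b := Real.sqrt_le_iff.2 ⟨hb, h⟩
  have s4 : √a * √(nq o T (F - φ)) ≤ 1 * b := by gcongr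
  exact (Real.sqrt_le_iff.1 (by linarith)).2

end RP2

open RP2 in
theorem t_RP2 (hRPL : S_RPL) (hPRD : S_PRD) : S_RP2 := by
  intro ι _ _ Λ η hΛ h0 h1
  obtain ⟨C, hC, H⟩ := hRPL ι Λ η hΛ h0 h1
  refine ⟨(C + 1) * (2 * Λ), by positivity, ?_⟩
  intro α _ _ o k a ψ ψ' Pu b t hb hCb ⟨_, _, A1, A2⟩ n1 n2 n3 hPu hN hU
  have hΛb : b ≤ Λ * b := le_mul_of_one_le_left hb hΛ
  have hCb' : 0 ≤ C * (2 * Λ * b) := by positivity
  have b1 : b ≤ 1 := by linarith only [hCb, hΛb, hCb']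
  have hsup : ∀ T S : Finset ι, T.card = k + 1 → T ⊆ S → S ≠ T → k + 1 < S.card :=
    fun T S hT h hne => hT ▸ Finset.card_lt_card (lt_of_le_of_ne h hne.symm)
  have a0 : ∀ T S : Finset ι, T.card = k + 1 → T ⊆ S → 0 ≤ a S := fun T S hT h => by
    by_cases e : S = T
    · exact e ▸ (A1 T hT).1
    · exact (A2 S (hsup T S hT h e)).1
  have a1 : ∀ T : Finset ι, T.card = k + 1 → a T ≤ 1 := fun T hT =>
    (Finset.single_le_sum (fun S hS => a0 T S hT (Finset.mem_filter.1 hS).2)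
      (by simp)).trans (A1 T hT).2
  choose! F φ p1 p2 p3 p4 p5 p6 using fun T (hT : T ∈ Pu) =>
    pure o T hPRD n1 n2 n3 (hPu T hT).2.1
  obtain ⟨c, hc⟩ : ∃ c : Finset ι → ℝ, ∀ S, c S =
      if S.card = k then Λ else if S.card = k + 1 then a S else 0 := ⟨_, fun _ => rfl⟩
  have c0 : ∀ S, 0 ≤ c S ∧ c S ≤ Λ := fun S => by
    rw [hc]
    split_ifs with e e'
    · exact ⟨by linarith only [hΛ], le_rfl⟩
    · exact ⟨(A1 S e').1, (a1 S e').trans hΛ⟩
    · exact ⟨le_rfl, by linarith⟩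
  obtain ⟨f, hf⟩ : ∃ f : Finset ι → (ι → α) → (ι → α) → ℂ, ∀ S, f S =
      if S ∈ Pu then D o (√(a S) • F S) else G o S (c S) ψ := ⟨_, fun _ => rfl⟩
  obtain ⟨f', hf'⟩ : ∃ f : Finset ι → (ι → α) → (ι → α) → ℂ, ∀ S, f S =
      if S ∈ Pu then D o (φ S) else G o S (c S) ψ' := ⟨_, fun _ => rfl⟩
  obtain ⟨Z, hZ⟩ : ∃ Z : Finset ι → Matrix (ι → α) (ι → α) ℂ, ∀ S, Z S =
      if S ∈ Pu then a S • (XT o S ψ - xop o S (F S) (F S)) else
        if k + 1 < S.card then a S • XT o S ψ else 0 := ⟨_, fun _ => rfl⟩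
  have hx : ∀ T ∈ Pu, xop o T (√(a T) • F T) (√(a T) • F T) + Z T = a T • XT o T ψ :=
    fun T hT => by
      rw [hZ, if_pos hT, xop_rsmul_left, xop_rsmul_right, smul_smul,
        Real.mul_self_sqrt (A1 T (hPu T hT).1).1, ← smul_add, add_sub_cancel]
  have hb2 : b ^ 2 ≤ b := by nlinarith only [hΛ, hb, hCb, hCb']
  have := H α o k f f' Z Pu (fun _ => o) (2 * Λ * b) t (by positivity) (by linarith only [hb, hCb, hΛb])
    (fun S => ?_) (fun S => ?_) (fun T hT => ?_) (fun T hT hT' => ?_) ?_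
  · refine this.mono (le_of_eq ?_) ?_
    · rw [lv, Finset.sum_filter, Finset.sum_filter, ← Finset.sum_add_distrib,
        ← Finset.sum_add_distrib]
      congr 1
      refine Finset.sum_congr rfl fun S _ => ?_
      by_cases hS : S ∈ Pu
      · have := (hPu S hS).1
        rw [hf, if_pos hS, D_xop, hx S hS, if_neg (by omega), if_pos (by omega), zero_add]
      · rw [hf, if_neg hS, G_xop o S (c0 S).1, hZ, if_neg hS, hc]
        split_ifs <;> first | omega | simp
    · have : (0 : ℝ) ≤ 2 * Λ * b * Fintype.card α ^ k := by positivity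
      linarith only [this]
  · by_cases hS : S ∈ Pu
    · have e := (hPu S hS).1
      simp only [hf, hf', if_pos hS, D_sub, D_nq, p1 S hS]
      refine ⟨fun _ h => absurd e h, ?_, hΛ, (close o S hb (A1 S e).1 (a1 S e) (hPu S hS).2.2
        (p1 S hS) (p4 S hS)).trans (by gcongr; linarith only [hΛ])⟩
      rw [nq_rsmul, Real.sq_sqrt (A1 S e).1]
      nlinarith only [p3 S hS, a1 S e, (A1 S e).1, hΛ]
    · simp only [hf, hf', if_neg hS, G_sub, G_nq o S (c0 S).1, n1, n2, mul_one]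
      refine ⟨fun e e' => by simp only [hc, if_neg e, if_neg e', G_zero, and_self], (c0 S).2,
        (c0 S).2, (mul_le_mul (c0 S).2 n3 (nv_nonneg _) (by linarith only [hΛ])).trans ?_⟩
      linarith only [mul_le_mul hΛb (le_refl (Λ * b)) (by positivity) (by positivity), mul_self_nonneg (Λ * b)]
  · rw [hZ]
    split_ifs with e e'
    · have e1 := (hPu S e).1
      refine ⟨rsmul_nonneg (p5 S e) (A1 S e1).1, ((p6 S e).rsmul _).mono ?_, fun _ => by omega⟩
      rw [abs_of_nonneg (A1 S e1).1]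
      nlinarith only [a1 S e1, hΛb, hb2]
    · refine ⟨rsmul_nonneg (XT_nonneg o S ψ) (A2 S e').1, ((nuc_XT o S ψ).rsmul _).mono ?_,
        fun _ => by omega⟩
      rw [abs_of_nonneg (A2 S e').1, n1]
      linarith only [(A2 S e').2, hb, hΛb]
    · exact ⟨le_rfl, nuc_zero.mono (by positivity), fun _ => rfl⟩
  · have e := (hPu T hT).1
    have m : T ∈ Finset.univ.filter fun S => T ⊆ S := by simp
    simp only [hf, hf', if_pos hT, D, if_true]
    refine ⟨e, fun y hy => by simp only [if_neg hy, and_self], p1 T hT, ?_⟩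
    have e1 : ∑ S ∈ (Finset.univ.filter fun S => T ⊆ S).erase T, Z S =
        ∑ S ∈ (Finset.univ.filter fun S => T ⊆ S).erase T, a S • XT o S ψ :=
      Finset.sum_congr rfl fun S hS => by
        have := hsup T S e (Finset.mem_filter.1 (Finset.mem_erase.1 hS).2).2
          (Finset.mem_erase.1 hS).1
        rw [hZ, if_neg fun h => by have := (hPu S h).1; omega, if_pos this]
    rw [← Finset.add_sum_erase _ _ m, ← add_assoc, hx T hT, e1,
      Finset.add_sum_erase _ (fun S => a S • XT o S ψ) m]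
    refine (Finset.sum_le_sum (g := fun S => a S • (1 : Matrix _ _ ℂ)) fun S hS => ?_).trans ?_
    · simpa only [n1, one_smul] using rsmul_le (XT_le o S ψ) (a0 T S e (Finset.mem_filter.1 hS).2)
    · rw [← Finset.sum_smul, ← sub_nonneg]
      simpa only [sub_nonneg, sub_smul, one_smul] using rsmul_nonneg (zero_le_one (α := Matrix (ι → α) (ι → α) ℂ))
        (sub_nonneg.2 (A1 T e).2)
  · have e := (Finset.mem_filter.1 hT).2
    rw [hf, if_neg hT', G_xop o T (c0 T).1, hc, if_neg (by omega), if_pos e]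
    exact hN T hT hT'
  · refine hU.mono (le_of_eq ?_) le_rfl
    rw [lv, lv, Finset.sum_filter, Finset.sum_filter, ← Finset.sum_add_distrib]
    congr 1
    refine Finset.sum_congr rfl fun S _ => ?_
    by_cases hS : S ∈ Pu
    · have := (hPu S hS).1
      rw [hf', if_pos hS, D_xop, if_neg (by omega), if_pos this, if_pos hS, p2 S hS, one_smul,
        zero_add]
    · rw [hf', if_neg hS, G_xop o S (c0 S).1, hc, if_neg hS]
      split_ifs <;> first | omega | simp

end Pool.Agent.MP_b746ed_mp.LD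
end

section
set_option autoImplicit false
set_option linter.unusedSectionVars false
open scoped ComplexOrder MatrixOrder
open Matrix

namespace Pool.Agent.MP_b746ed_mp.LD
open KF
open H14 (trf dg)

namespace UPY

lemma mem_lv {ι : Type} [Fintype ι] [DecidableEq ι] {k : ℕ} {S : Finset ι} :
    S ∈ lv ι k ↔ S.card = k := by simp only [lv, Finset.univ_filter_card_eq, Finset.mem_powersetCard, Finset.subset_univ, true_and]

lemma card_lv (ι : Type) [Fintype ι] [DecidableEq ι] (k : ℕ) :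
    ((lv ι k).card : ℝ) ≤ 2 ^ Fintype.card ι := by
  have : (lv ι k).card ≤ 2 ^ Fintype.card ι := by
    rw [← Fintype.card_finset]; exact Finset.card_le_univ _
  exact_mod_cast this

lemma avoid {ι : Type} [Fintype ι] [DecidableEq ι] {k : ℕ} {i j : ι} (hij : i ≠ j)
    (hk : k + 2 ≤ Fintype.card ι) : ∃ C : Finset ι, C.card = k ∧ i ∉ C ∧ j ∉ C := by
  have h : k ≤ ((Finset.univ.erase i).erase j).card := by
    rw [Finset.card_erase_of_mem (by simp only [Finset.mem_erase, ne_eq, hij.symm, not_false_eq_true, Finset.mem_univ, and_self]), Finset.card_erase_of_mem (by simp only [Finset.mem_univ]),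
      Finset.card_univ]
    omega
  obtain ⟨C, h1, h2⟩ := Finset.exists_subset_card_eq h
  exact ⟨C, h2, fun h => by simpa only [Finset.mem_erase, ne_eq, not_true_eq_false, Finset.mem_univ, and_true, and_false] using h1 h, fun h => by simpa only [Finset.mem_erase, ne_eq, not_true_eq_false, Finset.mem_univ, and_true, false_and] using h1 h⟩

end UPY

theorem t_UPY (hLOC : S_LOC) (hCL : S_CL) (hPRD : S_PRD) : S_UPY := by
  intro ι _ _ g h hg hh hh1
  obtain ⟨s0, hs0, hC⟩ := hCL ι g h hg hh hh1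
  obtain ⟨n, hn⟩ : ∃ n : ℝ, n = Fintype.card ι := ⟨_, rfl⟩
  obtain ⟨N, hN⟩ : ∃ N : ℝ, N = 2 ^ Fintype.card ι := ⟨_, rfl⟩
  have hn0 : 0 ≤ n := by rw [hn]; positivity
  have hN0 : 0 < N := by rw [hN]; positivity
  obtain ⟨Λ, hΛ⟩ : ∃ Λ : ℝ, Λ = 2 * (n + 1) + 8 * N * (n + 1) ^ 2 / s0 := ⟨_, rfl⟩
  have hq : 0 ≤ 8 * N * (n + 1) ^ 2 / s0 := by positivity
  have hΛ2 : 2 * (n + 1) ≤ Λ := by linarith
  have hΛ1 : 1 ≤ Λ := by linarith only [hn, hΛ, hq]
  have hΛ3 : N * (2 * (n + 1) ^ 2 / Λ) ≤ s0 / 4 := by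
    have h1 : 8 * N * (n + 1) ^ 2 / s0 ≤ Λ := by linarith
    rw [div_le_iff₀ hs0] at h1
    rw [← mul_div_assoc, div_le_iff₀ (by linarith)]
    linarith only [h1]
  refine ⟨s0 / 2, Λ, by linarith only [hs0], hΛ1, fun η hη hη1 => ?_⟩
  obtain ⟨d0, hL⟩ := hLOC ι Λ η (s0 / 4) (by linarith only [hn, hΛ, hq]) hη hη1 (by linarith only [hs0])
  refine ⟨max d0 2, ?_⟩
  intro α _ _ o k c ψ Pu i j hd hk hψ hij hi hj hc hPu hn'
  have hd2 : 2 ≤ Fintype.card α := by exact_mod_cast (le_max_right _ _).trans hd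
  obtain ⟨C0, hC0, hiC, hjC⟩ := UPY.avoid hij hk
  obtain ⟨Z, hZ⟩ : ∃ Z : Finset ι → Matrix (ι → α) (ι → α) ℂ, Z = fun S =>
    if S.card = k then Λ • XT o S ψ else if S.card = k + 1 then c S • XT o S ψ else 0 := ⟨_, rfl⟩
  have z0 : ∀ S : Finset ι, S.card = k → Z S = Λ • XT o S ψ := fun S hS => by simp [hZ, hS]
  have z1 : ∀ S : Finset ι, S.card = k + 1 → Z S = c S • XT o S ψ := fun S hS => by simp [hZ, hS]
  have zp : ∀ T ∈ Pu, Z T = XT o T ψ := fun T hT => by
    rw [z1 T (hPu T hT).1, (hPu T hT).2.2, one_smul]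
  have key := hL α o k Z Pu (fun S => Fintype.card α ^ k * (Λ - 1 + ∑ i ∈ Sᶜ, c (insert i S) +
    2 * (n + 1) ^ 2 / Λ - if S = C0 then s0 else 0)) ((le_max_left _ _).trans hd) ?_ ?_ ?_ ?_ ?_
  · rw [Finset.sum_congr rfl fun S hS => z0 S (UPY.mem_lv.1 hS),
      Finset.sum_congr rfl fun S hS => z1 S (UPY.mem_lv.1 hS)] at key
    refine key.mono le_rfl ?_
    rw [← Finset.mul_sum, Finset.sum_sub_distrib, Finset.sum_add_distrib, Finset.sum_const,
      Finset.sum_ite_eq', if_pos (UPY.mem_lv.2 hC0), nsmul_eq_mul, mul_comm (s0 / 4), ← mul_add]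
    refine mul_le_mul_of_nonneg_left ?_ (by positivity)
    have := mul_le_mul_of_nonneg_right (hN ▸ UPY.card_lv ι k)
      (show 0 ≤ 2 * (n + 1) ^ 2 / Λ by positivity)
    linarith only [hΛ3, this]
  · intro S
    have hX := nuc_XT o S ψ
    by_cases h0 : S.card = k
    · rw [z0 S h0]
      refine ⟨rsmul_nonneg (XT_nonneg o S ψ) (by linarith only [hn, hΛ, hq]), (hX.rsmul Λ).mono ?_⟩
      rw [hψ, mul_one, abs_of_nonneg (by linarith only [hn, hΛ, hq])]
    by_cases h1 : S.card = k + 1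
    · obtain ⟨ha, hb⟩ := hc S (UPY.mem_lv.2 h1)
      rw [z1 S h1]
      refine ⟨rsmul_nonneg (XT_nonneg o S ψ) (by linarith only [hg, ha]), (hX.rsmul _).mono ?_⟩
      rw [hψ, mul_one, abs_of_nonneg (by linarith only [hg, ha])]
      linarith only [hn, hΛ, hq, hb]
    · have : Z S = 0 := by simp [hZ, h0, h1]
      rw [this]
      exact ⟨le_rfl, nuc_zero.mono (by linarith only [hn, hΛ, hq])⟩
  · intro T hT
    rw [zp T hT]
    exact ⟨(hPu T hT).1, (hPRD ι α o ψ T hψ (hPu T hT).2.1).2.1⟩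
  · intro T hT T' hT'
    rw [zp T hT, zp T' hT']
    exact (hPRD ι α o ψ T hψ (hPu T hT).2.1).2.2 T' (hPu T' hT').2.1
  · intro T hT hT'
    rw [z1 T (UPY.mem_lv.1 hT)]
    exact hn' T hT hT'
  · intro S hS
    have h0 := UPY.mem_lv.1 hS
    have hins : ∀ l, l ∉ S → (insert l S).card = k + 1 := fun l hl => by
      rw [Finset.card_insert_of_notMem hl, h0]
    have hne : Sᶜ.Nonempty := by
      rw [← Finset.card_pos, Finset.card_compl]; omega
    obtain ⟨h1, h2⟩ := hC α o S ψ (fun l => c (insert l S)) Λ hd2 hψ hne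
      (fun l hl => hc _ (UPY.mem_lv.2 (hins l hl))) (hn ▸ hΛ2)
    rw [z0 S h0, Finset.sum_congr rfl fun l hl => z1 _ (hins l (Finset.mem_compl.1 hl))]
    rw [h0, ← hn] at h1 h2
    by_cases hS0 : S = C0
    · subst hS0
      refine (h2 i j hiC hjC hij hi hj).mono le_rfl (le_of_eq ?_)
      rw [if_pos rfl]; ring
    · refine h1.mono le_rfl (le_of_eq ?_)
      rw [if_neg hS0]; ring

end Pool.Agent.MP_b746ed_mp.LD
end

section
set_option autoImplicit false
set_option linter.unusedSectionVars false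
open scoped ComplexOrder MatrixOrder
open Matrix

namespace Pool.Agent.MP_b746ed_mp.LD
open KF
open H14 (trf dg)

namespace II1
variable {ι α : Type} [Fintype ι] [DecidableEq ι] [Fintype α] [DecidableEq α]

lemma adm_mono {k : ℕ} {g g' b b' : ℝ} {a : Finset ι → ℝ} (h : Adm k g b a) (hg : g' ≤ g)
    (hb : b ≤ b') : Adm k g' b' a :=
  ⟨h.1, h.2.1, fun T hT => ⟨hg.trans (h.2.2.1 T hT).1, (h.2.2.1 T hT).2⟩,
    fun S hS => ⟨(h.2.2.2 S hS).1, (h.2.2.2 S hS).2.trans hb⟩⟩

lemma adm_nonneg {k : ℕ} {b : ℝ} {a : Finset ι → ℝ} (h : Adm k 0 b a) (S : Finset ι) :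
    0 ≤ a S := by
  rcases lt_trichotomy S.card k with h1 | h1 | h1
  · exact (h.1 S h1).ge
  · rw [h.2.1 S h1]; exact zero_le_one
  · rcases (Nat.succ_le_of_lt h1).eq_or_lt with h2 | h2
    · exact (h.2.2.1 S h2.symm).1
    · exact (h.2.2.2 S h2).1

lemma adm_le_one {k : ℕ} {b : ℝ} {a : Finset ι → ℝ} (h : Adm k 0 b a) {T : Finset ι}
    (hT : T.card = k + 1) : a T ≤ 1 :=
  (Finset.single_le_sum (f := a) (fun S _ => adm_nonneg h S) (by simp)).trans (h.2.2.1 T hT).2

lemma core_mono {o : α} {k : ℕ} {a : Finset ι → ℝ} {l l' : ℝ} {ψ : (ι → α) → ℂ}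
    (h : Core o k a l ψ) (hl : l ≤ l') : Core o k a l' ψ := fun P hP => by
  refine le_trans ?_ (h P hP)
  have : 0 ≤ ∑ B : Finset ι with B.card ≤ k, tp (1 - P) (XT o B ψ) :=
    Finset.sum_nonneg fun B _ => tp_nonneg hP.2 (nonneg_def.1 (XT_nonneg o B ψ))
  nlinarith only [hl, this]

lemma tau_ge {k : ℕ} {b d : ℝ} {a : Finset ι → ℝ} (h : Adm k 0 b a) (hk : k ≤ Fintype.card ι)
    (hd : 1 ≤ d) : (d - 1) ^ k * ∑ S ∈ lv ι k, ∑ i ∈ Sᶜ, a (insert i S) ≤ tau0 d k a := by
  rw [Finset.mul_sum, tau0]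
  refine le_trans (Finset.sum_le_sum fun S hS => ?_) (Finset.sum_le_sum_of_subset_of_nonneg
    (s := lv ι k)
    (fun S hS => Finset.mem_filter.2 ⟨Finset.mem_univ _, (Finset.mem_filter.1 hS).2.le⟩)
    fun A hA _ => ?_)
  · have hS' : S.card = k := by simpa only [lv, Finset.univ_filter_card_eq, Finset.mem_powersetCard, Finset.subset_univ, true_and] using hS
    rw [hS']
    refine mul_le_mul_of_nonneg_left ?_ (pow_nonneg (by linarith only [hd]) k)
    rw [← Finset.add_sum_erase _ a (a := S) (by simp), h.2.1 S hS', add_sub_cancel_left]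
    refine sum_inj_le (fun i => insert i S) (fun i hi => ?_) (fun i hi j _ hij => ?_)
      (adm_nonneg h)
    · simpa [Finset.insert_eq_self] using hi
    · have : i ∈ insert j S := hij ▸ Finset.mem_insert_self i S
      simpa [Finset.mem_compl.1 hi] using this
  · obtain ⟨C, h1, -, h2⟩ := Finset.exists_subsuperset_card_eq (Finset.subset_univ A)
      (Finset.mem_filter.1 hA).2 hk
    refine mul_nonneg (pow_nonneg (by linarith only [hd]) _) (sub_nonneg.2 ?_)
    rw [← h.2.1 C h2]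
    exact Finset.single_le_sum (f := a) (fun S _ => adm_nonneg h S) (by simpa using h1)

lemma split {M : Type} [AddCommGroup M] [Module ℝ M] {k : ℕ} {g b : ℝ} {a : Finset ι → ℝ}
    (h : Adm k g b a) (X : Finset ι → M) :
    ∑ S, a S • X S = ∑ S ∈ lv ι k, X S + ∑ S : Finset ι with k < S.card, a S • X S := by
  rw [lv, Finset.sum_filter, Finset.sum_filter, ← Finset.sum_add_distrib]
  refine Finset.sum_congr rfl fun S _ => ?_
  rcases lt_trichotomy S.card k with h1 | h1 | h1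
  · simp [h.1 S h1, h1.ne, h1.not_gt]
  · simp [h.2.1 S h1, h1]
  · simp [h1, h1.ne']

lemma hole_move {i : ι} {h b : ℝ} {ψ ψ' : (ι → α) → ℂ} (o : α) (h1 : nv ψ = 1) (h2 : nv ψ' = 1)
    (hb : 0 ≤ b) (h3 : nv (ψ - ψ') ≤ b ^ 2) (hh : Hole i h (op ψ ψ)) :
    Hole i (h - 2 * b) (op ψ' ψ') := fun v hv => by
  have a1 := (nuc_XT_sub o ∅ ψ' ψ).tn
  rw [XT_empty, XT_empty, h1, h2, nv_sub_comm] at a1
  have a2 : Con (lift i (op v v)) := by
    have := (St.con (σ := op v v) ⟨psd_op v, by rw [trace_op, ip_self_nv, hv]; simp⟩)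
    have : Nonempty α := ⟨o⟩
    refine ⟨L_psd _ (psd_op v), ?_⟩
    rw [← map_one (lift (α := α) i), ← map_sub]
    exact L_psd _ (Con.compl ‹Con (op v v)›).1
  have a3 := a1.up _ a2
  have a4 : √(nv (ψ - ψ')) ≤ b := Real.sqrt_le_iff.2 ⟨hb, h3⟩
  rw [tp_sub, tp_comm, tp_comm _ (op ψ ψ)] at a3
  simp only [Finset.card_empty, pow_zero, Real.sqrt_one] at a3
  linarith [hh v hv]

end II1

theorem t_II1 (hRP2 : S_RP2) (hUPY : S_UPY) (hPUR : S_PUR) : S_II1 := by
  intro ι _ _ g h η g0 h0 h1 e0 e1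
  obtain ⟨s, Λ, s0, l1, hU⟩ := hUPY ι g (h / 2) g0 (by positivity) (by linarith)
  obtain ⟨d0, hU⟩ := hU (η / 2) (by positivity) (by linarith only [e1])
  obtain ⟨C, c0, hR⟩ := hRP2 ι Λ η l1 e0 e1
  set n : ℕ := Fintype.card ι with hn
  set m : ℝ := 2 ^ n * n + 1 with hm
  have m0 : 0 < m := by positivity
  obtain ⟨b, b0, b1, b2, b3, b4, b5⟩ : ∃ b : ℝ, 0 < b ∧ C * b ≤ 1 ∧ C * b ≤ s / 4 ∧ b ≤ h / 4 ∧
      b ≤ η / 4 ∧ m * b ≤ s / 4 := by
    refine ⟨min (min (1 / C) (s / 4 / C)) (min (min (h / 4) (η / 4)) (s / 4 / m)), by positivity,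
      ?_, ?_, ?_, ?_, ?_⟩
    · rw [← le_div_iff₀' c0]; exact (min_le_left _ _).trans (min_le_left _ _)
    · rw [← le_div_iff₀' c0]; exact (min_le_left _ _).trans (min_le_right _ _)
    · exact (min_le_right _ _).trans ((min_le_left _ _).trans (min_le_left _ _))
    · exact (min_le_right _ _).trans ((min_le_left _ _).trans (min_le_right _ _))
    · rw [← le_div_iff₀' m0]; exact (min_le_right _ _).trans (min_le_right _ _)
  obtain ⟨η1, f0, hP⟩ := hPUR (2 ^ n) b b0
  refine ⟨min b η1, max (max d0 Λ) (max (1 / b) (n / b)), by positivity,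
    (min_le_left _ _).trans (by linarith only [b0, b4]), lt_max_of_lt_left (lt_max_of_lt_right (by linarith only [h1, l1, b0, b3])), ?_⟩
  intro α _ _ o k a ψ i j hd hk ha hψ hij hi hj hdi
  simp only [max_le_iff] at hd
  have hA : Adm k 0 b a := II1.adm_mono ha g0.le (by
    rw [one_div_le (by positivity) b0]; exact le_max_of_le_right (le_max_left _ _))
  refine II1.core_mono (l := Λ - 1) (fun P hPc => ?_)
    (le_max_of_le_left (le_max_of_le_right (by linarith only [h1, b0, b3])))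
  classical
  set Pu := (lv ι (k + 1)).filter fun T => ¬a T • XT o T ψ ≤ (1 - η) • (1 : Matrix _ _ ℂ) with hPu
  have x1 : ∀ T, XT o T ψ ≤ 1 := fun T => by simpa only [hψ, one_smul] using XT_le o T ψ
  have u1 : ∀ T ∈ Pu, T.card = k + 1 ∧
      ¬a T • XT o T ψ ≤ (1 - min b η1) • (1 : Matrix _ _ ℂ) := fun T hT =>
    ⟨by simpa only [lv, Finset.univ_filter_card_eq, Finset.mem_powersetCard, Finset.subset_univ, true_and] using (Finset.mem_filter.1 hT).1,
      (hdi T (Finset.mem_filter.1 hT).1).resolve_left (Finset.mem_filter.1 hT).2⟩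
  have u2 : ∀ T ∈ lv ι (k + 1), T ∉ Pu → a T • XT o T ψ ≤ (1 - η) • (1 : Matrix _ _ ℂ) :=
    fun T hT h' => by_contra fun h'' => h' (Finset.mem_filter.2 ⟨hT, h''⟩)
  have u3 : ∀ T ∈ Pu, 1 - b ≤ a T := fun T hT => by
    by_contra h'
    exact (u1 T hT).2 ((rsmul_le (x1 T) (II1.adm_nonneg hA T)).trans
      (rsmul_le_rsmul one_nonneg (by linarith only [min_le_left b η1, h'])))
  obtain ⟨ψ', p1, p2, p3⟩ := hP ι α o ψ Pu (by simpa only [Fintype.card_finset] using Pu.card_le_univ) hψ fun T hT h' =>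
    (u1 T hT).2 (by
      refine le_trans ?_ (h'.trans (rsmul_le_rsmul one_nonneg (by linarith only [min_le_right b η1])))
      simpa only [one_smul] using rsmul_le_rsmul (XT_nonneg o T ψ) (II1.adm_le_one hA (u1 T hT).1))
  have hg1 : ∀ T ∈ lv ι (k + 1), g ≤ a T ∧ a T ≤ 1 := fun T hT =>
    ⟨(ha.2.2.1 T (by simpa [lv] using hT)).1, II1.adm_le_one hA (by simpa [lv] using hT)⟩
  have y1 := hU α o k (fun T => if T ∈ Pu then 1 else a T) ψ' Pu i j hd.1.1 hk p1 hij
    (fun v hv => by linarith only [II1.hole_move o hψ p1 b0.le p2 hi v hv, b3])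
    (fun v hv => by linarith only [II1.hole_move o hψ p1 b0.le p2 hj v hv, b3])
    (fun T hT => by
      have := hg1 T hT
      split_ifs
      exacts [⟨this.1.trans this.2, le_rfl⟩, this])
    (fun T hT => ⟨(u1 T hT).1, p3 T hT, if_pos hT⟩) fun T hT h' => by
      have a1 := (nuc_XT_sub o T ψ' ψ).opb.le (by positivity) (by simp [XT_conj])
      have a4 : √(nv (ψ - ψ')) ≤ b := Real.sqrt_le_iff.2 ⟨b0.le, p2⟩
      rw [hψ, p1, nv_sub_comm, Real.sqrt_one] at a1
      have a5 := add_le_add (u2 T hT h') (rsmul_le a1 (II1.adm_nonneg hA T))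
      rw [smul_sub, add_sub_cancel, smul_smul, ← add_smul] at a5
      rw [if_neg h']
      refine a5.trans (rsmul_le_rsmul one_nonneg ?_)
      nlinarith only [hg1 T hT, g0, b0, b4, a4]
  have y2 := hR α o k a ψ ψ' Pu b _ b0.le b1 hA hψ p1 p2
    (fun T hT => ⟨(u1 T hT).1, p3 T hT, u3 T hT⟩) u2 y1 P hPc
  set D : ℝ := (Fintype.card α : ℝ) ^ k with hD
  have D0 : 0 ≤ D := by positivity
  have d1 : (1 : ℝ) ≤ Fintype.card α := by exact_mod_cast Fintype.card_pos_iff.2 ⟨o⟩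
  have y3 := II1.tau_ge hA (by omega) d1
  have y4 : ∑ S ∈ lv ι k, tp (1 - P) (XT o S ψ) ≤
      ∑ B : Finset ι with B.card ≤ k, tp (1 - P) (XT o B ψ) :=
    Finset.sum_le_sum_of_subset_of_nonneg
      (fun S hS => Finset.mem_filter.2 ⟨Finset.mem_univ _, (Finset.mem_filter.1 hS).2.le⟩)
      fun B _ _ => tp_nonneg hPc.2 (nonneg_def.1 (XT_nonneg o B ψ))
  have y5 : ∑ S ∈ lv ι k, tp (1 - P) (XT o S ψ) =
      ∑ S ∈ lv ι k, D - ∑ S ∈ lv ι k, tp P (XT o S ψ) := by
    rw [← Finset.sum_sub_distrib]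
    refine Finset.sum_congr rfl fun S hS => ?_
    rw [tp_compl, rt_XT, hψ, mul_one, show S.card = k by simpa only [lv, Finset.univ_filter_card_eq, Finset.mem_powersetCard, Finset.subset_univ, true_and] using hS]
  have cnt : ∀ F : Finset ι → ℝ, ∀ c, 0 ≤ c → (∀ T ∈ lv ι (k + 1), F T ≤ c) →
      ∑ S ∈ lv ι k, ∑ i ∈ Sᶜ, F (insert i S) ≤ m * c := fun F c hc hF => by
    refine (Finset.sum_le_card_nsmul _ _ (n * c) fun S hS => ?_).trans ?_
    · refine (Finset.sum_le_card_nsmul _ _ c fun i hi => hF _ ?_).trans ?_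
      · exact Finset.mem_filter.2 ⟨Finset.mem_univ _, by
          rw [Finset.card_insert_of_notMem (Finset.mem_compl.1 hi), (Finset.mem_filter.1 hS).2]⟩
      · rw [nsmul_eq_mul]
        exact mul_le_mul_of_nonneg_right (by exact_mod_cast Sᶜ.card_le_univ) hc
    · have : ((lv ι k).card : ℝ) ≤ 2 ^ n := by exact_mod_cast (by simpa only [Fintype.card_finset] using (lv ι k).card_le_univ)
      have := mul_le_mul_of_nonneg_right this (show 0 ≤ n * c by positivity)
      rw [nsmul_eq_mul, hm]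
      linarith only [hc, this]
  have y6 := cnt (fun T => (if T ∈ Pu then 1 else a T) - a T) b b0.le fun T _ => by
    split_ifs with h'
    exacts [by linarith only [u3 T h'], by linarith only [b0]]
  have y7 := cnt a 1 zero_le_one fun T hT => (hg1 T hT).2
  have y8 : D * (1 - b) ≤ (Fintype.card α - 1) ^ k := by
    have e1 := one_add_mul_le_pow (a := -(1 / (Fintype.card α : ℝ)))
      (by have : 1 / (Fintype.card α : ℝ) ≤ 1 := by rw [div_le_one (by linarith only [l1, hd])]; exact d1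
          linarith only [this]) k
    have e2 : (k : ℝ) * (1 / Fintype.card α) ≤ b := by
      have : (k : ℝ) ≤ n := by exact_mod_cast (by omega : k ≤ n)
      rw [mul_one_div, div_le_iff₀ (by linarith only [l1, hd])]
      linarith only [(div_le_iff₀' b0).1 hd.2.2, this]
    have e3 : (Fintype.card α - 1 : ℝ) = Fintype.card α * (1 + -(1 / Fintype.card α)) := by
      field_simp; ring
    rw [e3, mul_pow]
    exact mul_le_mul_of_nonneg_left (by linarith only [e1, e2]) D0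
  set Sa := ∑ S ∈ lv ι k, ∑ i ∈ Sᶜ, a (insert i S) with hSa
  have Sa0 : 0 ≤ Sa := Finset.sum_nonneg fun _ _ => Finset.sum_nonneg fun _ _ =>
    II1.adm_nonneg hA _
  simp only [Finset.sum_sub_distrib, ← hSa] at y6
  simp only [tp_sub, tp_add, tp_sum, tp_rsmul, ← Finset.mul_sum, Finset.sum_add_distrib] at y2
  rw [HH, II1.split ha]
  simp only [tp_sub, tp_add, tp_sum, tp_rsmul]
  simp only [Finset.sum_const, nsmul_eq_mul] at y2 y5
  have z1 := mul_le_mul_of_nonneg_left y4 (show 0 ≤ Λ - 1 by linarith only [l1])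
  have z2 := mul_le_mul_of_nonneg_right y8 Sa0
  have z3 := mul_le_mul_of_nonneg_left (y6.trans b5) D0
  have z4 := mul_le_mul_of_nonneg_left b2 D0
  have z5 := mul_le_mul_of_nonneg_left y7 (mul_nonneg D0 b0.le)
  have z6 := mul_le_mul_of_nonneg_left b5 D0
  have z7 := mul_nonneg D0 s0.le
  rw [y5] at z1
  linarith only [y3, y2, z1, z2, z3, z4, z5, z6, z7]

theorem t_II (hII1 : S_II1) : S_II := by
  intro ι _ _ g h g0 h0 h1
  choose! F L hF using fun η => hII1 ι g h η g0 h0 h1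
  have e : ∀ j, 0 < F^[j] 1 ∧ F^[j] 1 ≤ 1 := fun j => by
    induction j with
    | zero => simp
    | succ j ih =>
      rw [Function.iterate_succ_apply']
      exact ⟨(hF _ ih.1 ih.2).1, (hF _ ih.1 ih.2).2.1.trans ih.2⟩
  have an : Antitone fun j => F^[j] 1 := antitone_nat_of_succ_le fun j => by
    rw [Function.iterate_succ_apply']; exact (hF _ (e j).1 (e j).2).2.1
  have l0 : ∀ j, 0 < L (F^[j] 1) := fun j => (hF _ (e j).1 (e j).2).2.2.1
  set N := Fintype.card (Finset ι) + 1 with hN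
  have l1 : ∀ j ∈ Finset.range N, L (F^[j] 1) ≤ ∑ j ∈ Finset.range N, L (F^[j] 1) :=
    fun j hj => Finset.single_le_sum (f := fun j => L (F^[j] 1)) (fun j _ => (l0 j).le) hj
  refine ⟨∑ j ∈ Finset.range N, L (F^[j] 1), (l0 0).trans_le (l1 0 (by simp only [hN, Fintype.card_finset, Finset.mem_range, lt_add_iff_pos_left, Order.lt_add_one_iff, zero_le])), ?_⟩
  intro α _ _ o k a ψ i j hd hk ha hψ hij hi hj
  obtain ⟨t, ht, hg⟩ : ∃ t ∈ Finset.range N, ∀ T : Finset ι,
      a T • XT o T ψ ≤ (1 - F^[t] 1) • (1 : Matrix _ _ ℂ) ∨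
        ¬a T • XT o T ψ ≤ (1 - F^[t + 1] 1) • (1 : Matrix _ _ ℂ) := by
    by_contra hc
    push Not at hc
    choose! T hT using hc
    have key : ∀ s ∈ Finset.range N, ∀ t ∈ Finset.range N, s < t → T s ≠ T t :=
      fun s hs t ht hst he => (hT t ht).1 (he ▸ (hT s hs).2.trans
        (rsmul_le_rsmul one_nonneg (by linarith only [an (Nat.succ_le_of_lt hst)])))
    have := Finset.card_le_card_of_injOn (t := Finset.univ) T (fun _ _ => Finset.mem_univ _)
      fun s hs t ht he => by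
        rcases lt_trichotomy s t with h' | h' | h'
        exacts [absurd he (key s hs t ht h'), h', absurd he.symm (key t ht s hs h')]
    simp only [hN, Fintype.card_finset, Finset.card_range, Finset.card_univ, add_le_iff_nonpos_right, nonpos_iff_eq_zero, one_ne_zero] at this
  refine II1.core_mono ((hF _ (e t).1 (e t).2).2.2.2 α o k a ψ i j ((l1 t ht).trans hd) hk
    (II1.adm_mono ha le_rfl (one_div_le_one_div_of_le (l0 t) (l1 t ht))) hψ hij hi hj
    fun T _ => ?_) (l1 t ht)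
  simpa only [Function.iterate_succ_apply'] using hg T

end Pool.Agent.MP_b746ed_mp.LD
end

section
set_option autoImplicit false
set_option linter.unusedSectionVars false
open scoped ComplexOrder MatrixOrder
open Matrix

namespace Pool.Agent.MP_b746ed_mp.LD
open KF
open H14 (trf dg)

namespace RA

lemma split {β γ : Type} [Fintype β] [DecidableEq β] [Fintype γ] [DecidableEq γ]
    {X : Matrix β β ℂ} (hX : 0 ≤ X) (J K : Matrix β γ ℂ) {θ : ℝ} (hθ : 0 < θ) :
    rt ((J + K)ᴴ * X * (J + K)) ≤ (1 + θ) * rt (Jᴴ * X * J) + (1 + 1 / θ) * rt (Kᴴ * X * K) := by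
  have h0 := rt_nonneg (conj_nonneg hX (θ • J - K))
  have hc : rt (Kᴴ * X * J) = rt (Jᴴ * X * K) := by
    rw [← rt_conj, conjTranspose_mul, conjTranspose_mul, conjTranspose_conjTranspose,
      herm_of_nonneg hX, Matrix.mul_assoc]
  have e : (θ • J)ᴴ = θ • Jᴴ := by rw [conjTranspose_smul, star_trivial]
  simp only [conjTranspose_sub, conjTranspose_add, e, Matrix.sub_mul, Matrix.mul_sub,
    Matrix.add_mul, Matrix.mul_add, Matrix.smul_mul, Matrix.mul_smul, rt_sub, rt_add, rt_rsmul,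
    hc] at h0 ⊢
  have h1 : 2 * rt (Jᴴ * X * K) ≤ θ * rt (Jᴴ * X * J) + 1 / θ * rt (Kᴴ * X * K) := by
    refine le_of_mul_le_mul_left ?_ hθ
    rw [mul_add, ← mul_assoc θ (1 / θ), mul_one_div_cancel hθ.ne']
    linarith only [h0]
  linarith only [h1]

variable {ι α : Type} [Fintype ι] [DecidableEq ι] [Fintype α] [DecidableEq α]

lemma form (o : α) (S R : Finset ι) (hR : ∀ i ∈ R, i ∉ S) (φ v : (ι → α) → ℂ) (x : ι → α)
    (hv : ∀ a, v a ≠ 0 → ∀ i ∈ R, a i = x i) : (ip v (XT o S φ *ᵥ v)).re ≤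
      (∑ a, if ∀ i ∈ R, a i = x i then ‖φ a‖ ^ 2 else 0) * nv v := by
  let ψ : (ι → α) → ℂ := fun a => if ∀ i ∈ R, a i = x i then φ a else 0
  have h1 : nv ψ = ∑ a, if ∀ i ∈ R, a i = x i then ‖φ a‖ ^ 2 else 0 :=
    Finset.sum_congr rfl fun a _ => by simp only [ψ]; split_ifs <;> simp
  have h2 : ∀ a, v a ≠ 0 → ∀ y, ψ (pw S y a) = φ (pw S y a) := fun a ha y =>
    if_pos fun i hi => by rw [pw, if_neg (hR i hi), hv a ha i hi]
  have h3 : ip v (XT o S φ *ᵥ v) = ip v (XT o S ψ *ᵥ v) := by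
    simp only [ip_eq, mulVec, dotProduct]
    refine Finset.sum_congr rfl fun a _ => ?_
    by_cases ha : v a = 0
    · rw [ha, star_zero, zero_mul, zero_mul]
    · refine congrArg (star (v a) * ·) (Finset.sum_congr rfl fun b _ => ?_)
      by_cases hb : v b = 0
      · rw [hb, mul_zero, mul_zero]
      · simp only [XT_apply, h2 a ha, h2 b hb]
  have h4 := (le_iff_ip (XT_conj o S ψ)
    (herm_of_nonneg (rsmul_nonneg one_nonneg (nv_nonneg ψ)))).1 (XT_le o S ψ) v
  rwa [ip_rsmul_one, h1, ← h3] at h4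

lemma count (o : α) (A S R : Finset ι) (hA : ∀ i ∈ A, i ∉ S → i ∈ R) (a : ι → α) :
    ((Finset.univ.filter fun x : ι → α => spt o x = A ∧ ∀ i ∈ R, a i = x i).card : ℝ) ≤
      (Fintype.card α - 1) ^ (A ∩ S).card := by
  have h1 : 1 ≤ Fintype.card α := Fintype.card_pos_iff.2 ⟨o⟩
  have h2 : (Finset.univ.filter fun x : ι → α => spt o x = A ∧ ∀ i ∈ R, a i = x i).card ≤
      (Fintype.card α - 1) ^ (A ∩ S).card := by
    rw [← card_spt o (A ∩ S)]
    refine Finset.card_le_card_of_injOn (fun x i => if i ∈ S then x i else o) (fun x hx => ?_)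
      fun x hx y hy h => funext fun i => ?_
    · simp only [Finset.coe_filter, Finset.mem_univ, true_and, Set.mem_ofPred_eq] at hx ⊢
      ext i
      rw [← hx.1]
      by_cases hi : i ∈ S <;> simp [mem_spt, hi]
    · simp only [Finset.coe_filter, Finset.mem_univ, true_and, Set.mem_ofPred_eq] at hx hy
      by_cases hi : i ∈ S
      · simpa [hi] using congrFun h i
      · by_cases hj : i ∈ A
        · rw [← hx.2 i (hA i hj hi), hy.2 i (hA i hj hi)]
        · have e1 : x i = o := by_contra fun e => hj (hx.1 ▸ (mem_spt o).2 e)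
          have e2 : y i = o := by_contra fun e => hj (hy.1 ▸ (mem_spt o).2 e)
          rw [e1, e2]
  have h3 := (Nat.cast_le (α := ℝ)).2 h2
  rwa [Nat.cast_pow, Nat.cast_pred h1] at h3

lemma core (o : α) (A S R : Finset ι) (hR : ∀ i ∈ R, i ∉ S) (hA : ∀ i ∈ A, i ∉ S → i ∈ R)
    (f φ : (ι → α) → ℂ) (w : (ι → α) → ℝ) (hw0 : ∀ a, 0 ≤ w a)
    (hw : ∀ a x, spt o x = A → (∀ i ∈ R, a i = x i) → ‖φ a‖ ^ 2 ≤ w a)
    (hf : ∀ x, spt o x = A → ∀ a, col o A f x a ≠ 0 → ∀ i ∈ R, a i = x i) :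
    rt ((Jc o A f)ᴴ * XT o S φ * Jc o A f) ≤
      (Fintype.card α - 1) ^ (A ∩ S).card * ((∑ a, w a) * nq o A f) := by
  have h1 : ∀ x, (((Jc o A f)ᴴ * XT o S φ * Jc o A f) x x).re ≤
      (∑ a, if spt o x = A ∧ ∀ i ∈ R, a i = x i then w a else 0) * nq o A f := fun x => by
    have e : ((Jc o A f)ᴴ * XT o S φ * Jc o A f) x x =
        ip (fun a => Jc o A f a x) (XT o S φ *ᵥ fun a => Jc o A f a x) := by
      rw [Matrix.mul_assoc]
      rfl
    rw [e]
    by_cases hx : spt o x = A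
    · simp only [Jc_apply, hx, if_true, true_and]
      refine (form o S R hR φ (col o A f x) x (hf x hx)).trans ?_
      rw [nv_col]
      refine mul_le_mul_of_nonneg_right (Finset.sum_le_sum fun a _ => ?_) (nq_nonneg o A f)
      split_ifs with h
      exacts [hw a x hx h, le_rfl]
    · simp only [Jc_apply, hx, ↓ reduceIte, ip_eq, star_zero, zero_mul, Finset.sum_const_zero, Complex.zero_re, false_and, Std.le_refl]
  rw [rt_eq_sum, ← mul_assoc]
  refine (Finset.sum_le_sum fun x _ => h1 x).trans ?_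
  rw [← Finset.sum_mul, Finset.sum_comm, Finset.mul_sum]
  refine mul_le_mul_of_nonneg_right (Finset.sum_le_sum fun a _ => ?_) (nq_nonneg o A f)
  rw [← Finset.sum_filter, Finset.sum_const, nsmul_eq_mul]
  exact mul_le_mul_of_nonneg_right (count o A S R hA a) (hw0 a)

lemma one (o : α) (A S : Finset ι) (u φ : (ι → α) → ℂ) (h : ¬A ⊆ S) :
    rt ((Jc o A u)ᴴ * XT o S φ * Jc o A u) ≤
      (Fintype.card α - 1) ^ (A ∩ S).card * (eps o φ * nq o A u) := by
  obtain ⟨j, hj, hS⟩ := Finset.not_subset.1 h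
  refine core o A S (A \ S) (fun i hi => (Finset.mem_sdiff.1 hi).2)
    (fun i hi hs => Finset.mem_sdiff.2 ⟨hi, hs⟩) u φ (fun a => ‖prp o φ a‖ ^ 2)
    (fun a => by positivity) (fun a x hx ha => ?_) fun x _ a ha i hi => ?_
  · have : a ≠ fun _ => o := fun e => (mem_spt o).1 (hx ▸ hj)
      (by rw [← ha j (Finset.mem_sdiff.2 ⟨hj, hS⟩), e])
    simp only [prp, if_neg this, le_refl]
  · by_contra e
    exact ha (if_neg fun h => e (h i (Finset.mem_sdiff.1 hi).1))

lemma two (o : α) (A S : Finset ι) (c : ℂ) (φ : (ι → α) → ℂ) (j : ι) (h : A \ S = {j}) :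
    rt ((Jc o A (c • e0 o))ᴴ * XT o S φ * Jc o A (c • e0 o)) ≤
      (Fintype.card α - 1) ^ (A ∩ S).card * (wt o φ (fun B => B \ S = {j}) * ‖c‖ ^ 2) := by
  have := core o A S Sᶜ (fun i hi => Finset.mem_compl.1 hi) (fun i _ hs => Finset.mem_compl.2 hs)
    (c • e0 o) φ (fun a => if spt o a \ S = {j} then ‖φ a‖ ^ 2 else 0)
    (fun a => by positivity) (fun a x hx ha => ?_) fun x hx a ha i _ => ?_
  · rwa [nq_smul, nq_e0, mul_one] at this
  · have : spt o a \ S = {j} := by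
      rw [← h, ← hx]
      ext i
      simp only [Finset.mem_sdiff, mem_spt]
      exact and_congr_left fun hi => by rw [ha i (Finset.mem_compl.2 hi)]
    simp only [if_pos this, le_refl]
  · have h1 : ∀ i ∈ A, a i = x i := by_contra fun e => ha (if_neg e)
    by_cases hi : i ∈ A
    · exact h1 i hi
    · have h2 : spt o a ⊆ A := by_contra fun e => ha (by
        simp only [col, if_pos h1, Pi.smul_apply, e0_mask, if_neg e, smul_zero])
      have e1 : x i = o := by_contra fun e => hi (hx ▸ (mem_spt o).2 e)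
      have e2 : a i = o := by_contra fun e => hi (h2 ((mem_spt o).2 e))
      rw [e1, e2]

end RA

theorem t_RA : S_RA := by
  intro ι α _ _ _ _ o A S u φ
  have hd : (1 : ℝ) ≤ Fintype.card α := by exact_mod_cast Fintype.card_pos_iff.2 ⟨o⟩
  refine ⟨fun h => (RA.one o A S u φ h).trans ?_, fun j θ h hθ => ?_⟩
  · rw [mul_comm (eps o φ)]
    exact mul_le_mul_of_nonneg_right (pow_le_pow_left₀ (by linarith) (by linarith) _)
      (mul_nonneg (nq_nonneg o A u) (nv_nonneg _))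
  · have e : Jc o A u = Jc o A ((u fun _ => o) • e0 o) + Jc o A (prp o u) := by
      rw [← Jc_add, prp_eq, add_sub_cancel]
    have hn : ¬A ⊆ S := fun hs => by
      rw [Finset.sdiff_eq_empty_iff_subset.2 hs] at h
      exact Finset.singleton_ne_empty j h.symm
    have h1 := mul_le_mul_of_nonneg_left (RA.two o A S (u fun _ => o) φ j h)
      (by positivity : 0 ≤ 1 + θ)
    have h2 := mul_le_mul_of_nonneg_left (RA.one o A S (prp o u) φ hn)
      (by positivity : 0 ≤ 1 + 1 / θ)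
    have h3 := RA.split (XT_nonneg o S φ) (Jc o A ((u fun _ => o) • e0 o)) (Jc o A (prp o u)) hθ
    rw [← e] at h3
    linarith

end Pool.Agent.MP_b746ed_mp.LD
end

section
set_option autoImplicit false
set_option linter.unusedSectionVars false
open scoped ComplexOrder MatrixOrder
open Matrix

namespace Pool.Agent.MP_b746ed_mp.LD
open KF
open H14 (trf dg)

namespace R6

lemma up_off {β γ ρ : Type} [Fintype β] [DecidableEq β] [Fintype γ] [DecidableEq γ]
    [DecidableEq ρ] (s : Finset ρ) (B : ρ → Matrix β γ ℂ) (n : ℝ) (hn : (s.card : ℝ) ≤ n)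
    (h0 : ∀ j ∈ s, ∀ l ∈ s.erase j, rt (B j * (B l)ᴴ) = 0) :
    Up (∑ j ∈ s, ∑ l ∈ s.erase j, B j * (B l)ᴴ) ((1 - 1 / n) * ∑ j ∈ s, hs (B j)) := by
  intro P hP
  rcases s.eq_empty_or_nonempty with rfl | hs0
  · simp only [tp, Finset.notMem_empty, not_false_eq_true, Finset.erase_eq_of_notMem, Finset.sum_empty, Finset.sum_const_zero, mul_zero, trace_zero, Complex.zero_re, one_div, Std.le_refl]
  have hn1 : (1 : ℝ) ≤ n := le_trans (by exact_mod_cast hs0.card_pos) hn
  obtain ⟨T, hT, hTT⟩ := exists_factor (con_iff.1 hP).1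
  have e : (∑ j ∈ s, B j) * (∑ j ∈ s, B j)ᴴ =
      ∑ j ∈ s, B j * (B j)ᴴ + ∑ j ∈ s, ∑ l ∈ s.erase j, B j * (B l)ᴴ := by
    rw [conjTranspose_sum, Matrix.sum_mul, ← Finset.sum_add_distrib]
    refine Finset.sum_congr rfl fun j hj => ?_
    rw [Matrix.mul_sum, Finset.add_sum_erase s (fun l => B j * (B l)ᴴ) hj]
  have k1 : ∀ X : Matrix β γ ℂ, tp P (X * Xᴴ) = hs (T * X) := fun X => by
    rw [hs_eq_rt', conjTranspose_mul, hT, ← Matrix.mul_assoc, rt_comm, tp_eq_rt, ← hTT]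
    simp only [Matrix.mul_assoc]
  have k2 := hs_sum_le s fun j => T * B j
  rw [← Matrix.mul_sum] at k2
  have k3 := congrArg (tp P) e
  rw [tp_add, tp_sum, k1] at k3
  simp only [k1] at k3
  have k4 := up_psd (nonneg_def.2 (posSemidef_self_mul_conjTranspose (∑ j ∈ s, B j))) P hP
  rw [k1, e, rt_add, rt_sum, rt_sum s fun j => ∑ l ∈ s.erase j, B j * (B l)ᴴ,
    Finset.sum_eq_zero (s := s) (f := fun j => rt (∑ l ∈ s.erase j, B j * (B l)ᴴ)) fun j hj => by
      rw [rt_sum]; exact Finset.sum_eq_zero (h0 j hj), add_zero] at k4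
  simp only [← hs_eq_rt'] at k4
  have k5 : 0 ≤ ∑ j ∈ s, hs (T * B j) := Finset.sum_nonneg fun j _ => hs_nonneg _
  have k6 : hs (T * ∑ j ∈ s, B j) / n ≤ ∑ j ∈ s, hs (T * B j) := by
    rw [div_le_iff₀ (by linarith), mul_comm]
    exact k2.trans (mul_le_mul_of_nonneg_right hn k5)
  have k7 : 0 ≤ 1 - 1 / n := by
    rw [sub_nonneg, div_le_one (by linarith only [hn1])]; exact hn1
  have k8 := mul_le_mul_of_nonneg_left k4 k7
  rw [sub_mul, one_mul, one_div, inv_mul_eq_div] at k8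
  rw [one_div]
  linarith only [k3, k6, k8]

variable {ι α : Type} [Fintype ι] [DecidableEq ι] [Fintype α] [DecidableEq α]

/-- the factor of the cross terms of adjacent sets -/
def Bm (o : α) (C : Finset ι) (j : ι) (ψ : (ι → α) → ℂ) : Matrix (ι → α) (ι → α) ℂ :=
  Matrix.of fun x c => if spt o x = insert j C ∧ (∀ i ∈ C, c i = x i) ∧ c j = o then
    ψ (Function.update (mask o C c) j (x j)) else 0

lemma cross (o : α) (C : Finset ι) {j l : ι} (hj : j ∉ C) (hl : l ∉ C) (hjl : l ≠ j)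
    (ψ : (ι → α) → ℂ) : (Jc o (insert j C) ψ)ᴴ * Jc o (insert l C) ψ =
      Bm o C j ψ * (Bm o C l ψ)ᴴ := by
  ext x x'
  simp only [Matrix.mul_apply, conjTranspose_apply, Jc_apply, Bm, of_apply, col, apply_ite star,
    star_zero, ite_zero_mul_ite_zero, ← ite_and]
  rw [← Finset.sum_filter, ← Finset.sum_filter]
  refine Finset.sum_nbij' (fun a => Function.update (Function.update a j o) l o)
    (fun c => Function.update (Function.update c j (x j)) l (x' l)) ?_ ?_ ?_ ?_ ?_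
  · intro a ha
    simp only [Finset.mem_filter, Finset.mem_univ, true_and, Finset.forall_mem_insert] at ha ⊢
    obtain ⟨⟨h1, -, h2⟩, h3, -, h4⟩ := ha
    have : ∀ i ∈ C, Function.update (Function.update a j o) l o i = a i := fun i hi => by
      rw [Function.update_of_ne (ne_of_mem_of_not_mem hi hl),
        Function.update_of_ne (ne_of_mem_of_not_mem hi hj)]
    refine ⟨⟨h1, fun i hi => (this i hi).trans (h2 i hi), ?_⟩, h3,
      fun i hi => (this i hi).trans (h4 i hi), by simp⟩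
    simp [Function.update_of_ne hjl.symm]
  · intro c hc
    simp only [Finset.mem_filter, Finset.mem_univ, true_and, Finset.forall_mem_insert] at hc ⊢
    obtain ⟨⟨h1, h2, -⟩, h3, h4, -⟩ := hc
    have : ∀ i ∈ C, Function.update (Function.update c j (x j)) l (x' l) i = c i := fun i hi => by
      rw [Function.update_of_ne (ne_of_mem_of_not_mem hi hl),
        Function.update_of_ne (ne_of_mem_of_not_mem hi hj)]
    refine ⟨⟨h1, ?_, fun i hi => (this i hi).trans (h2 i hi)⟩, h3, by simp,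
      fun i hi => (this i hi).trans (h4 i hi)⟩
    simp [Function.update_of_ne hjl.symm]
  · intro a ha
    simp only [Finset.mem_filter, Finset.mem_univ, true_and, Finset.forall_mem_insert] at ha
    obtain ⟨⟨-, h1, -⟩, -, h3, -⟩ := ha
    funext i
    by_cases e1 : i = l
    · simp [e1, h3]
    · by_cases e2 : i = j
      · simp [e2, h1, Function.update_of_ne hjl.symm]
      · simp [e1, e2]
  · intro c hc
    simp only [Finset.mem_filter, Finset.mem_univ, true_and] at hc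
    obtain ⟨⟨-, -, h1⟩, -, -, h3⟩ := hc
    funext i
    by_cases e1 : i = l
    · simp [e1, h3]
    · by_cases e2 : i = j
      · simp [e2, h1, Function.update_of_ne hjl.symm]
      · simp [e1, e2]
  · intro a ha
    simp only [Finset.mem_filter, Finset.mem_univ, true_and, Finset.forall_mem_insert] at ha
    obtain ⟨⟨-, h1, -⟩, -, h3, -⟩ := ha
    rw [mul_comm]
    congr 2
    · funext i
      by_cases e1 : i = l
      · simp [e1, mask, hjl]
      · by_cases e2 : i = j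
        · simp [e2, h1, mask, hj, hjl.symm]
        · simp [e1, e2, mask]
    · congr 1
      funext i
      by_cases e1 : i = l
      · simp [e1, h3, mask, hjl, hl]
      · by_cases e2 : i = j
        · simp [e2, mask, hjl.symm]
        · simp [e1, e2, mask]

lemma orth (o : α) (C : Finset ι) {j l : ι} (hj : j ∉ C) (hjl : l ≠ j)
    (ψ : (ι → α) → ℂ) : rt (Bm o C j ψ * (Bm o C l ψ)ᴴ) = 0 := by
  rw [rt_eq_sum]
  refine Finset.sum_eq_zero fun x _ => ?_
  rw [Matrix.mul_apply, Finset.sum_eq_zero fun c _ => ?_, Complex.zero_re]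
  simp only [conjTranspose_apply, Bm, of_apply, apply_ite star, star_zero, ite_zero_mul_ite_zero]
  refine if_neg fun h => ?_
  have : j ∈ insert l C := by rw [← h.2.1, h.1.1]; exact Finset.mem_insert_self _ _
  exact (Finset.mem_insert.1 this).elim hjl.symm hj

lemma hs_Bm (o : α) (C : Finset ι) {j : ι} (hj : j ∉ C) (ψ : (ι → α) → ℂ) :
    hs (Bm o C j ψ) ≤ (Fintype.card α - 1) ^ C.card * be o ψ C (insert j C) := by
  have h1 : 1 ≤ Fintype.card α := Fintype.card_pos_iff.2 ⟨o⟩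
  have key := sum_inj_le
    (s := Finset.univ.filter fun p : (ι → α) × (ι → α) =>
      spt o p.1 = insert j C ∧ (∀ i ∈ C, p.2 i = p.1 i) ∧ p.2 j = o)
    (t := (Finset.univ.filter fun w : ι → α => spt o w = C) ×ˢ Finset.univ.filter fun z : ι → α =>
      Disjoint (spt o z) C ∧ ¬Disjoint (spt o z) (insert j C))
    (fun p => (mask o Cᶜ p.1, Function.update (mask o C p.2) j (p.1 j))) ?_ ?_
    (F := fun q => ‖ψ q.2‖ ^ 2) fun _ => by positivity
  · rw [Finset.sum_product_right, Finset.sum_filter] at key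
    simp only [Finset.sum_const, card_spt, nsmul_eq_mul, ← Finset.mul_sum] at key
    rw [Finset.sum_filter, Nat.cast_pow, Nat.cast_sub h1, Nat.cast_one] at key
    refine le_trans (le_of_eq ?_) key
    rw [hs, Fintype.sum_prod_type]
    refine Finset.sum_congr rfl fun x _ => Finset.sum_congr rfl fun c _ => ?_
    simp only [Bm, of_apply]
    split_ifs <;> simp
  · intro p hp
    simp only [Finset.mem_filter, Finset.mem_univ, true_and, Finset.mem_product] at hp ⊢
    have hx : ∀ i, p.1 i ≠ o ↔ i ∈ insert j C := fun i => by rw [← hp.1, mem_spt]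
    refine ⟨?_, ?_, ?_⟩
    · ext i
      by_cases hi : i ∈ C <;> simp [mem_spt, mask, hi, hx]
    · refine Finset.disjoint_right.2 fun i hi => ?_
      simp [mem_spt, mask, hi, Function.update_of_ne (ne_of_mem_of_not_mem hi hj)]
    · refine Finset.not_disjoint_iff.2 ⟨j, ?_, Finset.mem_insert_self _ _⟩
      simp [mem_spt, hx]
  · intro p hp q hq h
    simp only [Finset.mem_filter, Finset.mem_univ, true_and, Prod.mk.injEq, funext_iff] at hp hq h
    have hx : ∀ i, i ∉ insert j C → p.1 i = o := fun i hi => by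
      rw [← hp.1, mem_spt, not_not] at hi; exact hi
    have hy : ∀ i, i ∉ insert j C → q.1 i = o := fun i hi => by
      rw [← hq.1, mem_spt, not_not] at hi; exact hi
    have hC : ∀ i ∈ C, p.1 i = q.1 i := fun i hi => by simpa [mask, hi] using h.1 i
    refine Prod.ext (funext fun i => ?_) (funext fun i => ?_)
    · by_cases hi : i ∈ C
      · exact hC i hi
      · by_cases e : i = j
        · simpa [e] using h.2 j
        · rw [hx i (by simp [hi, e]), hy i (by simp [hi, e])]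
    · by_cases hi : i ∈ C
      · rw [hp.2.1 i hi, hq.2.1 i hi, hC i hi]
      · by_cases e : i = j
        · rw [e, hp.2.2, hq.2.2]
        · simpa [mask, hi, e] using h.2 i

lemma sum_adj {M : Type} [AddCommMonoid M] (k : ℕ) (F : Finset ι → Finset ι → M) :
    ∑ T ∈ lv ι (k + 1), ∑ T' ∈ (lv ι (k + 1)).erase T, (if (T ∩ T').card = k then F T T' else 0) =
      ∑ C ∈ lv ι k, ∑ j ∈ Cᶜ, ∑ l ∈ Cᶜ.erase j, F (insert j C) (insert l C) := by
  simp only [← Finset.sum_filter, Finset.sum_sigma']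
  symm
  have hi : ∀ (C : Finset ι) (j l : ι), j ∉ C → l ≠ j → insert j C ∩ insert l C = C :=
    fun C j l hj hl => by
      rw [Finset.insert_inter_of_notMem (by simp [hj, hl.symm]),
        Finset.inter_eq_left.2 (Finset.subset_insert _ _)]
  have hj : ∀ (C : Finset ι) (j j' : ι), j ∉ C → insert j C = insert j' C → j = j' :=
    fun C j j' h1 h2 => (Finset.mem_insert.1 (h2 ▸ Finset.mem_insert_self j C)).resolve_right h1
  refine Finset.sum_bij (fun p _ => ⟨insert p.2.1 p.1, insert p.2.2 p.1⟩) ?_ ?_ ?_ fun _ _ => rfl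
  · rintro ⟨C, j, l⟩ hp
    simp only [lv, Finset.mem_sigma, Finset.mem_filter, Finset.mem_univ, true_and, Finset.mem_erase,
      Finset.mem_compl] at hp ⊢
    obtain ⟨h1, h2, h3, h4⟩ := hp
    exact ⟨by rw [Finset.card_insert_of_notMem h2, h1], ⟨fun h => h3 (hj C l j h4 h),
      by rw [Finset.card_insert_of_notMem h4, h1]⟩, by rw [hi C j l h2 h3, h1]⟩
  · rintro ⟨C, j, l⟩ hp ⟨C', j', l'⟩ hq h
    simp only [Finset.mem_sigma, Finset.mem_erase, Finset.mem_compl] at hp hq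
    simp only [Sigma.mk.injEq, heq_eq_eq] at h
    have : C = C' := by rw [← hi C j l hp.2.1 hp.2.2.1, h.1, h.2, hi C' j' l' hq.2.1 hq.2.2.1]
    subst this
    rw [hj C j j' hp.2.1 h.1, hj C l l' hp.2.2.2 h.2]
  · rintro ⟨T, T'⟩ hp
    simp only [lv, Finset.mem_sigma, Finset.mem_filter, Finset.mem_univ, true_and,
      Finset.mem_erase] at hp
    obtain ⟨h1, ⟨h2, h3⟩, h4⟩ := hp
    obtain ⟨j, a1, a2⟩ := Finset.exists_eq_insert_iff.2
      ⟨Finset.inter_subset_left (s₁ := T) (s₂ := T'), by rw [h4, h1]⟩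
    obtain ⟨l, b1, b2⟩ := Finset.exists_eq_insert_iff.2
      ⟨Finset.inter_subset_right (s₁ := T) (s₂ := T'), by rw [h4, h3]⟩
    refine ⟨⟨T ∩ T', j, l⟩, ?_, by simp only [a2, b2]⟩
    simp only [lv, Finset.mem_sigma, Finset.mem_filter, Finset.mem_univ, true_and, Finset.mem_erase,
      Finset.mem_compl]
    exact ⟨h4, a1, fun h => h2 (by rw [← b2, h, a2]), b1⟩

end R6

theorem t_R6 (hCRS : S_CRS) : S_R6 := by
  intro ι _ _
  refine ⟨(Fintype.card (Finset ι) : ℝ) ^ 2, pow_pos (by exact_mod_cast Fintype.card_pos) _, ?_⟩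
  intro α _ _ o k a ψ ha
  have hd : (1 : ℝ) ≤ Fintype.card α := by exact_mod_cast Fintype.card_pos_iff.2 ⟨o⟩
  have he : 0 ≤ eps o ψ := nv_nonneg _
  have e : ∀ T T' : Finset ι, (√(a T) * √(a T')) • ((Jc o T ψ)ᴴ * Jc o T' ψ) =
      (if (T ∩ T').card = k then (√(a T) * √(a T')) • ((Jc o T ψ)ᴴ * Jc o T' ψ) else 0) +
      if (T ∩ T').card = k then 0 else (√(a T) * √(a T')) • ((Jc o T ψ)ᴴ * Jc o T' ψ) :=
    fun T T' => by split_ifs <;> simp
  rw [Finset.sum_congr rfl fun T _ => Finset.sum_congr rfl fun T' _ => e T T']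
  simp only [Finset.sum_add_distrib]
  rw [R6.sum_adj]
  refine Up.add ?_ ?_
  · rw [mB, Finset.mul_sum]
    refine up_sum _ fun C hC => ?_
    have hk : C.card = k := (Finset.mem_filter.1 hC).2
    have hm : ∀ j ∈ Cᶜ, insert j C ∈ lv ι (k + 1) := fun j hj => Finset.mem_filter.2
      ⟨Finset.mem_univ _, by rw [Finset.card_insert_of_notMem (Finset.mem_compl.1 hj), hk]⟩
    have h := R6.up_off Cᶜ (fun j => √(a (insert j C)) • R6.Bm o C j ψ) (Fintype.card ι)
      (by exact_mod_cast Finset.card_le_univ _) fun j hj l hl => by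
        rw [conjTranspose_smul, Matrix.smul_mul, Matrix.mul_smul, rt_rsmul, rt_rsmul,
          R6.orth o C (Finset.mem_compl.1 hj) (Finset.mem_erase.1 hl).1, mul_zero, mul_zero]
    refine h.mono (le_of_eq (Finset.sum_congr rfl fun j hj => Finset.sum_congr rfl fun l hl => ?_)) ?_
    · rw [R6.cross o C (Finset.mem_compl.1 hj) (Finset.mem_compl.1 (Finset.mem_erase.1 hl).2)
        (Finset.mem_erase.1 hl).1, conjTranspose_smul, Matrix.smul_mul, Matrix.mul_smul, smul_smul,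
        star_trivial]
    · have h7 : (0 : ℝ) ≤ 1 - 1 / Fintype.card ι := by
        rw [sub_nonneg, one_div]
        exact Nat.cast_inv_le_one _
      rw [mul_assoc, Finset.mul_sum Cᶜ _ ((Fintype.card α - 1 : ℝ) ^ k)]
      refine mul_le_mul_of_nonneg_left (Finset.sum_le_sum fun j hj => ?_) h7
      rw [hs_rsmul, Real.sq_sqrt (ha _ (hm j hj)).1, mul_left_comm, ← hk]
      exact mul_le_mul_of_nonneg_left (R6.hs_Bm o C (Finset.mem_compl.1 hj) ψ) (ha _ (hm j hj)).1
  · have h0 : 0 ≤ eps o ψ * (Fintype.card α : ℝ) ^ k / Fintype.card α := by positivity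
    refine (up_sum (t := fun T => ∑ _T' ∈ (lv ι (k + 1)).erase T,
      eps o ψ * (Fintype.card α : ℝ) ^ k / Fintype.card α) _ fun T hT =>
        up_sum _ fun T' hT' => ?_).mono le_rfl ?_
    · split_ifs with h
      · exact (up_nonpos le_rfl).mono le_rfl h0
      obtain ⟨hne, hT'⟩ := Finset.mem_erase.1 hT'
      have c1 : T.card = k + 1 := (Finset.mem_filter.1 hT).2
      have c2 : T'.card = k + 1 := (Finset.mem_filter.1 hT').2
      have n1 : ¬T' ⊆ T := fun hs => hne (Finset.eq_of_subset_of_card_le hs (by omega))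
      have n2 : ¬T ⊆ T' := fun hs => hne (Finset.eq_of_subset_of_card_le hs (by omega)).symm
      have c3 : (T ∩ T').card < T.card := Finset.card_lt_card
        (Finset.inter_subset_left.ssubset_of_ne fun hs => n2 (Finset.inter_eq_left.1 hs))
      rw [(hCRS ι α o T T' ψ ψ).1 n1, (hCRS ι α o T T' (prp o ψ) ψ).2.1 n2]
      refine ((hCRS ι α o T T' (prp o ψ) (prp o ψ)).2.2.1.rsmul (c := √(a T) * √(a T'))
        (by positivity)).up.mono le_rfl ?_
      have s1 : √(a T) * √(a T') ≤ 1 :=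
        mul_le_one₀ (Real.sqrt_le_one.2 (ha T hT).2) (by positivity)
          (Real.sqrt_le_one.2 (ha T' hT').2)
      have s2 : √(nq o T (prp o ψ)) * √(nq o T' (prp o ψ)) ≤ eps o ψ := by
        rw [← Real.mul_self_sqrt he]
        exact mul_le_mul (Real.sqrt_le_sqrt (nq_le _ _ _)) (Real.sqrt_le_sqrt (nq_le _ _ _))
          (by positivity) (by positivity)
      have s3 : (Fintype.card α : ℝ) ^ (T ∩ T').card ≤ Fintype.card α ^ k / Fintype.card α := by
        rw [le_div_iff₀ (by linarith only [hd]), ← pow_succ]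
        exact pow_le_pow_right₀ hd (by omega)
      refine (mul_le_of_le_one_left (by positivity) s1).trans ?_
      rw [mul_div_assoc, mul_comm (eps o ψ)]
      exact mul_le_mul s3 s2 (by positivity) (by positivity)
    · rw [mul_assoc (_ ^ 2), mul_div_assoc (_ ^ 2), sq, mul_assoc]
      have c : ∀ (s : Finset (Finset ι)) (y : ℝ), 0 ≤ y →
          ∀ f : Finset ι → ℝ, (∀ T, f T ≤ y) → ∑ T ∈ s, f T ≤ Fintype.card (Finset ι) * y :=
        fun s y hy f hf => by
          refine (Finset.sum_le_card_nsmul s f y fun T _ => hf T).trans ?_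
          rw [nsmul_eq_mul]
          exact mul_le_mul_of_nonneg_right (by exact_mod_cast Finset.card_le_univ s) hy
      exact c _ _ (by positivity) _ fun T => c _ _ h0 _ fun _ => le_rfl

end Pool.Agent.MP_b746ed_mp.LD
end

section
set_option autoImplicit false
set_option linter.unusedSectionVars false
open scoped ComplexOrder MatrixOrder
open Matrix

namespace Pool.Agent.MP_b746ed_mp.LD
open KF
open H14 (trf dg)

namespace SOL

variable {ι α : Type} [Fintype ι] [DecidableEq ι] [Fintype α] [DecidableEq α] {o : α}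

lemma nv_le {f g : (ι → α) → ℂ} (h : ∀ x, ‖f x‖ ≤ ‖g x‖) : nv f ≤ nv g :=
  Finset.sum_le_sum fun x _ => pow_le_pow_left₀ (norm_nonneg _) (h x) 2

lemma prp_le {f g : (ι → α) → ℂ} (h : ∀ x, ‖f x‖ ≤ ‖g x‖) : √(nv (prp o f)) ≤ √(nv (prp o g)) :=
  Real.sqrt_le_sqrt (nv_le fun x => by
    simp only [prp]
    split_ifs
    exacts [le_rfl, h x])

lemma prp_le' (f : (ι → α) → ℂ) : √(nv (prp o f)) ≤ √(nv f) :=
  Real.sqrt_le_sqrt (by rw [nv_prp]; exact sub_le_self _ (sq_nonneg _))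

lemma prp_add (f g : (ι → α) → ℂ) :
    √(nv (prp o (f + g))) ≤ √(nv (prp o f)) + √(nv (prp o g)) := by
  have : prp o (f + g) = prp o f + prp o g := by
    funext x; simp only [prp, Pi.add_apply]; split_ifs <;> simp
  rw [this]
  exact sqrt_nv_add _ _

lemma prp_sum {ρ : Type} (s : Finset ρ) (f : ρ → (ι → α) → ℂ) :
    √(nv (prp o (∑ r ∈ s, f r))) ≤ ∑ r ∈ s, √(nv (prp o (f r))) := by
  have : prp o (∑ r ∈ s, f r) = ∑ r ∈ s, prp o (f r) := by
    funext x; simp only [prp, Finset.sum_apply]; split_ifs <;> simp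
  rw [this]
  exact sqrt_nv_sum _ _

lemma prp_rsmul {c : ℝ} (hc : 0 ≤ c) (f : (ι → α) → ℂ) :
    √(nv (prp o (c • f))) = c * √(nv (prp o f)) := by
  have : prp o (c • f) = c • prp o f := by
    funext x; simp only [prp, Pi.smul_apply]; split_ifs <;> simp
  rw [this, nv_rsmul, Real.sqrt_mul (sq_nonneg c), Real.sqrt_sq hc]

lemma emb_le (S : Finset ι) (ψ : (ι → α) → ℂ) (x : ι → α) : ‖emb o S ψ x‖ ≤ ‖ψ x‖ := by
  simp only [emb]
  split_ifs <;> simp

lemma nv_emb_sub (A S : Finset ι) (ψ : (ι → α) → ℂ) : nv (emb o A ψ - emb o S ψ) ≤ eps o ψ :=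
  nv_le fun x => by
    simp only [prp, emb, Pi.sub_apply]
    by_cases h : x = fun _ => o
    · simp [h]
    · rw [if_neg h]
      split_ifs <;> simp

lemma nv_sub_emb (S : Finset ι) (ψ : (ι → α) → ℂ) : nv (ψ - emb o S ψ) ≤ eps o ψ := by
  have h : emb o ∅ ψ = ψ := by funext a; simp [emb]
  simpa only [h] using nv_emb_sub (o := o) ∅ S ψ

lemma sub_e0 {ψ : (ι → α) → ℂ} (h : Fr1 o ψ) : √(nv (ψ - e0 o)) ≤ 2 * √(eps o ψ) := by
  obtain ⟨h1, h2, -⟩ := h
  have e1 := nv_prp o ψ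
  have e2 := nv_prp o (ψ - e0 o)
  have e3 : prp o (ψ - e0 o) = prp o ψ := by
    funext x; by_cases hx : x = fun _ => o <;> simp [prp, e0, hx]
  obtain ⟨p, hp⟩ : ∃ p : ℝ, (ψ fun _ => o) = p := ⟨_, (Complex.eq_re_of_ofReal_le h2)⟩
  have e4 : (ψ - e0 o : (ι → α) → ℂ) (fun _ => o) = ((p - 1 : ℝ) : ℂ) := by simp [e0, hp]
  rw [hp] at h2
  have p0 : 0 ≤ p := by exact_mod_cast h2
  rw [e3, e4, Complex.norm_real, Real.norm_eq_abs, sq_abs] at e2
  rw [hp, h1, Complex.norm_real, Real.norm_eq_abs, sq_abs] at e1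
  have e5 := nv_nonneg (prp o ψ)
  have p1 : p ≤ 1 := by nlinarith only [e1, e5]
  refine Real.sqrt_le_iff.2 ⟨by positivity, ?_⟩
  rw [mul_pow, eps, Real.sq_sqrt e5]
  linarith only [mul_nonneg p0 (sub_nonneg.2 p1), e1, e2, e5]

lemma XT_prp {ψ : (ι → α) → ℂ} (h : Fr1 o ψ) (S : Finset ι) (f : (ι → α) → ℂ) :
    √(nv (prp o (XT o S ψ *ᵥ f))) ≤ √(nv (prp o f)) + 4 * √(eps o ψ) * √(nv f) := by
  have e1 : XT o S ψ *ᵥ f = XT o S (e0 o) *ᵥ f + (XT o S ψ - XT o S (e0 o)) *ᵥ f := by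
    rw [← add_mulVec, add_sub_cancel]
  have e2 : XT o S (e0 o) = ∑ A ∈ S.powerset, PA o A := by
    rw [← xop_e0, ← XT_emb, emb_e0]
  have h1 := (nuc_XT_sub o S ψ (e0 o)).opb.sqrt_le (by positivity) f
  rw [h.1, nv_e0, Real.sqrt_one] at h1
  rw [e1]
  refine (prp_add _ _).trans (add_le_add (prp_le fun x => ?_) ((prp_le' _).trans (h1.trans ?_)))
  · simp only [e2, sum_mulVec, Finset.sum_apply, PA, mulVec_diagonal, ite_mul, one_mul, zero_mul,
      Finset.sum_ite_eq]
    split_ifs <;> simp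
  · exact mul_le_mul_of_nonneg_right (by linarith [sub_e0 h]) (Real.sqrt_nonneg _)

lemma ip_le {T : Finset ι} (ψ f : (ι → α) → ℂ) :
    ‖ip f (emb o T ψ)‖ ^ 2 ≤ (ip f (xop o T ψ ψ *ᵥ f)).re := by
  have e : col o T ψ (fun _ => o) = emb o T ψ := by
    funext a
    simp only [col, emb]
    split_ifs with h
    exacts [by rw [mask_of_mem o T h], rfl]
  have h : op (emb o T ψ) (emb o T ψ) ≤ xop o T ψ ψ := by
    rw [xop_eq_sum, ← e]
    exact Finset.single_le_sum (f := fun y => op (col o T ψ y) (col o T ψ y))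
      (fun _ _ => op_nonneg _) (by simp [mem_cfg])
  have := (le_iff_ip (op_conjTranspose _ _) (xop_conj o T ψ ψ)).1 h f
  rwa [op_mulVec, ip_smul_right, ← star_ip f, Complex.star_def, Complex.conj_mul',
    ← Complex.ofReal_pow, Complex.ofReal_re] at this

variable {k : ℕ} {a : Finset ι → ℝ} {ψ : (ι → α) → ℂ} {δ : ℝ}

lemma a_mem (h : Reg o k a ψ δ) (S : Finset ι) : 0 ≤ a S ∧ a S ≤ 1 := by
  obtain ⟨-, hδ, ⟨h1, h2, h3, h4⟩, -⟩ := h
  have h0 : ∀ S : Finset ι, 0 ≤ a S := fun S => by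
    rcases lt_trichotomy S.card k with h | h | h
    · exact (h1 S h).ge
    · rw [h2 S h]; exact zero_le_one
    · exact (Nat.succ_le_of_lt h).eq_or_lt.elim (fun e => (h3 S e.symm).1) fun e => (h4 S e).1
  refine ⟨h0 S, ?_⟩
  rcases lt_trichotomy S.card k with h | h | h
  · rw [h1 S h]; exact zero_le_one
  · exact (h2 S h).le
  · refine (Nat.succ_le_of_lt h).eq_or_lt.elim (fun e => le_trans ?_ (h3 S e.symm).2)
      fun e => (h4 S e).2.trans hδ
    exact Finset.single_le_sum (f := a) (fun S _ => h0 S) (by simp)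

lemma nuc_low (h : Reg o k a ψ δ) (l : Finset ι × Finset ι) : Nuc o l.1 (lowZ o k a ψ l) δ := by
  refine ((nuc_XT o l.1 _).rsmul _).mono ?_
  obtain ⟨a0, a1⟩ := a_mem h l.2
  obtain ⟨d0, d1, ⟨-, -, -, h4⟩, h5, h6, -⟩ := h
  have h7 : eps o ψ ≤ δ := h6.trans (by nlinarith only [d0, d1])
  have h8 : ∀ x, 0 ≤ x → x ≤ eps o ψ → a l.2 * x ≤ δ := fun x x0 hx =>
    (mul_le_of_le_one_left x0 a1).trans (hx.trans h7)
  rw [abs_of_nonneg a0, lowv]
  split_ifs with h1 h2 h3
  · exact h8 _ (nv_nonneg _) (nv_sub_emb _ _)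
  · rw [h5.1, mul_one]; exact (h4 _ (not_le.1 h2)).2
  · exact h8 _ (nv_nonneg _) (nv_emb_sub _ _ _)
  · rw [nv_zero, mul_zero]; exact d0.le

lemma opb_low (h : Reg o k a ψ δ) (s : Finset (Finset ι × Finset ι)) :
    Opb (∑ l ∈ s, lowZ o k a ψ l) (Fintype.card (Finset ι) ^ 2 * δ) := by
  refine (opb_sum s (fun l _ => (nuc_low h l).opb) fun _ _ => h.1.le).mono
    (Finset.sum_nonneg fun _ _ => h.1.le) ?_
  rw [Finset.sum_const, nsmul_eq_mul]
  refine mul_le_mul_of_nonneg_right ?_ h.1.le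
  have := s.card_le_univ
  rw [Fintype.card_prod, ← sq] at this
  exact_mod_cast this

lemma sum_low {T : Finset ι} (hT : T.card = k + 1) : ∑ l ∈ Sl T, lowZ o k a ψ l =
    a T • XT o T (ψ - emb o T ψ) + ∑ S with T ⊂ S, a S • XT o S ψ := by
  have e : ∀ A : Finset ι, T ⊆ A → ∑ S, lowZ o k a ψ (A, S) = lowZ o k a ψ (A, A) := fun A hA => by
    refine Finset.sum_eq_single A (fun S _ hS => ?_) (by simp)
    rw [lowZ, lowv, if_neg hS.symm, if_neg, XT_zero, smul_zero]
    exact fun h => hS (Finset.eq_of_subset_of_card_le h.1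
      (h.2.trans (hT.ge.trans (Finset.card_le_card hA)))).symm
  have e2 : (Finset.univ.filter fun S : Finset ι => T ⊆ S) =
      insert T (Finset.univ.filter fun S : Finset ι => T ⊂ S) := by
    ext S
    simp only [Finset.mem_filter, Finset.mem_univ, true_and, Finset.mem_insert]
    exact ⟨fun h => h.eq_or_ssubset.imp_left Eq.symm, fun h => h.elim (· ▸ subset_rfl) (·.subset)⟩
  have e3 : ∑ l ∈ Sl T, lowZ o k a ψ l = ∑ A with T ⊆ A, lowZ o k a ψ (A, A) := by
    rw [Sl, Finset.sum_filter, Fintype.sum_prod_type, Finset.sum_filter]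
    refine Finset.sum_congr rfl fun A _ => ?_
    by_cases hA : T ⊆ A
    · simp only [hA, if_true, e A hA]
    · simp only [hA, if_false, Finset.sum_const_zero]
  rw [e3, e2, Finset.sum_insert (by simp), lowZ, lowv, if_pos rfl, if_pos hT.le]
  refine congrArg _ (Finset.sum_congr rfl fun S hS => ?_)
  rw [lowZ, lowv, if_pos rfl, if_neg (not_le.2 (hT ▸ Finset.card_lt_card (by simpa using hS)))]

lemma top_le (h : Reg o k a ψ δ) {T : Finset ι} (hT : T.card = k + 1) :
    a T • xop o T ψ ψ ≤ 1 - ∑ l ∈ Sl T, lowZ o k a ψ l := by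
  have h1 := (h.2.2.1.2.2.1 T hT).2
  have e2 : (Finset.univ.filter fun S : Finset ι => T ⊆ S) =
      insert T (Finset.univ.filter fun S : Finset ι => T ⊂ S) := by
    ext S
    simp only [Finset.mem_filter, Finset.mem_univ, true_and, Finset.mem_insert]
    exact ⟨fun h => h.eq_or_ssubset.imp_left Eq.symm, fun h => h.elim (· ▸ subset_rfl) (·.subset)⟩
  have h2 : ∀ S, a S • XT o S ψ ≤ a S • (1 : Matrix (ι → α) (ι → α) ℂ) := fun S =>
    rsmul_le (by simpa only [h.2.2.2.1.1, one_smul] using XT_le o S ψ) (a_mem h S).1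
  rw [e2, Finset.sum_insert (by simp)] at h1
  rw [le_sub_iff_add_le, sum_low hT, ← add_assoc, ← smul_add, ← XT_split]
  refine (add_le_add (h2 T) (Finset.sum_le_sum fun S _ => h2 S)).trans ?_
  rw [← Finset.sum_smul, ← add_smul]
  simpa only [one_smul] using rsmul_le_rsmul (A := (1 : Matrix (ι → α) (ι → α) ℂ)) zero_le_one h1

lemma sq_le {x c : ℝ} (h : √x ≤ c) : x ≤ c ^ 2 := (Real.sqrt_le_iff.1 h).2

lemma arith {m δ ε r s : ℝ} (m1 : 1 ≤ m) (d0 : 0 < δ) (d1 : δ ≤ 1) (hm : m * δ ≤ 1 / 2)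
    (ε0 : 0 ≤ ε) (e2 : ε ≤ δ) (r0 : 0 ≤ r) (h1 : r ≤ ε + s)
    (h2 : s ≤ ε ^ 2 * 2 + m * (δ * (r + 8 * ε))) :
    (r ≤ 14 * ε ∧ (14 * ε) ^ 2 ≤ 600 * m ^ 2 * ε ^ 2) ∧ (s ≤ 24 * (m * (δ * ε)) ∧
      (24 * (m * (δ * ε))) ^ 2 ≤ 600 * m ^ 2 * δ ^ 2 * ε ^ 2) ∧
      δ * (r + 8 * ε) ≤ 24 * (m * (δ * ε)) := by
  have i1 : ε ^ 2 ≤ δ * ε := by nlinarith only [ε0, e2]
  have i2 : δ * ε ≤ ε := mul_le_of_le_one_left ε0 d1
  have i3 : m * (δ * (r + 8 * ε)) ≤ 1 / 2 * (r + 8 * ε) := by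
    rw [← mul_assoc]
    exact mul_le_mul_of_nonneg_right hm (by positivity)
  have r1 : r ≤ 14 * ε := by linarith only [h1, h2, i1, i2, i3]
  have r2 : δ * (r + 8 * ε) ≤ 22 * (δ * ε) := by
    linarith only [mul_le_mul_of_nonneg_left r1 d0.le]
  have i4 : 0 ≤ δ * ε := by positivity
  have i5 : δ * ε ≤ m * (δ * ε) := le_mul_of_one_le_left i4 m1
  refine ⟨⟨r1, ?_⟩, ⟨?_, ?_⟩, by linarith only [r2, i4, i5]⟩
  · linarith only [mul_le_mul_of_nonneg_right (one_le_pow₀ m1 (n := 2)) (sq_nonneg ε), sq_nonneg ε]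
  · linarith only [mul_le_mul_of_nonneg_left r2 (zero_le_one.trans m1), h2, i1, i5]
  · linarith only [sq_nonneg (m * (δ * ε))]

lemma re_le (h : Reg o k a ψ δ) {T : Finset ι} (hT : T.card = k + 1) {g : (ι → α) → ℂ}
    (g2 : (1 - ∑ l ∈ Sl T, lowZ o k a ψ l) *ᵥ g = √(a T) • emb o T ψ) :
    (ip g (√(a T) • emb o T ψ)).re ≤ 1 := by
  have a0 := (a_mem h T).1
  have hc := herm_of_nonneg (Finset.sum_nonneg (s := Sl T) (f := lowZ o k a ψ)
    fun l _ => rsmul_nonneg (XT_nonneg _ _ _) (a_mem h l.2).1)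
  have z := (le_iff_ip (herm_of_nonneg (rsmul_nonneg (xop_nonneg o T ψ) a0))
    (by rw [conjTranspose_sub, conjTranspose_one, hc])).1 (top_le h hT) g
  have z2 := mul_le_mul_of_nonneg_left (ip_le (o := o) (T := T) ψ g) a0
  have z3 := Complex.abs_re_le_norm (ip g (√(a T) • emb o T ψ))
  rw [g2, smul_mulVec, ← Complex.coe_smul, ip_smul_right, Complex.re_ofReal_mul] at z
  have z4 : ‖ip g (√(a T) • emb o T ψ)‖ ^ 2 = a T * ‖ip g (emb o T ψ)‖ ^ 2 := by
    rw [← Complex.coe_smul, ip_smul_right, norm_mul, mul_pow, Complex.norm_real, Real.norm_eq_abs,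
      sq_abs, Real.sq_sqrt a0]
  have z5 := ((sq_le_sq' (neg_le_of_abs_le z3) (le_of_abs_le z3)).trans (z4.le.trans z2)).trans z
  nlinarith only [z5]

lemma prp_bd (h : Reg o k a ψ δ) {T : Finset ι} (hT : T.card = k + 1) {g : (ι → α) → ℂ} {m : ℝ}
    (hm : m = Fintype.card (Finset ι)) (m1 : 1 ≤ m) (hmd : m * δ ≤ 1 / 2)
    (g2 : (1 - ∑ l ∈ Sl T, lowZ o k a ψ l) *ᵥ g = √(a T) • emb o T ψ) (g3 : √(nv g) ≤ 2) :
    nv (prp o g) ≤ 600 * m ^ 2 * eps o ψ ∧
    nv (prp o (g - √(a T) • emb o T ψ)) ≤ 600 * m ^ 2 * δ ^ 2 * eps o ψ ∧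
    ∀ S, T ⊂ S → nv (prp o ((a S • XT o S ψ) *ᵥ g)) ≤ 600 * m ^ 2 * δ ^ 2 * eps o ψ := by
  obtain ⟨a0, a1⟩ := a_mem h T
  have d0 := h.1
  have e0 : 0 ≤ eps o ψ := nv_nonneg _
  have e2 : √(eps o ψ) ≤ δ := Real.sqrt_le_iff.2 ⟨d0.le, h.2.2.2.2.1⟩
  have e3 : √(nv (prp o (√(a T) • emb o T ψ))) ≤ √(eps o ψ) := by
    rw [prp_rsmul (Real.sqrt_nonneg _)]
    exact (mul_le_of_le_one_left (Real.sqrt_nonneg _) (Real.sqrt_le_one.2 a1)).trans
      (prp_le (emb_le T ψ))
  have e5 : √(nv (prp o ((a T • XT o T (ψ - emb o T ψ)) *ᵥ g))) ≤ √(eps o ψ) ^ 2 * 2 := by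
    rw [smul_mulVec, prp_rsmul a0, Real.sq_sqrt e0]
    refine (mul_le_of_le_one_left (Real.sqrt_nonneg _) a1).trans ((prp_le' _).trans
      (((nuc_XT o T _).opb.sqrt_le (nv_nonneg _) g).trans ?_))
    exact mul_le_mul (nv_sub_emb _ _) g3 (Real.sqrt_nonneg _) e0
  have r0 := Real.sqrt_nonneg (nv (prp o g))
  have ε0 := Real.sqrt_nonneg (eps o ψ)
  have e6 : ∀ S, T ⊂ S → √(nv (prp o ((a S • XT o S ψ) *ᵥ g))) ≤
      δ * (√(nv (prp o g)) + 8 * √(eps o ψ)) := fun S hS => by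
    rw [smul_mulVec, prp_rsmul (a_mem h S).1]
    refine mul_le_mul (h.2.2.1.2.2.2 S (hT ▸ Finset.card_lt_card hS)).2
      ((XT_prp h.2.2.2.1 S g).trans ?_) (Real.sqrt_nonneg _) d0.le
    linarith only [mul_le_mul_of_nonneg_left g3 ε0]
  have e7 : g - √(a T) • emb o T ψ = (∑ l ∈ Sl T, lowZ o k a ψ l) *ᵥ g := by
    rw [← g2, sub_mulVec, one_mulVec, sub_sub_cancel]
  have e8 : √(nv (prp o (g - √(a T) • emb o T ψ))) ≤
      √(eps o ψ) ^ 2 * 2 + m * (δ * (√(nv (prp o g)) + 8 * √(eps o ψ))) := by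
    rw [e7, sum_low hT, add_mulVec, sum_mulVec]
    refine (prp_add _ _).trans (add_le_add e5 ((prp_sum _ _).trans ((Finset.sum_le_card_nsmul _ _ _
      fun S hS => e6 S (Finset.mem_filter.1 hS).2).trans ?_)))
    rw [nsmul_eq_mul, hm]
    exact mul_le_mul_of_nonneg_right (Nat.cast_le.2 (Finset.card_le_univ _)) (by positivity)
  have e9 := prp_add (o := o) (√(a T) • emb o T ψ) (g - √(a T) • emb o T ψ)
  rw [add_sub_cancel] at e9
  obtain ⟨⟨r1, r2⟩, ⟨r3, r4⟩, r5⟩ := arith m1 d0 h.2.1 hmd ε0 e2 r0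
    (e9.trans (add_le_add_left e3 _)) e8
  rw [Real.sq_sqrt e0] at r2 r4
  exact ⟨(sq_le r1).trans r2, (sq_le r3).trans r4, fun S hS => (sq_le ((e6 S hS).trans r5)).trans r4⟩

end SOL

open SOL in
theorem t_SOL : S_SOL := by
  intro ι _ _
  obtain ⟨m, hm⟩ : ∃ m : ℝ, m = Fintype.card (Finset ι) := ⟨_, rfl⟩
  have m1 : 1 ≤ m := by rw [hm]; exact_mod_cast Fintype.card_pos
  have m2 : m ≤ m ^ 2 := by nlinarith only [m1]
  refine ⟨600 * m ^ 2, by linarith, fun α _ _ o k a ψ δ h hK => ?_⟩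
  have d0 := h.1
  have hb0 : 0 ≤ m ^ 2 * δ := by positivity
  have hb1 : m ^ 2 * δ ≤ 1 / 2 := by linarith
  have hop := fun s => hm ▸ opb_low h s
  refine ⟨((hop _).le hb0 (herm_of_nonneg (Finset.sum_nonneg fun l _ => rsmul_nonneg
    (XT_nonneg _ _ _) (a_mem h l.2).1))).trans
    (rsmul_le_rsmul (A := (1 : Matrix (ι → α) (ι → α) ℂ)) zero_le_one (by linarith only [hb0])), ?_⟩
  choose f f1 f2 f3 f4 using fun T : Finset ι => Lo.solve (lo_sum (Sl T) fun l hl =>
    (nuc_low h l).lo (Finset.mem_filter.1 hl).2) hb0 hb1 (hop _) (√(a T) • ψ)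
  refine ⟨f, fun T hT => ?_⟩
  replace hT : T.card = k + 1 := (Finset.mem_filter.1 hT).2
  obtain ⟨a0, a1⟩ := a_mem h T
  have q1 : √(nq o T (√(a T) • ψ)) ≤ 1 := Real.sqrt_le_one.2 (by
    rw [nq_rsmul, Real.sq_sqrt a0]
    exact mul_le_one₀ a1 (nq_nonneg _ _ _) ((nq_le _ _ _).trans h.2.2.2.1.1.le))
  have g2 := f2 T
  have g3 : √(nv (f T)) ≤ 2 := by linarith only [f3 T, q1]
  have g5 : √(nv (f T)) ≤ 1 + 2 * (m ^ 2 * δ) := by
    have := sqrt_nv_add (emb o T (√(a T) • ψ)) (f T - emb o T (√(a T) • ψ))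
    rw [add_sub_cancel] at this
    exact this.trans (add_le_add q1 ((f4 T).trans (mul_le_of_le_one_right (by positivity) q1)))
  rw [emb_rsmul] at g2
  refine ⟨f1 T, g2, re_le h hT g2, (sq_le g3).trans (by norm_num), ?_, prp_bd h hT hm m1
    ((mul_le_mul_of_nonneg_right m2 d0.le).trans hb1) g2 g3⟩
  linarith only [nv_prp o (f T), nv_nonneg (prp o (f T)), sq_le g5, hb0,
    mul_le_mul_of_nonneg_left hb1 hb0]

end Pool.Agent.MP_b746ed_mp.LD
end

section
set_option autoImplicit false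
set_option linter.unusedSectionVars false
open scoped ComplexOrder MatrixOrder
open Matrix

namespace Pool.Agent.MP_b746ed_mp.LD
open KF
open H14 (trf dg)

namespace NS
variable {ι α : Type} [Fintype ι] [DecidableEq ι] [Fintype α] [DecidableEq α]

lemma lowv_le (o : α) (k : ℕ) (ψ : (ι → α) → ℂ) (A S : Finset ι) (x : ι → α) :
    ‖lowv o k ψ A S x‖ ^ 2 ≤ ‖ψ x‖ ^ 2 := by
  have h0 : (0 : ℝ) ≤ ‖ψ x‖ ^ 2 := by positivity
  unfold lowv
  split_ifs
  · simp only [Pi.sub_apply, emb]; split_ifs <;> simp only [sub_self, norm_zero, ne_eq, OfNat.ofNat_ne_zero, not_false_eq_true, zero_pow, norm_nonneg, pow_succ_nonneg, sub_zero, Std.le_refl]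
  · exact le_rfl
  · simp only [Pi.sub_apply, emb]; split_ifs <;> simp only [sub_self, norm_zero, ne_eq, OfNat.ofNat_ne_zero, not_false_eq_true, zero_pow, norm_nonneg, pow_succ_nonneg, sub_zero, Std.le_refl, zero_sub, norm_neg]
  · simp

lemma eps_mono (o : α) {φ ψ : (ι → α) → ℂ} (h : ∀ x, ‖φ x‖ ^ 2 ≤ ‖ψ x‖ ^ 2) :
    eps o φ ≤ eps o ψ :=
  Finset.sum_le_sum fun x _ => by unfold prp; split_ifs; exacts [le_rfl, h x]

lemma wt_mono (o : α) {φ ψ : (ι → α) → ℂ} (h : ∀ x, ‖φ x‖ ^ 2 ≤ ‖ψ x‖ ^ 2)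
    (Q : Finset ι → Prop) [DecidablePred Q] : wt o φ Q ≤ wt o ψ Q :=
  Finset.sum_le_sum fun x _ => by split_ifs; exacts [h x, le_rfl]

lemma wt_nonneg (o : α) (ψ : (ι → α) → ℂ) (Q : Finset ι → Prop) [DecidablePred Q] :
    0 ≤ wt o ψ Q := Finset.sum_nonneg fun x _ => by split_ifs <;> positivity

lemma wt_le_eps (o : α) (ψ : (ι → α) → ℂ) (A : Finset ι) (j : ι) :
    wt o ψ (fun B => B \ A = {j}) ≤ eps o ψ := by
  refine Finset.sum_le_sum fun x _ => ?_
  by_cases h : spt o x \ A = {j}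
  · have hx : ¬x = fun _ => o := by
      rintro rfl
      have : j ∈ spt o (fun _ : ι => o) \ A := h ▸ Finset.mem_singleton_self j
      exact (mem_spt o).1 (Finset.mem_sdiff.1 this).1 rfl
    simp [h, prp, hx]
  · simp only [h, if_false]; positivity

lemma wt_low (o : α) (k : ℕ) {ψ : (ι → α) → ℂ} (h1 : ∀ x, (spt o x).card = 1 → ψ x = 0)
    {A S : Finset ι} (hAS : A ≠ S) (j : ι) :
    wt o (lowv o k ψ A S) (fun B => B \ A = {j}) = 0 := by
  refine Finset.sum_eq_zero fun x _ => ?_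
  split_ifs with h
  · unfold lowv
    rw [if_neg hAS]
    split_ifs with h2
    · by_cases hA : ∀ i ∈ A, x i = o
      · have : spt o x = {j} := by
          rw [← h]; ext i
          simp only [Finset.mem_sdiff, iff_self_and]
          exact fun hi hiA => (mem_spt o).1 hi (hA i hiA)
        have h0 : ψ x = 0 := h1 x (by rw [this, Finset.card_singleton])
        simp only [Pi.sub_apply, emb, h0, ite_self, sub_self, norm_zero, ne_eq, OfNat.ofNat_ne_zero, not_false_eq_true, zero_pow]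
      · have hS : ¬∀ i ∈ S, x i = o := fun hS => hA fun i hi => hS i (h2.1 hi)
        simp only [Pi.sub_apply, emb, if_neg hA, if_neg hS]; simp
    · simp
  · rfl

lemma l1 (o : α) (k : ℕ) (ψ : (ι → α) → ℂ) (A : Finset ι) :
    ∑ T ∈ lv ι (k + 1), (if (T \ A).card = 1 then wt o ψ (fun B => B \ A = T \ A) else 0) ≤
      ∑ C ∈ lv ι k, if C ⊆ A then gg o ψ A else 0 := by
  rw [← Finset.sum_filter, ← Finset.sum_filter]
  unfold gg wt
  rw [Finset.sum_comm, Finset.sum_comm (s := (lv ι k).filter _)]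
  refine Finset.sum_le_sum fun x _ => ?_
  rw [← Finset.sum_filter]
  have := sum_inj_le (s := ((lv ι (k + 1)).filter fun T => (T \ A).card = 1).filter
      fun T => spt o x \ A = T \ A) (t := (lv ι k).filter (· ⊆ A)) (fun T => T ∩ A)
    (F := fun _ => if (spt o x \ A).card = 1 then ‖ψ x‖ ^ 2 else 0) ?_ ?_ ?_
  · refine le_trans (le_of_eq (Finset.sum_congr rfl fun T hT => ?_)) this
    simp only [Finset.mem_filter] at hT
    rw [hT.2, if_pos hT.1.2]
  · intro T hT
    simp only [Finset.mem_filter, lv, Finset.mem_univ, true_and] at hT ⊢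
    have := Finset.card_sdiff_add_card_inter T A
    exact ⟨by omega, Finset.inter_subset_right⟩
  · intro T hT T' hT' h
    simp only [Finset.mem_filter] at hT hT'
    rw [← Finset.sdiff_union_inter T A, ← Finset.sdiff_union_inter T' A, ← hT.2, ← hT'.2, h]
  · intro _; split_ifs <;> positivity

lemma l2 {k : ℕ} {C : Finset ι} (hC : C.card = k) (G : Finset ι → ℝ) (hG : ∀ A, 0 ≤ G A) :
    ∑ A, (if C ⊆ A ∧ A.card ≤ k + 1 then G A else 0) ≤ G C + ∑ j ∈ Cᶜ, G (insert j C) := by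
  rw [← Finset.sum_filter, ← Finset.sum_image (s := Cᶜ) (g := fun j => insert j C) (f := G)
    (fun i hi j _ h => by
      have h' : insert i C = insert j C := h
      have : i ∈ insert j C := h' ▸ Finset.mem_insert_self i C
      exact (Finset.mem_insert.1 this).resolve_right (Finset.mem_compl.1 hi)),
    ← Finset.sum_insert (fun h => by
      obtain ⟨j, hj, h⟩ := Finset.mem_image.1 h
      exact Finset.mem_compl.1 hj (h ▸ Finset.mem_insert_self j C))]
  refine Finset.sum_le_sum_of_subset_of_nonneg (fun A hA => ?_) fun A _ _ => hG A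
  obtain ⟨h1, h2⟩ := (Finset.mem_filter.1 hA).2
  rcases h1.eq_or_ssubset with rfl | h
  · exact Finset.mem_insert_self _ _
  · obtain ⟨j, hj, hjC⟩ := Finset.exists_of_ssubset h
    refine Finset.mem_insert_of_mem (Finset.mem_image.2 ⟨j, Finset.mem_compl.2 hjC, ?_⟩)
    refine Finset.eq_of_subset_of_card_le (Finset.insert_subset hj h1) ?_
    rw [Finset.card_insert_of_notMem hjC]; omega

lemma a_nonneg {k : ℕ} {δ : ℝ} {a : Finset ι → ℝ} (h : Adm k 0 δ a) (S : Finset ι) : 0 ≤ a S := by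
  rcases lt_trichotomy S.card k with h1 | h1 | h1
  · exact (h.1 S h1).ge
  · rw [h.2.1 S h1]; exact zero_le_one
  · rcases (Nat.succ_le_of_lt h1).eq_or_lt with h2 | h2
    · exact (h.2.2.1 S h2.symm).1
    · exact (h.2.2.2 S h2).1

lemma a_le {k : ℕ} {δ : ℝ} {a : Finset ι → ℝ} (h : Adm k 0 δ a) (hδ : δ ≤ 1) (S : Finset ι) :
    a S ≤ 1 := by
  rcases lt_trichotomy S.card k with h1 | h1 | h1
  · rw [h.1 S h1]; exact zero_le_one
  · exact (h.2.1 S h1).le
  · rcases (Nat.succ_le_of_lt h1).eq_or_lt with h2 | h2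
    · exact le_trans (Finset.single_le_sum (f := a) (fun S _ => a_nonneg h S)
        (Finset.mem_filter.2 ⟨Finset.mem_univ _, Finset.Subset.refl S⟩)) (h.2.2.1 S h2.symm).2
    · exact (h.2.2.2 S h2).2.trans hδ

/-- the main term of a letter -/
noncomputable def mn (o : α) (k : ℕ) (a : Finset ι → ℝ) (ψ : (ι → α) → ℂ) (T A : Finset ι) : ℝ :=
  (if A.card ≤ k + 1 then a A else 0) *
    if (T \ A).card = 1 then wt o ψ (fun B => B \ A = T \ A) else 0

lemma mn_nonneg (o : α) {k : ℕ} {δ : ℝ} {a : Finset ι → ℝ} (h : Adm k 0 δ a)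
    (ψ : (ι → α) → ℂ) (T A : Finset ι) : 0 ≤ mn o k a ψ T A :=
  mul_nonneg (by split_ifs; exacts [a_nonneg h A, le_rfl])
    (by split_ifs; exacts [wt_nonneg _ _ _, le_rfl])

lemma sum_mn (o : α) {k : ℕ} {δ : ℝ} {a : Finset ι → ℝ} (h : Adm k 0 δ a) (ψ : (ι → α) → ℂ) :
    ∑ T ∈ lv ι (k + 1), ∑ A, mn o k a ψ T A ≤ mG o k a ψ := by
  rw [Finset.sum_comm]
  calc _ ≤ ∑ A, (if A.card ≤ k + 1 then a A else 0) *
          ∑ C ∈ lv ι k, if C ⊆ A then gg o ψ A else 0 := by
        refine Finset.sum_le_sum fun A _ => ?_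
        unfold mn
        rw [← Finset.mul_sum]
        exact mul_le_mul_of_nonneg_left (l1 o k ψ A) (by split_ifs; exacts [a_nonneg h A, le_rfl])
    _ = ∑ C ∈ lv ι k, ∑ A, if C ⊆ A ∧ A.card ≤ k + 1 then a A * gg o ψ A else 0 := by
        rw [Finset.sum_comm]
        refine Finset.sum_congr rfl fun A _ => ?_
        rw [Finset.mul_sum]
        refine Finset.sum_congr rfl fun C _ => ?_
        by_cases h1 : C ⊆ A <;> by_cases h2 : A.card ≤ k + 1 <;> simp [h1, h2]
    _ ≤ _ := by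
        refine Finset.sum_le_sum fun C hC => ?_
        have hC : C.card = k := (Finset.mem_filter.1 hC).2
        have := l2 hC (fun A => a A * gg o ψ A) fun A =>
          mul_nonneg (a_nonneg h A) (wt_nonneg _ _ _)
        rwa [h.2.1 C hC, one_mul] at this

lemma letter (hRA : S_RA) {K : ℝ} (hK : 1 ≤ K) {o : α} {k : ℕ} {a : Finset ι → ℝ}
    {ψ u : (ι → α) → ℂ} {δ : ℝ} (hR : Reg o k a ψ δ) {T : Finset ι} (hT : T.card = k + 1)
    (h4 : nv u ≤ 4) (ho : ‖u fun _ => o‖ ^ 2 ≤ 1 + K * δ) (hp : nv (prp o u) ≤ K * eps o ψ)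
    {A : Finset ι} (S : Finset ι) (hA : ¬T ⊆ A) :
    a S * rt ((Jc o T u)ᴴ * XT o A (lowv o k ψ A S) * Jc o T u) ≤
      (Fintype.card α - 1) ^ k * (if S = A then mn o k a ψ T A else 0) +
        (4 + 4 * K) * δ * eps o ψ * Fintype.card α ^ k := by
  obtain ⟨hδ, hδ1, hadm, hF, he, hd⟩ := hR
  set d : ℝ := (Fintype.card α : ℝ)
  set ε := eps o ψ
  have hε : 0 ≤ ε := nv_nonneg _
  have hδ2 : δ ^ 2 ≤ δ := by nlinarith only [hδ, hδ1]
  have hd0 : 0 ≤ d := Nat.cast_nonneg _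
  have hdδ : 1 ≤ δ * d := hd.trans (mul_le_mul_of_nonneg_right hδ2 hd0)
  have hd1 : 1 ≤ d := hdδ.trans (mul_le_of_le_one_left hd0 hδ1)
  have hD : 0 ≤ d ^ k := by positivity
  have hD' : 0 ≤ (d - 1) ^ k := pow_nonneg (by linarith only [hd1]) _
  have hDD : (d - 1) ^ k ≤ d ^ k := pow_le_pow_left₀ (by linarith only [hd1]) (by linarith only []) _
  have ha0 := a_nonneg hadm S
  have ha1 := a_le hadm hδ1 S
  have hl := eps_mono o (lowv_le o k ψ A S)
  have hl0 : 0 ≤ eps o (lowv o k ψ A S) := nv_nonneg _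
  have hm : 0 ≤ (d - 1) ^ k * (if S = A then mn o k a ψ T A else 0) :=
    mul_nonneg hD' (by split_ifs; exacts [mn_nonneg o hadm _ _ _, le_rfl])
  have hc := Finset.card_sdiff_add_card_inter T A
  have hpos : 0 < (T \ A).card := Finset.card_pos.2 (Finset.sdiff_nonempty.2 hA)
  have hX : 0 ≤ δ * ε * d ^ k := by positivity
  have hq : nq o T u * eps o (lowv o k ψ A S) ≤ 4 * ε :=
    mul_le_mul ((nq_le o T u).trans h4) hl hl0 (by norm_num)
  have h1 := ((hRA ι α o T A u (lowv o k ψ A S)).1 hA).trans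
    (mul_le_mul_of_nonneg_left hq (by positivity))
  have fin : a S * d ^ (T ∩ A).card ≤ δ * d ^ k →
      a S * rt ((Jc o T u)ᴴ * XT o A (lowv o k ψ A S) * Jc o T u) ≤
      (d - 1) ^ k * (if S = A then mn o k a ψ T A else 0) + (4 + 4 * K) * δ * ε * d ^ k := by
    intro h
    have h2 := mul_le_mul_of_nonneg_left h1 ha0
    have h3 := mul_le_mul_of_nonneg_right h (by positivity : 0 ≤ 4 * ε)
    have h5 := mul_nonneg (by linarith only [hK] : 0 ≤ K) hX
    linarith only [hm, h2, h3, h5]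
  by_cases hS : k + 1 < S.card
  · exact fin (mul_le_mul (hadm.2.2.2 S hS).2 (pow_le_pow_right₀ hd1 (by omega)) (by positivity)
      hδ.le)
  by_cases hj : (T \ A).card = 1
  swap
  · refine fin ((mul_le_of_le_one_left (by positivity) ha1).trans ?_)
    calc d ^ (T ∩ A).card ≤ δ * d * d ^ (T ∩ A).card := le_mul_of_one_le_left (by positivity) hdδ
      _ = δ * d ^ ((T ∩ A).card + 1) := by ring
      _ ≤ _ := mul_le_mul_of_nonneg_left (pow_le_pow_right₀ hd1 (by omega)) hδ.le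
  obtain ⟨j, hj'⟩ := Finset.card_eq_one.1 hj
  have h2 := (hRA ι α o T A u (lowv o k ψ A S)).2 j δ hj' hδ
  rw [show (T ∩ A).card = k by omega] at h2
  set w := wt o (lowv o k ψ A S) (fun B => B \ A = {j}) with hw
  have hw0 : 0 ≤ w := wt_nonneg _ _ _
  have hwε : w ≤ ε := (wt_le_eps o _ A j).trans hl
  have hmain : a S * w ≤ if S = A then mn o k a ψ T A else 0 := by
    split_ifs with hSA
    · subst hSA
      unfold mn
      rw [if_pos (by omega), if_pos hj, hj']
      exact mul_le_mul_of_nonneg_left (wt_mono o (lowv_le o k ψ S S) _) ha0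
    · rw [hw, wt_low o k hF.2.2 (Ne.symm hSA), mul_zero]
  have hK0 : 0 ≤ K := by linarith only [hK]
  have e1 : (1 + δ) * ‖u fun _ => o‖ ^ 2 * w ≤ w + (1 + 2 * K) * δ * ε := by
    have a1 : (1 + δ) * ‖u fun _ => o‖ ^ 2 ≤ 1 + (1 + 2 * K) * δ := by
      have := mul_le_mul_of_nonneg_left ho (by linarith only [hδ] : 0 ≤ 1 + δ)
      have := mul_le_mul_of_nonneg_left hδ2 hK0
      linarith
    have a2 := mul_le_mul_of_nonneg_right a1 hw0
    have a3 := mul_le_mul_of_nonneg_left hwε (by positivity : 0 ≤ (1 + 2 * K) * δ)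
    linarith only [a2, a3]
  have e2 : (1 + 1 / δ) * eps o (lowv o k ψ A S) * nq o T (prp o u) ≤ 2 * K * δ * ε := by
    have a1 : (1 + 1 / δ) * eps o (lowv o k ψ A S) ≤ 2 * δ := by
      have := mul_le_mul_of_nonneg_left (hl.trans he) (by positivity : 0 ≤ 1 + 1 / δ)
      have h' : (1 + 1 / δ) * δ ^ 2 = δ ^ 2 + δ := by field_simp
      linarith only [hδ2, this, h']
    have := mul_le_mul a1 ((nq_le o T _).trans hp) (nq_nonneg o T _) (by positivity)
    linarith only [this]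
  have h3 := h2.trans (mul_le_mul_of_nonneg_left (add_le_add e1 e2) hD')
  have h5 := mul_le_mul_of_nonneg_left h3 ha0
  have h6 := mul_le_mul_of_nonneg_left hmain hD'
  have hY : 0 ≤ (1 + 4 * K) * δ * ε := by positivity
  have h7 : a S * (d - 1) ^ k ≤ d ^ k := (mul_le_of_le_one_left hD' ha1).trans hDD
  have h8 := mul_le_mul_of_nonneg_right h7 hY
  linarith only [hX, h5, h6, h8]

end NS

theorem t_NS (hRA : S_RA) : S_NS := by
  intro ι _ _ K hK
  refine ⟨(Fintype.card (Finset ι) : ℝ) ^ 3 * (4 + 4 * K), by positivity, ?_⟩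
  intro α _ _ o k a ψ δ f hR hS
  have hd1 : (1 : ℝ) ≤ Fintype.card α := by
    have : Nonempty α := ⟨o⟩
    exact_mod_cast Fintype.card_pos
  have hD' : (0 : ℝ) ≤ (Fintype.card α - 1) ^ k := pow_nonneg (by linarith) _
  set E := (4 + 4 * K) * δ * eps o ψ * Fintype.card α ^ k with hE
  have hE0 : 0 ≤ E := by
    have := hR.1; have : 0 ≤ eps o ψ := nv_nonneg _
    positivity
  have hm := NS.mn_nonneg o hR.2.2.1 ψ
  calc _ ≤ ∑ T ∈ lv ι (k + 1), ∑ l : Finset ι × Finset ι,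
          ((Fintype.card α - 1) ^ k * (if l.2 = l.1 then NS.mn o k a ψ T l.1 else 0) + E) := by
        refine Finset.sum_le_sum fun T hT => ?_
        obtain ⟨-, -, -, h4, ho, hp, -⟩ := hS T hT
        rw [Matrix.mul_sum, Matrix.sum_mul, rt_sum]
        refine le_trans (Finset.sum_le_sum fun l hl => ?_)
          (Finset.sum_le_sum_of_subset_of_nonneg (Finset.subset_univ (Sl T)ᶜ) fun l _ _ =>
            add_nonneg (mul_nonneg hD' (by split_ifs; exacts [hm _ _, le_rfl])) hE0)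
        rw [lowZ, Matrix.mul_smul, Matrix.smul_mul, rt_rsmul]
        exact NS.letter hRA hK hR (Finset.mem_filter.1 hT).2 h4 ho hp l.2
          fun h => Finset.mem_compl.1 hl (Finset.mem_filter.2 ⟨Finset.mem_univ _, h⟩)
    _ = (Fintype.card α - 1) ^ k * ∑ T ∈ lv ι (k + 1), ∑ A, NS.mn o k a ψ T A +
          (lv ι (k + 1)).card * ((Fintype.card (Finset ι) : ℝ) ^ 2 * E) := by
        rw [Finset.mul_sum, ← nsmul_eq_mul, ← Finset.sum_const, ← Finset.sum_add_distrib]
        refine Finset.sum_congr rfl fun T _ => ?_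
        rw [Finset.sum_add_distrib, ← Finset.mul_sum, Fintype.sum_prod_type, Finset.sum_const,
          Finset.card_univ, Fintype.card_prod, nsmul_eq_mul]
        simp only [Finset.sum_ite_eq', Finset.mem_univ, if_true]
        push_cast; ring
    _ ≤ _ := by
        have h1 := mul_le_mul_of_nonneg_left (NS.sum_mn o hR.2.2.1 ψ) hD'
        have h2 : ((lv ι (k + 1)).card : ℝ) ≤ Fintype.card (Finset ι) := by
          exact_mod_cast Finset.card_le_univ _
        have h3 := mul_le_mul_of_nonneg_right h2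
          (by positivity : 0 ≤ (Fintype.card (Finset ι) : ℝ) ^ 2 * E)
        rw [hE] at h3
        linarith

end Pool.Agent.MP_b746ed_mp.LD
end

section
set_option autoImplicit false
set_option linter.unusedSectionVars false
open scoped ComplexOrder MatrixOrder
open Matrix

namespace Pool.Agent.MP_b746ed_mp.LD
open KF
open H14 (trf dg)

namespace G0
variable {ι α : Type} [Fintype ι] [DecidableEq ι] [Fintype α] [DecidableEq α] {o : α} {k : ℕ}
  {a : Finset ι → ℝ} {ψ : (ι → α) → ℂ} {δ : ℝ}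

lemma mem_lv {T : Finset ι} : T ∈ lv ι k ↔ T.card = k := by simp only [lv, Finset.univ_filter_card_eq, Finset.mem_powersetCard, Finset.subset_univ, true_and]

lemma a_nonneg (h : Adm k 0 δ a) (S : Finset ι) : 0 ≤ a S := by
  obtain ⟨h1, h2, h3, h4⟩ := h
  rcases lt_trichotomy S.card k with c | c | c
  · exact (h1 S c).ge
  · rw [h2 S c]; exact zero_le_one
  · rcases (Nat.succ_le_of_lt c).eq_or_lt with c | c
    · exact (h3 S c.symm).1
    · exact (h4 S c).1

lemma a_le (h : Adm k 0 δ a) {T : Finset ι} (hT : T.card = k + 1) : a T ≤ 1 :=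
  (Finset.single_le_sum (f := a) (fun S _ => a_nonneg h S) (by simp)).trans (h.2.2.1 T hT).2

lemma lo_low {T : Finset ι} (s : Finset (Finset ι × Finset ι)) (hs : ∀ l ∈ s, T ⊆ l.1) :
    Lo o T (1 - ∑ l ∈ s, lowZ o k a ψ l) :=
  lo_one.sub (lo_sum s fun l hl => ((nuc_XT o l.1 _).lo (hs l hl)).rsmul _)

lemma low_nonneg (h : Adm k 0 δ a) (l : Finset ι × Finset ι) : 0 ≤ lowZ o k a ψ l :=
  rsmul_nonneg (XT_nonneg _ _ _) (a_nonneg h _)

lemma col0 (M : Matrix (ι → α) (ι → α) ℂ) {T : Finset ι} (f : (ι → α) → ℂ) (y : ι → α)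
    {x : ι → α} (h : spt o x ≠ T) : (M * Jc o T f) y x = 0 := by
  simp only [mul_apply, Jc_apply, h, ↓ reduceIte, mul_zero, Finset.sum_const_zero]

lemma ent0 (M : Matrix (ι → α) (ι → α) ℂ) {T T' : Finset ι} (f f' : (ι → α) → ℂ) {x x' : ι → α}
    (h : ¬(spt o x = T ∧ spt o x' = T')) : ((Jc o T f)ᴴ * M * Jc o T' f') x x' = 0 := by
  rcases not_and_or.1 h with h | h
  · rw [Matrix.mul_assoc, mul_apply]
    simp only [conjTranspose_apply, Jc_apply, h, ↓ reduceIte, star_zero, zero_mul, Finset.sum_const_zero]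
  · exact col0 _ _ _ h

lemma diag {K : ℝ} {f : Finset ι → (ι → α) → ℂ} (h : Adm k 0 δ a) (hf : Sol o k a ψ δ K f)
    {T : Finset ι} (hT : T ∈ lv ι (k + 1)) :
    (Jc o T (f T))ᴴ * (1 - ∑ l ∈ Sl T ∩ Sl T, lowZ o k a ψ l) * Jc o T (f T) ≤ PA o T := by
  obtain ⟨h1, h2, h3, -⟩ := hf T hT
  have hH : (1 - ∑ l ∈ Sl T, lowZ o k a ψ l)ᴴ = 1 - ∑ l ∈ Sl T, lowZ o k a ψ l := by
    rw [conjTranspose_sub, conjTranspose_one,
      herm_of_nonneg (Finset.sum_nonneg fun l _ => low_nonneg h l)]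
  have hz : star (ip (f T) (√(a T) • emb o T ψ)) = ip (f T) (√(a T) • emb o T ψ) := by
    rw [star_ip, ← h2, ip_mulVec, hH]
  rw [Finset.inter_self, Matrix.mul_assoc,
    (lo_low (Sl T) fun l hl => by simpa [Sl] using hl).mul_Jc, h1, h2, Jc_gram, h1, emb_rsmul,
    emb_emb, ← Complex.conj_eq_iff_re.1 hz, Complex.coe_smul]
  exact (rsmul_le_rsmul (PA_nonneg o T) h3).trans_eq (one_smul _ _)

lemma nv_prp_emb (T : Finset ι) : nv (prp o (emb o T ψ)) ≤ eps o ψ := by
  refine Finset.sum_le_sum fun x _ => ?_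
  unfold prp emb
  split_ifs <;> simp

lemma prp_rsmul (c : ℝ) (f : (ι → α) → ℂ) : prp o (c • f) = c • prp o f := by
  funext x
  unfold prp
  split_ifs with h <;> simp [h]

lemma both {T T' : Finset ι} (hT : T.card = k + 1) (hT' : T'.card = k + 1) (hne : T' ≠ T) :
    ∑ l ∈ Sl T ∩ Sl T', lowZ o k a ψ l = ∑ S with T ∪ T' ⊆ S, a S • XT o S ψ := by
  have hc : ∀ A : Finset ι, T ∪ T' ⊆ A → k + 1 < A.card := fun A hA => by
    by_contra hc
    have e1 : T = A := Finset.eq_of_subset_of_card_le (Finset.subset_union_left.trans hA) (by omega)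
    have e2 : T' = A :=
      Finset.eq_of_subset_of_card_le (Finset.subset_union_right.trans hA) (by omega)
    exact hne (e2.trans e1.symm)
  have e : Sl T ∩ Sl T' = (Finset.univ.filter fun A => T ∪ T' ⊆ A) ×ˢ Finset.univ := by
    ext l
    simp only [Sl, Finset.mem_inter, Finset.mem_filter, Finset.mem_univ, true_and, Finset.union_subset_iff, Finset.mem_product, and_true]
  rw [e, Finset.sum_product]
  refine Finset.sum_congr rfl fun A hA => ?_
  have hA := hc A (Finset.mem_filter.1 hA).2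
  rw [Finset.sum_eq_single A]
  · simp only [lowZ, lowv, if_true, if_neg (not_le.2 hA)]
  · intro S _ hS
    have : ¬(A ⊆ S ∧ S.card ≤ k + 1) := fun c => by
      have := Finset.card_le_card c.1
      omega
    simp only [lowZ, lowv, if_neg hS.symm, if_neg this, XT_zero, smul_zero]
  · simp

lemma cross (hCRS : S_CRS) {T T' : Finset ι} (hT : T.card = k + 1) (hT' : T'.card = k + 1)
    (hne : T' ≠ T) (hd : (1 : ℝ) ≤ Fintype.card α) (u v : (ι → α) → ℂ) {x y c : ℝ}
    (hu : nv (prp o u) ≤ x) (hv : nv (prp o v) ≤ y) (hc : 0 ≤ c) (h : x * y ≤ c ^ 2) :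
    Tn ((Jc o T u)ᴴ * Jc o T' v) (c * Fintype.card α ^ k) := by
  have n1 : ¬T' ⊆ T := fun c => hne (Finset.eq_of_subset_of_card_le c (by omega))
  have n2 : ¬T ⊆ T' := fun c => hne (Finset.eq_of_subset_of_card_le c (by omega)).symm
  rw [(hCRS ι α o T T' u v).1 n1, (hCRS ι α o T T' _ v).2.1 n2]
  refine (hCRS ι α o T T' _ _).2.2.1.mono ?_
  have hk : (T ∩ T').card ≤ k := by
    have := Finset.card_lt_card (s := T ∩ T') (t := T)
      ⟨Finset.inter_subset_left, fun c => n2 (c.trans Finset.inter_subset_right)⟩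
    omega
  rw [mul_comm c]
  refine mul_le_mul (pow_le_pow_right₀ hd hk) ?_ (by positivity) (by positivity)
  rw [← Real.sqrt_mul (nq_nonneg _ _ _)]
  refine Real.sqrt_le_iff.2 ⟨hc, le_trans ?_ h⟩
  exact mul_le_mul ((nq_le _ _ _).trans hu) ((nq_le _ _ _).trans hv) (nq_nonneg _ _ _)
    ((nv_nonneg _).trans hu)

lemma Jc_sum (T : Finset ι) {ρ : Type} (s : Finset ρ) (f : ρ → (ι → α) → ℂ) :
    Jc o T (∑ r ∈ s, f r) = ∑ r ∈ s, Jc o T (f r) := by
  rw [Jc, xop_sum_left, Finset.sum_mul]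
  rfl

lemma off (hCRS : S_CRS) {K : ℝ} (hK : 1 ≤ K) {f : Finset ι → (ι → α) → ℂ} (h : Reg o k a ψ δ)
    (hf : Sol o k a ψ δ K f) {T T' : Finset ι} (hT : T ∈ lv ι (k + 1)) (hT' : T' ∈ lv ι (k + 1))
    (hne : T' ≠ T) (hd : (1 : ℝ) ≤ Fintype.card α) :
    Tn ((Jc o T (f T))ᴴ * (1 - ∑ l ∈ Sl T ∩ Sl T', lowZ o k a ψ l) * Jc o T' (f T') -
      (√(a T) * √(a T')) • ((Jc o T ψ)ᴴ * Jc o T' ψ))
      ((2 + Fintype.card (Finset ι)) * (K * δ * eps o ψ * Fintype.card α ^ k)) := by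
  obtain ⟨-, -, -, -, -, p1, p2, -⟩ := hf T hT
  obtain ⟨q0, -, -, -, -, -, q2, q3⟩ := hf T' hT'
  have c1 := mem_lv.1 hT
  have c2 := mem_lv.1 hT'
  have hδ := h.1
  have he : 0 ≤ eps o ψ := nv_nonneg _
  have hc : 0 ≤ K * δ * eps o ψ := by positivity
  have e : (Jc o T (f T))ᴴ * (1 - ∑ l ∈ Sl T ∩ Sl T', lowZ o k a ψ l) * Jc o T' (f T') -
      (√(a T) * √(a T')) • ((Jc o T ψ)ᴴ * Jc o T' ψ) =
      (Jc o T (f T))ᴴ * Jc o T' (f T' - √(a T') • emb o T' ψ) +
      (Jc o T (f T - √(a T) • emb o T ψ))ᴴ * Jc o T' (√(a T') • emb o T' ψ) +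
      -∑ S with T ∪ T' ⊆ S, (Jc o T (f T))ᴴ * Jc o T' ((a S • XT o S ψ) *ᵥ f T') := by
    rw [Matrix.mul_assoc, (lo_low (T := T') _ fun l hl => by
      simpa [Sl] using (Finset.mem_inter.1 hl).2).mul_Jc, q0, both c1 c2 hne, sub_mulVec,
      one_mulVec, sum_mulVec, Jc_sub, Jc_sum, ← Finset.mul_sum]
    simp only [Jc_sub, Jc_rsmul, Jc_emb, conjTranspose_sub, conjTranspose_smul, star_trivial,
      Matrix.mul_sub, Matrix.sub_mul, Matrix.mul_smul, Matrix.smul_mul, smul_smul, smul_sub,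
      mul_comm (√(a T'))]
    abel
  have t1 := cross hCRS c1 c2 hne hd _ _ p1 q2 hc (by apply le_of_eq; ring)
  have g1 : nv (prp o (√(a T') • emb o T' ψ)) ≤ eps o ψ := by
    rw [prp_rsmul, nv_rsmul, Real.sq_sqrt (a_nonneg h.2.2.1 _)]
    exact (mul_le_of_le_one_left (nv_nonneg _) (a_le h.2.2.1 c2)).trans (nv_prp_emb _)
  have t2 := cross hCRS c1 c2 hne hd _ _ p2 g1 hc (by
    have : 0 ≤ K * (K - 1) * (δ * eps o ψ) ^ 2 := by
      have : 0 ≤ K - 1 := by linarith only [hK]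
      positivity
    linarith only [this])
  have t3 := tn_sum (Finset.univ.filter fun S => T ∪ T' ⊆ S) fun S hS =>
    cross hCRS c1 c2 hne hd _ _ p1 (q3 S (by
      have hS := (Finset.mem_filter.1 hS).2
      refine ⟨Finset.subset_union_right.trans hS, fun c => hne ?_⟩
      exact (Finset.eq_of_subset_of_card_le (Finset.subset_union_left.trans (hS.trans c))
        (by omega)).symm)) hc (by apply le_of_eq; ring)
  rw [e]
  refine ((t1.add t2).add t3.neg).mono ?_
  rw [Finset.sum_const, nsmul_eq_mul, add_mul, two_mul]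
  refine add_le_add le_rfl (mul_le_mul_of_nonneg_right ?_ (by positivity))
  exact_mod_cast Finset.card_le_univ _

lemma one_le_d (h : Reg o k a ψ δ) : (1 : ℝ) ≤ Fintype.card α := by
  obtain ⟨h0, h1, -, -, -, h2⟩ := h
  exact h2.trans (mul_le_of_le_one_left (by positivity) (pow_le_one₀ h0.le h1))

lemma gg_le (S : Finset ι) : gg o ψ S ≤ eps o ψ := by
  refine Finset.sum_le_sum fun x _ => ?_
  unfold prp
  split_ifs with h1 h2 h2
  · have : spt o x = ∅ := by simp [spt, h2]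
    simp [this] at h1
  all_goals simp only [Std.le_refl, norm_zero, ne_eq, OfNat.ofNat_ne_zero, not_false_eq_true, zero_pow, norm_nonneg, pow_succ_nonneg]

lemma mG_le (h : Adm k 0 δ a) :
    mG o k a ψ ≤ Fintype.card (Finset ι) * (1 + Fintype.card ι) * eps o ψ := by
  have he : 0 ≤ eps o ψ := nv_nonneg _
  have : ∀ C ∈ lv ι k, gg o ψ C + ∑ j ∈ Cᶜ, a (insert j C) * gg o ψ (insert j C) ≤
      (1 + Fintype.card ι) * eps o ψ := fun C hC => by
    rw [add_mul, one_mul]
    refine add_le_add (gg_le C) ((Finset.sum_le_card_nsmul _ _ (eps o ψ) fun j hj => ?_).trans ?_)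
    · refine (mul_le_mul_of_nonneg_left (gg_le _) (a_nonneg h _)).trans
        (mul_le_of_le_one_left he (a_le h ?_))
      rw [Finset.card_insert_of_notMem (Finset.mem_compl.1 hj), mem_lv.1 hC]
    · rw [nsmul_eq_mul]
      exact mul_le_mul_of_nonneg_right (by exact_mod_cast Finset.card_le_univ _) he
  refine (Finset.sum_le_card_nsmul _ _ _ this).trans ?_
  rw [nsmul_eq_mul, mul_assoc]
  exact mul_le_mul_of_nonneg_right (by exact_mod_cast Finset.card_le_univ _) (by positivity)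

lemma split {β ρ : Type} [Fintype β] [DecidableEq β] [DecidableEq ρ] (s : Finset ρ)
    (F G : ρ → ρ → Matrix β β ℂ) (h : ∑ T ∈ s, F T T ≤ 1) : ∑ T ∈ s, ∑ T' ∈ s, F T T' - 1 ≤
      ∑ T ∈ s, ∑ T' ∈ s.erase T, G T T' + ∑ T ∈ s, ∑ T' ∈ s.erase T, (F T T' - G T T') := by
  have e : ∑ T ∈ s, ∑ T' ∈ s, F T T' = ∑ T ∈ s, F T T + ∑ T ∈ s, ∑ T' ∈ s.erase T, F T T' := by
    rw [← Finset.sum_add_distrib]
    exact Finset.sum_congr rfl fun T hT => (Finset.add_sum_erase _ _ hT).symm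
  simp only [Finset.sum_sub_distrib, add_sub_cancel]
  rw [e, sub_le_iff_le_add, add_comm]
  exact add_le_add le_rfl h

end G0

open G0 in
theorem t_G0 (hR6 : S_R6) (hCRS : S_CRS) : S_G0 := by
  intro ι _ _ K hK
  obtain ⟨K6, hK6, h6⟩ := hR6 ι
  refine ⟨K6 + Fintype.card (Finset ι) ^ 2 * (2 + Fintype.card (Finset ι)) * K, by positivity,
    fun α _ _ o k a ψ δ f h hf => ?_⟩
  have hd := one_le_d h
  have hδ := h.1
  have he : 0 ≤ eps o ψ := nv_nonneg _
  have u1 := h6 α o k a ψ fun T hT => ⟨a_nonneg h.2.2.1 T, a_le h.2.2.1 (mem_lv.1 hT)⟩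
  have u2 := (tn_sum (lv ι (k + 1)) fun T hT => tn_sum ((lv ι (k + 1)).erase T) fun T' hT' =>
    off hCRS hK h hf hT (Finset.mem_of_mem_erase hT') (Finset.ne_of_mem_erase hT') hd).up
  have u3 : ∑ T ∈ lv ι (k + 1), (Jc o T (f T))ᴴ * (1 - ∑ l ∈ Sl T ∩ Sl T, lowZ o k a ψ l) *
      Jc o T (f T) ≤ 1 :=
    ((Finset.sum_le_sum fun T hT => diag h.2.2.1 hf hT).trans (Finset.sum_le_sum_of_subset_of_nonneg
      (Finset.subset_univ _) fun T _ _ => PA_nonneg o T)).trans_eq (sum_PA o)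
  refine (u1.add u2).mono ?_ ?_
  · exact split (lv ι (k + 1)) (fun T T' => (Jc o T (f T))ᴴ *
      (1 - ∑ l ∈ Sl T ∩ Sl T', lowZ o k a ψ l) * Jc o T' (f T'))
      (fun T T' => (√(a T) * √(a T')) • ((Jc o T ψ)ᴴ * Jc o T' ψ)) u3
  · have b1 : K6 * eps o ψ * Fintype.card α ^ k / Fintype.card α ≤
        K6 * δ * eps o ψ * Fintype.card α ^ k := by
      rw [div_le_iff₀ (by linarith only [hd])]
      have : 1 ≤ δ * Fintype.card α := h.2.2.2.2.2.trans
        (mul_le_mul_of_nonneg_right (by nlinarith only [h.2.1, hδ]) (by positivity))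
      calc _ ≤ K6 * eps o ψ * Fintype.card α ^ k * (δ * Fintype.card α) :=
            le_mul_of_one_le_right (by positivity) this
        _ = _ := by ring
    have hN : ((lv ι (k + 1)).card : ℝ) ≤ Fintype.card (Finset ι) := by
      exact_mod_cast Finset.card_le_univ _
    have b2 : ∑ T ∈ lv ι (k + 1), ∑ _T' ∈ (lv ι (k + 1)).erase T,
        (2 + (Fintype.card (Finset ι) : ℝ)) * (K * δ * eps o ψ * Fintype.card α ^ k) ≤
        Fintype.card (Finset ι) * (Fintype.card (Finset ι) *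
          ((2 + Fintype.card (Finset ι)) * (K * δ * eps o ψ * Fintype.card α ^ k))) := by
      refine (Finset.sum_le_card_nsmul _ _ _ fun T _ => ?_).trans
        (by rw [nsmul_eq_mul]; exact mul_le_mul_of_nonneg_right hN (by positivity))
      rw [Finset.sum_const, nsmul_eq_mul]
      exact mul_le_mul_of_nonneg_right (by exact_mod_cast Finset.card_le_univ _) (by positivity)
    linarith

open G0 in
theorem t_F6 (hMRG : S_MRG) (hSOL : S_SOL) (hNS : S_NS) (hG0 : S_G0) : S_F6 := by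
  intro ι _ _
  obtain ⟨K, hK, hS⟩ := hSOL ι
  obtain ⟨K1, hK1, hN⟩ := hNS ι K hK
  obtain ⟨K2, hK2, hG⟩ := hG0 ι K hK
  refine ⟨2 * K + (K2 + 2 * K1 + 2 * K * (Fintype.card (Finset ι) * (1 + Fintype.card ι))),
    by positivity, fun α _ _ o k a ψ δ h hKδ => ?_⟩
  have hd := one_le_d h
  have hδ := h.1
  have he : 0 ≤ eps o ψ := nv_nonneg _
  have hb : K * δ ≤ 1 / 2 := by
    have : 0 ≤ (K2 + 2 * K1 + 2 * K * (Fintype.card (Finset ι) * (1 + Fintype.card ι))) * δ := by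
      positivity
    linarith
  obtain ⟨hZ, f, hf⟩ := hS α o k a ψ δ h hb
  have m := hMRG _ _ _ (∑ T ∈ lv ι (k + 1), √(a T) • Jc o T ψ) (∑ T ∈ lv ι (k + 1), Jc o T (f T))
    (lowZ o k a ψ) (fun x => Sl (spt o x)) (K * δ) _ (by positivity) hb (low_nonneg h.2.2.1) hZ
    (fun x y => by
      rw [Matrix.mul_sum, Matrix.sum_apply, Matrix.sum_apply]
      refine Finset.sum_congr rfl fun T hT => ?_
      by_cases c : spt o x = T
      · rw [c, (lo_low (Sl T) fun l hl => by simpa [Sl] using hl).mul_Jc, (hf T hT).1,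
          (hf T hT).2.1, Jc_rsmul, Jc_emb]
      · rw [col0 _ _ _ c, Matrix.smul_apply, Jc_apply, if_neg c, smul_zero])
    (by
      convert hG α o k a ψ δ f h hf using 2
      ext x x'
      simp only [of_apply, conjTranspose_sum, Matrix.sum_mul, Matrix.mul_sum, Matrix.sum_apply]
      rw [Finset.sum_comm]
      refine Finset.sum_congr rfl fun T _ => Finset.sum_congr rfl fun T' _ => ?_
      by_cases c : spt o x = T ∧ spt o x' = T'
      · rw [c.1, c.2]
      · rw [ent0 _ _ _ c, ent0 _ _ _ c])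
  have e1 : (∑ T ∈ lv ι (k + 1), √(a T) • Jc o T ψ) * (∑ T ∈ lv ι (k + 1), √(a T) • Jc o T ψ)ᴴ =
      ∑ T ∈ lv ι (k + 1), a T • (Jc o T ψ * (Jc o T ψ)ᴴ) := by
    rw [Matrix.sum_mul, conjTranspose_sum]
    refine Finset.sum_congr rfl fun T hT => ?_
    rw [Matrix.mul_sum, Finset.sum_eq_single_of_mem T hT]
    · rw [conjTranspose_smul, star_trivial, Matrix.smul_mul, Matrix.mul_smul, smul_smul,
        Real.mul_self_sqrt (a_nonneg h.2.2.1 T)]
    · intro T' _ c
      have := Jc_mul_PA o T' T' ψ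
      rw [if_pos rfl] at this
      rw [conjTranspose_smul, Matrix.smul_mul, Matrix.mul_smul, ← this, conjTranspose_mul, PA_conj,
        ← Matrix.mul_assoc, Jc_mul_PA, if_neg c.symm, Matrix.zero_mul, smul_zero, smul_zero]
  have e2 : ∑ x, (((∑ T ∈ lv ι (k + 1), Jc o T (f T))ᴴ * (∑ l ∈ (Sl (spt o x))ᶜ, lowZ o k a ψ l) *
      ∑ T ∈ lv ι (k + 1), Jc o T (f T) : Matrix _ _ ℂ) x x).re =
      ∑ T ∈ lv ι (k + 1),
        rt ((Jc o T (f T))ᴴ * (∑ l ∈ (Sl T)ᶜ, lowZ o k a ψ l) * Jc o T (f T)) := by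
    simp only [rt_eq_sum]
    rw [Finset.sum_comm]
    refine Finset.sum_congr rfl fun x _ => ?_
    rw [← Complex.re_sum, conjTranspose_sum, Matrix.sum_mul, Matrix.sum_mul, Matrix.sum_apply]
    refine congrArg _ (Finset.sum_congr rfl fun T hT => ?_)
    rw [Matrix.mul_sum (lv ι (k + 1)), Matrix.sum_apply, Finset.sum_eq_single_of_mem T hT]
    · by_cases c : spt o x = T
      · rw [c]
      · rw [ent0 _ _ _ fun d => c d.1, ent0 _ _ _ fun d => c d.1]
    · exact fun T' _ c => ent0 _ _ _ fun d => c (d.2.symm.trans d.1)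
  rw [e1, e2] at m
  refine m.mono le_rfl ?_
  have n1 := mul_le_mul_of_nonneg_left (hN α o k a ψ δ f h hf)
    (show 0 ≤ 1 + 2 * (K * δ) by positivity)
  have n2 : ((Fintype.card α : ℝ) - 1) ^ k * mG o k a ψ ≤ Fintype.card α ^ k *
      (Fintype.card (Finset ι) * (1 + Fintype.card ι) * eps o ψ) :=
    (mul_le_mul_of_nonneg_left (mG_le h.2.2.1) (pow_nonneg (by linarith only [hd]) _)).trans
      (mul_le_mul_of_nonneg_right (pow_le_pow_left₀ (by linarith only [hd]) (by linarith only []) _) (by positivity))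
  have n3 := mul_le_mul_of_nonneg_left n2 (show 0 ≤ 2 * (K * δ) by positivity)
  have n4 := mul_le_mul_of_nonneg_right hb
    (show 0 ≤ K1 * δ * eps o ψ * Fintype.card α ^ k by positivity)
  have n5 : 0 ≤ K * δ * eps o ψ * Fintype.card α ^ k := by positivity
  linarith

end Pool.Agent.MP_b746ed_mp.LD
end

section
/-! Large local dimension: the complement of the low levels and the final counting step. -/

set_option autoImplicit false
set_option linter.unusedSectionVars false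
open scoped ComplexOrder MatrixOrder
open Matrix

namespace Pool.Agent.MP_b746ed_mp.LD
open KF
open H14 (trf dg)

namespace F5

variable {ι α : Type} [Fintype ι] [DecidableEq ι] [Fintype α] [DecidableEq α] (o : α)

lemma xop_PA {A S : Finset ι} (h : A ⊆ S) (ψ : (ι → α) → ℂ) :
    xop o S ψ (e0 o) * PA o A = Jc o A (emb o S ψ) := by
  rw [← Jc_e0, (lo_xop h ψ (e0 o)).mul_Jc, emb_e0]
  congr 1
  funext a
  have e : mask o S (fun _ => o) = fun _ => o := mask_of_mem o S fun _ _ => rfl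
  rw [e0, mulVec_single_one]
  simp only [col_apply, xop, of_apply, e, Pi.single_eq_same, star_one, mul_one, emb]
  split_ifs with h1
  · rw [mask_of_mem o S h1]
  · rfl

lemma xop_split (S : Finset ι) (ψ : (ι → α) → ℂ) : xop o S ψ ψ =
    ∑ A ∈ S.powerset, Jc o A (emb o S ψ) * (Jc o A (emb o S ψ))ᴴ := by
  have e : ∀ A ∈ S.powerset, Jc o A (emb o S ψ) * (Jc o A (emb o S ψ))ᴴ =
      xop o S ψ (e0 o) * PA o A * xop o S (e0 o) ψ := fun A hA => by
    rw [← xop_PA o (Finset.mem_powerset.1 hA), conjTranspose_mul, PA_conj, xop_conj,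
      ← Matrix.mul_assoc, Matrix.mul_assoc _ (PA o A) (PA o A), (PA_proj o A).2]
  rw [Finset.sum_congr rfl e, ← Finset.sum_mul, ← Finset.mul_sum, ← xop_e0]
  simp only [xop_mul_same, emb_e0, ip_self_nv, nv_e0, Complex.ofReal_one, one_smul]

lemma emb_sub_emb {A S : Finset ι} (ψ : (ι → α) → ℂ) (h : A ⊆ S) :
    emb o A (emb o S ψ) = emb o S ψ := by
  funext a
  simp only [emb]
  split_ifs with h1 h2 h2
  · rfl
  · rfl
  · exact absurd (fun i hi => h2 i (h hi)) h1
  · rfl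

/-- the step for one set `S` -/
lemma one (k : ℕ) (ψ : (ι → α) → ℂ) {Q : Matrix (ι → α) (ι → α) ℂ} (hQ : Qᴴ = Q)
    (h0 : ∀ A : Finset ι, A.card ≤ k → Q * Jc o A ψ = 0) (S : Finset ι) :
    Q * XT o S ψ * Q ≤ Q * ((if S.card = k + 1 then Jc o S ψ * (Jc o S ψ)ᴴ else 0) +
      ∑ A, XT o A (lowv o k ψ A S)) * Q := by
  have cj : ∀ {X Y : Matrix (ι → α) (ι → α) ℂ}, X ≤ Y → Q * X * Q ≤ Q * Y * Q := fun h => by
    simpa only [hQ] using conj_le h Q
  by_cases hS : S.card ≤ k + 1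
  · have h1 : XT o S (ψ - emb o S ψ) + ∑ A ∈ S.powerset.erase S, XT o A (emb o A ψ - emb o S ψ) ≤
        ∑ A, XT o A (lowv o k ψ A S) := by
      refine le_trans (le_of_eq ?_) (Finset.sum_le_sum_of_subset_of_nonneg
        (Finset.subset_univ S.powerset) fun _ _ _ => XT_nonneg _ _ _)
      rw [← Finset.add_sum_erase _ _ (Finset.mem_powerset_self S)]
      congr 1
      · simp [lowv, hS]
      · refine Finset.sum_congr rfl fun A hA => ?_
        rw [Finset.mem_erase, Finset.mem_powerset] at hA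
        simp [lowv, hS, hA.1, hA.2]
    refine le_trans ?_ (cj (add_le_add_right h1 _))
    rw [XT_split, xop_split, ← Finset.add_sum_erase _ _ (Finset.mem_powerset_self S), Jc_emb]
    simp only [Matrix.mul_add, Matrix.add_mul, Finset.mul_sum, Finset.sum_mul]
    rw [add_assoc, add_comm (∑ _ ∈ _, _)]
    refine add_le_add (le_of_eq ?_) (add_le_add le_rfl (Finset.sum_le_sum fun A hA => ?_))
    · split_ifs with h2
      · rfl
      · rw [← Matrix.mul_assoc, h0 S (by omega)]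
        simp
    · rw [Finset.mem_erase, Finset.mem_powerset] at hA
      have hc := Finset.card_lt_card (Finset.ssubset_iff_subset_ne.2 ⟨hA.2, hA.1⟩)
      have e : Q * Jc o A (emb o A ψ - emb o S ψ) = -(Q * Jc o A (emb o S ψ)) := by
        rw [Jc_sub, Jc_emb, Matrix.mul_sub, h0 A (by omega), zero_sub]
      have e2 : ∀ J : Matrix (ι → α) (ι → α) ℂ, Q * (J * Jᴴ) * Q = Q * J * (Q * J)ᴴ := fun J => by
        simp only [conjTranspose_mul, hQ, Matrix.mul_assoc]
      refine le_trans (le_of_eq ?_) (cj ((Jc_mul_le o A _).trans (xop_le_XT o A _)))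
      rw [e2, e2, e]
      simp
  · refine cj ?_
    rw [if_neg (by omega), zero_add]
    refine le_trans (le_of_eq ?_) (Finset.single_le_sum (f := fun A => XT o A (lowv o k ψ A S))
      (fun _ _ => XT_nonneg _ _ _) (Finset.mem_univ S))
    simp [lowv, hS]

/-- the indicator of a proposition -/
def ind (p : Prop) [Decidable p] : ℝ := if p then 1 else 0

lemma ind_nonneg (p : Prop) [Decidable p] : 0 ≤ ind p := by unfold ind; split_ifs <;> simp

lemma wt_eq (ψ : (ι → α) → ℂ) (Q : Finset ι → Prop) [DecidablePred Q] :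
    wt o ψ Q = ∑ x, ‖ψ x‖ ^ 2 * ind (Q (spt o x)) := by
  simp only [wt, ind, mul_ite, mul_one, mul_zero]

lemma gh {B : Finset ι} (hB : B.card ≠ 1) (S : Finset ι) :
    0 ≤ ind (¬Disjoint B S ∧ ¬B ⊆ S) - ind ((B \ S).card = 1) := by
  by_cases h : (B \ S).card = 1
  · have h1 : ¬Disjoint B S := fun h1 => hB (by rwa [Finset.sdiff_eq_self_of_disjoint h1] at h)
    have h2 : ¬B ⊆ S := fun h2 => by simp [Finset.sdiff_eq_empty_iff_subset.2 h2] at h
    simp [ind, h, h1, h2]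
  · simpa only [ind, h, ↓ reduceIte, sub_zero] using ind_nonneg (¬Disjoint B S ∧ ¬B ⊆ S)

/-- the contribution of one support -/
noncomputable def cF (a : Finset ι → ℝ) (B C : Finset ι) : ℝ :=
  ind (¬Disjoint B C ∧ ¬B ⊆ C) - ind ((B \ C).card = 1) + ∑ j ∈ Cᶜ, a (insert j C) *
    (ind (¬Disjoint B (insert j C) ∧ ¬B ⊆ insert j C) - ind ((B \ insert j C).card = 1) +
      1 / Fintype.card ι * ind (Disjoint B C ∧ ¬Disjoint B (insert j C)))

lemma cF_term {k : ℕ} {a : Finset ι → ℝ} {g : ℝ} (hg : 0 ≤ g) (ha : ∀ T ∈ lv ι (k + 1), g ≤ a T)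
    {B C : Finset ι} (hB : B.card ≠ 1) (hC : C ∈ lv ι k) {j : ι} (hj : j ∈ Cᶜ) :
    g * (1 / Fintype.card ι * ind (Disjoint B C ∧ ¬Disjoint B (insert j C))) ≤ a (insert j C) *
    (ind (¬Disjoint B (insert j C) ∧ ¬B ⊆ insert j C) - ind ((B \ insert j C).card = 1) +
      1 / Fintype.card ι * ind (Disjoint B C ∧ ¬Disjoint B (insert j C))) := by
  have h1 := ha (insert j C) (by
    simp only [lv, Finset.mem_filter, Finset.mem_univ, true_and] at hC ⊢
    rw [Finset.card_insert_of_notMem (Finset.mem_compl.1 hj), hC])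
  have h2 : 0 ≤ 1 / (Fintype.card ι : ℝ) * ind (Disjoint B C ∧ ¬Disjoint B (insert j C)) :=
    mul_nonneg (by positivity) (ind_nonneg _)
  exact mul_le_mul h1 (le_add_of_nonneg_left (gh hB _)) h2 (hg.trans h1)

lemma cF_low {k : ℕ} {a : Finset ι → ℝ} {g : ℝ} (hg : 0 ≤ g) (ha : ∀ T ∈ lv ι (k + 1), g ≤ a T)
    {B C : Finset ι} (hB : B.card ≠ 1) (hC : C ∈ lv ι k) :
    ind (¬Disjoint B C ∧ ¬B ⊆ C) - ind ((B \ C).card = 1) + ∑ j ∈ Cᶜ,
      g * (1 / Fintype.card ι * ind (Disjoint B C ∧ ¬Disjoint B (insert j C))) ≤ cF a B C :=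
  add_le_add le_rfl (Finset.sum_le_sum fun _ hj => cF_term hg ha hB hC hj)

lemma cF_sum {k : ℕ} {a : Finset ι → ℝ} {g : ℝ} (hg : 0 ≤ g) (hg1 : g ≤ 1)
    (hk : k + 2 ≤ Fintype.card ι) (ha : ∀ T ∈ lv ι (k + 1), g ≤ a T) {B : Finset ι}
    (hB : B.card ≠ 1) : g / Fintype.card ι * ind (B ≠ ∅) ≤ ∑ C ∈ lv ι k, cF a B C := by
  have t0 : ∀ (C : Finset ι) (j : ι), 0 ≤
      g * (1 / Fintype.card ι * ind (Disjoint B C ∧ ¬Disjoint B (insert j C))) := fun C j =>
    mul_nonneg hg (mul_nonneg (by positivity) (ind_nonneg _))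
  have p0 : ∀ C ∈ lv ι k, 0 ≤ cF a B C := fun C hC =>
    (add_nonneg (gh hB C) (Finset.sum_nonneg fun j _ => t0 C j)).trans (cF_low hg ha hB hC)
  by_cases hE : B = ∅
  · simpa only [ind, hE, ne_eq, not_true_eq_false, ↓ reduceIte, mul_zero, ge_iff_le] using Finset.sum_nonneg p0
  have h2 : 2 ≤ B.card := by
    have := Finset.card_pos.2 (Finset.nonempty_iff_ne_empty.2 hE)
    omega
  obtain ⟨P, hP, hP2⟩ := Finset.exists_subset_card_eq h2
  obtain ⟨C, hC, hCk⟩ := Finset.exists_subset_card_eq (s := Pᶜ) (n := k)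
    (by rw [Finset.card_compl]; omega)
  have hCl : C ∈ lv ι k := by simp only [lv, Finset.univ_filter_card_eq, Finset.mem_powersetCard, Finset.subset_univ, hCk, and_self]
  have hPC : P ⊆ B \ C := fun i hi =>
    Finset.mem_sdiff.2 ⟨hP hi, fun h => Finset.mem_compl.1 (hC h) hi⟩
  have h3 := Finset.card_le_card hPC
  obtain ⟨j, hj⟩ := Finset.card_pos.1 (by omega : 0 < (B \ C).card)
  rw [Finset.mem_sdiff] at hj
  refine le_trans ?_ ((cF_low hg ha hB hCl).trans (Finset.single_le_sum p0 hCl))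
  have n1 : (1 : ℝ) ≤ Fintype.card ι := by exact_mod_cast (by omega : 1 ≤ Fintype.card ι)
  have i1 : ind (B ≠ ∅) = 1 := if_pos hE
  have i2 : ind ((B \ C).card = 1) = 0 := if_neg (by omega)
  rw [i1, i2, mul_one, sub_zero]
  by_cases hD : Disjoint B C
  · refine le_add_of_nonneg_of_le (ind_nonneg _) (le_trans (le_of_eq ?_)
      (Finset.single_le_sum (fun j _ => t0 C j) (Finset.mem_compl.2 hj.2)))
    have i3 : ind (Disjoint B C ∧ ¬Disjoint B (insert j C)) = 1 :=
      if_pos ⟨hD, fun h => Finset.disjoint_left.1 h hj.1 (Finset.mem_insert_self _ _)⟩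
    rw [i3]
    ring
  · have i3 : ind (¬Disjoint B C ∧ ¬B ⊆ C) = 1 := if_pos ⟨hD, fun h => hj.2 (h hj.1)⟩
    rw [i3]
    exact le_add_of_le_of_nonneg ((div_le_one (by linarith only [n1])).2 (hg1.trans n1))
      (Finset.sum_nonneg fun j _ => t0 C j)

end F5

theorem t_F5 : S_F5 := by
  intro ι α _ _ _ _ o k a ψ Q ha hQ hJ
  have h0 : ∀ A : Finset ι, A.card ≤ k → Q * Jc o A ψ = 0 := fun A hA => by
    have : J1 o k ψ * PA o A = Jc o A ψ := by simp [J1, Finset.sum_mul, Jc_mul_PA, hA]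
    rw [← this, ← Matrix.mul_assoc, hJ, Matrix.zero_mul]
  have e : Y1 o k a ψ = ∑ S, a S • ((if S.card = k + 1 then Jc o S ψ * (Jc o S ψ)ᴴ else 0) +
      ∑ A, XT o A (lowv o k ψ A S)) := by
    simp only [Y1, lowZ, lv, smul_add, Finset.sum_add_distrib, Finset.sum_filter, smul_ite,
      smul_zero, Finset.smul_sum, Fintype.sum_prod_type_right]
  rw [e]
  simp only [Finset.mul_sum (a := Q), Finset.sum_mul (a := Q), Matrix.mul_smul, Matrix.smul_mul]
  exact Finset.sum_le_sum fun S _ => rsmul_le (F5.one o k ψ hQ h0 S) (ha S)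

theorem t_R10 : S_R10 := by
  intro ι α _ _ _ _ o k a ψ g hg hg1 hk ha h1
  have e1 : eps o ψ = ∑ x, ‖ψ x‖ ^ 2 * F5.ind (spt o x ≠ ∅) := by
    refine Finset.sum_congr rfl fun x _ => ?_
    have : spt o x = ∅ ↔ x = fun _ => o := by simp only [spt, ne_eq, Finset.filter_eq_empty_iff, Finset.mem_univ, Decidable.not_not, forall_const, funext_iff]
    simp only [prp, F5.ind, ne_eq, this]
    split_ifs <;> simp
  have e2 : mH o k a ψ - mG o k a ψ + 1 / Fintype.card ι * mB o k a ψ =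
      ∑ x, ‖ψ x‖ ^ 2 * ∑ C ∈ lv ι k, F5.cF a (spt o x) C := by
    simp only [mH, mG, mB, hh, gg, be, F5.wt_eq, F5.cF, Finset.mul_sum]
    rw [Finset.sum_comm (s := Finset.univ), ← Finset.sum_sub_distrib, ← Finset.sum_add_distrib]
    refine Finset.sum_congr rfl fun C _ => ?_
    simp only [mul_add, mul_sub, Finset.mul_sum, Finset.sum_add_distrib, Finset.sum_sub_distrib]
    simp only [Finset.sum_comm (s := Finset.univ) (t := Cᶜ), mul_left_comm]
    ring
  rw [e1, e2, Finset.mul_sum]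
  refine Finset.sum_le_sum fun x _ => ?_
  by_cases hx : (spt o x).card = 1
  · simp only [h1 x hx, norm_zero, ne_eq, OfNat.ofNat_ne_zero, not_false_eq_true, zero_pow, zero_mul, mul_zero, Std.le_refl]
  · rw [mul_left_comm]
    exact mul_le_mul_of_nonneg_left (F5.cF_sum hg hg1 hk ha hx) (by positivity)

end Pool.Agent.MP_b746ed_mp.LD
end
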