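import Pool.Agent.MP_b746ed_mp.LD.A
import Pool.Agent.MP_b746ed_mp.LD.B
import Pool.Agent.MP_b746ed_mp.LD.C
import Pool.Agent.MP_b746ed_mp.LD.D

attribute [-instance] AddQuantale.instAddLeftMono Nontrivial.to_nonempty
  IdemSemiring.toCanonicallyOrderedAdd Zero.instNonempty bot_nonempty LieAdmissibleAlgebra.toModule
  RightPreLieAlgebra.toModule LeftPreLieAlgebra.toModule covariant_swap_mul_of_covariant_mul
  One.instNonempty NumberField.to_charZero AddTorsor.nonempty AddQuantale.instAddRightMono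
  Module.FaithfullyFlat.toFlat Quantale.instMulRightMono GrpTypeEquivalenceGrp.grpGroup
  IdemSemiring.toMulLeftMono RCLike.toInnerProductSpaceReal top_nonempty instCoeHTCOfCoeHeadOfCoeOTC
  ConnectedSpace.toNonempty TotallySeparatedSpace.t2Space LieAdmissibleRing.toNonUnitalNonAssocRing
  MulSemiringAction.toDistribMulAction IsStarProjection.instTrivialStarOfStarOrderedRing
  instCoeTCOfCoe IsOrderedMonoid.toMulLeftMono MonTypeEquivalenceMon.monMonoid CommGroup.toGroup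
  IsStrictOrderedRing.toIsOrderedRing

/-! Large local dimension: the regime near products, the reduction and the final step. -/

section
/-! Large local dimension: the approximate isometry on the low levels near a product vector. -/

set_option autoImplicit false
set_option linter.unusedSectionVars false
open scoped ComplexOrder MatrixOrder
open Matrix

namespace Pool.Agent.MP_b746ed_mp.LD
open KF
open H14 (trf dg)

namespace F23
variable {ι α : Type} [Fintype ι] [DecidableEq ι] [Fintype α] [DecidableEq α]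

lemma hs_bd {β ρ : Type} [Fintype β] [DecidableEq β] [Fintype ρ] (s : Finset ρ)
    {A : ρ → Matrix β β ℂ} {b : ℝ} (hb : 0 ≤ b) (h : ∀ r ∈ s, hs (A r) ≤ b) :
    hs (∑ r ∈ s, A r) ≤ Fintype.card ρ ^ 2 * b := by
  have h1 := Finset.sum_le_card_nsmul s _ _ h
  have h2 : (s.card : ℝ) ≤ Fintype.card ρ := by exact_mod_cast s.card_le_univ
  rw [nsmul_eq_mul] at h1
  refine (hs_sum_le s A).trans ((mul_le_mul_of_nonneg_left h1 (Nat.cast_nonneg _)).trans ?_)
  rw [← mul_assoc, ← sq]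
  gcongr

lemma opb_bd {β ρ : Type} [Fintype β] [DecidableEq β] [Fintype ρ] (s : Finset ρ)
    {A : ρ → Matrix β β ℂ} {b : ℝ} (hb : 0 ≤ b) (h : ∀ r ∈ s, Opb (A r) b) :
    Opb (∑ r ∈ s, A r) (Fintype.card ρ * b) := by
  have h2 : (s.card : ℝ) ≤ Fintype.card ρ := by exact_mod_cast s.card_le_univ
  refine (opb_sum s h fun _ _ => hb).mono (Finset.sum_nonneg fun _ _ => hb) ?_
  rw [Finset.sum_const, nsmul_eq_mul]
  gcongr

lemma adm_bd {k : ℕ} {δ : ℝ} {a : Finset ι → ℝ} (h : Adm k 0 δ a) (hδ : δ ≤ 1) (S : Finset ι) :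
    0 ≤ a S ∧ a S ≤ 1 := by
  obtain ⟨h1, h2, h3, h4⟩ := h
  have h0 : ∀ S, 0 ≤ a S := fun S => by
    rcases lt_trichotomy S.card k with h | h | h
    · exact (h1 S h).ge
    · rw [h2 S h]; exact zero_le_one
    · rcases (Nat.succ_le_of_lt h).eq_or_lt with h | h
      · exact (h3 S h.symm).1
      · exact (h4 S h).1
  refine ⟨h0 S, ?_⟩
  rcases lt_trichotomy S.card k with h | h | h
  · rw [h1 S h]; exact zero_le_one
  · exact (h2 S h).le
  · rcases (Nat.succ_le_of_lt h).eq_or_lt with h | h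
    · exact (Finset.single_le_sum (fun S _ => h0 S) (by simp)).trans (h3 S h.symm).2
    · exact (h4 S h).2.trans hδ

lemma nq_ge (o : α) (A : Finset ι) {ψ : (ι → α) → ℂ} (h : nv ψ = 1) :
    1 - eps o ψ ≤ nq o A ψ := by
  rw [eps, nv_prp, h, nq_eq, sub_sub_cancel]
  exact Finset.single_le_sum (f := fun z => ‖ψ z‖ ^ 2) (fun _ _ => by positivity)
    (by simp [mem_cfg])

lemma pow_le (o : α) {m k : ℕ} (h : m ≤ k) :
    ((Fintype.card α : ℝ) - 1) ^ m ≤ Fintype.card α ^ k := by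
  have : (1 : ℝ) ≤ Fintype.card α := by exact_mod_cast Fintype.card_pos_iff.2 ⟨o⟩
  exact (pow_le_pow_left₀ (by linarith only [this]) (by linarith only []) m).trans (pow_le_pow_right₀ this h)

lemma nv_one_sub (o : α) {A S : Finset ι} (hA : A ⊆ S) {ψ : (ι → α) → ℂ} (h : nv ψ = 1) :
    nv ((1 - XT o S ψ) *ᵥ emb o A ψ) ≤ 2 * eps o ψ := by
  have h0 : 0 ≤ 1 - XT o S ψ := sub_nonneg.2 (by simpa only [h, one_smul] using XT_le o S ψ)
  have h1 := sq_le_of_le h0 (c := 1) (by simpa only [one_smul, tsub_le_iff_right, le_add_iff_nonneg_right] using XT_nonneg o S ψ)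
  have e : col o S ψ (fun _ => o) = emb o S ψ := funext fun x => by
    simp only [col, emb]
    exact if_ctx_congr Iff.rfl (fun hx => by rw [mask_of_mem o S hx]) fun _ => rfl
  have h2 : op (emb o S ψ) (emb o S ψ) ≤ XT o S ψ := by
    refine le_trans ?_ (xop_le_XT o S ψ)
    rw [xop_eq_sum, ← e]
    exact Finset.single_le_sum (f := fun y => op (col o S ψ y) (col o S ψ y))
      (fun _ _ => op_nonneg _) (by simp [mem_cfg])
  have h3 : ip (emb o S ψ) (emb o A ψ) = (nq o S ψ : ℂ) := by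
    rw [nq, ← ip_self_nv, ip_eq, ip_eq]
    refine Finset.sum_congr rfl fun x _ => ?_
    by_cases hx : ∀ i ∈ S, x i = o
    · rw [emb, emb, if_pos hx, if_pos fun i hi => hx i (hA hi)]
    · simp only [emb, if_neg hx, star_zero, zero_mul]
  rw [one_smul] at h1
  have h4 := (le_iff_ip (by rw [conjTranspose_mul, herm_of_nonneg h0]) (by
    simp [op_conjTranspose])).1 (h1.trans (sub_le_sub_left h2 1)) (emb o A ψ)
  rw [← mulVec_mulVec, ip_mulVec, herm_of_nonneg h0, ← nv_eq_ip, sub_mulVec 1 (op _ _), one_mulVec,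
    op_mulVec, ip_sub_right, ip_smul_right, ← star_ip (emb o S ψ), h3, Complex.sub_re, ← nv_eq_ip,
    Complex.star_def, Complex.conj_ofReal, ← Complex.ofReal_mul, Complex.ofReal_re] at h4
  have h5 : nv (emb o A ψ) ≤ 1 := h ▸ nq_le o A ψ
  linarith only [nq_ge o S h, sq_nonneg (1 - nq o S ψ), h4, h5]

end F23

open F23 in
theorem t_F23 (hCRS : S_CRS) (hRA : S_RA) : S_F23 := by
  intro ι _ _
  set N : ℝ := (Fintype.card (Finset ι) : ℝ) with hN
  have N0 : 0 ≤ N := Nat.cast_nonneg _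
  have N1 : 0 ≤ N * N := by positivity
  have N2 : 0 ≤ N ^ 2 * N ^ 2 := by positivity
  refine ⟨N + 1 + 2 * (N * N) + 2 * (N ^ 2 * N ^ 2), by positivity, ?_⟩
  rintro α _ _ o k a ψ δ ⟨d0, d1, ha, ⟨hψ, -, -⟩, he, hd⟩
  have hb := adm_bd ha d1
  have e0 : 0 ≤ eps o ψ := nv_nonneg _
  have c1 : (1 : ℝ) ≤ Fintype.card α := by exact_mod_cast Fintype.card_pos_iff.2 ⟨o⟩
  have q1 : ∀ A, nq o A ψ ≤ 1 := fun A => hψ ▸ nq_le o A ψ
  have q2 : ∀ A, nq o A (prp o ψ) ≤ eps o ψ := fun A => nq_le o A _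
  have q3 : ∀ A, √(nq o A ψ) ≤ 1 := fun A => Real.sqrt_le_one.2 (q1 A)
  have q4 : ∀ A, √(nq o A (prp o ψ)) ≤ δ := fun A => Real.sqrt_le_iff.2 ⟨d0.le, (q2 A).trans he⟩
  have X1 : ∀ S, Opb (XT o S ψ) 1 := fun S => hψ ▸ (nuc_XT o S ψ).opb
  set s : Finset (Finset ι) := Finset.univ.filter fun A => A.card ≤ k with hs'
  have eX : (J1 o k ψ)ᴴ * J1 o k ψ - P1 o k = ∑ A ∈ s, ∑ B ∈ s,
      ((Jc o A ψ)ᴴ * Jc o B ψ - if A = B then PA o A else 0) := by
    simp only [J1, P1, conjTranspose_sum, Finset.sum_mul_sum, Finset.sum_sub_distrib,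
      Finset.sum_ite_eq, ← hs']
    rw [Finset.sum_congr rfl fun A hA => if_pos hA]
  have bX : ∀ A ∈ s, ∀ B ∈ s, Opb ((Jc o A ψ)ᴴ * Jc o B ψ - if A = B then PA o A else 0) δ ∧
      hs ((Jc o A ψ)ᴴ * Jc o B ψ - if A = B then PA o A else 0) ≤
        δ ^ 2 * eps o ψ * Fintype.card α ^ k := fun A hA B hB => by
    have hA' : A.card ≤ k := (Finset.mem_filter.1 hA).2
    have hB' : B.card ≤ k := (Finset.mem_filter.1 hB).2
    split_ifs with h
    · subst h
      have e : (Jc o A ψ)ᴴ * Jc o A ψ - PA o A = -((1 - nq o A ψ) • PA o A) := by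
        rw [Jc_gram, ip_self_nv, Complex.coe_smul, sub_smul, one_smul, neg_sub, nq]
      have a1 := nq_ge o A hψ
      have a2 := q1 A
      rw [e, hs_neg, hs_rsmul, hs_eq_rt, PA_conj, (PA_proj o A).2, rt_PA]
      refine ⟨((opb_PA o A).rsmul _).neg.mono (by linarith only [a2]) (by nlinarith only [d0, d1, he, a1]), ?_⟩
      exact mul_le_mul (by nlinarith only [he, a1, a2]) (pow_le o hA') (pow_nonneg (by linarith only [c1]) _) (by positivity)
    · have a1 : (A ∩ B).card + 1 ≤ k := by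
        by_contra hc
        exact h ((Finset.eq_of_subset_of_card_le Finset.inter_subset_left (by omega)).symm.trans
          (Finset.eq_of_subset_of_card_le Finset.inter_subset_right (by omega)))
      have a2 : (Fintype.card α : ℝ) ^ (A ∩ B).card ≤ δ ^ 2 * Fintype.card α ^ k := by
        have := pow_le_pow_right₀ c1 a1
        rw [pow_succ] at this
        refine (le_mul_of_one_le_right (by positivity) hd).trans ?_
        rw [mul_left_comm]
        gcongr
      have a3 : ∀ f g : (ι → α) → ℂ, nq o A f * nq o B g ≤ eps o ψ →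
          hs ((Jc o A f)ᴴ * Jc o B g) ≤ δ ^ 2 * eps o ψ * Fintype.card α ^ k := fun f g hfg => by
        refine (hCRS ι α o A B f g).2.2.2.trans ?_
        rw [mul_right_comm]
        exact mul_le_mul a2 hfg (mul_nonneg (nq_nonneg _ _ _) (nq_nonneg _ _ _)) (by positivity)
      rw [sub_zero]
      by_cases hBA : B ⊆ A
      · rw [(hCRS ι α o A B ψ ψ).2.1 fun h' => h (h'.antisymm hBA)]
        exact ⟨((opb_Jc o A _).conj.mul (opb_Jc o B _)).mono (by positivity)
          ((mul_le_of_le_one_left (Real.sqrt_nonneg _) (q3 A)).trans (q4 B)), a3 _ _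
          ((mul_le_of_le_one_left (nq_nonneg _ _ _) (q1 A)).trans (q2 B))⟩
      · rw [(hCRS ι α o A B ψ ψ).1 hBA]
        exact ⟨((opb_Jc o A _).conj.mul (opb_Jc o B _)).mono (by positivity)
          ((mul_le_of_le_one_right (Real.sqrt_nonneg _) (q3 B)).trans (q4 A)), a3 _ _
          ((mul_le_of_le_one_right (nq_nonneg _ _ _) (q1 B)).trans (q2 A))⟩
  have D0 : 0 ≤ eps o ψ * Fintype.card α ^ k := by positivity
  have bH : ∀ A ∈ s, hs (HH o a ψ * Jc o A ψ - (∑ S with A ⊆ S, a S - 1) • Jc o A ψ) ≤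
      N ^ 2 * (2 * (eps o ψ * Fintype.card α ^ k)) := fun A hA => by
    have hA' : A.card ≤ k := (Finset.mem_filter.1 hA).2
    have e : HH o a ψ * Jc o A ψ - (∑ S with A ⊆ S, a S - 1) • Jc o A ψ =
        ∑ S, a S • (XT o S ψ * Jc o A ψ - if A ⊆ S then Jc o A ψ else 0) := by
      simp only [HH, sub_mul, Finset.sum_mul, smul_mul_assoc, one_mul, sub_smul, one_smul,
        Finset.sum_filter, Finset.sum_smul, smul_sub, Finset.sum_sub_distrib, ite_smul, smul_ite,
        zero_smul, smul_zero]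
      abel
    rw [e]
    refine hs_bd _ (by positivity) fun S _ => ?_
    rw [hs_rsmul]
    refine (mul_le_of_le_one_left (hs_nonneg _) (pow_le_one₀ (hb S).1 (hb S).2)).trans ?_
    split_ifs with h
    · rw [← hs_neg, neg_sub, ← one_sub_mul, (lo_one.sub ((nuc_XT o S ψ).lo h)).mul_Jc, hs_Jc,
        ← mul_assoc, mul_comm]
      exact mul_le_mul ((nq_le _ _ _).trans (nv_one_sub o h hψ)) (pow_le o hA')
        (pow_nonneg (by linarith only [c1]) _) (by positivity)
    · have a1 := rt_mono (conj_le (sq_le_of_le (XT_nonneg o S ψ) (XT_le o S ψ)) (Jc o A ψ))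
      have a2 := (hRA ι α o A S ψ ψ).1 h
      have a3 := mul_le_mul (pow_le_pow_right₀ c1 ((Finset.card_le_card
        (Finset.inter_subset_left (s₂ := S))).trans hA')) (mul_le_of_le_one_left e0 (q1 A))
        (mul_nonneg (nq_nonneg _ _ _) e0) (by positivity)
      rw [hψ, one_smul] at a1
      rw [sub_zero, hs_eq_rt, conjTranspose_mul, XT_conj]
      simp only [Matrix.mul_assoc] at a1 a2 ⊢
      linarith only [D0, a3, a1, a2]
  refine ⟨⟨?_, ?_⟩, ?_, ?_, ?_, ?_, ?_, fun A => ∑ S with A ⊆ S, a S - 1, fun A => ?_,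
    fun A hA => ?_, ?_⟩
  · simp only [P1, conjTranspose_sum, PA_conj]
  · simp only [P1, Finset.sum_mul_sum, PA_mul, Finset.sum_ite_eq]
    exact Finset.sum_congr rfl fun A hA => if_pos hA
  · simp only [J1, P1, Finset.sum_mul_sum, Jc_mul_PA, Finset.sum_ite_eq]
    exact Finset.sum_congr rfl fun A hA => if_pos hA
  · rw [J1, conjTranspose_sum, Finset.sum_mul_sum]
    refine Finset.sum_le_sum fun A hA => ?_
    rw [Finset.sum_eq_single_of_mem A hA fun B _ hB => ?_]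
    · exact (Jc_mul_le o A ψ).trans (xop_le_XT o A ψ)
    · rw [Jc, Jc, conjTranspose_mul, PA_conj, Matrix.mul_assoc, ← Matrix.mul_assoc (PA _ _),
        PA_mul, if_neg hB.symm, Matrix.zero_mul, Matrix.mul_zero]
  · refine ((opb_bd _ zero_le_one fun S _ => ((X1 S).rsmul (a S)).mono (by linarith only [(hb S).1])
      (by linarith [(hb S).2])).sub opb_one (by positivity) zero_le_one).mono (by positivity) ?_
    linarith
  · rw [eX]
    refine (opb_bd _ (by positivity) fun A hA => opb_bd _ d0.le fun B hB => (bX A hA B hB).1).mono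
      (by positivity) ?_
    rw [← mul_assoc]
    exact mul_le_mul_of_nonneg_right (by linarith) d0.le
  · rw [eX]
    refine (hs_bd _ (by positivity) fun A hA => hs_bd _ (by positivity) fun B hB =>
      (bX A hA B hB).2).trans ?_
    rw [← mul_assoc, mul_assoc _ (δ ^ 2), mul_assoc _ (δ ^ 2 * _)]
    exact mul_le_mul_of_nonneg_right (by linarith) (by positivity)
  · have a1 : 0 ≤ ∑ S with A ⊆ S, a S := Finset.sum_nonneg fun S _ => (hb S).1
    have a2 := Finset.sum_le_card_nsmul (Finset.univ.filter fun S => A ⊆ S) _ _ fun S _ => (hb S).2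
    have a3 : ((Finset.univ.filter fun S => A ⊆ S).card : ℝ) ≤ N := by
      rw [hN]; exact_mod_cast Finset.card_le_univ _
    rw [nsmul_eq_mul] at a2
    exact abs_le.2 ⟨by linarith, by linarith⟩
  · refine (bH A (by simpa [hs'] using hA)).trans ?_
    rw [← mul_assoc, mul_assoc _ (eps o ψ)]
    exact mul_le_mul_of_nonneg_right (by linarith) D0
  · have e : HH o a ψ * J1 o k ψ - J1 o k ψ * ∑ A, (∑ S with A ⊆ S, a S - 1) • PA o A =
        ∑ A ∈ s, (HH o a ψ * Jc o A ψ - (∑ S with A ⊆ S, a S - 1) • Jc o A ψ) := by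
      rw [J1, Finset.mul_sum, Finset.sum_mul, ← Finset.sum_sub_distrib]
      refine Finset.sum_congr rfl fun A _ => ?_
      simp only [Finset.mul_sum, Matrix.mul_smul, Jc_mul_PA, smul_ite, smul_zero,
        Finset.sum_ite_eq, Finset.mem_univ, if_true]
    rw [e]
    refine (hs_bd _ (by positivity) bH).trans ?_
    rw [← mul_assoc, ← mul_assoc, mul_assoc _ (eps o ψ)]
    exact mul_le_mul_of_nonneg_right (by linarith) D0

end Pool.Agent.MP_b746ed_mp.LD
end

section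
set_option autoImplicit false
set_option linter.unusedSectionVars false
open scoped ComplexOrder MatrixOrder
open Matrix

namespace Pool.Agent.MP_b746ed_mp.LD
open KF
open H14 (trf dg)

namespace F4a

lemma cs {β : Type} (s : Finset β) (a b : β → ℂ) :
    ‖∑ z ∈ s, star (a z) * b z‖ ^ 2 ≤ (∑ z ∈ s, ‖a z‖ ^ 2) * ∑ z ∈ s, ‖b z‖ ^ 2 := by
  refine le_trans (pow_le_pow_left₀ (norm_nonneg _) ((norm_sum_le _ _).trans (le_of_eq ?_)) 2)
    (Finset.sum_mul_sq_le_sq_mul_sq s (fun z => ‖a z‖) fun z => ‖b z‖)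
  simp only [norm_mul, norm_star]

lemma add_sq_le (a b : ℂ) {θ : ℝ} (h : 0 < θ) :
    ‖a + b‖ ^ 2 ≤ (1 + θ) * ‖a‖ ^ 2 + (1 + θ⁻¹) * ‖b‖ ^ 2 := by
  have h1 := pow_le_pow_left₀ (norm_nonneg _) (norm_add_le a b) 2
  have h2 : 0 ≤ θ⁻¹ * (θ * ‖a‖ - ‖b‖) ^ 2 := by positivity
  have h3 : θ⁻¹ * (θ * ‖a‖ - ‖b‖) ^ 2 = θ * ‖a‖ ^ 2 - 2 * (‖a‖ * ‖b‖) + θ⁻¹ * ‖b‖ ^ 2 := by
    field_simp
    ring
  linarith [add_sq ‖a‖ ‖b‖]

lemma num {p a i h b δ Q : ℝ} (ha : 0 ≤ a) (hi : 0 ≤ i) (hh : 0 ≤ h) (hb : 0 ≤ b)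
    (hb' : b ≤ i + h) (h1 : p + a + (i + h) = 1) (hδ : 0 ≤ δ) (hδ1 : δ ≤ 1) (he : 1 - p ≤ δ ^ 2)
    (hQ : ∀ θ : ℝ, 0 < θ →
      Q ≤ (p + a) * (p + a) + ((1 + θ) * i + (1 + θ⁻¹) * (h * a)) + (a + h) * b) :
    (2 - (p + a + b)) * Q ≤ 1 - h - b + 20 * δ * (1 - p) := by
  obtain ⟨e, he'⟩ : ∃ e, e = 1 - p := ⟨_, rfl⟩
  rw [← he'] at he ⊢
  have e0 : 0 ≤ e := by linarith
  have d2 : δ ^ 2 ≤ δ := by nlinarith only [hδ, hδ1]
  have ee : e * e ≤ δ * e := mul_le_mul_of_nonneg_right (he.trans d2) e0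
  have mm : ∀ x y : ℝ, 0 ≤ y → x ≤ e → y ≤ e → x * y ≤ e * e := fun x y hy hx hy' =>
    mul_le_mul hx hy' hy e0
  have q1 : Q ≤ (p + a) * (p + a) + i + 4 * (δ * e) := by
    have k1 := mm h a ha (by linarith) (by linarith)
    have k2 := mm (a + h) b hb (by linarith) (by linarith)
    rcases hδ.eq_or_lt with rfl | hd
    · have k3 := hQ 1 one_pos
      have : e = 0 := by linarith only [ha, hi, hh, h1, he', he]
      rw [inv_one] at k3
      rw [this] at k1 k2 ⊢
      linarith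
    · have k3 := hQ δ hd
      have k4 : δ * i ≤ δ * e := mul_le_mul_of_nonneg_left (by linarith only [ha, hh, h1, he']) hδ
      have k5 : δ⁻¹ * (h * a) ≤ δ * e := by
        rw [inv_mul_le_iff₀ hd]
        linarith only [mul_le_mul_of_nonneg_right he e0, k1]
      linarith
  have q2 := mul_le_mul_of_nonneg_left q1 (show 0 ≤ 2 - (p + a + b) by linarith only [hb', h1])
  have s1 : p + a = 1 - (i + h) := by linarith only [h1]
  rw [s1] at q2 ⊢
  obtain ⟨t, ht⟩ : ∃ t, t = i + h := ⟨_, rfl⟩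
  rw [← ht] at q2 hb' ⊢
  have t0 : 0 ≤ t := by linarith
  have t1 : t ≤ e := by linarith
  have e1 : e ≤ 1 := by linarith only [hδ1, he, d2]
  have k1 := mm t t t0 t1 t1
  have k2 : (t - b) * i ≤ e * e := mm _ _ hi (by linarith only [ha, hb, h1, he', ht]) (by linarith only [ha, hh, h1, he'])
  have k3 : (t - b) * (t * t) ≤ t * t :=
    mul_le_of_le_one_left (mul_nonneg t0 t0) (by linarith only [ha, hb, h1, hδ1, he, he', d2, ht])
  have k4 : (t - b) * (δ * e) ≤ δ * e :=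
    mul_le_of_le_one_left (mul_nonneg hδ e0) (by linarith only [ha, hb, h1, hδ1, he, he', d2, ht])
  have k5 : 0 ≤ (t - b) * t := mul_nonneg (by linarith only [hb']) t0
  have k6 : 0 ≤ δ * e := mul_nonneg hδ e0
  have k7 : (2 - (1 - t + b)) * ((1 - t) * (1 - t) + i + 4 * (δ * e)) =
      1 - t + i - b + t * t + 4 * (δ * e) - 2 * ((t - b) * t) + (t - b) * i +
        (t - b) * (t * t) + 4 * ((t - b) * (δ * e)) := by ring
  linarith

lemma abs {β : Type} [DecidableEq β] {Y Z W : Finset β} {c : β} (M : β → β → ℂ) (hY : c ∈ Y)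
    (hZ : c ∈ Z) (hW : W ⊆ Y.erase c) (h0 : ∀ w ∈ W, M w c = 0) {δ : ℝ} (hδ : 0 ≤ δ)
    (hδ1 : δ ≤ 1) (h1 : ∑ y ∈ Y, ∑ z ∈ Z, ‖M y z‖ ^ 2 = 1) (he : 1 - ‖M c c‖ ^ 2 ≤ δ ^ 2) :
    (2 - (∑ z ∈ Z, ‖M c z‖ ^ 2 + ∑ w ∈ W, ∑ z ∈ Z, ‖M w z‖ ^ 2)) *
      ∑ y ∈ Y, (‖∑ z ∈ Z, star (M y z) * M c z‖ ^ 2 +
        ∑ w ∈ W, ‖∑ z ∈ Z, star (M y z) * M w z‖ ^ 2) ≤
      1 - ∑ y ∈ Y.erase c, ∑ z ∈ Z.erase c, ‖M y z‖ ^ 2 - ∑ w ∈ W, ∑ z ∈ Z, ‖M w z‖ ^ 2 +
        20 * δ * (1 - ‖M c c‖ ^ 2) := by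
  have row : ∀ y, ∑ z ∈ Z, ‖M y z‖ ^ 2 = ‖M y c‖ ^ 2 + ∑ z ∈ Z.erase c, ‖M y z‖ ^ 2 := fun y =>
    (Finset.add_sum_erase _ (fun z => ‖M y z‖ ^ 2) hZ).symm
  have tot : ∑ y ∈ Y.erase c, ∑ z ∈ Z, ‖M y z‖ ^ 2 =
      ∑ y ∈ Y.erase c, ‖M y c‖ ^ 2 + ∑ y ∈ Y.erase c, ∑ z ∈ Z.erase c, ‖M y z‖ ^ 2 := by
    simp only [row, Finset.sum_add_distrib]
  rw [← Finset.add_sum_erase _ _ hY, tot, row c] at h1
  have ha : 0 ≤ ∑ z ∈ Z.erase c, ‖M c z‖ ^ 2 := by positivity
  have hi : 0 ≤ ∑ y ∈ Y.erase c, ‖M y c‖ ^ 2 := by positivity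
  have hh : 0 ≤ ∑ y ∈ Y.erase c, ∑ z ∈ Z.erase c, ‖M y z‖ ^ 2 := by positivity
  rw [row c]
  refine num ha hi hh (by positivity) (tot ▸ Finset.sum_le_sum_of_subset_of_nonneg hW
    fun _ _ _ => by positivity) h1 hδ hδ1 he fun θ hθ => ?_
  rw [Finset.sum_add_distrib, ← Finset.add_sum_erase _ _ hY]
  refine add_le_add (add_le_add (row c ▸ cs Z (M c) (M c)) ?_) ?_
  · rw [Finset.mul_sum, Finset.sum_mul, Finset.mul_sum, ← Finset.sum_add_distrib]
    refine Finset.sum_le_sum fun y _ => ?_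
    rw [← Finset.add_sum_erase _ _ hZ]
    refine (add_sq_le _ _ hθ).trans (add_le_add ?_ ?_)
    · refine mul_le_mul_of_nonneg_left ?_ (by positivity)
      rw [norm_mul, norm_star, mul_pow]
      exact mul_le_of_le_one_right (by positivity) (by linarith)
    · exact mul_le_mul_of_nonneg_left (cs _ (M y) (M c)) (by positivity)
  · rw [Finset.add_sum_erase _ (fun y => ∑ z ∈ Z.erase c, ‖M y z‖ ^ 2) hY, Finset.sum_mul_sum]
    refine Finset.sum_le_sum fun y _ => Finset.sum_le_sum fun w hw => ?_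
    rw [← Finset.add_sum_erase _ _ hZ, row w, h0 w hw, mul_zero, zero_add, norm_zero,
      zero_pow two_ne_zero, zero_add]
    exact cs _ (M y) (M w)

variable {ι α : Type} [Fintype ι] [DecidableEq ι] [Fintype α] [DecidableEq α] (o : α)
  (S : Finset ι)

lemma form (ψ v : (ι → α) → ℂ) : (ip v (XT o S ψ *ᵥ v)).re = ∑ y ∈ cfg o S, ∑ w ∈ cfg o S,
    ‖∑ z ∈ cfg o Sᶜ, star (ψ (pw S y z)) * v (pw S w z)‖ ^ 2 := by
  simp only [XT, xop_eq_sum, sum_mulVec, ip_sum_right, op_mulVec, ip_smul_right, Complex.re_sum]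
  refine Finset.sum_congr rfl fun y _ => Finset.sum_congr rfl fun w _ => ?_
  have e1 : ip (col o S (sl S y ψ) w) v = ∑ z ∈ cfg o Sᶜ, star (ψ (pw S y z)) * v (pw S w z) := by
    have := sum_agree o S w fun a => star (sl S y ψ (mask o S a)) * v a
    rw [Finset.sum_congr (s₁ := cfg o Sᶜ) rfl fun z hz => by rw [mask_pw o S w hz]] at this
    rw [ip_eq]
    refine Eq.trans (Finset.sum_congr rfl fun a _ => ?_) this
    simp only [col]
    split_ifs <;> simp
  have e2 : ip v (col o S (sl S y ψ) w) = star (ip (col o S (sl S y ψ) w) v) := by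
    simp only [ip_eq, RCLike.star_def, mul_comm, star_sum, star_mul', RingHomCompTriple.comp_apply, RingHom.id_apply]
  rw [e2, e1, Complex.star_def, Complex.mul_conj', ← Complex.ofReal_pow, Complex.ofReal_re]

lemma disj_iff {C : Finset ι} (h : C ⊆ S) (y z : ι → α) :
    Disjoint (spt o (pw S y z)) C ↔ ∀ i ∈ C, y i = o := by
  simp only [Finset.disjoint_right, mem_spt, not_not]
  exact forall_congr' fun i => forall_congr' fun hi => by simp [pw, h hi]

lemma eq_iff {y : ι → α} (hy : y ∈ cfg o S) : (∀ i ∈ S, y i = o) ↔ y = fun _ => o :=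
  ⟨fun h => funext fun i => (em (i ∈ S)).elim (h i) ((mem_cfg o S).1 hy i), fun h _ _ => by rw [h]⟩

lemma sub_iff (y : ι → α) {z : ι → α} (hz : z ∈ cfg o Sᶜ) :
    spt o (pw S y z) ⊆ S ↔ z = fun _ => o := by
  rw [← mem_cfg_iff, mem_cfg, ← eq_iff o Sᶜ hz]
  exact forall_congr' fun i => by by_cases hi : i ∈ S <;> simp [pw, hi]

end F4a

theorem t_F4a : S_F4a := by
  intro ι α _ _ _ _ o ψ C S δ ⟨h1, _, h3⟩ hδ hδ1 he hC hc
  have c0 : ∀ T : Finset ι, (fun _ => o) ∈ cfg o T := fun T => by simp [mem_cfg]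
  have c1 : (fun _ => o) ∈ (cfg o S).filter fun w => ∀ i ∈ C, w i = o := by simp only [Finset.mem_filter, c0, implies_true, and_self]
  have p0 : pw S (fun _ => o) (fun _ => o) = fun _ : ι => o := by funext i; simp [pw]
  have em : ∀ w z, emb o C ψ (pw S w z) = if ∀ i ∈ C, w i = o then ψ (pw S w z) else 0 :=
    fun w z => if_congr (forall_congr' fun i => forall_congr' fun hi => by simp [pw, hC hi]) rfl rfl
  have key := F4a.abs (W := ((cfg o S).filter fun w => ∀ i ∈ C, w i = o).erase fun _ => o)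
    (fun y z => ψ (pw S y z)) (c0 S) (c0 Sᶜ)
    (Finset.erase_subset_erase _ (Finset.filter_subset _ _)) (fun w hw => h3 _ ?_) hδ hδ1
    (by rw [← h1, nv, sum_pw o S]) (by rw [p0, ← h1, ← nv_prp]; exact he)
  · have e1 : nq o C ψ = ∑ w ∈ (cfg o S).filter fun w => ∀ i ∈ C, w i = o,
        ∑ z ∈ cfg o Sᶜ, ‖ψ (pw S w z)‖ ^ 2 := by
      rw [nq, nv, sum_pw o S, Finset.sum_filter]
      refine Finset.sum_congr rfl fun w _ => ?_
      simp only [em]
      split_ifs <;> simp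
    have e2 : (ip (emb o C ψ) (XT o S ψ *ᵥ emb o C ψ)).re = ∑ y ∈ cfg o S,
        ∑ w ∈ (cfg o S).filter fun w => ∀ i ∈ C, w i = o,
          ‖∑ z ∈ cfg o Sᶜ, star (ψ (pw S y z)) * ψ (pw S w z)‖ ^ 2 := by
      rw [F4a.form]
      refine Finset.sum_congr rfl fun y _ => ?_
      rw [Finset.sum_filter]
      refine Finset.sum_congr rfl fun w _ => ?_
      simp only [em]
      split_ifs <;> simp
    have e3 : hh o ψ S = ∑ y ∈ (cfg o S).erase fun _ => o, ∑ z ∈ (cfg o Sᶜ).erase fun _ => o,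
        ‖ψ (pw S y z)‖ ^ 2 := by
      rw [hh, wt, sum_pw o S, ← Finset.filter_ne', ← Finset.filter_ne', Finset.sum_filter]
      refine Finset.sum_congr rfl fun y hy => ?_
      rw [Finset.sum_filter, Finset.sum_congr rfl fun z hz => if_congr (and_congr (not_congr
        ((F4a.disj_iff o S subset_rfl y z).trans (F4a.eq_iff o S hy)))
        (not_congr (F4a.sub_iff o S y hz))) rfl rfl]
      by_cases h : y = fun _ => o <;> simp [h]
    have e4 : be o ψ C S = ∑ w ∈ ((cfg o S).filter fun w => ∀ i ∈ C, w i = o).erase fun _ => o,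
        ∑ z ∈ cfg o Sᶜ, ‖ψ (pw S w z)‖ ^ 2 := by
      rw [be, wt, sum_pw o S, ← Finset.filter_ne', Finset.filter_filter, Finset.sum_filter]
      refine Finset.sum_congr rfl fun y hy => ?_
      rw [Finset.sum_congr rfl fun z _ => if_congr (and_congr (F4a.disj_iff o S hC y z) (not_congr
        ((F4a.disj_iff o S subset_rfl y z).trans (F4a.eq_iff o S hy)))) rfl rfl]
      split_ifs <;> simp
    rw [e1, e2, e3, e4, eps, nv_prp, h1, ← Finset.add_sum_erase _ _ c1]
    simp only [← Finset.add_sum_erase _ _ c1]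
    rw [p0] at key
    exact key
  · obtain ⟨hw0, hw⟩ := Finset.mem_erase.1 hw
    obtain ⟨hw1, hw2⟩ := Finset.mem_filter.1 hw
    refine le_antisymm ((Finset.card_le_card fun i hi => Finset.mem_sdiff.2
      ⟨(F4a.sub_iff o S w (c0 _)).2 rfl hi, Finset.disjoint_left.1
        ((F4a.disj_iff o S hC w _).2 hw2) hi⟩).trans hc) (Finset.card_pos.2 ?_)
    rw [Finset.nonempty_iff_ne_empty]
    refine fun h => hw0 ((F4a.eq_iff o S hw1).1 ((F4a.disj_iff o S subset_rfl w fun _ => o).1 ?_))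
    rw [h]
    exact Finset.disjoint_empty_left _

end Pool.Agent.MP_b746ed_mp.LD
end

section
set_option autoImplicit false
set_option linter.unusedSectionVars false
open scoped ComplexOrder MatrixOrder
open Matrix

namespace Pool.Agent.MP_b746ed_mp.LD
open KF
open H14 (trf dg)

namespace F4
variable {ι α : Type} [Fintype ι] [DecidableEq ι] [Fintype α] [DecidableEq α]

lemma PJ (o : α) (B : Finset ι) (g : (ι → α) → ℂ) : PA o B * (Jc o B g)ᴴ = (Jc o B g)ᴴ := by
  have h : Jc o B g * PA o B = Jc o B g := by rw [Jc_mul_PA, if_pos rfl]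
  conv_rhs => rw [← h, conjTranspose_mul, PA_conj]

lemma JJ (o : α) {A B : Finset ι} (f g : (ι → α) → ℂ) (h : A ≠ B) :
    Jc o A f * (Jc o B g)ᴴ = 0 := by
  rw [← PJ, ← Matrix.mul_assoc, Jc_mul_PA, if_neg h, Matrix.zero_mul]

lemma gram (o : α) (A : Finset ι) (f : (ι → α) → ℂ) :
    (Jc o A f)ᴴ * Jc o A f = nq o A f • PA o A := by
  rw [Jc_gram, ip_self_nv, Complex.coe_smul, nq]

lemma expand (o : α) (k : ℕ) (ψ : (ι → α) → ℂ) (H : Matrix (ι → α) (ι → α) ℂ)
    (hJ : J1 o k ψ * P1 o k = J1 o k ψ) :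
    rt ((P1 o k - ((J1 o k ψ)ᴴ * J1 o k ψ - P1 o k)) * ((J1 o k ψ)ᴴ * H * J1 o k ψ)) =
      ∑ A : Finset ι with A.card ≤ k, ((2 - nq o A ψ) * rt ((Jc o A ψ)ᴴ * H * Jc o A ψ) -
        ∑ B ∈ (Finset.univ.filter fun B : Finset ι => B.card ≤ k).erase A,
          rt ((Jc o B ψ)ᴴ * Jc o A ψ * ((Jc o A ψ)ᴴ * H * Jc o B ψ))) := by
  have hR : J1 o k ψ * (J1 o k ψ)ᴴ = ∑ A : Finset ι with A.card ≤ k, Jc o A ψ * (Jc o A ψ)ᴴ := by
    rw [J1, conjTranspose_sum, Finset.sum_mul_sum]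
    exact Finset.sum_congr rfl fun A hA => Finset.sum_eq_single A
      (fun B _ hB => JJ o ψ ψ hB.symm) fun h => absurd hA h
  have h1 : rt (P1 o k * ((J1 o k ψ)ᴴ * H * J1 o k ψ)) =
      ∑ A : Finset ι with A.card ≤ k, rt ((Jc o A ψ)ᴴ * H * Jc o A ψ) := by
    rw [rt_comm, Matrix.mul_assoc, hJ, rt_comm, ← Matrix.mul_assoc, hR, Finset.sum_mul, rt_sum]
    refine Finset.sum_congr rfl fun A _ => ?_
    rw [Matrix.mul_assoc, rt_comm]
  have h2 : rt ((J1 o k ψ)ᴴ * J1 o k ψ * ((J1 o k ψ)ᴴ * H * J1 o k ψ)) =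
      ∑ A : Finset ι with A.card ≤ k, ∑ B : Finset ι with B.card ≤ k,
        rt ((Jc o B ψ)ᴴ * Jc o A ψ * ((Jc o A ψ)ᴴ * H * Jc o B ψ)) := by
    have e : ∀ X Y : Matrix (ι → α) (ι → α) ℂ,
        rt (Yᴴ * X * (Xᴴ * H * Y)) = rt (X * Xᴴ * H * (Y * Yᴴ)) := fun X Y => by
      rw [Matrix.mul_assoc, rt_comm]
      simp only [Matrix.mul_assoc]
    simp only [e]
    rw [hR, Finset.sum_mul, Finset.sum_mul_sum]
    simp only [rt_sum]
  rw [sub_mul, sub_mul, rt_sub, rt_sub, h1, h2, ← Finset.sum_sub_distrib, ← Finset.sum_sub_distrib]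
  refine Finset.sum_congr rfl fun A hA => ?_
  rw [← Finset.add_sum_erase _ _ hA, gram, smul_mul_assoc, rt_rsmul, ← Matrix.mul_assoc,
    ← Matrix.mul_assoc, PJ]
  ring

lemma pow_small {d δ : ℝ} (hd : 1 ≤ d) (h : 1 ≤ δ ^ 2 * d) {m k : ℕ} (hm : m < k) :
    d ^ m ≤ δ ^ 2 * d ^ k := by
  have h1 : d ^ (m + 1) ≤ d ^ k := pow_le_pow_right₀ hd hm
  have h2 : d ^ m * 1 ≤ d ^ m * (δ ^ 2 * d) := mul_le_mul_of_nonneg_left h (by positivity)
  have h3 := mul_le_mul_of_nonneg_left h1 (sq_nonneg δ)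
  rw [pow_succ d] at h3
  linarith only [h2, h3]

lemma card_inter {A S : Finset ι} (h : ¬A ⊆ S) : (A ∩ S).card < A.card :=
  Finset.card_lt_card ⟨Finset.inter_subset_left, fun h' => h (h'.trans Finset.inter_subset_right)⟩

lemma wt_nonneg (o : α) (ψ : (ι → α) → ℂ) (Q : Finset ι → Prop) [DecidablePred Q] :
    0 ≤ wt o ψ Q := Finset.sum_nonneg fun _ _ => by positivity

lemma nq_ge (o : α) (A : Finset ι) (ψ : (ι → α) → ℂ) : nv ψ - eps o ψ ≤ nq o A ψ := by
  rw [eps, nv_prp, sub_sub_cancel, nq_eq]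
  exact Finset.single_le_sum (f := fun z => ‖ψ z‖ ^ 2) (fun _ _ => by positivity)
    (by simp [mem_cfg])

lemma adm {k : ℕ} {δ : ℝ} {a : Finset ι → ℝ} (h : Adm k 0 δ a) (hδ : δ ≤ 1) (S : Finset ι) :
    0 ≤ a S ∧ a S ≤ 1 := by
  have h0 : ∀ S, 0 ≤ a S := fun S => by
    rcases lt_trichotomy S.card k with h1 | h1 | h1
    · exact (h.1 S h1).ge
    · rw [h.2.1 S h1]; exact zero_le_one
    · rcases (Nat.succ_le_of_lt h1).eq_or_lt with h2 | h2
      · exact (h.2.2.1 S h2.symm).1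
      · exact (h.2.2.2 S h2).1
  refine ⟨h0 S, ?_⟩
  rcases lt_trichotomy S.card k with h1 | h1 | h1
  · rw [h.1 S h1]; exact zero_le_one
  · exact (h.2.1 S h1).le
  · rcases (Nat.succ_le_of_lt h1).eq_or_lt with h2 | h2
    · exact le_trans (Finset.single_le_sum (fun T _ => h0 T) (by simp)) (h.2.2.1 S h2.symm).2
    · exact (h.2.2.2 S h2).2.trans hδ

/-- the loss on the two main levels -/
noncomputable def ls (o : α) (k : ℕ) (ψ : (ι → α) → ℂ) (A S : Finset ι) : ℝ :=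
  if A.card = k ∧ (S \ A).card ≤ 1 then hh o ψ S + be o ψ A S else 0

lemma ls_nonneg (o : α) (k : ℕ) (ψ : (ι → α) → ℂ) (A S : Finset ι) : 0 ≤ ls o k ψ A S := by
  unfold ls
  split_ifs
  · exact add_nonneg (wt_nonneg _ _ _) (wt_nonneg _ _ _)
  · exact le_rfl

lemma diag1 (hF4a : S_F4a) (hRA : S_RA) {o : α} {k : ℕ} {a : Finset ι → ℝ} {ψ : (ι → α) → ℂ}
    {δ : ℝ} (h : Reg o k a ψ δ) {A : Finset ι} (hA : A.card ≤ k) (S : Finset ι) :
    (2 - nq o A ψ) * rt ((Jc o A ψ)ᴴ * XT o S ψ * Jc o A ψ) ≤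
      (if A ⊆ S then ((Fintype.card α : ℝ) - 1) ^ A.card * (1 - ls o k ψ A S) else 0) +
        20 * (δ * eps o ψ * Fintype.card α ^ k) := by
  obtain ⟨h0, h1, -, hF, he, hd⟩ := h
  have d1 : (1 : ℝ) ≤ Fintype.card α := by exact_mod_cast Fintype.card_pos_iff.2 ⟨o⟩
  have e0 : 0 ≤ eps o ψ := nv_nonneg _
  have x0 := nq_nonneg o A ψ
  have x1 : nq o A ψ ≤ 1 := hF.1 ▸ nq_le o A ψ
  have x2 : (2 - nq o A ψ) * nq o A ψ ≤ 1 := by linarith only [sq_nonneg (1 - nq o A ψ)]
  have hp : 0 ≤ δ * eps o ψ * (Fintype.card α : ℝ) ^ k := by positivity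
  split_ifs with hS
  · have hL : Lo o A (XT o S ψ) := (nuc_XT o S ψ).lo hS
    have hw : 0 ≤ ((Fintype.card α : ℝ) - 1) ^ A.card := pow_nonneg (by linarith only [d1]) _
    have hw' : ((Fintype.card α : ℝ) - 1) ^ A.card ≤ Fintype.card α ^ k :=
      (pow_le_pow_left₀ (by linarith only [d1]) (by linarith only []) _).trans (pow_le_pow_right₀ d1 hA)
    have e : rt ((Jc o A ψ)ᴴ * XT o S ψ * Jc o A ψ) = ((Fintype.card α : ℝ) - 1) ^ A.card *
        (ip (emb o A ψ) (XT o S ψ *ᵥ emb o A ψ)).re := by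
      rw [Matrix.mul_assoc, hL.mul_Jc, Jc_gram, (hL ψ).2, ← rt_PA o A, rt, rt, trace_smul,
        smul_eq_mul, Complex.mul_re, mul_comm, sub_eq_self]
      rw [(Complex.nonneg_iff.1 (nonneg_def.1 (PA_nonneg o A)).trace_nonneg).2.symm, mul_zero]
    have b : (2 - nq o A ψ) * (ip (emb o A ψ) (XT o S ψ *ᵥ emb o A ψ)).re ≤
        1 - ls o k ψ A S + 20 * δ * eps o ψ := by
      unfold ls
      split_ifs with hc
      · linarith only [hF4a ι α o ψ A S δ hF h0.le h1 he hS hc.2]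
      · have := (le_iff_ip (XT_conj o S ψ) (by simp)).1 (XT_le o S ψ) (emb o A ψ)
        rw [ip_rsmul_one, hF.1, one_mul, ← nq] at this
        have h3 := mul_le_mul_of_nonneg_left this (show 0 ≤ 2 - nq o A ψ by linarith only [x1])
        have : 0 ≤ 20 * δ * eps o ψ := by positivity
        linarith only [x2, h3, this]
    have b1 := mul_le_mul_of_nonneg_left b hw
    have b2 := mul_le_mul_of_nonneg_left hw' (show 0 ≤ 20 * δ * eps o ψ by positivity)
    rw [e]
    linarith only [b1, b2]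
  · have r := (hRA ι α o A S ψ ψ).1 hS
    have p := pow_small d1 hd ((card_inter hS).trans_le hA)
    have r1 := mul_le_mul_of_nonneg_left r (show 0 ≤ 2 - nq o A ψ by linarith only [x1])
    have r2 := mul_le_mul_of_nonneg_left x2
      (show 0 ≤ (Fintype.card α : ℝ) ^ (A ∩ S).card * eps o ψ by positivity)
    have r3 := mul_le_mul_of_nonneg_right p e0
    have r4 := mul_le_mul_of_nonneg_left h1 hp
    linarith only [hp, r1, r2, r3, r4]

lemma loss (o : α) {k : ℕ} {a : Finset ι → ℝ} (ψ : (ι → α) → ℂ) (ha : ∀ S, 0 ≤ a S)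
    {A : Finset ι} (hA : A.card = k) (h1 : a A = 1) :
    hh o ψ A + ∑ j ∈ Aᶜ, a (insert j A) * hh o ψ (insert j A) +
      ∑ j ∈ Aᶜ, a (insert j A) * be o ψ A (insert j A) ≤
      ∑ S with A ⊆ S, a S * ls o k ψ A S := by
  have hm : A ∈ Finset.univ.filter fun S => A ⊆ S := by simp
  rw [← Finset.add_sum_erase _ _ hm, add_assoc, ← Finset.sum_add_distrib]
  refine add_le_add ?_ ?_
  · rw [h1, one_mul, ls, if_pos ⟨hA, by simp only [sdiff_self, Finset.bot_eq_empty, Finset.card_empty, zero_le]⟩]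
    exact le_add_of_nonneg_right (wt_nonneg _ _ _)
  · refine le_trans (le_of_eq (Finset.sum_congr rfl fun j hj => ?_))
      (sum_inj_le (fun j => insert j A) (F := fun S => a S * ls o k ψ A S) (fun j hj => ?_)
        (fun i hi j _ hij => ?_) fun S => mul_nonneg (ha S) (ls_nonneg _ _ _ _ _))
    · have : (insert j A \ A).card ≤ 1 := by
        rw [Finset.insert_sdiff_of_notMem _ (Finset.mem_compl.1 hj)]
        simp only [sdiff_self, Finset.bot_eq_empty, insert_empty_eq, Finset.card_singleton, Std.le_refl]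
      rw [ls, if_pos ⟨hA, this⟩, mul_add]
    · have := Finset.mem_compl.1 hj
      simp [this]
    · have : i ∈ insert j A := hij ▸ Finset.mem_insert_self i A
      exact (Finset.mem_insert.1 this).resolve_right (Finset.mem_compl.1 hi)

lemma diag (hF4a : S_F4a) (hRA : S_RA) {o : α} {k : ℕ} {a : Finset ι → ℝ} {ψ : (ι → α) → ℂ}
    {δ : ℝ} (h : Reg o k a ψ δ) {A : Finset ι} (hA : A.card ≤ k) :
    (2 - nq o A ψ) * rt ((Jc o A ψ)ᴴ * HH o a ψ * Jc o A ψ) ≤
      ((Fintype.card α : ℝ) - 1) ^ A.card * (∑ S with A ⊆ S, a S - 1) -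
        ((Fintype.card α : ℝ) - 1) ^ A.card * ∑ S with A ⊆ S, a S * ls o k ψ A S +
        (20 * Fintype.card (Finset ι) + 1) * (δ * eps o ψ * Fintype.card α ^ k) := by
  have hd := fun S => diag1 hF4a hRA h hA S
  obtain ⟨h0, h1, ha, hF, he, -⟩ := h
  have d1 : (1 : ℝ) ≤ Fintype.card α := by exact_mod_cast Fintype.card_pos_iff.2 ⟨o⟩
  have e0 : 0 ≤ eps o ψ := nv_nonneg _
  have x1 : nq o A ψ ≤ 1 := hF.1 ▸ nq_le o A ψ
  have x2 : 1 - eps o ψ ≤ nq o A ψ := hF.1 ▸ nq_ge o A ψ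
  have hp : 0 ≤ δ * eps o ψ * (Fintype.card α : ℝ) ^ k := by positivity
  have hw : 0 ≤ ((Fintype.card α : ℝ) - 1) ^ A.card := pow_nonneg (by linarith only [d1]) _
  have hw' : ((Fintype.card α : ℝ) - 1) ^ A.card ≤ Fintype.card α ^ k :=
    (pow_le_pow_left₀ (by linarith only [d1]) (by linarith only []) _).trans (pow_le_pow_right₀ d1 hA)
  have e : rt ((Jc o A ψ)ᴴ * HH o a ψ * Jc o A ψ) =
      ∑ S, a S * rt ((Jc o A ψ)ᴴ * XT o S ψ * Jc o A ψ) -
        nq o A ψ * ((Fintype.card α : ℝ) - 1) ^ A.card := by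
    rw [HH, Matrix.mul_sub, Matrix.sub_mul, Matrix.mul_one, rt_sub, gram, rt_rsmul, rt_PA,
      Matrix.mul_sum, Matrix.sum_mul, rt_sum]
    simp only [Matrix.mul_smul, Matrix.smul_mul, rt_rsmul]
  have s1 : (2 - nq o A ψ) * ∑ S, a S * rt ((Jc o A ψ)ᴴ * XT o S ψ * Jc o A ψ) ≤
      ∑ S : Finset ι, ((if A ⊆ S then ((Fintype.card α : ℝ) - 1) ^ A.card * a S -
        ((Fintype.card α : ℝ) - 1) ^ A.card * (a S * ls o k ψ A S) else 0) +
          20 * (δ * eps o ψ * Fintype.card α ^ k)) := by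
    rw [Finset.mul_sum]
    refine Finset.sum_le_sum fun S _ => ?_
    have t1 := mul_le_mul_of_nonneg_left (hd S) (adm ha h1 S).1
    have t2 := mul_le_mul_of_nonneg_right (adm ha h1 S).2 hp
    split_ifs at t1 ⊢ <;> linarith only [t2, t1]
  rw [Finset.sum_add_distrib, ← Finset.sum_filter, Finset.sum_sub_distrib, ← Finset.mul_sum,
    ← Finset.mul_sum, Finset.sum_const, Finset.card_univ, nsmul_eq_mul] at s1
  have q1 : (1 - nq o A ψ) ^ 2 ≤ δ * eps o ψ := by
    have : (1 - nq o A ψ) ^ 2 ≤ eps o ψ ^ 2 := pow_le_pow_left₀ (by linarith only [x1]) (by linarith only [x2]) 2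
    linarith only [mul_le_mul_of_nonneg_right he e0, mul_le_mul_of_nonneg_left h1 (mul_nonneg h0.le e0), this]
  have q2 := mul_le_mul q1 hw' hw (by positivity)
  rw [e]
  linarith only [s1, q2]

lemma off (hCRS : S_CRS) {o : α} {k : ℕ} {a : Finset ι → ℝ} {ψ : (ι → α) → ℂ} {δ : ℝ}
    (h : Reg o k a ψ δ) {A B : Finset ι} (hA : A.card ≤ k) (hB : B.card ≤ k) (hne : A ≠ B) :
    hs ((Jc o A ψ)ᴴ * Jc o B ψ) ≤ δ ^ 2 * (eps o ψ * Fintype.card α ^ k) := by
  obtain ⟨h0, h1, -, hF, he, hd⟩ := h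
  have d1 : (1 : ℝ) ≤ Fintype.card α := by exact_mod_cast Fintype.card_pos_iff.2 ⟨o⟩
  have e0 : 0 ≤ eps o ψ := nv_nonneg _
  have x1 : ∀ C, nq o C ψ ≤ 1 := fun C => hF.1 ▸ nq_le o C ψ
  have x2 : ∀ C, nq o C (prp o ψ) ≤ eps o ψ := fun C => nq_le o C _
  by_cases hc : A ⊆ B
  · have hc' : ¬B ⊆ A := fun h' => hne (Finset.Subset.antisymm hc h')
    rw [(hCRS ι α o A B ψ ψ).1 hc']
    refine (hCRS ι α o A B _ ψ).2.2.2.trans ?_
    have p := pow_small d1 hd ((card_inter hc').trans_le hB)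
    rw [Finset.inter_comm] at p
    have q := mul_le_mul (x2 A) (x1 B) (nq_nonneg _ _ _) e0
    linarith only [mul_le_mul p q (mul_nonneg (nq_nonneg _ _ _) (nq_nonneg _ _ _)) (by positivity)]
  · rw [(hCRS ι α o A B ψ ψ).2.1 hc]
    refine (hCRS ι α o A B ψ _).2.2.2.trans ?_
    have p := pow_small d1 hd ((card_inter hc).trans_le hA)
    have q := mul_le_mul (x1 A) (x2 B) (nq_nonneg _ _ _) zero_le_one
    linarith only [mul_le_mul p q (mul_nonneg (nq_nonneg _ _ _) (nq_nonneg _ _ _)) (by positivity)]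

lemma off2 (hCRS : S_CRS) {o : α} {k : ℕ} {a : Finset ι → ℝ} {ψ : (ι → α) → ℂ} {δ K c : ℝ}
    (h : Reg o k a ψ δ) {A B : Finset ι} (hA : A.card ≤ k) (hB : B.card ≤ k) (hne : A ≠ B)
    {H : Matrix (ι → α) (ι → α) ℂ} (hK : 0 < K) (hc : |c| ≤ K)
    (hH : hs (H * Jc o B ψ - c • Jc o B ψ) ≤ K * eps o ψ * Fintype.card α ^ k) :
    -rt ((Jc o B ψ)ᴴ * Jc o A ψ * ((Jc o A ψ)ᴴ * H * Jc o B ψ)) ≤
      2 * (K + 1) * (δ * eps o ψ * Fintype.card α ^ k) := by
  have o1 := off hCRS h hA hB hne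
  have o2 := off hCRS h hB hA hne.symm
  obtain ⟨h0, h1, -, hF, -, -⟩ := h
  have e0 : 0 ≤ eps o ψ * (Fintype.card α : ℝ) ^ k := mul_nonneg (nv_nonneg _) (by positivity)
  rw [mul_assoc] at hH
  rw [mul_assoc δ]
  generalize eps o ψ * (Fintype.card α : ℝ) ^ k = E at *
  have e : (Jc o A ψ)ᴴ * H * Jc o B ψ = (Jc o A ψ)ᴴ * (H * Jc o B ψ - c • Jc o B ψ) +
      c • ((Jc o A ψ)ᴴ * Jc o B ψ) := by
    rw [Matrix.mul_sub, Matrix.mul_smul, sub_add_cancel, Matrix.mul_assoc]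
  have a1 := (opb_Jc o A ψ).conj.hs_mul (H * Jc o B ψ - c • Jc o B ψ)
  rw [Real.sq_sqrt (nq_nonneg _ _ _)] at a1
  have a2 := mul_le_mul (hF.1 ▸ nq_le o A ψ : nq o A ψ ≤ 1) hH (hs_nonneg _) zero_le_one
  have a3 : hs (c • ((Jc o A ψ)ᴴ * Jc o B ψ)) ≤ K ^ 2 * E := by
    rw [hs_rsmul]
    refine mul_le_mul (sq_le_sq' (abs_le.1 hc).1 (abs_le.1 hc).2) (o1.trans ?_) (hs_nonneg _)
      (sq_nonneg K)
    exact mul_le_of_le_one_left e0 (pow_le_one₀ h0.le h1)
  have a4 : hs ((Jc o A ψ)ᴴ * H * Jc o B ψ) ≤ (2 * (K + 1)) ^ 2 * E := by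
    rw [e]
    refine (hs_add_le _ _).trans ?_
    have := mul_nonneg hK.le e0
    have := mul_nonneg (sq_nonneg K) e0
    linarith
  refine (neg_le_abs _).trans ((abs_rt_le _).trans ((norm_trace_le _ _).trans ?_))
  refine (mul_le_mul (Real.sqrt_le_sqrt o2) (Real.sqrt_le_sqrt a4) (Real.sqrt_nonneg _)
    (Real.sqrt_nonneg _)).trans (le_of_eq ?_)
  rw [Real.sqrt_mul (sq_nonneg _), Real.sqrt_mul (sq_nonneg _), Real.sqrt_sq h0.le,
    Real.sqrt_sq (by positivity), mul_mul_mul_comm, Real.mul_self_sqrt e0]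
  ring

end F4

theorem t_F4 (hF23 : S_F23) (hF4a : S_F4a) (hRA : S_RA) (hCRS : S_CRS) : S_F4 := by
  intro ι _ _
  obtain ⟨K, hK, h23⟩ := hF23 ι
  have hN : (0 : ℝ) < Fintype.card (Finset ι) := by exact_mod_cast Fintype.card_pos
  refine ⟨Fintype.card (Finset ι) * (20 * Fintype.card (Finset ι) + 1 +
    Fintype.card (Finset ι) * (2 * (K + 1))), by positivity, fun α _ _ o k a ψ δ h => ?_⟩
  obtain ⟨-, hJ, -, -, -, -, c, hc, hH, -⟩ := h23 α o k a ψ δ h
  have d1 : (1 : ℝ) ≤ Fintype.card α := by exact_mod_cast Fintype.card_pos_iff.2 ⟨o⟩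
  have hp : 0 ≤ δ * eps o ψ * (Fintype.card α : ℝ) ^ k :=
    mul_nonneg (mul_nonneg h.1.le (nv_nonneg _)) (by positivity)
  have ha := fun S => (F4.adm h.2.2.1 h.2.1 S).1
  have cN : ∀ s : Finset (Finset ι), (s.card : ℝ) ≤ Fintype.card (Finset ι) := fun s => by
    exact_mod_cast s.card_le_univ
  rw [F4.expand o k ψ _ hJ]
  have s1 : ∀ A ∈ Finset.univ.filter fun B : Finset ι => B.card ≤ k,
      (2 - nq o A ψ) * rt ((Jc o A ψ)ᴴ * HH o a ψ * Jc o A ψ) -
        ∑ B ∈ (Finset.univ.filter fun B : Finset ι => B.card ≤ k).erase A,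
          rt ((Jc o B ψ)ᴴ * Jc o A ψ * ((Jc o A ψ)ᴴ * HH o a ψ * Jc o B ψ)) ≤
      ((Fintype.card α : ℝ) - 1) ^ A.card * (∑ S with A ⊆ S, a S - 1) -
        ((Fintype.card α : ℝ) - 1) ^ A.card * ∑ S with A ⊆ S, a S * F4.ls o k ψ A S +
        (20 * Fintype.card (Finset ι) + 1 + Fintype.card (Finset ι) * (2 * (K + 1))) *
          (δ * eps o ψ * Fintype.card α ^ k) := fun A hA => by
    have hA' := (Finset.mem_filter.1 hA).2
    have t1 := F4.diag hF4a hRA h hA'
    have t2 := Finset.sum_le_card_nsmul ((Finset.univ.filter fun B : Finset ι =>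
      B.card ≤ k).erase A) _ _ fun B hB => F4.off2 hCRS h hA'
        (Finset.mem_filter.1 (Finset.mem_erase.1 hB).2).2 (Finset.mem_erase.1 hB).1.symm hK (hc B)
        (hH B (Finset.mem_filter.1 (Finset.mem_erase.1 hB).2).2)
    rw [Finset.sum_neg_distrib, nsmul_eq_mul] at t2
    have t3 := mul_le_mul_of_nonneg_right (cN ((Finset.univ.filter fun B : Finset ι =>
      B.card ≤ k).erase A)) (mul_nonneg (show 0 ≤ 2 * (K + 1) by positivity) hp)
    linarith only [t1, t2, t3]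
  refine (Finset.sum_le_sum s1).trans ?_
  rw [Finset.sum_add_distrib, Finset.sum_sub_distrib, ← tau0, Finset.sum_const, nsmul_eq_mul]
  have s2 : ((Fintype.card α : ℝ) - 1) ^ k * (mH o k a ψ + mB o k a ψ) ≤
      ∑ A : Finset ι with A.card ≤ k, ((Fintype.card α : ℝ) - 1) ^ A.card *
        ∑ S with A ⊆ S, a S * F4.ls o k ψ A S := by
    rw [mH, mB, ← Finset.sum_add_distrib, Finset.mul_sum]
    refine (Finset.sum_le_sum fun A hA => ?_).trans (Finset.sum_le_sum_of_subset_of_nonneg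
      (s := lv ι k) (fun A hA => by simpa using (Finset.mem_filter.1 hA).2.le) fun A _ _ =>
        mul_nonneg (pow_nonneg (by linarith) _) (Finset.sum_nonneg fun S _ =>
          mul_nonneg (ha S) (F4.ls_nonneg _ _ _ _ _)))
    have hA' := (Finset.mem_filter.1 hA).2
    rw [hA']
    exact mul_le_mul_of_nonneg_left (F4.loss o ψ ha hA' (h.2.2.1.2.1 A hA'))
      (pow_nonneg (by linarith only [d1]) _)
  have s3 := mul_le_mul_of_nonneg_right (cN (Finset.univ.filter fun B : Finset ι => B.card ≤ k))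
    (mul_nonneg (show 0 ≤ 20 * (Fintype.card (Finset ι) : ℝ) + 1 +
      Fintype.card (Finset ι) * (2 * (K + 1)) by positivity) hp)
  linarith

end Pool.Agent.MP_b746ed_mp.LD
end

section
set_option autoImplicit false
set_option linter.unusedSectionVars false
open scoped ComplexOrder MatrixOrder
open Matrix

namespace Pool.Agent.MP_b746ed_mp.LD
open KF
open H14 (trf dg)

namespace I
variable {ι α : Type} [Fintype ι] [DecidableEq ι] [Fintype α] [DecidableEq α]

lemma adm_mono {k : ℕ} {g g' b b' : ℝ} {a : Finset ι → ℝ} (h : Adm k g b a) (hg : g' ≤ g)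
    (hb : b ≤ b') : Adm k g' b' a :=
  ⟨h.1, h.2.1, fun T hT => ⟨hg.trans (h.2.2.1 T hT).1, (h.2.2.1 T hT).2⟩,
    fun S hS => ⟨(h.2.2.2 S hS).1, (h.2.2.2 S hS).2.trans hb⟩⟩

lemma adm_nonneg {k : ℕ} {b : ℝ} {a : Finset ι → ℝ} (h : Adm k 0 b a) (S : Finset ι) :
    0 ≤ a S := by
  rcases lt_trichotomy S.card k with h1 | h1 | h1
  · exact (h.1 S h1).ge
  · rw [h.2.1 S h1]; exact zero_le_one
  · rcases (Nat.succ_le_of_lt h1).eq_or_lt with h2 | h2
    · exact (h.2.2.1 S h2.symm).1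
    · exact (h.2.2.2 S h2).1

lemma core_mono {o : α} {k : ℕ} {a : Finset ι → ℝ} {l l' : ℝ} {ψ : (ι → α) → ℂ}
    (h : Core o k a l ψ) (hl : l ≤ l') : Core o k a l' ψ := fun P hP => by
  refine le_trans ?_ (h P hP)
  have : 0 ≤ ∑ B : Finset ι with B.card ≤ k, tp (1 - P) (XT o B ψ) :=
    Finset.sum_nonneg fun B _ => tp_nonneg hP.2 (nonneg_def.1 (XT_nonneg o B ψ))
  nlinarith only [hl, this]

end I

theorem t_I (hPEN : S_PEN) (hRNG : S_RNG) (hF23 : S_F23) (hF4 : S_F4) (hF5 : S_F5) (hF6 : S_F6)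
    (hR10 : S_R10) : S_I := by
  intro ι _ _ g hg
  obtain ⟨K1, k1, h1⟩ := hF23 ι
  obtain ⟨K2, k2, h2⟩ := hF4 ι
  obtain ⟨K3, k3, h3⟩ := hF6 ι
  set n : ℕ := Fintype.card ι with hn
  set c : ℝ := min g 1 / (n + 1) / 2 ^ n with hc
  have c0 : 0 < c := by positivity
  set K : ℝ := K2 + K3 + 3 * K1 ^ 2 + 8 * K1 with hK
  obtain ⟨δ, d0, d1, d2, d3, d4⟩ : ∃ δ : ℝ, 0 < δ ∧ δ ≤ 1 / 2 ∧ K1 * δ ≤ 1 / 4 ∧ K3 * δ ≤ 1 ∧
      K * δ ≤ c := by
    refine ⟨min (1 / 2) (min (1 / 4 / K1) (min (1 / K3) (c / K))), by positivity, min_le_left _ _,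
      ?_, ?_, ?_⟩
    · rw [← le_div_iff₀' k1]; exact (min_le_right _ _).trans (min_le_left _ _)
    · rw [← le_div_iff₀' k3]
      exact (min_le_right _ _).trans ((min_le_right _ _).trans (min_le_left _ _))
    · rw [← le_div_iff₀' (by positivity)]
      exact (min_le_right _ _).trans ((min_le_right _ _).trans (min_le_right _ _))
  refine ⟨δ ^ 2, 1 / δ ^ 2, by positivity, by nlinarith only [d0, d1], by positivity, ?_⟩
  intro α _ _ o k a ψ hd hk ha hψ he P hP
  have hd' : 1 ≤ δ ^ 2 * Fintype.card α := by rwa [div_le_iff₀' (by positivity)] at hd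
  have hA : Adm k 0 δ a := I.adm_mono ha hg.le (by rw [one_div_one_div]; nlinarith only [d0, d1])
  have hR : Reg o k a ψ δ := ⟨d0, by linarith only [d0, d1], hA, hψ, he, hd'⟩
  obtain ⟨a1, a2, a3, a4, a5, a6, cc, -, -, a7⟩ := h1 α o k a ψ δ hR
  obtain ⟨R, r1, r2, r3, r4⟩ := hRNG _ _ _ _ a1 a2 (a5.mono (by positivity) (by linarith only [d2]))
  have hH : (HH o a ψ)ᴴ = HH o a ψ := by simp [HH, conjTranspose_sum, XT_conj]
  obtain ⟨r5, r6⟩ := r4 _ K1 hH k1.le a4
  have hL1 : 4 * K1 ≤ 1 / δ ^ 2 := by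
    rw [le_div_iff₀ (by positivity)]; nlinarith only [d0, d1, d2]
  have p := hPEN _ R _ P K1 (1 / δ ^ 2 / 2) r1 hH k1.le a4 (by linarith only [k1, hL1]) hP
  have p1 : tp (1 - P) R ≤ 2 * ∑ B : Finset ι with B.card ≤ k, tp (1 - P) (XT o B ψ) := by
    rw [← tp_sum, ← tp_rsmul]
    exact tp_mono (nonneg_def.2 hP.2) (r3.trans (rsmul_le a3 zero_le_two))
  have q1 : (1 - R)ᴴ = 1 - R := r1.compl.1
  have p2 := ((h3 α o k a ψ δ hR d3).conj r1.compl.con.opb).mono
    (A := (1 - R) * HH o a ψ * (1 - R)) (by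
      have := hF5 ι α o k a ψ _ (I.adm_nonneg hA) q1 r2
      rw [q1, HH]
      generalize 1 - R = Q at this ⊢
      simp only [Matrix.mul_sub, Matrix.sub_mul]
      exact sub_le_sub_right this _) le_rfl P hP
  have p3 := h2 α o k a ψ δ hR
  have p4 := hR10 ι α o k a ψ (min g 1) (by positivity) (min_le_right _ _) hk
    (fun T hT => (min_le_left _ _).trans (ha.2.2.1 T (by simpa only [lv, Finset.univ_filter_card_eq, Finset.mem_powersetCard, Finset.subset_univ, true_and] using hT)).1) hψ.2.2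
  have e0 : 0 ≤ eps o ψ := nv_nonneg _
  set D : ℝ := (Fintype.card α : ℝ) ^ k with hD
  have D0 : 0 ≤ D := by positivity
  have hd2 : (2 : ℝ) ≤ Fintype.card α := by nlinarith only [d0, d1, hd']
  have n0 : (0 : ℝ) < n := by exact_mod_cast (by omega : 0 < n)
  have p5 : c * eps o ψ * D ≤ (Fintype.card α - 1) ^ k * (min g 1 / n * eps o ψ) := by
    have e1 : D / 2 ^ n ≤ (Fintype.card α - 1) ^ k := by
      refine le_trans ?_ (pow_le_pow_left₀ (by positivity) (show (Fintype.card α : ℝ) / 2 ≤ _ by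
        linarith only [hd2]) k)
      rw [div_pow]
      exact div_le_div_of_nonneg_left D0 (by positivity) (pow_le_pow_right₀ one_le_two (by omega))
    calc _ = D / 2 ^ n * (min g 1 / (n + 1) * eps o ψ) := by rw [hc]; ring
      _ ≤ _ := mul_le_mul e1 (mul_le_mul_of_nonneg_right
          (div_le_div_of_nonneg_left (by positivity) n0 (by linarith only [d0, d1])) e0) (by positivity)
          (pow_nonneg (by linarith only [k1, hd, hL1, hd2]) k)
  have p6 : hs ((1 - R) * HH o a ψ * R) / (1 / δ ^ 2 / 2 - K1) ≤ 8 * K1 * δ * eps o ψ * D := by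
    rw [div_le_iff₀ (by linarith only [k1, hL1])]
    refine ((r6 _).trans (mul_le_mul_of_nonneg_left a7 zero_le_two)).trans ?_
    have e1 : 1 / 4 ≤ δ * (1 / δ ^ 2 / 2 - K1) := by
      have : δ * (1 / δ ^ 2 / 2) = 1 / δ / 2 := by field_simp
      have : 2 ≤ 1 / δ := by rw [le_div_iff₀ d0]; linarith only [d1]
      nlinarith
    have := mul_le_mul_of_nonneg_left e1 (show 0 ≤ 8 * K1 * eps o ψ * D by positivity)
    linarith only [this]
  have p7 : 3 * K1 * hs ((J1 o k ψ)ᴴ * J1 o k ψ - P1 o k) ≤ 3 * K1 ^ 2 * δ * eps o ψ * D := by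
    refine (mul_le_mul_of_nonneg_left a6 (by positivity)).trans ?_
    have := mul_le_mul_of_nonneg_left (show δ ^ 2 ≤ δ by nlinarith only [d0, d1])
      (show 0 ≤ 3 * K1 ^ 2 * eps o ψ * D by positivity)
    linarith only [this]
  have p8 := mul_le_mul_of_nonneg_left p4 (show 0 ≤ ((Fintype.card α : ℝ) - 1) ^ k by
    exact pow_nonneg (by linarith only [k1, hd, hL1, hd2]) k)
  have p9 := mul_le_mul_of_nonneg_right d4 (mul_nonneg e0 D0)
  have p10 := mul_le_mul_of_nonneg_left p1 (show 0 ≤ 1 / δ ^ 2 / 2 by positivity)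
  rw [hK] at p9
  linarith

theorem t_CORE (hI : S_I) (hII : S_II) (hHOLES : S_HOLES) : S_CORE := by
  intro ι _ _ g hg
  obtain ⟨η, L1, e0, e1, l1, h1⟩ := hI ι g hg
  rcases isEmpty_or_nonempty ι with hι | hι
  · exact ⟨1, one_pos, fun α _ _ o k a ψ _ hk => by simp at hk⟩
  have n1 : (1 : ℝ) ≤ Fintype.card ι := by exact_mod_cast Fintype.card_pos
  obtain ⟨L2, l2, h2⟩ := hII ι g (η / Fintype.card ι) hg (by positivity)
    (by rw [div_le_one (by linarith)]; linarith)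
  refine ⟨max L1 L2, lt_max_of_lt_left l1, fun α _ _ o k a ψ hd hk ha hψ => ?_⟩
  rcases le_or_gt (eps o ψ) η with h | h
  · exact I.core_mono (h1 α o k a ψ ((le_max_left _ _).trans hd) hk (I.adm_mono ha le_rfl
      (one_div_le_one_div_of_le l1 (le_max_left _ _))) hψ.1 h) (le_max_left _ _)
  · obtain ⟨i, j, hij, hi, hj⟩ := hHOLES ι α o ψ η hψ e0 h
    exact I.core_mono (h2 α o k a ψ i j ((le_max_right _ _).trans hd) hk (I.adm_mono ha le_rfl
      (one_div_le_one_div_of_le l2 (le_max_right _ _))) hψ.1.1 hij hi hj) (le_max_right _ _)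

end Pool.Agent.MP_b746ed_mp.LD
end

section
/-! Large local dimension: the closest product vector and the two holes. -/

set_option autoImplicit false
set_option linter.unusedSectionVars false
open scoped ComplexOrder MatrixOrder
open Matrix

namespace Pool.Agent.MP_b746ed_mp.LD
open KF
open H14 (trf dg)

namespace FRAME
variable {ι α : Type} [Fintype ι] [DecidableEq ι] [Fintype α] [DecidableEq α]

/-- product vectors -/
def pv (v : ι → α → ℂ) : (ι → α) → ℂ := fun x => ∏ i, v i (x i)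

lemma pu_pv (V : ι → Matrix α α ℂ) (v : ι → α → ℂ) : pu V *ᵥ pv v = pv fun i => V i *ᵥ v i := by
  funext a
  simp only [pu, pv, mulVec, dotProduct, of_apply, ← Finset.prod_mul_distrib]
  exact sum_prod_fun fun i s => V i (a i) s * v i s

lemma nv_uni {V : Matrix α α ℂ} (h : Vᴴ * V = 1) (x : α → ℂ) : nv (V *ᵥ x) = nv x := by
  rw [nv_eq_ip, ip_mulVec, mulVec_mulVec, h, one_mulVec, ← nv_eq_ip]

lemma nv_single (o : α) : nv (Pi.single o (1 : ℂ)) = 1 := by
  rw [nv_eq_ip, ip_single_self, Complex.one_re]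

lemma exists_uni {v w : α → ℂ} (hv : nv v = 1) (hw : nv w = 1) :
    ∃ V : Matrix α α ℂ, Vᴴ * V = 1 ∧ V * Vᴴ = 1 ∧ V *ᵥ v = w := by
  obtain ⟨s, hs⟩ : ∃ s, s = ip (v - w) v := ⟨_, rfl⟩
  have h1 : ip (v - w) (v - w) = s + star s := by
    simp only [hs, ip_sub_left, ip_sub_right, star_sub, star_ip]
    simp only [ip_self_nv, hv, hw]
    ring
  have h2 : (1 - s⁻¹ • op (v - w) (v - w))ᴴ * (1 - s⁻¹ • op (v - w) (v - w)) = 1 := by
    simp only [conjTranspose_sub, conjTranspose_one, conjTranspose_smul, op_conjTranspose,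
      sub_mul, mul_sub, one_mul, mul_one, smul_mul_assoc, mul_smul_comm, op_mul_op, h1,
      smul_sub, smul_smul]
    rw [sub_sub, sub_eq_self, ← sub_smul, ← add_smul]
    rcases eq_or_ne s 0 with rfl | h
    · simp
    · have h' : star s ≠ 0 := star_ne_zero.2 h
      rw [star_inv₀, smul_eq_zero]
      left; field_simp; ring
  refine ⟨_, h2, mul_eq_one_comm.1 h2, ?_⟩
  rw [sub_mulVec, one_mulVec, smul_mulVec, op_mulVec, ← hs, smul_smul]
  rcases eq_or_ne s 0 with rfl | h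
  · have := eq_zero_of_ip_self (x := v - w) (by rw [h1]; simp)
    simpa [sub_eq_zero] using this
  · rw [inv_mul_cancel₀ h, one_smul, sub_sub_cancel]

lemma ip_line (o : α) (k : ι) (u : α → ℂ) (ψ : (ι → α) → ℂ) :
    ip (pv (Function.update (fun _ => Pi.single o 1) k u)) ψ =
      ip u fun t => ψ (Function.update (fun _ => o) k t) := by
  rw [ip_eq, ip_eq, eq_comm]
  refine Finset.sum_of_injOn (Function.update (fun _ => o) k)
    (Function.update_injective _ _).injOn (by simp only [Finset.coe_univ, Set.mapsTo_univ]) (fun x _ hx => ?_) fun t _ => ?_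
  · obtain ⟨i, hi, h⟩ : ∃ i, i ≠ k ∧ x i ≠ o := by
      by_contra! h
      refine hx ⟨x k, by simp only [Finset.coe_univ, Set.mem_univ], funext fun i => ?_⟩
      by_cases hi : i = k
      · simp [hi]
      · simp [hi, h i hi]
    rw [pv, Finset.prod_eq_zero (Finset.mem_univ i) (by simp [hi, h]), star_zero, zero_mul]
  · rw [pv, Finset.prod_eq_single k (fun i _ hi => by simp [hi]) (by simp only [Finset.mem_univ, not_true_eq_false, Function.update_self, IsEmpty.forall_iff])]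
    simp

/-- the overlap with unit product vectors is at most `m` -/
def Bd (m : ℝ) (ψ : (ι → α) → ℂ) : Prop :=
  ∀ v : ι → α → ℂ, (∀ i, nv (v i) = 1) → ‖ip (pv v) ψ‖ ≤ m

lemma ip_pu (V : ι → Matrix α α ℂ) (v : ι → α → ℂ) (ψ : (ι → α) → ℂ) :
    ip (pv v) (pu V *ᵥ ψ) = ip (pv fun i => (V i)ᴴ *ᵥ v i) ψ := by
  rw [ip_mulVec, pu_conj, pu_pv]

lemma Bd.rot {m : ℝ} {ψ : (ι → α) → ℂ} (h : Bd m ψ) {V : ι → Matrix α α ℂ}
    (hV : ∀ i, V i * (V i)ᴴ = 1) : Bd m (pu V *ᵥ ψ) := fun v hv => by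
  rw [ip_pu]
  exact h _ fun i => by rw [nv_uni (by simpa only [conjTranspose_conjTranspose] using hV i), hv]

lemma nv_pu {V : ι → Matrix α α ℂ} (hV : ∀ i, (V i)ᴴ * V i = 1) (ψ : (ι → α) → ℂ) :
    nv (pu V *ᵥ ψ) = nv ψ := nv_uni (by simp only [pu_conj, pu_mul, hV, pu_one]) ψ

lemma Bd.line {m : ℝ} {ψ : (ι → α) → ℂ} (h : Bd m ψ) (o : α) (k : ι) :
    nv (fun t => ψ (Function.update (fun _ => o) k t)) ≤ m ^ 2 := by
  obtain ⟨φ, hφ⟩ : ∃ φ, φ = fun t => ψ (Function.update (fun _ => o) k t) := ⟨_, rfl⟩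
  rw [← hφ]
  rcases (nv_nonneg φ).eq_or_lt with h0 | h0
  · rw [← h0]; positivity
  have hs := Real.sqrt_pos.2 h0
  have := h (Function.update (fun _ => Pi.single o 1) k ((√(nv φ))⁻¹ • φ)) fun i => by
    by_cases hi : i = k
    · rw [hi, Function.update_self, nv_rsmul, inv_pow, Real.sq_sqrt h0.le, inv_mul_cancel₀ h0.ne']
    · rw [Function.update_of_ne hi, nv_single]
  rw [ip_line, ← hφ, ← Complex.coe_smul, ip_smul_left, ip_self_nv, norm_mul, norm_star,
    Complex.norm_real, Complex.norm_real, Real.norm_of_nonneg (by positivity),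
    Real.norm_of_nonneg h0.le, inv_mul_eq_div, Real.div_sqrt] at this
  exact (Real.sqrt_le_iff.1 this).2.trans le_rfl

lemma pv_single (o : α) : pv (fun _ : ι => Pi.single o 1) = e0 o := by
  funext x
  simp only [pv, e0, Pi.single_apply, Finset.prod_boole, Finset.mem_univ, true_imp_iff, funext_iff]

lemma ip_phase (v : ι → α → ℂ) (k : ι) (c : ℂ) (ψ : (ι → α) → ℂ) :
    ip (pv (Function.update v k (c • v k))) ψ = star c * ip (pv v) ψ := by
  rw [← ip_smul_left]
  congr 1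
  funext x
  rw [Pi.smul_apply, pv, pv, ← Finset.mul_prod_erase _ _ (Finset.mem_univ k),
    ← Finset.mul_prod_erase _ _ (Finset.mem_univ k), Function.update_self, Pi.smul_apply,
    smul_eq_mul, smul_eq_mul, mul_assoc]
  congr 2
  exact Finset.prod_congr rfl fun i hi => by rw [Function.update_of_ne (Finset.mem_erase.1 hi).1]

lemma exists_max [Nonempty ι] (o : α) (ψ : (ι → α) → ℂ) :
    ∃ v : ι → α → ℂ, (∀ i, nv (v i) = 1) ∧ Bd (ip (pv v) ψ).re ψ := by
  have hK : IsCompact {v : ι → α → ℂ | ∀ i, nv (v i) = 1} := by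
    refine (isCompact_closedBall (0 : ι → α → ℂ) 1).of_isClosed_subset ?_ fun v hv => ?_
    · rw [Set.ofPred_forall]
      exact isClosed_iInter fun i => isClosed_eq (by unfold nv; fun_prop) continuous_const
    · rw [mem_closedBall_zero_iff, pi_norm_le_iff_of_nonneg zero_le_one]
      intro i
      rw [pi_norm_le_iff_of_nonneg zero_le_one]
      intro s
      refine (sq_le_one_iff₀ (norm_nonneg _)).1 (le_trans ?_ (hv i).le)
      exact Finset.single_le_sum (f := fun s => ‖v i s‖ ^ 2) (fun _ _ => by positivity)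
        (Finset.mem_univ s)
  obtain ⟨v, hv, hm⟩ := hK.exists_isMaxOn ⟨fun _ => Pi.single o 1, fun _ => nv_single o⟩
    (f := fun v => (ip (pv v) ψ).re) (Continuous.continuousOn (by simp only [ip_eq, pv]; fun_prop))
  refine ⟨v, hv, fun w hw => ?_⟩
  obtain ⟨k⟩ := ‹Nonempty ι›
  obtain ⟨c, hc, h⟩ := Complex.exists_norm_eq_mul_self (ip (pv w) ψ)
  have := hm (a := Function.update w k (star c • w k)) fun i => by
    by_cases hi : i = k
    · rw [hi, Function.update_self, nv_smul, norm_star, hc, hw, one_pow, one_mul]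
    · rw [Function.update_of_ne hi, hw]
  simp only [Set.mem_ofPred_eq, ip_phase, star_star] at this
  rwa [← h, Complex.ofReal_re] at this

lemma lift_pu (i : ι) (A : Matrix α α ℂ) : lift i A = pu (Function.update (fun _ => 1) i A) := by
  ext a b
  rw [lift_apply, liftFun, pu, of_apply, of_apply, ← Finset.mul_prod_erase _ _ (Finset.mem_univ i),
    Function.update_self, Finset.prod_congr rfl (g := fun j => if a j = b j then 1 else 0)
      fun j hj => by rw [Function.update_of_ne (Finset.mem_erase.1 hj).1, one_apply],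
    Finset.prod_boole]
  simp only [ne_eq, Finset.mem_erase, Finset.mem_univ, and_true, mul_ite, mul_one, mul_zero]

lemma tp_rot {V : ι → Matrix α α ℂ} (hV : ∀ i, (V i)ᴴ * V i = 1) (ψ : (ι → α) → ℂ) (i : ι)
    (o : α) : tp (op ψ ψ) (lift i (op ((V i)ᴴ *ᵥ Pi.single o 1) ((V i)ᴴ *ᵥ Pi.single o 1))) =
      ∑ x, if x i = o then ‖(pu V *ᵥ ψ) x‖ ^ 2 else 0 := by
  have e : lift i (op ((V i)ᴴ *ᵥ Pi.single o 1) ((V i)ᴴ *ᵥ Pi.single o 1)) =
      (pu V)ᴴ * lift i (diagonal (Pi.single o 1)) * pu V := by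
    rw [lift_pu, lift_pu, pu_conj, pu_mul, pu_mul]
    congr 1
    funext j
    by_cases hj : j = i
    · rw [hj, Function.update_self, Function.update_self]
      ext s t
      simp only [mulVec_single, MulOpposite.op_one, one_smul, op_apply, col_apply, conjTranspose_apply, RCLike.star_def, RingHomCompTriple.comp_apply, RingHom.id_apply, Matrix.mul_apply, diagonal_apply, Pi.single_apply, mul_ite, mul_one, mul_zero, Finset.sum_ite_eq', Finset.mem_univ, ↓ reduceIte, ite_mul, zero_mul]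
    · rw [Function.update_of_ne hj, Function.update_of_ne hj, mul_one, hV]
  rw [tp_eq_rt, rt_comm, ← tp_eq_rt, tp_op, e, ← mulVec_mulVec, ← mulVec_mulVec, ip_mulVec,
    conjTranspose_conjTranspose, lift_diagonal, ip_eq, Complex.re_sum]
  refine Finset.sum_congr rfl fun x _ => ?_
  rw [mulVec_diagonal, Pi.single_apply]
  split_ifs
  · rw [one_mul, Complex.star_def, Complex.conj_mul', ← Complex.ofReal_pow, Complex.ofReal_re]
  · simp

lemma union (o : α) (k : ι) (ψ : (ι → α) → ℂ) :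
    nv ψ ≤ nv (fun t => ψ (Function.update (fun _ => o) k t)) +
      ∑ i ∈ Finset.univ.erase k, (nv ψ - ∑ x, if x i = o then ‖ψ x‖ ^ 2 else 0) := by
  have e : nv (fun t => ψ (Function.update (fun _ => o) k t)) =
      ∑ x, if ∀ i, i ≠ k → o = x i then ‖ψ x‖ ^ 2 else 0 := by
    have := sum_line k (fun _ => o) fun x => ((‖ψ x‖ ^ 2 : ℝ) : ℂ)
    rw [nv]
    simp only [← Complex.ofReal_zero, ← apply_ite Complex.ofReal] at this
    exact_mod_cast this.symm
  rw [e, nv]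
  simp only [← Finset.sum_sub_distrib]
  rw [Finset.sum_comm, ← Finset.sum_add_distrib]
  refine Finset.sum_le_sum fun x _ => ?_
  have h0 : ∀ i ∈ Finset.univ.erase k, 0 ≤ ‖ψ x‖ ^ 2 - if x i = o then ‖ψ x‖ ^ 2 else 0 :=
    fun i _ => by split_ifs <;> simp only [sub_self, Std.le_refl, sub_zero, norm_nonneg, pow_succ_nonneg]
  split_ifs with h
  · exact le_add_of_nonneg_right (Finset.sum_nonneg h0)
  · push Not at h
    obtain ⟨i, hi, h⟩ := h
    simpa only [Finset.sum_sub_distrib, Finset.sum_const, Finset.mem_univ, Finset.card_erase_of_mem, Finset.card_univ, nsmul_eq_mul, Finset.sum_erase_eq_sub, zero_add, ge_iff_le, h.symm, ↓ reduceIte, sub_zero] using Finset.single_le_sum h0 (Finset.mem_erase.2 ⟨hi, Finset.mem_univ i⟩)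

end FRAME
open FRAME

theorem t_FRAME : S_FRAME := by
  intro ι α _ _ _ _ _ o ψ hψ
  obtain ⟨v, hv, hm⟩ := exists_max o ψ
  choose V h1 h2 h3 using fun i => exists_uni (hv i) (nv_single o)
  have e : (pu V *ᵥ ψ) (fun _ => o) = ip (pv v) ψ := by
    rw [← ip_e0 o (pu V *ᵥ ψ), ← pv_single, ip_pu]
    congr 2
    funext i
    rw [← h3 i, mulVec_mulVec, h1, one_mulVec]
  have hr := hm.rot h2
  have h0 := hm v hv
  refine ⟨V, h1, h2, ⟨by rw [nv_pu h1, hψ], ?_, fun x hx => ?_⟩, fun w hw => ?_⟩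
  · rw [e]
    exact Complex.re_eq_norm.1 (le_antisymm (Complex.re_le_norm _) h0)
  · obtain ⟨k, hk⟩ := Finset.card_eq_one.1 hx
    have hk0 : x k ≠ o := (mem_spt o).1 (by simp [hk])
    have hx' : x = Function.update (fun _ => o) k (x k) := funext fun i => by
      by_cases hi : i = k
      · simp [hi]
      · rw [Function.update_of_ne hi]
        by_contra h
        exact hi (by simpa [hk] using (mem_spt o).2 h)
    have a1 := hr.line o k
    have a2 := Finset.add_le_sum (s := Finset.univ)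
      (f := fun t => ‖(pu V *ᵥ ψ) (Function.update (fun _ => o) k t)‖ ^ 2)
      (fun _ _ => by positivity) (Finset.mem_univ _) (Finset.mem_univ _) hk0
    rw [← hx', Function.update_eq_self, e] at a2
    have a3 := pow_le_pow_left₀ ((norm_nonneg _).trans h0) (Complex.re_le_norm (ip (pv v) ψ)) 2
    have a4 : ‖(pu V *ᵥ ψ) x‖ ^ 2 ≤ 0 := by rw [nv] at a1; linarith only [a1, a2, a3]
    simpa using le_antisymm a4 (by positivity)
  · rw [e]
    exact (hr w hw).trans (Complex.re_le_norm _)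

theorem t_HOLES : S_HOLES := by
  intro ι α _ _ _ _ _ o ψ η hF hη hε
  by_contra hc
  obtain ⟨k, hk⟩ : ∃ k, ∀ i, i ≠ k → ¬Hole i (η / Fintype.card ι) (op ψ ψ) := by
    by_cases h : ∃ k, Hole k (η / Fintype.card ι) (op ψ ψ)
    · obtain ⟨k, h⟩ := h
      exact ⟨k, fun i hi h' => hc ⟨i, k, hi, h', h⟩⟩
    · exact ⟨Classical.arbitrary ι, fun i _ h' => h ⟨i, h'⟩⟩
  have hv : ∀ i, ∃ v : α → ℂ, nv v = 1 ∧
      (i ≠ k → 1 - η / Fintype.card ι ≤ tp (op ψ ψ) (lift i (op v v))) := fun i => by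
    by_cases hi : i = k
    · exact ⟨_, nv_single o, fun h => absurd hi h⟩
    · have := hk i hi
      simp only [Hole, not_forall, not_le] at this
      obtain ⟨v, h1, h2⟩ := this
      exact ⟨v, h1, fun _ => h2.le⟩
  choose v hv hl using hv
  choose V h1 h2 h3 using fun i => exists_uni (hv i) (nv_single o)
  have e : ∀ i, v i = (V i)ᴴ *ᵥ Pi.single o 1 := fun i => by
    rw [← h3 i, mulVec_mulVec, h1, one_mulVec]
  have a1 := (Bd.rot (m := ‖ψ fun _ => o‖) hF.2 h2).line o k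
  have a2 := union o k (pu V *ᵥ ψ)
  rw [nv_pu h1, hF.1.1] at a2
  have a3 := Finset.sum_le_card_nsmul (Finset.univ.erase k)
    (fun i => 1 - ∑ x, if x i = o then ‖(pu V *ᵥ ψ) x‖ ^ 2 else 0) (η / Fintype.card ι)
    fun i hi => by
      have := hl i (Finset.mem_erase.1 hi).1
      rw [e i, tp_rot h1] at this
      linarith
  have hn : (0 : ℝ) < Fintype.card ι := by exact_mod_cast Fintype.card_pos
  have a4 : ((Finset.univ.erase k).card : ℝ) ≤ Fintype.card ι := by
    exact_mod_cast Finset.card_le_univ _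
  have a5 := mul_le_mul_of_nonneg_right a4 (div_pos hη hn).le
  rw [mul_div_cancel₀ _ hn.ne'] at a5
  rw [eps, nv_prp, hF.1.1] at hε
  rw [nsmul_eq_mul] at a3
  linarith

end Pool.Agent.MP_b746ed_mp.LD
end

section
/-! Large local dimension: reduction of the spectral inequality to the core inequality. -/

set_option autoImplicit false
set_option linter.unusedSectionVars false
open scoped ComplexOrder MatrixOrder
open Matrix

namespace Pool.Agent.MP_b746ed_mp.LD
open KF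
open H14 (trf dg)

namespace RED
variable {ι α : Type} [Fintype ι] [DecidableEq ι] [Fintype α] [DecidableEq α]

lemma sum_lev (D : ℝ) (x : Finset ι → ℝ) :
    ∑ S, x S * D ^ S.card = ∑ A : Finset ι, (D - 1) ^ A.card * ∑ S with A ⊆ S, x S := by
  have e : ∀ S : Finset ι, D ^ S.card = ∑ A : Finset ι with A ⊆ S, (D - 1) ^ A.card := fun S => by
    have := Finset.prod_one_add (f := fun _ : ι => D - 1) S
    simp only [add_sub_cancel, Finset.prod_const] at this
    rw [this]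
    exact Finset.sum_congr (by ext; simp) fun _ _ => rfl
  simp only [e, Finset.mul_sum, Finset.sum_filter]
  rw [Finset.sum_comm]
  refine Finset.sum_congr rfl fun A _ => Finset.sum_congr rfl fun S _ => ?_
  split_ifs <;> ring

lemma prod_eq (r : ι → ℝ) (A : Finset ι) :
    ∏ i ∈ Aᶜ, (1 + r i) = ∑ S : Finset ι with A ⊆ S, ∏ i ∈ Sᶜ, r i := by
  rw [Finset.prod_one_add]
  refine Finset.sum_nbij' compl compl ?_ ?_ ?_ ?_ ?_ <;> simp only [Finset.mem_powerset, Finset.subset_compl_comm, Finset.mem_filter, Finset.mem_univ, true_and, imp_self, implies_true, compl_le_compl_iff_le, compl_compl]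

lemma sp_spt (o : α) (r : ι → ℝ) (a : ι → α) : sp o r a = ∏ i ∈ (spt o a)ᶜ, (1 + r i) := by
  have : (spt o a)ᶜ = Finset.univ.filter fun i => a i = o := by ext; simp only [spt, ne_eq, Finset.compl_filter, Decidable.not_not, Finset.mem_filter, Finset.mem_univ, true_and]
  rw [this, Finset.prod_filter, sp]
  refine Finset.prod_congr rfl fun i _ => ?_
  split_ifs <;> simp

lemma sum_spt (o : α) (F : Finset ι → ℝ) :
    ∑ a : ι → α, F (spt o a) = ∑ A : Finset ι, ((Fintype.card α : ℝ) - 1) ^ A.card * F A := by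
  have : 1 ≤ Fintype.card α := Fintype.card_pos_iff.2 ⟨o⟩
  rw [← Finset.sum_fiberwise' Finset.univ (spt o) F]
  simp only [Finset.sum_const, card_spt, nsmul_eq_mul, Nat.cast_pow, Nat.cast_sub this,
    Nat.cast_one]

lemma sum_top {A : Finset ι} {x : Finset ι → ℝ} (h : ∀ S : Finset ι, A.card < S.card → x S = 0) :
    ∑ S with A ⊆ S, x S = x A := by
  refine Finset.sum_eq_single A (fun S hS hne => h S (Finset.card_lt_card ?_)) (by simp)
  exact ⟨(Finset.mem_filter.1 hS).2, fun h' => hne (h'.antisymm (Finset.mem_filter.1 hS).2)⟩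

/-- the weights for the core inequality -/
noncomputable def wa (k : ℕ) (c : Finset ι → ℝ) (S : Finset ι) : ℝ :=
  if S.card < k then 0 else if S.card = k then 1
  else if S.card = k + 1 then c S - max (∑ T with S ⊆ T, c T - 1) 0 else c S

lemma wa_hi {k : ℕ} (c : Finset ι → ℝ) {S : Finset ι} (h : k + 1 < S.card) : wa k c S = c S := by
  rw [wa, if_neg (by omega), if_neg (by omega), if_neg (by omega)]

lemma wa_mid {k : ℕ} (c : Finset ι → ℝ) {S : Finset ι} (h : S.card = k + 1) :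
    wa k c S = c S - max (∑ T with S ⊆ T, c T - 1) 0 := by
  rw [wa, if_neg (by omega), if_neg (by omega), if_pos h]

lemma wa_lo {k : ℕ} (c : Finset ι → ℝ) {S : Finset ι} (h : S.card ≤ k) : wa k c S ≤ 1 := by
  rw [wa]
  split_ifs <;> first | omega | norm_num

lemma comb {D : ℝ} (hD : 1 ≤ D) (k : ℕ) (c : Finset ι → ℝ) :
    tau0 D k (wa k c) + ∑ S, (c S - wa k c S) * D ^ S.card ≤
      ∑ A : Finset ι, (D - 1) ^ A.card * max (∑ S with A ⊆ S, c S - 1) 0 := by
  rw [sum_lev, tau0, Finset.sum_filter, ← Finset.sum_add_distrib]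
  refine Finset.sum_le_sum fun A _ => ?_
  have h0 : 0 ≤ (D - 1) ^ A.card := pow_nonneg (by linarith) _
  split_ifs with h
  · rw [← mul_add, Finset.sum_sub_distrib]
    exact mul_le_mul_of_nonneg_left (le_max_of_le_left (by linarith only [])) h0
  · rw [zero_add, sum_top fun S hS => by rw [wa_hi c (by omega), sub_self]]
    refine mul_le_mul_of_nonneg_left ?_ h0
    rcases (show A.card = k + 1 ∨ k + 1 < A.card by omega) with h | h
    · rw [wa_mid c h, sub_sub_cancel]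
    · rw [wa_hi c h, sub_self]; exact le_max_right _ _

lemma adm {k : ℕ} {γ b β : ℝ} {c : Finset ι → ℝ} (hγ : γ ≤ 1 / 2) (hb : β ≤ b)
    (hβ : 2 ^ Fintype.card ι * β ≤ 1 / 2) (h0 : ∀ S, 0 ≤ c S)
    (h1 : ∀ S : Finset ι, S.card = k + 1 → γ ≤ c S)
    (h2 : ∀ S : Finset ι, k + 1 < S.card → c S ≤ β) (hβ0 : 0 ≤ β) : Adm k γ b (wa k c) := by
  refine ⟨fun S h => if_pos h, fun S h => by rw [wa, if_neg (by omega), if_pos h], fun T h => ?_,
    fun S h => by rw [wa_hi c h]; exact ⟨h0 S, (h2 S h).trans hb⟩⟩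
  have e := sum_top (A := T) (x := fun S => c S - wa k c S) fun S hS => by
    rw [wa_hi c (by omega), sub_self]
  rw [Finset.sum_sub_distrib, wa_mid c h, sub_sub_cancel] at e
  have e2 := sum_top (A := T) (x := fun S => if S = T then c S else 0) fun S hS =>
    if_neg fun h => by simp [h] at hS
  have e3 : ∑ S with T ⊆ S, (c S - if S = T then c S else 0) ≤ 2 ^ Fintype.card ι * β := by
    refine (Finset.sum_le_card_nsmul _ _ β fun S hS => ?_).trans ?_
    · split_ifs with h'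
      · rwa [sub_self]
      · have := (Finset.mem_filter.1 hS).2
        have := Finset.card_lt_card ⟨this, fun h'' => h' (h''.antisymm this)⟩
        simpa using h2 S (by omega)
    · rw [nsmul_eq_mul]
      gcongr
      exact_mod_cast (Finset.card_le_univ _).trans_eq Fintype.card_finset
  rw [Finset.sum_sub_distrib, e2, if_pos rfl] at e3
  have := h1 T h
  have := le_max_left (∑ S with T ⊆ S, c S - 1) 0
  refine ⟨?_, by linarith only [e, this]⟩
  rw [wa_mid c h, le_sub_comm]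
  exact max_le (by linarith only [hγ, hβ, e3]) (by linarith)

lemma step {o : α} {ψ : (ι → α) → ℂ} {P : Matrix (ι → α) (ι → α) ℂ} {k : ℕ} {c a : Finset ι → ℝ}
    {L : ℝ} (hψ : nv ψ = 1) (hP : Con P) (h : Core o k a L ψ) (hx : ∀ S, a S ≤ c S)
    (hB : ∀ B : Finset ι, B.card ≤ k → L ≤ c B - a B) :
    tp P (∑ S, c S • XT o S ψ) ≤
      rt P + (tau0 (Fintype.card α) k a + ∑ S, (c S - a S) * (Fintype.card α : ℝ) ^ S.card) := by
  have h1 := h P hP
  have h2 : L * ∑ B : Finset ι with B.card ≤ k, tp (1 - P) (XT o B ψ) ≤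
      ∑ S, (c S - a S) * tp (1 - P) (XT o S ψ) := by
    rw [Finset.mul_sum, Finset.sum_filter]
    refine Finset.sum_le_sum fun S _ => ?_
    have := tp_nonneg hP.2 (nonneg_def.1 (XT_nonneg o S ψ))
    split_ifs with h
    · exact mul_le_mul_of_nonneg_right (hB S h) this
    · exact mul_nonneg (sub_nonneg.2 (hx S)) this
  have h3 : ∑ S, (c S - a S) * tp (1 - P) (XT o S ψ) =
      ∑ S, (c S - a S) * (Fintype.card α : ℝ) ^ S.card - ∑ S, c S * tp P (XT o S ψ) +
        ∑ S, a S * tp P (XT o S ψ) := by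
    rw [← Finset.sum_sub_distrib, ← Finset.sum_add_distrib]
    refine Finset.sum_congr rfl fun S _ => ?_
    rw [tp_compl, rt_XT, hψ]; ring
  simp only [HH, tp_sub, tp_sum, tp_rsmul, tp_one] at h1 ⊢
  rw [rt]
  linarith

lemma lo_hi {r : ι → ℝ} {g u : ℝ} (hg : 0 < g) (hg1 : g ≤ 1) (hu : 1 ≤ u) (h1 : ∀ i, u ≤ r i)
    (h2 : ∀ i, g * r i ≤ u) (U : Finset ι) : u ^ U.card ≤ ∏ i ∈ U, r i ∧
      ∏ i ∈ U, r i ≤ ∏ i ∈ U, (1 + r i) ∧
      (g / 2) ^ Fintype.card ι * ∏ i ∈ U, (1 + r i) ≤ u ^ U.card := by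
  have h0 : ∀ i, 0 ≤ r i := fun i => by linarith [h1 i]
  refine ⟨?_, Finset.prod_le_prod (fun i _ => h0 i) fun i _ => by linarith, ?_⟩
  · rw [← Finset.prod_const]
    exact Finset.prod_le_prod (fun _ _ => by linarith) fun i _ => h1 i
  · calc _ ≤ (g / 2) ^ U.card * ∏ i ∈ U, (1 + r i) :=
          mul_le_mul_of_nonneg_right
            (pow_le_pow_of_le_one (by positivity) (by linarith) (Finset.card_le_univ _))
            (Finset.prod_nonneg fun i _ => by linarith [h0 i])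
      _ = ∏ i ∈ U, (g / 2 * (1 + r i)) := by rw [Finset.prod_mul_distrib, Finset.prod_const]
      _ ≤ ∏ _i ∈ U, u := Finset.prod_le_prod (fun i _ => by have := h0 i; positivity)
            fun i _ => by linarith [h2 i]
      _ = _ := Finset.prod_const _

end RED

open RED in
theorem t_RED (hCORE : S_CORE) (hKM : S_KM) : S_RED := by
  intro ι _ _ g hg
  have hγ : 0 < (g / 2) ^ Fintype.card ι := by positivity
  obtain ⟨L0, hL0, hc⟩ := hCORE ι _ hγ
  set γ := (g / 2) ^ Fintype.card ι with hγe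
  set Λ : ℝ := L0 + 1 + 2 * 2 ^ Fintype.card ι with hΛ
  have h2 : (0 : ℝ) < 2 ^ Fintype.card ι := by positivity
  have hΛ0 : 0 < Λ := by positivity
  refine ⟨Λ / γ + L0 + 1, by positivity, fun α _ _ o r ψ P a0 hd hr hrr hF hP => ?_⟩
  have hq : 0 < Λ / γ := by positivity
  have hr0 : ∀ i, 0 ≤ r i := fun i => by linarith only [hr i, hL0, hq]
  have hρ : ∀ S : Finset ι, 0 ≤ ∏ i ∈ Sᶜ, r i := fun S => Finset.prod_nonneg fun i _ => hr0 i
  have hψ : nv ψ = 1 := hF.1.1
  have hP0 := (con_iff.1 hP).1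
  have hD : (1 : ℝ) ≤ Fintype.card α := by linarith only [hL0, hd, hq]
  have hD0 : ∀ m : ℕ, 0 ≤ ((Fintype.card α : ℝ) - 1) ^ m := fun m => pow_nonneg (by linarith) m
  have ht := one_le_sp o hr0 a0
  simp only [hKM ι α o r ψ, sp_spt] at ht ⊢
  rw [sum_spt o fun A => max (∏ i ∈ Aᶜ, (1 + r i) - ∏ i ∈ (spt o a0)ᶜ, (1 + r i)) 0]
  generalize spt o a0 = A0 at ht ⊢
  by_cases hA : A0 = ∅
  · subst hA
    refine le_add_of_le_of_nonneg ?_
      (Finset.sum_nonneg fun A _ => mul_nonneg (hD0 _) (le_max_right _ _))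
    rw [prod_eq, tp_sum, Finset.filter_true_of_mem (by simp), Finset.sum_mul]
    refine Finset.sum_le_sum fun S _ => ?_
    rw [tp_rsmul]
    refine mul_le_mul_of_nonneg_left ?_ (hρ S)
    simpa only [rt, hψ, one_smul, tp_one] using tp_mono hP0 (XT_le o S ψ)
  by_cases hU : A0 = Finset.univ
  · subst hU
    have e := sum_lev (Fintype.card α : ℝ) fun S : Finset ι =>
      ∏ i ∈ Sᶜ, r i - if S = Finset.univ then 1 else 0
    have e1 : ∑ S : Finset ι, (∏ i ∈ Sᶜ, r i - if S = Finset.univ then 1 else 0) *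
        tp P (XT o S ψ) ≤ _ := Finset.sum_le_sum (g := fun S : Finset ι =>
          (∏ i ∈ Sᶜ, r i - if S = Finset.univ then 1 else 0) * (Fintype.card α : ℝ) ^ S.card)
      fun S _ => mul_le_mul_of_nonneg_left
        (by simpa only [rt_XT, hψ, mul_one] using up_psd (XT_nonneg o S ψ) P hP) (by
          split_ifs with h
          · simp only [h, Finset.compl_univ, Finset.prod_empty, sub_self, Std.le_refl]
          · simpa only [sub_zero] using hρ S)
    rw [e] at e1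
    simp only [sub_mul, Finset.sum_sub_distrib, ite_mul, one_mul, zero_mul, Finset.sum_ite_eq',
      Finset.mem_univ, if_true, XT_univ, hψ, one_smul, tp_one, Finset.mem_filter,
      Finset.subset_univ, and_self, ← prod_eq] at e1
    simp only [tp_sum, tp_rsmul, Finset.compl_univ, Finset.prod_empty, one_mul, rt]
    refine (sub_le_iff_le_add'.1 e1).trans (add_le_add_right (Finset.sum_le_sum fun A _ => ?_) _)
    exact mul_le_mul_of_nonneg_left (le_max_left _ _) (hD0 _)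
  obtain ⟨k, hk⟩ : ∃ k, A0.card = k + 1 := Nat.exists_eq_succ_of_ne_zero (by simpa using hA)
  have hn : k + 2 ≤ Fintype.card ι := by
    have := (Finset.card_lt_iff_ne_univ A0).2 hU
    omega
  obtain ⟨j, -, hj⟩ := Finset.exists_min_image Finset.univ r
    (Finset.univ_nonempty_iff.2 (Fintype.card_pos_iff.1 (by omega)))
  have hu : 1 ≤ r j := by linarith only [hr j, hL0, hq]
  have hg1 : g ≤ 1 := by nlinarith only [hrr j j, hu]
  have lh := lo_hi hg hg1 hu (fun i => hj i (Finset.mem_univ i)) fun i => hrr i j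
  rw [← hγe] at lh
  have hγu : Λ ≤ γ * r j := (div_le_iff₀' hγ).1 (by linarith only [hr j, hL0])
  set t := ∏ i ∈ A0ᶜ, (1 + r i) with hte
  have ht0 : 0 < t := by linarith only [ht]
  have t1 : r j ^ A0ᶜ.card ≤ t := (lh _).1.trans (lh _).2.1
  have t2 : γ * t ≤ r j ^ A0ᶜ.card := (lh _).2.2
  have cc : ∀ S : Finset ι, Sᶜ.card + S.card = Fintype.card ι := Finset.card_compl_add_card
  have c1 : ∀ S : Finset ι, S.card = k + 1 → γ ≤ (∏ i ∈ Sᶜ, r i) / t := fun S h => by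
    rw [le_div_iff₀ ht0]
    refine t2.trans (le_trans (le_of_eq ?_) (lh _).1)
    congr 1
    have := cc S
    have := cc A0
    omega
  have c2 : ∀ S : Finset ι, k + 1 < S.card → (∏ i ∈ Sᶜ, r i) / t ≤ 1 / Λ := fun S h => by
    rw [div_le_div_iff₀ ht0 hΛ0, one_mul]
    have b1 : r j ^ (Sᶜ.card + 1) ≤ r j ^ A0ᶜ.card :=
      pow_le_pow_right₀ hu (by have := cc S; have := cc A0; omega)
    have b2 := mul_le_mul_of_nonneg_left (lh Sᶜ).2.1 hγ.le
    have b3 := mul_le_mul_of_nonneg_right (b2.trans (lh Sᶜ).2.2) (zero_le_one.trans hu)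
    have b4 := mul_le_mul_of_nonneg_left hγu (hρ S)
    rw [pow_succ] at b1
    linarith only [t1, b1, b3, b4]
  have c3 : ∀ S : Finset ι, S.card ≤ k → Λ ≤ (∏ i ∈ Sᶜ, r i) / t := fun S h => by
    rw [le_div_iff₀ ht0]
    have b1 : r j ^ (A0ᶜ.card + 1) ≤ r j ^ Sᶜ.card :=
      pow_le_pow_right₀ hu (by have := cc S; have := cc A0; omega)
    have b3 := mul_le_mul_of_nonneg_right t2 (zero_le_one.trans hu)
    have b4 := mul_le_mul_of_nonneg_right hγu ht0.le
    rw [pow_succ] at b1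
    linarith only [(lh Sᶜ).1, b1, b3, b4]
  have hγ2 : γ ≤ 1 / 2 := by
    have := pow_le_pow_of_le_one (a := g / 2) (by positivity) (by linarith only [hg1])
      (show 1 ≤ Fintype.card ι by omega)
    linarith only [hg1, this]
  have had := adm (b := 1 / L0) hγ2 (one_div_le_one_div_of_le hL0 (by linarith only [hγ, h2, hγ2]))
    (by rw [mul_one_div, div_le_iff₀ hΛ0]; linarith only [hL0]) (fun S => div_nonneg (hρ S) ht0.le) c1 c2
    (by positivity)
  have s1 := (step hψ hP (hc α o k _ ψ (by linarith only [hd, hq]) hn had hF) (fun S => ?_) fun B hB => by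
    linarith only [c3 B hB, wa_lo (fun S => (∏ i ∈ Sᶜ, r i) / t) hB, h2]).trans
    (add_le_add_right (comb hD k _) _)
  · have s2 := mul_le_mul_of_nonneg_left s1 ht0.le
    rw [← tp_rsmul, mul_add, Finset.smul_sum, Finset.mul_sum] at s2
    simp only [smul_smul, mul_div_cancel₀ _ ht0.ne', ← Finset.sum_div, ← prod_eq] at s2
    refine s2.trans (le_of_eq ?_)
    congr 1
    refine Finset.sum_congr rfl fun A _ => ?_
    rw [mul_left_comm, mul_max_of_nonneg _ _ ht0.le, mul_sub, mul_div_cancel₀ _ ht0.ne', mul_one,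
      mul_zero]
  · rcases (show S.card ≤ k ∨ S.card = k + 1 ∨ k + 1 < S.card by omega) with h | h | h
    · linarith only [c3 S h, wa_lo (fun S => (∏ i ∈ Sᶜ, r i) / t) h, hL0, h2]
    · rw [wa_mid _ h]; exact sub_le_self _ (le_max_right _ _)
    · rw [wa_hi _ h]

end Pool.Agent.MP_b746ed_mp.LD
end

section
set_option autoImplicit false
set_option linter.unusedSectionVars false
open scoped ComplexOrder MatrixOrder
open Matrix

namespace Pool.Agent.MP_b746ed_mp.LD
open KF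
open H14 (trf dg)

namespace FIN

lemma all_t {β : Type} [Fintype β] [Nonempty β] (σ : β → ℝ) {x y : ℝ} (h0 : 0 ≤ x)
    (h1 : x ≤ Fintype.card β) (H : ∀ a0, y ≤ σ a0 * x + ∑ a, max (σ a - σ a0) 0) (t : ℝ) :
    y ≤ t * x + ∑ a, max (σ a - t) 0 := by
  classical
  set A : Finset β := Finset.univ.filter fun a => t < σ a with hA
  have e0 : ∑ a, max (σ a - t) 0 = ∑ a ∈ A, σ a - t * A.card := by
    rw [← Finset.sum_add_sum_compl A, Finset.sum_congr rfl fun i hi => max_eq_left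
      (sub_nonneg.2 (Finset.mem_filter.1 hi).2.le), Finset.sum_eq_zero (s := Aᶜ) fun j hj =>
        max_eq_right (sub_nonpos.2 (not_lt.1 fun h => (Finset.mem_compl.1 hj)
          (Finset.mem_filter.2 ⟨Finset.mem_univ _, h⟩))), Finset.sum_sub_distrib, Finset.sum_const,
      nsmul_eq_mul]
    ring
  have e1 : ∀ s, (∀ i ∈ A, s ≤ σ i) → (∀ j, j ∉ A → σ j ≤ s) →
      ∑ a, max (σ a - s) 0 = ∑ a ∈ A, σ a - s * A.card := fun s p1 p2 => by
    rw [← Finset.sum_add_sum_compl A, Finset.sum_congr rfl fun i hi => max_eq_left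
      (sub_nonneg.2 (p1 i hi)), Finset.sum_eq_zero (s := Aᶜ) fun j hj =>
        max_eq_right (sub_nonpos.2 (p2 j (Finset.mem_compl.1 hj))), Finset.sum_sub_distrib,
      Finset.sum_const, nsmul_eq_mul]
    ring
  have hin : ∀ i ∈ A, t < σ i := fun i hi => (Finset.mem_filter.1 hi).2
  have hout : ∀ j, j ∉ A → σ j ≤ t := fun j hj =>
    not_lt.1 fun h => hj (Finset.mem_filter.2 ⟨Finset.mem_univ _, h⟩)
  have up : A.Nonempty → x ≤ A.card → y ≤ t * x + ∑ a, max (σ a - t) 0 := fun hne hx => by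
    obtain ⟨i, hi, h⟩ := Finset.exists_min_image A σ hne
    have := H i
    rw [e1 _ h fun j hj => (hout j hj).trans (hin i hi).le] at this
    rw [e0]
    linarith only [mul_nonneg (sub_nonneg.2 (hin i hi).le) (sub_nonneg.2 hx), this]
  have dn : Aᶜ.Nonempty → (A.card : ℝ) ≤ x → y ≤ t * x + ∑ a, max (σ a - t) 0 := fun hne hx => by
    obtain ⟨i, hi, h⟩ := Finset.exists_max_image Aᶜ σ hne
    have hi' := hout i (Finset.mem_compl.1 hi)
    have := H i
    rw [e1 _ (fun j hj => hi'.trans (hin j hj).le) fun j hj => h j (Finset.mem_compl.2 hj)] at this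
    rw [e0]
    linarith only [mul_nonneg (sub_nonneg.2 hi') (sub_nonneg.2 hx), this]
  rcases A.eq_empty_or_nonempty with h | h
  · exact dn (by rw [h, Finset.compl_empty]; exact Finset.univ_nonempty) (by rw [h]; simpa only [Finset.card_empty, CharP.cast_eq_zero] using h0)
  rcases Aᶜ.eq_empty_or_nonempty with h' | h'
  · refine up h ?_
    rw [(Finset.compl_eq_empty_iff A).1 h', Finset.card_univ]
    exact h1
  rcases le_total x A.card with hx | hx
  exacts [up h hx, dn h' hx]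

lemma conj_op {β : Type} [Fintype β] (U : Matrix β β ℂ) (x : β → ℂ) :
    U * op x x * Uᴴ = op (U *ᵥ x) (U *ᵥ x) := by
  rw [op, op, mul_vecMulVec, vecMulVec_mul, star_mulVec]

variable {ι α : Type} [Fintype ι] [DecidableEq ι] [Fintype α] [DecidableEq α]

/-- `kmap` as a linear map -/
noncomputable def kL (r : ι → ℝ) : Matrix (ι → α) (ι → α) ℂ →ₗ[ℂ] Matrix (ι → α) (ι → α) ℂ where
  toFun := kmap r
  map_add' X Y := by
    ext a b
    simp only [kmap, Matrix.add_apply, add_mul, Finset.sum_add_distrib, of_apply]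
  map_smul' c X := by
    ext a b
    simp only [kmap, Matrix.smul_apply, smul_eq_mul, mul_assoc, of_apply, RingHom.id_apply, Finset.mul_sum]

lemma bound [Nonempty ι] (hF : S_FRAME) (o : α) (r : ι → ℝ) (F : ℝ → ℝ)
    (H : ∀ ψ P, Frame o ψ → Con P → tp P (kmap r (op ψ ψ)) ≤ F (rt P))
    {ρ P : Matrix (ι → α) (ι → α) ℂ} (hρ : St ρ) (hP : Con P) : tp P (kmap r ρ) ≤ F (rt P) := by
  refine hρ.le_of_pure P (kL r) _ fun φ hφ => ?_
  obtain ⟨V, h1, h2, h3⟩ := hF ι α o φ (by rw [nv_eq_ip, hφ, Complex.one_re])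
  have u1 : (pu V)ᴴ * pu V = 1 := by
    rw [pu_conj, pu_mul]
    simp only [h1, pu_one]
  have u2 : pu V * (pu V)ᴴ = 1 := by
    rw [pu_conj, pu_mul]
    simp only [h2, pu_one]
  have hc : Con (pu V * P * (pu V)ᴴ) := by
    refine ⟨hP.1.mul_mul_conjTranspose_same _, ?_⟩
    have := hP.2.mul_mul_conjTranspose_same (pu V)
    rwa [Matrix.mul_sub, Matrix.sub_mul, Matrix.mul_one, u2] at this
  have h := H _ _ h3 hc
  have e1 : rt (pu V * P * (pu V)ᴴ) = rt P := by
    rw [rt_comm, ← Matrix.mul_assoc, u1, Matrix.one_mul]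
  have e2 : tp (pu V * P * (pu V)ᴴ) (pu V * kmap r (op φ φ) * (pu V)ᴴ) =
      tp P (kmap r (op φ φ)) := by
    have : pu V * P * (pu V)ᴴ * (pu V * kmap r (op φ φ) * (pu V)ᴴ) =
        pu V * (P * ((pu V)ᴴ * pu V) * kmap r (op φ φ)) * (pu V)ᴴ := by
      simp only [Matrix.mul_assoc]
    rw [tp, tp, this, u1, Matrix.mul_one, trace_mul_comm, ← Matrix.mul_assoc, u1, Matrix.one_mul]
  rw [← conj_op, kmap_cov r h1 h2, e1, e2] at h
  exact h

end FIN

theorem t_FIN (hRED : S_RED) (hFRAME : S_FRAME) : S_FIN := by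
  intro ι _ _ _ g hg
  obtain ⟨L, -, hL⟩ := hRED ι g hg
  refine ⟨L, fun α _ _ o q r hd hLd hq hr hLr hgr N hadd hsmul hU ρ hρ htr => ?_⟩
  have : Nonempty α := ⟨o⟩
  have hq' : ∀ i, 0 ≤ q i ∧ q i ≤ 1 := fun i => ⟨(hq i).1, (hq i).2.le⟩
  have hd0 : (0 : ℝ) < Fintype.card α := by
    have : 0 < Fintype.card α := by omega
    exact_mod_cast this
  have hre : (fun i => Fintype.card α * q i / (1 - q i)) = r := (funext hr).symm
  set c : ℝ := ∏ i, (1 - q i) / Fintype.card α with hc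
  have hc0 : 0 < c := Finset.prod_pos fun i _ => div_pos (by linarith only [(hq i).2]) hd0
  have hσ : ∀ a : ι → α, (∏ i, ((1 - q i) / Fintype.card α + q i * if a i = o then 1 else 0)) =
      c * sp o r a := fun a => by
    rw [hc, sp, ← Finset.prod_mul_distrib]
    refine Finset.prod_congr rfl fun i _ => ?_
    have : 1 - q i ≠ 0 := by linarith only [(hq i).2]
    rw [hr]
    split_ifs
    · field_simp
    · simp
  have htr' : ∀ X : Matrix (ι → α) (ι → α) ℂ, (chan q X).trace =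
      c * (X.trace * ∏ i, ((r i : ℂ) + Fintype.card α)) := fun X => by
    rw [chan_eq hd (fun i => (hq i).2), trace_smul, trace_kmap, smul_eq_mul, hc]
    simp only [hr]
  have h0 := htr' (op (Pi.single (fun _ => o) 1) (Pi.single (fun _ => o) 1))
  rw [trace_op, ip_single_self, chan_basis, trace_diagonal, ← htr, ← htr'] at h0
  rw [chan_basis]
  refine norm_of_bound N hadd hsmul hU (chan_psd hq' hρ).isHermitian _
    (by rw [← h0, ← Complex.ofReal_sum, Complex.ofReal_re]) fun P hP t => ?_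
  have p0 : 0 ≤ rt P := (Complex.nonneg_iff.1 hP.1.trace_nonneg).1
  have p1 : rt P ≤ Fintype.card (ι → α) := by
    have := (Complex.nonneg_iff.1 hP.2.trace_nonneg).1
    rw [trace_sub, trace_one, Complex.sub_re, Complex.natCast_re] at this
    exact sub_nonneg.1 this
  have h := mul_le_mul_of_nonneg_left (FIN.all_t (sp o r) p0 p1 (fun a0 =>
    FIN.bound hFRAME o r (fun x => sp o r a0 * x + ∑ a, max (sp o r a - sp o r a0) 0)
      (fun ψ Q hψ hQ => hL α o r ψ Q a0 hLd hLr hgr hψ hQ) ⟨hρ, htr⟩ hP) (t / c)) hc0.le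
  rw [chan_eq hd (fun i => (hq i).2), tp_smul, hre]
  refine h.trans (le_of_eq ?_)
  rw [mul_add, Finset.mul_sum, rt]
  congr 1
  · field_simp
  · refine Finset.sum_congr rfl fun a _ => ?_
    rw [hσ, mul_max_of_nonneg _ _ hc0.le, mul_zero]
    congr 1
    field_simp

end Pool.Agent.MP_b746ed_mp.LD
end

/-! ### Assembly -/

namespace Pool.Agent.MP_b746ed_mp.LD

theorem a_PEN : S_PEN := t_PEN
theorem a_RNG : S_RNG := t_RNG
theorem a_MRG : S_MRG := t_MRG
theorem a_REP : S_REP := t_REP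
theorem a_GS : S_GS := t_GS
theorem a_WIN : S_WIN := t_WIN a_GS
theorem a_TT : S_TT := t_TT
theorem a_ROT : S_ROT := t_ROT
theorem a_WEI : S_WEI := t_WEI
theorem a_LOCP : S_LOCP := t_LOCP
theorem a_LOC1 : S_LOC1 := t_LOC1 a_ROT a_WEI a_LOCP
theorem a_LOC : S_LOC := t_LOC a_LOC1 a_TT a_GS a_WIN
theorem a_LL12 : S_LL12 := t_LL12
theorem a_LLb : S_LLb := t_LLb
theorem a_LL4 : S_LL4 := t_LL4
theorem a_LLc : S_LLc := t_LLc a_LL4
theorem a_LLF : S_LLF := t_LLF a_LL12 a_LLb a_LLc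
theorem a_C4b : S_C4b := t_C4b
theorem a_C1 : S_C1 := t_C1
theorem a_C3 : S_C3 := t_C3
theorem a_C2 : S_C2 := t_C2
theorem a_C4a : S_C4a := t_C4a a_C2 a_C4b
theorem a_C5 : S_C5 := t_C5 a_C1 a_C3 a_C4a a_C4b a_LLF
theorem a_C6 : S_C6 := t_C6 a_C5
theorem a_C7 : S_C7 := t_C7 a_C6 a_PEN
theorem a_ASS1 : S_ASS1 := t_ASS1
theorem a_ASS2 : S_ASS2 := t_ASS2 a_ASS1
theorem a_SIG : S_SIG := t_SIG
theorem a_CL0 : S_CL0 := t_CL0 a_SIG a_C7
theorem a_CL : S_CL := t_CL a_CL0 a_ASS2 a_SIG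
theorem a_PUR : S_PUR := t_PUR
theorem a_PRD : S_PRD := t_PRD
theorem a_VM : S_VM := t_VM
theorem a_CRS : S_CRS := t_CRS
theorem a_KM : S_KM := t_KM
theorem a_RPL : S_RPL := t_RPL a_MRG a_REP a_VM
theorem a_RP2 : S_RP2 := t_RP2 a_RPL a_PRD
theorem a_UPY : S_UPY := t_UPY a_LOC a_CL a_PRD
theorem a_II1 : S_II1 := t_II1 a_RP2 a_UPY a_PUR
theorem a_II : S_II := t_II a_II1
theorem a_RA : S_RA := t_RA
theorem a_R6 : S_R6 := t_R6 a_CRS
theorem a_SOL : S_SOL := t_SOL
theorem a_NS : S_NS := t_NS a_RA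
theorem a_G0 : S_G0 := t_G0 a_R6 a_CRS
theorem a_F6 : S_F6 := t_F6 a_MRG a_SOL a_NS a_G0
theorem a_F5 : S_F5 := t_F5
theorem a_R10 : S_R10 := t_R10
theorem a_F23 : S_F23 := t_F23 a_CRS a_RA
theorem a_F4a : S_F4a := t_F4a
theorem a_F4 : S_F4 := t_F4 a_F23 a_F4a a_RA a_CRS
theorem a_I : S_I := t_I a_PEN a_RNG a_F23 a_F4 a_F5 a_F6 a_R10
theorem a_FRAME : S_FRAME := t_FRAME
theorem a_HOLES : S_HOLES := t_HOLES
theorem a_CORE : S_CORE := t_CORE a_I a_II a_HOLES
theorem a_RED : S_RED := t_RED a_CORE a_KM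
theorem a_FIN : S_FIN := t_FIN a_RED a_FRAME

end Pool.Agent.MP_b746ed_mp.LD
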